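import Mathlib

/-! # TEAM CM: the cubic moment of Hardy's function.  Common definitions. -/

open Complex MeasureTheory Filter Topology

namespace Pool.Agent.H304R4.CM

/-- `e(x) = exp(2 pi i x)` -/
noncomputable def ee (x : ℝ) : ℂ := Complex.exp ((2 * Real.pi * x : ℝ) * I)

/-- smooth weights supported in `[1/2, 2]` whose derivatives up to order `4` are at most `A` -/
structure Wt (A : ℝ) (w : ℝ → ℂ) : Prop where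
  smooth : ContDiff ℝ (⊤ : ℕ∞) w
  supp : ∀ x : ℝ, w x ≠ 0 → 1 / 2 ≤ x ∧ x ≤ 2
  bound : ∀ m : ℕ, m ≤ 4 → ∀ x : ℝ, ‖iteratedDeriv m w x‖ ≤ A

/-- the triple sum over a dyadic box -/
noncomputable def S3 (w₁ w₂ w₃ : ℝ → ℂ) (B C H : ℝ) : ℂ :=
  ∑ h ∈ Finset.Icc 1 ⌊2 * H⌋₊, ∑ b ∈ Finset.Icc 1 ⌊2 * B⌋₊, ∑ c ∈ Finset.Icc 1 ⌊2 * C⌋₊,
    w₁ ((b : ℝ) / B) * w₂ ((c : ℝ) / C) * w₃ ((h : ℝ) / H) * ee (((b : ℝ) * c / h) ^ 2 / 2)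

/-- the box bound: target of part 2, hypothesis of part 1 -/
def BoxBound : Prop :=
  ∃ K : ℝ, 1 ≤ K ∧ ∀ (A₁ A₂ A₃ : ℝ) (w₁ w₂ w₃ : ℝ → ℂ), Wt A₁ w₁ → Wt A₂ w₂ → Wt A₃ w₃ →
    ∀ B C H : ℝ, 1 ≤ B → 1 ≤ C → 1 ≤ H → H ≤ 8 * C → H ≤ (B * C / H) ^ (1 + 1 / 10000 : ℝ) →
    ‖S3 w₁ w₂ w₃ B C H‖ ≤ K * A₁ * A₂ * A₃ * (B * C / H) ^ (3 / 2 - 1 / 10000 : ℝ) * H

/-- Hardy's function -/
noncomputable def theta (t : ℝ) : ℂ :=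
  Complex.exp (-(t / 2 * Real.log Real.pi : ℝ) * I) * Complex.Gamma (1 / 4 + t / 2 * I) /
    (‖Complex.Gamma (1 / 4 + t / 2 * I)‖ : ℂ)

noncomputable def hZ (t : ℝ) : ℝ := (theta t * riemannZeta (1 / 2 + t * I)).re

end Pool.Agent.H304R4.CM
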