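import Mathlib
import Pool.Agent.H304R4.CM.Defs

/-! # TEAM CM, part 2 (exponential sum): definitions. -/

open Complex MeasureTheory Filter Topology

namespace Pool.Agent.H304R4.CM

/-- distance to the nearest integer -/
noncomputable def nd (x : ℝ) : ℝ := |x - round x|

/-- the phase after the two dimensional Weyl shift -/
noncomputable def ph (j k h b c : ℝ) : ℝ := 2 * (b * c + j * k) * (b * k + c * j) / h ^ 2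

/-- differenced sum -/
noncomputable def TT (ω₁ ω₂ ω₃ : ℝ → ℂ) (B C H : ℝ) (j k : ℤ) : ℂ :=
  ∑ h ∈ Finset.Icc 1 ⌊2 * H⌋₊, ∑ b ∈ Finset.Icc 1 ⌊2 * B⌋₊, ∑ c ∈ Finset.Icc 1 ⌊2 * C⌋₊,
    ω₁ ((b : ℝ) / B) * ω₂ ((c : ℝ) / C) * ω₃ ((h : ℝ) / H) * ee (ph j k h b c)

/-- differenced weight -/
noncomputable def dw (w : ℝ → ℂ) (t x : ℝ) : ℂ := w (x + t) * (starRingEnd ℂ) (w (x - t))

/-- the cubic form of the normalised phase -/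
noncomputable def PP (ρ x y : ℝ) : ℝ := 2 * x ^ 2 * y + 2 * ρ * x * y ^ 2

/-- normalised two dimensional oscillatory integral -/
noncomputable def II (a : ℝ × ℝ → ℂ) (ρ L n₁ n₂ : ℝ) : ℂ :=
  ∫ z : ℝ × ℝ, a z * ee (L * (PP ρ z.1 z.2 - n₁ * z.1 - n₂ * z.2))

/-- two variable amplitudes supported in `[1/2,2]^2`, derivatives up to order `r` at most `A` -/
structure Amp (r : ℕ) (A : ℝ) (a : ℝ × ℝ → ℂ) : Prop where
  smooth : ContDiff ℝ (⊤ : ℕ∞) a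
  supp : ∀ z : ℝ × ℝ, a z ≠ 0 → (1 / 2 ≤ z.1 ∧ z.1 ≤ 2) ∧ (1 / 2 ≤ z.2 ∧ z.2 ≤ 2)
  bound : ∀ m : ℕ, m ≤ r → ∀ z : ℝ × ℝ, ‖iteratedFDeriv ℝ m a z‖ ≤ A

/-- the integrals produced by Poisson summation in `b` and `c` (without the factor `B * C`) -/
noncomputable def Jh (ω₁ ω₂ : ℝ → ℂ) (B C j k h ν₁ ν₂ : ℝ) : ℂ :=
  ∫ z : ℝ × ℝ, ω₁ z.1 * ω₂ z.2 *
    ee (ph j k h (B * z.1) (C * z.2) - ν₁ * B * z.1 - ν₂ * C * z.2)

/-- normalised frequencies -/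
noncomputable def n1h (B C j k ν₁ h : ℝ) : ℝ := (ν₁ * h ^ 2 - 2 * j * k ^ 2) / (k * B * C)
noncomputable def n2h (B j k ν₂ h : ℝ) : ℝ := (ν₂ * h ^ 2 - 2 * j ^ 2 * k) / (k * B ^ 2)

/-- positive critical point of `PP ρ x y - n₁ x - n₂ y` -/
def IsC (ρ n₁ n₂ : ℝ) (z : ℝ × ℝ) : Prop :=
  0 < z.1 ∧ 0 < z.2 ∧ 4 * z.1 * z.2 + 2 * ρ * z.2 ^ 2 = n₁ ∧ 2 * z.1 ^ 2 + 4 * ρ * z.1 * z.2 = n₂

def bx (r : ℝ) : Set (ℝ × ℝ) := {z | (1 / r ≤ z.1 ∧ z.1 ≤ r) ∧ (1 / r ≤ z.2 ∧ z.2 ≤ r)}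

open Classical in
/-- the critical point (unique if it exists) -/
noncomputable def zc (ρ n₁ n₂ : ℝ) : ℝ × ℝ :=
  if h : ∃ z, IsC ρ n₁ n₂ z then h.choose else (0, 0)

/-- critical value function `F = 2 P(zc)` -/
noncomputable def Fc (ρ : ℝ) (n : ℝ × ℝ) : ℝ := 2 * PP ρ (zc ρ n.1 n.2).1 (zc ρ n.1 n.2).2

/-- large parameter -/
noncomputable def LL (B C H k : ℝ) : ℝ := k * B ^ 2 * C / H ^ 2

/-- critical point at `h = H` -/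
noncomputable def zH (B C H j k : ℝ) (ν : ℤ × ℤ) : ℝ × ℝ :=
  zc (j * C / (k * B)) (n1h B C j k ν.1 H) (n2h B j k ν.2 H)

/-- `s = k u + j v` -/
noncomputable def sH (B C H j k : ℝ) (ν : ℤ × ℤ) : ℝ :=
  k * (B * (zH B C H j k ν).1 / H) + j * (C * (zH B C H j k ν).2 / H)

/-- size of the radial second derivative -/
noncomputable def DH (B C H j k : ℝ) (ν : ℤ × ℤ) : ℝ := |j * k * sH B C H j k ν|

/-- radial frequency -/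
noncomputable def fH (B C H j k : ℝ) (ν : ℤ × ℤ) : ℝ :=
  4 * (B * (zH B C H j k ν).1 / H) * (C * (zH B C H j k ν).2 / H) * sH B C H j k ν

open Classical in
/-- the critical frequencies -/
noncomputable def Zs (B C H j k : ℝ) : Finset (ℤ × ℤ) :=
  ((Finset.Icc (-(⌈2000 * (LL B C H k + 1)⌉)) ⌈2000 * (LL B C H k + 1)⌉) ×ˢ
    (Finset.Icc (-(⌈2000 * (LL B C H k + 1)⌉)) ⌈2000 * (LL B C H k + 1)⌉)).filter
    (fun ν : ℤ × ℤ => ∃ z ∈ bx 16, IsC (j * C / (k * B)) (n1h B C j k ν.1 H) (n2h B j k ν.2 H) z)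

open Classical in
/-- bound for the radial sum -/
noncomputable def Th (H D f : ℝ) : ℝ :=
  if nd f ≤ D / H ^ 2 then (if D ≤ H then H else √(H ^ 3 / D) + √(D / H)) else min H (1 / nd f)

/-- balanced boxes -/
def Bal (B C H M : ℝ) : Prop :=
  M = B * C / H ∧ 1 ≤ B ∧ 1 ≤ C ∧ 1 ≤ H ∧ 1 ≤ M ∧
  (M ^ (1 - 1 / 800 : ℝ) ≤ B ∧ B ≤ M ^ (1 + 1 / 800 : ℝ)) ∧
  (M ^ (1 - 1 / 800 : ℝ) ≤ C ∧ C ≤ M ^ (1 + 1 / 800 : ℝ)) ∧
  (M ^ (1 - 1 / 800 : ℝ) ≤ H ∧ H ≤ M ^ (1 + 1 / 800 : ℝ))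

end Pool.Agent.H304R4.CM
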