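import Mathlib
import Pool.Agent.H304R4.CM.Defs
import Pool.Agent.H408R2.CM.PartOne

set_option autoImplicit false

open Complex MeasureTheory Filter Topology Asymptotics

namespace Pool.Agent.H304R4.CM

theorem theta_eq (t : ℝ) : theta t = (Real.pi : ℂ) ^ (-(I * t / 2)) *
    (Complex.Gamma (1 / 4 + I * t / 2) / (‖Complex.Gamma (1 / 4 + I * t / 2)‖ : ℂ)) := by
  have h1 : (1 / 4 + I * t / 2 : ℂ) = 1 / 4 + t / 2 * I := by ring
  have hpi : (Real.pi : ℂ) ≠ 0 := by exact_mod_cast Real.pi_ne_zero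
  unfold theta
  rw [h1, Complex.cpow_def_of_ne_zero hpi, ← Complex.ofReal_log Real.pi_pos.le, mul_div_assoc]
  congr 2
  push_cast
  ring

theorem final_of_box (hbox : BoxBound) :
    (∃ Z : ℝ → ℝ, ∀ t : ℝ, (Z t : ℂ) = (Real.pi : ℂ) ^ (-(I * t / 2)) *
      (Complex.Gamma (1 / 4 + I * t / 2) / (‖Complex.Gamma (1 / 4 + I * t / 2)‖ : ℂ)) *
      riemannZeta (1 / 2 + I * t)) ∧
    ∃ c : ℝ, 0 < c ∧ c < 1 ∧ ∀ Z : ℝ → ℝ, (∀ t : ℝ, (Z t : ℂ) = (Real.pi : ℂ) ^ (-(I * t / 2)) *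
      (Complex.Gamma (1 / 4 + I * t / 2) / (‖Complex.Gamma (1 / 4 + I * t / 2)‖ : ℂ)) *
      riemannZeta (1 / 2 + I * t)) →
      (fun T : ℝ => ∫ t in (0 : ℝ)..T, Z t ^ 3) =O[atTop] (fun T : ℝ => T ^ c) := by
  have hz : ∀ t : ℝ, (hZ t : ℂ) = (Real.pi : ℂ) ^ (-(I * t / 2)) *
      (Complex.Gamma (1 / 4 + I * t / 2) / (‖Complex.Gamma (1 / 4 + I * t / 2)‖ : ℂ)) *
      riemannZeta (1 / 2 + I * t) := by
    intro t
    rw [← theta_eq, Pool.Agent.H408R2.CM.Z.1 t]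
    unfold Pool.Agent.H408R2.CM.zc
    congr 2
    ring
  obtain ⟨c, C, hc0, hc1, hC⟩ := Pool.Agent.H408R2.CM.part_one_done hbox
  refine ⟨⟨hZ, hz⟩, c, hc0, hc1, fun Z hZ' => ?_⟩
  have he : Z = hZ := by
    funext t
    have := (hZ' t).trans (hz t).symm
    exact_mod_cast this
  subst he
  refine IsBigO.of_bound C ?_
  filter_upwards [eventually_ge_atTop (1 : ℝ)] with T hT
  rw [Real.norm_eq_abs, Real.norm_eq_abs, abs_of_nonneg (Real.rpow_nonneg (by linarith) c)]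
  exact hC T hT

end Pool.Agent.H304R4.CM
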