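import Pool.Agent.H304R4.CM.Stubs

set_option autoImplicit false

open Complex MeasureTheory Filter Topology

namespace Pool.Agent.H304R4.CM

namespace TA1

lemma Wt_nonneg {A : ℝ} {w : ℝ → ℂ} (h : Wt A w) : 0 ≤ A :=
  (norm_nonneg _).trans (h.bound 0 (by norm_num) 0)

/-- a number from which on `M^(-s) ≤ c` -/
lemma small_pow (c s : ℝ) (hc : 0 < c) (hs : 0 < s) : ∃ M₀ : ℝ, 1 ≤ M₀ ∧ ∀ M : ℝ, M₀ ≤ M →
    M ^ (-s) ≤ c := by
  have h := (tendsto_rpow_neg_atTop hs).eventually (gt_mem_nhds hc)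
  obtain ⟨M₁, h1⟩ := Filter.eventually_atTop.mp h
  exact ⟨max 1 M₁, le_max_left _ _, fun M hM => (h1 M (le_trans (le_max_right _ _) hM)).le⟩

end TA1

open TA1

theorem t_A1 (hE1 : S_E1) (hC6 : S_C6) : S_A1 := by
  obtain ⟨c, K, hc, hc1, hK, hE⟩ := hE1
  obtain ⟨K', M₁, hK', hM₁, hC⟩ := hC6 K hK
  obtain ⟨M₂, hM₂, hpow⟩ := small_pow c (43 / 100) hc (by norm_num)
  refine ⟨K * (K' + 4), max M₁ M₂, ?_, le_max_of_le_left hM₁, ?_⟩
  · nlinarith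
  intro A₁ A₂ A₃ ω₁ ω₂ ω₃ hw1 hw2 hw3 B C H M j k hBal hM hk hj hjk hlow hup
  have hA1 := Wt_nonneg hw1
  have hA2 := Wt_nonneg hw2
  have hA3 := Wt_nonneg hw3
  obtain ⟨hMdef, hB1, hC1, hH1, hM1, ⟨hB2, hB3⟩, ⟨hC2, hC3⟩, ⟨hH2, hH3⟩⟩ := hBal
  have hBal' : Bal B C H M := ⟨hMdef, hB1, hC1, hH1, hM1, ⟨hB2, hB3⟩, ⟨hC2, hC3⟩, ⟨hH2, hH3⟩⟩
  have hB0 : 0 < B := by linarith
  have hC0 : 0 < C := by linarith
  have hH0 : 0 < H := by linarith
  have hM0 : 0 < M := by linarith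
  have hk0 : (0:ℝ) < k := by exact_mod_cast hk
  have hj0 : (0:ℝ) < |(j : ℝ)| := by
    rw [abs_pos]; exact_mod_cast hj
  set Lam : ℝ := (k : ℝ) * B / H with hLam
  have hLam0 : 0 < Lam := by positivity
  have hLamM : Lam = (k : ℝ) / C * M := by
    rw [hLam, hMdef]; field_simp
  have hLam1 : 1 ≤ Lam := by
    rw [hLamM]
    calc (1:ℝ) ≤ M ^ (4 / 100 : ℝ) := Real.one_le_rpow hM1 (by norm_num)
      _ = M ^ (-96 / 100 : ℝ) * M := by
          rw [← Real.rpow_add_one hM0.ne']; norm_num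
      _ ≤ (k : ℝ) / C * M := mul_le_mul_of_nonneg_right hlow hM0.le
  have hLamU : Lam ≤ M ^ (57 / 100 : ℝ) := by
    rw [hLamM]
    calc (k : ℝ) / C * M ≤ M ^ (-43 / 100 : ℝ) * M := mul_le_mul_of_nonneg_right hup hM0.le
      _ = M ^ (57 / 100 : ℝ) := by
          rw [← Real.rpow_add_one hM0.ne']; norm_num
  have hLL : LL B C H k = Lam * M := by
    unfold LL; rw [hLam, hMdef]; field_simp
  have hLL1 : 1 ≤ LL B C H k := by
    rw [hLL]; exact one_le_mul_of_one_le_of_one_le hLam1 hM1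
  have hkc : (k : ℝ) / C ≤ c := by
    refine hup.trans ?_
    have := hpow M (le_trans (le_max_right _ _) hM)
    rw [show (-43 / 100 : ℝ) = -(43 / 100) by norm_num]
    exact this
  have h1 := hE A₁ A₂ A₃ ω₁ ω₂ ω₃ hw1 hw2 hw3 B C H j k hB1 hC1 hH1 hk hj hjk hkc hLL1
  have h2 := hC B C H M j k hBal' (le_trans (le_max_left _ _) hM) hk hj hjk hlow hup
  rw [← hLam] at h2
  set ka : ℝ := |(j : ℝ)| * C / (k * B) with hka
  have hka0 : 0 < ka := by positivity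
  have hka1 : ka ≤ 1 := by
    rw [hka, div_le_one (by positivity)]
    rw [div_le_div_iff₀ hB0 hC0] at hjk
    linarith
  set g : ℝ := (Int.gcd j k : ℝ) with hg
  have hg0 : 0 ≤ g := by rw [hg]; positivity
  set S : ℝ := ∑ ν ∈ Zs B C H j k, Th H (K * DH B C H j k ν) (fH B C H j k ν) with hS
  -- the three terms
  set T1 : ℝ := Lam ^ (5 / 2 : ℝ) * M ^ (1 / 2 : ℝ) with hT1
  set T2 : ℝ := M ^ (5 / 2 : ℝ) * Lam⁻¹ * ka ^ (-1 / 2 : ℝ) with hT2
  set T3 : ℝ := g * M ^ 2 * Lam⁻¹ with hT3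
  have hT1' : 0 ≤ T1 := by positivity
  have hT2' : 0 ≤ T2 := by positivity
  have hT3' : 0 ≤ T3 := by positivity
  have hBCL : B * C / LL B C H k = H / Lam := by
    rw [hLL, hLam, hMdef]; field_simp
  have hHle : H ≤ M ^ (1 / 800 : ℝ) * M := by
    rw [← Real.rpow_add_one hM0.ne']
    refine hH3.trans (le_of_eq ?_)
    norm_num
  have hmain : H / Lam * S ≤ K' * M ^ (11 / 200 : ℝ) * (T1 + T2 + T3) := by
    have hP0 : (0:ℝ) ≤ M ^ (1 / 20 : ℝ) := by positivity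
    have hstep : H / Lam * (K' * M ^ (1 / 20 : ℝ) * (Lam ^ (7 / 2 : ℝ) * M ^ (-1 / 2 : ℝ) +
        M ^ (3 / 2 : ℝ) * ka ^ (-1 / 2 : ℝ) + g * M)) ≤
        K' * M ^ (1 / 20 : ℝ) * (M ^ (1 / 800 : ℝ) * (T1 + T2 + T3)) := by
      have e1 : Lam ^ (7 / 2 : ℝ) = Lam ^ (5 / 2 : ℝ) * Lam := by
        rw [← Real.rpow_add_one hLam0.ne']; norm_num
      have e2 : M ^ (1 / 2 : ℝ) = M ^ (-1 / 2 : ℝ) * M := by
        rw [← Real.rpow_add_one hM0.ne']; norm_num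
      have e3 : M ^ (5 / 2 : ℝ) = M ^ (3 / 2 : ℝ) * M := by
        rw [← Real.rpow_add_one hM0.ne']; norm_num
      have e4 : H / Lam * (K' * M ^ (1 / 20 : ℝ) * (Lam ^ (7 / 2 : ℝ) * M ^ (-1 / 2 : ℝ) +
          M ^ (3 / 2 : ℝ) * ka ^ (-1 / 2 : ℝ) + g * M)) =
          K' * M ^ (1 / 20 : ℝ) * (H * (Lam ^ (5 / 2 : ℝ) * M ^ (-1 / 2 : ℝ) +
          M ^ (3 / 2 : ℝ) * Lam⁻¹ * ka ^ (-1 / 2 : ℝ) + g * M * Lam⁻¹)) := by
        rw [e1]; field_simp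
      rw [e4]
      apply mul_le_mul_of_nonneg_left _ (by positivity)
      have e5 : M ^ (1 / 800 : ℝ) * (T1 + T2 + T3) = (M ^ (1 / 800 : ℝ) * M) *
          (Lam ^ (5 / 2 : ℝ) * M ^ (-1 / 2 : ℝ) +
          M ^ (3 / 2 : ℝ) * Lam⁻¹ * ka ^ (-1 / 2 : ℝ) + g * M * Lam⁻¹) := by
        rw [hT1, hT2, hT3, e2, e3]; ring
      rw [e5]
      exact mul_le_mul_of_nonneg_right hHle (by positivity)
    calc H / Lam * S ≤ H / Lam * (K' * M ^ (1 / 20 : ℝ) * (Lam ^ (7 / 2 : ℝ) * M ^ (-1 / 2 : ℝ) +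
        M ^ (3 / 2 : ℝ) * ka ^ (-1 / 2 : ℝ) + g * M)) :=
          mul_le_mul_of_nonneg_left h2 (by positivity)
      _ ≤ K' * M ^ (1 / 20 : ℝ) * (M ^ (1 / 800 : ℝ) * (T1 + T2 + T3)) := hstep
      _ = K' * (M ^ (1 / 20 : ℝ) * M ^ (1 / 800 : ℝ)) * (T1 + T2 + T3) := by ring
      _ ≤ K' * M ^ (11 / 200 : ℝ) * (T1 + T2 + T3) := by
          apply mul_le_mul_of_nonneg_right _ (by positivity)
          apply mul_le_mul_of_nonneg_left _ (by linarith)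
          rw [← Real.rpow_add hM0]
          exact Real.rpow_le_rpow_of_exponent_le hM1 (by norm_num)
  have herr : B * C * H * (1 + LL B C H k / B) * (1 + LL B C H k / C) / LL B C H k ^ 2 ≤
      4 * M ^ (11 / 200 : ℝ) * T2 := by
    have hr : ∀ X : ℝ, X ≤ M ^ (1 + 1 / 800 : ℝ) → X / H ≤ M ^ (1 / 400 : ℝ) := by
      intro X hX
      rw [div_le_iff₀ hH0]
      calc X ≤ M ^ (1 + 1 / 800 : ℝ) := hX
        _ = M ^ (1 / 400 : ℝ) * M ^ (1 - 1 / 800 : ℝ) := by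
            rw [← Real.rpow_add hM0]; norm_num
        _ ≤ M ^ (1 / 400 : ℝ) * H := mul_le_mul_of_nonneg_left hH2 (by positivity)
    have hone : 1 ≤ M ^ (1 / 400 : ℝ) := Real.one_le_rpow hM1 (by norm_num)
    have hf : ∀ X : ℝ, X ≤ M ^ (1 + 1 / 800 : ℝ) → 1 + Lam * (X / H) ≤ 2 * Lam * M ^ (1 / 400 : ℝ) := by
      intro X hX
      have := hr X hX
      have h3 : Lam * (X / H) ≤ Lam * M ^ (1 / 400 : ℝ) := mul_le_mul_of_nonneg_left this hLam0.le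
      have h4 : 1 ≤ Lam * M ^ (1 / 400 : ℝ) := one_le_mul_of_one_le_of_one_le hLam1 hone
      linarith only [h3, h4]
    have e1 : LL B C H k / B = Lam * (C / H) := by
      rw [hLL, hMdef]; field_simp
    have e2 : LL B C H k / C = Lam * (B / H) := by
      rw [hLL, hMdef]; field_simp
    have hp1 := hf C hC3
    have hp2 := hf B hB3
    have hBCH : B * C * H = M * H ^ 2 := by rw [hMdef]; field_simp
    rw [e1, e2, hBCH, hLL]
    have hq : M * H ^ 2 * (1 + Lam * (C / H)) * (1 + Lam * (B / H)) ≤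
        M * H ^ 2 * (2 * Lam * M ^ (1 / 400 : ℝ)) * (2 * Lam * M ^ (1 / 400 : ℝ)) := by
      have hx : 0 ≤ 1 + Lam * (B / H) := by positivity
      have hy : 0 ≤ M * H ^ 2 * (2 * Lam * M ^ (1 / 400 : ℝ)) := by positivity
      calc M * H ^ 2 * (1 + Lam * (C / H)) * (1 + Lam * (B / H)) ≤
          M * H ^ 2 * (2 * Lam * M ^ (1 / 400 : ℝ)) * (1 + Lam * (B / H)) := by
            apply mul_le_mul_of_nonneg_right _ hx
            exact mul_le_mul_of_nonneg_left hp1 (by positivity)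
        _ ≤ _ := mul_le_mul_of_nonneg_left hp2 hy
    have hHH : H ^ 2 ≤ (M ^ (1 / 800 : ℝ) * M) ^ 2 := pow_le_pow_left₀ hH0.le hHle 2
    have hone' : 1 ≤ M ^ (11 / 200 : ℝ) := Real.one_le_rpow hM1 (by norm_num)
    have hkap : 1 ≤ ka ^ (-1 / 2 : ℝ) :=
      Real.one_le_rpow_of_pos_of_le_one_of_nonpos hka0 hka1 (by norm_num)
    have hT2low : M ^ (193 / 100 : ℝ) ≤ T2 := by
      rw [hT2]
      have h5 : M ^ (-57 / 100 : ℝ) ≤ Lam⁻¹ := by
        rw [show (-57 / 100 : ℝ) = -(57 / 100) by norm_num, Real.rpow_neg hM0.le]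
        exact inv_anti₀ hLam0 hLamU
      calc M ^ (193 / 100 : ℝ) = M ^ (5 / 2 : ℝ) * M ^ (-57 / 100 : ℝ) * 1 := by
            rw [← Real.rpow_add hM0]; norm_num
        _ ≤ M ^ (5 / 2 : ℝ) * Lam⁻¹ * ka ^ (-1 / 2 : ℝ) := by
            apply mul_le_mul _ hkap zero_le_one (by positivity)
            exact mul_le_mul_of_nonneg_left h5 (by positivity)
    have hbig : M * (M ^ (1 / 800 : ℝ)) ^ 2 * (M ^ (1 / 400 : ℝ)) ^ 2 ≤ M ^ (193 / 100 : ℝ) := by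
      have e3 : M * (M ^ (1 / 800 : ℝ)) ^ 2 * (M ^ (1 / 400 : ℝ)) ^ 2 = M ^ (1 + 3 / 400 : ℝ) := by
        rw [← Real.rpow_natCast, ← Real.rpow_natCast, ← Real.rpow_mul hM0.le,
          ← Real.rpow_mul hM0.le]
        nth_rewrite 1 [← Real.rpow_one M]
        rw [← Real.rpow_add hM0, ← Real.rpow_add hM0]
        norm_num
      rw [e3]
      exact Real.rpow_le_rpow_of_exponent_le hM1 (by norm_num)
    rw [div_le_iff₀ (by positivity)]
    calc M * H ^ 2 * (1 + Lam * (C / H)) * (1 + Lam * (B / H))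
        ≤ M * H ^ 2 * (2 * Lam * M ^ (1 / 400 : ℝ)) * (2 * Lam * M ^ (1 / 400 : ℝ)) := hq
      _ = H ^ 2 * (4 * M * Lam ^ 2 * (M ^ (1 / 400 : ℝ)) ^ 2) := by ring
      _ ≤ (M ^ (1 / 800 : ℝ) * M) ^ 2 * (4 * M * Lam ^ 2 * (M ^ (1 / 400 : ℝ)) ^ 2) :=
          mul_le_mul_of_nonneg_right hHH (by positivity)
      _ = 4 * (M * (M ^ (1 / 800 : ℝ)) ^ 2 * (M ^ (1 / 400 : ℝ)) ^ 2) * (Lam * M) ^ 2 := by ring
      _ ≤ 4 * (M ^ (193 / 100 : ℝ)) * (Lam * M) ^ 2 := by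
          apply mul_le_mul_of_nonneg_right _ (by positivity)
          exact mul_le_mul_of_nonneg_left hbig (by norm_num)
      _ ≤ 4 * (1 * T2) * (Lam * M) ^ 2 := by
          apply mul_le_mul_of_nonneg_right _ (by positivity)
          rw [one_mul]
          exact mul_le_mul_of_nonneg_left hT2low (by norm_num)
      _ ≤ 4 * (M ^ (11 / 200 : ℝ) * T2) * (Lam * M) ^ 2 := by
          apply mul_le_mul_of_nonneg_right _ (by positivity)
          apply mul_le_mul_of_nonneg_left _ (by norm_num)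
          exact mul_le_mul_of_nonneg_right hone' hT2'
      _ = 4 * M ^ (11 / 200 : ℝ) * T2 * (Lam * M) ^ 2 := by ring
  have hAAA : 0 ≤ K * A₁ * A₂ * A₃ := by positivity
  calc ‖TT ω₁ ω₂ ω₃ B C H j k‖
      ≤ K * A₁ * A₂ * A₃ * (B * C / LL B C H k * S +
        B * C * H * (1 + LL B C H k / B) * (1 + LL B C H k / C) / LL B C H k ^ 2) := h1
    _ ≤ K * A₁ * A₂ * A₃ * (K' * M ^ (11 / 200 : ℝ) * (T1 + T2 + T3) +
        4 * M ^ (11 / 200 : ℝ) * T2) := by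
        apply mul_le_mul_of_nonneg_left _ hAAA
        rw [hBCL]
        exact add_le_add hmain herr
    _ ≤ K * A₁ * A₂ * A₃ * (K' * M ^ (11 / 200 : ℝ) * (T1 + T2 + T3) +
        4 * M ^ (11 / 200 : ℝ) * (T1 + T2 + T3)) := by
        apply mul_le_mul_of_nonneg_left _ hAAA
        have h6 : T2 ≤ T1 + T2 + T3 := by linarith
        have h7 : 4 * M ^ (11 / 200 : ℝ) * T2 ≤ 4 * M ^ (11 / 200 : ℝ) * (T1 + T2 + T3) :=
          mul_le_mul_of_nonneg_left h6 (by positivity)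
        linarith
    _ = K * (K' + 4) * A₁ * A₂ * A₃ * M ^ (11 / 200 : ℝ) * (T1 + T2 + T3) := by ring

end Pool.Agent.H304R4.CM
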