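import Pool.Agent.H304R4.CM.Stubs

set_option autoImplicit false

open Complex MeasureTheory Filter Topology

namespace Pool.Agent.H304R4.CM

namespace TA2

lemma Wt_nonneg {A : ℝ} {w : ℝ → ℂ} (h : Wt A w) : 0 ≤ A :=
  (norm_nonneg _).trans (h.bound 0 (by norm_num) 0)

lemma Bal_symm {B C H M : ℝ} (h : Bal B C H M) : Bal C B H M := by
  obtain ⟨h1, h2, h3, h4, h5, h6, h7, h8⟩ := h
  exact ⟨by rw [h1, mul_comm B C], h3, h2, h4, h5, h7, h6, h8⟩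

/-- numerical bound for the axis pairs -/
lemma axis_num {B C H M : ℝ} (hBal : Bal B C H M) (N : ℕ) (hN1 : 1 ≤ N)
    (hN : (N : ℝ) ≤ C * M ^ (-43 / 100 : ℝ)) :
    (1 + Real.log (B * C * H * N)) ^ 4 *
      (N * C * (B ^ (3 / 2 : ℝ) * H ^ (-1 / 2 : ℝ)) + N * B * H + H ^ 3 / B) ≤
    3 * 801 ^ 4 * M ^ (26 / 10 : ℝ) := by
  obtain ⟨hMdef, hB1, hC1, hH1, hM1, ⟨hB2, hB3⟩, ⟨hC2, hC3⟩, ⟨hH2, hH3⟩⟩ := hBal
  have hM0 : 0 < M := by linarith only [hM1]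
  have hB0 : 0 < B := by linarith only [hB1]
  have hC0 : 0 < C := by linarith only [hC1]
  have hH0 : 0 < H := by linarith only [hH1]
  have hN1' : (1:ℝ) ≤ N := by exact_mod_cast hN1
  have hN0 : (0:ℝ) < N := by linarith only [hN1']
  have hNle : (N : ℝ) ≤ M ^ (57125 / 100000 : ℝ) := by
    refine hN.trans ?_
    calc C * M ^ (-43 / 100 : ℝ) ≤ M ^ (1 + 1 / 800 : ℝ) * M ^ (-43 / 100 : ℝ) :=
          mul_le_mul_of_nonneg_right hC3 (by positivity)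
      _ = M ^ (57125 / 100000 : ℝ) := by rw [← Real.rpow_add hM0]; norm_num
  have hB32 : B ^ (3 / 2 : ℝ) ≤ M ^ ((1 + 1 / 800) * (3 / 2) : ℝ) := by
    rw [Real.rpow_mul hM0.le]
    exact Real.rpow_le_rpow hB0.le hB3 (by norm_num)
  have hH12 : H ^ (-1 / 2 : ℝ) ≤ M ^ ((1 - 1 / 800) * (-1 / 2) : ℝ) := by
    rw [Real.rpow_mul hM0.le]
    exact Real.rpow_le_rpow_of_nonpos (by positivity) hH2 (by norm_num)
  have hT1 : N * C * (B ^ (3 / 2 : ℝ) * H ^ (-1 / 2 : ℝ)) ≤ M ^ (2575 / 1000 : ℝ) := by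
    calc (N : ℝ) * C * (B ^ (3 / 2 : ℝ) * H ^ (-1 / 2 : ℝ)) ≤
        M ^ (57125 / 100000 : ℝ) * M ^ (1 + 1 / 800 : ℝ) *
          (M ^ ((1 + 1 / 800) * (3 / 2) : ℝ) * M ^ ((1 - 1 / 800) * (-1 / 2) : ℝ)) := by
          apply mul_le_mul
          · exact mul_le_mul hNle hC3 hC0.le (by positivity)
          · exact mul_le_mul hB32 hH12 (by positivity) (by positivity)
          · positivity
          · positivity
      _ = M ^ (2575 / 1000 : ℝ) := by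
          rw [← Real.rpow_add hM0, ← Real.rpow_add hM0, ← Real.rpow_add hM0]; norm_num
  have hT2 : N * B * H ≤ M ^ (2575 / 1000 : ℝ) := by
    calc (N : ℝ) * B * H ≤
        M ^ (57125 / 100000 : ℝ) * M ^ (1 + 1 / 800 : ℝ) * M ^ (1 + 1 / 800 : ℝ) := by
          apply mul_le_mul _ hH3 hH0.le (by positivity)
          exact mul_le_mul hNle hB3 hB0.le (by positivity)
      _ = M ^ (257375 / 100000 : ℝ) := by
          rw [← Real.rpow_add hM0, ← Real.rpow_add hM0]; norm_num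
      _ ≤ M ^ (2575 / 1000 : ℝ) := Real.rpow_le_rpow_of_exponent_le hM1 (by norm_num)
  have hT3 : H ^ 3 / B ≤ M ^ (2575 / 1000 : ℝ) := by
    rw [div_le_iff₀ hB0]
    calc H ^ 3 ≤ (M ^ (1 + 1 / 800 : ℝ)) ^ 3 := pow_le_pow_left₀ hH0.le hH3 3
      _ = M ^ ((1 + 1 / 800) * 3 : ℝ) := by
          rw [← Real.rpow_natCast, ← Real.rpow_mul hM0.le]; norm_num
      _ ≤ M ^ (2575 / 1000 + (1 - 1 / 800) : ℝ) :=
          Real.rpow_le_rpow_of_exponent_le hM1 (by norm_num)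
      _ = M ^ (2575 / 1000 : ℝ) * M ^ (1 - 1 / 800 : ℝ) := by rw [Real.rpow_add hM0]
      _ ≤ M ^ (2575 / 1000 : ℝ) * B := mul_le_mul_of_nonneg_left hB2 (by positivity)
  have hsum : N * C * (B ^ (3 / 2 : ℝ) * H ^ (-1 / 2 : ℝ)) + N * B * H + H ^ 3 / B ≤
      3 * M ^ (2575 / 1000 : ℝ) := by linarith only [hT1, hT2, hT3]
  -- the logarithm
  have hprod1 : 1 ≤ B * C * H * N := by
    have h1 : 1 ≤ B * C := one_le_mul_of_one_le_of_one_le hB1 hC1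
    have h2 : 1 ≤ B * C * H := one_le_mul_of_one_le_of_one_le h1 hH1
    exact one_le_mul_of_one_le_of_one_le h2 hN1'
  have hprod2 : B * C * H * N ≤ M ^ (4 : ℝ) := by
    calc B * C * H * N ≤ M ^ (1 + 1 / 800 : ℝ) * M ^ (1 + 1 / 800 : ℝ) * M ^ (1 + 1 / 800 : ℝ) *
          M ^ (57125 / 100000 : ℝ) := by
          apply mul_le_mul _ hNle hN0.le (by positivity)
          apply mul_le_mul _ hH3 hH0.le (by positivity)
          exact mul_le_mul hB3 hC3 hC0.le (by positivity)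
      _ = M ^ (3575 / 1000 : ℝ) := by
          rw [← Real.rpow_add hM0, ← Real.rpow_add hM0, ← Real.rpow_add hM0]; norm_num
      _ ≤ M ^ (4 : ℝ) := Real.rpow_le_rpow_of_exponent_le hM1 (by norm_num)
  have hlog0 : 0 ≤ Real.log (B * C * H * N) := Real.log_nonneg hprod1
  have hlog1 : Real.log (B * C * H * N) ≤ 800 * M ^ (1 / 200 : ℝ) := by
    calc Real.log (B * C * H * N) ≤ Real.log (M ^ (4 : ℝ)) :=
          Real.log_le_log (by linarith only [hprod1]) hprod2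
      _ = 4 * Real.log M := Real.log_rpow hM0 4
      _ ≤ 4 * (M ^ (1 / 200 : ℝ) / (1 / 200)) := by
          apply mul_le_mul_of_nonneg_left _ (by norm_num)
          exact Real.log_le_rpow_div hM0.le (by norm_num)
      _ = 800 * M ^ (1 / 200 : ℝ) := by ring
  have hone : 1 ≤ M ^ (1 / 200 : ℝ) := Real.one_le_rpow hM1 (by norm_num)
  have hlog4 : (1 + Real.log (B * C * H * N)) ^ 4 ≤ 801 ^ 4 * M ^ (4 / 200 : ℝ) := by
    calc (1 + Real.log (B * C * H * N)) ^ 4 ≤ (801 * M ^ (1 / 200 : ℝ)) ^ 4 := by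
          apply pow_le_pow_left₀ (by linarith only [hlog0])
          linarith only [hlog1, hone]
      _ = 801 ^ 4 * M ^ (4 / 200 : ℝ) := by
          rw [mul_pow]
          congr 1
          rw [← Real.rpow_natCast, ← Real.rpow_mul hM0.le]; norm_num
  calc (1 + Real.log (B * C * H * N)) ^ 4 *
      (N * C * (B ^ (3 / 2 : ℝ) * H ^ (-1 / 2 : ℝ)) + N * B * H + H ^ 3 / B)
      ≤ (801 ^ 4 * M ^ (4 / 200 : ℝ)) * (3 * M ^ (2575 / 1000 : ℝ)) := by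
        apply mul_le_mul hlog4 hsum (by positivity) (by positivity)
    _ = 3 * 801 ^ 4 * (M ^ (4 / 200 : ℝ) * M ^ (2575 / 1000 : ℝ)) := by ring
    _ = 3 * 801 ^ 4 * M ^ (2595 / 1000 : ℝ) := by
        rw [← Real.rpow_add hM0]; norm_num
    _ ≤ 3 * 801 ^ 4 * M ^ (26 / 10 : ℝ) := by
        apply mul_le_mul_of_nonneg_left _ (by norm_num)
        exact Real.rpow_le_rpow_of_exponent_le hM1 (by norm_num)

lemma sum_le_of_inj {α β : Type*} [DecidableEq β] (s : Finset α) (t : Finset β) (f : α → ℝ)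
    (g : β → ℝ) (e : α → β) (he : ∀ x ∈ s, e x ∈ t)
    (inj : ∀ x ∈ s, ∀ y ∈ s, e x = e y → x = y) (hfg : ∀ x ∈ s, f x ≤ g (e x))
    (hg : ∀ y ∈ t, 0 ≤ g y) : ∑ x ∈ s, f x ≤ ∑ y ∈ t, g y := by
  calc ∑ x ∈ s, f x ≤ ∑ x ∈ s, g (e x) := Finset.sum_le_sum hfg
    _ = ∑ y ∈ s.image e, g y := by
        rw [Finset.sum_image]
        intro x hx y hy h
        exact inj x hx y hy h
    _ ≤ ∑ y ∈ t, g y := by
        apply Finset.sum_le_sum_of_subset_of_nonneg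
        · intro y hy
          obtain ⟨x, hx, rfl⟩ := Finset.mem_image.mp hy
          exact he x hx
        · intro y hy _
          exact hg y hy

/-- the bound for a half plane of pairs -/
def Half (Kh M₁ : ℝ) : Prop := ∀ (A₁ A₂ A₃ : ℝ) (ω₁ ω₂ : ℤ → ℝ → ℂ) (ω₃ : ℝ → ℂ),
  (∀ j, Wt A₁ (ω₁ j)) → (∀ k, Wt A₂ (ω₂ k)) → Wt A₃ ω₃ →
  ∀ (B C H M : ℝ) (S : Finset (ℤ × ℤ)), Bal B C H M → M₁ ≤ M →
  (∀ p ∈ S, 0 < p.2 ∧ |(p.1 : ℝ)| / B ≤ p.2 / C ∧ (p.2 : ℝ) / C ≤ M ^ (-43 / 100 : ℝ)) →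
  ∑ p ∈ S, ‖TT (ω₁ p.1) (ω₂ p.2) ω₃ B C H p.1 p.2‖ ≤
    Kh * (A₁ * A₂ * A₃) * (B * C * M ^ (-86 / 100 : ℝ) * M ^ (199 / 100 : ℝ) +
      M ^ (26 / 10 : ℝ))

lemma half_of (hUA : S_UA) (hA2a : S_A2a) : ∃ Kh M₁ : ℝ, 1 ≤ Kh ∧ 1 ≤ M₁ ∧ Half Kh M₁ := by
  obtain ⟨KU, hKU, hU⟩ := hUA
  obtain ⟨KA, M₁, hKA, hM₁, hA⟩ := hA2a
  refine ⟨KA + KU * (3 * 801 ^ 4), M₁, by nlinarith, hM₁, ?_⟩
  intro A₁ A₂ A₃ ω₁ ω₂ ω₃ hw1 hw2 hw3 B C H M S hBal hM hS
  have hA1 := Wt_nonneg (hw1 0)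
  have hA2 := Wt_nonneg (hw2 0)
  have hA3 := Wt_nonneg hw3
  have hM1 : 1 ≤ M := hM₁.trans hM
  have hM0 : 0 < M := by linarith only [hM1]
  obtain ⟨hMdef, hB1, hC1, hH1, _, ⟨hB2, hB3⟩, ⟨hC2, hC3⟩, ⟨hH2, hH3⟩⟩ := hBal
  have hBal' : Bal B C H M := ⟨hMdef, hB1, hC1, hH1, hM1, ⟨hB2, hB3⟩, ⟨hC2, hC3⟩, ⟨hH2, hH3⟩⟩
  have hB0 : 0 < B := by linarith only [hB1]
  have hC0 : 0 < C := by linarith only [hC1]
  have hH0 : 0 < H := by linarith only [hH1]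
  set f : ℤ × ℤ → ℝ := fun p => ‖TT (ω₁ p.1) (ω₂ p.2) ω₃ B C H p.1 p.2‖ with hf
  have hsplit : ∑ p ∈ S, f p = ∑ p ∈ S with p.1 ≠ 0, f p + ∑ p ∈ S with ¬ p.1 ≠ 0, f p :=
    (Finset.sum_filter_add_sum_filter_not S _ f).symm
  have hoff : ∑ p ∈ S with p.1 ≠ 0, f p ≤
      KA * A₁ * A₂ * A₃ * (B * C * M ^ (-86 / 100 : ℝ)) * M ^ (199 / 100 : ℝ) := by
    refine hA A₁ A₂ A₃ (fun j _ => ω₁ j) (fun _ k => ω₂ k) ω₃ (fun j _ => hw1 j)
      (fun _ k => hw2 k) hw3 B C H M _ hBal' hM ?_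
    intro p hp
    rw [Finset.mem_filter] at hp
    obtain ⟨h1, h2, h3⟩ := hS p hp.1
    exact ⟨h1, hp.2, h2, h3⟩
  set N : ℕ := ⌊C * M ^ (-43 / 100 : ℝ)⌋₊ with hNdef
  have hCM : 1 ≤ C * M ^ (-43 / 100 : ℝ) := by
    calc (1:ℝ) ≤ M ^ ((1 - 1 / 800) + (-43 / 100) : ℝ) := Real.one_le_rpow hM1 (by norm_num)
      _ = M ^ (1 - 1 / 800 : ℝ) * M ^ (-43 / 100 : ℝ) := Real.rpow_add hM0 _ _
      _ ≤ C * M ^ (-43 / 100 : ℝ) := mul_le_mul_of_nonneg_right hC2 (by positivity)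
  have hN1 : 1 ≤ N := by
    rw [hNdef]
    exact Nat.le_floor (by simpa using hCM)
  have hNle : (N : ℝ) ≤ C * M ^ (-43 / 100 : ℝ) := Nat.floor_le (by positivity)
  have hax : ∑ p ∈ S with ¬ p.1 ≠ 0, f p ≤
      KU * A₁ * A₂ * A₃ * (3 * 801 ^ 4 * M ^ (26 / 10 : ℝ)) := by
    have h1 := hU A₁ A₂ A₃ (ω₁ 0) ω₃ ω₂ (hw1 0) hw2 hw3 B C H N hB1 hC1 hH1 hN1
    have h2 := axis_num hBal' N hN1 hNle
    have h3 : ∑ p ∈ S with ¬ p.1 ≠ 0, f p ≤
        ∑ k ∈ Finset.Icc 1 N, ‖TT (ω₁ 0) (ω₂ (k : ℤ)) ω₃ B C H 0 (k : ℤ)‖ := by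
      apply sum_le_of_inj _ _ _ _ (fun p => p.2.toNat)
      · intro p hp
        rw [Finset.mem_filter] at hp
        obtain ⟨h4, _, h6⟩ := hS p hp.1
        rw [Finset.mem_Icc]
        refine ⟨by omega, ?_⟩
        rw [hNdef]
        apply Nat.le_floor
        rw [div_le_iff₀ hC0] at h6
        have h7 : ((p.2.toNat : ℕ) : ℝ) = (p.2 : ℝ) := by
          have : ((p.2.toNat : ℕ) : ℤ) = p.2 := Int.toNat_of_nonneg h4.le
          exact_mod_cast this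
        rw [h7]
        linarith only [h6]
      · intro p hp q hq he
        rw [Finset.mem_filter] at hp hq
        obtain ⟨h4, _, _⟩ := hS p hp.1
        obtain ⟨h5, _, _⟩ := hS q hq.1
        have hp1 : p.1 = 0 := by simpa using hp.2
        have hq1 : q.1 = 0 := by simpa using hq.2
        ext
        · rw [hp1, hq1]
        · omega
      · intro p hp
        rw [Finset.mem_filter] at hp
        obtain ⟨h4, _, _⟩ := hS p hp.1
        have hp1 : p.1 = 0 := by simpa using hp.2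
        have h7 : ((p.2.toNat : ℕ) : ℤ) = p.2 := Int.toNat_of_nonneg h4.le
        rw [hf]
        simp only
        rw [h7, hp1]
      · intro k _
        exact norm_nonneg _
    refine h3.trans (h1.trans ?_)
    rw [mul_assoc]
    exact mul_le_mul_of_nonneg_left h2 (by positivity)
  rw [hsplit]
  have hX : 0 ≤ B * C * M ^ (-86 / 100 : ℝ) * M ^ (199 / 100 : ℝ) := by positivity
  have hY : 0 ≤ M ^ (26 / 10 : ℝ) := by positivity
  have hAAA : 0 ≤ A₁ * A₂ * A₃ := by positivity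
  have hKA0 : 0 ≤ KA := by linarith only [hKA]
  have hKU0 : 0 ≤ KU := by linarith only [hKU]
  calc ∑ p ∈ S with p.1 ≠ 0, f p + ∑ p ∈ S with ¬ p.1 ≠ 0, f p
      ≤ KA * A₁ * A₂ * A₃ * (B * C * M ^ (-86 / 100 : ℝ)) * M ^ (199 / 100 : ℝ) +
        KU * A₁ * A₂ * A₃ * (3 * 801 ^ 4 * M ^ (26 / 10 : ℝ)) := add_le_add hoff hax
    _ = KA * (A₁ * A₂ * A₃) * (B * C * M ^ (-86 / 100 : ℝ) * M ^ (199 / 100 : ℝ)) +
        KU * (3 * 801 ^ 4) * (A₁ * A₂ * A₃) * M ^ (26 / 10 : ℝ) := by ring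
    _ ≤ (KA + KU * (3 * 801 ^ 4)) * (A₁ * A₂ * A₃) *
          (B * C * M ^ (-86 / 100 : ℝ) * M ^ (199 / 100 : ℝ) + M ^ (26 / 10 : ℝ)) := by
        have h1 : 0 ≤ KA * (A₁ * A₂ * A₃) * M ^ (26 / 10 : ℝ) := by positivity
        have h2 : 0 ≤ KU * (3 * 801 ^ 4) * (A₁ * A₂ * A₃) *
          (B * C * M ^ (-86 / 100 : ℝ) * M ^ (199 / 100 : ℝ)) := by positivity
        nlinarith only [h1, h2]

lemma cover5 {α : Type*} (P : Finset α) (f : α → ℝ) (hf : ∀ x, 0 ≤ f x)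
    (p : Fin 5 → α → Prop) [∀ i, DecidablePred (p i)] (h : ∀ x ∈ P, ∃ i, p i x) :
    ∑ x ∈ P, f x ≤ ∑ i, ∑ x ∈ P.filter (p i), f x := by
  have : ∑ i, ∑ x ∈ P.filter (p i), f x = ∑ x ∈ P, ∑ i, if p i x then f x else 0 := by
    rw [Finset.sum_comm]
    apply Finset.sum_congr rfl
    intro i _
    rw [Finset.sum_filter]
  rw [this]
  apply Finset.sum_le_sum
  intro x hx
  obtain ⟨i, hi⟩ := h x hx
  calc f x = if p i x then f x else 0 := by rw [if_pos hi]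
    _ ≤ ∑ i, if p i x then f x else 0 := by
        apply Finset.single_le_sum (f := fun i => if p i x then f x else 0) _ (Finset.mem_univ i)
        intro i _
        split_ifs
        · exact hf x
        · exact le_refl _

end TA2

open TA2

theorem t_A2 (hW2 : S_W2) (hW3 : S_W3) (hSY : S_SY) (hUA : S_UA) (hA2a : S_A2a) : S_A2 := by
  obtain ⟨KW, hKW, hW⟩ := hW2
  obtain ⟨hdw, hcj⟩ := hW3
  obtain ⟨hs1, hs2, _, hs4⟩ := hSY
  obtain ⟨Kh, M₁, hKh, hM₁, hHalf⟩ := half_of hUA hA2a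
  refine ⟨KW * 4 * 4096 * (8 + 8 * Kh), M₁, by nlinarith, hM₁, ?_⟩
  intro A₁ A₂ A₃ w₁ w₂ w₃ hw1 hw2 hw3 B C H M hBal hM
  have hA1 := Wt_nonneg hw1
  have hA2 := Wt_nonneg hw2
  have hA3 := Wt_nonneg hw3
  have hM1 : 1 ≤ M := hM₁.trans hM
  have hM0 : 0 < M := by linarith only [hM1]
  have hBals := Bal_symm hBal
  obtain ⟨hMdef, hB1, hC1, hH1, _, ⟨hB2, hB3⟩, ⟨hC2, hC3⟩, ⟨hH2, hH3⟩⟩ := id hBal
  have hB0 : 0 < B := by linarith only [hB1]
  have hC0 : 0 < C := by linarith only [hC1]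
  have hH0 : 0 < H := by linarith only [hH1]
  set J : ℕ := ⌊B * M ^ (-43 / 100 : ℝ)⌋₊ with hJdef
  set N : ℕ := ⌊C * M ^ (-43 / 100 : ℝ)⌋₊ with hNdef
  have hbig : ∀ X : ℝ, M ^ (1 - 1 / 800 : ℝ) ≤ X → 1 ≤ X * M ^ (-43 / 100 : ℝ) := by
    intro X hX
    calc (1:ℝ) ≤ M ^ ((1 - 1 / 800) + (-43 / 100) : ℝ) := Real.one_le_rpow hM1 (by norm_num)
      _ = M ^ (1 - 1 / 800 : ℝ) * M ^ (-43 / 100 : ℝ) := Real.rpow_add hM0 _ _
      _ ≤ X * M ^ (-43 / 100 : ℝ) := mul_le_mul_of_nonneg_right hX (by positivity)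
  have hfl : ∀ x : ℝ, 1 ≤ x → 1 ≤ ⌊x⌋₊ ∧ x / 2 ≤ (⌊x⌋₊ : ℝ) ∧ (⌊x⌋₊ : ℝ) ≤ x := by
    intro x hx
    have h1 : 1 ≤ ⌊x⌋₊ := Nat.le_floor (by simpa using hx)
    have h2 : (⌊x⌋₊ : ℝ) ≤ x := Nat.floor_le (by linarith)
    have h3 : x < ⌊x⌋₊ + 1 := Nat.lt_floor_add_one x
    have h4 : (1:ℝ) ≤ ⌊x⌋₊ := by exact_mod_cast h1
    exact ⟨h1, by linarith, h2⟩
  obtain ⟨hJ1, hJ2, hJ3⟩ := hfl _ (hbig B hB2)
  obtain ⟨hN1, hN2, hN3⟩ := hfl _ (hbig C hC2)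
  rw [← hJdef] at hJ1 hJ2 hJ3
  rw [← hNdef] at hN1 hN2 hN3
  have hMneg : M ^ (-43 / 100 : ℝ) ≤ 1 := Real.rpow_le_one_of_one_le_of_nonpos hM1 (by norm_num)
  have hMpos : 0 < M ^ (-43 / 100 : ℝ) := by positivity
  have hJB : (J : ℝ) ≤ B := hJ3.trans (by nlinarith only [hMneg, hB0])
  have hNC : (N : ℝ) ≤ C := hN3.trans (by nlinarith only [hMneg, hC0])
  have hmain := hW A₁ A₂ A₃ w₁ w₂ w₃ hw1 hw2 hw3 B C H hB1 hC1 hH1 J N hJ1 hN1 hJB hNC
  -- the families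
  set a : ℤ → ℝ → ℂ := fun j => dw w₁ (j / B) with ha
  set b : ℤ → ℝ → ℂ := fun k => dw w₂ (k / C) with hb
  set c : ℝ → ℂ := dw w₃ 0 with hc
  have haW : ∀ j, Wt (16 * A₁ ^ 2) (a j) := fun j => hdw A₁ w₁ _ hw1
  have hbW : ∀ k, Wt (16 * A₂ ^ 2) (b k) := fun k => hdw A₂ w₂ _ hw2
  have hcW : Wt (16 * A₃ ^ 2) c := hdw A₃ w₃ _ hw3
  set cj : (ℝ → ℂ) → (ℝ → ℂ) := fun w x => (starRingEnd ℂ) (w x) with hcjdef
  have hcjW : ∀ (A : ℝ) (w : ℝ → ℂ), Wt A w → Wt A (cj w) := fun A w h => hcj A w h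
  set f : ℤ × ℤ → ℝ := fun p => ‖TT (a p.1) (b p.2) c B C H p.1 p.2‖ with hf
  have hf0 : ∀ p, 0 ≤ f p := fun p => norm_nonneg _
  set P : Finset (ℤ × ℤ) := Finset.Ioo (-(J : ℤ)) J ×ˢ Finset.Ioo (-(N : ℤ)) N with hP
  have hPsum : ∑ j ∈ Finset.Ioo (-(J : ℤ)) J, ∑ k ∈ Finset.Ioo (-(N : ℤ)) N,
      ‖TT (dw w₁ (j / B)) (dw w₂ (k / C)) (dw w₃ 0) B C H j k‖ = ∑ p ∈ P, f p := by
    rw [hP, Finset.sum_product]
  have hPmem : ∀ p ∈ P, |(p.1 : ℝ)| / B ≤ M ^ (-43 / 100 : ℝ) ∧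
      |(p.2 : ℝ)| / C ≤ M ^ (-43 / 100 : ℝ) := by
    intro p hp
    rw [hP, Finset.mem_product, Finset.mem_Ioo, Finset.mem_Ioo] at hp
    obtain ⟨⟨h1, h2⟩, h3, h4⟩ := hp
    constructor
    · rw [div_le_iff₀ hB0, mul_comm]
      refine le_trans ?_ hJ3
      have : |p.1| ≤ (J : ℤ) := by rw [abs_le]; constructor <;> omega
      exact_mod_cast this
    · rw [div_le_iff₀ hC0, mul_comm]
      refine le_trans ?_ hN3
      have : |p.2| ≤ (N : ℤ) := by rw [abs_le]; constructor <;> omega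
      exact_mod_cast this
  set A' : ℝ := 16 * A₁ ^ 2 * (16 * A₂ ^ 2) * (16 * A₃ ^ 2) with hA'
  have hA'0 : 0 ≤ A' := by positivity
  set Z : ℝ := B * C * M ^ (-86 / 100 : ℝ) * M ^ (199 / 100 : ℝ) + M ^ (26 / 10 : ℝ) with hZ
  have hZ0 : 0 ≤ Z := by positivity
  classical
  -- the five parts
  set p : Fin 5 → ℤ × ℤ → Prop := ![fun x => x = (0, 0),
    fun x => 0 < x.2 ∧ |(x.1 : ℝ)| / B ≤ |(x.2 : ℝ)| / C,
    fun x => x.2 < 0 ∧ |(x.1 : ℝ)| / B ≤ |(x.2 : ℝ)| / C,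
    fun x => 0 < x.1 ∧ |(x.2 : ℝ)| / C ≤ |(x.1 : ℝ)| / B,
    fun x => x.1 < 0 ∧ |(x.2 : ℝ)| / C ≤ |(x.1 : ℝ)| / B] with hp
  have hcov : ∀ x ∈ P, ∃ i, p i x := by
    intro x _
    by_cases h0 : x = (0, 0)
    · exact ⟨0, h0⟩
    by_cases h1 : |(x.1 : ℝ)| / B ≤ |(x.2 : ℝ)| / C
    · have hx2 : x.2 ≠ 0 := by
        intro h2
        apply h0
        rw [h2] at h1
        simp only [Int.cast_zero, abs_zero, zero_div] at h1
        have h3 : |(x.1 : ℝ)| ≤ 0 := by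
          rw [div_le_iff₀ hB0, zero_mul] at h1
          exact h1
        have h4 : (x.1 : ℝ) = 0 := abs_nonpos_iff.mp h3
        have h5 : x.1 = 0 := by exact_mod_cast h4
        ext
        · exact h5
        · exact h2
      rcases lt_or_gt_of_ne hx2 with h | h
      · exact ⟨2, h, h1⟩
      · exact ⟨1, h, h1⟩
    · rw [not_le] at h1
      have hx1 : x.1 ≠ 0 := by
        intro h2
        rw [h2] at h1
        simp only [Int.cast_zero, abs_zero, zero_div] at h1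
        have : 0 ≤ |(x.2 : ℝ)| / C := by positivity
        linarith
      rcases lt_or_gt_of_ne hx1 with h | h
      · exact ⟨4, h, h1.le⟩
      · exact ⟨3, h, h1.le⟩
  have hS0 : ∑ x ∈ P.filter (p 0), f x ≤ 8 * A' * (B * C * H) := by
    have h1 : ∑ x ∈ P.filter (p 0), f x ≤ ∑ x ∈ ({(0, 0)} : Finset (ℤ × ℤ)), f x := by
      apply Finset.sum_le_sum_of_subset_of_nonneg
      · intro x hx
        rw [Finset.mem_filter] at hx
        rw [Finset.mem_singleton]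
        exact hx.2
      · intro x _ _
        exact hf0 x
    refine h1.trans ?_
    rw [Finset.sum_singleton]
    have h2 := (hs4 _ _ _ (a 0) (b 0) c (haW 0) (hbW 0) hcW B C H hB0.le hC0.le hH0.le).1 0 0
    refine h2.trans (le_of_eq ?_)
    rw [hA']; ring
  have hS1 : ∑ x ∈ P.filter (p 1), f x ≤ Kh * A' * Z := by
    refine hHalf _ _ _ a b c haW hbW hcW B C H M _ hBal hM ?_
    intro x hx
    rw [Finset.mem_filter] at hx
    obtain ⟨hxP, hx1, hx2⟩ := hx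
    have hx1' : (0:ℝ) ≤ (x.2 : ℝ) := by exact_mod_cast hx1.le
    obtain ⟨h3, h4⟩ := hPmem x hxP
    rw [abs_of_nonneg hx1'] at hx2 h4
    exact ⟨hx1, hx2, h4⟩
  have hS2 : ∑ x ∈ P.filter (p 2), f x ≤ Kh * A' * Z := by
    have h1 := hHalf _ _ _ (fun j => cj (a (-j))) (fun k => cj (b (-k))) (cj c)
      (fun j => hcjW _ _ (haW _)) (fun k => hcjW _ _ (hbW _)) (hcjW _ _ hcW) B C H M
      ((P.filter (p 2)).image (fun x => (-x.1, -x.2))) hBal hM ?_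
    · refine le_trans ?_ h1
      apply sum_le_of_inj _ _ _ _ (fun x : ℤ × ℤ => (-x.1, -x.2))
      · intro x hx
        exact Finset.mem_image_of_mem _ hx
      · intro x _ y _ hxy
        simp only [Prod.mk.injEq, neg_inj] at hxy
        exact Prod.ext hxy.1 hxy.2
      · intro x _
        rw [hf]
        simp only [neg_neg]
        have h2 := hs2 (a x.1) (b x.2) c B C H (-x.1) (-x.2)
        rw [neg_neg, neg_neg] at h2
        rw [h2]
      · intro x _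
        exact norm_nonneg _
    · intro y hy
      obtain ⟨x, hx, rfl⟩ := Finset.mem_image.mp hy
      rw [Finset.mem_filter] at hx
      obtain ⟨hxP, hx1, hx2⟩ := hx
      have hx1' : (x.2 : ℝ) ≤ 0 := by exact_mod_cast hx1.le
      obtain ⟨h3, h4⟩ := hPmem x hxP
      rw [abs_of_nonpos hx1'] at hx2 h4
      refine ⟨by simpa using hx1, ?_, ?_⟩
      · simp only [Int.cast_neg, abs_neg]
        exact hx2
      · simp only [Int.cast_neg]
        exact h4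
  have hZs : C * B * M ^ (-86 / 100 : ℝ) * M ^ (199 / 100 : ℝ) + M ^ (26 / 10 : ℝ) = Z := by
    rw [hZ, mul_comm C B]
  have hA's : 16 * A₂ ^ 2 * (16 * A₁ ^ 2) * (16 * A₃ ^ 2) = A' := by
    rw [hA']; ring
  have hS3 : ∑ x ∈ P.filter (p 3), f x ≤ Kh * A' * Z := by
    have h1 := hHalf _ _ _ b a c hbW haW hcW C B H M
      ((P.filter (p 3)).image (fun x => (x.2, x.1))) hBals hM ?_
    · rw [hZs, hA's] at h1
      refine le_trans ?_ h1
      apply sum_le_of_inj _ _ _ _ (fun x : ℤ × ℤ => (x.2, x.1))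
      · intro x hx
        exact Finset.mem_image_of_mem _ hx
      · intro x _ y _ hxy
        simp only [Prod.mk.injEq] at hxy
        exact Prod.ext hxy.2 hxy.1
      · intro x _
        rw [hf]
        simp only
        rw [hs1 (a x.1) (b x.2) c B C H x.1 x.2]
      · intro x _
        exact norm_nonneg _
    · intro y hy
      obtain ⟨x, hx, rfl⟩ := Finset.mem_image.mp hy
      rw [Finset.mem_filter] at hx
      obtain ⟨hxP, hx1, hx2⟩ := hx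
      have hx1' : (0:ℝ) ≤ (x.1 : ℝ) := by exact_mod_cast hx1.le
      obtain ⟨h3, h4⟩ := hPmem x hxP
      rw [abs_of_nonneg hx1'] at hx2 h3
      exact ⟨hx1, hx2, h3⟩
  have hS4 : ∑ x ∈ P.filter (p 4), f x ≤ Kh * A' * Z := by
    have h1 := hHalf _ _ _ (fun j => cj (b (-j))) (fun k => cj (a (-k))) (cj c)
      (fun j => hcjW _ _ (hbW _)) (fun k => hcjW _ _ (haW _)) (hcjW _ _ hcW) C B H M
      ((P.filter (p 4)).image (fun x => (-x.2, -x.1))) hBals hM ?_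
    · rw [hZs, hA's] at h1
      refine le_trans ?_ h1
      apply sum_le_of_inj _ _ _ _ (fun x : ℤ × ℤ => (-x.2, -x.1))
      · intro x hx
        exact Finset.mem_image_of_mem _ hx
      · intro x _ y _ hxy
        simp only [Prod.mk.injEq, neg_inj] at hxy
        exact Prod.ext hxy.2 hxy.1
      · intro x _
        rw [hf]
        simp only [neg_neg]
        have h2 := hs2 (b x.2) (a x.1) c C B H (-x.2) (-x.1)
        rw [neg_neg, neg_neg] at h2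
        rw [hs1 (a x.1) (b x.2) c B C H x.1 x.2, h2]
      · intro x _
        exact norm_nonneg _
    · intro y hy
      obtain ⟨x, hx, rfl⟩ := Finset.mem_image.mp hy
      rw [Finset.mem_filter] at hx
      obtain ⟨hxP, hx1, hx2⟩ := hx
      have hx1' : (x.1 : ℝ) ≤ 0 := by exact_mod_cast hx1.le
      obtain ⟨h3, h4⟩ := hPmem x hxP
      rw [abs_of_nonpos hx1'] at hx2 h3
      refine ⟨by simpa using hx1, ?_, ?_⟩
      · simp only [Int.cast_neg, abs_neg]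
        exact hx2
      · simp only [Int.cast_neg]
        exact h3
  have htot : ∑ x ∈ P, f x ≤ 8 * A' * (B * C * H) + 4 * (Kh * A' * Z) := by
    refine (cover5 P f hf0 p hcov).trans ?_
    rw [Fin.sum_univ_five]
    linarith only [hS0, hS1, hS2, hS3, hS4]
  have hJN : B * C * H / (J * N) ≤ 4 * H * M ^ (86 / 100 : ℝ) := by
    have hJN0 : (0:ℝ) < (J : ℝ) * N := by
      have h1 : (0:ℝ) < J := by exact_mod_cast (by omega : 0 < J)
      have h2 : (0:ℝ) < N := by exact_mod_cast (by omega : 0 < N)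
      positivity
    rw [div_le_iff₀ hJN0]
    have h1 : B * M ^ (-43 / 100 : ℝ) / 2 * (C * M ^ (-43 / 100 : ℝ) / 2) ≤ (J : ℝ) * N :=
      mul_le_mul hJ2 hN2 (by positivity) (by positivity)
    have h2 : M ^ (86 / 100 : ℝ) * (M ^ (-43 / 100 : ℝ) * M ^ (-43 / 100 : ℝ)) = 1 := by
      rw [← Real.rpow_add hM0, ← Real.rpow_add hM0]; norm_num
    calc B * C * H = 4 * H * M ^ (86 / 100 : ℝ) *
          (B * M ^ (-43 / 100 : ℝ) / 2 * (C * M ^ (-43 / 100 : ℝ) / 2)) := by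
          linear_combination (-(B * C * H)) * h2
      _ ≤ 4 * H * M ^ (86 / 100 : ℝ) * (J * N) := mul_le_mul_of_nonneg_left h1 (by positivity)
  rw [hPsum] at hmain
  have hBC : B * C = M * H := by rw [hMdef]; field_simp
  -- final numerics
  have hn1 : H * M ^ (86 / 100 : ℝ) * (B * C * H) ≤ H ^ 2 * M ^ (2995 / 1000 : ℝ) := by
    rw [hBC]
    calc H * M ^ (86 / 100 : ℝ) * (M * H * H) = H ^ 2 * (H * (M ^ (86 / 100 : ℝ) * M)) := by ring
      _ ≤ H ^ 2 * (M ^ (1 + 1 / 800 : ℝ) * (M ^ (86 / 100 : ℝ) * M)) := by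
          apply mul_le_mul_of_nonneg_left _ (by positivity)
          exact mul_le_mul_of_nonneg_right hH3 (by positivity)
      _ = H ^ 2 * M ^ (286125 / 100000 : ℝ) := by
          rw [← Real.rpow_add_one hM0.ne', ← Real.rpow_add hM0]; norm_num
      _ ≤ H ^ 2 * M ^ (2995 / 1000 : ℝ) := by
          apply mul_le_mul_of_nonneg_left _ (by positivity)
          exact Real.rpow_le_rpow_of_exponent_le hM1 (by norm_num)
  have hn2 : H * M ^ (86 / 100 : ℝ) * (B * C * M ^ (-86 / 100 : ℝ) * M ^ (199 / 100 : ℝ)) ≤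
      H ^ 2 * M ^ (2995 / 1000 : ℝ) := by
    rw [hBC]
    have h2 : M ^ (86 / 100 : ℝ) * M ^ (-86 / 100 : ℝ) = 1 := by
      rw [← Real.rpow_add hM0]; norm_num
    calc H * M ^ (86 / 100 : ℝ) * (M * H * M ^ (-86 / 100 : ℝ) * M ^ (199 / 100 : ℝ))
        = H ^ 2 * (M ^ (199 / 100 : ℝ) * M) * (M ^ (86 / 100 : ℝ) * M ^ (-86 / 100 : ℝ)) := by ring
      _ = H ^ 2 * M ^ (299 / 100 : ℝ) := by
          rw [h2, mul_one, ← Real.rpow_add_one hM0.ne']; norm_num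
      _ ≤ H ^ 2 * M ^ (2995 / 1000 : ℝ) := by
          apply mul_le_mul_of_nonneg_left _ (by positivity)
          exact Real.rpow_le_rpow_of_exponent_le hM1 (by norm_num)
  have hn3 : H * M ^ (86 / 100 : ℝ) * M ^ (26 / 10 : ℝ) ≤ H ^ 2 * M ^ (2995 / 1000 : ℝ) := by
    calc H * M ^ (86 / 100 : ℝ) * M ^ (26 / 10 : ℝ) = H * M ^ (346 / 100 : ℝ) := by
          rw [mul_assoc, ← Real.rpow_add hM0]; norm_num
      _ ≤ H * (M ^ (1 - 1 / 800 : ℝ) * M ^ (2995 / 1000 : ℝ)) := by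
          apply mul_le_mul_of_nonneg_left _ hH0.le
          rw [← Real.rpow_add hM0]
          exact Real.rpow_le_rpow_of_exponent_le hM1 (by norm_num)
      _ ≤ H * (H * M ^ (2995 / 1000 : ℝ)) := by
          apply mul_le_mul_of_nonneg_left _ hH0.le
          exact mul_le_mul_of_nonneg_right hH2 (by positivity)
      _ = H ^ 2 * M ^ (2995 / 1000 : ℝ) := by ring
  set Q : ℝ := H ^ 2 * M ^ (2995 / 1000 : ℝ) with hQ
  have hfin : H * M ^ (86 / 100 : ℝ) * (8 * A' * (B * C * H) + 4 * (Kh * A' * Z)) ≤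
      A' * (8 + 8 * Kh) * Q := by
    have hKh0 : 0 ≤ Kh := by linarith only [hKh]
    have h1 : A' * 8 * (H * M ^ (86 / 100 : ℝ) * (B * C * H)) ≤ A' * 8 * Q :=
      mul_le_mul_of_nonneg_left hn1 (by positivity)
    have h2 : A' * (4 * Kh) * (H * M ^ (86 / 100 : ℝ) * Z) ≤ A' * (4 * Kh) * (2 * Q) := by
      apply mul_le_mul_of_nonneg_left _ (by positivity)
      rw [hZ, mul_add]
      linarith only [hn2, hn3]
    calc H * M ^ (86 / 100 : ℝ) * (8 * A' * (B * C * H) + 4 * (Kh * A' * Z))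
        = A' * 8 * (H * M ^ (86 / 100 : ℝ) * (B * C * H)) +
          A' * (4 * Kh) * (H * M ^ (86 / 100 : ℝ) * Z) := by ring
      _ ≤ A' * 8 * Q + A' * (4 * Kh) * (2 * Q) := add_le_add h1 h2
      _ = A' * (8 + 8 * Kh) * Q := by ring
  have hKW0 : 0 ≤ KW := by linarith only [hKW]
  have hKh0 : 0 ≤ Kh := by linarith only [hKh]
  have hR0 : 0 ≤ 8 * A' * (B * C * H) + 4 * (Kh * A' * Z) := by positivity
  calc ‖S3 w₁ w₂ w₃ B C H‖ ^ 2 ≤ KW * (B * C * H / (J * N)) * ∑ x ∈ P, f x := hmain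
    _ ≤ KW * (B * C * H / (J * N)) * (8 * A' * (B * C * H) + 4 * (Kh * A' * Z)) :=
        mul_le_mul_of_nonneg_left htot (by positivity)
    _ ≤ KW * (4 * H * M ^ (86 / 100 : ℝ)) * (8 * A' * (B * C * H) + 4 * (Kh * A' * Z)) := by
        apply mul_le_mul_of_nonneg_right _ hR0
        exact mul_le_mul_of_nonneg_left hJN hKW0
    _ = KW * 4 * (H * M ^ (86 / 100 : ℝ) * (8 * A' * (B * C * H) + 4 * (Kh * A' * Z))) := by ring
    _ ≤ KW * 4 * (A' * (8 + 8 * Kh) * Q) := mul_le_mul_of_nonneg_left hfin (by positivity)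
    _ = KW * 4 * 4096 * (8 + 8 * Kh) * (A₁ * A₂ * A₃) ^ 2 * H ^ 2 * M ^ (2995 / 1000 : ℝ) := by
        rw [hA', hQ]; ring

end Pool.Agent.H304R4.CM
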