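import Mathlib
import Pool.Agent.H304R4.CM.Defs
import Pool.Agent.H304R4.CM.Defs2

/-! # TEAM CM, part 2: the statements of the tasks (all are plain `Prop`s). -/

open Complex MeasureTheory Filter Topology

namespace Pool.Agent.H304R4.CM

/-- the square `[1/2,2]^2` -/
def Qb : Set (ℝ × ℝ) := {z | (1 / 2 ≤ z.1 ∧ z.1 ≤ 2) ∧ (1 / 2 ≤ z.2 ∧ z.2 ≤ 2)}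

/-- `min(C, 1/nd θ)` -/
noncomputable def mC (C θ : ℝ) : ℝ := if nd θ * C ≤ 1 then C else 1 / nd θ

/-- bounded derivatives up to order three on the square -/
def BD (G : ℝ) (f : ℝ × ℝ → ℝ) : Prop :=
  ∀ z ∈ Qb, ContDiffAt ℝ (⊤ : ℕ∞) f z ∧ ∀ m : ℕ, m ≤ 3 → ‖iteratedFDeriv ℝ m f z‖ ≤ G

/-- the discriminant `x^2 + ρ x y + ρ^2 y^2` -/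
noncomputable def qq (ρ : ℝ) (z : ℝ × ℝ) : ℝ := z.1 ^ 2 + ρ * z.1 * z.2 + ρ ^ 2 * z.2 ^ 2

/-- regular functions of two variables near `p` -/
def Reg (K δ : ℝ) (p : ℝ × ℝ) (F : ℝ × ℝ → ℝ) : Prop :=
  ∃ g₁ g₂ a₁ a₂ a₃ : ℝ × ℝ → ℝ, ∀ n : ℝ × ℝ, |n.1 - p.1| ≤ δ → |n.2 - p.2| ≤ δ →
    HasFDerivAt F ((g₁ n) • ContinuousLinearMap.fst ℝ ℝ ℝ + (g₂ n) • ContinuousLinearMap.snd ℝ ℝ ℝ) n ∧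
    HasFDerivAt g₁ ((a₁ n) • ContinuousLinearMap.fst ℝ ℝ ℝ + (a₂ n) • ContinuousLinearMap.snd ℝ ℝ ℝ) n ∧
    HasFDerivAt g₂ ((a₂ n) • ContinuousLinearMap.fst ℝ ℝ ℝ + (a₃ n) • ContinuousLinearMap.snd ℝ ℝ ℝ) n ∧
    |a₁ n| ≤ K ∧ |a₂ n| ≤ K ∧ |a₃ n| ≤ K ∧ 1 / K ≤ |a₁ n * a₃ n - a₂ n ^ 2| ∧
    ∀ n' : ℝ × ℝ, |n'.1 - p.1| ≤ δ → |n'.2 - p.2| ≤ δ →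
      |a₁ n - a₁ n'| ≤ K * (|n.1 - n'.1| + |n.2 - n'.2|) ∧
      |a₂ n - a₂ n'| ≤ K * (|n.1 - n'.1| + |n.2 - n'.2|) ∧
      |a₃ n - a₃ n'| ≤ K * (|n.1 - n'.1| + |n.2 - n'.2|)

/-! ## Group W: Weyl shifts, symmetries, trivial bound -/

/-- two dimensional Weyl inequality with even shifts, for a family of functions -/
def S_W2D : Prop := ∀ (S : Finset ℕ) (z : ℕ → ℤ × ℤ → ℂ) (R T : Finset (ℤ × ℤ)) (Y₁ Y₂ : ℕ),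
  1 ≤ Y₁ → 1 ≤ Y₂ → (∀ h ∈ S, ∀ ν, z h ν ≠ 0 → ν ∈ R) →
  (∀ ν : ℤ × ℤ, ∀ y₁ < Y₁, ∀ y₂ < Y₂, (ν.1 + 2 * (y₁ : ℤ), ν.2 + 2 * (y₂ : ℤ)) ∈ R → ν ∈ T) →
  ‖∑ h ∈ S, ∑ ν ∈ R, z h ν‖ ^ 2 ≤ ((S.card : ℝ) * T.card / (Y₁ * Y₂)) *
    ∑ d₁ ∈ Finset.Ioo (-(Y₁ : ℤ)) Y₁, ∑ d₂ ∈ Finset.Ioo (-(Y₂ : ℤ)) Y₂,
      ‖∑ h ∈ S, ∑' ν : ℤ × ℤ, z h (ν.1 + d₁, ν.2 + d₂) *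
        (starRingEnd ℂ) (z h (ν.1 - d₁, ν.2 - d₂))‖

/-- Weyl differencing of `S3` -/
def S_W2 : Prop := ∃ K : ℝ, 1 ≤ K ∧ ∀ (A₁ A₂ A₃ : ℝ) (w₁ w₂ w₃ : ℝ → ℂ),
  Wt A₁ w₁ → Wt A₂ w₂ → Wt A₃ w₃ → ∀ B C H : ℝ, 1 ≤ B → 1 ≤ C → 1 ≤ H →
  ∀ J N : ℕ, 1 ≤ J → 1 ≤ N → (J : ℝ) ≤ B → (N : ℝ) ≤ C →
  ‖S3 w₁ w₂ w₃ B C H‖ ^ 2 ≤ K * (B * C * H / (J * N)) *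
    ∑ j ∈ Finset.Ioo (-(J : ℤ)) J, ∑ k ∈ Finset.Ioo (-(N : ℤ)) N,
      ‖TT (dw w₁ (j / B)) (dw w₂ (k / C)) (dw w₃ 0) B C H j k‖

/-- differenced weights are weights, conjugate weights are weights -/
def S_W3 : Prop := (∀ (A : ℝ) (w : ℝ → ℂ) (t : ℝ), Wt A w → Wt (16 * A ^ 2) (dw w t)) ∧
  (∀ (A : ℝ) (w : ℝ → ℂ), Wt A w → Wt A (fun x => (starRingEnd ℂ) (w x)))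

/-- symmetries and trivial bounds -/
def S_SY : Prop :=
  (∀ (ω₁ ω₂ ω₃ : ℝ → ℂ) (B C H : ℝ) (j k : ℤ),
    TT ω₁ ω₂ ω₃ B C H j k = TT ω₂ ω₁ ω₃ C B H k j) ∧
  (∀ (ω₁ ω₂ ω₃ : ℝ → ℂ) (B C H : ℝ) (j k : ℤ),
    ‖TT ω₁ ω₂ ω₃ B C H (-j) (-k)‖ = ‖TT (fun x => (starRingEnd ℂ) (ω₁ x))
      (fun x => (starRingEnd ℂ) (ω₂ x)) (fun x => (starRingEnd ℂ) (ω₃ x)) B C H j k‖) ∧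
  (∀ (w₁ w₂ w₃ : ℝ → ℂ) (B C H : ℝ), S3 w₁ w₂ w₃ B C H = S3 w₂ w₁ w₃ C B H) ∧
  (∀ (A₁ A₂ A₃ : ℝ) (ω₁ ω₂ ω₃ : ℝ → ℂ), Wt A₁ ω₁ → Wt A₂ ω₂ → Wt A₃ ω₃ →
    ∀ B C H : ℝ, 0 ≤ B → 0 ≤ C → 0 ≤ H → (∀ j k : ℤ,
      ‖TT ω₁ ω₂ ω₃ B C H j k‖ ≤ 8 * A₁ * A₂ * A₃ * (B * C * H)) ∧
      ‖S3 ω₁ ω₂ ω₃ B C H‖ ≤ 8 * A₁ * A₂ * A₃ * (B * C * H))

/-! ## Group U: axis pairs and unbalanced boxes -/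

/-- geometric sums with smooth weights -/
def S_U2 : Prop := ∃ K : ℝ, 1 ≤ K ∧ ∀ (A : ℝ) (ω : ℝ → ℂ), Wt A ω → ∀ C θ : ℝ, 1 ≤ C →
  ‖∑ c ∈ Finset.Icc 1 ⌊2 * C⌋₊, ω ((c : ℝ) / C) * ee (c * θ)‖ ≤ K * A * mC C θ

/-- spacing: few reduced fractions in a short interval -/
def S_FAR : Prop := ∀ (Q : ℝ) (a b : ℝ) (S : Finset (ℕ × ℕ)), 1 ≤ Q → a ≤ b →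
  (∀ s ∈ S, 1 ≤ s.2 ∧ (s.2 : ℝ) ≤ Q ∧ Nat.Coprime s.1 s.2 ∧ a ≤ (s.1 : ℝ) / s.2 ∧
    (s.1 : ℝ) / s.2 ≤ b) → (S.card : ℝ) ≤ 1 + Q ^ 2 * (b - a)

open Classical in
/-- counting triples with `2 k b^2 / h^2` close to a nonzero integer -/
def S_U3 : Prop := ∃ K : ℝ, 1 ≤ K ∧ ∀ (B H Δ : ℝ) (K₁ : ℕ), 1 ≤ B → 1 ≤ H → 0 < Δ → Δ ≤ 1 / 4 →
  1 ≤ K₁ →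
  ((((Finset.Ico K₁ (2 * K₁)) ×ˢ ((Finset.Icc 1 ⌊2 * B⌋₊) ×ˢ (Finset.Icc 1 ⌊2 * H⌋₊))).filter
    (fun t : ℕ × ℕ × ℕ => B / 2 ≤ t.2.1 ∧ H / 2 ≤ t.2.2 ∧
      ∃ m : ℕ, 1 ≤ m ∧ |2 * (t.1 : ℝ) * t.2.1 ^ 2 / t.2.2 ^ 2 - m| ≤ Δ)).card : ℝ) ≤
    K * (1 + Real.log H) * (1 + Real.log K₁) * K₁ * (B ^ (3 / 2 : ℝ) * H ^ (-1 / 2 : ℝ) + B * H * Δ)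

open Classical in
/-- the sum of `min(C, 1/nd(2 k b^2/h^2))` -/
def S_U4 : Prop := ∃ K : ℝ, 1 ≤ K ∧ ∀ (B C H : ℝ) (N : ℕ), 1 ≤ B → 1 ≤ C → 1 ≤ H → 1 ≤ N →
  ∑ k ∈ Finset.Icc 1 N, ∑ b ∈ (Finset.Icc 1 ⌊2 * B⌋₊).filter (fun b : ℕ => B / 2 ≤ b),
    ∑ h ∈ (Finset.Icc 1 ⌊2 * H⌋₊).filter (fun h : ℕ => H / 2 ≤ h),
      mC C (2 * (k : ℝ) * b ^ 2 / h ^ 2) ≤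
    K * (1 + Real.log (B * C * H * N)) ^ 4 *
      (N * C * (B ^ (3 / 2 : ℝ) * H ^ (-1 / 2 : ℝ)) + N * B * H + H ^ 3 / B)

/-- axis pairs -/
def S_UA : Prop := ∃ K : ℝ, 1 ≤ K ∧ ∀ (A₁ A₂ A₃ : ℝ) (ω₁ ω₃ : ℝ → ℂ) (ω₂ : ℤ → ℝ → ℂ),
  Wt A₁ ω₁ → (∀ k, Wt A₂ (ω₂ k)) → Wt A₃ ω₃ →
  ∀ (B C H : ℝ) (N : ℕ), 1 ≤ B → 1 ≤ C → 1 ≤ H → 1 ≤ N →
  ∑ k ∈ Finset.Icc 1 N, ‖TT ω₁ (ω₂ k) ω₃ B C H 0 k‖ ≤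
    K * A₁ * A₂ * A₃ * (1 + Real.log (B * C * H * N)) ^ 4 *
      (N * C * (B ^ (3 / 2 : ℝ) * H ^ (-1 / 2 : ℝ)) + N * B * H + H ^ 3 / B)

/-- unbalanced boxes -/
def S_U5 : Prop := ∃ K : ℝ, 1 ≤ K ∧ ∀ (A₁ A₂ A₃ : ℝ) (w₁ w₂ w₃ : ℝ → ℂ),
  Wt A₁ w₁ → Wt A₂ w₂ → Wt A₃ w₃ → ∀ B C H : ℝ, 1 ≤ B → 1 ≤ C → 1 ≤ H →
  H ≤ (B * C / H) ^ (1 + 1 / 10000 : ℝ) → B * H ≤ (B * C / H) ^ (2 - 1 / 1000 : ℝ) →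
  ‖S3 w₁ w₂ w₃ B C H‖ ≤ K * A₁ * A₂ * A₃ * (B * C / H) ^ (3 / 2 - 1 / 10000 : ℝ) * H

/-! ## Group P: Poisson summation -/

def S_P1 : Prop := ∀ (A₁ A₂ : ℝ) (ω₁ ω₂ : ℝ → ℂ), Wt A₁ ω₁ → Wt A₂ ω₂ →
  ∀ B C : ℝ, 1 ≤ B → 1 ≤ C → ∀ j k h : ℝ, h ≠ 0 →
  HasSum (fun ν : ℤ × ℤ => ((B * C : ℝ) : ℂ) * Jh ω₁ ω₂ B C j k h ν.1 ν.2)
    (∑ b ∈ Finset.Icc 1 ⌊2 * B⌋₊, ∑ c ∈ Finset.Icc 1 ⌊2 * C⌋₊,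
      ω₁ ((b : ℝ) / B) * ω₂ ((c : ℝ) / C) * ee (ph j k h b c))

def S_P2 : Prop := ∀ (ω₁ ω₂ : ℝ → ℂ) (B C j k h ν₁ ν₂ : ℝ), B ≠ 0 → C ≠ 0 → k ≠ 0 → h ≠ 0 →
  Jh ω₁ ω₂ B C j k h ν₁ ν₂ = II (fun z => ω₁ z.1 * ω₂ z.2) (j * C / (k * B)) (k * B ^ 2 * C / h ^ 2)
    (n1h B C j k ν₁ h) (n2h B j k ν₂ h)

/-- lattice sums -/
def S_LAT : Prop := ∃ K : ℝ, 1 ≤ K ∧ ∀ α β γ δ : ℝ, 0 < α → 0 < γ →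
  Summable (fun ν : ℤ × ℤ => (1 + |α * ν.1 - β|) ^ (-3 / 2 : ℝ) * (1 + |γ * ν.2 - δ|) ^ (-3 / 2 : ℝ)) ∧
  ∑' ν : ℤ × ℤ, (1 + |α * ν.1 - β|) ^ (-3 / 2 : ℝ) * (1 + |γ * ν.2 - δ|) ^ (-3 / 2 : ℝ) ≤
    K * (1 + 1 / α) * (1 + 1 / γ)

/-! ## Group A: amplitudes and oscillatory integrals -/

/-- calculus of amplitudes -/
def S_BD : Prop :=
  (∀ c : ℝ, BD |c| (fun _ => c)) ∧ BD 2 (fun z => z.1) ∧ BD 2 (fun z => z.2) ∧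
  (∀ (F G : ℝ) (f g : ℝ × ℝ → ℝ), BD F f → BD G g → BD (F + G) (fun z => f z + g z)) ∧
  (∀ (F G : ℝ) (f g : ℝ × ℝ → ℝ), BD F f → BD G g → BD (8 * F * G) (fun z => f z * g z)) ∧
  (∀ G c : ℝ, 0 < c → ∃ K : ℝ, ∀ f : ℝ × ℝ → ℝ, BD G f → (∀ z ∈ Qb, c ≤ |f z|) →
    BD K (fun z => (f z)⁻¹)) ∧
  (∀ (r : ℕ) (A G : ℝ) (a : ℝ × ℝ → ℂ) (g : ℝ × ℝ → ℝ), r ≤ 3 → Amp r A a → BD G g →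
    Amp r (8 * A * G) (fun z => a z * (g z : ℂ))) ∧
  (∀ (r : ℕ) (A : ℝ) (a : ℝ × ℝ → ℂ), Amp (r + 1) A a →
    Amp r A (fun z => fderiv ℝ a z (1, 0)) ∧ Amp r A (fun z => fderiv ℝ a z (0, 1))) ∧
  (∀ (r : ℕ) (A A' : ℝ) (a a' : ℝ × ℝ → ℂ), Amp r A a → Amp r A' a' →
    Amp r (A + A') (fun z => a z + a' z))

/-- product weights are amplitudes -/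
def S_I0 : Prop := ∃ K : ℝ, 1 ≤ K ∧ ∀ (A₁ A₂ : ℝ) (ω₁ ω₂ : ℝ → ℂ), Wt A₁ ω₁ → Wt A₂ ω₂ →
  Amp 3 (K * A₁ * A₂) (fun z => ω₁ z.1 * ω₂ z.2)

/-- inner (quadratic) integral and its derivative -/
def S_I1a : Prop := ∃ K : ℝ, 1 ≤ K ∧ ∀ (A : ℝ) (a : ℝ × ℝ → ℂ), Amp 2 A a → ∀ ρ L n₁ : ℝ,
  |ρ| ≤ 1 → 1 ≤ L → ∃ 𝒜' : ℝ → ℂ, Continuous 𝒜' ∧ ∀ y : ℝ,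
    (1 / 4 < y → HasDerivAt (fun y : ℝ => ∫ x : ℝ, a (x, y) *
      ee (L * (2 * y * (x - (n₁ - 2 * ρ * y ^ 2) / (4 * y)) ^ 2))) (𝒜' y) y ∧
      ‖∫ x : ℝ, a (x, y) * ee (L * (2 * y * (x - (n₁ - 2 * ρ * y ^ 2) / (4 * y)) ^ 2))‖ ≤
        K * A / √L ∧ ‖𝒜' y‖ ≤ K * A * (1 + |n₁|) / √L)

/-- the uniform bound -/
def S_I1 : Prop := ∃ K : ℝ, 1 ≤ K ∧ ∀ (A : ℝ) (a : ℝ × ℝ → ℂ), Amp 2 A a → ∀ ρ L n₁ n₂ : ℝ,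
  |ρ| ≤ 1 → 0 < L → ‖II a ρ L n₁ n₂‖ ≤ K * A / L

/-- tails -/
def S_I2 : Prop := ∃ K : ℝ, 1 ≤ K ∧ ∀ (A : ℝ) (a : ℝ × ℝ → ℂ), Amp 3 A a → ∀ ρ L n₁ n₂ : ℝ,
  |ρ| ≤ 1 → 0 < L →
  (100 ≤ |n₁| → ‖II a ρ L n₁ n₂‖ ≤ K * A / (L * |n₁|) ^ 3) ∧
  (100 ≤ |n₂| → ‖II a ρ L n₁ n₂‖ ≤ K * A / (L * |n₂|) ^ 3)

/-- no critical point -/
def S_I3 : Prop := ∀ c : ℝ, 0 < c → ∃ K : ℝ, 1 ≤ K ∧ ∀ (A : ℝ) (a : ℝ × ℝ → ℂ), Amp 3 A a →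
  ∀ ρ L n₁ n₂ : ℝ, |ρ| ≤ 1 → 0 < L → |n₁| ≤ 100 → |n₂| ≤ 100 →
  (∀ z ∈ Qb, c ≤ |4 * z.1 * z.2 + 2 * ρ * z.2 ^ 2 - n₁| + |2 * z.1 ^ 2 + 4 * ρ * z.1 * z.2 - n₂|) →
  ‖II a ρ L n₁ n₂‖ ≤ K * A / L ^ 2

/-- amplitudes vanishing at the critical point -/
def S_I4 : Prop := ∃ K : ℝ, 1 ≤ K ∧ ∀ (A : ℝ) (a : ℝ × ℝ → ℂ), Amp 3 A a →
  ∀ (ρ L n₁ n₂ : ℝ) (w : ℝ × ℝ), |ρ| ≤ 1 → 0 < L → w ∈ bx 64 → IsC ρ n₁ n₂ w →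
  ‖II (fun z => a z * ((z.1 - w.1 : ℝ) : ℂ)) ρ L n₁ n₂‖ ≤ K * A / L ^ 2 ∧
  ‖II (fun z => a z * ((z.2 - w.2 : ℝ) : ℂ)) ρ L n₁ n₂‖ ≤ K * A / L ^ 2

/-! ## Group G: critical points -/

def S_G1 : Prop := ∃ c K : ℝ, 0 < c ∧ 1 ≤ K ∧ ∀ (ρ n₁ n₂ : ℝ) (z : ℝ × ℝ), |ρ| ≤ 1 → z ∈ bx 100 →
  |4 * z.1 * z.2 + 2 * ρ * z.2 ^ 2 - n₁| + |2 * z.1 ^ 2 + 4 * ρ * z.1 * z.2 - n₂| ≤ c →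
  ∃ w : ℝ × ℝ, IsC ρ n₁ n₂ w ∧ |w.1 - z.1| + |w.2 - z.2| ≤
    K * (|4 * z.1 * z.2 + 2 * ρ * z.2 ^ 2 - n₁| + |2 * z.1 ^ 2 + 4 * ρ * z.1 * z.2 - n₂|)

def S_G2 : Prop := (∀ (ρ n₁ n₂ : ℝ) (z w : ℝ × ℝ), IsC ρ n₁ n₂ z → IsC ρ n₁ n₂ w → z = w) ∧
  (∀ (ρ n₁ n₂ : ℝ) (z : ℝ × ℝ), IsC ρ n₁ n₂ z → zc ρ n₁ n₂ = z)

/-- derivatives of the critical point and of the critical value -/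
def S_C3a : Prop := ∀ (ρ : ℝ) (n z : ℝ × ℝ), |ρ| ≤ 1 → z ∈ bx 90 → IsC ρ n.1 n.2 z →
  HasFDerivAt (Fc ρ) (z.1 • ContinuousLinearMap.fst ℝ ℝ ℝ + z.2 • ContinuousLinearMap.snd ℝ ℝ ℝ) n ∧
  HasFDerivAt (fun n : ℝ × ℝ => (zc ρ n.1 n.2).1)
    ((-(ρ * z.1) / (4 * qq ρ z)) • ContinuousLinearMap.fst ℝ ℝ ℝ +
      ((z.1 + ρ * z.2) / (4 * qq ρ z)) • ContinuousLinearMap.snd ℝ ℝ ℝ) n ∧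
  HasFDerivAt (fun n : ℝ × ℝ => (zc ρ n.1 n.2).2)
    (((z.1 + ρ * z.2) / (4 * qq ρ z)) • ContinuousLinearMap.fst ℝ ℝ ℝ +
      (-z.2 / (4 * qq ρ z)) • ContinuousLinearMap.snd ℝ ℝ ℝ) n

def S_C3 : Prop := ∃ K δ : ℝ, 1 ≤ K ∧ 0 < δ ∧ ∀ (ρ : ℝ) (n z : ℝ × ℝ), |ρ| ≤ 1 → z ∈ bx 16 →
  IsC ρ n.1 n.2 z → Reg K δ n (Fc ρ)

/-! ## Group H: the radial sum -/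

/-- normalised frequencies along the path -/
noncomputable def m1 (ρ lam μ h : ℝ) : ℝ := μ * h ^ 2 - 2 * ρ * lam ^ 2
noncomputable def m2 (ρ lam μ h : ℝ) : ℝ := μ * h ^ 2 - 2 * ρ ^ 2 * lam ^ 2
/-- the path of critical points -/
noncomputable def zp (ρ lam μ₁ μ₂ h : ℝ) : ℝ × ℝ := zc ρ (m1 ρ lam μ₁ h) (m2 ρ lam μ₂ h)
/-- minus the critical value of the phase -/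
noncomputable def Ph (ρ lam μ₁ μ₂ L₁ h : ℝ) : ℝ :=
  2 * (L₁ / h ^ 2) * PP ρ (zp ρ lam μ₁ μ₂ h).1 (zp ρ lam μ₁ μ₂ h).2

def S_H1 : Prop := ∃ c : ℝ, 0 < c ∧ c ≤ 1 ∧ ∀ (ρ lam μ₁ μ₂ H : ℝ) (z₀ : ℝ × ℝ), |ρ| ≤ 1 →
  0 ≤ lam → lam ≤ c → 0 < H → z₀ ∈ bx 16 → IsC ρ (m1 ρ lam μ₁ H) (m2 ρ lam μ₂ H) z₀ →
  ∀ h : ℝ, H / 3 ≤ h → h ≤ 3 * H →
    IsC ρ (m1 ρ lam μ₁ h) (m2 ρ lam μ₂ h) (zp ρ lam μ₁ μ₂ h) ∧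
    zp ρ lam μ₁ μ₂ h ∈ bx 64 ∧
    HasDerivAt (fun t => (zp ρ lam μ₁ μ₂ t).1) (((zp ρ lam μ₁ μ₂ h).1 +
      lam ^ 2 * ρ ^ 3 * (zp ρ lam μ₁ μ₂ h).2 / qq ρ (zp ρ lam μ₁ μ₂ h)) / h) h ∧
    HasDerivAt (fun t => (zp ρ lam μ₁ μ₂ t).2) (((zp ρ lam μ₁ μ₂ h).2 +
      lam ^ 2 * ρ * (zp ρ lam μ₁ μ₂ h).1 / qq ρ (zp ρ lam μ₁ μ₂ h)) / h) h

def S_H2 : Prop := ∃ c K : ℝ, 0 < c ∧ c ≤ 1 ∧ 1 ≤ K ∧ ∀ (ρ lam μ₁ μ₂ H L₁ : ℝ) (z₀ : ℝ × ℝ),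
  |ρ| ≤ 1 → 0 ≤ lam → lam ≤ c → 0 < H → 0 < L₁ → z₀ ∈ bx 16 →
  IsC ρ (m1 ρ lam μ₁ H) (m2 ρ lam μ₂ H) z₀ →
  ∃ Φ₁ Φ₂ : ℝ → ℝ, ∃ σ : ℝ, (σ = 1 ∨ σ = -1) ∧ ∀ h : ℝ, H / 3 ≤ h → h ≤ 3 * H →
    HasDerivAt (Ph ρ lam μ₁ μ₂ L₁) (Φ₁ h) h ∧ HasDerivAt Φ₁ (Φ₂ h) h ∧
    Φ₁ h = L₁ / h ^ 3 * (2 * PP ρ (zp ρ lam μ₁ μ₂ h).1 (zp ρ lam μ₁ μ₂ h).2 +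
      4 * ρ * lam ^ 2 * ((zp ρ lam μ₁ μ₂ h).1 + ρ * (zp ρ lam μ₁ μ₂ h).2)) ∧
    |Φ₁ h - 2 * (L₁ / H ^ 3) * PP ρ z₀.1 z₀.2| ≤
      K * (|ρ| * lam ^ 2 * L₁ * |z₀.1 + ρ * z₀.2| / H ^ 3) ∧
    (|ρ| * lam ^ 2 * L₁ * |z₀.1 + ρ * z₀.2| / H ^ 4) / K ≤ σ * Φ₂ h ∧
    σ * Φ₂ h ≤ K * (|ρ| * lam ^ 2 * L₁ * |z₀.1 + ρ * z₀.2| / H ^ 4)

/-- van der Corput second derivative test for sums -/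
def S_VDC : Prop := ∃ K : ℝ, 1 ≤ K ∧ ∀ (a b : ℕ) (f f₁ f₂ : ℝ → ℝ) (l η : ℝ), a ≤ b → 0 < l →
  1 ≤ η → (∀ x : ℝ, (a : ℝ) ≤ x → x ≤ b → HasDerivAt f (f₁ x) x ∧ HasDerivAt f₁ (f₂ x) x ∧
    l ≤ f₂ x ∧ f₂ x ≤ η * l) →
  ‖∑ n ∈ Finset.Icc a b, ee (f n)‖ ≤ K * η * (((b : ℝ) - a) * √l + 1 / √l + 1)

def S_H3 : Prop := ∀ K₁ : ℝ, 1 ≤ K₁ → ∃ K : ℝ, 1 ≤ K ∧ ∀ (H D f σ : ℝ) (Φ Φ₁ Φ₂ : ℝ → ℝ),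
  1 ≤ H → 0 ≤ D → (σ = 1 ∨ σ = -1) →
  (∀ h : ℝ, H / 3 ≤ h → h ≤ 3 * H → HasDerivAt Φ (Φ₁ h) h ∧ HasDerivAt Φ₁ (Φ₂ h) h ∧
    |Φ₁ h - f| ≤ K₁ * (D / H ^ 2) ∧ (D / H ^ 3) / K₁ ≤ σ * Φ₂ h ∧ σ * Φ₂ h ≤ K₁ * (D / H ^ 3)) →
  ∀ a b : ℕ, H / 2 ≤ a → (b : ℝ) ≤ 2 * H →
    ‖∑ h ∈ Finset.Icc a b, ee (Φ h)‖ ≤ K * Th H (K * D) f

/-- the amplitude along the path -/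
noncomputable def Kp (a : ℝ × ℝ → ℂ) (ρ lam μ₁ μ₂ L₁ h : ℝ) : ℂ :=
  II a ρ (L₁ / h ^ 2) (m1 ρ lam μ₁ h) (m2 ρ lam μ₂ h) * ee (Ph ρ lam μ₁ μ₂ L₁ h)

def S_I5 : Prop := ∃ c K : ℝ, 0 < c ∧ c ≤ 1 ∧ 1 ≤ K ∧ ∀ (A : ℝ) (a : ℝ × ℝ → ℂ), Amp 3 A a →
  ∀ (ρ lam μ₁ μ₂ H L₁ : ℝ) (z₀ : ℝ × ℝ),
  |ρ| ≤ 1 → 0 ≤ lam → lam ≤ c → 0 < H → 0 < L₁ → z₀ ∈ bx 16 →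
  IsC ρ (m1 ρ lam μ₁ H) (m2 ρ lam μ₂ H) z₀ →
  ∃ K' : ℝ → ℂ, ∀ h : ℝ, H / 3 ≤ h → h ≤ 3 * H →
    HasDerivAt (Kp a ρ lam μ₁ μ₂ L₁) (K' h) h ∧
    ‖Kp a ρ lam μ₁ μ₂ L₁ h‖ ≤ K * A / (L₁ / H ^ 2) ∧
    ‖K' h‖ ≤ K * A / (L₁ / H ^ 2) / H

def S_H4 : Prop := ∃ c K : ℝ, 0 < c ∧ c ≤ 1 ∧ 1 ≤ K ∧ ∀ (A₁ A₂ A₃ : ℝ) (ω₁ ω₂ ω₃ : ℝ → ℂ),
  Wt A₁ ω₁ → Wt A₂ ω₂ → Wt A₃ ω₃ → ∀ (B C H : ℝ) (j k : ℤ), 1 ≤ B → 1 ≤ C → 1 ≤ H →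
  0 < k → j ≠ 0 → |(j : ℝ)| / B ≤ k / C → (k : ℝ) / C ≤ c →
  ∀ ν ∈ Zs B C H j k,
    ‖∑ h ∈ Finset.Icc 1 ⌊2 * H⌋₊, ω₃ ((h : ℝ) / H) * Jh ω₁ ω₂ B C j k h ν.1 ν.2‖ ≤
      K * A₁ * A₂ * A₃ / LL B C H k * Th H (K * DH B C H j k ν) (fH B C H j k ν)

/-- noncritical frequencies -/
def S_E1a : Prop := ∃ c K : ℝ, 0 < c ∧ c ≤ 1 ∧ 1 ≤ K ∧ ∀ (A₁ A₂ : ℝ) (ω₁ ω₂ : ℝ → ℂ),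
  Wt A₁ ω₁ → Wt A₂ ω₂ → ∀ (B C H : ℝ) (j k : ℤ), 1 ≤ B → 1 ≤ C → 1 ≤ H →
  0 < k → j ≠ 0 → |(j : ℝ)| / B ≤ k / C → (k : ℝ) / C ≤ c → 1 ≤ LL B C H k →
  ∀ ν : ℤ × ℤ, ν ∉ Zs B C H j k → ∀ h : ℝ, H / 2 ≤ h → h ≤ 2 * H →
    ‖Jh ω₁ ω₂ B C j k h ν.1 ν.2‖ ≤ K * A₁ * A₂ / LL B C H k ^ 2 *
      ((1 + |n1h B C j k ν.1 h|) ^ (-3 / 2 : ℝ) * (1 + |n2h B j k ν.2 h|) ^ (-3 / 2 : ℝ))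

def S_E1 : Prop := ∃ c K : ℝ, 0 < c ∧ c ≤ 1 ∧ 1 ≤ K ∧ ∀ (A₁ A₂ A₃ : ℝ) (ω₁ ω₂ ω₃ : ℝ → ℂ),
  Wt A₁ ω₁ → Wt A₂ ω₂ → Wt A₃ ω₃ → ∀ (B C H : ℝ) (j k : ℤ), 1 ≤ B → 1 ≤ C → 1 ≤ H →
  0 < k → j ≠ 0 → |(j : ℝ)| / B ≤ k / C → (k : ℝ) / C ≤ c → 1 ≤ LL B C H k →
  ‖TT ω₁ ω₂ ω₃ B C H j k‖ ≤ K * A₁ * A₂ * A₃ *
    (B * C / LL B C H k * ∑ ν ∈ Zs B C H j k, Th H (K * DH B C H j k ν) (fH B C H j k ν) +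
      B * C * H * (1 + LL B C H k / B) * (1 + LL B C H k / C) / LL B C H k ^ 2)

/-! ## Group C: counting frequencies -/

/-- Kusmin-Landau with bounded variation -/
def S_C0 : Prop := ∀ (N : ℕ) (x : ℕ → ℝ) (θ V : ℝ), 0 < θ →
  (∀ n < N, θ ≤ |x (n + 1) - x n| ∧ |x (n + 1) - x n| ≤ 1 / 2) →
  ∑ n ∈ Finset.range (N - 1), |(x (n + 2) - x (n + 1)) - (x (n + 1) - x n)| ≤ V →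
  ‖∑ n ∈ Finset.range (N + 1), ee (x n)‖ ≤ 1 / θ + V / θ ^ 2 + 1

/-- Fejer counting -/
def S_C2 : Prop := ∀ (S : Finset (ℤ × ℤ)) (f : ℤ × ℤ → ℝ) (N : ℕ), 1 ≤ N →
  ((S.filter (fun ν => nd (f ν) ≤ 1 / (2 * N))).card : ℝ) ≤
    Real.pi ^ 2 / (4 * N) * (S.card + 2 * ∑ m ∈ Finset.Ico 1 N, ‖∑ ν ∈ S, ee (m * f ν)‖)

/-- two dimensional exponential sums -/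
def S_C1 : Prop := ∀ K₀ δ : ℝ, 1 ≤ K₀ → 0 < δ → ∃ δ' K : ℝ, 0 < δ' ∧ δ' ≤ δ ∧ 1 ≤ K ∧
  ∀ (F : ℝ × ℝ → ℝ) (p : ℝ × ℝ), Reg K₀ δ p F →
  ∀ (Λ G V₁ V₂ Φ d₁ d₂ l β : ℝ), 1 ≤ G → 1 ≤ Λ → (Λ / G ≤ V₁ ∧ V₁ ≤ Λ * G) →
  (Λ / G ≤ V₂ ∧ V₂ ≤ Λ * G) → (Λ / G ≤ Φ ∧ Φ ≤ Λ * G) → 1 ≤ l → |β| ≤ G →
  ∀ (E : Set (ℝ × ℝ)) (R : Finset (ℤ × ℤ)), Convex ℝ E →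
  (∀ t ∈ E, |t.1 / V₁ + d₁ - p.1| ≤ δ' ∧ |t.2 / V₂ + d₂ - p.2| ≤ δ') →
  (∀ t ∈ E, ∀ t' ∈ E, |(t'.2 - t.2) - β * (t'.1 - t.1)| ≤ l) →
  (∀ ν : ℤ × ℤ, ν ∈ R ↔ (((ν.1 : ℝ), (ν.2 : ℝ)) : ℝ × ℝ) ∈ E) →
  (R.card : ℝ) ≤ K * G * Λ * l ∧
  ∀ m Y : ℕ, 1 ≤ m → 1 ≤ Y → (Y : ℝ) ≤ l → K * G ^ 3 * m * Y ≤ Λ →
    ‖∑ ν ∈ R, ee (m * (Φ * F ((ν.1 : ℝ) / V₁ + d₁, (ν.2 : ℝ) / V₂ + d₂)))‖ ^ 2 ≤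
      K * G ^ 14 * (Λ * l) ^ 2 * (1 / Y ^ 2 + Λ / (m * Y * l))

/-- counting in one cell -/
def S_C4a : Prop := ∀ K₀ δ K₂ : ℝ, 1 ≤ K₀ → 0 < δ → 1 ≤ K₂ → ∃ δ' K : ℝ, 0 < δ' ∧ δ' ≤ δ ∧ 1 ≤ K ∧
  ∀ (F : ℝ × ℝ → ℝ) (p : ℝ × ℝ), Reg K₀ δ p F →
  ∀ (Λ G V₁ V₂ Φ d₁ d₂ l β : ℝ), 1 ≤ G → 1 ≤ Λ → (Λ / G ≤ V₁ ∧ V₁ ≤ Λ * G) →
  (Λ / G ≤ V₂ ∧ V₂ ≤ Λ * G) → (Λ / G ≤ Φ ∧ Φ ≤ Λ * G) → 1 ≤ l → l ≤ K₂ * G * Λ → |β| ≤ G →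
  ∀ (E : Set (ℝ × ℝ)) (R : Finset (ℤ × ℤ)), Convex ℝ E →
  (∀ t ∈ E, |t.1 / V₁ + d₁ - p.1| ≤ δ' ∧ |t.2 / V₂ + d₂ - p.2| ≤ δ') →
  (∀ t ∈ E, ∀ t' ∈ E, |(t'.2 - t.2) - β * (t'.1 - t.1)| ≤ l) →
  (∀ ν : ℤ × ℤ, ν ∈ R ↔ (((ν.1 : ℝ), (ν.2 : ℝ)) : ℝ × ℝ) ∈ E) →
  ∀ τ : ℝ, 0 < τ → τ ≤ l / Λ →
    ((R.filter (fun ν => nd (Φ * F ((ν.1 : ℝ) / V₁ + d₁, (ν.2 : ℝ) / V₂ + d₂)) ≤ τ)).card : ℝ) ≤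
      K * G ^ 11 * Λ * l * (τ + l ^ (-1 / 2 : ℝ))

/-- counting in a strip -/
def S_C4 : Prop := ∀ K₂ : ℝ, 1 ≤ K₂ → ∃ K : ℝ, 1 ≤ K ∧
  ∀ (ρ Λ G V₁ V₂ Φ d₁ d₂ l β r₀ : ℝ), |ρ| ≤ 1 → 1 ≤ G → 1 ≤ Λ → (Λ / G ≤ V₁ ∧ V₁ ≤ Λ * G) →
  (Λ / G ≤ V₂ ∧ V₂ ≤ Λ * G) → (Λ / G ≤ Φ ∧ Φ ≤ Λ * G) → 1 ≤ l → l ≤ K₂ * G * Λ → |β| ≤ G →
  ∀ S : Finset (ℤ × ℤ),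
  (∀ ν ∈ S, (∃ z ∈ bx 16, IsC ρ ((ν.1 : ℝ) / V₁ + d₁) ((ν.2 : ℝ) / V₂ + d₂) z) ∧
    r₀ ≤ (ν.2 : ℝ) - β * ν.1 ∧ (ν.2 : ℝ) - β * ν.1 ≤ r₀ + l) →
  (S.card : ℝ) ≤ K * G * Λ * l ∧
  ∀ τ : ℝ, 0 < τ → τ ≤ l / Λ →
    ((S.filter (fun ν => nd (Φ * Fc ρ ((ν.1 : ℝ) / V₁ + d₁, (ν.2 : ℝ) / V₂ + d₂)) ≤ τ)).card : ℝ) ≤
      K * G ^ 11 * Λ * l * (τ + l ^ (-1 / 2 : ℝ))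

open Classical in
/-- frequencies on a line through a lattice point -/
def S_C5 : Prop := ∃ K : ℝ, 1 ≤ K ∧ ∀ (B C H M : ℝ) (j k : ℤ), Bal B C H M → 0 < k → j ≠ 0 →
  |(j : ℝ)| / B ≤ k / C → (k : ℝ) / C ≤ 1 → ∀ r : ℤ,
  (¬ ((Int.gcd j k : ℤ) ∣ r) → ((Zs B C H j k).filter (fun ν => k * ν.2 - j * ν.1 = r)) = ∅) ∧
  (((Zs B C H j k).filter (fun ν => k * ν.2 - j * ν.1 = r)).card : ℝ) ≤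
    K * M ^ (1 / 400 : ℝ) * Int.gcd j k

/-- identities at a critical frequency -/
def S_C5b : Prop := ∀ (B C H : ℝ) (j k : ℤ), 0 < B → 0 < C → 0 < H → 0 < k →
  ∀ ν ∈ Zs B C H j k,
    zH B C H j k ν ∈ bx 16 ∧
    IsC (j * C / (k * B)) (n1h B C j k ν.1 H) (n2h B j k ν.2 H) (zH B C H j k ν) ∧
    ((k * ν.2 - j * ν.1 : ℤ) : ℝ) = 2 * (k * B / H) ^ 2 *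
      ((zH B C H j k ν).1 ^ 2 - (j * C / (k * B)) ^ 2 * (zH B C H j k ν).2 ^ 2) ∧
    sH B C H j k ν = k * B / H * ((zH B C H j k ν).1 + j * C / (k * B) * (zH B C H j k ν).2) ∧
    DH B C H j k ν = |(j : ℝ)| * k * |sH B C H j k ν| ∧
    fH B C H j k ν = LL B C H k / H * Fc (j * C / (k * B)) (n1h B C j k ν.1 H, n2h B j k ν.2 H)

/-- one level -/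
def S_C6L : Prop := ∀ K₁ : ℝ, 1 ≤ K₁ → ∃ K M₀ : ℝ, 1 ≤ K ∧ 1 ≤ M₀ ∧
  ∀ (B C H M : ℝ) (j k : ℤ), Bal B C H M → M₀ ≤ M → 0 < k → j ≠ 0 →
  |(j : ℝ)| / B ≤ k / C → M ^ (-96 / 100 : ℝ) ≤ k / C → (k : ℝ) / C ≤ M ^ (-43 / 100 : ℝ) →
  ∀ (R r₀ : ℝ) (S : Finset (ℤ × ℤ)), S ⊆ Zs B C H j k → k * B / H ≤ R →
  R ≤ K₁ * (k * B / H) ^ 2 →
  (∀ ν ∈ S, r₀ ≤ (k : ℝ) * ν.2 - j * ν.1 ∧ (k : ℝ) * ν.2 - j * ν.1 ≤ r₀ + K₁ * R) →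
  (∀ ν ∈ S, |(j : ℝ)| * k * (R / (k * B / H)) / K₁ ≤ DH B C H j k ν ∧
    DH B C H j k ν ≤ K₁ * (|(j : ℝ)| * k * (R / (k * B / H)))) →
  ∑ ν ∈ S, Th H (K₁ * DH B C H j k ν) (fH B C H j k ν) ≤
    K * M ^ (1 / 25 : ℝ) * ((k * B / H) ^ (7 / 2 : ℝ) * M ^ (-1 / 2 : ℝ) +
      M ^ (3 / 2 : ℝ) * (|(j : ℝ)| * C / (k * B)) ^ (-1 / 2 : ℝ))

def S_C6 : Prop := ∀ K₁ : ℝ, 1 ≤ K₁ → ∃ K M₀ : ℝ, 1 ≤ K ∧ 1 ≤ M₀ ∧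
  ∀ (B C H M : ℝ) (j k : ℤ), Bal B C H M → M₀ ≤ M → 0 < k → j ≠ 0 →
  |(j : ℝ)| / B ≤ k / C → M ^ (-96 / 100 : ℝ) ≤ k / C → (k : ℝ) / C ≤ M ^ (-43 / 100 : ℝ) →
  ∑ ν ∈ Zs B C H j k, Th H (K₁ * DH B C H j k ν) (fH B C H j k ν) ≤
    K * M ^ (1 / 20 : ℝ) * ((k * B / H) ^ (7 / 2 : ℝ) * M ^ (-1 / 2 : ℝ) +
      M ^ (3 / 2 : ℝ) * (|(j : ℝ)| * C / (k * B)) ^ (-1 / 2 : ℝ) + Int.gcd j k * M)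

/-! ## Assembly -/

def S_A1 : Prop := ∃ K M₀ : ℝ, 1 ≤ K ∧ 1 ≤ M₀ ∧ ∀ (A₁ A₂ A₃ : ℝ) (ω₁ ω₂ ω₃ : ℝ → ℂ),
  Wt A₁ ω₁ → Wt A₂ ω₂ → Wt A₃ ω₃ → ∀ (B C H M : ℝ) (j k : ℤ), Bal B C H M → M₀ ≤ M →
  0 < k → j ≠ 0 → |(j : ℝ)| / B ≤ k / C → M ^ (-96 / 100 : ℝ) ≤ k / C →
  (k : ℝ) / C ≤ M ^ (-43 / 100 : ℝ) →
  ‖TT ω₁ ω₂ ω₃ B C H j k‖ ≤ K * A₁ * A₂ * A₃ * M ^ (11 / 200 : ℝ) *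
    ((k * B / H) ^ (5 / 2 : ℝ) * M ^ (1 / 2 : ℝ) +
      M ^ (5 / 2 : ℝ) * (k * B / H)⁻¹ * (|(j : ℝ)| * C / (k * B)) ^ (-1 / 2 : ℝ) +
      Int.gcd j k * M ^ 2 * (k * B / H)⁻¹)

/-- sum over the dominated off-axis pairs -/
def S_A2a : Prop := ∃ K M₀ : ℝ, 1 ≤ K ∧ 1 ≤ M₀ ∧ ∀ (A₁ A₂ A₃ : ℝ) (ω₁ ω₂ : ℤ → ℤ → ℝ → ℂ)
  (ω₃ : ℝ → ℂ), (∀ j k, Wt A₁ (ω₁ j k)) → (∀ j k, Wt A₂ (ω₂ j k)) → Wt A₃ ω₃ →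
  ∀ (B C H M : ℝ) (S : Finset (ℤ × ℤ)), Bal B C H M → M₀ ≤ M →
  (∀ p ∈ S, 0 < p.2 ∧ p.1 ≠ 0 ∧ |(p.1 : ℝ)| / B ≤ p.2 / C ∧ (p.2 : ℝ) / C ≤ M ^ (-43 / 100 : ℝ)) →
  ∑ p ∈ S, ‖TT (ω₁ p.1 p.2) (ω₂ p.1 p.2) ω₃ B C H p.1 p.2‖ ≤
    K * A₁ * A₂ * A₃ * (B * C * M ^ (-86 / 100 : ℝ)) * M ^ (199 / 100 : ℝ)

def S_A2 : Prop := ∃ K M₀ : ℝ, 1 ≤ K ∧ 1 ≤ M₀ ∧ ∀ (A₁ A₂ A₃ : ℝ) (w₁ w₂ w₃ : ℝ → ℂ),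
  Wt A₁ w₁ → Wt A₂ w₂ → Wt A₃ w₃ → ∀ B C H M : ℝ, Bal B C H M → M₀ ≤ M →
  ‖S3 w₁ w₂ w₃ B C H‖ ^ 2 ≤ K * (A₁ * A₂ * A₃) ^ 2 * H ^ 2 * M ^ (2995 / 1000 : ℝ)

def S_A3 : Prop := BoxBound

end Pool.Agent.H304R4.CM
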