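import Mathlib
import Pool.Agent.H304R4.CM.Stubs

open Complex MeasureTheory Filter Topology

namespace Pool.Agent.H304R4.CM

namespace A2aAux

theorem sum_sqrt (N : ℕ) : ∑ n ∈ Finset.Icc 1 N, (1 / √(n : ℝ)) ≤ 2 * √(N : ℝ) := by
  induction N with
  | zero => simp
  | succ N ih =>
    rw [Finset.sum_Icc_succ_top (by omega)]
    have h1 : 1 / √((N + 1 : ℕ) : ℝ) ≤ 2 * √((N + 1 : ℕ) : ℝ) - 2 * √(N : ℝ) := by
      set a := √((N + 1 : ℕ) : ℝ) with ha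
      set b := √(N : ℝ) with hb
      have ha2 : a ^ 2 = N + 1 := by
        rw [ha, Real.sq_sqrt (by positivity)]; push_cast; ring
      have hb2 : b ^ 2 = N := by rw [hb, Real.sq_sqrt (by positivity)]
      have ha0 : 0 < a := by rw [ha]; positivity
      have hb0 : 0 ≤ b := Real.sqrt_nonneg _
      rw [div_le_iff₀ ha0]
      nlinarith [sq_nonneg (a - b)]
    linarith

theorem card_divisors_le (k : ℕ) : (k.divisors.card : ℝ) ≤ 2 * √(k : ℝ) := by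
  rcases Nat.eq_zero_or_pos k with rfl | hk
  · simp
  have h1 : k.divisors ⊆ (Finset.Icc 1 (Nat.sqrt k)) ∪
      (Finset.Icc 1 (Nat.sqrt k)).image (fun d => k / d) := by
    intro d hd
    rw [Nat.mem_divisors] at hd
    obtain ⟨⟨e, he⟩, _⟩ := hd
    rw [Finset.mem_union]
    by_cases h : d ≤ Nat.sqrt k
    · left
      rw [Finset.mem_Icc]
      refine ⟨?_, h⟩
      rcases Nat.eq_zero_or_pos d with rfl | h0
      · rw [zero_mul] at he; omega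
      · exact h0
    · right
      rw [Finset.mem_image]
      have he0 : 0 < e := by
        rcases Nat.eq_zero_or_pos e with rfl | h0
        · rw [mul_zero] at he; omega
        · exact h0
      refine ⟨e, ?_, ?_⟩
      · rw [Finset.mem_Icc]
        refine ⟨he0, ?_⟩
        rw [Nat.le_sqrt]
        rw [not_le, Nat.sqrt_lt] at h
        by_contra hcon
        rw [not_le] at hcon
        have h2 : k * k < (d * d) * (e * e) := by
          have := Nat.mul_lt_mul'' h hcon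
          exact this
        rw [he] at h2
        have : (d * d) * (e * e) = (d * e) * (d * e) := by ring
        omega
      · rw [he]
        exact Nat.mul_div_cancel _ he0
  have h2 := Finset.card_le_card h1
  have h3 := Finset.card_union_le (Finset.Icc 1 (Nat.sqrt k))
    ((Finset.Icc 1 (Nat.sqrt k)).image (fun d => k / d))
  have h4 := Finset.card_image_le (s := Finset.Icc 1 (Nat.sqrt k)) (f := fun d => k / d)
  rw [Nat.card_Icc, Nat.add_sub_cancel] at h3 h4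
  have h5 : k.divisors.card ≤ 2 * Nat.sqrt k := by omega
  have h6 : ((Nat.sqrt k : ℕ) : ℝ) ≤ √(k : ℝ) := Real.nat_sqrt_le_real_sqrt
  calc (k.divisors.card : ℝ) ≤ ((2 * Nat.sqrt k : ℕ) : ℝ) := by exact_mod_cast h5
    _ ≤ 2 * √(k : ℝ) := by push_cast; linarith

theorem sum_gcd (k N : ℕ) (hk : 0 < k) :
    ∑ n ∈ Finset.Icc 1 N, Nat.gcd n k ≤ N * k.divisors.card := by
  have h1 : ∀ n ∈ Finset.Icc 1 N, Nat.gcd n k ≤ ∑ g ∈ k.divisors, if g ∣ n then g else 0 := by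
    intro n hn
    have h2 : Nat.gcd n k ∈ k.divisors := by
      rw [Nat.mem_divisors]
      exact ⟨Nat.gcd_dvd_right _ _, hk.ne'⟩
    have h3 := Finset.single_le_sum (f := fun g => if g ∣ n then g else 0)
      (fun g _ => Nat.zero_le _) h2
    simp only [if_pos (Nat.gcd_dvd_left n k)] at h3
    exact h3
  refine (Finset.sum_le_sum h1).trans ?_
  rw [Finset.sum_comm]
  have h4 : ∀ g ∈ k.divisors, ∑ n ∈ Finset.Icc 1 N, (if g ∣ n then g else 0) ≤ N := by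
    intro g _
    rw [← Finset.sum_filter, Finset.sum_const, smul_eq_mul]
    have h5 : (Finset.Icc 1 N).filter (fun n => g ∣ n) = (Finset.Ioc 0 N).filter (fun n => g ∣ n) := by
      rfl
    rw [h5, Nat.Ioc_filter_dvd_card_eq_div]
    exact Nat.div_mul_le_self N g
  refine (Finset.sum_le_sum h4).trans ?_
  rw [Finset.sum_const, smul_eq_mul, mul_comm]

/-- sums over pairs of integers with a fixed sign of the first entry -/
theorem sum_sign_le (S : Finset (ℤ × ℤ)) (G : ℕ → ℕ → ℝ) (hG : ∀ n k, 0 ≤ G n k) (N : ℕ)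
    (X : ℕ → ℕ) (hS : ∀ p ∈ S, 0 < p.2 ∧ p.1 ≠ 0 ∧ p.2.natAbs ≤ N ∧ p.1.natAbs ≤ X p.2.natAbs)
    (hinj : Set.InjOn (fun p : ℤ × ℤ => (⟨p.2.natAbs, p.1.natAbs⟩ : Σ _ : ℕ, ℕ)) S) :
    ∑ p ∈ S, G p.1.natAbs p.2.natAbs ≤
      ∑ k ∈ Finset.Icc 1 N, ∑ n ∈ Finset.Icc 1 (X k), G n k := by
  classical
  rw [← Finset.sum_sigma (Finset.Icc 1 N) (fun k => Finset.Icc 1 (X k)) (fun q => G q.2 q.1)]
  rw [← Finset.sum_image (f := fun q : Σ _ : ℕ, ℕ => G q.2 q.1) hinj]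
  refine Finset.sum_le_sum_of_subset_of_nonneg ?_ fun q _ _ => hG _ _
  intro q hq
  rw [Finset.mem_image] at hq
  obtain ⟨p, hp, rfl⟩ := hq
  obtain ⟨h1, h2, h3, h4⟩ := hS p hp
  rw [Finset.mem_sigma, Finset.mem_Icc, Finset.mem_Icc]
  exact ⟨⟨(show 1 ≤ p.2.natAbs by omega), h3⟩, ⟨(show 1 ≤ p.1.natAbs by omega), h4⟩⟩

theorem sum_S_le (S : Finset (ℤ × ℤ)) (G : ℕ → ℕ → ℝ) (hG : ∀ n k, 0 ≤ G n k) (N : ℕ)
    (X : ℕ → ℕ) (hS : ∀ p ∈ S, 0 < p.2 ∧ p.1 ≠ 0 ∧ p.2.natAbs ≤ N ∧ p.1.natAbs ≤ X p.2.natAbs) :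
    ∑ p ∈ S, G p.1.natAbs p.2.natAbs ≤
      2 * ∑ k ∈ Finset.Icc 1 N, ∑ n ∈ Finset.Icc 1 (X k), G n k := by
  classical
  rw [← Finset.sum_filter_add_sum_filter_not S (fun p => 0 < p.1)]
  have h1 := sum_sign_le (S.filter (fun p => 0 < p.1)) G hG N X
    (fun p hp => hS p (Finset.mem_filter.1 hp).1) (by
      intro p hp q hq hpq
      have hp1 := Finset.mem_filter.1 (Finset.mem_coe.1 hp)
      have hq1 := Finset.mem_filter.1 (Finset.mem_coe.1 hq)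
      have hp2 := hS p hp1.1
      have hq2 := hS q hq1.1
      simp only [Sigma.mk.injEq, heq_eq_eq] at hpq
      refine Prod.ext ?_ ?_
      · omega
      · omega)
  have h2 := sum_sign_le (S.filter (fun p => ¬ 0 < p.1)) G hG N X
    (fun p hp => hS p (Finset.mem_filter.1 hp).1) (by
      intro p hp q hq hpq
      have hp1 := Finset.mem_filter.1 (Finset.mem_coe.1 hp)
      have hq1 := Finset.mem_filter.1 (Finset.mem_coe.1 hq)
      have hp2 := hS p hp1.1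
      have hq2 := hS q hq1.1
      simp only [Sigma.mk.injEq, heq_eq_eq] at hpq
      refine Prod.ext ?_ ?_
      · omega
      · omega)
  linarith

/-- the number of pairs -/
theorem count_le {B C η : ℝ} (hB : 0 < B) (hC : 0 < C) (hη : 0 ≤ η) :
    ∑ k ∈ Finset.Icc 1 ⌊η * C⌋₊, ∑ _n ∈ Finset.Icc 1 ⌊(k : ℝ) * B / C⌋₊, (1 : ℝ) ≤
      η ^ 2 * (B * C) := by
  have h1 : ∀ k ∈ Finset.Icc 1 ⌊η * C⌋₊, ∑ _n ∈ Finset.Icc 1 ⌊(k : ℝ) * B / C⌋₊, (1 : ℝ) ≤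
      η * B := by
    intro k hk
    rw [Finset.mem_Icc] at hk
    have hk2 : (k : ℝ) ≤ η * C := (Nat.le_floor_iff (by positivity)).1 hk.2
    rw [Finset.sum_const, Nat.card_Icc, Nat.add_sub_cancel, nsmul_eq_mul, mul_one]
    refine (Nat.floor_le (by positivity)).trans ?_
    rw [div_le_iff₀ hC]
    nlinarith
  refine (Finset.sum_le_sum h1).trans ?_
  rw [Finset.sum_const, Nat.card_Icc, Nat.add_sub_cancel, nsmul_eq_mul]
  have h2 : ((⌊η * C⌋₊ : ℕ) : ℝ) ≤ η * C := Nat.floor_le (by positivity)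
  calc ((⌊η * C⌋₊ : ℕ) : ℝ) * (η * B) ≤ (η * C) * (η * B) :=
        mul_le_mul_of_nonneg_right h2 (by positivity)
    _ = η ^ 2 * (B * C) := by ring

/-- the second sum -/
theorem second_le {B C H η : ℝ} (hB : 0 < B) (hC : 0 < C) (hH : 0 < H) (hη : 0 ≤ η) :
    ∑ k ∈ Finset.Icc 1 ⌊η * C⌋₊, ∑ n ∈ Finset.Icc 1 ⌊(k : ℝ) * B / C⌋₊,
      (((k : ℝ) * B / H)⁻¹ * ((n : ℝ) * C / (k * B)) ^ (-1 / 2 : ℝ)) ≤ 2 * (η * H) := by
  have h1 : ∀ k ∈ Finset.Icc 1 ⌊η * C⌋₊, ∑ n ∈ Finset.Icc 1 ⌊(k : ℝ) * B / C⌋₊,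
      (((k : ℝ) * B / H)⁻¹ * ((n : ℝ) * C / (k * B)) ^ (-1 / 2 : ℝ)) ≤ 2 * (H / C) := by
    intro k hk
    rw [Finset.mem_Icc] at hk
    have hk0 : (0 : ℝ) < k := by exact_mod_cast (show 0 < k by omega)
    set X : ℝ := (k : ℝ) * B / C with hX
    have hX0 : 0 < X := by positivity
    have e : ∀ n ∈ Finset.Icc 1 ⌊X⌋₊, (((k : ℝ) * B / H)⁻¹ *
        ((n : ℝ) * C / (k * B)) ^ (-1 / 2 : ℝ)) = (((k : ℝ) * B / H)⁻¹ * √X) * (1 / √(n : ℝ)) := by
      intro n hn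
      rw [Finset.mem_Icc] at hn
      have hn0 : (0 : ℝ) < n := by exact_mod_cast (show 0 < n by omega)
      have e1 : (n : ℝ) * C / (k * B) = n / X := by
        rw [hX]; field_simp
      rw [e1, show (-1 / 2 : ℝ) = -(1 / 2) by norm_num, Real.rpow_neg (by positivity),
        ← Real.sqrt_eq_rpow, Real.sqrt_div hn0.le]
      rw [inv_div (√(n : ℝ)) (√X)]
      ring
    rw [Finset.sum_congr rfl e, ← Finset.mul_sum]
    have h2 := sum_sqrt ⌊X⌋₊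
    have h3 : √((⌊X⌋₊ : ℕ) : ℝ) ≤ √X := Real.sqrt_le_sqrt (Nat.floor_le hX0.le)
    calc (((k : ℝ) * B / H)⁻¹ * √X) * ∑ n ∈ Finset.Icc 1 ⌊X⌋₊, (1 / √(n : ℝ)) ≤
          (((k : ℝ) * B / H)⁻¹ * √X) * (2 * √X) :=
          mul_le_mul_of_nonneg_left (by linarith) (by positivity)
      _ = 2 * ((k : ℝ) * B / H)⁻¹ * (√X * √X) := by ring
      _ = 2 * (H / C) := by
          rw [Real.mul_self_sqrt hX0.le, hX]
          field_simp
  refine (Finset.sum_le_sum h1).trans ?_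
  rw [Finset.sum_const, Nat.card_Icc, Nat.add_sub_cancel, nsmul_eq_mul]
  have h2 : ((⌊η * C⌋₊ : ℕ) : ℝ) ≤ η * C := Nat.floor_le (by positivity)
  calc ((⌊η * C⌋₊ : ℕ) : ℝ) * (2 * (H / C)) ≤ (η * C) * (2 * (H / C)) :=
        mul_le_mul_of_nonneg_right h2 (by positivity)
    _ = 2 * (η * H) := by field_simp

/-- the third sum -/
theorem third_le {B C H η : ℝ} (hB : 0 < B) (hC : 0 < C) (hH : 0 < H) (hη : 0 ≤ η) :
    ∑ k ∈ Finset.Icc 1 ⌊η * C⌋₊, ∑ n ∈ Finset.Icc 1 ⌊(k : ℝ) * B / C⌋₊,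
      ((Nat.gcd n k : ℝ) * ((k : ℝ) * B / H)⁻¹) ≤ 2 * (η * H) * √(η * C) := by
  have h1 : ∀ k ∈ Finset.Icc 1 ⌊η * C⌋₊, ∑ n ∈ Finset.Icc 1 ⌊(k : ℝ) * B / C⌋₊,
      ((Nat.gcd n k : ℝ) * ((k : ℝ) * B / H)⁻¹) ≤ 2 * (H / C) * √(η * C) := by
    intro k hk
    rw [Finset.mem_Icc] at hk
    have hk0 : (0 : ℝ) < k := by exact_mod_cast (show 0 < k by omega)
    have hk2 : (k : ℝ) ≤ η * C := (Nat.le_floor_iff (by positivity)).1 hk.2
    set X : ℝ := (k : ℝ) * B / C with hX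
    have hX0 : 0 < X := by positivity
    rw [← Finset.sum_mul]
    have h2 : (∑ n ∈ Finset.Icc 1 ⌊X⌋₊, (Nat.gcd n k : ℝ)) ≤ X * (2 * √(η * C)) := by
      have h3 := sum_gcd k ⌊X⌋₊ (by omega)
      have h4 : (∑ n ∈ Finset.Icc 1 ⌊X⌋₊, (Nat.gcd n k : ℝ)) ≤
          ((⌊X⌋₊ * k.divisors.card : ℕ) : ℝ) := by exact_mod_cast h3
      refine h4.trans ?_
      push_cast
      refine mul_le_mul (Nat.floor_le hX0.le) ?_ (by positivity) hX0.le
      refine (card_divisors_le k).trans ?_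
      have := Real.sqrt_le_sqrt hk2
      linarith
    calc (∑ n ∈ Finset.Icc 1 ⌊X⌋₊, (Nat.gcd n k : ℝ)) * ((k : ℝ) * B / H)⁻¹ ≤
          (X * (2 * √(η * C))) * ((k : ℝ) * B / H)⁻¹ :=
          mul_le_mul_of_nonneg_right h2 (by positivity)
      _ = 2 * (H / C) * √(η * C) := by
          rw [hX]
          field_simp
  refine (Finset.sum_le_sum h1).trans ?_
  rw [Finset.sum_const, Nat.card_Icc, Nat.add_sub_cancel, nsmul_eq_mul]
  have h2 : ((⌊η * C⌋₊ : ℕ) : ℝ) ≤ η * C := Nat.floor_le (by positivity)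
  calc ((⌊η * C⌋₊ : ℕ) : ℝ) * (2 * (H / C) * √(η * C)) ≤ (η * C) * (2 * (H / C) * √(η * C)) :=
        mul_le_mul_of_nonneg_right h2 (by positivity)
    _ = 2 * (η * H) * √(η * C) := by field_simp

theorem rpow_mul_add {M : ℝ} (hM : 1 ≤ M) (a b : ℝ) : M ^ a * M ^ b = M ^ (a + b) :=
  (Real.rpow_add (by linarith) a b).symm

end A2aAux

open A2aAux in
theorem t_A2a (hA1 : S_A1) (hSY : S_SY) : S_A2a := by
  classical
  obtain ⟨K₁, M₀, hK₁, hM₀, hA1⟩ := hA1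
  refine ⟨10 * K₁ + 16, M₀, by linarith, hM₀, ?_⟩
  intro A₁ A₂ A₃ ω₁ ω₂ ω₃ hω₁ hω₂ hω₃ B C H M S hBal hMM hS
  obtain ⟨hMe, hB1, hC1, hH1, hM1, ⟨_, _⟩, ⟨_, hC3⟩, ⟨_, hH3⟩⟩ := id hBal
  have hA1' : 0 ≤ A₁ := (norm_nonneg _).trans ((hω₁ 0 0).bound 0 (by norm_num) 0)
  have hA2' : 0 ≤ A₂ := (norm_nonneg _).trans ((hω₂ 0 0).bound 0 (by norm_num) 0)
  have hA3' : 0 ≤ A₃ := (norm_nonneg _).trans (hω₃.bound 0 (by norm_num) 0)
  have hB : 0 < B := by linarith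
  have hC : 0 < C := by linarith
  have hH : 0 < H := by linarith
  have hM : 0 < M := by linarith
  have hBC : B * C = M * H := by rw [hMe]; field_simp
  set A : ℝ := A₁ * A₂ * A₃ with hA
  have hA0 : 0 ≤ A := by positivity
  -- the pairs with small k
  have hpart1 : ∑ p ∈ S.filter (fun p => ¬ M ^ (-96 / 100 : ℝ) ≤ (p.2 : ℝ) / C),
      ‖TT (ω₁ p.1 p.2) (ω₂ p.1 p.2) ω₃ B C H p.1 p.2‖ ≤
        16 * A * (B * C) * M ^ (113 / 100 : ℝ) := by
    set η : ℝ := M ^ (-96 / 100 : ℝ) with hη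
    have hη0 : 0 ≤ η := by positivity
    have h1 : ∑ p ∈ S.filter (fun p => ¬ η ≤ (p.2 : ℝ) / C),
        ‖TT (ω₁ p.1 p.2) (ω₂ p.1 p.2) ω₃ B C H p.1 p.2‖ ≤
        ∑ p ∈ S.filter (fun p => ¬ η ≤ (p.2 : ℝ) / C), (8 * A * (B * C * H)) * 1 := by
      refine Finset.sum_le_sum fun p _ => ?_
      have := (hSY.2.2.2 A₁ A₂ A₃ (ω₁ p.1 p.2) (ω₂ p.1 p.2) ω₃ (hω₁ _ _) (hω₂ _ _) hω₃ B C H hB.le
        hC.le hH.le).1 p.1 p.2
      rw [mul_one]
      refine this.trans (le_of_eq ?_)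
      rw [hA]; ring
    have h2 : ∑ p ∈ S.filter (fun p => ¬ η ≤ (p.2 : ℝ) / C), (1 : ℝ) ≤
        2 * ∑ k ∈ Finset.Icc 1 ⌊η * C⌋₊, ∑ n ∈ Finset.Icc 1 ⌊(k : ℝ) * B / C⌋₊, (1 : ℝ) := by
      refine sum_S_le (S.filter (fun p => ¬ η ≤ (p.2 : ℝ) / C)) (fun _ _ => 1)
        (fun _ _ => zero_le_one) ⌊η * C⌋₊ (fun k => ⌊(k : ℝ) * B / C⌋₊) ?_
      intro p hp
      rw [Finset.mem_filter] at hp
      obtain ⟨g1, g2, g3, _⟩ := hS p hp.1
      have hk : ((p.2.natAbs : ℕ) : ℝ) = (p.2 : ℝ) := by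
        rw [← Int.cast_natCast, Int.natCast_natAbs, abs_of_pos g1]
      have hj : ((p.1.natAbs : ℕ) : ℝ) = |(p.1 : ℝ)| := by
        rw [← Int.cast_natCast, Int.natCast_natAbs, Int.cast_abs]
      refine ⟨g1, g2, ?_, ?_⟩
      · rw [Nat.le_floor_iff (by positivity), hk]
        have := (not_le.1 hp.2).le
        rwa [div_le_iff₀ hC] at this
      · rw [Nat.le_floor_iff (by positivity), hk, hj]
        rw [div_le_div_iff₀ hB hC] at g3
        rw [le_div_iff₀ hC]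
        exact g3
    have h3 := count_le hB hC hη0
    have h4 : η ^ 2 = M ^ (-192 / 100 : ℝ) := by
      rw [hη, ← Real.rpow_natCast, ← Real.rpow_mul hM.le]
      norm_num
    have h5 : H ^ 2 ≤ M ^ (201 / 100 : ℝ) := by
      calc H ^ 2 ≤ (M ^ (1 + 1 / 800 : ℝ)) ^ 2 := by gcongr
        _ = M ^ (2 * (1 + 1 / 800) : ℝ) := by
            rw [← Real.rpow_natCast, ← Real.rpow_mul hM.le]
            norm_num
        _ ≤ M ^ (201 / 100 : ℝ) := Real.rpow_le_rpow_of_exponent_le hM1 (by norm_num)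
    rw [← Finset.mul_sum] at h1
    refine h1.trans ?_
    calc (8 * A * (B * C * H)) * ∑ p ∈ S.filter (fun p => ¬ η ≤ (p.2 : ℝ) / C), (1 : ℝ) ≤
          (8 * A * (B * C * H)) * (2 * (η ^ 2 * (B * C))) :=
          mul_le_mul_of_nonneg_left (h2.trans (by linarith)) (by positivity)
      _ = 16 * A * (B * C) * (η ^ 2 * M * H ^ 2) := by
          rw [hBC]; ring
      _ ≤ 16 * A * (B * C) * (M ^ (-192 / 100 : ℝ) * M ^ (1 : ℝ) * M ^ (201 / 100 : ℝ)) := by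
          rw [h4, Real.rpow_one]
          gcongr
      _ = 16 * A * (B * C) * M ^ (109 / 100 : ℝ) := by
          rw [rpow_mul_add hM1, rpow_mul_add hM1]; norm_num
      _ ≤ 16 * A * (B * C) * M ^ (113 / 100 : ℝ) := by
          refine mul_le_mul_of_nonneg_left ?_ (by positivity)
          exact Real.rpow_le_rpow_of_exponent_le hM1 (by norm_num)
  -- the other pairs
  have hpart2 : ∑ p ∈ S.filter (fun p => M ^ (-96 / 100 : ℝ) ≤ (p.2 : ℝ) / C),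
      ‖TT (ω₁ p.1 p.2) (ω₂ p.1 p.2) ω₃ B C H p.1 p.2‖ ≤
        10 * K₁ * A * (B * C) * M ^ (113 / 100 : ℝ) := by
    set η : ℝ := M ^ (-43 / 100 : ℝ) with hη
    have hη0 : 0 ≤ η := by positivity
    set G : ℕ → ℕ → ℝ := fun n k => ((k : ℝ) * B / H) ^ (5 / 2 : ℝ) * M ^ (1 / 2 : ℝ) +
      M ^ (5 / 2 : ℝ) * (((k : ℝ) * B / H)⁻¹ * ((n : ℝ) * C / (k * B)) ^ (-1 / 2 : ℝ)) +
      M ^ 2 * ((Nat.gcd n k : ℝ) * ((k : ℝ) * B / H)⁻¹) with hG
    have hG0 : ∀ n k, 0 ≤ G n k := fun n k => by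
      simp only [hG]
      positivity
    have h1 : ∑ p ∈ S.filter (fun p => M ^ (-96 / 100 : ℝ) ≤ (p.2 : ℝ) / C),
        ‖TT (ω₁ p.1 p.2) (ω₂ p.1 p.2) ω₃ B C H p.1 p.2‖ ≤
        ∑ p ∈ S.filter (fun p => M ^ (-96 / 100 : ℝ) ≤ (p.2 : ℝ) / C),
          (K₁ * A * M ^ (11 / 200 : ℝ)) * G p.1.natAbs p.2.natAbs := by
      refine Finset.sum_le_sum fun p hp => ?_
      rw [Finset.mem_filter] at hp
      obtain ⟨g1, g2, g3, g4⟩ := hS p hp.1
      have hk : ((p.2.natAbs : ℕ) : ℝ) = (p.2 : ℝ) := by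
        rw [← Int.cast_natCast, Int.natCast_natAbs, abs_of_pos g1]
      have hj : ((p.1.natAbs : ℕ) : ℝ) = |(p.1 : ℝ)| := by
        rw [← Int.cast_natCast, Int.natCast_natAbs, Int.cast_abs]
      have := hA1 A₁ A₂ A₃ (ω₁ p.1 p.2) (ω₂ p.1 p.2) ω₃ (hω₁ _ _) (hω₂ _ _) hω₃ B C H M p.1 p.2
        hBal hMM g1 g2 g3 hp.2 g4
      refine this.trans (le_of_eq ?_)
      simp only [hG]
      rw [hk, hj, show Nat.gcd p.1.natAbs p.2.natAbs = Int.gcd p.1 p.2 from rfl, hA]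
      ring
    have h2 := sum_S_le (S.filter (fun p => M ^ (-96 / 100 : ℝ) ≤ (p.2 : ℝ) / C)) G hG0 ⌊η * C⌋₊
      (fun k => ⌊(k : ℝ) * B / C⌋₊) (by
        intro p hp
        rw [Finset.mem_filter] at hp
        obtain ⟨g1, g2, g3, g4⟩ := hS p hp.1
        have hk : ((p.2.natAbs : ℕ) : ℝ) = (p.2 : ℝ) := by
          rw [← Int.cast_natCast, Int.natCast_natAbs, abs_of_pos g1]
        have hj : ((p.1.natAbs : ℕ) : ℝ) = |(p.1 : ℝ)| := by
          rw [← Int.cast_natCast, Int.natCast_natAbs, Int.cast_abs]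
        refine ⟨g1, g2, ?_, ?_⟩
        · rw [Nat.le_floor_iff (by positivity), hk]
          rwa [div_le_iff₀ hC] at g4
        · rw [Nat.le_floor_iff (by positivity), hk, hj]
          rw [div_le_div_iff₀ hB hC] at g3
          rw [le_div_iff₀ hC]
          exact g3)
    -- the double sum
    have h3 : ∑ k ∈ Finset.Icc 1 ⌊η * C⌋₊, ∑ n ∈ Finset.Icc 1 ⌊(k : ℝ) * B / C⌋₊, G n k ≤
        (M ^ (57 / 100 : ℝ)) ^ (5 / 2 : ℝ) * M ^ (1 / 2 : ℝ) * (η ^ 2 * (B * C)) +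
        M ^ (5 / 2 : ℝ) * (2 * (η * H)) + M ^ 2 * (2 * (η * H) * √(η * C)) := by
      have e1 : ∑ k ∈ Finset.Icc 1 ⌊η * C⌋₊, ∑ n ∈ Finset.Icc 1 ⌊(k : ℝ) * B / C⌋₊, G n k ≤
          (M ^ (57 / 100 : ℝ)) ^ (5 / 2 : ℝ) * M ^ (1 / 2 : ℝ) *
            (∑ k ∈ Finset.Icc 1 ⌊η * C⌋₊, ∑ _n ∈ Finset.Icc 1 ⌊(k : ℝ) * B / C⌋₊, (1 : ℝ)) +
          M ^ (5 / 2 : ℝ) * (∑ k ∈ Finset.Icc 1 ⌊η * C⌋₊,
            ∑ n ∈ Finset.Icc 1 ⌊(k : ℝ) * B / C⌋₊,
              (((k : ℝ) * B / H)⁻¹ * ((n : ℝ) * C / (k * B)) ^ (-1 / 2 : ℝ))) +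
          M ^ 2 * (∑ k ∈ Finset.Icc 1 ⌊η * C⌋₊, ∑ n ∈ Finset.Icc 1 ⌊(k : ℝ) * B / C⌋₊,
            ((Nat.gcd n k : ℝ) * ((k : ℝ) * B / H)⁻¹)) := by
        simp only [Finset.mul_sum]
        rw [← Finset.sum_add_distrib, ← Finset.sum_add_distrib]
        refine Finset.sum_le_sum fun k hk => ?_
        rw [← Finset.sum_add_distrib, ← Finset.sum_add_distrib]
        refine Finset.sum_le_sum fun n _ => ?_
        rw [Finset.mem_Icc] at hk
        have hk2 : (k : ℝ) ≤ η * C := (Nat.le_floor_iff (by positivity)).1 hk.2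
        have h5 : (k : ℝ) * B / H ≤ M ^ (57 / 100 : ℝ) := by
          calc (k : ℝ) * B / H ≤ (η * C) * B / H := by gcongr
            _ = η * (B * C / H) := by ring
            _ = M ^ (-43 / 100 : ℝ) * M ^ (1 : ℝ) := by rw [← hMe, Real.rpow_one]
            _ = M ^ (57 / 100 : ℝ) := by rw [rpow_mul_add hM1]; norm_num
        have h6 : ((k : ℝ) * B / H) ^ (5 / 2 : ℝ) ≤ (M ^ (57 / 100 : ℝ)) ^ (5 / 2 : ℝ) :=
          Real.rpow_le_rpow (by positivity) h5 (by norm_num)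
        simp only [hG, mul_one]
        gcongr
      have e2 := count_le hB hC hη0
      have e3 := second_le (H := H) hB hC hH hη0
      have e4 := third_le (H := H) hB hC hH hη0
      refine e1.trans ?_
      gcongr
    rw [← Finset.mul_sum] at h1
    have h4 : η ^ 2 = M ^ (-86 / 100 : ℝ) := by
      rw [hη, ← Real.rpow_natCast, ← Real.rpow_mul hM.le]
      norm_num
    have h5 : (M ^ (57 / 100 : ℝ)) ^ (5 / 2 : ℝ) = M ^ (285 / 200 : ℝ) := by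
      rw [← Real.rpow_mul hM.le]; norm_num
    have hH' : H = B * C * M ^ (-1 : ℝ) := by
      rw [Real.rpow_neg hM.le, Real.rpow_one, hBC]
      field_simp
    have h6 : √(η * C) ≤ M ^ (3 / 10 : ℝ) := by
      rw [Real.sqrt_le_left (by positivity)]
      calc η * C ≤ M ^ (-43 / 100 : ℝ) * M ^ (1 + 1 / 800 : ℝ) := by gcongr
        _ = M ^ (-43 / 100 + (1 + 1 / 800) : ℝ) := rpow_mul_add hM1 _ _
        _ ≤ M ^ (3 / 5 : ℝ) := Real.rpow_le_rpow_of_exponent_le hM1 (by norm_num)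
        _ = (M ^ (3 / 10 : ℝ)) ^ 2 := by
            rw [← Real.rpow_natCast, ← Real.rpow_mul hM.le]
            norm_num
    have hM2 : M ^ 2 = M ^ (2 : ℝ) := by
      rw [← Real.rpow_natCast]; norm_num
    -- the three terms
    have t1 : M ^ (11 / 200 : ℝ) * ((M ^ (57 / 100 : ℝ)) ^ (5 / 2 : ℝ) * M ^ (1 / 2 : ℝ) *
        (η ^ 2 * (B * C))) ≤ (B * C) * M ^ (113 / 100 : ℝ) := by
      rw [h4, h5]
      calc M ^ (11 / 200 : ℝ) * (M ^ (285 / 200 : ℝ) * M ^ (1 / 2 : ℝ) *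
          (M ^ (-86 / 100 : ℝ) * (B * C))) = (B * C) * (M ^ (11 / 200 : ℝ) * M ^ (285 / 200 : ℝ) *
            M ^ (1 / 2 : ℝ) * M ^ (-86 / 100 : ℝ)) := by ring
        _ = (B * C) * M ^ (112 / 100 : ℝ) := by
            rw [rpow_mul_add hM1, rpow_mul_add hM1, rpow_mul_add hM1]; norm_num
        _ ≤ (B * C) * M ^ (113 / 100 : ℝ) := by
            refine mul_le_mul_of_nonneg_left ?_ (by positivity)
            exact Real.rpow_le_rpow_of_exponent_le hM1 (by norm_num)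
    have t2 : M ^ (11 / 200 : ℝ) * (M ^ (5 / 2 : ℝ) * (2 * (η * H))) ≤
        2 * ((B * C) * M ^ (113 / 100 : ℝ)) := by
      rw [hH']
      calc M ^ (11 / 200 : ℝ) * (M ^ (5 / 2 : ℝ) * (2 * (η * (B * C * M ^ (-1 : ℝ))))) =
          2 * ((B * C) * (M ^ (11 / 200 : ℝ) * M ^ (5 / 2 : ℝ) * M ^ (-43 / 100 : ℝ) *
            M ^ (-1 : ℝ))) := by rw [hη]; ring
        _ = 2 * ((B * C) * M ^ (1125 / 1000 : ℝ)) := by
            rw [rpow_mul_add hM1, rpow_mul_add hM1, rpow_mul_add hM1]; norm_num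
        _ ≤ 2 * ((B * C) * M ^ (113 / 100 : ℝ)) := by
            refine mul_le_mul_of_nonneg_left (mul_le_mul_of_nonneg_left ?_ (by positivity))
              (by norm_num)
            exact Real.rpow_le_rpow_of_exponent_le hM1 (by norm_num)
    have t3 : M ^ (11 / 200 : ℝ) * (M ^ 2 * (2 * (η * H) * √(η * C))) ≤
        2 * ((B * C) * M ^ (113 / 100 : ℝ)) := by
      calc M ^ (11 / 200 : ℝ) * (M ^ 2 * (2 * (η * H) * √(η * C))) ≤
          M ^ (11 / 200 : ℝ) * (M ^ 2 * (2 * (η * H) * M ^ (3 / 10 : ℝ))) := by gcongr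
        _ = 2 * ((B * C) * (M ^ (11 / 200 : ℝ) * M ^ (2 : ℝ) * M ^ (-43 / 100 : ℝ) *
            M ^ (-1 : ℝ) * M ^ (3 / 10 : ℝ))) := by rw [hH', hM2, hη]; ring
        _ = 2 * ((B * C) * M ^ (925 / 1000 : ℝ)) := by
            rw [rpow_mul_add hM1, rpow_mul_add hM1, rpow_mul_add hM1, rpow_mul_add hM1]; norm_num
        _ ≤ 2 * ((B * C) * M ^ (113 / 100 : ℝ)) := by
            refine mul_le_mul_of_nonneg_left (mul_le_mul_of_nonneg_left ?_ (by positivity))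
              (by norm_num)
            exact Real.rpow_le_rpow_of_exponent_le hM1 (by norm_num)
    refine h1.trans ?_
    calc (K₁ * A * M ^ (11 / 200 : ℝ)) *
          ∑ p ∈ S.filter (fun p => M ^ (-96 / 100 : ℝ) ≤ (p.2 : ℝ) / C),
            G p.1.natAbs p.2.natAbs ≤
        (K₁ * A * M ^ (11 / 200 : ℝ)) * (2 *
          ((M ^ (57 / 100 : ℝ)) ^ (5 / 2 : ℝ) * M ^ (1 / 2 : ℝ) * (η ^ 2 * (B * C)) +
          M ^ (5 / 2 : ℝ) * (2 * (η * H)) + M ^ 2 * (2 * (η * H) * √(η * C)))) :=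
          mul_le_mul_of_nonneg_left (h2.trans (by linarith)) (by positivity)
      _ = 2 * (K₁ * A) * (M ^ (11 / 200 : ℝ) * ((M ^ (57 / 100 : ℝ)) ^ (5 / 2 : ℝ) *
          M ^ (1 / 2 : ℝ) * (η ^ 2 * (B * C))) + M ^ (11 / 200 : ℝ) * (M ^ (5 / 2 : ℝ) *
          (2 * (η * H))) + M ^ (11 / 200 : ℝ) * (M ^ 2 * (2 * (η * H) * √(η * C)))) := by ring
      _ ≤ 2 * (K₁ * A) * ((B * C) * M ^ (113 / 100 : ℝ) + 2 * ((B * C) * M ^ (113 / 100 : ℝ)) +
          2 * ((B * C) * M ^ (113 / 100 : ℝ))) := by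
          refine mul_le_mul_of_nonneg_left (by linarith) (by positivity)
      _ = 10 * K₁ * A * (B * C) * M ^ (113 / 100 : ℝ) := by ring
  rw [← Finset.sum_filter_add_sum_filter_not S (fun p => M ^ (-96 / 100 : ℝ) ≤ (p.2 : ℝ) / C)]
  have hfin : (10 * K₁ + 16) * A₁ * A₂ * A₃ * (B * C * M ^ (-86 / 100 : ℝ)) *
      M ^ (199 / 100 : ℝ) = (10 * K₁ + 16) * A * (B * C) * M ^ (113 / 100 : ℝ) := by
    calc (10 * K₁ + 16) * A₁ * A₂ * A₃ * (B * C * M ^ (-86 / 100 : ℝ)) *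
        M ^ (199 / 100 : ℝ) = (10 * K₁ + 16) * A * (B * C) * (M ^ (-86 / 100 : ℝ) *
          M ^ (199 / 100 : ℝ)) := by rw [hA]; ring
      _ = (10 * K₁ + 16) * A * (B * C) * M ^ (113 / 100 : ℝ) := by
          rw [rpow_mul_add hM1]; norm_num
  rw [hfin]
  refine (add_le_add hpart2 hpart1).trans (le_of_eq ?_)
  ring

end Pool.Agent.H304R4.CM
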