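import Pool.Agent.H304R4.CM.Stubs

/-! # TEAM CM, task BDA: calculus of bounded functions and amplitudes. -/

open Complex MeasureTheory Filter Topology

namespace Pool.Agent.H304R4.CM

namespace BDAx

lemma isClosed_Qb : IsClosed Qb := by
  have h1 : Continuous fun z : ℝ × ℝ => z.1 := continuous_fst
  have h2 : Continuous fun z : ℝ × ℝ => z.2 := continuous_snd
  have : Qb = ({z : ℝ × ℝ | 1 / 2 ≤ z.1} ∩ {z : ℝ × ℝ | z.1 ≤ 2}) ∩
      ({z : ℝ × ℝ | 1 / 2 ≤ z.2} ∩ {z : ℝ × ℝ | z.2 ≤ 2}) := by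
    ext z; simp [Qb]
  rw [this]
  exact ((isClosed_le continuous_const h1).inter (isClosed_le h1 continuous_const)).inter
    ((isClosed_le continuous_const h2).inter (isClosed_le h2 continuous_const))

lemma one_mem : ((1 : ℝ), (1 : ℝ)) ∈ Qb := by
  refine ⟨⟨?_, ?_⟩, ⟨?_, ?_⟩⟩ <;> norm_num

lemma BD_nonneg {G : ℝ} {f : ℝ × ℝ → ℝ} (h : BD G f) : 0 ≤ G :=
  le_trans (norm_nonneg _) ((h _ one_mem).2 0 (by norm_num))

/-- open neighbourhood where two functions are smooth of order `n` -/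
lemma exists_nbhd {E F G : Type*} [NormedAddCommGroup E] [NormedSpace ℝ E]
    [NormedAddCommGroup F] [NormedSpace ℝ F] [NormedAddCommGroup G] [NormedSpace ℝ G]
    {f : E → F} {g : E → G} {x : E} (n : ℕ)
    (hf : ContDiffAt ℝ n f x) (hg : ContDiffAt ℝ n g x) :
    ∃ u : Set E, IsOpen u ∧ x ∈ u ∧ ContDiffOn ℝ n f u ∧ ContDiffOn ℝ n g u := by
  have h1 := hf.eventually (by simp)
  have h2 := hg.eventually (by simp)
  obtain ⟨u, hu, ho, hx⟩ := eventually_nhds_iff.1 (h1.and h2)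
  exact ⟨u, ho, hx, fun y hy => (hu y hy).1.contDiffWithinAt, fun y hy => (hu y hy).2.contDiffWithinAt⟩

lemma sum_bound {F G : ℝ} (hF : 0 ≤ F) (hG : 0 ≤ G) {m : ℕ} (hm : m ≤ 3) {a b : ℕ → ℝ}
    (ha : ∀ i ≤ m, a i ≤ F) (hb : ∀ i ≤ m, b i ≤ G) (ha0 : ∀ i, 0 ≤ a i) (hb0 : ∀ i, 0 ≤ b i) :
    ∑ i ∈ Finset.range (m + 1), (m.choose i : ℝ) * a i * b (m - i) ≤ 8 * F * G := by
  calc ∑ i ∈ Finset.range (m + 1), (m.choose i : ℝ) * a i * b (m - i)
      ≤ ∑ i ∈ Finset.range (m + 1), (m.choose i : ℝ) * F * G := by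
        apply Finset.sum_le_sum
        intro i hi
        have hi' : i ≤ m := Nat.lt_succ_iff.1 (Finset.mem_range.1 hi)
        have h1 := ha i hi'
        have h2 := hb (m - i) (Nat.sub_le _ _)
        have h3 := ha0 i
        have h4 := hb0 (m - i)
        have h5 : (0 : ℝ) ≤ m.choose i := Nat.cast_nonneg _
        gcongr
    _ = (2 : ℝ) ^ m * F * G := by
        rw [← Finset.sum_mul, ← Finset.sum_mul]
        congr 2
        have := Nat.sum_range_choose m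
        exact_mod_cast this
    _ ≤ 8 * F * G := by
        have : (2 : ℝ) ^ m ≤ 8 := by
          calc (2 : ℝ) ^ m ≤ 2 ^ 3 := pow_le_pow_right₀ (by norm_num) hm
            _ = 8 := by norm_num
        gcongr

lemma smul_bound {f : ℝ × ℝ → ℝ} {g : ℝ × ℝ → ℂ} {x : ℝ × ℝ} {F G : ℝ} (hF : 0 ≤ F) (hG : 0 ≤ G)
    {m : ℕ} (hm : m ≤ 3)
    (hf : ContDiffAt ℝ (⊤ : ℕ∞) f x) (hg : ContDiffAt ℝ (⊤ : ℕ∞) g x)
    (hfb : ∀ i ≤ m, ‖iteratedFDeriv ℝ i f x‖ ≤ F) (hgb : ∀ i ≤ m, ‖iteratedFDeriv ℝ i g x‖ ≤ G) :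
    ‖iteratedFDeriv ℝ m (fun z => f z • g z) x‖ ≤ 8 * F * G := by
  obtain ⟨u, ho, hx, h1, h2⟩ := exists_nbhd m (hf.of_le (by exact_mod_cast le_top))
    (hg.of_le (by exact_mod_cast le_top))
  rw [← iteratedFDerivWithin_of_isOpen m ho hx]
  refine (norm_iteratedFDerivWithin_smul_le h1 h2 ho.uniqueDiffOn hx le_rfl).trans ?_
  refine sum_bound (a := fun i => ‖iteratedFDerivWithin ℝ i f u x‖)
    (b := fun i => ‖iteratedFDerivWithin ℝ i g u x‖) hF hG hm ?_ ?_ (fun _ => norm_nonneg _)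
    (fun _ => norm_nonneg _)
  · intro i hi
    show ‖iteratedFDerivWithin ℝ i f u x‖ ≤ F
    rw [iteratedFDerivWithin_of_isOpen i ho hx]; exact hfb i hi
  · intro i hi
    show ‖iteratedFDerivWithin ℝ i g u x‖ ≤ G
    rw [iteratedFDerivWithin_of_isOpen i ho hx]; exact hgb i hi

lemma mul_bound {f g : ℝ × ℝ → ℝ} {x : ℝ × ℝ} {F G : ℝ} (hF : 0 ≤ F) (hG : 0 ≤ G)
    {m : ℕ} (hm : m ≤ 3)
    (hf : ContDiffAt ℝ (⊤ : ℕ∞) f x) (hg : ContDiffAt ℝ (⊤ : ℕ∞) g x)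
    (hfb : ∀ i ≤ m, ‖iteratedFDeriv ℝ i f x‖ ≤ F) (hgb : ∀ i ≤ m, ‖iteratedFDeriv ℝ i g x‖ ≤ G) :
    ‖iteratedFDeriv ℝ m (fun z => f z * g z) x‖ ≤ 8 * F * G := by
  obtain ⟨u, ho, hx, h1, h2⟩ := exists_nbhd m (hf.of_le (by exact_mod_cast le_top))
    (hg.of_le (by exact_mod_cast le_top))
  rw [← iteratedFDerivWithin_of_isOpen m ho hx]
  refine (norm_iteratedFDerivWithin_mul_le h1 h2 ho.uniqueDiffOn hx le_rfl).trans ?_
  refine sum_bound (a := fun i => ‖iteratedFDerivWithin ℝ i f u x‖)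
    (b := fun i => ‖iteratedFDerivWithin ℝ i g u x‖) hF hG hm ?_ ?_ (fun _ => norm_nonneg _)
    (fun _ => norm_nonneg _)
  · intro i hi
    show ‖iteratedFDerivWithin ℝ i f u x‖ ≤ F
    rw [iteratedFDerivWithin_of_isOpen i ho hx]; exact hfb i hi
  · intro i hi
    show ‖iteratedFDerivWithin ℝ i g u x‖ ≤ G
    rw [iteratedFDerivWithin_of_isOpen i ho hx]; exact hgb i hi

lemma BD_const (c : ℝ) : BD |c| (fun _ => c) := by
  intro z _
  refine ⟨contDiffAt_const, fun m _ => ?_⟩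
  rcases Nat.eq_zero_or_pos m with rfl | hm
  · simp
  · rw [iteratedFDeriv_const_of_ne (by omega)]
    simp

lemma BD_clm (L : ℝ × ℝ →L[ℝ] ℝ) (hL : ‖L‖ ≤ 1) (hb : ∀ z ∈ Qb, |L z| ≤ 2) :
    BD 2 (fun z => L z) := by
  intro z hz
  refine ⟨L.contDiff.contDiffAt, fun m _ => ?_⟩
  match m with
  | 0 => simpa using hb z hz
  | 1 =>
    rw [← norm_iteratedFDeriv_fderiv, norm_iteratedFDeriv_zero]
    have : fderiv ℝ (fun z => L z) z = L := L.fderiv
    rw [this]; linarith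
  | (k + 2) =>
    rw [← norm_iteratedFDeriv_fderiv]
    have : fderiv ℝ (fun z => L z) = fun _ => L := by ext1 w; exact L.fderiv
    rw [this, iteratedFDeriv_succ_const]
    simp

lemma BD_fst : BD 2 (fun z => z.1) := by
  refine BD_clm (ContinuousLinearMap.fst ℝ ℝ ℝ) (ContinuousLinearMap.norm_fst_le ℝ ℝ ℝ) ?_
  intro z hz
  have := hz.1
  show |z.1| ≤ 2
  rw [abs_le]; constructor <;> linarith [this.1, this.2]

lemma BD_snd : BD 2 (fun z => z.2) := by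
  refine BD_clm (ContinuousLinearMap.snd ℝ ℝ ℝ) (ContinuousLinearMap.norm_snd_le ℝ ℝ ℝ) ?_
  intro z hz
  have := hz.2
  show |z.2| ≤ 2
  rw [abs_le]; constructor <;> linarith [this.1, this.2]

lemma BD_add {F G : ℝ} {f g : ℝ × ℝ → ℝ} (hf : BD F f) (hg : BD G g) :
    BD (F + G) (fun z => f z + g z) := by
  intro z hz
  refine ⟨(hf z hz).1.add (hg z hz).1, fun m hm => ?_⟩
  have h1 : ContDiffAt ℝ m f z := (hf z hz).1.of_le (by exact_mod_cast le_top)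
  have h2 : ContDiffAt ℝ m g z := (hg z hz).1.of_le (by exact_mod_cast le_top)
  have h3 : iteratedFDeriv ℝ m (fun z => f z + g z) z =
      iteratedFDeriv ℝ m f z + iteratedFDeriv ℝ m g z := iteratedFDeriv_add_apply h1 h2
  rw [h3]
  exact (norm_add_le _ _).trans (add_le_add ((hf z hz).2 m hm) ((hg z hz).2 m hm))

lemma BD_mul {F G : ℝ} {f g : ℝ × ℝ → ℝ} (hf : BD F f) (hg : BD G g) :
    BD (8 * F * G) (fun z => f z * g z) := by
  intro z hz
  refine ⟨(hf z hz).1.mul (hg z hz).1, fun m hm => ?_⟩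
  exact mul_bound (BD_nonneg hf) (BD_nonneg hg) hm (hf z hz).1 (hg z hz).1
    (fun i hi => (hf z hz).2 i (hi.trans hm)) (fun i hi => (hg z hz).2 i (hi.trans hm))

lemma inv_bound {c y : ℝ} (hc : 0 < c) (hy : c ≤ |y|) {i : ℕ} (hi : i ≤ 3) :
    ‖iteratedFDeriv ℝ i (fun x : ℝ => x⁻¹) y‖ ≤ 6 * (max 1 c⁻¹) ^ 4 := by
  have hy0 : y ≠ 0 := by
    rintro rfl; simp at hy; linarith
  rw [norm_iteratedFDeriv_eq_norm_iteratedDeriv, iteratedDeriv_eq_iterate, iter_deriv_inv]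
  have h1 : ‖(-1 : ℝ) ^ i * (i.factorial : ℝ) * y ^ (-1 - i : ℤ)‖ =
      (i.factorial : ℝ) * |y|⁻¹ ^ (i + 1) := by
    rw [norm_mul, norm_mul, norm_pow, norm_neg, norm_one, one_pow, one_mul]
    rw [Real.norm_of_nonneg (Nat.cast_nonneg _), norm_zpow, Real.norm_eq_abs]
    congr 1
    rw [show (-1 - i : ℤ) = -((i + 1 : ℕ) : ℤ) by push_cast; ring, zpow_neg, zpow_natCast, inv_pow]
  rw [h1]
  have h2 : (i.factorial : ℝ) ≤ 6 := by
    have : i.factorial ≤ Nat.factorial 3 := Nat.factorial_le hi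
    have h6 : Nat.factorial 3 = 6 := rfl
    rw [h6] at this
    exact_mod_cast this
  have h3 : |y|⁻¹ ≤ max 1 c⁻¹ := by
    refine le_trans ?_ (le_max_right _ _)
    exact inv_anti₀ hc hy
  have h4 : |y|⁻¹ ^ (i + 1) ≤ (max 1 c⁻¹) ^ 4 := by
    calc |y|⁻¹ ^ (i + 1) ≤ (max 1 c⁻¹) ^ (i + 1) := by
          apply pow_le_pow_left₀ (by positivity) h3
      _ ≤ (max 1 c⁻¹) ^ 4 := pow_le_pow_right₀ (le_max_left _ _) (by omega)
  have h5 : (0 : ℝ) ≤ |y|⁻¹ ^ (i + 1) := by positivity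
  calc (i.factorial : ℝ) * |y|⁻¹ ^ (i + 1) ≤ 6 * |y|⁻¹ ^ (i + 1) := by gcongr
    _ ≤ 6 * (max 1 c⁻¹) ^ 4 := by gcongr

lemma BD_inv (G c : ℝ) (hc : 0 < c) : ∃ K : ℝ, ∀ f : ℝ × ℝ → ℝ, BD G f → (∀ z ∈ Qb, c ≤ |f z|) →
    BD K (fun z => (f z)⁻¹) := by
  refine ⟨6 * (6 * (max 1 c⁻¹) ^ 4) * (max 1 G) ^ 3, ?_⟩
  intro f hf hcf z hz
  have hfz : f z ≠ 0 := by
    intro h0
    have := hcf z hz
    rw [h0] at this; simp at this; linarith
  refine ⟨(hf z hz).1.inv hfz, fun m hm => ?_⟩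
  have h1 : ContDiffAt ℝ m f z := (hf z hz).1.of_le (by exact_mod_cast le_top)
  have h2 : ∀ᶠ w in 𝓝 z, f w ≠ 0 := h1.continuousAt.eventually_ne hfz
  obtain ⟨u, hu, ho, hx⟩ := eventually_nhds_iff.1 ((h1.eventually (by simp)).and h2)
  have hfu : ContDiffOn ℝ m f u := fun y hy => (hu y hy).1.contDiffWithinAt
  have hto : IsOpen {x : ℝ | x ≠ 0} := isOpen_ne
  have hgt : ContDiffOn ℝ m (fun x : ℝ => x⁻¹) {x : ℝ | x ≠ 0} :=
    fun y hy => (contDiffAt_inv ℝ hy).contDiffWithinAt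
  have key := norm_iteratedFDerivWithin_comp_le (n := m) (C := 6 * (max 1 c⁻¹) ^ 4)
    (D := max 1 G) hgt hfu le_rfl hto.uniqueDiffOn ho.uniqueDiffOn
    (fun y hy => (hu y hy).2) hx
    (fun i hi => by
      rw [iteratedFDerivWithin_of_isOpen i hto hfz]
      exact inv_bound hc (hcf z hz) (hi.trans hm))
    (fun i h1 hi => by
      rw [iteratedFDerivWithin_of_isOpen i ho hx]
      refine ((hf z hz).2 i (hi.trans hm)).trans ?_
      refine (le_max_right 1 G).trans ?_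
      calc max 1 G = (max 1 G) ^ 1 := (pow_one _).symm
        _ ≤ (max 1 G) ^ i := pow_le_pow_right₀ (le_max_left _ _) h1)
  rw [iteratedFDerivWithin_of_isOpen m ho hx] at key
  refine (show ‖iteratedFDeriv ℝ m (fun z => (f z)⁻¹) z‖ ≤ _ from key).trans ?_
  have h3 : (m.factorial : ℝ) ≤ 6 := by
    have : m.factorial ≤ Nat.factorial 3 := Nat.factorial_le hm
    have h6 : Nat.factorial 3 = 6 := rfl
    rw [h6] at this
    exact_mod_cast this
  have h4 : (max 1 G) ^ m ≤ (max 1 G) ^ 3 := pow_le_pow_right₀ (le_max_left _ _) hm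
  have h5 : (0 : ℝ) ≤ (max 1 c⁻¹) ^ 4 := by positivity
  have h6 : (0 : ℝ) ≤ (max 1 G) ^ m := by positivity
  gcongr

lemma Amp_nonneg {r : ℕ} {A : ℝ} {a : ℝ × ℝ → ℂ} (h : Amp r A a) : 0 ≤ A :=
  le_trans (norm_nonneg _) (h.bound 0 (Nat.zero_le _) (0, 0))

lemma eventually_zero {a : ℝ × ℝ → ℂ} (hs : ∀ z : ℝ × ℝ, a z ≠ 0 →
    (1 / 2 ≤ z.1 ∧ z.1 ≤ 2) ∧ (1 / 2 ≤ z.2 ∧ z.2 ≤ 2)) {z : ℝ × ℝ} (hz : z ∉ Qb) :
    a =ᶠ[𝓝 z] fun _ => 0 := by
  have : Qbᶜ ∈ 𝓝 z := isClosed_Qb.isOpen_compl.mem_nhds hz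
  filter_upwards [this] with w hw
  by_contra h
  exact hw (hs w h)

lemma zero_fd {f : ℝ × ℝ → ℂ} {z : ℝ × ℝ} (h : f =ᶠ[𝓝 z] fun _ => 0) (m : ℕ) :
    ‖iteratedFDeriv ℝ m f z‖ = 0 := by
  have h1 := (h.iteratedFDeriv ℝ m).eq_of_nhds
  rw [h1]
  have : iteratedFDeriv ℝ m (fun _ : ℝ × ℝ => (0 : ℂ)) = 0 := iteratedFDeriv_fun_zero
  rw [this]; simp

lemma Amp_mul (r : ℕ) (A G : ℝ) (a : ℝ × ℝ → ℂ) (g : ℝ × ℝ → ℝ) (hr : r ≤ 3) (ha : Amp r A a)
    (hg : BD G g) : Amp r (8 * A * G) (fun z => a z * (g z : ℂ)) := by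
  have hform : (fun z => a z * (g z : ℂ)) = fun z => g z • a z := by
    ext1 z; rw [Complex.real_smul, mul_comm]
  have hout : ∀ z ∉ Qb, (fun z => a z * (g z : ℂ)) =ᶠ[𝓝 z] fun _ => 0 := by
    intro z hz
    filter_upwards [eventually_zero ha.supp hz] with w hw
    rw [hw]; simp
  have hA := Amp_nonneg ha
  have hG := BD_nonneg hg
  refine ⟨?_, ?_, ?_⟩
  · rw [contDiff_iff_contDiffAt]
    intro z
    by_cases hz : z ∈ Qb
    · rw [hform]
      exact (hg z hz).1.smul ha.smooth.contDiffAt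
    · exact (contDiffAt_const (c := (0 : ℂ))).congr_of_eventuallyEq (hout z hz)
  · intro z hz
    apply ha.supp z
    intro h0
    apply hz
    show a z * (g z : ℂ) = 0
    rw [h0]; simp
  · intro m hm z
    by_cases hz : z ∈ Qb
    · rw [hform]
      have := smul_bound (x := z) (F := G) (G := A) hG hA (hm.trans hr) (hg z hz).1
        ha.smooth.contDiffAt (fun i hi => (hg z hz).2 i ((hi.trans hm).trans hr))
        (fun i hi => ha.bound i (hi.trans hm) z)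
      calc _ ≤ 8 * G * A := this
        _ = 8 * A * G := by ring
    · rw [zero_fd (hout z hz) m]
      positivity

lemma Amp_fderiv (r : ℕ) (A : ℝ) (a : ℝ × ℝ → ℂ) (ha : Amp (r + 1) A a) (v : ℝ × ℝ)
    (hv : ‖v‖ ≤ 1) : Amp r A (fun z => fderiv ℝ a z v) := by
  have hsm : ContDiff ℝ (⊤ : ℕ∞) (fderiv ℝ a) := ha.smooth.fderiv_right (m := (⊤ : ℕ∞)) (by simp)
  refine ⟨hsm.clm_apply contDiff_const, ?_, ?_⟩
  · intro z hz
    by_contra hq
    have h0 := eventually_zero ha.supp (z := z) hq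
    apply hz
    have h1 : fderiv ℝ a z = fderiv ℝ (fun _ => (0 : ℂ)) z := h0.fderiv_eq
    show fderiv ℝ a z v = 0
    rw [h1]; simp
  · intro m hm z
    have h1 : ContDiffAt ℝ m (fderiv ℝ a) z := hsm.contDiffAt.of_le (by exact_mod_cast le_top)
    refine (norm_iteratedFDeriv_clm_apply_const h1 le_rfl).trans ?_
    rw [norm_iteratedFDeriv_fderiv]
    have h2 := ha.bound (m + 1) (by omega) z
    have h3 := norm_nonneg (iteratedFDeriv ℝ (m + 1) a z)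
    calc ‖v‖ * ‖iteratedFDeriv ℝ (m + 1) a z‖ ≤ 1 * A := by gcongr
      _ = A := one_mul _

lemma Amp_add (r : ℕ) (A A' : ℝ) (a a' : ℝ × ℝ → ℂ) (ha : Amp r A a) (ha' : Amp r A' a') :
    Amp r (A + A') (fun z => a z + a' z) := by
  refine ⟨ha.smooth.add ha'.smooth, ?_, ?_⟩
  · intro z hz
    by_cases h : a z = 0
    · apply ha'.supp z
      intro h'
      apply hz
      show a z + a' z = 0
      rw [h, h']; simp
    · exact ha.supp z h
  · intro m hm z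
    have h1 : ContDiffAt ℝ m a z := ha.smooth.contDiffAt.of_le (by exact_mod_cast le_top)
    have h2 : ContDiffAt ℝ m a' z := ha'.smooth.contDiffAt.of_le (by exact_mod_cast le_top)
    have h3 : iteratedFDeriv ℝ m (fun z => a z + a' z) z =
        iteratedFDeriv ℝ m a z + iteratedFDeriv ℝ m a' z := iteratedFDeriv_add_apply h1 h2
    rw [h3]
    exact (norm_add_le _ _).trans (add_le_add (ha.bound m hm z) (ha'.bound m hm z))

end BDAx

theorem t_BDA : S_BD := by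
  refine ⟨BDAx.BD_const, BDAx.BD_fst, BDAx.BD_snd, fun F G f g hf hg => BDAx.BD_add hf hg,
    fun F G f g hf hg => BDAx.BD_mul hf hg, fun G c hc => BDAx.BD_inv G c hc, ?_, ?_, ?_⟩
  · intro r A G a g hr ha hg
    exact BDAx.Amp_mul r A G a g hr ha hg
  · intro r A a ha
    constructor
    · exact BDAx.Amp_fderiv r A a ha _ (by simp [Prod.norm_def])
    · exact BDAx.Amp_fderiv r A a ha _ (by simp [Prod.norm_def])
  · intro r A A' a a' ha ha'
    exact BDAx.Amp_add r A A' a a' ha ha'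

end Pool.Agent.H304R4.CM
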