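import Mathlib
import Pool.Agent.H304R4.CM.Stubs

/-! # TEAM CM, task C0: Kusmin-Landau with bounded variation (helper43). -/

open Complex MeasureTheory Filter Topology

namespace Pool.Agent.H304R4.CM

namespace C0

lemma ee_add (a b : ℝ) : ee (a + b) = ee a * ee b := by
  unfold ee
  rw [← Complex.exp_add]
  congr 1
  push_cast
  ring

lemma norm_ee (a : ℝ) : ‖ee a‖ = 1 := by
  unfold ee
  exact Complex.norm_exp_ofReal_mul_I _

lemma norm_ee_sub_one (a : ℝ) : ‖ee a - 1‖ = 2 * |Real.sin (Real.pi * a)| := by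
  have h := Complex.norm_exp_I_mul_ofReal_sub_one (2 * Real.pi * a)
  unfold ee
  rw [mul_comm, h, Real.norm_eq_abs, abs_mul, abs_two]
  congr 3
  ring

lemma norm_ee_sub_one_ge (a : ℝ) (ha : |a| ≤ 1 / 2) : 4 * |a| ≤ ‖ee a - 1‖ := by
  rw [norm_ee_sub_one]
  have hpi := Real.pi_pos
  have h1 : |Real.pi * a| ≤ Real.pi / 2 := by
    rw [abs_mul, abs_of_pos hpi]
    nlinarith
  have h := Real.mul_abs_le_abs_sin h1
  rw [abs_mul, abs_of_pos hpi] at h
  have h2 : 2 / Real.pi * (Real.pi * |a|) = 2 * |a| := by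
    field_simp
  linarith

lemma norm_ee_sub_one_le (a : ℝ) : ‖ee a - 1‖ ≤ 2 * Real.pi * |a| := by
  rw [norm_ee_sub_one]
  have hpi := Real.pi_pos
  have h : |Real.sin (Real.pi * a)| ≤ |Real.pi * a| := Real.abs_sin_le_abs
  rw [abs_mul, abs_of_pos hpi] at h
  linarith

lemma norm_ee_sub_le (a b : ℝ) : ‖ee a - ee b‖ ≤ 2 * Real.pi * |a - b| := by
  have h : ee a - ee b = ee b * (ee (a - b) - 1) := by
    have h1 : ee a = ee b * ee (a - b) := by
      rw [← ee_add]; congr 1; ring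
    rw [h1]; ring
  rw [h, norm_mul, norm_ee, one_mul]
  exact norm_ee_sub_one_le _

lemma abel (x : ℕ → ℝ) (N : ℕ) (hN : ∀ n < N + 1, ee (x (n + 1) - x n) - 1 ≠ 0) :
    ∑ n ∈ Finset.range (N + 1), ee (x n) =
      (ee (x (N + 1) - x N) - 1)⁻¹ * ee (x (N + 1)) - (ee (x 1 - x 0) - 1)⁻¹ * ee (x 0) -
      ∑ n ∈ Finset.range N, ((ee (x (n + 2) - x (n + 1)) - 1)⁻¹ -
        (ee (x (n + 1) - x n) - 1)⁻¹) * ee (x (n + 1)) := by
  have key : ∀ n < N + 1, ee (x n) = (ee (x (n + 1) - x n) - 1)⁻¹ * (ee (x (n + 1)) - ee (x n)) := by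
    intro n hn
    have h0 := hN n hn
    have h1 : ee (x (n + 1)) = ee (x (n + 1) - x n) * ee (x n) := by
      rw [← ee_add]; congr 1; ring
    rw [h1]
    have h2 : ee (x (n + 1) - x n) * ee (x n) - ee (x n) = (ee (x (n + 1) - x n) - 1) * ee (x n) := by
      ring
    rw [h2, inv_mul_cancel_left₀ h0]
  induction N with
  | zero =>
    simp only [zero_add, Finset.range_one, Finset.sum_singleton, Finset.range_zero,
      Finset.sum_empty, sub_zero]
    have := key 0 (by norm_num)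
    simp only [zero_add] at this
    rw [mul_sub] at this
    exact this
  | succ N ih =>
    rw [Finset.sum_range_succ, ih (fun n hn => hN n (by omega)) (fun n hn => key n (by omega)),
      Finset.sum_range_succ]
    have h2 := key (N + 1) (by omega)
    have h3 : ee (x (N + 1)) = (ee (x (N + 1 + 1) - x (N + 1)) - 1)⁻¹ *
        (ee (x (N + 1 + 1)) - ee (x (N + 1))) := h2
    have h4 : (N + 2) = N + 1 + 1 := rfl
    rw [h4]
    linear_combination h3

end C0

open C0 in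
theorem t_C0 : S_C0 := by
  intro N x θ V hθ hx hV
  have hV0 : 0 ≤ V := le_trans (Finset.sum_nonneg fun _ _ => abs_nonneg _) hV
  rcases Nat.eq_zero_or_pos N with rfl | hNpos
  · simp only [zero_add, Finset.range_one, Finset.sum_singleton, norm_ee]
    have : 0 ≤ 1 / θ + V / θ ^ 2 := by positivity
    linarith
  obtain ⟨M, rfl⟩ : ∃ M, N = M + 1 := ⟨N - 1, by omega⟩
  have hlow : ∀ n < M + 1, 4 * θ ≤ ‖ee (x (n + 1) - x n) - 1‖ := fun n hn =>
    le_trans (by linarith [(hx n hn).1]) (norm_ee_sub_one_ge _ (hx n hn).2)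
  have hne : ∀ n < M + 1, ee (x (n + 1) - x n) - 1 ≠ 0 := fun n hn h => by
    have := hlow n hn
    rw [h, norm_zero] at this
    linarith
  have hinv : ∀ n < M + 1, ‖(ee (x (n + 1) - x n) - 1)⁻¹‖ ≤ 1 / (4 * θ) := fun n hn => by
    rw [norm_inv, ← one_div]
    exact one_div_le_one_div_of_le (by positivity) (hlow n hn)
  have hdiff : ∀ n < M, ‖(ee (x (n + 2) - x (n + 1)) - 1)⁻¹ - (ee (x (n + 1) - x n) - 1)⁻¹‖ ≤
      |(x (n + 2) - x (n + 1)) - (x (n + 1) - x n)| / θ ^ 2 := by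
    intro n hn
    have h1 := hne n (by omega)
    have h2 : ee (x (n + 2) - x (n + 1)) - 1 ≠ 0 := hne (n + 1) (by omega)
    rw [inv_sub_inv h2 h1, norm_div, norm_mul]
    have h3 : ‖ee (x (n + 1) - x n) - 1 - (ee (x (n + 2) - x (n + 1)) - 1)‖ ≤
        2 * Real.pi * |(x (n + 2) - x (n + 1)) - (x (n + 1) - x n)| := by
      have := norm_ee_sub_le (x (n + 1) - x n) (x (n + 2) - x (n + 1))
      rw [abs_sub_comm] at this
      convert this using 2
      ring
    have h4 : 4 * θ ≤ ‖ee (x (n + 2) - x (n + 1)) - 1‖ := hlow (n + 1) (by omega)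
    have h5 := hlow n (by omega)
    have h6 : 16 * θ ^ 2 ≤ ‖ee (x (n + 2) - x (n + 1)) - 1‖ * ‖ee (x (n + 1) - x n) - 1‖ := by
      nlinarith
    rw [div_le_div_iff₀ (by nlinarith [sq_nonneg θ, pow_pos hθ 2]) (pow_pos hθ 2)]
    have hpi : Real.pi ≤ 4 := Real.pi_le_four
    have h7 : 0 ≤ |(x (n + 2) - x (n + 1)) - (x (n + 1) - x n)| := abs_nonneg _
    calc _ ≤ 2 * Real.pi * |(x (n + 2) - x (n + 1)) - (x (n + 1) - x n)| * θ ^ 2 := by
          gcongr
      _ ≤ |(x (n + 2) - x (n + 1)) - (x (n + 1) - x n)| * (16 * θ ^ 2) := by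
          nlinarith [mul_nonneg h7 (sq_nonneg θ)]
      _ ≤ _ := by gcongr
  rw [Finset.sum_range_succ, abel x M hne]
  have hb1 : ‖(ee (x (M + 1) - x M) - 1)⁻¹ * ee (x (M + 1))‖ ≤ 1 / (4 * θ) := by
    rw [norm_mul, norm_ee, mul_one]; exact hinv M (by omega)
  have hb2 : ‖(ee (x 1 - x 0) - 1)⁻¹ * ee (x 0)‖ ≤ 1 / (4 * θ) := by
    rw [norm_mul, norm_ee, mul_one]; exact hinv 0 (by omega)
  have hb3 : ‖∑ n ∈ Finset.range M, ((ee (x (n + 2) - x (n + 1)) - 1)⁻¹ -
        (ee (x (n + 1) - x n) - 1)⁻¹) * ee (x (n + 1))‖ ≤ V / θ ^ 2 := by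
    refine le_trans (norm_sum_le _ _) ?_
    have : ∑ n ∈ Finset.range M, ‖((ee (x (n + 2) - x (n + 1)) - 1)⁻¹ -
        (ee (x (n + 1) - x n) - 1)⁻¹) * ee (x (n + 1))‖ ≤
        ∑ n ∈ Finset.range M, |(x (n + 2) - x (n + 1)) - (x (n + 1) - x n)| / θ ^ 2 := by
      refine Finset.sum_le_sum fun n hn => ?_
      rw [norm_mul, norm_ee, mul_one]
      exact hdiff n (Finset.mem_range.1 hn)
    refine le_trans this ?_
    rw [← Finset.sum_div]
    exact div_le_div_of_nonneg_right hV (sq_nonneg θ)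
  have hb4 : ‖ee (x (M + 1))‖ = 1 := norm_ee _
  have hsum : 1 / (4 * θ) + 1 / (4 * θ) ≤ 1 / θ := by
    rw [← two_mul]
    have : 2 * (1 / (4 * θ)) = 1 / (2 * θ) := by field_simp; norm_num
    rw [this]
    exact one_div_le_one_div_of_le hθ (by linarith)
  refine le_trans (norm_add_le _ _) ?_
  refine le_trans (add_le_add_left (norm_sub_le _ _) _) ?_
  have := norm_sub_le ((ee (x (M + 1) - x M) - 1)⁻¹ * ee (x (M + 1)))
    ((ee (x 1 - x 0) - 1)⁻¹ * ee (x 0))
  linarith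

end Pool.Agent.H304R4.CM
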