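import Pool.Agent.H304R4.CM.T_C1a

/-! Task C1: two dimensional exponential sums (Weyl differencing + Kusmin-Landau along lines). -/

open Complex MeasureTheory Filter Topology

namespace Pool.Agent.H304R4.CM

/-! ### numerical facts -/

lemma C1_num {K₀ G Λ V Φ m M W : ℝ} (hK : 1 ≤ K₀) (hG : 1 ≤ G) (hΛ : 1 ≤ Λ)
    (hV1 : Λ / G ≤ V) (hV2 : V ≤ Λ * G) (hΦ1 : Λ / G ≤ Φ) (hΦ2 : Φ ≤ Λ * G) (hm : 1 ≤ m)
    (hM : 1 ≤ M) (hW1 : M / (G * Λ) ≤ W) (hW2 : W ≤ G * M / Λ)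
    (hs : 8 * K₀ * G ^ 3 * m * M ≤ Λ) :
    m * M / (2 * K₀ ^ 2 * G ^ 3 * Λ) ≤ 2 * (m * Φ) * (W / (4 * K₀ ^ 2 * V)) ∧
    2 * (m * Φ) * (2 * K₀ * W / V) ≤ 1 / 2 ∧
    2 * (m * Φ) * (2 * K₀ * W / V ^ 2) ≤ 4 * K₀ * m * G ^ 4 * M / Λ ^ 2 := by
  have hG0 : 0 < G := by linarith
  have hΛ0 : 0 < Λ := by linarith
  have hLG : 0 < Λ / G := by positivity
  have hV0 : 0 < V := by linarith
  have hΦ0 : 0 < Φ := by linarith
  have hK0 : 0 < K₀ := by linarith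
  have hm0 : 0 < m := by linarith
  have hM0 : 0 < M := by linarith
  have hW0 : 0 < W := lt_of_lt_of_le (by positivity) hW1
  have i1 : 1 / (Λ * G) ≤ 1 / V := one_div_le_one_div_of_le hV0 hV2
  have i2 : 1 / V ≤ G / Λ := by
    have : 1 / V ≤ 1 / (Λ / G) := one_div_le_one_div_of_le hLG hV1
    rwa [one_div_div] at this
  have l1 : M / (G ^ 3 * Λ) ≤ Φ * W * (1 / V) := by
    calc M / (G ^ 3 * Λ) = (Λ / G) * (M / (G * Λ)) * (1 / (Λ * G)) := by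
          field_simp
      _ ≤ Φ * W * (1 / V) := by gcongr
  have u1 : Φ * W * (1 / V) ≤ G ^ 3 * M / Λ := by
    calc Φ * W * (1 / V) ≤ (Λ * G) * (G * M / Λ) * (G / Λ) := by gcongr
      _ = G ^ 3 * M / Λ := by field_simp
  have u2 : Φ * W * (1 / V) ^ 2 ≤ G ^ 4 * M / Λ ^ 2 := by
    calc Φ * W * (1 / V) ^ 2 ≤ (Λ * G) * (G * M / Λ) * (G / Λ) ^ 2 := by gcongr
      _ = G ^ 4 * M / Λ ^ 2 := by field_simp
  refine ⟨?_, ?_, ?_⟩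
  · calc m * M / (2 * K₀ ^ 2 * G ^ 3 * Λ) = m / (2 * K₀ ^ 2) * (M / (G ^ 3 * Λ)) := by
          field_simp
      _ ≤ m / (2 * K₀ ^ 2) * (Φ * W * (1 / V)) := by gcongr
      _ = 2 * (m * Φ) * (W / (4 * K₀ ^ 2 * V)) := by field_simp; ring
  · calc 2 * (m * Φ) * (2 * K₀ * W / V) = 4 * K₀ * m * (Φ * W * (1 / V)) := by
          field_simp; ring
      _ ≤ 4 * K₀ * m * (G ^ 3 * M / Λ) := by gcongr
      _ = (8 * K₀ * G ^ 3 * m * M) / Λ / 2 := by field_simp; ring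
      _ ≤ Λ / Λ / 2 := by gcongr
      _ = 1 / 2 := by rw [div_self hΛ0.ne']
  · calc 2 * (m * Φ) * (2 * K₀ * W / V ^ 2) = 4 * K₀ * m * (Φ * W * (1 / V) ^ 2) := by
          field_simp; ring
      _ ≤ 4 * K₀ * m * (G ^ 4 * M / Λ ^ 2) := by gcongr
      _ = 4 * K₀ * m * G ^ 4 * M / Λ ^ 2 := by field_simp

lemma C1_num2 {K₀ G Λ m M : ℝ} (hK : 1 ≤ K₀) (hG : 1 ≤ G) (hΛ : 1 ≤ Λ) (hm : 1 ≤ m)
    (hM : 1 ≤ M) (hs : 8 * K₀ * G ^ 3 * m * M ≤ Λ) :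
    1 / (m * M / (2 * K₀ ^ 2 * G ^ 3 * Λ)) + (G * Λ) * (4 * K₀ * m * G ^ 4 * M / Λ ^ 2) /
      (m * M / (2 * K₀ ^ 2 * G ^ 3 * Λ)) ^ 2 + 1 ≤ 19 * K₀ ^ 5 * G ^ 11 * Λ / (m * M) := by
  have hG0 : 0 < G := by linarith
  have hΛ0 : 0 < Λ := by linarith
  have hK0 : 0 < K₀ := by linarith
  have hm0 : 0 < m := by linarith
  have hM0 : 0 < M := by linarith
  have e1 : 1 / (m * M / (2 * K₀ ^ 2 * G ^ 3 * Λ)) = 2 * K₀ ^ 2 * G ^ 3 * (Λ / (m * M)) := by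
    field_simp
  have e2 : (G * Λ) * (4 * K₀ * m * G ^ 4 * M / Λ ^ 2) /
      (m * M / (2 * K₀ ^ 2 * G ^ 3 * Λ)) ^ 2 = 16 * K₀ ^ 5 * G ^ 11 * (Λ / (m * M)) := by
    field_simp
    ring
  have e3 : 1 ≤ Λ / (m * M) := by
    rw [le_div_iff₀ (by positivity)]
    have : 1 * (m * M) ≤ (8 * K₀ * G ^ 3) * (m * M) := by
      apply mul_le_mul_of_nonneg_right _ (by positivity)
      have h1 : (1 : ℝ) ≤ G ^ 3 := one_le_pow₀ hG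
      nlinarith
    nlinarith
  have g1 : (1 : ℝ) ≤ G ^ 8 := one_le_pow₀ hG
  have g2 : (1 : ℝ) ≤ K₀ ^ 3 := one_le_pow₀ hK
  have g3 : (1 : ℝ) ≤ K₀ ^ 5 := one_le_pow₀ hK
  have g4 : (1 : ℝ) ≤ G ^ 11 := one_le_pow₀ hG
  rw [e1, e2]
  have t1 : 2 * K₀ ^ 2 * G ^ 3 * (Λ / (m * M)) ≤ 2 * K₀ ^ 5 * G ^ 11 * (Λ / (m * M)) := by
    apply mul_le_mul_of_nonneg_right _ (by positivity)
    calc 2 * K₀ ^ 2 * G ^ 3 = 2 * (K₀ ^ 2 * 1) * (G ^ 3 * 1) := by ring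
      _ ≤ 2 * (K₀ ^ 2 * K₀ ^ 3) * (G ^ 3 * G ^ 8) := by gcongr
      _ = 2 * K₀ ^ 5 * G ^ 11 := by ring
  have t2 : 1 ≤ K₀ ^ 5 * G ^ 11 * (Λ / (m * M)) := by
    calc (1 : ℝ) = 1 * 1 * 1 := by norm_num
      _ ≤ K₀ ^ 5 * G ^ 11 * (Λ / (m * M)) := by gcongr
  calc _ ≤ 2 * K₀ ^ 5 * G ^ 11 * (Λ / (m * M)) + 16 * K₀ ^ 5 * G ^ 11 * (Λ / (m * M)) +
        K₀ ^ 5 * G ^ 11 * (Λ / (m * M)) := by gcongr
    _ = 19 * K₀ ^ 5 * G ^ 11 * Λ / (m * M) := by ring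

/-! ### lines -/

lemma C1_lines (R : Finset (ℤ × ℤ)) (f : ℤ × ℤ → ℂ) (π ρ : ℤ × ℤ → ℤ) (ι : ℤ → ℤ → ℤ × ℤ)
    (hι : ∀ ν, ι (π ν) (ρ ν) = ν) (hπ : ∀ c k, π (ι c k) = c) (hρ : ∀ c k, ρ (ι c k) = k)
    (B L : ℝ) (hB : 0 ≤ B) (hL : ((R.image π).card : ℝ) ≤ L)
    (h : ∀ c : ℤ, ∀ I : Finset ℤ, (∀ k, k ∈ I ↔ ι c k ∈ R) → ‖∑ k ∈ I, f (ι c k)‖ ≤ B) :
    ‖∑ ν ∈ R, f ν‖ ≤ L * B := by
  classical
  have h1 : ∑ ν ∈ R, f ν = ∑ c ∈ R.image π, ∑ ν ∈ R.filter (fun ν => π ν = c), f ν :=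
    (Finset.sum_fiberwise_of_maps_to (fun ν hν => Finset.mem_image_of_mem π hν) f).symm
  have h2 : ∀ c ∈ R.image π, ‖∑ ν ∈ R.filter (fun ν => π ν = c), f ν‖ ≤ B := by
    intro c _
    have h3 : ∑ ν ∈ R.filter (fun ν => π ν = c), f ν =
        ∑ k ∈ (R.filter (fun ν => π ν = c)).image ρ, f (ι c k) := by
      rw [Finset.sum_image]
      · refine Finset.sum_congr rfl fun ν hν => ?_
        rw [← (Finset.mem_filter.mp hν).2, hι]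
      · intro ν hν ν' hν' he
        have h4 := (Finset.mem_filter.mp hν).2
        have h5 := (Finset.mem_filter.mp hν').2
        rw [← hι ν, ← hι ν', h4, h5, he]
    rw [h3]
    refine h c _ fun k => ?_
    rw [Finset.mem_image]
    constructor
    · rintro ⟨ν, hν, rfl⟩
      obtain ⟨h4, h5⟩ := Finset.mem_filter.mp hν
      rw [← h5, hι]
      exact h4
    · intro hk
      exact ⟨ι c k, Finset.mem_filter.mpr ⟨hk, hπ c k⟩, hρ c k⟩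
  rw [h1]
  calc ‖∑ c ∈ R.image π, ∑ ν ∈ R.filter (fun ν => π ν = c), f ν‖
      ≤ ∑ c ∈ R.image π, ‖∑ ν ∈ R.filter (fun ν => π ν = c), f ν‖ := norm_sum_le _ _
    _ ≤ ∑ _c ∈ R.image π, B := Finset.sum_le_sum h2
    _ = ((R.image π).card : ℝ) * B := by rw [Finset.sum_const, nsmul_eq_mul]
    _ ≤ L * B := mul_le_mul_of_nonneg_right hL hB

/-- points of a convex set on a line -/
lemma C1_convex {E : Set (ℝ × ℝ)} (hE : Convex ℝ E) {P Q : ℝ × ℝ} (hP : P ∈ E) (hQ : Q ∈ E)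
    (a b k : ℝ) (h1 : a ≤ k) (h2 : k ≤ b) (N : ℝ × ℝ)
    (hN1 : (b - a) * N.1 = (b - k) * P.1 + (k - a) * Q.1)
    (hN2 : (b - a) * N.2 = (b - k) * P.2 + (k - a) * Q.2) (hab : a = b → N = P) : N ∈ E := by
  rcases eq_or_lt_of_le (h1.trans h2) with h | h
  · rw [hab h]; exact hP
  · have h3 : 0 < b - a := by linarith
    have h4 := hE hP hQ (a := (b - k) / (b - a)) (b := (k - a) / (b - a))
      (div_nonneg (by linarith) h3.le) (div_nonneg (by linarith) h3.le) (by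
        field_simp; ring)
    have h5 : N = ((b - k) / (b - a)) • P + ((k - a) / (b - a)) • Q := by
      apply Prod.ext
      · simp only [Prod.fst_add, Prod.smul_fst, smul_eq_mul]
        field_simp
        linarith
      · simp only [Prod.snd_add, Prod.smul_snd, smul_eq_mul]
        field_simp
        linarith
    rw [h5]
    exact h4

/-! ### one direction -/

/-- regularity on the cell -/
def C1_Rg (K₀ δ' : ℝ) (p : ℝ × ℝ) (F g₁ g₂ a₁ a₂ a₃ : ℝ × ℝ → ℝ) : Prop :=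
  ∀ n : ℝ × ℝ, C1_cell p δ' n → C1_Dt F g₁ g₂ a₁ a₂ a₃ n ∧
    |a₁ n| ≤ K₀ ∧ |a₂ n| ≤ K₀ ∧ |a₃ n| ≤ K₀ ∧ 1 / K₀ ≤ |a₁ n * a₃ n - a₂ n ^ 2| ∧
    ∀ n' : ℝ × ℝ, C1_cell p δ' n' →
      |a₁ n - a₁ n'| ≤ K₀ * (|n.1 - n'.1| + |n.2 - n'.2|) ∧
      |a₂ n - a₂ n'| ≤ K₀ * (|n.1 - n'.1| + |n.2 - n'.2|) ∧
      |a₃ n - a₃ n'| ≤ K₀ * (|n.1 - n'.1| + |n.2 - n'.2|)

lemma C1_row {K₀ δ' W w1 w2 : ℝ} {p : ℝ × ℝ} {b₁ b₂ : ℝ × ℝ → ℝ} (hK : 1 ≤ K₀) (hδ0 : 0 < δ')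
    (hδ2 : δ' * (16 * K₀ ^ 3) ≤ 1) (hW0 : 0 ≤ W) (hw1 : |w1| ≤ W) (hw2 : |w2| ≤ W)
    (h1 : ∀ n, C1_cell p δ' n → |b₁ n| ≤ K₀ ∧ |b₂ n| ≤ K₀)
    (h2 : ∀ n n', C1_cell p δ' n → C1_cell p δ' n' →
      |b₁ n - b₁ n'| ≤ K₀ * (|n.1 - n'.1| + |n.2 - n'.2|) ∧
      |b₂ n - b₂ n'| ≤ K₀ * (|n.1 - n'.1| + |n.2 - n'.2|))
    (hp : W ≤ 2 * K₀ ^ 2 * |b₁ p * w1 + b₂ p * w2|) :
    (∀ n, C1_cell p δ' n → W / (4 * K₀ ^ 2) ≤ |b₁ n * w1 + b₂ n * w2| ∧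
      |b₁ n * w1 + b₂ n * w2| ≤ 2 * K₀ * W) ∧
    (∀ n n', C1_cell p δ' n → C1_cell p δ' n' →
      |(b₁ n' * w1 + b₂ n' * w2) - (b₁ n * w1 + b₂ n * w2)| ≤
        2 * K₀ * W * (|n'.1 - n.1| + |n'.2 - n.2|)) := by
  have hK0 : 0 < K₀ := by linarith
  have hvar : ∀ n n', C1_cell p δ' n → C1_cell p δ' n' →
      |(b₁ n' * w1 + b₂ n' * w2) - (b₁ n * w1 + b₂ n * w2)| ≤
        2 * K₀ * W * (|n'.1 - n.1| + |n'.2 - n.2|) := by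
    intro n n' hn hn'
    obtain ⟨l1, l2⟩ := h2 n' n hn' hn
    have e1 : (b₁ n' * w1 + b₂ n' * w2) - (b₁ n * w1 + b₂ n * w2) =
        (b₁ n' - b₁ n) * w1 + (b₂ n' - b₂ n) * w2 := by ring
    rw [e1]
    have hs0 : 0 ≤ |n'.1 - n.1| + |n'.2 - n.2| := by positivity
    calc |(b₁ n' - b₁ n) * w1 + (b₂ n' - b₂ n) * w2|
        ≤ |(b₁ n' - b₁ n) * w1| + |(b₂ n' - b₂ n) * w2| := abs_add_le _ _
      _ = |b₁ n' - b₁ n| * |w1| + |b₂ n' - b₂ n| * |w2| := by rw [abs_mul, abs_mul]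
      _ ≤ (K₀ * (|n'.1 - n.1| + |n'.2 - n.2|)) * W + (K₀ * (|n'.1 - n.1| + |n'.2 - n.2|)) * W := by
          gcongr
      _ = _ := by ring
  refine ⟨?_, hvar⟩
  intro n hn
  have hpc : C1_cell p δ' p := ⟨by simp [hδ0.le], by simp [hδ0.le]⟩
  have hv := hvar n p hn hpc
  constructor
  · have hd : |p.1 - n.1| + |p.2 - n.2| ≤ 2 * δ' := by
      have c1 := hn.1
      have c2 := hn.2
      rw [abs_sub_comm] at c1 c2
      linarith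
    have h3 : |(b₁ p * w1 + b₂ p * w2) - (b₁ n * w1 + b₂ n * w2)| ≤ 2 * K₀ * W * (2 * δ') :=
      hv.trans (mul_le_mul_of_nonneg_left hd (by positivity))
    have h4 : |b₁ p * w1 + b₂ p * w2| ≤ |b₁ n * w1 + b₂ n * w2| + 2 * K₀ * W * (2 * δ') := by
      have := abs_sub_abs_le_abs_sub (b₁ p * w1 + b₂ p * w2) (b₁ n * w1 + b₂ n * w2)
      linarith
    rw [div_le_iff₀ (by positivity)]
    have h5 : 2 * K₀ ^ 2 * (2 * K₀ * W * (2 * δ')) ≤ W / 2 := by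
      calc 2 * K₀ ^ 2 * (2 * K₀ * W * (2 * δ')) = W / 2 * (δ' * (16 * K₀ ^ 3)) := by ring
        _ ≤ W / 2 * 1 := mul_le_mul_of_nonneg_left hδ2 (by positivity)
        _ = W / 2 := mul_one _
    have h6 : W ≤ 2 * K₀ ^ 2 * |b₁ n * w1 + b₂ n * w2| + W / 2 := by
      calc W ≤ 2 * K₀ ^ 2 * |b₁ p * w1 + b₂ p * w2| := hp
        _ ≤ 2 * K₀ ^ 2 * (|b₁ n * w1 + b₂ n * w2| + 2 * K₀ * W * (2 * δ')) :=
            mul_le_mul_of_nonneg_left h4 (by positivity)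
        _ ≤ _ := by rw [mul_add]; linarith
    linarith
  · obtain ⟨l1, l2⟩ := h1 n hn
    calc |b₁ n * w1 + b₂ n * w2| ≤ |b₁ n * w1| + |b₂ n * w2| := abs_add_le _ _
      _ = |b₁ n| * |w1| + |b₂ n| * |w2| := by rw [abs_mul, abs_mul]
      _ ≤ K₀ * W + K₀ * W := by gcongr
      _ = _ := by ring

/-- the function summed -/
noncomputable def C1_f (F : ℝ × ℝ → ℝ) (c V₁ V₂ d₁ d₂ : ℝ) (e ν : ℤ × ℤ) : ℂ :=
  ee (c * (F (((ν.1 : ℝ) + e.1) / V₁ + d₁, ((ν.2 : ℝ) + e.2) / V₂ + d₂) -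
    F (((ν.1 : ℝ) - e.1) / V₁ + d₁, ((ν.2 : ℝ) - e.2) / V₂ + d₂)))

section dir
variable {K₀ δ' : ℝ} {p : ℝ × ℝ} {F g₁ g₂ a₁ a₂ a₃ : ℝ × ℝ → ℝ}
  {Λ G V₁ V₂ Φ d₁ d₂ m M W : ℝ} {E : Set (ℝ × ℝ)} {e : ℤ × ℤ} {Re : Finset (ℤ × ℤ)}

lemma C1_len {δ' V P d x y r : ℝ} (hV : 0 < V) (hδ1 : δ' ≤ 1 / 2) (h1 : |(x + r) / V + d - P| ≤ δ')
    (h2 : |(y + r) / V + d - P| ≤ δ') : y - x ≤ V := by
  rw [abs_le] at h1 h2
  have h3 : (y + r) / V - (x + r) / V ≤ 1 := by linarith [h1.1, h2.2]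
  rw [← sub_div, div_le_one hV] at h3
  linarith

lemma C1_dir1 (hC0 : S_C0) (hK : 1 ≤ K₀) (hδ0 : 0 < δ') (hδ1 : δ' ≤ 1 / 2)
    (hδ2 : δ' * (16 * K₀ ^ 3) ≤ 1) (hR : C1_Rg K₀ δ' p F g₁ g₂ a₁ a₂ a₃)
    (hG : 1 ≤ G) (hΛ : 1 ≤ Λ) (hV₁ : Λ / G ≤ V₁ ∧ V₁ ≤ Λ * G) (hV₂ : Λ / G ≤ V₂ ∧ V₂ ≤ Λ * G)
    (hΦ : Λ / G ≤ Φ ∧ Φ ≤ Λ * G) (hE : Convex ℝ E)
    (hcell : ∀ t ∈ E, |t.1 / V₁ + d₁ - p.1| ≤ δ' ∧ |t.2 / V₂ + d₂ - p.2| ≤ δ')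
    (hm : 1 ≤ m) (hM : 1 ≤ M) (hs : 8 * K₀ * G ^ 3 * m * M ≤ Λ)
    (hw1 : |(e.1 : ℝ) / V₁| ≤ W) (hw2 : |(e.2 : ℝ) / V₂| ≤ W)
    (hW1 : M / (G * Λ) ≤ W) (hW2 : W ≤ G * M / Λ)
    (hRe : ∀ ν : ℤ × ℤ, ν ∈ Re ↔ (((ν.1 : ℝ) + e.1, (ν.2 : ℝ) + e.2) : ℝ × ℝ) ∈ E ∧
      (((ν.1 : ℝ) - e.1, (ν.2 : ℝ) - e.2) : ℝ × ℝ) ∈ E)
    (hrow : W ≤ 2 * K₀ ^ 2 * |a₁ p * ((e.1 : ℝ) / V₁) + a₂ p * ((e.2 : ℝ) / V₂)|) :
    ‖∑ ν ∈ Re, C1_f F (m * Φ) V₁ V₂ d₁ d₂ e ν‖ ≤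
      (2 * G * Λ) * (19 * K₀ ^ 5 * G ^ 11 * Λ / (m * M)) := by
  have hG0 : 0 < G := by linarith
  have hΛ0 : 0 < Λ := by linarith
  have hK0 : 0 < K₀ := by linarith
  have hLG : 0 < Λ / G := by positivity
  have hV₁0 : 0 < V₁ := by linarith [hV₁.1]
  have hV₂0 : 0 < V₂ := by linarith [hV₂.1]
  have hΦ0 : 0 < Φ := by linarith [hΦ.1]
  have hm0 : 0 < m := by linarith
  have hM0 : 0 < M := by linarith
  have hW0 : 0 < W := lt_of_lt_of_le (by positivity) hW1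
  have hGΛ : 1 ≤ G * Λ := one_le_mul_of_one_le_of_one_le hG hΛ
  obtain ⟨n1, n2, n3⟩ := C1_num hK hG hΛ hV₁.1 hV₁.2 hΦ.1 hΦ.2 hm hM hW1 hW2 hs
  have n4 := C1_num2 hK hG hΛ hm hM hs
  obtain ⟨r1, r2⟩ := C1_row (b₁ := a₁) (b₂ := a₂) hK hδ0 hδ2 hW0.le hw1 hw2
    (fun n hn => ⟨(hR n hn).2.1, (hR n hn).2.2.1⟩)
    (fun n n' hn hn' => ⟨((hR n hn).2.2.2.2.2 n' hn').1, ((hR n hn).2.2.2.2.2 n' hn').2.1⟩) hrow
  refine C1_lines Re _ Prod.snd Prod.fst (fun c k => (k, c)) (fun ν => rfl) (fun c k => rfl)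
    (fun c k => rfl) _ _ (by positivity) ?_ ?_
  · refine (C1_card_int _ (G * Λ) (by positivity) ?_).trans (by linarith)
    intro x hx y hy
    obtain ⟨x', hx', rfl⟩ := Finset.mem_image.mp hx
    obtain ⟨y', hy', rfl⟩ := Finset.mem_image.mp hy
    have cx := (hcell _ ((hRe x').mp hx').1).2
    have cy := (hcell _ ((hRe y').mp hy').1).2
    simp only at cx cy
    rw [abs_le]
    constructor
    · linarith [C1_len hV₂0 hδ1 cx cy, hV₂.2]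
    · linarith [C1_len hV₂0 hδ1 cy cx, hV₂.2]
  · intro c I hI
    have hIE : ∀ k, k ∈ I ↔ (((k : ℝ) + e.1, (c : ℝ) + e.2) : ℝ × ℝ) ∈ E ∧
      (((k : ℝ) - e.1, (c : ℝ) - e.2) : ℝ × ℝ) ∈ E := fun k => (hI k).trans (hRe (k, c))
    have hpt1 : ∀ k : ℝ, C1_pt (d₁, (c : ℝ) / V₂ + d₂) (1 / V₁, 0) ((e.1 : ℝ) / V₁, (e.2 : ℝ) / V₂) k 1 =
        ((k + e.1) / V₁ + d₁, ((c : ℝ) + e.2) / V₂ + d₂) := by
      intro k
      apply Prod.ext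
      · simp only [C1_pt]; ring
      · simp only [C1_pt]; ring
    have hpt2 : ∀ k : ℝ, C1_pt (d₁, (c : ℝ) / V₂ + d₂) (1 / V₁, 0) ((e.1 : ℝ) / V₁, (e.2 : ℝ) / V₂) k
        (-1) = ((k - e.1) / V₁ + d₁, ((c : ℝ) - e.2) / V₂ + d₂) := by
      intro k
      apply Prod.ext
      · simp only [C1_pt]; ring
      · simp only [C1_pt]; ring
    have hf : ∀ k : ℤ, C1_f F (m * Φ) V₁ V₂ d₁ d₂ e (k, c) = ee (m * Φ * C1_X F
        (d₁, (c : ℝ) / V₂ + d₂) (1 / V₁, 0) ((e.1 : ℝ) / V₁, (e.2 : ℝ) / V₂) k) := by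
      intro k
      unfold C1_f C1_X
      rw [hpt1, hpt2]
    simp only [hf]
    refine (C1_fibre hC0 (fun n hn => (hR n hn).1) (d₁, (c : ℝ) / V₂ + d₂) (1 / V₁, 0)
      ((e.1 : ℝ) / V₁, (e.2 : ℝ) / V₂) (m * Φ) (W / (4 * K₀ ^ 2 * V₁)) (2 * K₀ * W / V₁)
      (2 * K₀ * W / V₁ ^ 2) (m * M / (2 * K₀ ^ 2 * G ^ 3 * Λ)) (4 * K₀ * m * G ^ 4 * M / Λ ^ 2)
      (G * Λ) (by positivity) (by positivity) (by positivity) (by positivity) I ?_ ?_ ?_ ?_ ?_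
      n1 n2 n3).trans n4
    · intro a ha b hb k hak hkb
      rw [hIE] at ha hb ⊢
      have hak' : (a : ℝ) ≤ k := by exact_mod_cast hak
      have hkb' : (k : ℝ) ≤ b := by exact_mod_cast hkb
      constructor
      · refine C1_convex hE ha.1 hb.1 a b k hak' hkb' _ (by simp only; ring) (by simp only; ring)
          (fun hab => ?_)
        have : (k : ℝ) = a := by linarith
        rw [this]
      · refine C1_convex hE ha.2 hb.2 a b k hak' hkb' _ (by simp only; ring) (by simp only; ring)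
          (fun hab => ?_)
        have : (k : ℝ) = a := by linarith
        rw [this]
    · intro a ha b hb
      rw [hIE] at ha hb
      have ca := (hcell _ ha.1).1
      have cb := (hcell _ hb.1).1
      simp only at ca cb
      linarith [C1_len hV₁0 hδ1 ca cb, hV₁.2]
    · intro k hk
      rw [hIE] at hk
      rw [hpt1, hpt2]
      exact ⟨hcell _ hk.1, hcell _ hk.2⟩
    · intro n hn
      obtain ⟨l1, l2⟩ := r1 n hn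
      have e1 : C1_q a₁ a₂ a₃ (1 / V₁, 0) ((e.1 : ℝ) / V₁, (e.2 : ℝ) / V₂) n =
          (a₁ n * ((e.1 : ℝ) / V₁) + a₂ n * ((e.2 : ℝ) / V₂)) / V₁ := by
        simp only [C1_q]; ring
      rw [e1, abs_div, abs_of_pos hV₁0]
      constructor
      · rw [← div_div]
        exact div_le_div_of_nonneg_right l1 hV₁0.le
      · exact div_le_div_of_nonneg_right l2 hV₁0.le
    · intro n n' hn hn' h1 h2
      have l1 := r2 n n' hn hn'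
      have e1 : C1_q a₁ a₂ a₃ (1 / V₁, 0) ((e.1 : ℝ) / V₁, (e.2 : ℝ) / V₂) n' -
          C1_q a₁ a₂ a₃ (1 / V₁, 0) ((e.1 : ℝ) / V₁, (e.2 : ℝ) / V₂) n =
          ((a₁ n' * ((e.1 : ℝ) / V₁) + a₂ n' * ((e.2 : ℝ) / V₂)) -
            (a₁ n * ((e.1 : ℝ) / V₁) + a₂ n * ((e.2 : ℝ) / V₂))) / V₁ := by
        simp only [C1_q]; ring
      rw [e1, abs_div, abs_of_pos hV₁0]
      have e2 : |n'.1 - n.1| + |n'.2 - n.2| = 1 / V₁ := by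
        have t1 : n'.1 - n.1 = 1 / V₁ := by rw [h1]; ring
        have t2 : n'.2 - n.2 = 0 := by rw [h2]; ring
        rw [t1, t2, abs_zero, add_zero, abs_of_pos (by positivity)]
      rw [e2] at l1
      calc _ ≤ 2 * K₀ * W * (1 / V₁) / V₁ := div_le_div_of_nonneg_right l1 hV₁0.le
        _ = 2 * K₀ * W / V₁ ^ 2 := by field_simp

lemma C1_dir2 (hC0 : S_C0) (hK : 1 ≤ K₀) (hδ0 : 0 < δ') (hδ1 : δ' ≤ 1 / 2)
    (hδ2 : δ' * (16 * K₀ ^ 3) ≤ 1) (hR : C1_Rg K₀ δ' p F g₁ g₂ a₁ a₂ a₃)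
    (hG : 1 ≤ G) (hΛ : 1 ≤ Λ) (hV₁ : Λ / G ≤ V₁ ∧ V₁ ≤ Λ * G) (hV₂ : Λ / G ≤ V₂ ∧ V₂ ≤ Λ * G)
    (hΦ : Λ / G ≤ Φ ∧ Φ ≤ Λ * G) (hE : Convex ℝ E)
    (hcell : ∀ t ∈ E, |t.1 / V₁ + d₁ - p.1| ≤ δ' ∧ |t.2 / V₂ + d₂ - p.2| ≤ δ')
    (hm : 1 ≤ m) (hM : 1 ≤ M) (hs : 8 * K₀ * G ^ 3 * m * M ≤ Λ)
    (hw1 : |(e.1 : ℝ) / V₁| ≤ W) (hw2 : |(e.2 : ℝ) / V₂| ≤ W)
    (hW1 : M / (G * Λ) ≤ W) (hW2 : W ≤ G * M / Λ)
    (hRe : ∀ ν : ℤ × ℤ, ν ∈ Re ↔ (((ν.1 : ℝ) + e.1, (ν.2 : ℝ) + e.2) : ℝ × ℝ) ∈ E ∧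
      (((ν.1 : ℝ) - e.1, (ν.2 : ℝ) - e.2) : ℝ × ℝ) ∈ E)
    (hrow : W ≤ 2 * K₀ ^ 2 * |a₂ p * ((e.1 : ℝ) / V₁) + a₃ p * ((e.2 : ℝ) / V₂)|) :
    ‖∑ ν ∈ Re, C1_f F (m * Φ) V₁ V₂ d₁ d₂ e ν‖ ≤
      (2 * G * Λ) * (19 * K₀ ^ 5 * G ^ 11 * Λ / (m * M)) := by
  have hG0 : 0 < G := by linarith
  have hΛ0 : 0 < Λ := by linarith
  have hK0 : 0 < K₀ := by linarith
  have hLG : 0 < Λ / G := by positivity
  have hV₁0 : 0 < V₁ := by linarith [hV₁.1]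
  have hV₂0 : 0 < V₂ := by linarith [hV₂.1]
  have hΦ0 : 0 < Φ := by linarith [hΦ.1]
  have hm0 : 0 < m := by linarith
  have hM0 : 0 < M := by linarith
  have hW0 : 0 < W := lt_of_lt_of_le (by positivity) hW1
  have hGΛ : 1 ≤ G * Λ := one_le_mul_of_one_le_of_one_le hG hΛ
  obtain ⟨n1, n2, n3⟩ := C1_num hK hG hΛ hV₂.1 hV₂.2 hΦ.1 hΦ.2 hm hM hW1 hW2 hs
  have n4 := C1_num2 hK hG hΛ hm hM hs
  obtain ⟨r1, r2⟩ := C1_row (b₁ := a₂) (b₂ := a₃) hK hδ0 hδ2 hW0.le hw1 hw2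
    (fun n hn => ⟨(hR n hn).2.2.1, (hR n hn).2.2.2.1⟩)
    (fun n n' hn hn' => ⟨((hR n hn).2.2.2.2.2 n' hn').2.1, ((hR n hn).2.2.2.2.2 n' hn').2.2⟩) hrow
  refine C1_lines Re _ Prod.fst Prod.snd (fun c k => (c, k)) (fun ν => rfl) (fun c k => rfl)
    (fun c k => rfl) _ _ (by positivity) ?_ ?_
  · refine (C1_card_int _ (G * Λ) (by positivity) ?_).trans (by linarith)
    intro x hx y hy
    obtain ⟨x', hx', rfl⟩ := Finset.mem_image.mp hx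
    obtain ⟨y', hy', rfl⟩ := Finset.mem_image.mp hy
    have cx := (hcell _ ((hRe x').mp hx').1).1
    have cy := (hcell _ ((hRe y').mp hy').1).1
    simp only at cx cy
    rw [abs_le]
    constructor
    · linarith [C1_len hV₁0 hδ1 cx cy, hV₁.2]
    · linarith [C1_len hV₁0 hδ1 cy cx, hV₁.2]
  · intro c I hI
    have hIE : ∀ k, k ∈ I ↔ (((c : ℝ) + e.1, (k : ℝ) + e.2) : ℝ × ℝ) ∈ E ∧
      (((c : ℝ) - e.1, (k : ℝ) - e.2) : ℝ × ℝ) ∈ E := fun k => (hI k).trans (hRe (c, k))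
    have hpt1 : ∀ k : ℝ, C1_pt ((c : ℝ) / V₁ + d₁, d₂) (0, 1 / V₂) ((e.1 : ℝ) / V₁, (e.2 : ℝ) / V₂) k 1 =
        (((c : ℝ) + e.1) / V₁ + d₁, (k + e.2) / V₂ + d₂) := by
      intro k
      apply Prod.ext
      · simp only [C1_pt]; ring
      · simp only [C1_pt]; ring
    have hpt2 : ∀ k : ℝ, C1_pt ((c : ℝ) / V₁ + d₁, d₂) (0, 1 / V₂) ((e.1 : ℝ) / V₁, (e.2 : ℝ) / V₂) k
        (-1) = (((c : ℝ) - e.1) / V₁ + d₁, (k - e.2) / V₂ + d₂) := by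
      intro k
      apply Prod.ext
      · simp only [C1_pt]; ring
      · simp only [C1_pt]; ring
    have hf : ∀ k : ℤ, C1_f F (m * Φ) V₁ V₂ d₁ d₂ e (c, k) = ee (m * Φ * C1_X F
        ((c : ℝ) / V₁ + d₁, d₂) (0, 1 / V₂) ((e.1 : ℝ) / V₁, (e.2 : ℝ) / V₂) k) := by
      intro k
      unfold C1_f C1_X
      rw [hpt1, hpt2]
    simp only [hf]
    refine (C1_fibre hC0 (fun n hn => (hR n hn).1) ((c : ℝ) / V₁ + d₁, d₂) (0, 1 / V₂)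
      ((e.1 : ℝ) / V₁, (e.2 : ℝ) / V₂) (m * Φ) (W / (4 * K₀ ^ 2 * V₂)) (2 * K₀ * W / V₂)
      (2 * K₀ * W / V₂ ^ 2) (m * M / (2 * K₀ ^ 2 * G ^ 3 * Λ)) (4 * K₀ * m * G ^ 4 * M / Λ ^ 2)
      (G * Λ) (by positivity) (by positivity) (by positivity) (by positivity) I ?_ ?_ ?_ ?_ ?_
      n1 n2 n3).trans n4
    · intro a ha b hb k hak hkb
      rw [hIE] at ha hb ⊢
      have hak' : (a : ℝ) ≤ k := by exact_mod_cast hak
      have hkb' : (k : ℝ) ≤ b := by exact_mod_cast hkb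
      constructor
      · refine C1_convex hE ha.1 hb.1 a b k hak' hkb' _ (by simp only; ring) (by simp only; ring)
          (fun hab => ?_)
        have : (k : ℝ) = a := by linarith
        rw [this]
      · refine C1_convex hE ha.2 hb.2 a b k hak' hkb' _ (by simp only; ring) (by simp only; ring)
          (fun hab => ?_)
        have : (k : ℝ) = a := by linarith
        rw [this]
    · intro a ha b hb
      rw [hIE] at ha hb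
      have ca := (hcell _ ha.1).2
      have cb := (hcell _ hb.1).2
      simp only at ca cb
      linarith [C1_len hV₂0 hδ1 ca cb, hV₂.2]
    · intro k hk
      rw [hIE] at hk
      rw [hpt1, hpt2]
      exact ⟨hcell _ hk.1, hcell _ hk.2⟩
    · intro n hn
      obtain ⟨l1, l2⟩ := r1 n hn
      have e1 : C1_q a₁ a₂ a₃ (0, 1 / V₂) ((e.1 : ℝ) / V₁, (e.2 : ℝ) / V₂) n =
          (a₂ n * ((e.1 : ℝ) / V₁) + a₃ n * ((e.2 : ℝ) / V₂)) / V₂ := by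
        simp only [C1_q]; ring
      rw [e1, abs_div, abs_of_pos hV₂0]
      constructor
      · rw [← div_div]
        exact div_le_div_of_nonneg_right l1 hV₂0.le
      · exact div_le_div_of_nonneg_right l2 hV₂0.le
    · intro n n' hn hn' h1 h2
      have l1 := r2 n n' hn hn'
      have e1 : C1_q a₁ a₂ a₃ (0, 1 / V₂) ((e.1 : ℝ) / V₁, (e.2 : ℝ) / V₂) n' -
          C1_q a₁ a₂ a₃ (0, 1 / V₂) ((e.1 : ℝ) / V₁, (e.2 : ℝ) / V₂) n =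
          ((a₂ n' * ((e.1 : ℝ) / V₁) + a₃ n' * ((e.2 : ℝ) / V₂)) -
            (a₂ n * ((e.1 : ℝ) / V₁) + a₃ n * ((e.2 : ℝ) / V₂))) / V₂ := by
        simp only [C1_q]; ring
      rw [e1, abs_div, abs_of_pos hV₂0]
      have e2 : |n'.1 - n.1| + |n'.2 - n.2| = 1 / V₂ := by
        have t1 : n'.1 - n.1 = 0 := by rw [h1]; ring
        have t2 : n'.2 - n.2 = 1 / V₂ := by rw [h2]; ring
        rw [t1, t2, abs_zero, zero_add, abs_of_pos (by positivity)]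
      rw [e2] at l1
      calc _ ≤ 2 * K₀ * W * (1 / V₂) / V₂ := div_le_div_of_nonneg_right l1 hV₂0.le
        _ = 2 * K₀ * W / V₂ ^ 2 := by field_simp

end dir

/-! ### all directions -/

lemma C1_e {K₀ δ' : ℝ} {p : ℝ × ℝ} {F g₁ g₂ a₁ a₂ a₃ : ℝ × ℝ → ℝ}
    {Λ G V₁ V₂ Φ d₁ d₂ m M : ℝ} {E : Set (ℝ × ℝ)} {e : ℤ × ℤ} {Re : Finset (ℤ × ℤ)}
    (hC0 : S_C0) (hK : 1 ≤ K₀) (hδ0 : 0 < δ') (hδ1 : δ' ≤ 1 / 2)
    (hδ2 : δ' * (16 * K₀ ^ 3) ≤ 1) (hR : C1_Rg K₀ δ' p F g₁ g₂ a₁ a₂ a₃)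
    (hG : 1 ≤ G) (hΛ : 1 ≤ Λ) (hV₁ : Λ / G ≤ V₁ ∧ V₁ ≤ Λ * G) (hV₂ : Λ / G ≤ V₂ ∧ V₂ ≤ Λ * G)
    (hΦ : Λ / G ≤ Φ ∧ Φ ≤ Λ * G) (hE : Convex ℝ E)
    (hcell : ∀ t ∈ E, |t.1 / V₁ + d₁ - p.1| ≤ δ' ∧ |t.2 / V₂ + d₂ - p.2| ≤ δ')
    (hm : 1 ≤ m) (hM : 1 ≤ M) (hs : 8 * K₀ * G ^ 3 * m * M ≤ Λ)
    (he1 : |(e.1 : ℝ)| ≤ M) (he2 : |(e.2 : ℝ)| ≤ M) (heM : |(e.1 : ℝ)| = M ∨ |(e.2 : ℝ)| = M)
    (hRe : ∀ ν : ℤ × ℤ, ν ∈ Re ↔ (((ν.1 : ℝ) + e.1, (ν.2 : ℝ) + e.2) : ℝ × ℝ) ∈ E ∧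
      (((ν.1 : ℝ) - e.1, (ν.2 : ℝ) - e.2) : ℝ × ℝ) ∈ E) :
    ‖∑ ν ∈ Re, C1_f F (m * Φ) V₁ V₂ d₁ d₂ e ν‖ ≤
      38 * K₀ ^ 5 * G ^ 12 * Λ ^ 2 / m * (1 / M) := by
  have hG0 : 0 < G := by linarith
  have hΛ0 : 0 < Λ := by linarith
  have hK0 : 0 < K₀ := by linarith
  have hLG : 0 < Λ / G := by positivity
  have hV₁0 : 0 < V₁ := by linarith [hV₁.1]
  have hV₂0 : 0 < V₂ := by linarith [hV₂.1]
  have hm0 : 0 < m := by linarith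
  have hM0 : 0 < M := by linarith
  have efin : (2 * G * Λ) * (19 * K₀ ^ 5 * G ^ 11 * Λ / (m * M)) =
      38 * K₀ ^ 5 * G ^ 12 * Λ ^ 2 / m * (1 / M) := by
    field_simp
    ring
  set W := max |(e.1 : ℝ) / V₁| |(e.2 : ℝ) / V₂| with hW
  have hw1 : |(e.1 : ℝ) / V₁| ≤ W := le_max_left _ _
  have hw2 : |(e.2 : ℝ) / V₂| ≤ W := le_max_right _ _
  have hup : ∀ V x : ℝ, Λ / G ≤ V → |x| ≤ M → |x / V| ≤ G * M / Λ := by
    intro V x hV hx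
    have hV0 : 0 < V := by linarith
    rw [abs_div, abs_of_pos hV0]
    calc |x| / V ≤ M / (Λ / G) := by gcongr
      _ = G * M / Λ := by field_simp
  have hlo : ∀ V x : ℝ, 0 < V → V ≤ Λ * G → |x| = M → M / (G * Λ) ≤ |x / V| := by
    intro V x hV0 hV hx
    rw [abs_div, abs_of_pos hV0, hx, mul_comm G Λ]
    gcongr
  have hW2 : W ≤ G * M / Λ := max_le (hup _ _ hV₁.1 he1) (hup _ _ hV₂.1 he2)
  have hW1 : M / (G * Λ) ≤ W := by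
    rcases heM with h | h
    · exact (hlo _ _ hV₁0 hV₁.2 h).trans hw1
    · exact (hlo _ _ hV₂0 hV₂.2 h).trans hw2
  have hW0 : 0 < W := lt_of_lt_of_le (by positivity) hW1
  -- the Hessian at p is invertible
  have hpc : C1_cell p δ' p := ⟨by simp [hδ0.le], by simp [hδ0.le]⟩
  obtain ⟨-, ha1, ha2, ha3, hdet, -⟩ := hR p hpc
  set w1 := (e.1 : ℝ) / V₁ with hw1d
  set w2 := (e.2 : ℝ) / V₂ with hw2d
  set r1 := a₁ p * w1 + a₂ p * w2 with hr1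
  set r2 := a₂ p * w1 + a₃ p * w2 with hr2
  set D := a₁ p * a₃ p - a₂ p ^ 2 with hD
  have i1 : |D| * |w1| ≤ K₀ * (|r1| + |r2|) := by
    rw [← abs_mul]
    have : D * w1 = a₃ p * r1 - a₂ p * r2 := by rw [hD, hr1, hr2]; ring
    rw [this]
    calc |a₃ p * r1 - a₂ p * r2| ≤ |a₃ p * r1| + |a₂ p * r2| := abs_sub _ _
      _ = |a₃ p| * |r1| + |a₂ p| * |r2| := by rw [abs_mul, abs_mul]
      _ ≤ K₀ * |r1| + K₀ * |r2| := by gcongr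
      _ = _ := by ring
  have i2 : |D| * |w2| ≤ K₀ * (|r1| + |r2|) := by
    rw [← abs_mul]
    have : D * w2 = a₁ p * r2 - a₂ p * r1 := by rw [hD, hr1, hr2]; ring
    rw [this]
    calc |a₁ p * r2 - a₂ p * r1| ≤ |a₁ p * r2| + |a₂ p * r1| := abs_sub _ _
      _ = |a₁ p| * |r2| + |a₂ p| * |r1| := by rw [abs_mul, abs_mul]
      _ ≤ K₀ * |r2| + K₀ * |r1| := by gcongr
      _ = _ := by ring
  have i3 : |D| * W ≤ K₀ * (|r1| + |r2|) := by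
    rcases max_choice |w1| |w2| with h | h
    · rw [hW, h]; exact i1
    · rw [hW, h]; exact i2
  have i4 : W ≤ K₀ ^ 2 * (|r1| + |r2|) := by
    have h1 : 1 / K₀ * W ≤ K₀ * (|r1| + |r2|) :=
      (mul_le_mul_of_nonneg_right hdet hW0.le).trans i3
    calc W = K₀ * (1 / K₀ * W) := by field_simp
      _ ≤ K₀ * (K₀ * (|r1| + |r2|)) := mul_le_mul_of_nonneg_left h1 hK0.le
      _ = _ := by ring
  rw [← efin]
  rcases le_total |r2| |r1| with h | h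
  · have hrow : W ≤ 2 * K₀ ^ 2 * |r1| := by
      refine i4.trans ?_
      have : K₀ ^ 2 * (|r1| + |r2|) ≤ K₀ ^ 2 * (|r1| + |r1|) := by gcongr
      linarith
    exact C1_dir1 hC0 hK hδ0 hδ1 hδ2 hR hG hΛ hV₁ hV₂ hΦ hE hcell hm hM hs hw1 hw2 hW1 hW2 hRe
      hrow
  · have hrow : W ≤ 2 * K₀ ^ 2 * |r2| := by
      refine i4.trans ?_
      have : K₀ ^ 2 * (|r1| + |r2|) ≤ K₀ ^ 2 * (|r2| + |r2|) := by gcongr
      linarith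
    exact C1_dir2 hC0 hK hδ0 hδ1 hδ2 hR hG hΛ hV₁ hV₂ hΦ hE hcell hm hM hs hw1 hw2 hW1 hW2 hRe
      hrow

/-! ### the sum over the shifts -/

lemma C1_shifts (Y : ℕ) (hY : 1 ≤ Y) (f : ℤ → ℤ → ℝ) (A B : ℝ) (hB : 0 ≤ B)
    (h0 : f 0 0 ≤ A)
    (h : ∀ e₁ e₂ : ℤ, |e₁| < Y → |e₂| < Y → ∀ k : ℕ, 1 ≤ k → max e₁.natAbs e₂.natAbs = k →
      f e₁ e₂ ≤ B * (1 / k)) :
    ∑ e₁ ∈ Finset.Ioo (-(Y : ℤ)) Y, ∑ e₂ ∈ Finset.Ioo (-(Y : ℤ)) Y, f e₁ e₂ ≤ A + 12 * Y * B := by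
  classical
  rw [← Finset.sum_product']
  set D := Finset.Ioo (-(Y : ℤ)) Y ×ˢ Finset.Ioo (-(Y : ℤ)) Y with hD
  have h0D : ((0, 0) : ℤ × ℤ) ∈ D := by
    rw [hD, Finset.mem_product, Finset.mem_Ioo]
    simp only
    omega
  rw [← Finset.add_sum_erase D _ h0D]
  refine add_le_add h0 ?_
  have hmap : ∀ e ∈ D.erase (0, 0), max e.1.natAbs e.2.natAbs ∈ Finset.Ico 1 Y := by
    intro e he
    rw [Finset.mem_erase, hD, Finset.mem_product, Finset.mem_Ioo, Finset.mem_Ioo] at he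
    obtain ⟨hne, h1, h2⟩ := he
    have : e.1 ≠ 0 ∨ e.2 ≠ 0 := by
      by_contra hcon
      push Not at hcon
      exact hne (Prod.ext hcon.1 hcon.2)
    rw [Finset.mem_Ico]
    omega
  rw [← Finset.sum_fiberwise_of_maps_to hmap]
  have hfib : ∀ k ∈ Finset.Ico 1 Y, ∑ e ∈ (D.erase (0, 0)).filter
      (fun e => max e.1.natAbs e.2.natAbs = k), f e.1 e.2 ≤ 12 * B := by
    intro k hk
    rw [Finset.mem_Ico] at hk
    have hk0 : (0 : ℝ) < k := by exact_mod_cast hk.1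
    have hc : (((D.erase (0, 0)).filter (fun e => max e.1.natAbs e.2.natAbs = k)).card : ℝ) ≤
        12 * k := by
      have hsub : (D.erase (0, 0)).filter (fun e => max e.1.natAbs e.2.natAbs = k) ⊆
          (({(k : ℤ), -(k : ℤ)} : Finset ℤ) ×ˢ Finset.Icc (-(k : ℤ)) k) ∪
          (Finset.Icc (-(k : ℤ)) k ×ˢ ({(k : ℤ), -(k : ℤ)} : Finset ℤ)) := by
        intro e he
        rw [Finset.mem_filter] at he
        have h1 := he.2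
        simp only [Finset.mem_union, Finset.mem_product, Finset.mem_insert,
          Finset.mem_singleton, Finset.mem_Icc]
        omega
      have h2 : ({(k : ℤ), -(k : ℤ)} : Finset ℤ).card ≤ 2 := Finset.card_le_two
      have h3 : (Finset.Icc (-(k : ℤ)) k).card = 2 * k + 1 := by
        rw [Int.card_Icc]; omega
      have h4 := (Finset.card_le_card hsub).trans (Finset.card_union_le _ _)
      rw [Finset.card_product, Finset.card_product, h3] at h4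
      have h5 : ((D.erase (0, 0)).filter (fun e => max e.1.natAbs e.2.natAbs = k)).card ≤
          12 * k := by nlinarith
      exact_mod_cast h5
    calc ∑ e ∈ (D.erase (0, 0)).filter (fun e => max e.1.natAbs e.2.natAbs = k), f e.1 e.2
        ≤ ∑ _e ∈ (D.erase (0, 0)).filter (fun e => max e.1.natAbs e.2.natAbs = k),
          B * (1 / k) := by
          refine Finset.sum_le_sum fun e he => ?_
          obtain ⟨he1, he2⟩ := Finset.mem_filter.mp he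
          rw [Finset.mem_erase, hD, Finset.mem_product, Finset.mem_Ioo, Finset.mem_Ioo] at he1
          exact h e.1 e.2 (by rw [abs_lt]; omega) (by rw [abs_lt]; omega) k hk.1 he2
      _ = (((D.erase (0, 0)).filter (fun e => max e.1.natAbs e.2.natAbs = k)).card : ℝ) *
          (B * (1 / k)) := by rw [Finset.sum_const, nsmul_eq_mul]
      _ ≤ (12 * k) * (B * (1 / k)) := mul_le_mul_of_nonneg_right hc (by positivity)
      _ = 12 * B := by field_simp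
  calc ∑ k ∈ Finset.Ico 1 Y,
        ∑ e ∈ (D.erase (0, 0)).filter (fun e => max e.1.natAbs e.2.natAbs = k), f e.1 e.2
      ≤ ∑ _k ∈ Finset.Ico 1 Y, 12 * B := Finset.sum_le_sum hfib
    _ = ((Y - 1 : ℕ) : ℝ) * (12 * B) := by rw [Finset.sum_const, Nat.card_Ico, nsmul_eq_mul]
    _ ≤ (Y : ℝ) * (12 * B) := by
        refine mul_le_mul_of_nonneg_right ?_ (by positivity)
        exact_mod_cast Nat.sub_le Y 1
    _ = 12 * Y * B := by ring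

lemma C1_len0 {δ' V P d x y : ℝ} (hV : 0 < V) (hδ1 : δ' ≤ 1 / 2) (h1 : |x / V + d - P| ≤ δ')
    (h2 : |y / V + d - P| ≤ δ') : |x - y| ≤ V := by
  have e1 : |(x + 0) / V + d - P| ≤ δ' := by rwa [add_zero]
  have e2 : |(y + 0) / V + d - P| ≤ δ' := by rwa [add_zero]
  rw [abs_le]
  constructor
  · linarith [C1_len hV hδ1 e1 e2]
  · linarith [C1_len hV hδ1 e2 e1]

lemma C1_norm_ee (x : ℝ) : ‖ee x‖ = 1 := by
  unfold ee
  exact Complex.norm_exp_ofReal_mul_I _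

lemma C1_ee_mul_conj (x y : ℝ) : ee x * (starRingEnd ℂ) (ee y) = ee (x - y) := by
  unfold ee
  rw [← Complex.exp_conj, ← Complex.exp_add]
  congr 1
  simp only [map_mul, Complex.conj_ofReal, Complex.conj_I]
  push_cast
  ring

theorem t_C1 (hW2D : S_W2D) (hC0 : S_C0) : S_C1 := by
  classical
  intro K₀ δ hK hδ
  have hK0 : 0 < K₀ := by linarith
  set δ' := min δ (min (1 / 2) (1 / (16 * K₀ ^ 3))) with hδ'
  have hδ0 : 0 < δ' := lt_min hδ (lt_min (by norm_num) (by positivity))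
  have hδδ : δ' ≤ δ := min_le_left _ _
  have hδ1 : δ' ≤ 1 / 2 := (min_le_right _ _).trans (min_le_left _ _)
  have hδ2 : δ' * (16 * K₀ ^ 3) ≤ 1 := by
    have : δ' ≤ 1 / (16 * K₀ ^ 3) := (min_le_right _ _).trans (min_le_right _ _)
    rwa [le_div_iff₀ (by positivity)] at this
  have hK5 : K₀ ≤ K₀ ^ 5 := by
    calc K₀ = K₀ ^ 1 := (pow_one _).symm
      _ ≤ K₀ ^ 5 := pow_le_pow_right₀ hK (by norm_num)
  have hK51 : 1 ≤ K₀ ^ 5 := one_le_pow₀ hK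
  refine ⟨δ', 11000 * K₀ ^ 5, hδ0, hδδ, by linarith, ?_⟩
  intro F p hReg Λ G V₁ V₂ Φ d₁ d₂ l β hG hΛ hV₁ hV₂ hΦ hl hβ E R hE hcell hstrip hR
  have hG0 : 0 < G := by linarith
  have hΛ0 : 0 < Λ := by linarith
  have hl0 : 0 < l := by linarith
  have hLG : 0 < Λ / G := by positivity
  have hV₁0 : 0 < V₁ := by linarith [hV₁.1]
  have hV₂0 : 0 < V₂ := by linarith [hV₂.1]
  have hGΛ : 1 ≤ G * Λ := one_le_mul_of_one_le_of_one_le hG hΛ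
  have hd1 : ∀ x ∈ R, ∀ y ∈ R, |(x.1 : ℝ) - y.1| ≤ G * Λ := fun x hx y hy =>
    (C1_len0 hV₁0 hδ1 (hcell _ ((hR x).mp hx)).1 (hcell _ ((hR y).mp hy)).1).trans
      (by linarith [hV₁.2])
  have hst : ∀ x ∈ R, ∀ y ∈ R, |((x.2 : ℝ) - y.2) - β * ((x.1 : ℝ) - y.1)| ≤ l := fun x hx y hy =>
    hstrip _ ((hR y).mp hy) _ ((hR x).mp hx)
  have hcardR : (R.card : ℝ) ≤ 4 * G * Λ * l := by
    refine (C1_card_two R (G * Λ) l (by positivity) hl0.le hd1 ?_).trans ?_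
    · intro x hx y hy hxy
      have := hst x hx y hy
      rwa [hxy, sub_self, mul_zero, sub_zero] at this
    · calc (G * Λ + 1) * (l + 1) ≤ (G * Λ + G * Λ) * (l + l) := by gcongr
        _ = 4 * G * Λ * l := by ring
  refine ⟨?_, ?_⟩
  · refine hcardR.trans ?_
    calc 4 * G * Λ * l = 4 * 1 * (G * Λ * l) := by ring
      _ ≤ 11000 * K₀ ^ 5 * (G * Λ * l) := by gcongr; norm_num
      _ = 11000 * K₀ ^ 5 * G * Λ * l := by ring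
  intro m Y hm hY hYl hKY
  obtain ⟨g₁, g₂, a₁, a₂, a₃, hreg⟩ := hReg
  have hRg : C1_Rg K₀ δ' p F g₁ g₂ a₁ a₂ a₃ := by
    intro n hn
    obtain ⟨b1, b2, b3, b4, b5, b6, b7, b8⟩ := hreg n (hn.1.trans hδδ) (hn.2.trans hδδ)
    exact ⟨⟨b1, b2, b3⟩, b4, b5, b6, b7, fun n' hn' => b8 n' (hn'.1.trans hδδ) (hn'.2.trans hδδ)⟩
  have hm1 : (1 : ℝ) ≤ m := by exact_mod_cast hm
  have hY1 : (1 : ℝ) ≤ Y := by exact_mod_cast hY
  have hm0 : (0 : ℝ) < m := by linarith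
  have hY0 : (0 : ℝ) < Y := by linarith
  have hG3 : 1 ≤ G ^ 3 := one_le_pow₀ hG
  have hYΛ : (Y : ℝ) ≤ Λ := by
    calc (Y : ℝ) = 1 * 1 * 1 * Y := by ring
      _ ≤ (11000 * K₀ ^ 5) * G ^ 3 * m * Y := by gcongr; linarith
      _ ≤ Λ := hKY
  -- Weyl differencing
  set z : ℕ → ℤ × ℤ → ℂ := fun _ ν =>
    if ν ∈ R then ee (m * (Φ * F ((ν.1 : ℝ) / V₁ + d₁, (ν.2 : ℝ) / V₂ + d₂))) else 0 with hz
  set T : Finset (ℤ × ℤ) := (R ×ˢ (Finset.range Y ×ˢ Finset.range Y)).image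
    (fun q => (q.1.1 - 2 * (q.2.1 : ℤ), q.1.2 - 2 * (q.2.2 : ℤ))) with hT
  have hTmem : ∀ x ∈ T, ∃ ν ∈ R, ∃ y₁ y₂ : ℕ, y₁ < Y ∧ y₂ < Y ∧
      x.1 = ν.1 - 2 * (y₁ : ℤ) ∧ x.2 = ν.2 - 2 * (y₂ : ℤ) := by
    intro x hx
    obtain ⟨q, hq, rfl⟩ := Finset.mem_image.mp hx
    rw [Finset.mem_product, Finset.mem_product, Finset.mem_range, Finset.mem_range] at hq
    exact ⟨q.1, hq.1, q.2.1, q.2.2, hq.2.1, hq.2.2, rfl, rfl⟩
  have hW := hW2D {0} z R T Y Y hY hY (by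
    intro h _ ν hν
    by_contra hcon
    exact hν (if_neg hcon)) (by
    intro ν y₁ hy₁ y₂ hy₂ hmem
    rw [hT, Finset.mem_image]
    refine ⟨((ν.1 + 2 * (y₁ : ℤ), ν.2 + 2 * (y₂ : ℤ)), (y₁, y₂)), ?_, ?_⟩
    · rw [Finset.mem_product, Finset.mem_product, Finset.mem_range, Finset.mem_range]
      exact ⟨hmem, hy₁, hy₂⟩
    · apply Prod.ext <;> simp)
  simp only [Finset.sum_singleton, Finset.card_singleton, Nat.cast_one, one_mul] at hW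
  have hL : ∑ ν ∈ R, z 0 ν =
      ∑ ν ∈ R, ee (m * (Φ * F ((ν.1 : ℝ) / V₁ + d₁, (ν.2 : ℝ) / V₂ + d₂))) :=
    Finset.sum_congr rfl fun ν hν => if_pos hν
  rw [hL] at hW
  -- size of T
  have hdist : ∀ a b : ℕ, a < Y → b < Y → |(a : ℝ) - b| ≤ Y := by
    intro a b ha hb
    have h1 : (a : ℝ) ≤ Y := by exact_mod_cast ha.le
    have h2 : (b : ℝ) ≤ Y := by exact_mod_cast hb.le
    have h3 : (0 : ℝ) ≤ a := Nat.cast_nonneg a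
    have h4 : (0 : ℝ) ≤ b := Nat.cast_nonneg b
    rw [abs_le]
    constructor <;> linarith
  have hcardT : (T.card : ℝ) ≤ 24 * G ^ 2 * Λ * l := by
    refine (C1_card_two T (3 * G * Λ) (5 * G * l) (by positivity) (by positivity) ?_ ?_).trans ?_
    · intro x hx x' hx'
      obtain ⟨ν, hν, y₁, y₂, hy₁, hy₂, e1, e2⟩ := hTmem x hx
      obtain ⟨ν', hν', y₁', y₂', hy₁', hy₂', e1', e2'⟩ := hTmem x' hx'
      rw [e1, e1']
      have h1 := hd1 ν hν ν' hν'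
      have h2 := hdist y₁ y₁' hy₁ hy₁'
      push_cast
      have e3 : (ν.1 : ℝ) - 2 * y₁ - (ν'.1 - 2 * y₁') = (ν.1 - ν'.1) - 2 * (y₁ - y₁') := by ring
      rw [e3]
      calc |((ν.1 : ℝ) - ν'.1) - 2 * (y₁ - y₁')| ≤ |(ν.1 : ℝ) - ν'.1| + |2 * ((y₁ : ℝ) - y₁')| :=
            abs_sub _ _
        _ = |(ν.1 : ℝ) - ν'.1| + 2 * |(y₁ : ℝ) - y₁'| := by
            rw [abs_mul, abs_of_pos (by norm_num : (0:ℝ) < 2)]
        _ ≤ G * Λ + 2 * Y := by linarith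
        _ ≤ G * Λ + 2 * (G * Λ) := by
            have : 1 * Λ ≤ G * Λ := mul_le_mul_of_nonneg_right hG hΛ0.le
            linarith
        _ = 3 * G * Λ := by ring
    · intro x hx x' hx' hxx
      obtain ⟨ν, hν, y₁, y₂, hy₁, hy₂, e1, e2⟩ := hTmem x hx
      obtain ⟨ν', hν', y₁', y₂', hy₁', hy₂', e1', e2'⟩ := hTmem x' hx'
      rw [e1, e1'] at hxx
      have hxx' : (ν.1 : ℝ) - ν'.1 = 2 * ((y₁ : ℝ) - y₁') := by
        have : ((ν.1 - 2 * (y₁ : ℤ) : ℤ) : ℝ) = ((ν'.1 - 2 * (y₁' : ℤ) : ℤ) : ℝ) := by rw [hxx]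
        push_cast at this
        linarith
      rw [e2, e2']
      push_cast
      have h1 := hst ν hν ν' hν'
      have h2 := hdist y₁ y₁' hy₁ hy₁'
      have h3 := hdist y₂ y₂' hy₂ hy₂'
      rw [hxx'] at h1
      have e3 : (ν.2 : ℝ) - 2 * y₂ - (ν'.2 - 2 * y₂') =
          ((ν.2 - ν'.2) - β * (2 * ((y₁ : ℝ) - y₁'))) + (β * (2 * ((y₁ : ℝ) - y₁')) -
            2 * (y₂ - y₂')) := by ring
      rw [e3]
      have h4 : |β * (2 * ((y₁ : ℝ) - y₁'))| ≤ G * (2 * Y) := by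
        rw [abs_mul, abs_mul, abs_of_pos (by norm_num : (0:ℝ) < 2)]
        gcongr
      have h5 : |2 * ((y₂ : ℝ) - y₂')| ≤ 2 * Y := by
        rw [abs_mul, abs_of_pos (by norm_num : (0:ℝ) < 2)]
        gcongr
      calc |((ν.2 - ν'.2) - β * (2 * ((y₁ : ℝ) - y₁'))) + (β * (2 * ((y₁ : ℝ) - y₁')) -
            2 * (y₂ - y₂'))|
          ≤ |(ν.2 - ν'.2) - β * (2 * ((y₁ : ℝ) - y₁'))| + |β * (2 * ((y₁ : ℝ) - y₁')) -
            2 * (y₂ - y₂')| := abs_add_le _ _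
        _ ≤ |(ν.2 - ν'.2) - β * (2 * ((y₁ : ℝ) - y₁'))| + (|β * (2 * ((y₁ : ℝ) - y₁'))| +
            |2 * ((y₂ : ℝ) - y₂')|) := by gcongr; exact abs_sub _ _
        _ ≤ l + (G * (2 * Y) + 2 * Y) := by gcongr
        _ ≤ G * l + (G * (2 * l) + G * (2 * l)) := by
            have i1 : 1 * l ≤ G * l := mul_le_mul_of_nonneg_right hG hl0.le
            have i2 : G * (2 * Y) ≤ G * (2 * l) := by gcongr
            have i3 : 2 * (Y : ℝ) ≤ 2 * l := by linarith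
            linarith
        _ = 5 * G * l := by ring
    · have i1 : 1 ≤ G * l := one_le_mul_of_one_le_of_one_le hG hl
      calc (3 * G * Λ + 1) * (5 * G * l + 1) ≤ (3 * G * Λ + G * Λ) * (5 * G * l + G * l) := by
            gcongr
        _ = 24 * G ^ 2 * Λ * l := by ring
  -- the correlation sums
  set B := 38 * K₀ ^ 5 * G ^ 12 * Λ ^ 2 / m with hB
  have hB0 : 0 ≤ B := by positivity
  have hcorr : ∀ e₁ e₂ : ℤ, ∃ Re : Finset (ℤ × ℤ),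
      (∀ ν : ℤ × ℤ, ν ∈ Re ↔ (ν.1 + e₁, ν.2 + e₂) ∈ R ∧ (ν.1 - e₁, ν.2 - e₂) ∈ R) ∧
      ∑' ν : ℤ × ℤ, z 0 (ν.1 + e₁, ν.2 + e₂) * (starRingEnd ℂ) (z 0 (ν.1 - e₁, ν.2 - e₂)) =
        ∑ ν ∈ Re, C1_f F (m * Φ) V₁ V₂ d₁ d₂ (e₁, e₂) ν := by
    intro e₁ e₂
    have hRe : ∀ ν : ℤ × ℤ, ν ∈ (R.image (fun ν : ℤ × ℤ => (ν.1 - e₁, ν.2 - e₂))).filter
        (fun ν => (ν.1 - e₁, ν.2 - e₂) ∈ R) ↔
        (ν.1 + e₁, ν.2 + e₂) ∈ R ∧ (ν.1 - e₁, ν.2 - e₂) ∈ R := by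
      intro ν
      rw [Finset.mem_filter, Finset.mem_image]
      constructor
      · rintro ⟨⟨x, hx, rfl⟩, h2⟩
        refine ⟨?_, h2⟩
        simpa using hx
      · rintro ⟨h1, h2⟩
        exact ⟨⟨_, h1, by simp⟩, h2⟩
    refine ⟨_, hRe, ?_⟩
    rw [tsum_eq_sum (s := (R.image (fun ν : ℤ × ℤ => (ν.1 - e₁, ν.2 - e₂))).filter
        (fun ν => (ν.1 - e₁, ν.2 - e₂) ∈ R))]
    · refine Finset.sum_congr rfl fun ν hν => ?_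
      obtain ⟨h1, h2⟩ := (hRe ν).mp hν
      simp only [hz]
      rw [if_pos h1, if_pos h2, C1_ee_mul_conj]
      unfold C1_f
      congr 1
      push_cast
      ring
    · intro ν hν
      rw [hRe] at hν
      simp only [hz]
      by_cases h1 : (ν.1 + e₁, ν.2 + e₂) ∈ R
      · have h2 : (ν.1 - e₁, ν.2 - e₂) ∉ R := fun h => hν ⟨h1, h⟩
        rw [if_neg h2, map_zero, mul_zero]
      · rw [if_neg h1, zero_mul]
  have hsum := C1_shifts Y hY (fun e₁ e₂ => ‖∑' ν : ℤ × ℤ, z 0 (ν.1 + e₁, ν.2 + e₂) *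
    (starRingEnd ℂ) (z 0 (ν.1 - e₁, ν.2 - e₂))‖) (4 * G * Λ * l) B hB0 (by
      obtain ⟨Re, hRe, he⟩ := hcorr 0 0
      rw [he]
      have h1 : Re ⊆ R := by
        intro ν hν
        have := ((hRe ν).mp hν).1
        simpa using this
      calc ‖∑ ν ∈ Re, C1_f F (m * Φ) V₁ V₂ d₁ d₂ (0, 0) ν‖
          ≤ ∑ ν ∈ Re, ‖C1_f F (m * Φ) V₁ V₂ d₁ d₂ (0, 0) ν‖ := norm_sum_le _ _
        _ = ∑ _ν ∈ Re, (1 : ℝ) := Finset.sum_congr rfl fun ν _ => C1_norm_ee _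
        _ = (Re.card : ℝ) := by rw [Finset.sum_const, nsmul_eq_mul, mul_one]
        _ ≤ (R.card : ℝ) := by exact_mod_cast Finset.card_le_card h1
        _ ≤ 4 * G * Λ * l := hcardR) (by
      intro e₁ e₂ he₁ he₂ k hk hmax
      obtain ⟨Re, hRe, he⟩ := hcorr e₁ e₂
      rw [he]
      have n1 : |(e₁ : ℝ)| = (e₁.natAbs : ℝ) := by rw [Nat.cast_natAbs, Int.cast_abs]
      have n2 : |(e₂ : ℝ)| = (e₂.natAbs : ℝ) := by rw [Nat.cast_natAbs, Int.cast_abs]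
      have a1 := abs_lt.mp he₁
      have a2 := abs_lt.mp he₂
      have hkY : k ≤ Y := by omega
      have hk1 : (1 : ℝ) ≤ k := by exact_mod_cast hk
      refine C1_e (M := (k : ℝ)) (e := (e₁, e₂)) hC0 hK hδ0 hδ1 hδ2 hRg hG hΛ hV₁ hV₂ hΦ hE hcell
        hm1 hk1 ?_ ?_ ?_ ?_ ?_
      · calc 8 * K₀ * G ^ 3 * m * k ≤ (11000 * K₀ ^ 5) * G ^ 3 * m * Y := by
              have hkY' : (k : ℝ) ≤ Y := by exact_mod_cast hkY
              have : 8 * K₀ ≤ 11000 * K₀ ^ 5 := by linarith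
              gcongr
          _ ≤ Λ := hKY
      · simp only
        rw [n1]
        exact_mod_cast (show e₁.natAbs ≤ k by omega)
      · simp only
        rw [n2]
        exact_mod_cast (show e₂.natAbs ≤ k by omega)
      · simp only
        rw [n1, n2]
        rcases max_choice e₁.natAbs e₂.natAbs with h | h
        · left; exact_mod_cast (h.symm.trans hmax)
        · right; exact_mod_cast (h.symm.trans hmax)
      · intro ν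
        rw [hRe, hR, hR]
        push_cast
        rfl)
  calc ‖∑ ν ∈ R, ee (m * (Φ * F ((ν.1 : ℝ) / V₁ + d₁, (ν.2 : ℝ) / V₂ + d₂)))‖ ^ 2
      ≤ ((T.card : ℝ) / (Y * Y)) * ∑ e₁ ∈ Finset.Ioo (-(Y : ℤ)) Y,
          ∑ e₂ ∈ Finset.Ioo (-(Y : ℤ)) Y, ‖∑' ν : ℤ × ℤ, z 0 (ν.1 + e₁, ν.2 + e₂) *
            (starRingEnd ℂ) (z 0 (ν.1 - e₁, ν.2 - e₂))‖ := hW
    _ ≤ ((24 * G ^ 2 * Λ * l) / (Y * Y)) * (4 * G * Λ * l + 12 * Y * B) := by gcongr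
    _ = 96 * G ^ 3 * ((Λ * l) ^ 2 * (1 / Y ^ 2)) +
        10944 * K₀ ^ 5 * G ^ 14 * ((Λ * l) ^ 2 * (Λ / (m * Y * l))) := by
        rw [hB]
        field_simp
        ring
    _ ≤ 11000 * K₀ ^ 5 * G ^ 14 * ((Λ * l) ^ 2 * (1 / Y ^ 2)) +
        11000 * K₀ ^ 5 * G ^ 14 * ((Λ * l) ^ 2 * (Λ / (m * Y * l))) := by
        have j1 : 96 * G ^ 3 ≤ 11000 * K₀ ^ 5 * G ^ 14 := by
          calc 96 * G ^ 3 ≤ (11000 * K₀ ^ 5) * G ^ 3 := by gcongr; linarith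
            _ ≤ 11000 * K₀ ^ 5 * G ^ 14 :=
                mul_le_mul_of_nonneg_left (pow_le_pow_right₀ hG (by norm_num)) (by positivity)
        have j2 : 10944 * K₀ ^ 5 * G ^ 14 ≤ 11000 * K₀ ^ 5 * G ^ 14 := by
          gcongr
          norm_num
        gcongr
    _ = 11000 * K₀ ^ 5 * G ^ 14 * (Λ * l) ^ 2 * (1 / Y ^ 2 + Λ / (m * Y * l)) := by ring

end Pool.Agent.H304R4.CM
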