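import Pool.Agent.H304R4.CM.Stubs

/-! # Task C2: Fejer counting -/

open Complex MeasureTheory Filter Topology

namespace Pool.Agent.H304R4.CM

namespace TC2

theorem ee_add (x y : ℝ) : ee (x + y) = ee x * ee y := by
  unfold ee
  rw [← Complex.exp_add]
  congr 1
  push_cast
  ring

theorem ee_int (n : ℤ) : ee n = 1 := by
  unfold ee
  rw [show ((2 * Real.pi * (n : ℝ) : ℝ) : ℂ) * I = (n : ℂ) * (2 * Real.pi * I) by push_cast; ring]
  exact Complex.exp_int_mul_two_pi_mul_I n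

theorem norm_ee (x : ℝ) : ‖ee x‖ = 1 := by
  unfold ee
  exact Complex.norm_exp_ofReal_mul_I _

theorem ee_conj (x : ℝ) : (starRingEnd ℂ) (ee x) = ee (-x) := by
  unfold ee
  rw [← Complex.exp_conj, map_mul, Complex.conj_ofReal, Complex.conj_I]
  congr 1
  push_cast
  ring

theorem norm_ee_sub_one (x : ℝ) : ‖ee x - 1‖ = 2 * |Real.sin (Real.pi * x)| := by
  unfold ee
  rw [mul_comm, Complex.norm_exp_I_mul_ofReal_sub_one, Real.norm_eq_abs, abs_mul, abs_two]
  congr 3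
  ring

/-- the geometric sum -/
noncomputable def gs (N : ℕ) (x : ℝ) : ℂ := ∑ n ∈ Finset.range N, ee (n * x)

theorem gs_mul (N : ℕ) (x : ℝ) : gs N x * (ee x - 1) = ee (N * x) - 1 := by
  have h : ∀ n : ℕ, ee (n * x) = ee x ^ n := by
    intro n
    induction n with
    | zero => simp [ee]
    | succ n ih =>
      rw [pow_succ, ← ih, ← ee_add]
      congr 1
      push_cast
      ring
  unfold gs
  simp only [h]
  exact geom_sum_mul (ee x) N

theorem gs_congr (N : ℕ) (x : ℝ) (m : ℤ) : gs N (x + m) = gs N x := by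
  unfold gs
  refine Finset.sum_congr rfl fun n _ => ?_
  rw [mul_add, ee_add, show ((n : ℝ) * (m : ℝ)) = (((n : ℤ) * m : ℤ) : ℝ) by push_cast; ring,
    ee_int, mul_one]

theorem gs_lower (N : ℕ) (hN : 1 ≤ N) (x : ℝ) (hx : nd x ≤ 1 / (2 * N)) :
    2 * N / Real.pi ≤ ‖gs N x‖ := by
  have hN' : (1 : ℝ) ≤ N := by exact_mod_cast hN
  have hpi := Real.pi_pos
  obtain ⟨t, ht⟩ : ∃ t, t = x - round x := ⟨_, rfl⟩
  have h1 : gs N x = gs N t := by
    rw [ht, ← gs_congr N (x - round x) (round x), sub_add_cancel]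
  have h2 : |t| ≤ 1 / (2 * N) := by
    rw [ht]
    exact hx
  rw [h1]
  by_cases h0 : t = 0
  · rw [h0]
    have h3 : gs N 0 = N := by
      unfold gs
      simp [ee]
    rw [h3, Complex.norm_natCast, div_le_iff₀ hpi]
    have := Real.pi_gt_three
    nlinarith
  · have h3 := congrArg norm (gs_mul N t)
    rw [norm_mul, norm_ee_sub_one, norm_ee_sub_one] at h3
    have h4 : |Real.sin (Real.pi * t)| ≤ Real.pi * |t| := by
      have := Real.abs_sin_le_abs (x := Real.pi * t)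
      rwa [abs_mul, abs_of_pos hpi] at this
    have h5 : 2 * N * |t| ≤ |Real.sin (Real.pi * (N * t))| := by
      have h6 : |Real.pi * (N * t)| = Real.pi * (N * |t|) := by
        rw [abs_mul, abs_mul, abs_of_pos hpi, abs_of_pos (by linarith : (0 : ℝ) < N)]
      have h8 : (N : ℝ) * |t| ≤ 1 / 2 := by
        rw [le_div_iff₀ (by positivity)] at h2
        nlinarith
      have h7 : |Real.pi * (N * t)| ≤ Real.pi / 2 := by
        rw [h6]
        nlinarith
      have h9 := Real.mul_abs_le_abs_sin h7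
      rw [h6] at h9
      refine le_trans (le_of_eq ?_) h9
      field_simp
    have h10 : 0 < |t| := abs_pos.mpr h0
    rw [div_le_iff₀ hpi]
    have h11 : ‖gs N t‖ * |Real.sin (Real.pi * t)| ≤ ‖gs N t‖ * (Real.pi * |t|) :=
      mul_le_mul_of_nonneg_left h4 (norm_nonneg _)
    have h12 : 2 * N * |t| ≤ ‖gs N t‖ * Real.pi * |t| := by nlinarith
    exact le_of_mul_le_mul_right h12 h10

theorem gs_sq (N : ℕ) (x : ℝ) : ‖gs (N + 1) x‖ ^ 2 = ‖gs N x‖ ^ 2 + 1 +
    2 * ∑ n ∈ Finset.range N, (ee ((n + 1 : ℕ) * x)).re := by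
  have h1 : gs (N + 1) x = gs N x + ee (N * x) := Finset.sum_range_succ _ _
  rw [h1, Complex.sq_norm, Complex.normSq_add, ← Complex.sq_norm, ← Complex.sq_norm, norm_ee,
    one_pow]
  congr 2
  have h2 : gs N x * (starRingEnd ℂ) (ee (N * x)) =
      ∑ n ∈ Finset.range N, (starRingEnd ℂ) (ee ((N - n : ℝ) * x)) := by
    unfold gs
    rw [Finset.sum_mul]
    refine Finset.sum_congr rfl fun n _ => ?_
    rw [ee_conj, ee_conj, ← ee_add]
    congr 1
    ring
  rw [h2, Complex.re_sum]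
  simp only [Complex.conj_re]
  rw [← Finset.sum_range_reflect]
  refine Finset.sum_congr rfl fun n hn => ?_
  rw [Finset.mem_range] at hn
  congr 3
  rw [Nat.sub_sub, Nat.cast_sub (by omega)]
  push_cast
  ring

theorem fejer {ι : Type} (S : Finset ι) (f : ι → ℝ) (N : ℕ) :
    ∑ ν ∈ S, ‖gs N (f ν)‖ ^ 2 ≤ N * (S.card + 2 * ∑ m ∈ Finset.Ico 1 N, ‖∑ ν ∈ S, ee (m * f ν)‖) := by
  induction N with
  | zero => simp [gs]
  | succ N ih =>
    have h1 : ∑ ν ∈ S, ‖gs (N + 1) (f ν)‖ ^ 2 = ∑ ν ∈ S, ‖gs N (f ν)‖ ^ 2 + S.card +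
        2 * ∑ n ∈ Finset.range N, ∑ ν ∈ S, (ee ((n + 1 : ℕ) * f ν)).re := by
      simp only [gs_sq]
      rw [Finset.sum_add_distrib, Finset.sum_add_distrib, Finset.sum_const, nsmul_eq_mul, mul_one,
        ← Finset.mul_sum, Finset.sum_comm]
    have h2 : ∑ n ∈ Finset.range N, ∑ ν ∈ S, (ee ((n + 1 : ℕ) * f ν)).re ≤
        ∑ m ∈ Finset.Ico 1 (N + 1), ‖∑ ν ∈ S, ee (m * f ν)‖ := by
      rw [Finset.sum_Ico_eq_sum_range, Nat.add_sub_cancel]
      refine Finset.sum_le_sum fun n _ => ?_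
      rw [← Complex.re_sum, add_comm 1 n]
      exact Complex.re_le_norm _
    have h3 : ∑ m ∈ Finset.Ico 1 N, ‖∑ ν ∈ S, ee (m * f ν)‖ ≤
        ∑ m ∈ Finset.Ico 1 (N + 1), ‖∑ ν ∈ S, ee (m * f ν)‖ := by
      apply Finset.sum_le_sum_of_subset_of_nonneg
      · exact Finset.Ico_subset_Ico le_rfl (Nat.le_succ N)
      · intro m _ _
        exact norm_nonneg _
    have hN : (0 : ℝ) ≤ N := Nat.cast_nonneg N
    have h4 := mul_le_mul_of_nonneg_left h3 hN
    rw [h1, Nat.cast_succ]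
    nlinarith

end TC2

open TC2 in
theorem t_C2 : S_C2 := by
  intro S f N hN
  have hN' : (1 : ℝ) ≤ N := by exact_mod_cast hN
  have hpi := Real.pi_pos
  have h1 := fejer S f N
  have h2 : ((S.filter (fun ν => nd (f ν) ≤ 1 / (2 * N))).card : ℝ) * (2 * N / Real.pi) ^ 2 ≤
      ∑ ν ∈ S, ‖gs N (f ν)‖ ^ 2 := by
    calc ((S.filter (fun ν => nd (f ν) ≤ 1 / (2 * N))).card : ℝ) * (2 * N / Real.pi) ^ 2
        = ∑ ν ∈ S.filter (fun ν => nd (f ν) ≤ 1 / (2 * N)), (2 * N / Real.pi) ^ 2 := by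
          rw [Finset.sum_const, nsmul_eq_mul]
      _ ≤ ∑ ν ∈ S.filter (fun ν => nd (f ν) ≤ 1 / (2 * N)), ‖gs N (f ν)‖ ^ 2 := by
          refine Finset.sum_le_sum fun ν hν => ?_
          have h3 := gs_lower N hN (f ν) (Finset.mem_filter.mp hν).2
          exact pow_le_pow_left₀ (by positivity) h3 2
      _ ≤ ∑ ν ∈ S, ‖gs N (f ν)‖ ^ 2 := by
          apply Finset.sum_le_sum_of_subset_of_nonneg (Finset.filter_subset _ _)
          intro ν _ _
          positivity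
  have h3 := h2.trans h1
  have h4 : (2 * N / Real.pi) ^ 2 = (N : ℝ) * (4 * N / Real.pi ^ 2) := by
    field_simp
    ring
  rw [h4] at h3
  have h5 : ((S.filter (fun ν => nd (f ν) ≤ 1 / (2 * N))).card : ℝ) * (4 * N / Real.pi ^ 2) ≤
      (S.card + 2 * ∑ m ∈ Finset.Ico 1 N, ‖∑ ν ∈ S, ee (m * f ν)‖) := by
    have : (N : ℝ) * (((S.filter (fun ν => nd (f ν) ≤ 1 / (2 * N))).card : ℝ) *
        (4 * N / Real.pi ^ 2)) ≤
        N * (S.card + 2 * ∑ m ∈ Finset.Ico 1 N, ‖∑ ν ∈ S, ee (m * f ν)‖) := by linarith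
    exact le_of_mul_le_mul_left this (by linarith)
  have h6 : ((S.filter (fun ν => nd (f ν) ≤ 1 / (2 * N))).card : ℝ) =
      Real.pi ^ 2 / (4 * N) * (((S.filter (fun ν => nd (f ν) ≤ 1 / (2 * N))).card : ℝ) *
        (4 * N / Real.pi ^ 2)) := by
    generalize ((S.filter (fun ν => nd (f ν) ≤ 1 / (2 * N))).card : ℝ) = c
    field_simp
  rw [h6]
  exact mul_le_mul_of_nonneg_left h5 (by positivity)

end Pool.Agent.H304R4.CM
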