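import Pool.Agent.H304R4.CM.Stubs

open Complex MeasureTheory Filter Topology

set_option autoImplicit false

namespace Pool.Agent.H304R4.CM

namespace C3L

lemma bx_mono {r s : ℝ} (hr : 0 < r) (hrs : r ≤ s) {z : ℝ × ℝ} (h : z ∈ bx r) : z ∈ bx s := by
  obtain ⟨⟨h1, h2⟩, h3, h4⟩ := h
  have h5 : 1 / s ≤ 1 / r := one_div_le_one_div_of_le hr hrs
  exact ⟨⟨h5.trans h1, h2.trans hrs⟩, h5.trans h3, h4.trans hrs⟩

lemma qq_lower {ρ : ℝ} {z : ℝ × ℝ} (hz : z ∈ bx 20) : 3 / 1600 ≤ qq ρ z := by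
  obtain ⟨⟨h1, h2⟩, h3, h4⟩ := hz
  unfold qq
  nlinarith [sq_nonneg (z.1 + 2 * ρ * z.2), sq_nonneg (z.1 / 2 + ρ * z.2)]

lemma qq_upper {ρ : ℝ} {z : ℝ × ℝ} (hρ : |ρ| ≤ 1) (hz : z ∈ bx 20) : qq ρ z ≤ 1200 := by
  obtain ⟨⟨h1, h2⟩, h3, h4⟩ := hz
  obtain ⟨r1, r2⟩ := abs_le.1 hρ
  unfold qq
  have hx : 0 < z.1 := lt_of_lt_of_le (by norm_num) h1
  have hy : 0 < z.2 := lt_of_lt_of_le (by norm_num) h3
  have e1 : z.1 ^ 2 ≤ 400 := by nlinarith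
  have e2 : z.2 ^ 2 ≤ 400 := by nlinarith
  have e3 : z.1 * z.2 ≤ 400 := by nlinarith
  have e4 : ρ * (z.1 * z.2) ≤ 1 * (z.1 * z.2) := mul_le_mul_of_nonneg_right r2 (by positivity)
  have e5 : ρ ^ 2 ≤ 1 := by nlinarith
  have e6 : ρ ^ 2 * z.2 ^ 2 ≤ 1 * z.2 ^ 2 := mul_le_mul_of_nonneg_right e5 (by positivity)
  nlinarith

/-- the difference of two quotients -/
lemma quot_diff {N N' q q' d : ℝ} (hN : |N'| ≤ 40) (hNN : |N - N'| ≤ d)
    (hq : 3 / 1600 ≤ q) (hq' : 3 / 1600 ≤ q') (hqq : |q - q'| ≤ 60 * d) :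
    |N / (4 * q) - N' / (4 * q')| ≤ 200000000 * d := by
  have hd : 0 ≤ d := (abs_nonneg _).trans hNN
  have q0 : 0 < q := by linarith
  have q0' : 0 < q' := by linarith
  have e : N / (4 * q) - N' / (4 * q') = (N - N') / (4 * q) + N' * (q' - q) / (4 * q * q') := by
    field_simp
    ring
  rw [e]
  refine (abs_add_le _ _).trans ?_
  rw [abs_div, abs_div, abs_of_pos (show 0 < 4 * q by positivity),
    abs_of_pos (show 0 < 4 * q * q' by positivity), abs_mul]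
  have h1 : |N - N'| / (4 * q) ≤ 200 * d := by
    rw [div_le_iff₀ (by positivity)]
    nlinarith
  have h2 : |N'| * |q' - q| / (4 * q * q') ≤ 190000000 * d := by
    rw [div_le_iff₀ (by positivity)]
    have h3 : |N'| * |q' - q| ≤ 40 * (60 * d) :=
      mul_le_mul hN (by rwa [abs_sub_comm]) (abs_nonneg _) (by norm_num)
    have h4 : 4 * (3 / 1600) * (3 / 1600) ≤ 4 * q * q' := by
      apply mul_le_mul (by linarith) hq' (by norm_num) (by positivity)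
    nlinarith [mul_le_mul_of_nonneg_left h4 hd]
  linarith

lemma qq_diff {ρ : ℝ} {z w : ℝ × ℝ} (hρ : |ρ| ≤ 1) (hz : z ∈ bx 20) (hw : w ∈ bx 20) :
    |qq ρ z - qq ρ w| ≤ 60 * (|z.1 - w.1| + |z.2 - w.2|) := by
  obtain ⟨⟨h1, h2⟩, h3, h4⟩ := hz
  obtain ⟨⟨k1, k2⟩, k3, k4⟩ := hw
  have e : qq ρ z - qq ρ w = (z.1 - w.1) * (z.1 + w.1 + ρ * z.2) +
      (z.2 - w.2) * (ρ * w.1 + ρ ^ 2 * (z.2 + w.2)) := by
    unfold qq
    ring
  have hρ2 : |ρ ^ 2| ≤ 1 := by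
    rw [abs_pow]
    exact pow_le_one₀ (abs_nonneg _) hρ
  have a1 : |z.1| ≤ 20 := abs_le.2 ⟨by linarith [show (0:ℝ) < 1 / 20 by norm_num], h2⟩
  have a2 : |z.2| ≤ 20 := abs_le.2 ⟨by linarith [show (0:ℝ) < 1 / 20 by norm_num], h4⟩
  have a3 : |w.1| ≤ 20 := abs_le.2 ⟨by linarith [show (0:ℝ) < 1 / 20 by norm_num], k2⟩
  have a4 : |w.2| ≤ 20 := abs_le.2 ⟨by linarith [show (0:ℝ) < 1 / 20 by norm_num], k4⟩
  have b1 : |z.1 + w.1 + ρ * z.2| ≤ 60 := by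
    refine (abs_add_three _ _ _).trans ?_
    rw [abs_mul]
    nlinarith [abs_nonneg ρ, abs_nonneg z.2, mul_le_mul hρ a2 (abs_nonneg _) zero_le_one]
  have b2 : |ρ * w.1 + ρ ^ 2 * (z.2 + w.2)| ≤ 60 := by
    refine (abs_add_le _ _).trans ?_
    rw [abs_mul, abs_mul]
    have b3 : |z.2 + w.2| ≤ 40 := (abs_add_le _ _).trans (by linarith)
    have b4 := mul_le_mul hρ a3 (abs_nonneg _) zero_le_one
    have b5 := mul_le_mul hρ2 b3 (abs_nonneg _) zero_le_one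
    linarith
  rw [e]
  refine (abs_add_le _ _).trans ?_
  rw [abs_mul, abs_mul]
  have c1 := mul_le_mul_of_nonneg_left b1 (abs_nonneg (z.1 - w.1))
  have c2 := mul_le_mul_of_nonneg_left b2 (abs_nonneg (z.2 - w.2))
  linarith

end C3L

open C3L in
theorem t_C3 (h3a : S_C3a) (hG1 : S_G1) (hG2 : S_G2) : S_C3 := by
  obtain ⟨c, K, hc, hK, hG⟩ := hG1
  obtain ⟨hU, hzc⟩ := hG2
  have hK0 : 0 < K := by linarith
  refine ⟨200000000 * K, min (c / 4) (1 / (160 * K)), by linarith, by positivity, ?_⟩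
  intro ρ p z hρ hz hC
  set δ := min (c / 4) (1 / (160 * K)) with hδ
  have hδ1 : 4 * δ ≤ c := by
    have := min_le_left (c / 4) (1 / (160 * K))
    linarith
  have hδ2 : K * (2 * δ) ≤ 1 / 80 := by
    have h1 := min_le_right (c / 4) (1 / (160 * K))
    rw [← hδ] at h1
    have h2 : K * (2 * δ) ≤ K * (2 * (1 / (160 * K))) := by
      apply mul_le_mul_of_nonneg_left _ hK0.le
      linarith
    refine h2.trans (le_of_eq ?_)
    field_simp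
    norm_num
  -- critical points near p
  have hnear : ∀ n : ℝ × ℝ, |n.1 - p.1| ≤ δ → |n.2 - p.2| ≤ δ →
      IsC ρ n.1 n.2 (zc ρ n.1 n.2) ∧ zc ρ n.1 n.2 ∈ bx 20 := by
    intro n h1 h2
    obtain ⟨c1, c2, c3, c4⟩ := hC
    have e1 : |4 * z.1 * z.2 + 2 * ρ * z.2 ^ 2 - n.1| ≤ δ := by
      rw [c3, abs_sub_comm]; exact h1
    have e2 : |2 * z.1 ^ 2 + 4 * ρ * z.1 * z.2 - n.2| ≤ δ := by
      rw [c4, abs_sub_comm]; exact h2
    have hδ0 : 0 ≤ δ := (abs_nonneg _).trans h1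
    obtain ⟨w, hw1, hw2⟩ := hG ρ n.1 n.2 z hρ (bx_mono (by norm_num) (by norm_num) hz)
      (by linarith)
    have hw3 : |w.1 - z.1| + |w.2 - z.2| ≤ 1 / 80 := by
      refine hw2.trans (le_trans (mul_le_mul_of_nonneg_left ?_ hK0.le) hδ2)
      linarith
    have hzw := hzc ρ n.1 n.2 w hw1
    rw [hzw]
    refine ⟨hw1, ?_⟩
    obtain ⟨⟨z1, z2⟩, z3, z4⟩ := hz
    have f1 := abs_le.1 (le_trans (le_add_of_nonneg_right (abs_nonneg _)) hw3)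
    have f2 := abs_le.1 (le_trans (le_add_of_nonneg_left (abs_nonneg _)) hw3)
    refine ⟨⟨?_, ?_⟩, ?_, ?_⟩ <;> linarith [f1.1, f1.2, f2.1, f2.2]
  -- Lipschitz
  have hlip : ∀ n n' : ℝ × ℝ, |n.1 - p.1| ≤ δ → |n.2 - p.2| ≤ δ → |n'.1 - p.1| ≤ δ →
      |n'.2 - p.2| ≤ δ → |(zc ρ n.1 n.2).1 - (zc ρ n'.1 n'.2).1| +
        |(zc ρ n.1 n.2).2 - (zc ρ n'.1 n'.2).2| ≤ K * (|n.1 - n'.1| + |n.2 - n'.2|) := by
    intro n n' h1 h2 h3 h4
    obtain ⟨⟨c1, c2, c3, c4⟩, hb⟩ := hnear n' h3 h4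
    have e1 : |4 * (zc ρ n'.1 n'.2).1 * (zc ρ n'.1 n'.2).2 + 2 * ρ * (zc ρ n'.1 n'.2).2 ^ 2 - n.1|
        = |n.1 - n'.1| := by
      rw [c3, abs_sub_comm]
    have e2 : |2 * (zc ρ n'.1 n'.2).1 ^ 2 + 4 * ρ * (zc ρ n'.1 n'.2).1 * (zc ρ n'.1 n'.2).2 - n.2|
        = |n.2 - n'.2| := by
      rw [c4, abs_sub_comm]
    have g1 : |n.1 - n'.1| ≤ 2 * δ := by
      have : n.1 - n'.1 = (n.1 - p.1) - (n'.1 - p.1) := by ring
      rw [this]
      exact (abs_sub _ _).trans (by linarith)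
    have g2 : |n.2 - n'.2| ≤ 2 * δ := by
      have : n.2 - n'.2 = (n.2 - p.2) - (n'.2 - p.2) := by ring
      rw [this]
      exact (abs_sub _ _).trans (by linarith)
    obtain ⟨w, hw1, hw2⟩ := hG ρ n.1 n.2 (zc ρ n'.1 n'.2) hρ
      (bx_mono (by norm_num) (by norm_num) hb) (by rw [e1, e2]; linarith)
    rw [e1, e2] at hw2
    rwa [hzc ρ n.1 n.2 w hw1]
  refine ⟨fun n => (zc ρ n.1 n.2).1, fun n => (zc ρ n.1 n.2).2,
    fun n => (-(ρ * (zc ρ n.1 n.2).1)) / (4 * qq ρ (zc ρ n.1 n.2)),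
    fun n => ((zc ρ n.1 n.2).1 + ρ * (zc ρ n.1 n.2).2) / (4 * qq ρ (zc ρ n.1 n.2)),
    fun n => (-(zc ρ n.1 n.2).2) / (4 * qq ρ (zc ρ n.1 n.2)), ?_⟩
  intro n h1 h2
  obtain ⟨hCn, hbn⟩ := hnear n h1 h2
  obtain ⟨d1, d2, d3⟩ := h3a ρ n (zc ρ n.1 n.2) hρ (bx_mono (by norm_num) (by norm_num) hbn) hCn
  have hql := qq_lower (ρ := ρ) hbn
  have hqu := qq_upper hρ hbn
  have hbd : ∀ n' : ℝ × ℝ, |n'.1 - p.1| ≤ δ → |n'.2 - p.2| ≤ δ →
      |-(ρ * (zc ρ n'.1 n'.2).1)| ≤ 40 ∧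
      |(zc ρ n'.1 n'.2).1 + ρ * (zc ρ n'.1 n'.2).2| ≤ 40 ∧ |-(zc ρ n'.1 n'.2).2| ≤ 40 := by
    intro n' h3 h4
    obtain ⟨-, ⟨k1, k2⟩, k3, k4⟩ := hnear n' h3 h4
    set w := zc ρ n'.1 n'.2
    have a3 : |w.1| ≤ 20 := abs_le.2 ⟨by linarith [show (0:ℝ) < 1 / 20 by norm_num], k2⟩
    have a4 : |w.2| ≤ 20 := abs_le.2 ⟨by linarith [show (0:ℝ) < 1 / 20 by norm_num], k4⟩
    have b3 := mul_le_mul hρ a3 (abs_nonneg _) zero_le_one
    have b4 := mul_le_mul hρ a4 (abs_nonneg _) zero_le_one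
    refine ⟨?_, ?_, ?_⟩
    · rw [abs_neg, abs_mul]; linarith
    · refine (abs_add_le _ _).trans ?_
      rw [abs_mul]; linarith
    · rw [abs_neg]; linarith
  have hquot : ∀ N q : ℝ, |N| ≤ 40 → 3 / 1600 ≤ q → |N / (4 * q)| ≤ 200000000 * K := by
    intro N q hN hq
    have q0 : 0 < q := by linarith
    rw [abs_div, abs_of_pos (show 0 < 4 * q by positivity), div_le_iff₀ (by positivity)]
    nlinarith [mul_le_mul hK hq (by norm_num) hK0.le]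
  obtain ⟨b1, b2, b3⟩ := hbd n h1 h2
  refine ⟨d1, d2, d3, hquot _ _ b1 hql, hquot _ _ b2 hql, hquot _ _ b3 hql, ?_, ?_⟩
  · have q0 : 0 < qq ρ (zc ρ n.1 n.2) := by linarith
    have e : -(ρ * (zc ρ n.1 n.2).1) / (4 * qq ρ (zc ρ n.1 n.2)) *
        (-(zc ρ n.1 n.2).2 / (4 * qq ρ (zc ρ n.1 n.2))) -
        (((zc ρ n.1 n.2).1 + ρ * (zc ρ n.1 n.2).2) / (4 * qq ρ (zc ρ n.1 n.2))) ^ 2 =
        - (1 / (16 * qq ρ (zc ρ n.1 n.2))) := by
      have e1 : -(ρ * (zc ρ n.1 n.2).1) * -(zc ρ n.1 n.2).2 -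
          ((zc ρ n.1 n.2).1 + ρ * (zc ρ n.1 n.2).2) ^ 2 = - qq ρ (zc ρ n.1 n.2) := by
        unfold qq
        ring
      rw [div_pow, div_mul_div_comm, show (4 * qq ρ (zc ρ n.1 n.2)) ^ 2 =
        4 * qq ρ (zc ρ n.1 n.2) * (4 * qq ρ (zc ρ n.1 n.2)) by ring, ← sub_div, e1]
      field_simp
      norm_num
    simp only
    rw [e, abs_neg, abs_of_pos (by positivity)]
    apply one_div_le_one_div_of_le (by positivity)
    nlinarith
  · intro n' h3 h4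
    have hl := hlip n n' h1 h2 h3 h4
    obtain ⟨hCn', hbn'⟩ := hnear n' h3 h4
    have hql' := qq_lower (ρ := ρ) hbn'
    have hqd := qq_diff hρ hbn hbn'
    obtain ⟨b1', b2', b3'⟩ := hbd n' h3 h4
    set w := zc ρ n.1 n.2
    set w' := zc ρ n'.1 n'.2
    set d := |w.1 - w'.1| + |w.2 - w'.2| with hd
    have hfin : 200000000 * d ≤ 200000000 * K * (|n.1 - n'.1| + |n.2 - n'.2|) := by
      have := mul_le_mul_of_nonneg_left hl (show (0:ℝ) ≤ 200000000 by norm_num)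
      rw [← mul_assoc] at this
      exact this
    have r1 : |ρ| * |w.1 - w'.1| ≤ |w.1 - w'.1| := by
      have := mul_le_mul_of_nonneg_right hρ (abs_nonneg (w.1 - w'.1))
      linarith
    have r2 : |ρ| * |w.2 - w'.2| ≤ |w.2 - w'.2| := by
      have := mul_le_mul_of_nonneg_right hρ (abs_nonneg (w.2 - w'.2))
      linarith
    refine ⟨(quot_diff b1' ?_ hql hql' hqd).trans hfin, (quot_diff b2' ?_ hql hql' hqd).trans hfin,
      (quot_diff b3' ?_ hql hql' hqd).trans hfin⟩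
    · rw [show -(ρ * w.1) - -(ρ * w'.1) = -(ρ * (w.1 - w'.1)) by ring, abs_neg, abs_mul]
      have := abs_nonneg (w.2 - w'.2)
      linarith
    · rw [show w.1 + ρ * w.2 - (w'.1 + ρ * w'.2) = (w.1 - w'.1) + ρ * (w.2 - w'.2) by ring]
      refine (abs_add_le _ _).trans ?_
      rw [abs_mul]
      linarith
    · rw [show -w.2 - -w'.2 = -(w.2 - w'.2) by ring, abs_neg]
      have := abs_nonneg (w.1 - w'.1)
      linarith

end Pool.Agent.H304R4.CM
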