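import Mathlib
import Pool.Agent.H304R4.CM.Stubs

/-! # TEAM CM, task C3a: derivatives of the critical point and of the critical value. -/

open Complex MeasureTheory Filter Topology

namespace Pool.Agent.H304R4.CM.C3a

/-- the Hessian -/
noncomputable def f1 (ρ : ℝ) (z : ℝ × ℝ) : ℝ × ℝ →L[ℝ] ℝ × ℝ :=
  ((4 * z.2) • ContinuousLinearMap.fst ℝ ℝ ℝ +
    (4 * z.1 + 4 * ρ * z.2) • ContinuousLinearMap.snd ℝ ℝ ℝ).prod
  ((4 * z.1 + 4 * ρ * z.2) • ContinuousLinearMap.fst ℝ ℝ ℝ +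
    (4 * ρ * z.1) • ContinuousLinearMap.snd ℝ ℝ ℝ)

/-- the inverse of the Hessian -/
noncomputable def f2 (ρ : ℝ) (z : ℝ × ℝ) : ℝ × ℝ →L[ℝ] ℝ × ℝ :=
  ((-(ρ * z.1) / (4 * qq ρ z)) • ContinuousLinearMap.fst ℝ ℝ ℝ +
    ((z.1 + ρ * z.2) / (4 * qq ρ z)) • ContinuousLinearMap.snd ℝ ℝ ℝ).prod
  (((z.1 + ρ * z.2) / (4 * qq ρ z)) • ContinuousLinearMap.fst ℝ ℝ ℝ +
    (-z.2 / (4 * qq ρ z)) • ContinuousLinearMap.snd ℝ ℝ ℝ)

theorem left_inv (ρ : ℝ) (z : ℝ × ℝ) (hq : qq ρ z ≠ 0) :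
    Function.LeftInverse (f2 ρ z) (f1 ρ z) := by
  intro v
  have hq' : qq ρ z = z.1 ^ 2 + ρ * z.1 * z.2 + ρ ^ 2 * z.2 ^ 2 := rfl
  ext
  · simp only [f1, f2, ContinuousLinearMap.prod_apply, add_apply,
      smul_apply, ContinuousLinearMap.coe_fst', ContinuousLinearMap.coe_snd',
      smul_eq_mul]
    field_simp
    rw [hq']; ring
  · simp only [f1, f2, ContinuousLinearMap.prod_apply, add_apply,
      smul_apply, ContinuousLinearMap.coe_fst', ContinuousLinearMap.coe_snd',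
      smul_eq_mul]
    field_simp
    rw [hq']; ring

theorem right_inv (ρ : ℝ) (z : ℝ × ℝ) (hq : qq ρ z ≠ 0) :
    Function.RightInverse (f2 ρ z) (f1 ρ z) := by
  intro v
  have hq' : qq ρ z = z.1 ^ 2 + ρ * z.1 * z.2 + ρ ^ 2 * z.2 ^ 2 := rfl
  ext
  · simp only [f1, f2, ContinuousLinearMap.prod_apply, add_apply,
      smul_apply, ContinuousLinearMap.coe_fst', ContinuousLinearMap.coe_snd',
      smul_eq_mul]
    field_simp
    rw [hq']; ring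
  · simp only [f1, f2, ContinuousLinearMap.prod_apply, add_apply,
      smul_apply, ContinuousLinearMap.coe_fst', ContinuousLinearMap.coe_snd',
      smul_eq_mul]
    field_simp
    rw [hq']; ring

/-- the gradient of the cubic form -/
noncomputable def gr (ρ : ℝ) (z : ℝ × ℝ) : ℝ × ℝ :=
  (4 * z.1 * z.2 + 2 * ρ * z.2 ^ 2, 2 * z.1 ^ 2 + 4 * ρ * z.1 * z.2)

theorem gr_deriv (ρ : ℝ) (z : ℝ × ℝ) : HasFDerivAt (gr ρ) (f1 ρ z) z := by
  have hx : HasFDerivAt (fun z : ℝ × ℝ => z.1) (ContinuousLinearMap.fst ℝ ℝ ℝ) z :=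
    hasFDerivAt_fst
  have hy : HasFDerivAt (fun z : ℝ × ℝ => z.2) (ContinuousLinearMap.snd ℝ ℝ ℝ) z :=
    hasFDerivAt_snd
  refine HasFDerivAt.prodMk ?_ ?_
  · have := ((hx.const_mul 4).mul hy).add ((hy.pow 2).const_mul (2 * ρ))
    refine this.congr_fderiv ?_
    ext <;> simp <;> ring
  · have := ((hx.pow 2).const_mul 2).add ((hx.const_mul (4 * ρ)).mul hy)
    refine this.congr_fderiv ?_
    ext <;> simp <;> ring

theorem PP_deriv (ρ : ℝ) (z : ℝ × ℝ) : HasFDerivAt (fun z : ℝ × ℝ => PP ρ z.1 z.2)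
    ((gr ρ z).1 • ContinuousLinearMap.fst ℝ ℝ ℝ + (gr ρ z).2 • ContinuousLinearMap.snd ℝ ℝ ℝ)
    z := by
  have hx : HasFDerivAt (fun z : ℝ × ℝ => z.1) (ContinuousLinearMap.fst ℝ ℝ ℝ) z :=
    hasFDerivAt_fst
  have hy : HasFDerivAt (fun z : ℝ × ℝ => z.2) (ContinuousLinearMap.snd ℝ ℝ ℝ) z :=
    hasFDerivAt_snd
  have := (((hx.pow 2).const_mul 2).mul hy).add ((hx.const_mul (2 * ρ)).mul (hy.pow 2))
  refine this.congr_fderiv ?_
  ext <;> simp [gr] <;> ring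

end C3a

open C3a in
theorem t_C3a (hG1 : S_G1) (hG2 : S_G2) : S_C3a := by
  intro ρ n z hρ hz hC
  obtain ⟨c, K, hc, hK, h1⟩ := hG1
  have hz0 := hC.1
  have hq : qq ρ z ≠ 0 := by
    have hq' : qq ρ z = z.1 ^ 2 + ρ * z.1 * z.2 + ρ ^ 2 * z.2 ^ 2 := rfl
    have : 0 < qq ρ z := by rw [hq']; nlinarith [sq_nonneg (z.1 + 2 * (ρ * z.2)), hC.1, hC.2.1]
    exact this.ne'
  have hzn : zc ρ n.1 n.2 = z := hG2.2 _ _ _ _ hC
  have hz100 : z ∈ bx 100 := by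
    obtain ⟨⟨a1, a2⟩, a3, a4⟩ := hz
    refine ⟨⟨?_, ?_⟩, ?_, ?_⟩ <;> linarith
  have hgz : gr ρ z = n := Prod.ext hC.2.2.1 hC.2.2.2
  -- local description
  have hres : Tendsto (fun n' : ℝ × ℝ => |n.1 - n'.1| + |n.2 - n'.2|) (𝓝 n) (𝓝 0) := by
    have : Continuous (fun n' : ℝ × ℝ => |n.1 - n'.1| + |n.2 - n'.2|) := by fun_prop
    have h := this.tendsto n
    simpa using h
  have hloc : ∀ᶠ n' : ℝ × ℝ in 𝓝 n, IsC ρ n'.1 n'.2 (zc ρ n'.1 n'.2) ∧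
      |(zc ρ n'.1 n'.2).1 - z.1| + |(zc ρ n'.1 n'.2).2 - z.2| ≤
        K * (|n.1 - n'.1| + |n.2 - n'.2|) := by
    filter_upwards [hres.eventually (ge_mem_nhds hc)] with n' hn'
    have e1 : 4 * z.1 * z.2 + 2 * ρ * z.2 ^ 2 = n.1 := hC.2.2.1
    have e2 : 2 * z.1 ^ 2 + 4 * ρ * z.1 * z.2 = n.2 := hC.2.2.2
    obtain ⟨w, hw, hw2⟩ := h1 ρ n'.1 n'.2 z hρ hz100 (by rw [e1, e2]; exact hn')
    rw [hG2.2 _ _ _ _ hw]
    rw [e1, e2] at hw2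
    exact ⟨hw, hw2⟩
  have hcont : ContinuousAt (fun n' : ℝ × ℝ => zc ρ n'.1 n'.2) n := by
    have hb : Tendsto (fun n' : ℝ × ℝ => K * (|n.1 - n'.1| + |n.2 - n'.2|)) (𝓝 n) (𝓝 0) := by
      simpa using hres.const_mul K
    have c1 : Tendsto (fun n' : ℝ × ℝ => (zc ρ n'.1 n'.2).1 - z.1) (𝓝 n) (𝓝 0) := by
      refine squeeze_zero_norm' ?_ hb
      filter_upwards [hloc] with n' hn'
      rw [Real.norm_eq_abs]
      have := abs_nonneg ((zc ρ n'.1 n'.2).2 - z.2)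
      linarith [hn'.2]
    have c2 : Tendsto (fun n' : ℝ × ℝ => (zc ρ n'.1 n'.2).2 - z.2) (𝓝 n) (𝓝 0) := by
      refine squeeze_zero_norm' ?_ hb
      filter_upwards [hloc] with n' hn'
      rw [Real.norm_eq_abs]
      have := abs_nonneg ((zc ρ n'.1 n'.2).1 - z.1)
      linarith [hn'.2]
    have c1' : Tendsto (fun n' : ℝ × ℝ => (zc ρ n'.1 n'.2).1) (𝓝 n) (𝓝 z.1) := by
      simpa using c1.add_const z.1
    have c2' : Tendsto (fun n' : ℝ × ℝ => (zc ρ n'.1 n'.2).2) (𝓝 n) (𝓝 z.2) := by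
      simpa using c2.add_const z.2
    have e : (fun n' : ℝ × ℝ => zc ρ n'.1 n'.2) n = z := hzn
    unfold ContinuousAt
    rw [e]
    exact c1'.prodMk_nhds c2'
  have hD : HasFDerivAt (fun n' : ℝ × ℝ => zc ρ n'.1 n'.2) (f2 ρ z) n := by
    have hg : HasFDerivAt (gr ρ)
        ((ContinuousLinearEquiv.equivOfInverse (f1 ρ z) (f2 ρ z) (left_inv ρ z hq)
          (right_inv ρ z hq) : (ℝ × ℝ) ≃L[ℝ] (ℝ × ℝ)) : ℝ × ℝ →L[ℝ] ℝ × ℝ)
        (zc ρ n.1 n.2) := by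
      rw [hzn]
      exact gr_deriv ρ z
    have := HasFDerivAt.of_local_left_inverse (g := fun n' : ℝ × ℝ => zc ρ n'.1 n'.2) hcont hg (by
      filter_upwards [hloc] with n' hn'
      exact Prod.ext hn'.1.2.2.1 hn'.1.2.2.2)
    exact this
  have hD1 := (hasFDerivAt_fst (𝕜 := ℝ) (p := zc ρ n.1 n.2)).comp n hD
  have hD2 := (hasFDerivAt_snd (𝕜 := ℝ) (p := zc ρ n.1 n.2)).comp n hD
  refine ⟨?_, ?_, ?_⟩
  · have hP : HasFDerivAt (fun z : ℝ × ℝ => PP ρ z.1 z.2)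
        (n.1 • ContinuousLinearMap.fst ℝ ℝ ℝ + n.2 • ContinuousLinearMap.snd ℝ ℝ ℝ)
        (zc ρ n.1 n.2) := by
      rw [hzn]
      have := PP_deriv ρ z
      rwa [hgz] at this
    have hF := (hP.comp n hD).const_mul 2
    have hF' : HasFDerivAt (Fc ρ) ((2 : ℝ) •
        ((n.1 • ContinuousLinearMap.fst ℝ ℝ ℝ + n.2 • ContinuousLinearMap.snd ℝ ℝ ℝ).comp
          (f2 ρ z))) n := hF
    refine hF'.congr_fderiv ?_
    have hq' : qq ρ z = z.1 ^ 2 + ρ * z.1 * z.2 + ρ ^ 2 * z.2 ^ 2 := rfl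
    have e1 : n.1 = 4 * z.1 * z.2 + 2 * ρ * z.2 ^ 2 := hC.2.2.1.symm
    have e2 : n.2 = 2 * z.1 ^ 2 + 4 * ρ * z.1 * z.2 := hC.2.2.2.symm
    ext
    · simp [f2]
      rw [e1, e2]
      field_simp
      rw [hq']; ring
    · simp [f2]
      rw [e1, e2]
      field_simp
      rw [hq']; ring
  · refine HasFDerivAt.congr_fderiv hD1 ?_
    ext <;> simp [f2]
  · refine HasFDerivAt.congr_fderiv hD2 ?_
    ext <;> simp [f2]

end Pool.Agent.H304R4.CM
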