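import Pool.Agent.H304R4.CM.Stubs

/-! # CM C4: counting in a strip -/

open Complex MeasureTheory Filter Topology

namespace Pool.Agent.H304R4.CM

theorem C4_aux_Icc (a X : ℝ) (hX : 0 ≤ X) : ((Finset.Icc ⌈a⌉ ⌊a + X⌋).card : ℝ) ≤ X + 1 := by
  rw [Int.card_Icc]
  have h1 := Int.le_ceil a
  have h2 := Int.floor_le (a + X)
  by_cases h : 0 ≤ ⌊a + X⌋ + 1 - ⌈a⌉
  · have h3 : (((⌊a + X⌋ + 1 - ⌈a⌉).toNat : ℕ) : ℝ) = ((⌊a + X⌋ + 1 - ⌈a⌉ : ℤ) : ℝ) := by
      have : (((⌊a + X⌋ + 1 - ⌈a⌉).toNat : ℤ)) = ⌊a + X⌋ + 1 - ⌈a⌉ := Int.toNat_of_nonneg h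
      exact_mod_cast this
    rw [h3]
    push_cast
    linarith
  · have : (⌊a + X⌋ + 1 - ⌈a⌉).toNat = 0 := Int.toNat_of_nonpos (by omega)
    rw [this]
    push_cast
    linarith

theorem C4_aux_count (S : Finset (ℤ × ℤ)) (x₀ X r₀ l β : ℝ) (hX : 0 ≤ X) (hl : 0 ≤ l)
    (h1 : ∀ ν ∈ S, x₀ ≤ (ν.1 : ℝ) ∧ (ν.1 : ℝ) ≤ x₀ + X)
    (h2 : ∀ ν ∈ S, r₀ ≤ (ν.2 : ℝ) - β * ν.1 ∧ (ν.2 : ℝ) - β * ν.1 ≤ r₀ + l) :
    (S.card : ℝ) ≤ (X + 1) * (l + 1) := by
  classical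
  have himg : S.image Prod.fst ⊆ Finset.Icc ⌈x₀⌉ ⌊x₀ + X⌋ := by
    intro a ha
    rw [Finset.mem_image] at ha
    obtain ⟨ν, hν, rfl⟩ := ha
    rw [Finset.mem_Icc]
    exact ⟨Int.ceil_le.2 (h1 ν hν).1, Int.le_floor.2 (h1 ν hν).2⟩
  have hfib : ∀ a ∈ S.image Prod.fst, (S.filter (fun ν => ν.1 = a)).card ≤ ⌊l + 1⌋₊ := by
    intro a _
    have hinj : ((S.filter (fun ν => ν.1 = a)).image Prod.snd).card
        = (S.filter (fun ν => ν.1 = a)).card := by
      apply Finset.card_image_of_injOn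
      intro ν hν ν' hν' hh
      rw [Finset.mem_coe, Finset.mem_filter] at hν hν'
      exact Prod.ext (hν.2.trans hν'.2.symm) hh
    have hsub : (S.filter (fun ν => ν.1 = a)).image Prod.snd ⊆
        Finset.Icc ⌈r₀ + β * a⌉ ⌊(r₀ + β * a) + l⌋ := by
      intro b hb
      rw [Finset.mem_image] at hb
      obtain ⟨ν, hν, rfl⟩ := hb
      rw [Finset.mem_filter] at hν
      have h3 := h2 ν hν.1
      rw [hν.2] at h3
      rw [Finset.mem_Icc]
      exact ⟨Int.ceil_le.2 (by linarith [h3.1]), Int.le_floor.2 (by linarith [h3.2])⟩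
    rw [← hinj]
    refine (Finset.card_le_card hsub).trans ?_
    exact Nat.le_floor (C4_aux_Icc _ _ hl)
  have h3 := Finset.card_le_mul_card_image S ⌊l + 1⌋₊ hfib
  have h4 : ((S.image Prod.fst).card : ℝ) ≤ X + 1 :=
    le_trans (by exact_mod_cast Finset.card_le_card himg) (C4_aux_Icc x₀ X hX)
  have h5 : ((⌊l + 1⌋₊ : ℕ) : ℝ) ≤ l + 1 := Nat.floor_le (by linarith)
  calc (S.card : ℝ) ≤ ((⌊l + 1⌋₊ * (S.image Prod.fst).card : ℕ) : ℝ) := by exact_mod_cast h3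
    _ = (⌊l + 1⌋₊ : ℝ) * ((S.image Prod.fst).card : ℝ) := by push_cast; ring
    _ ≤ (l + 1) * (X + 1) := mul_le_mul h5 h4 (Nat.cast_nonneg _) (by linarith)
    _ = (X + 1) * (l + 1) := by ring

theorem C4_aux_n {ρ n₁ n₂ : ℝ} {z : ℝ × ℝ} (hρ : |ρ| ≤ 1) (hz : z ∈ bx 16) (h : IsC ρ n₁ n₂ z) :
    |n₁| ≤ 1536 ∧ |n₂| ≤ 1536 := by
  obtain ⟨hx, hy, h1, h2⟩ := h
  obtain ⟨⟨_, a2⟩, _, b2⟩ := hz
  obtain ⟨r1, r2⟩ := abs_le.1 hρ
  have e1 : z.1 * z.2 ≤ 256 := by nlinarith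
  have e2 : z.2 ^ 2 ≤ 256 := by nlinarith
  have e3 : z.1 ^ 2 ≤ 256 := by nlinarith
  have e0 : 0 < z.1 * z.2 := mul_pos hx hy
  have p2 : 0 ≤ z.2 ^ 2 := sq_nonneg _
  have p1 : 0 ≤ z.1 ^ 2 := sq_nonneg _
  have f1 : |ρ * z.2 ^ 2| ≤ 256 := by
    rw [abs_mul, abs_of_nonneg p2]
    nlinarith [abs_nonneg ρ]
  have f2 : |ρ * (z.1 * z.2)| ≤ 256 := by
    rw [abs_mul, abs_of_pos e0]
    nlinarith [abs_nonneg ρ]
  rw [abs_le] at f1 f2
  constructor
  · rw [← h1, abs_le]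
    constructor <;> nlinarith
  · rw [← h2, abs_le]
    constructor <;> nlinarith

theorem C4_aux_conv (g : ℝ × ℝ → ℝ)
    (hg : ∀ (x y : ℝ × ℝ) (a b : ℝ), a + b = 1 → g (a • x + b • y) = a * g x + b * g y) (c d : ℝ) :
    Convex ℝ {t | c ≤ g t ∧ g t ≤ d} := by
  intro x hx y hy a b ha hb hab
  show c ≤ g (a • x + b • y) ∧ g (a • x + b • y) ≤ d
  rw [hg _ _ _ _ hab]
  have e1 := mul_le_mul_of_nonneg_left hx.1 ha
  have e2 := mul_le_mul_of_nonneg_left hy.1 hb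
  have e3 := mul_le_mul_of_nonneg_left hx.2 ha
  have e4 := mul_le_mul_of_nonneg_left hy.2 hb
  have e5 : a * c + b * c = c := by rw [← add_mul, hab, one_mul]
  have e6 : a * d + b * d = d := by rw [← add_mul, hab, one_mul]
  constructor <;> linarith

theorem t_C4 (h3 : S_C3) (h4a : S_C4a) : S_C4 := by
  classical
  intro K₂ hK₂
  obtain ⟨K₀, δ, hK₀, hδ, hreg⟩ := h3
  obtain ⟨δ', K, hδ', hδ'δ, hK, hmain⟩ := h4a K₀ δ K₂ hK₀ hδ hK₂
  set A : ℤ := ⌈1536 / δ'⌉ + 1 with hA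
  set cells : Finset (ℤ × ℤ) := Finset.Icc (-A) A ×ˢ Finset.Icc (-A) A with hcells
  refine ⟨6146 + cells.card * K, ?_, ?_⟩
  · have : (0 : ℝ) ≤ cells.card * K := by positivity
    linarith
  intro ρ Λ G V₁ V₂ Φ d₁ d₂ l β r₀ hρ hG hΛ hV₁ hV₂ hΦ hl hlK hβ S hS
  have hG0 : 0 < G := by linarith
  have hΛ0 : 0 < Λ := by linarith
  have hV₁0 : 0 < V₁ := lt_of_lt_of_le (by positivity) hV₁.1
  have hV₂0 : 0 < V₂ := lt_of_lt_of_le (by positivity) hV₂.1
  have hl0 : 0 < l := by linarith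
  have hn : ∀ ν ∈ S, |(ν.1 : ℝ) / V₁ + d₁| ≤ 1536 ∧ |(ν.2 : ℝ) / V₂ + d₂| ≤ 1536 := by
    intro ν hν
    obtain ⟨⟨z, hz, hc⟩, _⟩ := hS ν hν
    exact C4_aux_n hρ hz hc
  have hcK : (0 : ℝ) ≤ cells.card * K := by positivity
  constructor
  · -- the number of frequencies
    have h1 := C4_aux_count S ((-1536 - d₁) * V₁) (3072 * V₁) r₀ l β (by positivity) hl0.le
      (by
        intro ν hν
        have h2 := abs_le.1 (hn ν hν).1
        have h5 : (ν.1 : ℝ) / V₁ * V₁ = ν.1 := by field_simp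
        constructor
        · have := mul_le_mul_of_nonneg_right (show -1536 - d₁ ≤ (ν.1 : ℝ) / V₁ by linarith [h2.1]) hV₁0.le
          rw [h5] at this
          exact this
        · have := mul_le_mul_of_nonneg_right (show (ν.1 : ℝ) / V₁ ≤ 1536 - d₁ by linarith [h2.2]) hV₁0.le
          rw [h5] at this
          nlinarith)
      (fun ν hν => (hS ν hν).2)
    have hGL : 1 ≤ Λ * G := by nlinarith
    have h6 : 3072 * V₁ + 1 ≤ 3073 * (Λ * G) := by nlinarith [hV₁.2]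
    have h7 : l + 1 ≤ 2 * l := by linarith
    calc (S.card : ℝ) ≤ (3072 * V₁ + 1) * (l + 1) := h1
      _ ≤ (3073 * (Λ * G)) * (2 * l) := mul_le_mul h6 h7 (by positivity) (by positivity)
      _ = 6146 * (G * Λ * l) := by ring
      _ ≤ (6146 + cells.card * K) * (G * Λ * l) :=
          mul_le_mul_of_nonneg_right (by linarith) (by positivity)
      _ = (6146 + cells.card * K) * G * Λ * l := by ring
  · intro τ hτ hτl
    set F : Finset (ℤ × ℤ) := S.filter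
      (fun ν => nd (Φ * Fc ρ ((ν.1 : ℝ) / V₁ + d₁, (ν.2 : ℝ) / V₂ + d₂)) ≤ τ) with hF
    let cell : ℤ × ℤ → ℤ × ℤ := fun ν =>
      (⌊((ν.1 : ℝ) / V₁ + d₁) / δ'⌋, ⌊((ν.2 : ℝ) / V₂ + d₂) / δ'⌋)
    set Bd : ℝ := K * G ^ 11 * Λ * l * (τ + l ^ (-1 / 2 : ℝ)) with hBd
    have hBd0 : 0 ≤ Bd := by
      have : (0 : ℝ) ≤ l ^ (-1 / 2 : ℝ) := Real.rpow_nonneg hl0.le _
      positivity
    have hidx : ∀ u : ℝ, |u| ≤ 1536 → ⌊u / δ'⌋ ∈ Finset.Icc (-A) A := by
      intro u hu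
      have h1 := abs_le.1 hu
      have h2 := Int.le_ceil (1536 / δ')
      have h3 : -(1536 / δ') ≤ u / δ' := by
        rw [← neg_div]
        exact div_le_div_of_nonneg_right h1.1 hδ'.le
      have h4 : u / δ' ≤ 1536 / δ' := div_le_div_of_nonneg_right h1.2 hδ'.le
      rw [Finset.mem_Icc]
      constructor
      · apply Int.le_floor.2
        rw [hA]
        push_cast
        linarith
      · have h5 : ⌊u / δ'⌋ ≤ ⌈1536 / δ'⌉ := by
          have h6 := Int.floor_le (u / δ')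
          have h7 : ((⌊u / δ'⌋ : ℤ) : ℝ) ≤ ((⌈1536 / δ'⌉ : ℤ) : ℝ) := by linarith
          exact_mod_cast h7
        omega
    have hmaps : ∀ ν ∈ F, cell ν ∈ cells := by
      intro ν hν
      have hνS : ν ∈ S := (Finset.mem_filter.1 hν).1
      rw [hcells, Finset.mem_product]
      exact ⟨hidx _ (hn ν hνS).1, hidx _ (hn ν hνS).2⟩
    have hcard := Finset.card_eq_sum_card_fiberwise (f := cell) (s := F) (t := cells) hmaps
    have hone : ∀ c ∈ cells, ((F.filter (fun ν => cell ν = c)).card : ℝ) ≤ Bd := by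
      intro c _
      by_cases hne : (F.filter (fun ν => cell ν = c)).Nonempty
      · obtain ⟨ν₀, hν₀⟩ := hne
        rw [Finset.mem_filter] at hν₀
        have hν₀S : ν₀ ∈ S := (Finset.mem_filter.1 hν₀.1).1
        obtain ⟨⟨z, hz, hc⟩, _⟩ := hS ν₀ hν₀S
        have hR := hreg ρ ((ν₀.1 : ℝ) / V₁ + d₁, (ν₀.2 : ℝ) / V₂ + d₂) z hρ hz hc
        have hcellmem : ∀ ν : ℤ × ℤ, cell ν = c →
            ((c.1 : ℝ) * δ' ≤ (ν.1 : ℝ) / V₁ + d₁ ∧ (ν.1 : ℝ) / V₁ + d₁ ≤ ((c.1 : ℝ) + 1) * δ') ∧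
            ((c.2 : ℝ) * δ' ≤ (ν.2 : ℝ) / V₂ + d₂ ∧ (ν.2 : ℝ) / V₂ + d₂ ≤ ((c.2 : ℝ) + 1) * δ') := by
          intro ν hν
          have hgen : ∀ u : ℝ, ∀ k : ℤ, ⌊u / δ'⌋ = k →
              (k : ℝ) * δ' ≤ u ∧ u ≤ ((k : ℝ) + 1) * δ' := by
            intro u k hk
            have h1 := Int.floor_le (u / δ')
            have h2 := (Int.lt_floor_add_one (u / δ')).le
            rw [hk] at h1 h2
            exact ⟨(le_div_iff₀ hδ').1 h1, (div_le_iff₀ hδ').1 h2⟩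
          rw [Prod.ext_iff] at hν
          exact ⟨hgen _ _ hν.1, hgen _ _ hν.2⟩
        have hp := hcellmem ν₀ hν₀.2
        let E : Set (ℝ × ℝ) := ({t | (c.1 : ℝ) * δ' ≤ t.1 / V₁ + d₁ ∧ t.1 / V₁ + d₁ ≤ ((c.1 : ℝ) + 1) * δ'} ∩
          {t | (c.2 : ℝ) * δ' ≤ t.2 / V₂ + d₂ ∧ t.2 / V₂ + d₂ ≤ ((c.2 : ℝ) + 1) * δ'}) ∩
          {t | r₀ ≤ t.2 - β * t.1 ∧ t.2 - β * t.1 ≤ r₀ + l}
        have hEconv : Convex ℝ E := by
          refine Convex.inter (Convex.inter ?_ ?_) ?_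
          · apply C4_aux_conv (fun t => t.1 / V₁ + d₁)
            intro x y a b hab
            simp only [Prod.fst_add, Prod.smul_fst, smul_eq_mul]
            have : d₁ = a * d₁ + b * d₁ := by rw [← add_mul, hab, one_mul]
            linear_combination this
          · apply C4_aux_conv (fun t => t.2 / V₂ + d₂)
            intro x y a b hab
            simp only [Prod.snd_add, Prod.smul_snd, smul_eq_mul]
            have : d₂ = a * d₂ + b * d₂ := by rw [← add_mul, hab, one_mul]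
            linear_combination this
          · apply C4_aux_conv (fun t => t.2 - β * t.1)
            intro x y a b _
            simp only [Prod.snd_add, Prod.smul_snd, Prod.fst_add, Prod.smul_fst, smul_eq_mul]
            ring
        have hEbox : ∀ t ∈ E, |t.1 / V₁ + d₁ - ((ν₀.1 : ℝ) / V₁ + d₁)| ≤ δ' ∧
            |t.2 / V₂ + d₂ - ((ν₀.2 : ℝ) / V₂ + d₂)| ≤ δ' := by
          rintro t ⟨⟨⟨a1, a2⟩, b1, b2⟩, _⟩
          obtain ⟨⟨p1, p2⟩, p3, p4⟩ := hp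
          constructor
          · rw [abs_le]; constructor <;> linarith
          · rw [abs_le]; constructor <;> linarith
        have hEw : ∀ t ∈ E, ∀ t' ∈ E, |(t'.2 - t.2) - β * (t'.1 - t.1)| ≤ l := by
          rintro t ⟨_, a1, a2⟩ t' ⟨_, b1, b2⟩
          rw [abs_le]
          constructor <;> linarith
        have hfin : {ν : ℤ × ℤ | (((ν.1 : ℝ), (ν.2 : ℝ)) : ℝ × ℝ) ∈ E}.Finite := by
          obtain ⟨X₁, hX₁⟩ : ∃ X : ℝ, ∀ t ∈ E, |t.1| ≤ X := by
            refine ⟨V₁ * (|(c.1 : ℝ)| * δ' + δ' + |d₁|), ?_⟩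
            rintro t ⟨⟨⟨a1, a2⟩, _⟩, _⟩
            have h1 : |t.1 / V₁| ≤ |(c.1 : ℝ)| * δ' + δ' + |d₁| := by
              have q1 := neg_abs_le (c.1 : ℝ)
              have q2 := le_abs_self (c.1 : ℝ)
              have q3 := neg_abs_le d₁
              have q4 := le_abs_self d₁
              rw [abs_le]
              constructor <;> nlinarith
            have h2 : |t.1| = V₁ * |t.1 / V₁| := by
              rw [abs_div, abs_of_pos hV₁0]
              field_simp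
            rw [h2]
            exact mul_le_mul_of_nonneg_left h1 hV₁0.le
          obtain ⟨X₂, hX₂⟩ : ∃ X : ℝ, ∀ t ∈ E, |t.2| ≤ X := by
            refine ⟨V₂ * (|(c.2 : ℝ)| * δ' + δ' + |d₂|), ?_⟩
            rintro t ⟨⟨_, ⟨a1, a2⟩⟩, _⟩
            have h1 : |t.2 / V₂| ≤ |(c.2 : ℝ)| * δ' + δ' + |d₂| := by
              have q1 := neg_abs_le (c.2 : ℝ)
              have q2 := le_abs_self (c.2 : ℝ)
              have q3 := neg_abs_le d₂
              have q4 := le_abs_self d₂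
              rw [abs_le]
              constructor <;> nlinarith
            have h2 : |t.2| = V₂ * |t.2 / V₂| := by
              rw [abs_div, abs_of_pos hV₂0]
              field_simp
            rw [h2]
            exact mul_le_mul_of_nonneg_left h1 hV₂0.le
          have hint : ∀ (X : ℝ) (k : ℤ), |(k : ℝ)| ≤ X → k ∈ Set.Icc (-⌈X⌉) ⌈X⌉ := by
            intro X k hk
            have h1 := abs_le.1 hk
            have h2 := Int.le_ceil X
            constructor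
            · have : ((-⌈X⌉ : ℤ) : ℝ) ≤ (k : ℝ) := by push_cast; linarith
              exact_mod_cast this
            · have : (k : ℝ) ≤ ((⌈X⌉ : ℤ) : ℝ) := by linarith
              exact_mod_cast this
          refine Set.Finite.subset ((Set.finite_Icc (-⌈X₁⌉) ⌈X₁⌉).prod (Set.finite_Icc (-⌈X₂⌉) ⌈X₂⌉)) ?_
          intro ν hν
          exact ⟨hint _ _ (hX₁ _ hν), hint _ _ (hX₂ _ hν)⟩
        have hres := hmain (Fc ρ) ((ν₀.1 : ℝ) / V₁ + d₁, (ν₀.2 : ℝ) / V₂ + d₂) hR Λ G V₁ V₂ Φ d₁ d₂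
          l β hG hΛ hV₁ hV₂ hΦ hl hlK hβ E hfin.toFinset hEconv hEbox hEw
          (fun ν => by rw [Set.Finite.mem_toFinset]; rfl) τ hτ hτl
        refine le_trans ?_ hres
        have hsub : F.filter (fun ν => cell ν = c) ⊆ hfin.toFinset.filter
            (fun ν => nd (Φ * Fc ρ ((ν.1 : ℝ) / V₁ + d₁, (ν.2 : ℝ) / V₂ + d₂)) ≤ τ) := by
          intro ν hν
          rw [Finset.mem_filter] at hν
          obtain ⟨hνF, hνc⟩ := hν
          obtain ⟨hνS, hνn⟩ := Finset.mem_filter.1 hνF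
          rw [Finset.mem_filter, Set.Finite.mem_toFinset]
          refine ⟨?_, hνn⟩
          have hm := hcellmem ν hνc
          exact ⟨⟨hm.1, hm.2⟩, (hS ν hνS).2⟩
        exact_mod_cast Finset.card_le_card hsub
      · rw [Finset.not_nonempty_iff_eq_empty] at hne
        rw [hne]
        simpa using hBd0
    have htot : (F.card : ℝ) ≤ cells.card * Bd := by
      rw [hcard]
      push_cast
      refine (Finset.sum_le_sum hone).trans ?_
      rw [Finset.sum_const, nsmul_eq_mul]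
    calc (F.card : ℝ) ≤ cells.card * Bd := htot
      _ = (cells.card * K) * (G ^ 11 * Λ * l * (τ + l ^ (-1 / 2 : ℝ))) := by rw [hBd]; ring
      _ ≤ (6146 + cells.card * K) * (G ^ 11 * Λ * l * (τ + l ^ (-1 / 2 : ℝ))) := by
          apply mul_le_mul_of_nonneg_right (by linarith)
          have : (0 : ℝ) ≤ l ^ (-1 / 2 : ℝ) := Real.rpow_nonneg hl0.le _
          positivity
      _ = (6146 + cells.card * K) * G ^ 11 * Λ * l * (τ + l ^ (-1 / 2 : ℝ)) := by ring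

end Pool.Agent.H304R4.CM
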