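import Mathlib
import Pool.Agent.H304R4.CM.Stubs

/-! # C4a: counting in one cell -/

namespace Pool.Agent.H304R4.CM

namespace C4a

lemma sum_inv_sqrt (N : ℕ) : ∑ m ∈ Finset.Ico 1 (N + 1), 1 / √(m : ℝ) ≤ 2 * √(N : ℝ) := by
  induction N with
  | zero => simp
  | succ N ih =>
    rw [Finset.sum_Ico_succ_top (by omega)]
    have h1 : 0 < √((N + 1 : ℕ) : ℝ) := Real.sqrt_pos.2 (by positivity)
    have h2 : √((N + 1 : ℕ) : ℝ) ^ 2 = (N : ℝ) + 1 := by
      rw [Real.sq_sqrt (by positivity)]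
      push_cast
      ring
    have h3 : √(N : ℝ) ^ 2 = (N : ℝ) := Real.sq_sqrt (by positivity)
    have h4 : 0 ≤ √(N : ℝ) := Real.sqrt_nonneg _
    have h5 : 1 / √((N + 1 : ℕ) : ℝ) ≤ 2 * √((N + 1 : ℕ) : ℝ) - 2 * √(N : ℝ) := by
      rw [div_le_iff₀ h1]
      nlinarith [sq_nonneg (√((N + 1 : ℕ) : ℝ) - √(N : ℝ))]
    linarith

lemma sum_inv_sqrt' (N : ℕ) (hN : 1 ≤ N) : ∑ m ∈ Finset.Ico 1 N, 1 / √(m : ℝ) ≤ 2 * √(N : ℝ) := by
  obtain ⟨M, rfl⟩ : ∃ M, N = M + 1 := ⟨N - 1, by omega⟩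
  refine (sum_inv_sqrt M).trans ?_
  have : √(M : ℝ) ≤ √((M + 1 : ℕ) : ℝ) := Real.sqrt_le_sqrt (by push_cast; linarith)
  linarith

/-- the bound for one sum -/
lemma one_m (KC G Λ l w S : ℝ) (m : ℕ) (hKC : 1 ≤ KC) (hG : 1 ≤ G) (hΛ : 1 ≤ Λ) (hl : 1 ≤ l)
    (hw : 0 < w) (hwl : w ^ 2 = l) (hm : 1 ≤ m) (hm2 : KC * G ^ 3 * m ≤ Λ)
    (hS : ∀ Y : ℕ, 1 ≤ Y → (Y : ℝ) ≤ l → KC * G ^ 3 * m * Y ≤ Λ →
      S ^ 2 ≤ KC * G ^ 14 * (Λ * l) ^ 2 * (1 / Y ^ 2 + Λ / (m * Y * l))) :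
    S ≤ KC * G ^ 7 * (Λ * l) * (2 / l + 2 * KC * G ^ 3 * m / Λ + 2 * (√Λ * (1 / √(m : ℝ))) / l +
      2 * KC * G ^ 2 / w) := by
  have hmr : (1 : ℝ) ≤ m := by exact_mod_cast hm
  have hm0 : (0 : ℝ) < m := by linarith
  have hl0 : 0 < l := by linarith
  have hΛ0 : 0 < Λ := by linarith
  have hKC0 : 0 < KC := by linarith
  have hG0 : 0 < G := by linarith
  set D : ℝ := KC * G ^ 3 * m with hD
  have hD0 : 0 < D := by positivity
  set y0 : ℝ := min l (Λ / D) with hy0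
  have hy1 : 1 ≤ y0 := le_min hl ((one_le_div hD0).2 hm2)
  set Y : ℕ := ⌊y0⌋₊ with hY
  have hY1 : 1 ≤ Y := (Nat.one_le_floor_iff _).2 hy1
  have hYr : (1 : ℝ) ≤ Y := by exact_mod_cast hY1
  have hYy : (Y : ℝ) ≤ y0 := Nat.floor_le (by linarith)
  have hYy2 : y0 < Y + 1 := Nat.lt_floor_add_one y0
  have hY2 : y0 ≤ 2 * Y := by linarith
  have hYl : (Y : ℝ) ≤ l := hYy.trans (min_le_left _ _)
  have hYD : D * Y ≤ Λ := by
    have : (Y : ℝ) ≤ Λ / D := hYy.trans (min_le_right _ _)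
    rw [le_div_iff₀ hD0] at this
    linarith
  have h1 := hS Y hY1 hYl hYD
  have hu : 1 / (Y : ℝ) ≤ 2 / l + 2 * D / Λ := by
    have h2 : 1 / (Y : ℝ) ≤ 2 / y0 := by
      rw [div_le_div_iff₀ (by linarith) (by linarith)]
      linarith
    have h3 : 2 / y0 ≤ 2 / l + 2 * D / Λ := by
      rcases min_choice l (Λ / D) with h | h
      · rw [hy0, h]
        have : 0 ≤ 2 * D / Λ := by positivity
        linarith
      · rw [hy0, h]
        have h4 : 2 / (Λ / D) = 2 * D / Λ := by field_simp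
        rw [h4]
        have : 0 ≤ 2 / l := by positivity
        linarith
    exact h2.trans h3
  set A : ℝ := 2 / l + 2 * D / Λ with hA
  have hA0 : 0 ≤ A := by positivity
  set s : ℝ := √Λ * (1 / √(m : ℝ)) with hs
  have hs0 : 0 ≤ s := by positivity
  have hs2 : s ^ 2 = Λ / m := by
    rw [hs, mul_pow, div_pow, one_pow, Real.sq_sqrt hΛ0.le, Real.sq_sqrt hm0.le]
    ring
  have hv : Λ / (m * Y * l) ≤ 2 * s ^ 2 / l ^ 2 + 2 * KC * G ^ 3 / l := by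
    have h2 : Λ / (m * Y * l) = (Λ / (m * l)) * (1 / Y) := by field_simp
    rw [h2]
    calc (Λ / (m * l)) * (1 / Y) ≤ (Λ / (m * l)) * A := mul_le_mul_of_nonneg_left hu (by positivity)
      _ = 2 * s ^ 2 / l ^ 2 + 2 * KC * G ^ 3 / l := by
          rw [hA, hs2, hD]
          field_simp
  have hu2 : 1 / (Y : ℝ) ^ 2 ≤ A ^ 2 := by
    have h2 : 1 / (Y : ℝ) ^ 2 = (1 / (Y : ℝ)) ^ 2 := by rw [div_pow, one_pow]
    rw [h2]
    exact pow_le_pow_left₀ (by positivity) hu 2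
  have hbr : 1 / (Y : ℝ) ^ 2 + Λ / (m * Y * l) ≤ (A + 2 * s / l + 2 * KC * G ^ 2 / w) ^ 2 := by
    refine (add_le_add hu2 hv).trans ?_
    have e1 : 2 * s ^ 2 / l ^ 2 ≤ (2 * s / l) ^ 2 := by
      rw [div_pow, mul_pow]
      apply div_le_div_of_nonneg_right _ (by positivity)
      nlinarith [sq_nonneg s]
    have e2 : 2 * KC * G ^ 3 / l ≤ (2 * KC * G ^ 2 / w) ^ 2 := by
      rw [div_pow, hwl]
      apply div_le_div_of_nonneg_right _ (by positivity)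
      have e3 : 2 * KC * G ^ 3 ≤ 4 * (KC ^ 2 * G ^ 4) := by
        have e4 : KC ≤ KC ^ 2 := by nlinarith
        have e5 : G ^ 3 ≤ G ^ 4 := pow_le_pow_right₀ hG (by norm_num)
        have e6 : KC * G ^ 3 ≤ KC ^ 2 * G ^ 4 := mul_le_mul e4 e5 (by positivity) (by positivity)
        nlinarith [mul_pos hKC0 (pow_pos hG0 3)]
      calc _ ≤ _ := e3
        _ = _ := by ring
    have p1 : 0 ≤ 2 * s / l := by positivity
    have p2 : 0 ≤ 2 * KC * G ^ 2 / w := by positivity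
    have key : ∀ a b c : ℝ, 0 ≤ a → 0 ≤ b → 0 ≤ c → a ^ 2 + b ^ 2 + c ^ 2 ≤ (a + b + c) ^ 2 := by
      intro a b c ha hb hc
      have q1 := mul_nonneg ha hb
      have q2 := mul_nonneg ha hc
      have q3 := mul_nonneg hb hc
      have q4 : (a + b + c) ^ 2 = a ^ 2 + b ^ 2 + c ^ 2 + 2 * (a * b + a * c + b * c) := by ring
      rw [q4]
      linarith
    have q5 := key A (2 * s / l) (2 * KC * G ^ 2 / w) hA0 p1 p2
    linarith
  have hfin : S ^ 2 ≤ (KC * G ^ 7 * (Λ * l) * (A + 2 * s / l + 2 * KC * G ^ 2 / w)) ^ 2 := by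
    refine h1.trans ?_
    have e1 : KC * G ^ 14 * (Λ * l) ^ 2 ≤ (KC * G ^ 7 * (Λ * l)) ^ 2 := by
      have e4 : KC ≤ KC ^ 2 := by nlinarith
      calc KC * G ^ 14 * (Λ * l) ^ 2 = KC * (G ^ 14 * (Λ * l) ^ 2) := by ring
        _ ≤ KC ^ 2 * (G ^ 14 * (Λ * l) ^ 2) := mul_le_mul_of_nonneg_right e4 (by positivity)
        _ = _ := by ring
    calc _ ≤ (KC * G ^ 7 * (Λ * l)) ^ 2 * (A + 2 * s / l + 2 * KC * G ^ 2 / w) ^ 2 :=
          mul_le_mul e1 hbr (by positivity) (by positivity)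
      _ = _ := by ring
  have h9 := abs_le_of_sq_le_sq hfin (by positivity)
  have h10 : KC * G ^ 7 * (Λ * l) * (A + 2 * s / l + 2 * KC * G ^ 2 / w) =
      KC * G ^ 7 * (Λ * l) * (2 / l + 2 * KC * G ^ 3 * m / Λ + 2 * s / l + 2 * KC * G ^ 2 / w) := by
    rw [hA, hD]
    ring
  rw [← h10]
  exact (le_abs_self S).trans h9

lemma core (KC K₂ G Λ l τ c card : ℝ) (S : ℕ → ℝ) (hKC : 1 ≤ KC) (hK₂ : 1 ≤ K₂) (hG : 1 ≤ G)
    (hΛ : 1 ≤ Λ) (hl : 1 ≤ l) (hl2 : l ≤ K₂ * G * Λ) (hτ : 0 < τ) (hτ2 : τ ≤ l / Λ)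
    (h0 : c ≤ card) (hcard : card ≤ KC * G * Λ * l)
    (hF : ∀ N : ℕ, 1 ≤ N → τ ≤ 1 / (2 * N) →
      c ≤ Real.pi ^ 2 / (4 * N) * (card + 2 * ∑ m ∈ Finset.Ico 1 N, S m))
    (hS : ∀ m Y : ℕ, 1 ≤ m → 1 ≤ Y → (Y : ℝ) ≤ l → KC * G ^ 3 * m * Y ≤ Λ →
      (S m) ^ 2 ≤ KC * G ^ 14 * (Λ * l) ^ 2 * (1 / Y ^ 2 + Λ / (m * Y * l))) :
    c ≤ 100 * KC ^ 2 * K₂ * G ^ 11 * Λ * l * (τ + l ^ (-1 / 2 : ℝ)) := by
  have hl0 : 0 < l := by linarith
  have hΛ0 : 0 < Λ := by linarith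
  have hKC0 : 0 < KC := by linarith
  have hG0 : 0 < G := by linarith
  have hK₂0 : 0 < K₂ := by linarith
  set w : ℝ := √l with hw
  have hw0 : 0 < w := Real.sqrt_pos.2 hl0
  have hwl : w ^ 2 = l := Real.sq_sqrt hl0.le
  have hw1 : 1 ≤ w := by
    rw [hw]
    exact Real.one_le_sqrt.2 hl
  have hq : l ^ (-1 / 2 : ℝ) = 1 / w := by
    rw [hw, Real.sqrt_eq_rpow, show (-1 / 2 : ℝ) = -(1 / 2) by norm_num, Real.rpow_neg hl0.le]
    exact (one_div _).symm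
  rw [hq]
  have hΛl : 0 < Λ * l := by positivity
  -- powers of `G`
  have hG11 : ∀ k : ℕ, k ≤ 11 → G ^ k ≤ G ^ 11 := fun k hk => pow_le_pow_right₀ hG hk
  have triv : c ≤ KC * G * Λ * l := h0.trans hcard
  -- reduction to a bound `c ≤ a * KC^2 * K₂ * G^11 * Λ l * (τ + 1/w)` with a constant at most 100
  have hbase : 0 ≤ KC ^ 2 * K₂ * G ^ 11 * (Λ * l) := by positivity
  have trivial_case : ∀ X : ℝ, 0 ≤ X → X ≤ KC * K₂ * G ^ 10 * 2 → 1 ≤ X * (τ + 1 / w) →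
      c ≤ 100 * KC ^ 2 * K₂ * G ^ 11 * Λ * l * (τ + 1 / w) := by
    intro X hX0 hX h1
    have hτw : 0 ≤ τ + 1 / w := by positivity
    calc c ≤ KC * G * Λ * l * 1 := by rw [mul_one]; exact triv
      _ ≤ KC * G * Λ * l * (X * (τ + 1 / w)) := mul_le_mul_of_nonneg_left h1 (by positivity)
      _ ≤ KC * G * Λ * l * ((KC * K₂ * G ^ 10 * 2) * (τ + 1 / w)) := by
          apply mul_le_mul_of_nonneg_left _ (by positivity)
          exact mul_le_mul_of_nonneg_right hX hτw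
      _ = 2 * (KC ^ 2 * K₂ * G ^ 11 * (Λ * l) * (τ + 1 / w)) := by ring
      _ ≤ 100 * (KC ^ 2 * K₂ * G ^ 11 * (Λ * l) * (τ + 1 / w)) := by
          apply mul_le_mul_of_nonneg_right (by norm_num)
          exact mul_nonneg hbase hτw
      _ = _ := by ring
  set N0 : ℝ := max (min (1 / (2 * τ)) w) (Λ / (2 * l)) with hN0
  have hNτ : N0 ≤ 1 / (2 * τ) := by
    apply max_le (min_le_left _ _)
    rw [div_le_div_iff₀ (by positivity) (by positivity)]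
    rw [le_div_iff₀ hΛ0] at hτ2
    nlinarith
  by_cases hN01 : N0 < 1
  · -- Case A
    have h1 : min (1 / (2 * τ)) w < 1 := (le_max_left _ _).trans_lt hN01
    have h2 : 1 / (2 * τ) < 1 := by
      rcases min_lt_iff.1 h1 with h | h
      · exact h
      · exact absurd hw1 (not_le.2 h)
    rw [div_lt_one (by positivity)] at h2
    apply trivial_case 2 (by norm_num)
    · have e1 : 1 ≤ KC * K₂ := by nlinarith
      have e2 : 1 ≤ G ^ 10 := one_le_pow₀ hG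
      have e3 : 1 ≤ KC * K₂ * G ^ 10 := by nlinarith
      linarith
    · have : 0 ≤ 1 / w := by positivity
      linarith
  push Not at hN01
  set N : ℕ := ⌊N0⌋₊ with hN
  have hN1 : 1 ≤ N := (Nat.one_le_floor_iff _).2 hN01
  have hNr : (1 : ℝ) ≤ N := by exact_mod_cast hN1
  have hNpos : (0 : ℝ) < N := by linarith
  have hNN0 : (N : ℝ) ≤ N0 := Nat.floor_le (by linarith)
  have hNN1 : N0 < N + 1 := Nat.lt_floor_add_one N0
  have hN2 : N0 ≤ 2 * N := by linarith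
  by_cases hB : Λ < KC * G ^ 3 * N
  · -- Case B1
    have hcases : (N : ℝ) ≤ w ∨ (N : ℝ) ≤ Λ / (2 * l) := by
      rcases le_max_iff.1 hNN0 with h | h
      · exact Or.inl (h.trans (min_le_right _ _))
      · exact Or.inr h
    have hτ0 : 0 ≤ τ := hτ.le
    rcases hcases with h | h
    · have h1 : Λ < KC * G ^ 3 * w := lt_of_lt_of_le hB (mul_le_mul_of_nonneg_left h (by positivity))
      have h2 : w < K₂ * KC * G ^ 4 := by
        have h3 : w * w < K₂ * KC * G ^ 4 * w := by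
          calc w * w = l := by rw [← hwl]; ring
            _ ≤ K₂ * G * Λ := hl2
            _ < K₂ * G * (KC * G ^ 3 * w) := by
                apply mul_lt_mul_of_pos_left h1
                positivity
            _ = _ := by ring
        exact lt_of_mul_lt_mul_right h3 hw0.le
      apply trivial_case (K₂ * KC * G ^ 4) (by positivity)
      · have e1 : G ^ 4 ≤ G ^ 10 := pow_le_pow_right₀ hG (by norm_num)
        have e2 : K₂ * KC * G ^ 4 ≤ K₂ * KC * G ^ 10 := mul_le_mul_of_nonneg_left e1 (by positivity)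
        have e3 : 0 ≤ K₂ * KC * G ^ 10 := by positivity
        nlinarith
      · have h4 : 1 ≤ K₂ * KC * G ^ 4 * (1 / w) := by
          rw [mul_one_div, one_le_div hw0]
          exact h2.le
        have h5 : 0 ≤ K₂ * KC * G ^ 4 * τ := by positivity
        nlinarith
    · have h1 : Λ < KC * G ^ 3 * (Λ / (2 * l)) :=
        lt_of_lt_of_le hB (mul_le_mul_of_nonneg_left h (by positivity))
      have h2 : 2 * l < KC * G ^ 3 := by
        have h3 : Λ * (2 * l) < KC * G ^ 3 * Λ := by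
          have h4 : KC * G ^ 3 * (Λ / (2 * l)) = KC * G ^ 3 * Λ / (2 * l) := by ring
          rw [h4, lt_div_iff₀ (by positivity)] at h1
          exact h1
        nlinarith
      have h3 : w ≤ l := by
        rw [← hwl]
        nlinarith
      apply trivial_case (KC * G ^ 3) (by positivity)
      · have e1 : G ^ 3 ≤ G ^ 10 := pow_le_pow_right₀ hG (by norm_num)
        have e2 : KC * G ^ 3 ≤ KC * G ^ 10 := mul_le_mul_of_nonneg_left e1 (by positivity)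
        have e3 : 0 ≤ KC * G ^ 10 := by positivity
        have e4 : KC * G ^ 10 ≤ KC * K₂ * G ^ 10 := by
          calc KC * G ^ 10 = (KC * G ^ 10) * 1 := by ring
            _ ≤ (KC * G ^ 10) * K₂ := mul_le_mul_of_nonneg_left hK₂ e3
            _ = _ := by ring
        linarith
      · have h4 : 1 ≤ KC * G ^ 3 * (1 / w) := by
          rw [mul_one_div, one_le_div hw0]
          linarith
        have h5 : 0 ≤ KC * G ^ 3 * τ := by positivity
        nlinarith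
  -- Case B2
  push Not at hB
  have hτN : τ ≤ 1 / (2 * (N : ℝ)) := by
    rw [le_div_iff₀ (by positivity)]
    have h1 : (N : ℝ) ≤ 1 / (2 * τ) := hNN0.trans hNτ
    rw [le_div_iff₀ (by positivity)] at h1
    linarith
  have h1 := hF N hN1 hτN
  -- bounds for `N`
  have hinvN : 1 / (N : ℝ) ≤ 2 * (2 * τ + 1 / w) := by
    have h2 : min (1 / (2 * τ)) w ≤ 2 * N := (le_max_left _ _).trans hN2
    have h3 : 0 < min (1 / (2 * τ)) w := lt_min (by positivity) hw0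
    have h4 : 1 / (N : ℝ) ≤ 2 * (1 / min (1 / (2 * τ)) w) := by
      rw [mul_one_div, div_le_div_iff₀ hNpos h3]
      linarith
    have h5 : 1 / min (1 / (2 * τ)) w ≤ 2 * τ + 1 / w := by
      rcases min_choice (1 / (2 * τ)) w with h | h
      · rw [h, one_div_one_div]
        have : 0 ≤ 1 / w := by positivity
        linarith
      · rw [h]
        linarith
    linarith
  have hΛN : Λ / N ≤ 4 * l := by
    have h2 : Λ / (2 * l) ≤ 2 * N := (le_max_right _ _).trans hN2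
    rw [div_le_iff₀ (by positivity)] at h2
    rw [div_le_iff₀ hNpos]
    linarith
  have hNΛ : (N : ℝ) / Λ ≤ K₂ * G / w := by
    rcases le_max_iff.1 hNN0 with h | h
    · have h2 : (N : ℝ) ≤ w := h.trans (min_le_right _ _)
      rw [div_le_div_iff₀ hΛ0 hw0]
      calc (N : ℝ) * w ≤ w * w := mul_le_mul_of_nonneg_right h2 hw0.le
        _ = l := by rw [← hwl]; ring
        _ ≤ K₂ * G * Λ := hl2
    · rw [div_le_div_iff₀ hΛ0 hw0]
      rw [le_div_iff₀ (by positivity)] at h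
      have h3 : w ≤ l := by
        rw [← hwl]
        nlinarith
      have h4 : (N : ℝ) * w ≤ N * (2 * l) := mul_le_mul_of_nonneg_left (by linarith) hNpos.le
      have h5 : Λ ≤ K₂ * G * Λ := by
        have : 1 ≤ K₂ * G := by nlinarith
        nlinarith
      linarith
  -- the sum
  have hterm : ∀ m ∈ Finset.Ico 1 N, S m ≤ KC * G ^ 7 * (Λ * l) * (2 / l + 2 * KC * G ^ 3 * N / Λ +
      2 * (√Λ * (1 / √(m : ℝ))) / l + 2 * KC * G ^ 2 / w) := by
    intro m hm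
    rw [Finset.mem_Ico] at hm
    have hmN : (m : ℝ) ≤ N := by exact_mod_cast hm.2.le
    have h2 := one_m KC G Λ l w (S m) m hKC hG hΛ hl hw0 hwl hm.1
      ((mul_le_mul_of_nonneg_left hmN (by positivity)).trans hB)
      (fun Y hY1 hY2 hY3 => hS m Y hm.1 hY1 hY2 hY3)
    refine h2.trans ?_
    apply mul_le_mul_of_nonneg_left _ (by positivity)
    have h3 : 2 * KC * G ^ 3 * m / Λ ≤ 2 * KC * G ^ 3 * N / Λ := by
      apply div_le_div_of_nonneg_right _ hΛ0.le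
      exact mul_le_mul_of_nonneg_left hmN (by positivity)
    linarith
  have hsum : ∑ m ∈ Finset.Ico 1 N, S m ≤ KC * G ^ 7 * (Λ * l) * (N * (2 / l + 2 * KC * G ^ 3 * N / Λ +
      2 * KC * G ^ 2 / w) + 2 * √Λ / l * (2 * √(N : ℝ))) := by
    refine (Finset.sum_le_sum hterm).trans ?_
    rw [← Finset.mul_sum]
    apply mul_le_mul_of_nonneg_left _ (by positivity)
    have e1 : ∑ m ∈ Finset.Ico 1 N, (2 / l + 2 * KC * G ^ 3 * N / Λ +
      2 * (√Λ * (1 / √(m : ℝ))) / l + 2 * KC * G ^ 2 / w) =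
      (N - 1 : ℕ) * (2 / l + 2 * KC * G ^ 3 * N / Λ + 2 * KC * G ^ 2 / w) +
        2 * √Λ / l * ∑ m ∈ Finset.Ico 1 N, 1 / √(m : ℝ) := by
      rw [Finset.mul_sum, ← nsmul_eq_mul, ← Nat.card_Ico 1 N, ← Finset.sum_const, ← Finset.sum_add_distrib]
      apply Finset.sum_congr rfl
      intro m _
      ring
    rw [e1]
    apply add_le_add
    · apply mul_le_mul_of_nonneg_right _ (by positivity)
      exact_mod_cast Nat.sub_le N 1
    · exact mul_le_mul_of_nonneg_left (sum_inv_sqrt' N hN1) (by positivity)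
  -- averaging
  have hsqrt : √Λ / √(N : ℝ) ≤ 2 * w := by
    rw [← Real.sqrt_div hΛ0.le]
    calc √(Λ / N) ≤ √(4 * l) := Real.sqrt_le_sqrt hΛN
      _ = 2 * w := by
          rw [Real.sqrt_mul (by norm_num), show (4 : ℝ) = 2 ^ 2 by norm_num, Real.sqrt_sq (by norm_num)]
  have havg : (1 / (N : ℝ)) * ∑ m ∈ Finset.Ico 1 N, S m ≤ 14 * (KC ^ 2 * K₂ * G ^ 11 * (Λ * l)) * (1 / w) := by
    have e0 : (1 / (N : ℝ)) * ∑ m ∈ Finset.Ico 1 N, S m ≤ (1 / (N : ℝ)) * (KC * G ^ 7 * (Λ * l) *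
        (N * (2 / l + 2 * KC * G ^ 3 * N / Λ + 2 * KC * G ^ 2 / w) + 2 * √Λ / l * (2 * √(N : ℝ)))) :=
      mul_le_mul_of_nonneg_left hsum (by positivity)
    refine e0.trans ?_
    have hsN : √(N : ℝ) ^ 2 = N := Real.sq_sqrt hNpos.le
    have hsN0 : 0 < √(N : ℝ) := Real.sqrt_pos.2 hNpos
    have e1 : (1 / (N : ℝ)) * (KC * G ^ 7 * (Λ * l) *
        (N * (2 / l + 2 * KC * G ^ 3 * N / Λ + 2 * KC * G ^ 2 / w) + 2 * √Λ / l * (2 * √(N : ℝ)))) =
        KC * G ^ 7 * (Λ * l) * (2 / l + 2 * KC * G ^ 3 * (N / Λ) + 2 * KC * G ^ 2 / w +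
          4 / l * (√Λ / √(N : ℝ))) := by
      have e2 : (1 / (N : ℝ)) * √(N : ℝ) = 1 / √(N : ℝ) := by
        rw [← hsN]
        rw [Real.sqrt_sq hsN0.le]
        field_simp
      calc _ = KC * G ^ 7 * (Λ * l) * (((1 / (N : ℝ)) * N) * (2 / l + 2 * KC * G ^ 3 * N / Λ + 2 * KC * G ^ 2 / w) +
            4 * √Λ / l * ((1 / (N : ℝ)) * √(N : ℝ))) := by ring
        _ = _ := by
            rw [e2, one_div_mul_cancel hNpos.ne']
            ring
    rw [e1]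
    have f1 : 2 / l ≤ 2 * (1 / w) := by
      rw [mul_one_div, div_le_div_iff₀ hl0 hw0, ← hwl]
      nlinarith
    have f2 : 2 * KC * G ^ 3 * (N / Λ) ≤ 2 * KC * K₂ * G ^ 4 * (1 / w) := by
      calc 2 * KC * G ^ 3 * (N / Λ) ≤ 2 * KC * G ^ 3 * (K₂ * G / w) :=
            mul_le_mul_of_nonneg_left hNΛ (by positivity)
        _ = _ := by ring
    have f3 : 4 / l * (√Λ / √(N : ℝ)) ≤ 8 * (1 / w) := by
      calc 4 / l * (√Λ / √(N : ℝ)) ≤ 4 / l * (2 * w) := mul_le_mul_of_nonneg_left hsqrt (by positivity)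
        _ = 8 * (1 / w) := by
            rw [← hwl]
            field_simp
            ring
    have f4 : 2 * KC * G ^ 2 / w = 2 * KC * G ^ 2 * (1 / w) := by ring
    have g1 : 1 ≤ KC * K₂ * G ^ 4 := by
      have e1 : 1 ≤ KC * K₂ := by nlinarith
      have e2 : 1 ≤ G ^ 4 := one_le_pow₀ hG
      nlinarith
    have g2 : KC * G ^ 2 ≤ KC * K₂ * G ^ 4 := by
      have e1 : G ^ 2 ≤ G ^ 4 := pow_le_pow_right₀ hG (by norm_num)
      calc KC * G ^ 2 ≤ KC * G ^ 4 := mul_le_mul_of_nonneg_left e1 hKC0.le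
        _ = (KC * G ^ 4) * 1 := by ring
        _ ≤ (KC * G ^ 4) * K₂ := mul_le_mul_of_nonneg_left hK₂ (by positivity)
        _ = _ := by ring
    have hw' : 0 ≤ 1 / w := by positivity
    have f5 : 2 / l + 2 * KC * G ^ 3 * (N / Λ) + 2 * KC * G ^ 2 / w + 4 / l * (√Λ / √(N : ℝ)) ≤
        14 * (KC * K₂ * G ^ 4) * (1 / w) := by
      have k1 : 2 * (1 / w) ≤ 2 * (KC * K₂ * G ^ 4) * (1 / w) :=
        mul_le_mul_of_nonneg_right (by linarith) hw'
      have k2 : 8 * (1 / w) ≤ 8 * (KC * K₂ * G ^ 4) * (1 / w) :=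
        mul_le_mul_of_nonneg_right (by linarith) hw'
      have k3 : 2 * KC * G ^ 2 * (1 / w) ≤ 2 * (KC * K₂ * G ^ 4) * (1 / w) :=
        mul_le_mul_of_nonneg_right (by linarith) hw'
      have k4 : 2 * KC * K₂ * G ^ 4 * (1 / w) = 2 * (KC * K₂ * G ^ 4) * (1 / w) := by ring
      rw [f4]
      linarith
    calc _ ≤ KC * G ^ 7 * (Λ * l) * (14 * (KC * K₂ * G ^ 4) * (1 / w)) :=
          mul_le_mul_of_nonneg_left f5 (by positivity)
      _ = _ := by ring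
  have hpi : Real.pi ^ 2 ≤ 10 := by
    have := Real.pi_lt_d2
    have h0 := Real.pi_pos
    nlinarith
  have hfirst : (1 / (N : ℝ)) * card ≤ 4 * (KC ^ 2 * K₂ * G ^ 11 * (Λ * l)) * (τ + 1 / w) := by
    by_cases hc0 : card ≤ 0
    · have : (1 / (N : ℝ)) * card ≤ 0 := mul_nonpos_of_nonneg_of_nonpos (by positivity) hc0
      have h3 : 0 ≤ 4 * (KC ^ 2 * K₂ * G ^ 11 * (Λ * l)) * (τ + 1 / w) := by positivity
      linarith
    push Not at hc0
    have hw' : 0 ≤ 1 / w := by positivity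
    calc (1 / (N : ℝ)) * card ≤ (2 * (2 * τ + 1 / w)) * (KC * G * Λ * l) :=
          mul_le_mul hinvN hcard hc0.le (by positivity)
      _ ≤ (4 * (τ + 1 / w)) * (KC * G * Λ * l) := by
          apply mul_le_mul_of_nonneg_right _ (by positivity)
          linarith
      _ ≤ (4 * (τ + 1 / w)) * (KC ^ 2 * K₂ * G ^ 11 * (Λ * l)) := by
          apply mul_le_mul_of_nonneg_left _ (by positivity)
          have e1 : KC ≤ KC ^ 2 * K₂ := by
            have : 1 ≤ KC * K₂ := by nlinarith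
            nlinarith
          have e2 : G ≤ G ^ 11 := by
            calc G = G ^ 1 := (pow_one G).symm
              _ ≤ G ^ 11 := pow_le_pow_right₀ hG (by norm_num)
          calc KC * G * Λ * l = (KC * G) * (Λ * l) := by ring
            _ ≤ ((KC ^ 2 * K₂) * G ^ 11) * (Λ * l) := by
                apply mul_le_mul_of_nonneg_right _ hΛl.le
                exact mul_le_mul e1 e2 hG0.le (by positivity)
            _ = _ := by ring
      _ = _ := by ring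
  have hwτ : 1 / w ≤ τ + 1 / w := by linarith
  have havg2 : (1 / (N : ℝ)) * ∑ m ∈ Finset.Ico 1 N, S m ≤
      14 * (KC ^ 2 * K₂ * G ^ 11 * (Λ * l)) * (τ + 1 / w) :=
    havg.trans (mul_le_mul_of_nonneg_left hwτ (by positivity))
  have hsplit : Real.pi ^ 2 / (4 * N) * (card + 2 * ∑ m ∈ Finset.Ico 1 N, S m) =
      Real.pi ^ 2 / 4 * ((1 / (N : ℝ)) * card) + Real.pi ^ 2 / 2 * ((1 / (N : ℝ)) * ∑ m ∈ Finset.Ico 1 N, S m) := by
    field_simp
    ring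
  rw [hsplit] at h1
  set Z : ℝ := KC ^ 2 * K₂ * G ^ 11 * (Λ * l) * (τ + 1 / w) with hZ
  have hZ0 : 0 ≤ Z := by positivity
  have j1 : (1 / (N : ℝ)) * card ≤ 4 * Z := by rw [hZ]; linarith
  have j2 : (1 / (N : ℝ)) * ∑ m ∈ Finset.Ico 1 N, S m ≤ 14 * Z := by rw [hZ]; linarith
  have hp0 : 0 ≤ Real.pi ^ 2 := by positivity
  have j3 : Real.pi ^ 2 / 4 * ((1 / (N : ℝ)) * card) ≤ Real.pi ^ 2 / 4 * (4 * Z) :=
    mul_le_mul_of_nonneg_left j1 (by positivity)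
  have j4 : Real.pi ^ 2 / 2 * ((1 / (N : ℝ)) * ∑ m ∈ Finset.Ico 1 N, S m) ≤ Real.pi ^ 2 / 2 * (14 * Z) :=
    mul_le_mul_of_nonneg_left j2 (by positivity)
  have j5 : Real.pi ^ 2 * Z ≤ 10 * Z := mul_le_mul_of_nonneg_right hpi hZ0
  have j6 : 100 * KC ^ 2 * K₂ * G ^ 11 * Λ * l * (τ + 1 / w) = 100 * Z := by rw [hZ]; ring
  rw [j6]
  linarith

end C4a

theorem t_C4a (h1 : S_C1) (h2 : S_C2) : S_C4a := by
  intro K₀ δ K₂ hK₀ hδ hK₂
  obtain ⟨δ', KC, hδ', hδδ, hKC, hC1⟩ := h1 K₀ δ hK₀ hδ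
  refine ⟨δ', 100 * KC ^ 2 * K₂, hδ', hδδ, by nlinarith, ?_⟩
  intro F p hReg Λ G V₁ V₂ Φ d₁ d₂ l β hG hΛ hV₁ hV₂ hΦ hl hl2 hβ E R hE hE1 hE2 hR τ hτ hτ2
  obtain ⟨hcard, hS⟩ := hC1 F p hReg Λ G V₁ V₂ Φ d₁ d₂ l β hG hΛ hV₁ hV₂ hΦ hl hβ E R hE hE1 hE2 hR
  have hm0 := C4a.core KC K₂ G Λ l τ
    ((R.filter (fun ν => nd (Φ * F ((ν.1 : ℝ) / V₁ + d₁, (ν.2 : ℝ) / V₂ + d₂)) ≤ τ)).card : ℝ) (R.card : ℝ)
    (fun m => ‖∑ ν ∈ R, ee (m * (Φ * F ((ν.1 : ℝ) / V₁ + d₁, (ν.2 : ℝ) / V₂ + d₂)))‖)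
    hKC hK₂ hG hΛ hl hl2 hτ hτ2 (by exact_mod_cast Finset.card_filter_le _ _) hcard ?_ ?_
  · exact hm0
  · intro N hN hτN
    refine le_trans ?_ (h2 R (fun ν => Φ * F ((ν.1 : ℝ) / V₁ + d₁, (ν.2 : ℝ) / V₂ + d₂)) N hN)
    have : (R.filter (fun ν => nd (Φ * F ((ν.1 : ℝ) / V₁ + d₁, (ν.2 : ℝ) / V₂ + d₂)) ≤ τ)) ⊆
        (R.filter (fun ν => nd (Φ * F ((ν.1 : ℝ) / V₁ + d₁, (ν.2 : ℝ) / V₂ + d₂)) ≤ 1 / (2 * N))) := by
      intro ν hν
      rw [Finset.mem_filter] at hν ⊢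
      exact ⟨hν.1, hν.2.trans hτN⟩
    exact_mod_cast Finset.card_le_card this
  · intro m Y hm hY hYl hYΛ
    exact hS m Y hm hY hYl hYΛ

end Pool.Agent.H304R4.CM
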