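import Pool.Agent.H304R4.CM.Stubs

set_option autoImplicit false

namespace Pool.Agent.H304R4.CM.C5

open Pool.Agent.H304R4.CM Finset

theorem nu1_bound {B C H M : ℝ} {j k : ℤ} (hBal : Bal B C H M) (hk : 0 < k)
    (hjk : |(j : ℝ)| / B ≤ k / C) (hkC : (k : ℝ) / C ≤ 1) {ν : ℤ × ℤ}
    (hν : ν ∈ Zs B C H j k) : |(ν.1 : ℝ)| ≤ 1538 * k * M ^ (1 / 800 : ℝ) := by
  classical
  obtain ⟨hM, hB, hC, hH, hM1, -, -, hHM, -⟩ := hBal
  have hk0 : (0 : ℝ) < k := by exact_mod_cast hk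
  have hB0 : 0 < B := by linarith
  have hC0 : 0 < C := by linarith
  have hH0 : 0 < H := by linarith
  have hM0 : 0 < M := by linarith
  rw [div_le_div_iff₀ hB0 hC0] at hjk
  rw [div_le_one hC0] at hkC
  unfold Zs at hν
  rw [Finset.mem_filter] at hν
  obtain ⟨-, z, ⟨⟨hz1, hz2⟩, hz3, hz4⟩, -, -, hz5, -⟩ := hν
  have hz1' : 0 < z.1 := lt_of_lt_of_le (by norm_num) hz1
  have hz3' : 0 < z.2 := lt_of_lt_of_le (by norm_num) hz3
  set ρ : ℝ := j * C / (k * B) with hρ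
  have hρ1 : |ρ| ≤ 1 := by
    rw [hρ, abs_div, abs_mul, abs_of_pos hC0, abs_of_pos (mul_pos hk0 hB0), div_le_one (by positivity)]
    exact hjk
  have hn1 : |n1h B C j k ν.1 H| ≤ 1536 := by
    rw [← hz5]
    have h1 : z.1 * z.2 ≤ 16 * 16 := mul_le_mul hz2 hz4 hz3'.le (by norm_num)
    have h2 : z.2 ^ 2 ≤ 16 ^ 2 := pow_le_pow_left₀ hz3'.le hz4 2
    have h3 : |4 * z.1 * z.2| ≤ 1024 := by
      rw [abs_of_nonneg (by positivity)]; linarith
    have h4 : |2 * ρ * z.2 ^ 2| ≤ 512 := by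
      rw [abs_mul, abs_mul, abs_of_nonneg (by positivity : (0 : ℝ) ≤ z.2 ^ 2),
        abs_of_pos (by norm_num : (0 : ℝ) < 2)]
      have h5 : |ρ| * z.2 ^ 2 ≤ 1 * 16 ^ 2 := mul_le_mul hρ1 h2 (by positivity) (by norm_num)
      linarith
    exact (abs_add_le _ _).trans (by linarith)
  have hn2 : (ν.1 : ℝ) * H ^ 2 = n1h B C j k ν.1 H * (k * B * C) + 2 * j * k ^ 2 := by
    unfold n1h
    field_simp
    ring
  have hjk2 : |(j : ℝ)| * k ^ 2 ≤ k * B * C := by
    have h1 : |(j : ℝ)| * k ^ 2 * C ≤ k * B * C * C := by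
      calc |(j : ℝ)| * k ^ 2 * C = (|(j : ℝ)| * C) * k ^ 2 := by ring
        _ ≤ (k * B) * k ^ 2 := mul_le_mul_of_nonneg_right hjk (by positivity)
        _ ≤ (k * B) * C ^ 2 :=
          mul_le_mul_of_nonneg_left (pow_le_pow_left₀ hk0.le hkC 2) (by positivity)
        _ = _ := by ring
    exact le_of_mul_le_mul_right h1 hC0
  have h1 : |(ν.1 : ℝ)| * H ^ 2 ≤ 1538 * (k * B * C) := by
    have h2 : |(ν.1 : ℝ)| * H ^ 2 = |(ν.1 : ℝ) * H ^ 2| := by
      rw [abs_mul, abs_of_nonneg (by positivity : (0 : ℝ) ≤ H ^ 2)]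
    rw [h2, hn2]
    refine (abs_add_le _ _).trans ?_
    rw [abs_mul, abs_of_nonneg (by positivity : 0 ≤ (k : ℝ) * B * C), abs_mul, abs_mul,
      abs_of_pos (by norm_num : (0 : ℝ) < 2), abs_of_nonneg (by positivity : (0 : ℝ) ≤ (k : ℝ) ^ 2)]
    have h3 : |n1h B C j k ν.1 H| * (k * B * C) ≤ 1536 * (k * B * C) :=
      mul_le_mul_of_nonneg_right hn1 (by positivity)
    linarith
  have h2 : B * C = M * H := by rw [hM]; field_simp
  have h3 : |(ν.1 : ℝ)| * H ≤ 1538 * k * M := by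
    have h4 : (|(ν.1 : ℝ)| * H) * H ≤ (1538 * k * M) * H := by
      calc (|(ν.1 : ℝ)| * H) * H = |(ν.1 : ℝ)| * H ^ 2 := by ring
        _ ≤ 1538 * (k * B * C) := h1
        _ = 1538 * k * (B * C) := by ring
        _ = _ := by rw [h2]; ring
    exact le_of_mul_le_mul_right h4 hH0
  have h4 : M ^ (1 - 1 / 800 : ℝ) * M ^ (1 / 800 : ℝ) = M := by
    rw [← Real.rpow_add hM0]; norm_num
  have h5 : 0 < M ^ (1 - 1 / 800 : ℝ) := Real.rpow_pos_of_pos hM0 _
  have h6 : |(ν.1 : ℝ)| * M ^ (1 - 1 / 800 : ℝ) ≤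
      (1538 * k * M ^ (1 / 800 : ℝ)) * M ^ (1 - 1 / 800 : ℝ) := by
    calc |(ν.1 : ℝ)| * M ^ (1 - 1 / 800 : ℝ) ≤ |(ν.1 : ℝ)| * H :=
        mul_le_mul_of_nonneg_left hHM (abs_nonneg _)
      _ ≤ 1538 * k * M := h3
      _ = 1538 * k * (M ^ (1 - 1 / 800 : ℝ) * M ^ (1 / 800 : ℝ)) := by rw [h4]
      _ = _ := by ring
  exact le_of_mul_le_mul_right h6 h5

theorem t_C5 : S_C5 := by
  classical
  refine ⟨6153, by norm_num, ?_⟩
  intro B C H M j k hBal hk hj hjk hkC r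
  have hM1 : 1 ≤ M := hBal.2.2.2.2.1
  have hM0 : 0 < M := by linarith
  constructor
  · intro hr
    rw [Finset.filter_eq_empty_iff]
    intro ν _ he
    apply hr
    rw [← he]
    exact dvd_sub (Dvd.dvd.mul_right (Int.gcd_dvd_right ..) _)
      (Dvd.dvd.mul_right (Int.gcd_dvd_left ..) _)
  · set g : ℕ := Int.gcd j k with hg
    have hg0 : 0 < g := Int.gcd_pos_of_ne_zero_right _ hk.ne'
    have hg1 : (1 : ℝ) ≤ g := by exact_mod_cast hg0
    have hX1 : (1 : ℝ) ≤ M ^ (1 / 800 : ℝ) := Real.one_le_rpow hM1 (by norm_num)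
    obtain ⟨k', hk'⟩ : (g : ℤ) ∣ k := Int.gcd_dvd_right ..
    obtain ⟨j', hj'⟩ : (g : ℤ) ∣ j := Int.gcd_dvd_left ..
    have hgz : (0 : ℤ) < g := by exact_mod_cast hg0
    have hk'0 : 0 < k' := by
      have : (0 : ℤ) < g * k' := by rw [← hk']; exact hk
      exact (mul_pos_iff_of_pos_left hgz).mp this
    have hcop : IsCoprime k' j' := by
      rw [Int.isCoprime_iff_gcd_eq_one, Int.gcd_comm]
      have h1 : Int.gcd j k = g * Int.gcd j' k' := by
        conv_lhs => rw [hj', hk']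
        rw [Int.gcd_mul_left, Int.natAbs_natCast]
      rw [← hg] at h1
      exact (Nat.eq_of_mul_eq_mul_left hg0 (by rw [mul_one]; exact h1)).symm
    set F := (Zs B C H j k).filter (fun ν => k * ν.2 - j * ν.1 = r) with hF
    rcases F.eq_empty_or_nonempty with he | ⟨ν₀, hν₀⟩
    · rw [he, Finset.card_empty, Nat.cast_zero]; positivity
    have hν₀' := Finset.mem_filter.mp hν₀
    have hdvd : ∀ ν ∈ F, k' ∣ ν.1 - ν₀.1 := by
      intro ν hν
      have h1 := (Finset.mem_filter.mp hν).2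
      have h2 : k * (ν.2 - ν₀.2) = j * (ν.1 - ν₀.1) := by
        have := hν₀'.2
        linarith
      rw [hk', hj'] at h2
      have h3 : k' * (ν.2 - ν₀.2) = j' * (ν.1 - ν₀.1) := by
        have h4 : (g : ℤ) * (k' * (ν.2 - ν₀.2)) = g * (j' * (ν.1 - ν₀.1)) := by
          linarith
        exact mul_left_cancel₀ hgz.ne' h4
      exact hcop.dvd_of_dvd_mul_left (Dvd.intro _ h3)
    set N : ℕ := ⌊3076 * g * M ^ (1 / 800 : ℝ)⌋₊ with hN
    have hcard : F.card ≤ (Finset.Icc (-(N : ℤ)) N).card := by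
      refine Finset.card_le_card_of_injOn (fun ν => (ν.1 - ν₀.1) / k') ?_ ?_
      · intro ν hν
        have hν' : ν ∈ F := hν
        obtain ⟨t, ht⟩ := hdvd ν hν'
        have h1 : (ν.1 - ν₀.1) / k' = t := by rw [ht]; exact Int.mul_ediv_cancel_left _ hk'0.ne'
        have hb := nu1_bound hBal hk hjk hkC (Finset.mem_filter.mp hν').1
        have hb0 := nu1_bound hBal hk hjk hkC hν₀'.1
        have hkg : (k : ℝ) = g * k' := by rw [hk']; push_cast; ring
        have hk'r : (0 : ℝ) < k' := by exact_mod_cast hk'0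
        have h2 : |(t : ℝ)| ≤ 3076 * g * M ^ (1 / 800 : ℝ) := by
          have h3 : |(t : ℝ)| * k' ≤ (3076 * g * M ^ (1 / 800 : ℝ)) * k' := by
            have h4 : ((ν.1 : ℝ) - ν₀.1) = k' * t := by exact_mod_cast ht
            have h5 : |(t : ℝ)| * k' = |(ν.1 : ℝ) - ν₀.1| := by
              rw [h4, abs_mul, abs_of_pos hk'r]; ring
            rw [h5]
            have h6 := abs_sub (ν.1 : ℝ) ν₀.1
            rw [hkg] at hb hb0
            linarith
          exact le_of_mul_le_mul_right h3 hk'r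
        have h3 : t.natAbs ≤ N := by
          rw [hN]
          apply Nat.le_floor
          rwa [Nat.cast_natAbs, Int.cast_abs]
        simp only [coe_Icc, Set.mem_Icc]
        rw [h1]
        omega
      · intro ν hν ν' hν' heq
        have hνF : ν ∈ F := hν
        have hνF' : ν' ∈ F := hν'
        obtain ⟨t, ht⟩ := hdvd ν hνF
        obtain ⟨t', ht'⟩ := hdvd ν' hνF'
        dsimp only at heq
        rw [ht, ht', Int.mul_ediv_cancel_left _ hk'0.ne', Int.mul_ediv_cancel_left _ hk'0.ne'] at heq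
        have e1 : ν.1 = ν'.1 := by rw [heq] at ht; linarith
        have h1 := (Finset.mem_filter.mp hνF).2
        have h2 := (Finset.mem_filter.mp hνF').2
        rw [e1] at h1
        have e2 : k * ν.2 = k * ν'.2 := by linarith
        exact Prod.ext e1 (mul_left_cancel₀ hk.ne' e2)
    have h1 : (F.card : ℝ) ≤ 2 * N + 1 := by
      have h2 : (Finset.Icc (-(N : ℤ)) N).card = 2 * N + 1 := by
        rw [Int.card_Icc]; omega
      rw [h2] at hcard
      exact_mod_cast hcard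
    have h2 : (N : ℝ) ≤ 3076 * g * M ^ (1 / 800 : ℝ) := Nat.floor_le (by positivity)
    have h3 : M ^ (1 / 800 : ℝ) ≤ M ^ (1 / 400 : ℝ) :=
      Real.rpow_le_rpow_of_exponent_le hM1 (by norm_num)
    have h4 : 1 ≤ (g : ℝ) * M ^ (1 / 800 : ℝ) := by nlinarith
    have h5 : (g : ℝ) * M ^ (1 / 800 : ℝ) ≤ g * M ^ (1 / 400 : ℝ) :=
      mul_le_mul_of_nonneg_left h3 (by linarith)
    nlinarith

end Pool.Agent.H304R4.CM.C5
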