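import Mathlib
import Pool.Agent.H304R4.CM.Stubs

/-! # TEAM CM, part 2: task C5b (identities at a critical frequency). -/

open Complex MeasureTheory Filter Topology

namespace Pool.Agent.H304R4.CM

theorem t_C5b (hG2 : S_G2) : S_C5b := by
  intro B C H j k hB hC hH hk ν hν
  have hk' : (0 : ℝ) < (k : ℝ) := by exact_mod_cast hk
  have hν' : ∃ z ∈ bx 16, IsC (j * C / (k * B)) (n1h B C j k ν.1 H) (n2h B j k ν.2 H) z := by
    classical
    unfold Zs at hν
    rw [Finset.mem_filter] at hν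
    exact hν.2
  obtain ⟨z, hz, hI⟩ := hν'
  have hzc : zc ((j : ℝ) * C / (k * B)) (n1h B C j k ν.1 H) (n2h B j k ν.2 H) = z := hG2.2 _ _ _ _ hI
  have hzH : zH B C H j k ν = z := hzc
  have hFc : Fc ((j : ℝ) * C / (k * B)) (n1h B C j k ν.1 H, n2h B j k ν.2 H) =
      2 * PP ((j : ℝ) * C / (k * B)) z.1 z.2 := by
    unfold Fc
    simp only [hzc]
  have hs : sH B C H j k ν = k * B / H * (z.1 + j * C / (k * B) * z.2) := by
    unfold sH
    rw [hzH]
    field_simp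
  obtain ⟨h1, h2, h3, h4⟩ := hI
  refine ⟨by rw [hzH]; exact hz, by rw [hzH]; exact ⟨h1, h2, h3, h4⟩, ?_, by rw [hzH]; exact hs, ?_, ?_⟩
  · rw [hzH]
    unfold n1h at h3
    unfold n2h at h4
    have e1 : (ν.1 : ℝ) * H ^ 2 - 2 * j * k ^ 2 =
        (k * B * C) * (4 * z.1 * z.2 + 2 * (j * C / (k * B)) * z.2 ^ 2) := by
      rw [h3]; field_simp
    have e2 : (ν.2 : ℝ) * H ^ 2 - 2 * j ^ 2 * k =
        (k * B ^ 2) * (2 * z.1 ^ 2 + 4 * (j * C / (k * B)) * z.1 * z.2) := by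
      rw [h4]; field_simp
    have e1' : (ν.1 : ℝ) = (2 * j * k ^ 2 +
        (k * B * C) * (4 * z.1 * z.2 + 2 * (j * C / (k * B)) * z.2 ^ 2)) / H ^ 2 := by
      rw [eq_div_iff (by positivity)]; linarith
    have e2' : (ν.2 : ℝ) = (2 * j ^ 2 * k +
        (k * B ^ 2) * (2 * z.1 ^ 2 + 4 * (j * C / (k * B)) * z.1 * z.2)) / H ^ 2 := by
      rw [eq_div_iff (by positivity)]; linarith
    push_cast
    rw [e1', e2']
    field_simp
    ring
  · unfold DH
    rw [abs_mul, abs_mul, abs_of_pos hk']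
  · rw [hFc]
    unfold fH
    rw [hs, hzH]
    unfold LL PP
    field_simp
    ring

end Pool.Agent.H304R4.CM
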