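import Pool.Agent.H304R4.CM.Stubs

set_option autoImplicit false

/-! Task C6 (helper311): sum over critical frequencies. -/

open Complex MeasureTheory Filter Topology

namespace Pool.Agent.H304R4.CM

theorem C6_nd_nonneg (x : ℝ) : 0 ≤ nd x := abs_nonneg _

theorem C6_Th_nonneg {H : ℝ} (hH : 0 ≤ H) (D f : ℝ) : 0 ≤ Th H D f := by
  unfold Th
  split_ifs
  · exact hH
  · positivity
  · exact le_min hH (one_div_nonneg.mpr (C6_nd_nonneg f))

theorem C6_min {H D f : ℝ} (hH : 0 < H) (hD : 0 < D) (h : D / H ^ 2 < nd f) :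
    min H (1 / nd f) ≤ √(H ^ 3 / D) := by
  have h0 : 0 < nd f := lt_trans (by positivity) h
  apply Real.le_sqrt_of_sq_le
  have h1 : 1 / nd f ≤ H ^ 2 / D := by
    rw [div_le_div_iff₀ h0 hD]
    rw [div_lt_iff₀ (by positivity)] at h
    linarith
  have h2 : 0 ≤ min H (1 / nd f) := le_min hH.le (by positivity)
  calc (min H (1 / nd f)) ^ 2 = min H (1 / nd f) * min H (1 / nd f) := sq _
    _ ≤ H * (1 / nd f) := mul_le_mul (min_le_left _ _) (min_le_right _ _) h2 hH.le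
    _ ≤ H * (H ^ 2 / D) := mul_le_mul_of_nonneg_left h1 hH.le
    _ = H ^ 3 / D := by ring

theorem C6_H_le {H D : ℝ} (hH : 0 < H) (hD : 0 < D) (h : D ≤ H) : H ≤ √(H ^ 3 / D) := by
  apply Real.le_sqrt_of_sq_le
  rw [le_div_iff₀ hD]
  nlinarith [sq_nonneg H, mul_le_mul_of_nonneg_left h (sq_nonneg H)]

theorem C6_Th_scale {H D c : ℝ} (hH : 0 < H) (hD : 0 ≤ D) (hc : 1 ≤ c) (f : ℝ) :
    Th H D f ≤ √c * Th H (c * D) f := by
  have hc0 : 0 < c := by linarith
  have hsc : 1 ≤ √c := Real.one_le_sqrt.mpr hc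
  have hkey : 0 < D → √c * √(H ^ 3 / (c * D)) = √(H ^ 3 / D) := by
    intro hD0
    rw [← Real.sqrt_mul hc0.le]
    congr 1
    field_simp
  have hDle : D ≤ c * D := by nlinarith
  by_cases h1 : nd f ≤ D / H ^ 2
  · have h2 : nd f ≤ c * D / H ^ 2 := h1.trans (div_le_div_of_nonneg_right hDle (by positivity))
    unfold Th
    rw [if_pos h1, if_pos h2]
    by_cases h3 : c * D ≤ H
    · have h4 : D ≤ H := hDle.trans h3
      rw [if_pos h3, if_pos h4]
      nlinarith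
    · rw [if_neg h3]
      have hD0 : 0 < D := by
        by_contra hcon
        have : D = 0 := le_antisymm (not_lt.mp hcon) hD
        rw [this, mul_zero] at h3
        exact h3 hH.le
      rw [mul_add, hkey hD0]
      have hpos : 0 ≤ √c * √(c * D / H) := by positivity
      by_cases h4 : D ≤ H
      · rw [if_pos h4]
        have := C6_H_le hH hD0 h4
        linarith
      · rw [if_neg h4]
        have h5 : √(D / H) ≤ √(c * D / H) :=
          Real.sqrt_le_sqrt (div_le_div_of_nonneg_right hDle hH.le)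
        have h6 : 0 ≤ √(c * D / H) := Real.sqrt_nonneg _
        nlinarith
  · push Not at h1
    by_cases h2 : nd f ≤ c * D / H ^ 2
    · have hD0 : 0 < D := by
        by_contra hcon
        have : D = 0 := le_antisymm (not_lt.mp hcon) hD
        rw [this] at h1 h2
        simp at h1 h2
        linarith
      unfold Th
      rw [if_neg (not_le.mpr h1), if_pos h2]
      by_cases h3 : c * D ≤ H
      · rw [if_pos h3]
        have : min H (1 / nd f) ≤ H := min_le_left _ _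
        nlinarith
      · rw [if_neg h3, mul_add, hkey hD0]
        have hpos : 0 ≤ √c * √(c * D / H) := by positivity
        have := C6_min hH hD0 h1
        linarith
    · unfold Th
      rw [if_neg (not_le.mpr h1), if_neg h2]
      have h3 : 0 ≤ min H (1 / nd f) := le_min hH.le (one_div_nonneg.mpr (C6_nd_nonneg f))
      nlinarith

theorem C6_Th_small {H D K : ℝ} (hH : 0 < H) (hD : 0 < D) (hDH : D ≤ 8 * H ^ 2) (hK : 1 ≤ K)
    (f : ℝ) : Th H (K * D) f ≤ 9 * K * √(H ^ 3 / D) := by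
  have hK0 : 0 < K := by linarith
  have hKD : D ≤ K * D := by nlinarith
  have hKD0 : 0 < K * D := by positivity
  set S : ℝ := √(H ^ 3 / D) with hS
  have hS0 : 0 ≤ S := Real.sqrt_nonneg _
  have h1 : √(H ^ 3 / (K * D)) ≤ S :=
    Real.sqrt_le_sqrt (div_le_div_of_nonneg_left (by positivity) hD hKD)
  have h9 : S ≤ 9 * K * S := by nlinarith
  unfold Th
  split_ifs with h2 h3
  · exact ((C6_H_le hH hKD0 h3).trans h1).trans h9
  · have h4 : √(K * D / H) ≤ 8 * K * S := by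
      rw [Real.sqrt_le_left (by positivity)]
      rw [mul_pow, mul_pow, hS, Real.sq_sqrt (by positivity)]
      rw [div_le_iff₀ hH]
      have h5 : 8 ^ 2 * K ^ 2 * (H ^ 3 / D) * H = 64 * K ^ 2 * H ^ 4 / D := by ring
      rw [h5, le_div_iff₀ hD]
      have h6 : D ^ 2 ≤ 64 * H ^ 4 := by
        calc D ^ 2 ≤ (8 * H ^ 2) ^ 2 := pow_le_pow_left₀ hD.le hDH 2
          _ = 64 * H ^ 4 := by ring
      calc K * D * D = K * D ^ 2 := by ring
        _ ≤ K * (64 * H ^ 4) := mul_le_mul_of_nonneg_left h6 hK0.le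
        _ ≤ K ^ 2 * (64 * H ^ 4) := by
          apply mul_le_mul_of_nonneg_right _ (by positivity)
          nlinarith
        _ = 64 * K ^ 2 * H ^ 4 := by ring
    nlinarith
  · push Not at h2
    exact ((C6_min hH hKD0 h2).trans h1).trans h9

theorem C6_sqrt_sum (n : ℕ) : ∑ t ∈ Finset.Icc 1 n, 1 / √(t : ℝ) ≤ 2 * √(n : ℝ) := by
  induction n with
  | zero => simp
  | succ n ih =>
    rw [Finset.sum_Icc_succ_top (by omega)]
    have h1 : 0 < √((n + 1 : ℕ) : ℝ) := Real.sqrt_pos.mpr (by positivity)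
    have h2 : √((n + 1 : ℕ) : ℝ) ^ 2 = (n:ℝ) + 1 := by
      rw [Real.sq_sqrt (by positivity)]; push_cast; ring
    have h3 : √(n : ℝ) ^ 2 = n := Real.sq_sqrt (by positivity)
    have h4 : 0 ≤ √(n:ℝ) := Real.sqrt_nonneg _
    have h5 : 1 / √((n + 1 : ℕ) : ℝ) ≤ 2 * √((n + 1 : ℕ) : ℝ) - 2 * √(n : ℝ) := by
      rw [div_le_iff₀ h1]
      nlinarith [sq_nonneg (√((n + 1 : ℕ) : ℝ) - √(n : ℝ))]
    linarith

theorem C6_cover {α ι : Type*} [DecidableEq α] (T : Finset α) (I : Finset ι)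
    (S : ι → Finset α) (f : α → ℝ) (hf : ∀ a, 0 ≤ f a) (h : ∀ a ∈ T, ∃ i ∈ I, a ∈ S i) :
    ∑ a ∈ T, f a ≤ ∑ i ∈ I, ∑ a ∈ S i, f a := by
  have h1 : ∀ i, ∑ a ∈ T, (if a ∈ S i then f a else 0) ≤ ∑ a ∈ S i, f a := by
    intro i
    rw [← Finset.sum_filter]
    apply Finset.sum_le_sum_of_subset_of_nonneg
    · intro a ha; exact (Finset.mem_filter.mp ha).2
    · intro a _ _; exact hf a
  refine le_trans ?_ (Finset.sum_le_sum fun i _ => h1 i)
  rw [Finset.sum_comm]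
  apply Finset.sum_le_sum
  intro a ha
  obtain ⟨i, hi, hai⟩ := h a ha
  have := Finset.single_le_sum (f := fun i => if a ∈ S i then f a else 0)
    (fun i _ => by
      show 0 ≤ if a ∈ S i then f a else 0
      split_ifs
      · exact hf a
      · exact le_rfl) hi
  simp only [hai, if_true] at this
  exact this

/-- facts on critical frequencies -/
theorem C6_facts (h5b : S_C5b) {B C H : ℝ} {j k : ℤ} (hB : 0 < B) (hC : 0 < C) (hH : 0 < H)
    (hk : 0 < k) (hj : j ≠ 0) (hjk : |(j : ℝ)| / B ≤ k / C) {ν : ℤ × ℤ} (hν : ν ∈ Zs B C H j k) :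
    |(k : ℝ) * ν.2 - j * ν.1| ≤ 512 * (k * B / H) ^ 2 ∧
    (0 < j → |(j : ℝ)| * k * (k * B / H) / 16 ≤ DH B C H j k ν ∧
      DH B C H j k ν ≤ 32 * (|(j : ℝ)| * k * (k * B / H))) ∧
    (j < 0 → |(j : ℝ)| * k * (|(k : ℝ) * ν.2 - j * ν.1| / (k * B / H)) / 64 ≤ DH B C H j k ν ∧
      DH B C H j k ν ≤ 8 * (|(j : ℝ)| * k * (|(k : ℝ) * ν.2 - j * ν.1| / (k * B / H)))) := by
  obtain ⟨hbx, -, hr, hs, hD, -⟩ := h5b B C H j k hB hC hH hk ν hν
  have hkr : (0:ℝ) < k := by exact_mod_cast hk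
  have hjr : 0 < |(j:ℝ)| := abs_pos.mpr (by exact_mod_cast hj)
  obtain ⟨Λ, hΛ⟩ : ∃ Λ : ℝ, Λ = k * B / H := ⟨_, rfl⟩
  obtain ⟨ρ, hρ⟩ : ∃ ρ : ℝ, ρ = j * C / (k * B) := ⟨_, rfl⟩
  obtain ⟨x, hx⟩ : ∃ x : ℝ, x = (zH B C H j k ν).1 := ⟨_, rfl⟩
  obtain ⟨y, hy⟩ : ∃ y : ℝ, y = (zH B C H j k ν).2 := ⟨_, rfl⟩
  rw [← hΛ, ← hρ, ← hx, ← hy] at hr
  rw [← hΛ, ← hρ, ← hx, ← hy] at hs
  rw [← hΛ]
  have hΛ0 : 0 < Λ := by rw [hΛ]; positivity
  have hbx' : (1 / 16 ≤ x ∧ x ≤ 16) ∧ (1 / 16 ≤ y ∧ y ≤ 16) := by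
    rw [hx, hy]; exact hbx
  obtain ⟨⟨x1, x2⟩, ⟨y1, y2⟩⟩ := hbx'
  have hρabs : |ρ| ≤ 1 := by
    rw [hρ, abs_div, abs_mul, abs_of_pos hC, abs_of_pos (mul_pos hkr hB), div_le_one (by positivity)]
    rw [div_le_div_iff₀ hB hC] at hjk
    exact hjk
  obtain ⟨ρ1, ρ2⟩ := abs_le.mp hρabs
  have hr' : (k : ℝ) * ν.2 - j * ν.1 = 2 * Λ ^ 2 * (x ^ 2 - ρ ^ 2 * y ^ 2) := by
    rw [← hr]; push_cast; ring
  rw [hr', hD, hs]
  have hρ2 : ρ ^ 2 ≤ 1 := by nlinarith
  refine ⟨?_, ?_, ?_⟩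
  · rw [abs_mul, abs_of_pos (by positivity : 0 < 2 * Λ ^ 2)]
    have : |x ^ 2 - ρ ^ 2 * y ^ 2| ≤ 256 := by
      rw [abs_le]
      have a1 : 0 ≤ ρ ^ 2 * y ^ 2 := by positivity
      have a2 : x ^ 2 ≤ 256 := by nlinarith
      have a3 : y ^ 2 ≤ 256 := by nlinarith
      have a4 : ρ ^ 2 * y ^ 2 ≤ 1 * 256 := mul_le_mul hρ2 a3 (by positivity) (by norm_num)
      constructor <;> nlinarith
    calc 2 * Λ ^ 2 * |x ^ 2 - ρ ^ 2 * y ^ 2| ≤ 2 * Λ ^ 2 * 256 :=
          mul_le_mul_of_nonneg_left this (by positivity)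
      _ = 512 * Λ ^ 2 := by ring
  · intro hjpos
    have hρ0 : 0 ≤ ρ := by
      rw [hρ]
      have : (0:ℝ) < j := by exact_mod_cast hjpos
      positivity
    have q1 : 1 / 16 ≤ x + ρ * y := by
      have : 0 ≤ ρ * y := mul_nonneg hρ0 (by linarith)
      linarith
    have q2 : x + ρ * y ≤ 32 := by nlinarith
    rw [abs_of_pos (by positivity : 0 < Λ * (x + ρ * y))]
    have hc : 0 < |(j:ℝ)| * k * Λ := by positivity
    constructor
    · calc |(j:ℝ)| * k * Λ / 16 = |(j:ℝ)| * k * Λ * (1 / 16) := by ring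
        _ ≤ |(j:ℝ)| * k * Λ * (x + ρ * y) := mul_le_mul_of_nonneg_left q1 hc.le
        _ = _ := by ring
    · calc |(j:ℝ)| * k * (Λ * (x + ρ * y)) = |(j:ℝ)| * k * Λ * (x + ρ * y) := by ring
        _ ≤ |(j:ℝ)| * k * Λ * 32 := mul_le_mul_of_nonneg_left q2 hc.le
        _ = _ := by ring
  · intro hjneg
    have hρ0 : ρ ≤ 0 := by
      rw [hρ]
      have : (j:ℝ) < 0 := by exact_mod_cast hjneg
      apply div_nonpos_of_nonpos_of_nonneg
      · nlinarith
      · positivity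
    obtain ⟨p, hp⟩ : ∃ p, p = x - ρ * y := ⟨_, rfl⟩
    obtain ⟨q, hq⟩ : ∃ q, q = |x + ρ * y| := ⟨_, rfl⟩
    have p1 : 1 / 16 ≤ p := by rw [hp]; nlinarith
    have p2 : p ≤ 32 := by rw [hp]; nlinarith
    have hq0 : 0 ≤ q := by rw [hq]; exact abs_nonneg _
    have e1 : |2 * Λ ^ 2 * (x ^ 2 - ρ ^ 2 * y ^ 2)| = 2 * Λ ^ 2 * p * q := by
      have : 2 * Λ ^ 2 * (x ^ 2 - ρ ^ 2 * y ^ 2) = 2 * Λ ^ 2 * p * (x + ρ * y) := by
        rw [hp]; ring
      rw [this, abs_mul, abs_of_pos (by positivity : 0 < 2 * Λ ^ 2 * p), ← hq]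
    rw [e1, abs_mul, abs_of_pos hΛ0, ← hq]
    have e2 : 2 * Λ ^ 2 * p * q / Λ = 2 * Λ * q * p := by field_simp
    rw [e2]
    have hc : 0 ≤ |(j:ℝ)| * k * Λ * q := by positivity
    constructor
    · calc |(j:ℝ)| * k * (2 * Λ * q * p) / 64 = |(j:ℝ)| * k * Λ * q * (p / 32) := by ring
        _ ≤ |(j:ℝ)| * k * Λ * q * 1 := mul_le_mul_of_nonneg_left (by linarith) hc
        _ = _ := by ring
    · calc |(j:ℝ)| * k * (Λ * q) = |(j:ℝ)| * k * Λ * q * 1 := by ring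
        _ ≤ |(j:ℝ)| * k * Λ * q * (16 * p) := mul_le_mul_of_nonneg_left (by linarith) hc
        _ = _ := by ring

theorem C6_logbound {M Λ : ℝ} (hM : 1 ≤ M) (h1 : 1 ≤ Λ) (hΛ : Λ ≤ M) :
    ((Nat.log 2 ⌊512 * Λ⌋₊ : ℕ) : ℝ) + 1 ≤ 210 * M ^ (1 / 100 : ℝ) := by
  set I := Nat.log 2 ⌊512 * Λ⌋₊ with hI
  have h0 : ⌊512 * Λ⌋₊ ≠ 0 := by
    have : 1 ≤ ⌊512 * Λ⌋₊ := Nat.le_floor (by push_cast; linarith)
    omega
  have h2 : ((2 ^ I : ℕ) : ℝ) ≤ 512 * Λ :=
    le_trans (by exact_mod_cast Nat.pow_log_le_self 2 h0) (Nat.floor_le (by linarith))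
  have h3 : (I : ℝ) * Real.log 2 ≤ 9 * Real.log 2 + Real.log M := by
    have := Real.log_le_log (by positivity) h2
    push_cast at this
    rw [Real.log_pow, Real.log_mul (by norm_num) (by linarith)] at this
    have h5 : Real.log 512 = 9 * Real.log 2 := by
      rw [show (512:ℝ) = 2 ^ 9 by norm_num, Real.log_pow]; norm_num
    have h6 : Real.log Λ ≤ Real.log M := Real.log_le_log (by linarith) hΛ
    linarith
  have h7 : Real.log M ≤ M ^ (1/100 : ℝ) / (1/100) :=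
    Real.log_le_rpow_div (by linarith) (by norm_num)
  have h8 : 1 ≤ M ^ (1/100:ℝ) := Real.one_le_rpow hM (by norm_num)
  have h9 := Real.log_two_gt_d9
  have h10 : Real.log M ≤ 100 * M ^ (1/100 : ℝ) := by
    calc Real.log M ≤ M ^ (1/100 : ℝ) / (1/100) := h7
      _ = 100 * M ^ (1/100 : ℝ) := by ring
  by_cases hI9 : (I:ℝ) ≤ 9
  · nlinarith
  · push Not at hI9
    nlinarith

/-- levels -/
theorem C6_levels {Λ : ℝ} (h1 : 1 ≤ Λ) {r : ℝ} (hr : Λ ≤ |r|) (hr2 : |r| ≤ 512 * Λ ^ 2) :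
    ∃ i ∈ Finset.range (Nat.log 2 ⌊512 * Λ⌋₊ + 1), 2 ^ i * Λ ≤ |r| ∧ |r| ≤ 2 * (2 ^ i * Λ) := by
  have hΛ0 : 0 < Λ := by linarith
  have hq1 : 1 ≤ |r| / Λ := by rw [le_div_iff₀ hΛ0]; linarith
  have hq2 : |r| / Λ ≤ 512 * Λ := by
    rw [div_le_iff₀ hΛ0]; nlinarith
  set n := ⌊|r| / Λ⌋₊ with hn
  have hn1 : 1 ≤ n := Nat.le_floor (by push_cast; exact hq1)
  refine ⟨Nat.log 2 n, ?_, ?_, ?_⟩
  · rw [Finset.mem_range]
    have : Nat.log 2 n ≤ Nat.log 2 ⌊512 * Λ⌋₊ := Nat.log_mono_right (Nat.floor_le_floor hq2)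
    omega
  · have h2 : ((2 ^ Nat.log 2 n : ℕ) : ℝ) ≤ |r| / Λ :=
      le_trans (by exact_mod_cast Nat.pow_log_le_self 2 (by omega)) (Nat.floor_le (by linarith))
    push_cast at h2
    rwa [le_div_iff₀ hΛ0] at h2
  · have h3 : n + 1 ≤ 2 ^ (Nat.log 2 n + 1) := Nat.lt_pow_succ_log_self (by norm_num) n
    have h4 : |r| / Λ < n + 1 := Nat.lt_floor_add_one _
    have h5 : ((n + 1 : ℕ) : ℝ) ≤ ((2 ^ (Nat.log 2 n + 1) : ℕ) : ℝ) := by exact_mod_cast h3
    push_cast at h5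
    have h6 : |r| / Λ ≤ 2 ^ (Nat.log 2 n + 1) := by linarith
    rw [div_le_iff₀ hΛ0] at h6
    calc |r| ≤ 2 ^ (Nat.log 2 n + 1) * Λ := h6
      _ = _ := by rw [pow_succ]; ring

theorem C6_Th_zero {H f : ℝ} (hH : 0 ≤ H) : Th H 0 f ≤ H := by
  unfold Th
  split_ifs with h1
  · exact le_rfl
  · exact min_le_left _ _

theorem t_C6 (h6L : S_C6L) (h5 : S_C5) (h5b : S_C5b) : S_C6 := by
  classical
  intro K₁ hK₁
  obtain ⟨KL, M₀, hKL, hM₀, hL⟩ := h6L (4096 * K₁) (by linarith)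
  obtain ⟨K5, hK5, hC5⟩ := h5
  have hKKpos : 0 ≤ K5 * K₁ := by positivity
  refine ⟨26880 * KL + 64 * KL + 288 * K5 * K₁ + K5, M₀, by nlinarith, hM₀, ?_⟩
  intro B C H M j k hBal hM hk hj hjk hk1 hk2
  obtain ⟨hMe, hB, hC, hH, hM1, ⟨hB1, hB2⟩, ⟨hC1, hC2⟩, ⟨hH1, hH2⟩⟩ := id hBal
  have hB0 : 0 < B := by linarith
  have hC0 : 0 < C := by linarith
  have hH0 : 0 < H := by linarith
  have hM0 : 0 < M := by linarith
  have hkr : (0:ℝ) < k := by exact_mod_cast hk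
  have hjr : 0 < |(j:ℝ)| := abs_pos.mpr (by exact_mod_cast hj)
  have hLL := hL B C H M j k hBal hM hk hj hjk hk1 hk2
  have hkC1 : (k:ℝ) / C ≤ 1 :=
    hk2.trans (Real.rpow_le_one_of_one_le_of_nonpos hM1 (by norm_num))
  have hCC := hC5 B C H M j k hBal hk hj hjk hkC1
  have hF : ∀ ν ∈ Zs B C H j k, _ := fun ν hν => C6_facts h5b hB0 hC0 hH0 hk hj hjk hν
  obtain ⟨Λ, hΛ⟩ : ∃ Λ : ℝ, Λ = k * B / H := ⟨_, rfl⟩
  obtain ⟨κ, hκ⟩ : ∃ κ : ℝ, κ = |(j:ℝ)| * C / (k * B) := ⟨_, rfl⟩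
  rw [← hΛ, ← hκ]
  rw [← hΛ, ← hκ] at hLL
  rw [← hΛ] at hF
  have hκ0 : 0 < κ := by rw [hκ]; positivity
  have hΛM : Λ = k / C * M := by rw [hΛ, hMe]; field_simp
  have hΛ1 : 1 ≤ Λ := by
    rw [hΛM]
    calc 1 ≤ M ^ (4/100 : ℝ) := Real.one_le_rpow hM1 (by norm_num)
      _ = M ^ (-96/100 : ℝ) * M := by
        rw [← Real.rpow_add_one (by linarith)]; norm_num
      _ ≤ k / C * M := mul_le_mul_of_nonneg_right hk1 (by linarith)
  have hΛ0 : 0 < Λ := by linarith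
  have hΛ2 : Λ ≤ M := by
    rw [hΛM]
    nlinarith
  obtain ⟨E1, hE1⟩ : ∃ E1 : ℝ, E1 = M ^ (3 / 2 : ℝ) * κ ^ (-1 / 2 : ℝ) := ⟨_, rfl⟩
  obtain ⟨E0, hE0⟩ : ∃ E0 : ℝ, E0 = Λ ^ (7 / 2 : ℝ) * M ^ (-1 / 2 : ℝ) := ⟨_, rfl⟩
  rw [← hE1, ← hE0]
  rw [← hE1, ← hE0] at hLL
  have hE1p : 0 ≤ E1 := by rw [hE1]; positivity
  have hE0p : 0 ≤ E0 := by rw [hE0]; positivity
  have hgr : (0:ℝ) < (Int.gcd j k : ℕ) := by
    have : 0 < Int.gcd j k := Int.gcd_pos_of_ne_zero_left k hj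
    exact_mod_cast this
  obtain ⟨g, hg⟩ : ∃ g : ℕ, g = Int.gcd j k := ⟨_, rfl⟩
  rw [← hg] at hCC hgr ⊢
  -- one level
  have hLev : ∀ (R r₀ : ℝ) (S : Finset (ℤ × ℤ)), S ⊆ Zs B C H j k → Λ ≤ R →
      R ≤ 4096 * K₁ * Λ ^ 2 →
      (∀ ν ∈ S, r₀ ≤ (k : ℝ) * ν.2 - j * ν.1 ∧ (k : ℝ) * ν.2 - j * ν.1 ≤ r₀ + 4096 * K₁ * R) →
      (∀ ν ∈ S, |(j : ℝ)| * k * (R / Λ) / (4096 * K₁) ≤ DH B C H j k ν ∧
        DH B C H j k ν ≤ 4096 * K₁ * (|(j : ℝ)| * k * (R / Λ))) →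
      ∑ ν ∈ S, Th H (K₁ * DH B C H j k ν) (fH B C H j k ν) ≤
        64 * (KL * M ^ (1 / 25 : ℝ) * (E0 + E1)) := by
    intro R r₀ S hS h1 h2 h3 h4
    have h7 := hLL R r₀ S hS h1 h2 h3 h4
    refine le_trans ?_ (mul_le_mul_of_nonneg_left h7 (by norm_num : (0:ℝ) ≤ 64))
    rw [Finset.mul_sum]
    apply Finset.sum_le_sum
    intro ν _
    have hD0 : 0 ≤ K₁ * DH B C H j k ν := mul_nonneg (by linarith) (abs_nonneg _)
    have h8 := C6_Th_scale (c := 4096) hH0 hD0 (by norm_num) (fH B C H j k ν)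
    rw [show √(4096:ℝ) = 64 by
      rw [show (4096:ℝ) = 64 ^ 2 by norm_num]; exact Real.sqrt_sq (by norm_num)] at h8
    rw [show 4096 * (K₁ * DH B C H j k ν) = 4096 * K₁ * DH B C H j k ν by ring] at h8
    exact h8
  have hM20 : M ^ (1 / 25 : ℝ) ≤ M ^ (1 / 20 : ℝ) :=
    Real.rpow_le_rpow_of_exponent_le hM1 (by norm_num)
  have hM20p : 0 ≤ M ^ (1 / 20 : ℝ) := by positivity
  rcases lt_or_gt_of_ne hj with hjneg | hjpos
  · -- negative j
    have hsplit : ∑ ν ∈ Zs B C H j k, Th H (K₁ * DH B C H j k ν) (fH B C H j k ν) ≤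
        ∑ ν ∈ (Zs B C H j k).filter (fun ν => k * ν.2 - j * ν.1 = 0),
          Th H (K₁ * DH B C H j k ν) (fH B C H j k ν) +
        (∑ ν ∈ (Zs B C H j k).filter (fun ν => k * ν.2 - j * ν.1 ≠ 0 ∧
            |(k : ℝ) * ν.2 - j * ν.1| < Λ), Th H (K₁ * DH B C H j k ν) (fH B C H j k ν) +
        ∑ ν ∈ (Zs B C H j k).filter (fun ν => Λ ≤ |(k : ℝ) * ν.2 - j * ν.1|),
          Th H (K₁ * DH B C H j k ν) (fH B C H j k ν)) := by
      have hTh0 : ∀ ν, 0 ≤ Th H (K₁ * DH B C H j k ν) (fH B C H j k ν) :=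
        fun ν => C6_Th_nonneg hH0.le _ _
      rw [Finset.sum_filter, Finset.sum_filter, Finset.sum_filter, ← Finset.sum_add_distrib,
        ← Finset.sum_add_distrib]
      apply Finset.sum_le_sum
      intro ν _
      have h1 := hTh0 ν
      by_cases ha : k * ν.2 - j * ν.1 = 0
      · simp only [ha, if_true]
        split_ifs <;> linarith
      · by_cases hb : |(k : ℝ) * ν.2 - j * ν.1| < Λ
        · have hc : k * ν.2 - j * ν.1 ≠ 0 ∧ |(k : ℝ) * ν.2 - j * ν.1| < Λ := ⟨ha, hb⟩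
          rw [if_pos hc]
          split_ifs <;> linarith
        · rw [if_pos (not_lt.mp hb)]
          split_ifs <;> linarith
    have hT2 : ∑ ν ∈ (Zs B C H j k).filter (fun ν => Λ ≤ |(k : ℝ) * ν.2 - j * ν.1|),
          Th H (K₁ * DH B C H j k ν) (fH B C H j k ν) ≤
        26880 * KL * (M ^ (1 / 20 : ℝ) * (E0 + E1)) := by
      have hc := C6_cover ((Zs B C H j k).filter (fun ν => Λ ≤ |(k : ℝ) * ν.2 - j * ν.1|))
        (Finset.range (Nat.log 2 ⌊512 * Λ⌋₊ + 1) ×ˢ ({0, 1} : Finset ℕ))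
        (fun p => (Zs B C H j k).filter (fun ν => 2 ^ p.1 * Λ ≤ |(k : ℝ) * ν.2 - j * ν.1| ∧
          |(k : ℝ) * ν.2 - j * ν.1| ≤ 2 * (2 ^ p.1 * Λ) ∧
          (if p.2 = 0 then 0 ≤ (k : ℝ) * ν.2 - j * ν.1 else (k : ℝ) * ν.2 - j * ν.1 ≤ 0)))
        (fun ν => Th H (K₁ * DH B C H j k ν) (fH B C H j k ν))
        (fun ν => C6_Th_nonneg hH0.le _ _) ?_
      · refine hc.trans ?_
        have hterm : ∀ p ∈ Finset.range (Nat.log 2 ⌊512 * Λ⌋₊ + 1) ×ˢ ({0, 1} : Finset ℕ),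
            ∑ ν ∈ (Zs B C H j k).filter (fun ν => 2 ^ p.1 * Λ ≤ |(k : ℝ) * ν.2 - j * ν.1| ∧
              |(k : ℝ) * ν.2 - j * ν.1| ≤ 2 * (2 ^ p.1 * Λ) ∧
              (if p.2 = 0 then 0 ≤ (k : ℝ) * ν.2 - j * ν.1 else (k : ℝ) * ν.2 - j * ν.1 ≤ 0)),
              Th H (K₁ * DH B C H j k ν) (fH B C H j k ν) ≤
            64 * (KL * M ^ (1 / 25 : ℝ) * (E0 + E1)) := by
          intro p hp
          obtain ⟨hp1, -⟩ := Finset.mem_product.mp hp
          rw [Finset.mem_range] at hp1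
          have hpow1 : (1:ℝ) ≤ 2 ^ p.1 := one_le_pow₀ (by norm_num)
          have hpow2 : (2:ℝ) ^ p.1 ≤ 512 * Λ := by
            have h0 : ⌊512 * Λ⌋₊ ≠ 0 := by
              have : 1 ≤ ⌊512 * Λ⌋₊ := Nat.le_floor (by push_cast; linarith)
              omega
            have h2 : ((2 ^ (Nat.log 2 ⌊512 * Λ⌋₊) : ℕ) : ℝ) ≤ 512 * Λ :=
              le_trans (by exact_mod_cast Nat.pow_log_le_self 2 h0) (Nat.floor_le (by linarith))
            push_cast at h2
            exact (pow_le_pow_right₀ (by norm_num) (by omega)).trans h2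
          have hR0 : 0 < 2 ^ p.1 * Λ := by positivity
          apply hLev (2 ^ p.1 * Λ) (if p.2 = 0 then 2 ^ p.1 * Λ else -(2 * (2 ^ p.1 * Λ))) _
            (Finset.filter_subset _ _)
          · nlinarith
          · calc 2 ^ p.1 * Λ ≤ 512 * Λ * Λ := mul_le_mul_of_nonneg_right hpow2 hΛ0.le
              _ = 512 * Λ ^ 2 := by ring
              _ ≤ 4096 * K₁ * Λ ^ 2 := by
                apply mul_le_mul_of_nonneg_right _ (by positivity)
                linarith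
          · intro ν hν
            obtain ⟨-, h1, h2, h3⟩ := Finset.mem_filter.mp hν
            have hK2 : 2 ^ p.1 * Λ * 4096 ≤ 4096 * K₁ * (2 ^ p.1 * Λ) := by nlinarith
            split_ifs at h3 ⊢ with h4
            · rw [abs_of_nonneg h3] at h1 h2
              constructor
              · exact h1
              · linarith
            · rw [abs_of_nonpos h3] at h1 h2
              constructor
              · linarith
              · linarith
          · intro ν hν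
            obtain ⟨hν1, h1, h2, -⟩ := Finset.mem_filter.mp hν
            obtain ⟨-, -, hn⟩ := hF ν hν1
            obtain ⟨h3, h4⟩ := hn hjneg
            obtain ⟨q, hq⟩ : ∃ q, q = |(k : ℝ) * ν.2 - j * ν.1| / Λ := ⟨_, rfl⟩
            rw [← hq] at h3 h4
            have hq1 : 2 ^ p.1 * Λ / Λ ≤ q := by
              rw [hq]; exact div_le_div_of_nonneg_right h1 hΛ0.le
            have hq2 : q ≤ 2 * (2 ^ p.1 * Λ / Λ) := by
              rw [hq, ← mul_div_assoc]; exact div_le_div_of_nonneg_right h2 hΛ0.le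
            obtain ⟨w, hw⟩ : ∃ w, w = 2 ^ p.1 * Λ / Λ := ⟨_, rfl⟩
            rw [← hw] at hq1 hq2 ⊢
            have hw0 : 0 ≤ w := by rw [hw]; positivity
            have hjk0 : 0 ≤ |(j:ℝ)| * k := by positivity
            constructor
            · refine le_trans ?_ h3
              calc |(j:ℝ)| * k * w / (4096 * K₁) ≤ |(j:ℝ)| * k * w / 64 :=
                    div_le_div_of_nonneg_left (by positivity) (by norm_num) (by linarith)
                _ ≤ |(j:ℝ)| * k * q / 64 := by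
                    apply div_le_div_of_nonneg_right _ (by norm_num)
                    exact mul_le_mul_of_nonneg_left hq1 hjk0
            · refine h4.trans ?_
              calc 8 * (|(j:ℝ)| * k * q) ≤ 8 * (|(j:ℝ)| * k * (2 * w)) := by gcongr
                _ = 16 * (|(j:ℝ)| * k * w) := by ring
                _ ≤ 4096 * K₁ * (|(j:ℝ)| * k * w) := by
                    apply mul_le_mul_of_nonneg_right _ (by positivity)
                    linarith
        have h2 := Finset.sum_le_card_nsmul _ _ _ hterm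
        rw [nsmul_eq_mul] at h2
        refine h2.trans ?_
        rw [Finset.card_product, Finset.card_range,
          show ({0, 1} : Finset ℕ).card = 2 from rfl]
        have h3 := C6_logbound hM1 hΛ1 hΛ2
        push_cast
        have hE : 0 ≤ E0 + E1 := by linarith
        calc ((Nat.log 2 ⌊512 * Λ⌋₊ : ℕ) + 1 : ℝ) * 2 * (64 * (KL * M ^ (1 / 25 : ℝ) * (E0 + E1)))
            ≤ (210 * M ^ (1 / 100 : ℝ)) * 2 * (64 * (KL * M ^ (1 / 25 : ℝ) * (E0 + E1))) := by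
              gcongr
          _ = 26880 * KL * ((M ^ (1 / 100 : ℝ) * M ^ (1 / 25 : ℝ)) * (E0 + E1)) := by ring
          _ = _ := by
              rw [← Real.rpow_add hM0]
              norm_num
      · intro ν hν
        obtain ⟨hν1, hν2⟩ := Finset.mem_filter.mp hν
        obtain ⟨hr, -, -⟩ := hF ν hν1
        obtain ⟨i, hi, h1, h2⟩ := C6_levels hΛ1 hν2 hr
        rcases le_total 0 ((k : ℝ) * ν.2 - j * ν.1) with h3 | h3
        · refine ⟨(i, 0), Finset.mem_product.mpr ⟨hi, by simp⟩, ?_⟩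
          exact Finset.mem_filter.mpr ⟨hν1, h1, h2, by simpa using h3⟩
        · refine ⟨(i, 1), Finset.mem_product.mpr ⟨hi, by simp⟩, ?_⟩
          exact Finset.mem_filter.mpr ⟨hν1, h1, h2, by simpa using h3⟩
    have hT1 : ∑ ν ∈ (Zs B C H j k).filter (fun ν => k * ν.2 - j * ν.1 ≠ 0 ∧
            |(k : ℝ) * ν.2 - j * ν.1| < Λ), Th H (K₁ * DH B C H j k ν) (fH B C H j k ν) ≤
        288 * K5 * K₁ * (M ^ (1 / 20 : ℝ) * E1) := by
      -- sizes
      have hjkH : |(j:ℝ)| * k ≤ H ^ 2 := by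
        have hMBC : B * C = M * H := by rw [hMe]; field_simp
        have e1 : |(j:ℝ)| ≤ k / C * B := by
          rwa [div_le_iff₀ hB0] at hjk
        have e2 : |(j:ℝ)| * k ≤ (k / C) * (k / C) * (B * C) := by
          calc |(j:ℝ)| * k ≤ (k / C * B) * k := mul_le_mul_of_nonneg_right e1 hkr.le
            _ = (k / C) * (k / C) * (B * C) := by field_simp
        have e3 : (k:ℝ) / C * (k / C) ≤ M ^ (-43 / 100 : ℝ) * M ^ (-43 / 100 : ℝ) :=
          mul_le_mul hk2 hk2 (by positivity) (by positivity)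
        have e4 : M ^ (-43 / 100 : ℝ) * M ^ (-43 / 100 : ℝ) * M ≤ H := by
          calc M ^ (-43 / 100 : ℝ) * M ^ (-43 / 100 : ℝ) * M
              = M ^ (-43 / 100 + -43 / 100 + 1 : ℝ) := by
                rw [Real.rpow_add_one hM0.ne', Real.rpow_add hM0]
            _ ≤ M ^ (1 - 1 / 800 : ℝ) := Real.rpow_le_rpow_of_exponent_le hM1 (by norm_num)
            _ ≤ H := hH1
        calc |(j:ℝ)| * k ≤ (k / C) * (k / C) * (B * C) := e2
          _ ≤ (M ^ (-43 / 100 : ℝ) * M ^ (-43 / 100 : ℝ)) * (B * C) :=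
              mul_le_mul_of_nonneg_right e3 (by positivity)
          _ = (M ^ (-43 / 100 : ℝ) * M ^ (-43 / 100 : ℝ) * M) * H := by rw [hMBC]; ring
          _ ≤ H * H := mul_le_mul_of_nonneg_right e4 hH0.le
          _ = H ^ 2 := by ring
      have hjk0 : 0 < |(j:ℝ)| * k := by positivity
      -- the main quantity
      obtain ⟨A, hA⟩ : ∃ A : ℝ, A = H ^ 3 * Λ / (|(j:ℝ)| * k) := ⟨_, rfl⟩
      have hA0 : 0 < A := by rw [hA]; positivity
      have hptw : ∀ ν ∈ Zs B C H j k, ∀ t : ℝ, 0 < t → t * g ≤ Λ →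
          |(k : ℝ) * ν.2 - j * ν.1| = t * g →
          Th H (K₁ * DH B C H j k ν) (fH B C H j k ν) ≤ 72 * K₁ * (√A / √(g:ℝ) * (1 / √t)) := by
        intro ν hν t ht htg hr
        obtain ⟨-, -, hn⟩ := hF ν hν
        obtain ⟨h1, h2⟩ := hn hjneg
        rw [hr] at h1 h2
        have htg0 : 0 < t * g := by positivity
        have h3 : 0 < |(j:ℝ)| * k * (t * g / Λ) / 64 := by positivity
        have hD0 : 0 < DH B C H j k ν := lt_of_lt_of_le h3 h1
        have hq1 : t * g / Λ ≤ 1 := by rw [div_le_one hΛ0]; exact htg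
        have hD8 : DH B C H j k ν ≤ 8 * H ^ 2 := by
          refine h2.trans ?_
          calc 8 * (|(j:ℝ)| * k * (t * g / Λ)) ≤ 8 * (|(j:ℝ)| * k * 1) := by gcongr
            _ ≤ 8 * H ^ 2 := by linarith
        refine (C6_Th_small hH0 hD0 hD8 hK₁ _).trans ?_
        have h4 : √(H ^ 3 / DH B C H j k ν) ≤ 8 * (√A / √(g:ℝ) * (1 / √t)) := by
          rw [Real.sqrt_le_left (by positivity)]
          rw [mul_pow, mul_pow, div_pow, div_pow, Real.sq_sqrt hA0.le, Real.sq_sqrt hgr.le,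
            Real.sq_sqrt ht.le]
          calc H ^ 3 / DH B C H j k ν ≤ H ^ 3 / (|(j:ℝ)| * k * (t * g / Λ) / 64) :=
                div_le_div_of_nonneg_left (by positivity) h3 h1
            _ = 8 ^ 2 * (A / g * (1 ^ 2 / t)) := by
                rw [hA]; field_simp; norm_num
        calc 9 * K₁ * √(H ^ 3 / DH B C H j k ν) ≤ 9 * K₁ * (8 * (√A / √(g:ℝ) * (1 / √t))) := by
              gcongr
          _ = _ := by ring
      have hc := C6_cover ((Zs B C H j k).filter (fun ν => k * ν.2 - j * ν.1 ≠ 0 ∧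
            |(k : ℝ) * ν.2 - j * ν.1| < Λ))
        (Finset.Icc 1 ⌊Λ / g⌋₊ ×ˢ ({1, -1} : Finset ℤ))
        (fun p => (Zs B C H j k).filter (fun ν => k * ν.2 - j * ν.1 = p.2 * ((p.1 : ℤ) * g)))
        (fun ν => Th H (K₁ * DH B C H j k ν) (fH B C H j k ν))
        (fun ν => C6_Th_nonneg hH0.le _ _) ?_
      · refine hc.trans ?_
        have hterm : ∀ p ∈ Finset.Icc 1 ⌊Λ / g⌋₊ ×ˢ ({1, -1} : Finset ℤ),
            ∑ ν ∈ (Zs B C H j k).filter (fun ν => k * ν.2 - j * ν.1 = p.2 * ((p.1 : ℤ) * g)),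
              Th H (K₁ * DH B C H j k ν) (fH B C H j k ν) ≤
            (K5 * M ^ (1 / 400 : ℝ) * g) * (72 * K₁ * (√A / √(g:ℝ))) * (1 / √(p.1:ℝ)) := by
          intro p hp
          obtain ⟨hp1, hp2⟩ := Finset.mem_product.mp hp
          obtain ⟨hp3, hp4⟩ := Finset.mem_Icc.mp hp1
          have hp5 : (0:ℝ) < p.1 := by exact_mod_cast hp3
          have hp6 : (p.1 : ℝ) ≤ Λ / g :=
            le_trans (by exact_mod_cast hp4) (Nat.floor_le (by positivity))
          rw [le_div_iff₀ hgr] at hp6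
          have h1 : ∀ ν ∈ (Zs B C H j k).filter
              (fun ν => k * ν.2 - j * ν.1 = p.2 * ((p.1 : ℤ) * g)),
              Th H (K₁ * DH B C H j k ν) (fH B C H j k ν) ≤
                72 * K₁ * (√A / √(g:ℝ) * (1 / √(p.1:ℝ))) := by
            intro ν hν
            obtain ⟨hν1, hν2⟩ := Finset.mem_filter.mp hν
            apply hptw ν hν1 p.1 hp5 hp6
            have h3 : (k : ℝ) * ν.2 - j * ν.1 = (p.2 : ℝ) * ((p.1 : ℝ) * g) := by
              exact_mod_cast hν2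
            rw [h3, abs_mul]
            have h4 : |(p.2 : ℝ)| = 1 := by
              simp only [Finset.mem_insert, Finset.mem_singleton] at hp2
              rcases hp2 with h | h <;> rw [h] <;> simp
            rw [h4, one_mul, abs_of_pos (by positivity)]
          have h2 := Finset.sum_le_card_nsmul _ _ _ h1
          rw [nsmul_eq_mul] at h2
          refine h2.trans ?_
          have h3 := (hCC (p.2 * ((p.1 : ℤ) * g))).2
          calc _ ≤ (K5 * M ^ (1 / 400 : ℝ) * g) * (72 * K₁ * (√A / √(g:ℝ) * (1 / √(p.1:ℝ)))) := by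
                apply mul_le_mul_of_nonneg_right h3 (by positivity)
            _ = _ := by ring
        refine (Finset.sum_le_sum hterm).trans ?_
        rw [Finset.sum_product]
        have hinner : ∀ t ∈ Finset.Icc 1 ⌊Λ / g⌋₊, ∑ _e ∈ ({1, -1} : Finset ℤ),
            (K5 * M ^ (1 / 400 : ℝ) * g) * (72 * K₁ * (√A / √(g:ℝ))) * (1 / √(t:ℝ)) =
            2 * ((K5 * M ^ (1 / 400 : ℝ) * g) * (72 * K₁ * (√A / √(g:ℝ)))) * (1 / √(t:ℝ)) := by
          intro t _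
          rw [Finset.sum_const, show ({1, -1} : Finset ℤ).card = 2 from rfl, nsmul_eq_mul]
          push_cast
          ring
        rw [Finset.sum_congr rfl hinner, ← Finset.mul_sum]
        have hs1 := C6_sqrt_sum ⌊Λ / g⌋₊
        have hs2 : √((⌊Λ / g⌋₊ : ℕ) : ℝ) ≤ √Λ / √(g:ℝ) := by
          rw [← Real.sqrt_div hΛ0.le]
          exact Real.sqrt_le_sqrt (Nat.floor_le (by positivity))
        have hs3 : ∑ t ∈ Finset.Icc 1 ⌊Λ / g⌋₊, 1 / √(t:ℝ) ≤ 2 * (√Λ / √(g:ℝ)) := by linarith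
        have hsg : √(g:ℝ) * √(g:ℝ) = g := Real.mul_self_sqrt hgr.le
        have hsg0 : 0 < √(g:ℝ) := Real.sqrt_pos.mpr hgr
        have hAΛ : √A * √Λ = H * (M ^ (1 / 2 : ℝ) * κ ^ (-1 / 2 : ℝ)) := by
          rw [← Real.sqrt_mul hA0.le]
          have h1 : A * Λ = H ^ 2 * (M * κ⁻¹) := by
            rw [hA, hκ, hΛ, hMe]
            field_simp
          rw [h1, Real.sqrt_mul (by positivity), Real.sqrt_sq hH0.le, Real.sqrt_mul hM0.le,
            Real.sqrt_eq_rpow, Real.sqrt_eq_rpow, ← Real.rpow_neg_one κ, ← Real.rpow_mul hκ0.le]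
          norm_num
        calc 2 * ((K5 * M ^ (1 / 400 : ℝ) * g) * (72 * K₁ * (√A / √(g:ℝ)))) *
              ∑ t ∈ Finset.Icc 1 ⌊Λ / g⌋₊, 1 / √(t:ℝ)
            ≤ 2 * ((K5 * M ^ (1 / 400 : ℝ) * g) * (72 * K₁ * (√A / √(g:ℝ)))) *
              (2 * (√Λ / √(g:ℝ))) := by
              apply mul_le_mul_of_nonneg_left hs3 (by positivity)
          _ = 288 * K5 * K₁ * (M ^ (1 / 400 : ℝ) * (√A * √Λ) * (g / (√(g:ℝ) * √(g:ℝ)))) := by
              field_simp
              ring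
          _ = 288 * K5 * K₁ * (M ^ (1 / 400 : ℝ) * (H * (M ^ (1 / 2 : ℝ) * κ ^ (-1 / 2 : ℝ)))) := by
              rw [hsg, div_self hgr.ne', mul_one, hAΛ]
          _ ≤ 288 * K5 * K₁ * (M ^ (1 / 20 : ℝ) * E1) := by
              apply mul_le_mul_of_nonneg_left _ (by positivity)
              rw [hE1]
              calc M ^ (1 / 400 : ℝ) * (H * (M ^ (1 / 2 : ℝ) * κ ^ (-1 / 2 : ℝ)))
                  ≤ M ^ (1 / 400 : ℝ) * (M ^ (1 + 1 / 800 : ℝ) *
                    (M ^ (1 / 2 : ℝ) * κ ^ (-1 / 2 : ℝ))) := by gcongr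
                _ = (M ^ (1 / 400 : ℝ) * M ^ (1 + 1 / 800 : ℝ) * M ^ (1 / 2 : ℝ)) *
                    κ ^ (-1 / 2 : ℝ) := by ring
                _ = M ^ (1 / 400 + (1 + 1 / 800) + 1 / 2 : ℝ) * κ ^ (-1 / 2 : ℝ) := by
                    rw [Real.rpow_add hM0 (1 / 400 + (1 + 1 / 800)) (1 / 2),
                      Real.rpow_add hM0 (1 / 400) (1 + 1 / 800)]
                _ ≤ M ^ (1 / 20 + 3 / 2 : ℝ) * κ ^ (-1 / 2 : ℝ) := by
                    apply mul_le_mul_of_nonneg_right _ (by positivity)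
                    exact Real.rpow_le_rpow_of_exponent_le hM1 (by norm_num)
                _ = _ := by rw [Real.rpow_add hM0]; ring
      · intro ν hν
        obtain ⟨hν1, hν2, hν3⟩ := Finset.mem_filter.mp hν
        have hdvd : (g : ℤ) ∣ k * ν.2 - j * ν.1 := by
          by_contra hcon
          have h1 := (hCC (k * ν.2 - j * ν.1)).1 hcon
          have h2 : ν ∈ (Zs B C H j k).filter
              (fun ν' => k * ν'.2 - j * ν'.1 = k * ν.2 - j * ν.1) :=
            Finset.mem_filter.mpr ⟨hν1, rfl⟩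
          rw [h1] at h2
          simp at h2
        obtain ⟨t, ht⟩ := hdvd
        have ht0 : t ≠ 0 := by
          rintro rfl
          apply hν2
          rw [ht, mul_zero]
        have hreal : (k : ℝ) * ν.2 - j * ν.1 = (g : ℝ) * t := by exact_mod_cast ht
        have hna : ((t.natAbs : ℕ) : ℝ) = |(t:ℝ)| := by
          rw [← Int.cast_abs, Int.abs_eq_natAbs]; simp
        have htle : t.natAbs ≤ ⌊Λ / g⌋₊ := by
          apply Nat.le_floor
          rw [hna, le_div_iff₀ hgr]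
          rw [hreal, abs_mul, abs_of_pos hgr] at hν3
          linarith
        have ht1 : 1 ≤ t.natAbs := Nat.one_le_iff_ne_zero.mpr (Int.natAbs_ne_zero.mpr ht0)
        rcases le_total 0 t with h3 | h3
        · refine ⟨(t.natAbs, 1), Finset.mem_product.mpr ⟨Finset.mem_Icc.mpr ⟨ht1, htle⟩,
            by simp⟩, ?_⟩
          refine Finset.mem_filter.mpr ⟨hν1, ?_⟩
          show k * ν.2 - j * ν.1 = 1 * ((t.natAbs : ℤ) * g)
          rw [ht, Int.natAbs_of_nonneg h3]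
          ring
        · refine ⟨(t.natAbs, -1), Finset.mem_product.mpr ⟨Finset.mem_Icc.mpr ⟨ht1, htle⟩,
            by simp⟩, ?_⟩
          refine Finset.mem_filter.mpr ⟨hν1, ?_⟩
          show k * ν.2 - j * ν.1 = -1 * ((t.natAbs : ℤ) * g)
          rw [ht, Int.ofNat_natAbs_of_nonpos h3]
          ring
    have hT0 : ∑ ν ∈ (Zs B C H j k).filter (fun ν => k * ν.2 - j * ν.1 = 0),
          Th H (K₁ * DH B C H j k ν) (fH B C H j k ν) ≤ K5 * (M ^ (1 / 20 : ℝ) * (g * M)) := by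
      have h1 : ∀ ν ∈ (Zs B C H j k).filter (fun ν => k * ν.2 - j * ν.1 = 0),
          Th H (K₁ * DH B C H j k ν) (fH B C H j k ν) ≤ H := by
        intro ν hν
        obtain ⟨hν1, hν2⟩ := Finset.mem_filter.mp hν
        obtain ⟨-, -, hn⟩ := hF ν hν1
        obtain ⟨h2, h3⟩ := hn hjneg
        have h4 : (k : ℝ) * ν.2 - j * ν.1 = 0 := by exact_mod_cast hν2
        rw [h4] at h2 h3
        simp only [abs_zero, zero_div, mul_zero] at h2 h3
        have h5 : DH B C H j k ν = 0 := le_antisymm h3 h2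
        rw [h5, mul_zero]
        exact C6_Th_zero hH0.le
      have h2 := Finset.sum_le_card_nsmul _ _ _ h1
      rw [nsmul_eq_mul] at h2
      refine h2.trans ?_
      have h3 := (hCC 0).2
      have h4 : H * M ^ (1 / 400 : ℝ) ≤ M * M ^ (1 / 20 : ℝ) := by
        calc H * M ^ (1 / 400 : ℝ) ≤ M ^ (1 + 1 / 800 : ℝ) * M ^ (1 / 400 : ℝ) :=
              mul_le_mul_of_nonneg_right hH2 (by positivity)
          _ = M ^ (1 + 1 / 800 + 1 / 400 : ℝ) := by rw [← Real.rpow_add hM0]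
          _ ≤ M ^ (1 + 1 / 20 : ℝ) := Real.rpow_le_rpow_of_exponent_le hM1 (by norm_num)
          _ = M * M ^ (1 / 20 : ℝ) := by rw [Real.rpow_add hM0, Real.rpow_one]
      calc _ ≤ (K5 * M ^ (1 / 400 : ℝ) * g) * H := mul_le_mul_of_nonneg_right h3 hH0.le
        _ = K5 * g * (H * M ^ (1 / 400 : ℝ)) := by ring
        _ ≤ K5 * g * (M * M ^ (1 / 20 : ℝ)) := mul_le_mul_of_nonneg_left h4 (by positivity)
        _ = _ := by ring
    refine hsplit.trans ?_
    have hX : 0 ≤ M ^ (1 / 20 : ℝ) * E0 := by positivity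
    have hY : 0 ≤ M ^ (1 / 20 : ℝ) * E1 := by positivity
    have hZ : 0 ≤ M ^ (1 / 20 : ℝ) * (g * M) := by positivity
    have e1 : (26880 * KL + 64 * KL + 288 * K5 * K₁ + K5) * M ^ (1 / 20 : ℝ) * (E0 + E1 + g * M) =
        K5 * (M ^ (1 / 20 : ℝ) * (g * M)) + (288 * K5 * K₁ * (M ^ (1 / 20 : ℝ) * E1) +
          26880 * KL * (M ^ (1 / 20 : ℝ) * (E0 + E1))) +
        (64 * KL * (M ^ (1 / 20 : ℝ) * (E0 + E1)) + 288 * (K5 * K₁) * (M ^ (1 / 20 : ℝ) * E0)
          + K5 * (M ^ (1 / 20 : ℝ) * E0) + K5 * (M ^ (1 / 20 : ℝ) * E1) +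
          (26880 * KL + 64 * KL + 288 * (K5 * K₁)) * (M ^ (1 / 20 : ℝ) * (g * M))) := by ring
    rw [e1]
    have e2 : 0 ≤ (64 * KL * (M ^ (1 / 20 : ℝ) * (E0 + E1)) +
        288 * (K5 * K₁) * (M ^ (1 / 20 : ℝ) * E0)
          + K5 * (M ^ (1 / 20 : ℝ) * E0) + K5 * (M ^ (1 / 20 : ℝ) * E1) +
          (26880 * KL + 64 * KL + 288 * (K5 * K₁)) * (M ^ (1 / 20 : ℝ) * (g * M))) := by
      positivity
    linarith
  · -- positive j
    have h1 := hLev (Λ ^ 2) (-512 * Λ ^ 2) (Zs B C H j k) (Finset.Subset.refl _) (by nlinarith)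
      (by nlinarith [sq_nonneg Λ]) ?_ ?_
    · refine h1.trans ?_
      have h2 : 0 ≤ E0 + E1 := by linarith
      have h3 : 0 ≤ M ^ (1 / 20 : ℝ) * (E0 + E1) := by positivity
      calc 64 * (KL * M ^ (1 / 25 : ℝ) * (E0 + E1))
          ≤ 64 * (KL * M ^ (1 / 20 : ℝ) * (E0 + E1)) := by gcongr
        _ = 64 * KL * (M ^ (1 / 20 : ℝ) * (E0 + E1)) := by ring
        _ ≤ (26880 * KL + 64 * KL + 288 * K5 * K₁ + K5) * (M ^ (1 / 20 : ℝ) * (E0 + E1)) := by
          apply mul_le_mul_of_nonneg_right _ h3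
          nlinarith
        _ ≤ (26880 * KL + 64 * KL + 288 * K5 * K₁ + K5) * M ^ (1 / 20 : ℝ) *
            (E0 + E1 + g * M) := by
          rw [mul_assoc _ (M ^ (1 / 20 : ℝ))]
          apply mul_le_mul_of_nonneg_left _ (by positivity)
          apply mul_le_mul_of_nonneg_left _ hM20p
          have : 0 ≤ (g:ℝ) * M := by positivity
          linarith
    · intro ν hν
      obtain ⟨hr, -, -⟩ := hF ν hν
      obtain ⟨h1, h2⟩ := abs_le.mp hr
      constructor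
      · linarith
      · nlinarith [sq_nonneg Λ]
    · intro ν hν
      obtain ⟨-, hp, -⟩ := hF ν hν
      obtain ⟨h1, h2⟩ := hp hjpos
      have h3 : Λ ^ 2 / Λ = Λ := by field_simp
      rw [h3]
      have h4 : 0 ≤ |(j:ℝ)| * k * Λ := by positivity
      constructor
      · refine le_trans ?_ h1
        apply div_le_div_of_nonneg_left h4 (by norm_num) (by nlinarith)
      · refine h2.trans ?_
        apply mul_le_mul_of_nonneg_right _ h4
        nlinarith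

end Pool.Agent.H304R4.CM
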