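import Mathlib
import Pool.Agent.H304R4.CM.Stubs

/-! # TEAM CM, task C6L: one level. -/

open Complex MeasureTheory Filter Topology

namespace Pool.Agent.H304R4.CM

theorem c6l_dy (θ a H : ℝ) (I : ℕ) (hH : 1 ≤ H) (hI : H ≤ 2 ^ I) (h0 : 0 < θ) (h1 : θ ≤ 1)
    (ha : a < θ) :
    min H (1 / θ) ≤ ∑ i ∈ Finset.range (I + 1),
      (if θ ≤ (1 / 2 : ℝ) ^ i ∧ a ≤ (1 / 2 : ℝ) ^ i then 2 * (2 : ℝ) ^ i else 0) := by
  have key : ∃ i ∈ Finset.range (I + 1), θ ≤ (1 / 2 : ℝ) ^ i ∧ min H (1 / θ) ≤ 2 * (2 : ℝ) ^ i := by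
    by_cases hc : θ ≤ (1 / 2 : ℝ) ^ I
    · refine ⟨I, by simp, hc, ?_⟩
      have h2 := min_le_left H (1 / θ)
      have h3 : (0 : ℝ) < 2 ^ I := by positivity
      linarith
    · push Not at hc
      obtain ⟨n, hn1, hn2⟩ := exists_nat_pow_near_of_lt_one h0 h1 (by norm_num : (0 : ℝ) < 1 / 2)
        (by norm_num)
      have hnI : n < I := by
        by_contra hcon
        push Not at hcon
        have : (1 / 2 : ℝ) ^ n ≤ (1 / 2 : ℝ) ^ I :=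
          pow_le_pow_of_le_one (by norm_num) (by norm_num) hcon
        linarith
      refine ⟨n, by simp; omega, hn2, ?_⟩
      have h2 := min_le_right H (1 / θ)
      have h3 : 1 / θ ≤ 2 * (2 : ℝ) ^ n := by
        rw [div_le_iff₀ h0]
        have h4 : (1 / 2 : ℝ) ^ (n + 1) * (2 * 2 ^ n) = 1 := by
          rw [pow_succ, one_div, inv_pow]
          have : (2 : ℝ) ^ n ≠ 0 := by positivity
          field_simp
        have h5 : (0 : ℝ) < 2 * 2 ^ n := by positivity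
        nlinarith
      linarith
  obtain ⟨i, hi, hi1, hi2⟩ := key
  have hle : (if θ ≤ (1 / 2 : ℝ) ^ i ∧ a ≤ (1 / 2 : ℝ) ^ i then 2 * (2 : ℝ) ^ i else 0) ≤
      ∑ i ∈ Finset.range (I + 1),
      (if θ ≤ (1 / 2 : ℝ) ^ i ∧ a ≤ (1 / 2 : ℝ) ^ i then 2 * (2 : ℝ) ^ i else 0) := by
    apply Finset.single_le_sum (f := fun i => (if θ ≤ (1 / 2 : ℝ) ^ i ∧ a ≤ (1 / 2 : ℝ) ^ i
      then 2 * (2 : ℝ) ^ i else 0)) _ hi
    intro i _
    split_ifs <;> positivity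
  rw [if_pos ⟨hi1, by linarith⟩] at hle
  linarith

theorem c6l_first {H D DR f : ℝ} (hH : 1 ≤ H) (hDR : 0 < DR) (h1 : DR ≤ D) (h2 : D ≤ H ^ 2)
    (hf : nd f ≤ D / H ^ 2) : Th H D f ≤ 2 * √(H ^ 3 / DR) := by
  have hD : 0 < D := by linarith
  have hH0 : 0 < H := by linarith
  have e1 : √(H ^ 3 / D) ≤ √(H ^ 3 / DR) := by
    apply Real.sqrt_le_sqrt
    exact div_le_div_of_nonneg_left (by positivity) hDR h1
  have e0 : 0 ≤ √(H ^ 3 / D) := Real.sqrt_nonneg _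
  unfold Th
  rw [if_pos hf]
  split_ifs with h
  · have : H ≤ √(H ^ 3 / D) := by
      apply Real.le_sqrt_of_sq_le
      rw [le_div_iff₀ hD]
      nlinarith [sq_nonneg H]
    linarith
  · have : √(D / H) ≤ √(H ^ 3 / D) := by
      apply Real.sqrt_le_sqrt
      rw [div_le_div_iff₀ hH0 hD]
      nlinarith [sq_nonneg H]
    linarith

theorem c6l_pt {H D DR f c : ℝ} (I : ℕ) (hH : 1 ≤ H) (hI : H ≤ 2 ^ I) (hDR : 0 < DR)
    (h1 : DR ≤ D) (h1' : D ≤ c * DR) (h2 : c * DR ≤ H ^ 2) :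
    Th H D f ≤ (if nd f ≤ c * DR / H ^ 2 then 2 * √(H ^ 3 / DR) else 0) +
      ∑ i ∈ Finset.range (I + 1),
      (if nd f ≤ (1 / 2 : ℝ) ^ i ∧ DR / H ^ 2 ≤ (1 / 2 : ℝ) ^ i then 2 * (2 : ℝ) ^ i else 0) := by
  have hH0 : 0 < H := by linarith
  have hsum : 0 ≤ ∑ i ∈ Finset.range (I + 1),
      (if nd f ≤ (1 / 2 : ℝ) ^ i ∧ DR / H ^ 2 ≤ (1 / 2 : ℝ) ^ i then 2 * (2 : ℝ) ^ i else 0) := by
    apply Finset.sum_nonneg
    intro i _
    split_ifs <;> positivity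
  by_cases hf : nd f ≤ D / H ^ 2
  · have h3 : nd f ≤ c * DR / H ^ 2 := hf.trans (by gcongr)
    rw [if_pos h3]
    have := c6l_first hH hDR h1 (h1'.trans h2) hf
    linarith
  · have h4 : Th H D f = min H (1 / nd f) := by
      unfold Th
      rw [if_neg hf]
    rw [h4]
    push Not at hf
    have h5 : DR / H ^ 2 ≤ D / H ^ 2 := by gcongr
    have h6 : 0 < DR / H ^ 2 := by positivity
    have h7 : nd f ≤ 1 := by
      have := abs_sub_round f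
      unfold nd
      linarith
    have h8 := c6l_dy (nd f) (DR / H ^ 2) H I hH hI (by linarith) h7 (by linarith)
    have h9 : 0 ≤ (if nd f ≤ c * DR / H ^ 2 then 2 * √(H ^ 3 / DR) else 0) := by
      split_ifs <;> positivity
    linarith

theorem c6l_abs {α : Type*} (S : Finset α) (D' f : α → ℝ) (H DR c P Q P' τ₀ : ℝ) (I : ℕ)
    (hH : 1 ≤ H) (hI : H ≤ 2 ^ I) (hI2 : (2 : ℝ) ^ I ≤ 2 * H) (hDR : 0 < DR) (hc : 1 ≤ c)
    (hP : 0 ≤ P) (hQ : 0 ≤ Q) (hP' : 0 ≤ P') (hτ : 0 < τ₀)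
    (h1 : ∀ ν ∈ S, DR ≤ D' ν ∧ D' ν ≤ c * DR) (h2 : c * DR ≤ H ^ 2)
    (hN : ∀ τ, 0 < τ → τ ≤ τ₀ →
      ((S.filter (fun ν => nd (f ν) ≤ τ)).card : ℝ) ≤ P * (τ + Q))
    (hS : (S.card : ℝ) ≤ P') (h3 : c * DR / H ^ 2 ≤ τ₀) :
    ∑ ν ∈ S, Th H (D' ν) (f ν) ≤ 2 * √(H ^ 3 / DR) * (P * (c * DR / H ^ 2 + Q)) +
      2 * (I + 1) * (P * (1 + 2 * √(H ^ 3 / DR) * Q) + P' / τ₀) := by
  have hH0 : 0 < H := by linarith
  set E : ℝ := √(H ^ 3 / DR) with hE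
  have hE0 : 0 ≤ E := Real.sqrt_nonneg _
  have hcDR : 0 < c * DR / H ^ 2 := by positivity
  have hpt : ∑ ν ∈ S, Th H (D' ν) (f ν) ≤ ∑ ν ∈ S,
      ((if nd (f ν) ≤ c * DR / H ^ 2 then 2 * E else 0) + ∑ i ∈ Finset.range (I + 1),
      (if nd (f ν) ≤ (1 / 2 : ℝ) ^ i ∧ DR / H ^ 2 ≤ (1 / 2 : ℝ) ^ i then 2 * (2 : ℝ) ^ i
        else 0)) := by
    apply Finset.sum_le_sum
    intro ν hν
    exact c6l_pt I hH hI hDR (h1 ν hν).1 (h1 ν hν).2 h2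
  rw [Finset.sum_add_distrib, Finset.sum_comm] at hpt
  have hA : ∑ ν ∈ S, (if nd (f ν) ≤ c * DR / H ^ 2 then 2 * E else 0) ≤
      2 * E * (P * (c * DR / H ^ 2 + Q)) := by
    rw [← Finset.sum_filter, Finset.sum_const, nsmul_eq_mul, mul_comm]
    exact mul_le_mul_of_nonneg_left (hN _ hcDR h3) (by positivity)
  have hB : ∀ i ∈ Finset.range (I + 1), ∑ ν ∈ S,
      (if nd (f ν) ≤ (1 / 2 : ℝ) ^ i ∧ DR / H ^ 2 ≤ (1 / 2 : ℝ) ^ i then 2 * (2 : ℝ) ^ i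
        else 0) ≤ 2 * (P * (1 + 2 * E * Q) + P' / τ₀) := by
    intro i hi
    have hi' : i ≤ I := by simpa [Nat.lt_succ_iff] using hi
    have ht0 : (0 : ℝ) < (1 / 2) ^ i := by positivity
    have ht1 : (2 : ℝ) ^ i * (1 / 2) ^ i = 1 := by
      rw [← mul_pow]; norm_num
    have hnn : 0 ≤ P * (1 + 2 * E * Q) := by positivity
    have hnn' : 0 ≤ P' / τ₀ := by positivity
    by_cases ha : DR / H ^ 2 ≤ (1 / 2 : ℝ) ^ i
    · have e1 : ∑ ν ∈ S, (if nd (f ν) ≤ (1 / 2 : ℝ) ^ i ∧ DR / H ^ 2 ≤ (1 / 2 : ℝ) ^ i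
          then 2 * (2 : ℝ) ^ i else 0) =
          ((S.filter (fun ν => nd (f ν) ≤ (1 / 2 : ℝ) ^ i)).card : ℝ) * (2 * (2 : ℝ) ^ i) := by
        simp only [ha, and_true]
        rw [← Finset.sum_filter, Finset.sum_const, nsmul_eq_mul]
      rw [e1]
      by_cases hτi : (1 / 2 : ℝ) ^ i ≤ τ₀
      · have e2 := hN _ ht0 hτi
        have e3 : ((S.filter (fun ν => nd (f ν) ≤ (1 / 2 : ℝ) ^ i)).card : ℝ) *
            (2 * (2 : ℝ) ^ i) ≤ P * ((1 / 2 : ℝ) ^ i + Q) * (2 * (2 : ℝ) ^ i) :=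
          mul_le_mul_of_nonneg_right e2 (by positivity)
        have e4 : P * ((1 / 2 : ℝ) ^ i + Q) * (2 * (2 : ℝ) ^ i) =
            2 * (P * (1 + 2 ^ i * Q)) := by
          calc P * ((1 / 2 : ℝ) ^ i + Q) * (2 * (2 : ℝ) ^ i) =
              2 * (P * ((2 : ℝ) ^ i * (1 / 2) ^ i + 2 ^ i * Q)) := by ring
            _ = _ := by rw [ht1]
        have e5 : (2 : ℝ) ^ i ≤ 2 * E := by
          have e6 : (2 : ℝ) ^ i ≤ 2 * H :=
            (pow_le_pow_right₀ (by norm_num) hi').trans hI2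
          have e7 : (2 : ℝ) ^ i * (DR / H ^ 2) ≤ 1 := by
            calc (2 : ℝ) ^ i * (DR / H ^ 2) ≤ 2 ^ i * (1 / 2) ^ i :=
                mul_le_mul_of_nonneg_left ha (by positivity)
              _ = 1 := ht1
          have e8 : (2 : ℝ) ^ i * DR ≤ H ^ 2 := by
            have : (2 : ℝ) ^ i * (DR / H ^ 2) = (2 : ℝ) ^ i * DR / H ^ 2 := by ring
            rw [this, div_le_one (by positivity)] at e7
            exact e7
          have e9 : (2 : ℝ) ^ i / 2 ≤ E := by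
            rw [hE]
            apply Real.le_sqrt_of_sq_le
            rw [le_div_iff₀ hDR]
            have hp : (0 : ℝ) < 2 ^ i := by positivity
            calc ((2 : ℝ) ^ i / 2) ^ 2 * DR = (2 ^ i / 4) * (2 ^ i * DR) := by ring
              _ ≤ (2 * H / 4) * H ^ 2 := by
                apply mul_le_mul _ e8 (by positivity) (by positivity)
                linarith
              _ ≤ H ^ 3 := by nlinarith [pow_pos hH0 3]
          linarith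
        have e6 : 2 * (P * (1 + 2 ^ i * Q)) ≤ 2 * (P * (1 + 2 * E * Q)) := by
          gcongr
        linarith
      · push Not at hτi
        have e2 : ((S.filter (fun ν => nd (f ν) ≤ (1 / 2 : ℝ) ^ i)).card : ℝ) ≤ P' := by
          refine le_trans ?_ hS
          exact_mod_cast Finset.card_filter_le _ _
        have e3 : (2 : ℝ) ^ i ≤ 1 / τ₀ := by
          rw [le_div_iff₀ hτ]
          nlinarith [pow_pos (by norm_num : (0 : ℝ) < 2) i]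
        calc ((S.filter (fun ν => nd (f ν) ≤ (1 / 2 : ℝ) ^ i)).card : ℝ) * (2 * (2 : ℝ) ^ i)
            ≤ P' * (2 * (1 / τ₀)) := by
              apply mul_le_mul e2 _ (by positivity) hP'
              linarith
          _ = 2 * (P' / τ₀) := by ring
          _ ≤ _ := by linarith
    · have e1 : ∑ ν ∈ S, (if nd (f ν) ≤ (1 / 2 : ℝ) ^ i ∧ DR / H ^ 2 ≤ (1 / 2 : ℝ) ^ i
          then 2 * (2 : ℝ) ^ i else 0) = 0 := by
        apply Finset.sum_eq_zero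
        intro ν _
        rw [if_neg]
        exact fun h => ha h.2
      rw [e1]
      positivity
  have hC := Finset.sum_le_sum hB
  rw [Finset.sum_const, Finset.card_range, nsmul_eq_mul] at hC
  push_cast at hC
  calc ∑ ν ∈ S, Th H (D' ν) (f ν) ≤ _ := hpt
    _ ≤ 2 * E * (P * (c * DR / H ^ 2 + Q)) + ((I : ℝ) + 1) *
        (2 * (P * (1 + 2 * E * Q) + P' / τ₀)) := add_le_add hA hC
    _ = _ := by ring

theorem c6l_log {t H : ℝ} (ht : 1 ≤ t) (hH : 1 ≤ H) (h : H ≤ t ^ 801) :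
    ∃ I : ℕ, H ≤ 2 ^ I ∧ (2 : ℝ) ^ I ≤ 2 * H ∧ (I : ℝ) + 1 ≤ 1604 * t := by
  obtain ⟨n, h1, h2⟩ := exists_nat_pow_near hH (by norm_num : (1 : ℝ) < 2)
  refine ⟨n + 1, h2.le, ?_, ?_⟩
  · rw [pow_succ]; linarith
  · have h3 : (2 : ℝ) ^ n ≤ t ^ 801 := h1.trans h
    have h4 := Real.log_le_log (by positivity) h3
    rw [Real.log_pow, Real.log_pow] at h4
    have h5 : Real.log t ≤ t - 1 := Real.log_le_sub_one_of_pos (by linarith)
    have h6 : (0.6931471803 : ℝ) < Real.log 2 := Real.log_two_gt_d9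
    have h7 : (0 : ℝ) ≤ n := by positivity
    push_cast at h4 ⊢
    nlinarith

theorem c6l_alg {k B C H j R M Λ κ DR : ℝ} (hk : 0 < k) (hB : 0 < B) (hC : 0 < C)
    (hH : 0 < H) (hj : 0 < j) (hR : 0 < R) (hM : M = B * C / H) (hΛ : Λ = k * B / H)
    (hκ : κ = j * C / (k * B)) (hDR : DR = j * k * (R / Λ)) :
    DR * M = κ * Λ * R * H := by
  subst hM hΛ hκ hDR
  field_simp

theorem c6l_fin {K₁ K₄ t M H R Λ κ DR E P Q P' τ₀ l X1 X2 I : ℝ}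
    (hK₁ : 1 ≤ K₁) (hK₄ : 1 ≤ K₄) (ht : 1 ≤ t) (hM : M = t ^ 800) (hH : 1 ≤ H)
    (hHt : H ≤ t ^ 801) (hΛ1 : 1 ≤ Λ) (hΛ2 : Λ ≤ t ^ 456) (hκ0 : 0 < κ) (hκ1 : κ ≤ 1)
    (hR0 : Λ ≤ R) (hR : R ≤ K₁ * Λ ^ 2) (hDR0 : 0 < DR) (hDR : DR * M = κ * Λ * R * H)
    (hE : E = √(H ^ 3 / DR)) (hl : l = K₁ * R * t ^ 2 / Λ)
    (hP : P = K₄ * (t ^ 2) ^ 11 * Λ * l) (hQ0 : 0 ≤ Q) (hQ : Q ^ 2 * l = 1)
    (hP' : P' = K₄ * t ^ 2 * Λ * l) (hτ₀ : τ₀ = l / Λ) (hX1 : 0 ≤ X1)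
    (hX1' : X1 ^ 2 * M = Λ ^ 7) (hX2 : 0 ≤ X2) (hX2' : X2 ^ 2 * κ = M ^ 3)
    (hI0 : 0 ≤ I) (hI : I + 1 ≤ 1604 * t) :
    2 * E * (P * (K₁ ^ 2 * DR / H ^ 2 + Q)) + 2 * (I + 1) * (P * (1 + 2 * E * Q) + P' / τ₀) ≤
      12834 * K₄ * K₁ ^ 5 * t ^ 32 * (X1 + X2) := by
  have hΛ0 : 0 < Λ := by linarith
  have hR00 : 0 < R := by linarith
  have hH0 : 0 < H := by linarith
  have ht0 : 0 < t := by linarith
  have hM0 : 0 < M := by rw [hM]; positivity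
  have hK₁0 : 0 < K₁ := by linarith
  have hK₄0 : 0 < K₄ := by linarith
  have hl0 : 0 < l := by rw [hl]; positivity
  have hE0 : 0 ≤ E := by rw [hE]; positivity
  have hE2 : E ^ 2 * DR = H ^ 3 := by
    rw [hE, Real.sq_sqrt (by positivity)]
    field_simp
  have hΛl : Λ * l = K₁ * R * t ^ 2 := by rw [hl]; field_simp
  have hPR : P = K₄ * K₁ * t ^ 24 * R := by
    calc P = K₄ * (t ^ 2) ^ 11 * (Λ * l) := by rw [hP]; ring
      _ = _ := by rw [hΛl]; ring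
  have hHM : H ≤ t * M := by
    rw [hM]
    calc H ≤ t ^ 801 := hHt
      _ = _ := by ring
  -- (a)
  have ha : R * E * (DR / H ^ 2) ≤ K₁ ^ 2 * X1 := by
    have hnn : 0 ≤ R * E * (DR / H ^ 2) := by positivity
    have hnn' : 0 ≤ K₁ ^ 2 * X1 := by positivity
    rw [← sq_le_sq₀ hnn hnn']
    have e1 : (R * E * (DR / H ^ 2)) ^ 2 * M = R ^ 3 * κ * Λ := by
      calc (R * E * (DR / H ^ 2)) ^ 2 * M = R ^ 2 * (E ^ 2 * DR) * (DR * M) / H ^ 4 := by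
            field_simp
        _ = R ^ 2 * H ^ 3 * (κ * Λ * R * H) / H ^ 4 := by rw [hE2, hDR]
        _ = _ := by field_simp
    have e2 : (K₁ ^ 2 * X1) ^ 2 * M = K₁ ^ 4 * Λ ^ 7 := by
      calc (K₁ ^ 2 * X1) ^ 2 * M = K₁ ^ 4 * (X1 ^ 2 * M) := by ring
        _ = _ := by rw [hX1']
    have e3 : R ^ 3 * κ * Λ ≤ K₁ ^ 4 * Λ ^ 7 := by
      calc R ^ 3 * κ * Λ ≤ (K₁ * Λ ^ 2) ^ 3 * 1 * Λ := by gcongr
        _ = K₁ ^ 3 * Λ ^ 7 * 1 := by ring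
        _ ≤ K₁ ^ 3 * Λ ^ 7 * K₁ := by gcongr
        _ = _ := by ring
    have e4 : (R * E * (DR / H ^ 2)) ^ 2 * M ≤ (K₁ ^ 2 * X1) ^ 2 * M := by rw [e1, e2]; exact e3
    exact le_of_mul_le_mul_right e4 hM0
  -- (b)
  have hb : R * E * Q ≤ X2 := by
    have hnn : 0 ≤ R * E * Q := by positivity
    rw [← sq_le_sq₀ hnn hX2]
    have e0 : 0 < DR * l * κ * Λ * R := by positivity
    have e1 : (R * E * Q) ^ 2 * (DR * l) = R ^ 2 * H ^ 3 := by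
      calc (R * E * Q) ^ 2 * (DR * l) = R ^ 2 * (E ^ 2 * DR) * (Q ^ 2 * l) := by ring
        _ = _ := by rw [hE2, hQ]; ring
    have e2 : (DR * l) * M = κ * H * (K₁ * R ^ 2 * t ^ 2) := by
      calc (DR * l) * M = l * (DR * M) := by ring
        _ = κ * R * H * (Λ * l) := by rw [hDR]; ring
        _ = _ := by rw [hΛl]; ring
    have e3 : (R * E * Q) ^ 2 * (κ * H * (K₁ * R ^ 2 * t ^ 2)) = R ^ 2 * H ^ 3 * M := by
      rw [← e2, ← mul_assoc, e1]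
    have e4 : (R * E * Q) ^ 2 * κ * (K₁ * t ^ 2) = H ^ 2 * M := by
      have h1 : ((R * E * Q) ^ 2 * κ * (K₁ * t ^ 2)) * (H * R ^ 2) = (H ^ 2 * M) * (H * R ^ 2) := by
        rw [← sub_eq_zero]
        rw [← sub_eq_zero] at e3
        rw [← e3]; ring
      exact mul_right_cancel₀ (by positivity) h1
    have e5 : (R * E * Q) ^ 2 * κ * t ^ 2 ≤ (X2 ^ 2 * κ) * t ^ 2 := by
      rw [hX2']
      calc (R * E * Q) ^ 2 * κ * t ^ 2 = (R * E * Q) ^ 2 * κ * (1 * t ^ 2) := by ring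
        _ ≤ (R * E * Q) ^ 2 * κ * (K₁ * t ^ 2) := by gcongr
        _ = H ^ 2 * M := e4
        _ ≤ (t * M) ^ 2 * M := by gcongr
        _ = _ := by ring
    have e6 : (R * E * Q) ^ 2 * κ ≤ X2 ^ 2 * κ := le_of_mul_le_mul_right e5 (by positivity)
    exact le_of_mul_le_mul_right e6 hκ0
  -- (c)
  have hc : Λ ^ 2 ≤ X2 := by
    rw [← sq_le_sq₀ (by positivity) hX2]
    have e1 : (Λ ^ 2) ^ 2 * κ ≤ X2 ^ 2 * κ := by
      rw [hX2', hM]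
      calc (Λ ^ 2) ^ 2 * κ ≤ (Λ ^ 2) ^ 2 * 1 := by gcongr
        _ ≤ ((t ^ 456) ^ 2) ^ 2 * 1 := by gcongr
        _ = t ^ 1824 := by ring
        _ ≤ t ^ 2400 := pow_le_pow_right₀ ht (by norm_num)
        _ = _ := by ring
    exact le_of_mul_le_mul_right e1 hκ0
  have hc' : R ≤ K₁ * X2 := hR.trans (by gcongr)
  have hd : P' / τ₀ = K₄ * t ^ 2 * Λ ^ 2 := by
    rw [hP', hτ₀]
    field_simp
  have hd' : P' / τ₀ ≤ K₄ * K₁ ^ 5 * t ^ 25 * X2 := by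
    rw [hd]
    have h1 : (1 : ℝ) ≤ K₁ ^ 5 := one_le_pow₀ hK₁
    have h2 : t ^ 2 ≤ t ^ 25 := pow_le_pow_right₀ ht (by norm_num)
    calc K₄ * t ^ 2 * Λ ^ 2 = K₄ * 1 * t ^ 2 * Λ ^ 2 := by ring
      _ ≤ K₄ * K₁ ^ 5 * t ^ 25 * X2 := by gcongr
  have ht24 : t ^ 24 ≤ t ^ 25 := pow_le_pow_right₀ ht (by norm_num)
  have hPc : P ≤ K₄ * K₁ ^ 5 * t ^ 25 * X2 := by
    rw [hPR]
    have h1 : K₁ ^ 2 ≤ K₁ ^ 5 := pow_le_pow_right₀ hK₁ (by norm_num)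
    calc K₄ * K₁ * t ^ 24 * R ≤ K₄ * K₁ * t ^ 24 * (K₁ * X2) := by gcongr
      _ = K₄ * K₁ ^ 2 * t ^ 24 * X2 := by ring
      _ ≤ _ := by gcongr
  have hPb : P * (E * Q) ≤ K₄ * K₁ ^ 5 * t ^ 25 * X2 := by
    rw [hPR]
    have h1 : K₁ ≤ K₁ ^ 5 := le_self_pow₀ hK₁ (by norm_num)
    calc K₄ * K₁ * t ^ 24 * R * (E * Q) = K₄ * K₁ * t ^ 24 * (R * E * Q) := by ring
      _ ≤ K₄ * K₁ ^ 5 * t ^ 25 * X2 := by gcongr
  have hPa : E * P * (K₁ ^ 2 * DR / H ^ 2) ≤ K₄ * K₁ ^ 5 * t ^ 25 * X1 := by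
    rw [hPR]
    calc E * (K₄ * K₁ * t ^ 24 * R) * (K₁ ^ 2 * DR / H ^ 2) =
        K₄ * K₁ ^ 3 * t ^ 24 * (R * E * (DR / H ^ 2)) := by ring
      _ ≤ K₄ * K₁ ^ 3 * t ^ 25 * (K₁ ^ 2 * X1) := by gcongr
      _ = _ := by ring
  set Y : ℝ := K₄ * K₁ ^ 5 * t ^ 25 with hY
  have hY0 : 0 ≤ Y := by positivity
  have hfin : 2 * E * (P * (K₁ ^ 2 * DR / H ^ 2 + Q)) +
      2 * (I + 1) * (P * (1 + 2 * E * Q) + P' / τ₀) ≤
      2 * (Y * X1) + 2 * (Y * X2) + 2 * (I + 1) * (Y * X2 + 2 * (Y * X2) + Y * X2) := by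
    have h1 : 2 * E * (P * (K₁ ^ 2 * DR / H ^ 2 + Q)) =
        2 * (E * P * (K₁ ^ 2 * DR / H ^ 2)) + 2 * (P * (E * Q)) := by ring
    have h2 : P * (1 + 2 * E * Q) + P' / τ₀ = P + 2 * (P * (E * Q)) + P' / τ₀ := by ring
    rw [h1, h2]
    have h3 : 0 ≤ 2 * (I + 1) := by linarith
    have h4 : P + 2 * (P * (E * Q)) + P' / τ₀ ≤ Y * X2 + 2 * (Y * X2) + Y * X2 := by linarith
    have h5 := mul_le_mul_of_nonneg_left h4 h3
    linarith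
  refine hfin.trans ?_
  have h8 : 2 + 8 * (I + 1) ≤ 12834 * t := by linarith
  have h9 : t ≤ t ^ 7 := le_self_pow₀ ht (by norm_num)
  have hYX1 : 0 ≤ Y * X1 := by positivity
  have hYX2 : 0 ≤ Y * X2 := by positivity
  calc 2 * (Y * X1) + 2 * (Y * X2) + 2 * (I + 1) * (Y * X2 + 2 * (Y * X2) + Y * X2)
      = 2 * (Y * X1) + (2 + 8 * (I + 1)) * (Y * X2) := by ring
    _ ≤ (2 + 8 * (I + 1)) * (Y * X1) + (2 + 8 * (I + 1)) * (Y * X2) := by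
        gcongr
        linarith
    _ = (2 + 8 * (I + 1)) * (Y * (X1 + X2)) := by ring
    _ ≤ (12834 * t) * (Y * (X1 + X2)) := by gcongr
    _ ≤ (12834 * t ^ 7) * (Y * (X1 + X2)) := by gcongr
    _ = _ := by rw [hY]; ring

theorem t_C6L (hC4 : S_C4) (hC5b : S_C5b) : S_C6L := by
  classical
  intro K₁ hK₁
  obtain ⟨K₄, hK₄, h4⟩ := hC4 (K₁ ^ 2) (one_le_pow₀ hK₁)
  have hK₁0 : 0 < K₁ := by linarith
  have hK₄0 : 0 < K₄ := by linarith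
  refine ⟨12834 * K₄ * K₁ ^ 5, K₁ ^ 800, ?_, one_le_pow₀ hK₁, ?_⟩
  · have h1 : (1 : ℝ) ≤ K₁ ^ 5 := one_le_pow₀ hK₁
    have h2 : (1 : ℝ) ≤ K₄ * K₁ ^ 5 := one_le_mul_of_one_le_of_one_le hK₄ h1
    nlinarith
  intro B C H M j k hBal hM₀ hk hj hjk hk1 hk2 R r₀ S hS hR0 hR hr hDH
  obtain ⟨hMdef, hB1, hC1, hH1, hM1, ⟨hB2, hB3⟩, ⟨hC2, hC3⟩, ⟨hH2, hH3⟩⟩ := hBal
  have hB0 : 0 < B := by linarith
  have hC0 : 0 < C := by linarith
  have hH0 : 0 < H := by linarith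
  have hM0 : 0 < M := by linarith
  have hk0 : (0 : ℝ) < k := by exact_mod_cast hk
  have hj0 : (0 : ℝ) < |(j : ℝ)| := by
    rw [abs_pos]; exact_mod_cast hj
  -- t
  set t : ℝ := M ^ (1 / 800 : ℝ) with ht
  have ht1 : 1 ≤ t := Real.one_le_rpow hM1 (by norm_num)
  have ht0 : 0 < t := by linarith
  have htp : ∀ n : ℕ, t ^ n = M ^ ((n : ℝ) / 800) := by
    intro n
    rw [ht, ← Real.rpow_natCast, ← Real.rpow_mul hM0.le]
    congr 1; ring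
  have hMt : M = t ^ 800 := by
    rw [htp]; norm_num
  have h799 : M ^ (1 - 1 / 800 : ℝ) = t ^ 799 := by rw [htp]; norm_num
  have h801 : M ^ (1 + 1 / 800 : ℝ) = t ^ 801 := by rw [htp]; norm_num
  rw [h799] at hB2 hC2 hH2
  rw [h801] at hB3 hC3 hH3
  have htK : K₁ ≤ t := by
    rw [hMt] at hM₀
    exact le_of_pow_le_pow_left₀ (by norm_num) ht0.le hM₀
  have h768 : M ^ (-96 / 100 : ℝ) * t ^ 768 = 1 := by
    rw [htp, ← Real.rpow_add hM0]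
    norm_num
  have h344 : M ^ (-43 / 100 : ℝ) * t ^ 344 = 1 := by
    rw [htp, ← Real.rpow_add hM0]
    norm_num
  set Λ : ℝ := k * B / H with hΛ
  have hΛM : Λ = k / C * M := by
    rw [hΛ, hMdef]; field_simp
  have hΛ0 : 0 < Λ := by positivity
  have hΛ32 : t ^ 32 ≤ Λ := by
    rw [hΛM]
    calc t ^ 32 = (M ^ (-96 / 100 : ℝ) * t ^ 768) * t ^ 32 := by rw [h768]; ring
      _ = M ^ (-96 / 100 : ℝ) * t ^ 800 := by ring
      _ = M ^ (-96 / 100 : ℝ) * M := by rw [← hMt]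
      _ ≤ _ := by gcongr
  have hΛ1 : 1 ≤ Λ := (one_le_pow₀ ht1).trans hΛ32
  have hΛ2 : Λ ≤ t ^ 456 := by
    rw [hΛM]
    calc (k : ℝ) / C * M ≤ M ^ (-43 / 100 : ℝ) * M := by gcongr
      _ = M ^ (-43 / 100 : ℝ) * t ^ 800 := by rw [← hMt]
      _ = (M ^ (-43 / 100 : ℝ) * t ^ 344) * t ^ 456 := by ring
      _ = _ := by rw [h344, one_mul]
  have hR00 : 0 < R := by linarith
  set κ : ℝ := |(j : ℝ)| * C / (k * B) with hκ
  have hκ0 : 0 < κ := by positivity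
  have hκ1 : κ ≤ 1 := by
    rw [hκ, div_le_one (by positivity)]
    rw [div_le_div_iff₀ hB0 hC0] at hjk
    exact hjk
  set DR : ℝ := |(j : ℝ)| * k * (R / Λ) with hDRdef
  have hDR0 : 0 < DR := by positivity
  have hDR : DR * M = κ * Λ * R * H :=
    c6l_alg hk0 hB0 hC0 hH0 hj0 hR00 hMdef hΛ hκ hDRdef
  set G : ℝ := t ^ 2 with hG
  have hG1 : 1 ≤ G := one_le_pow₀ ht1
  have hG0 : 0 < G := by linarith
  set ρ : ℝ := j * C / (k * B) with hρ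
  have hρκ : |ρ| = κ := by
    rw [hρ, hκ, abs_div, abs_mul, abs_mul, abs_of_pos hC0, abs_of_pos hk0, abs_of_pos hB0]
  set V₁ : ℝ := k * B * C / H ^ 2 with hV₁
  set V₂ : ℝ := k * B ^ 2 / H ^ 2 with hV₂
  set Φ : ℝ := LL B C H k / H with hΦ
  set l : ℝ := K₁ * R * G / Λ with hl
  have hl0 : 0 < l := by positivity
  have hratio : ∀ X : ℝ, t ^ 799 ≤ X → X ≤ t ^ 801 → 1 / G ≤ X / H ∧ X / H ≤ G := by
    intro X hX1 hX2
    have hX0 : 0 < X := lt_of_lt_of_le (by positivity) hX1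
    constructor
    · rw [div_le_div_iff₀ hG0 hH0]
      calc 1 * H ≤ 1 * t ^ 801 := by gcongr
        _ = t ^ 799 * G := by rw [hG]; ring
        _ ≤ X * G := by gcongr
    · rw [div_le_iff₀ hH0]
      calc X ≤ t ^ 801 := hX2
        _ = G * t ^ 799 := by rw [hG]; ring
        _ ≤ G * H := by gcongr
  have hVV : ∀ X : ℝ, t ^ 799 ≤ X → X ≤ t ^ 801 → Λ / G ≤ Λ * (X / H) ∧ Λ * (X / H) ≤ Λ * G := by
    intro X hX1 hX2
    obtain ⟨h1, h2⟩ := hratio X hX1 hX2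
    constructor
    · calc Λ / G = Λ * (1 / G) := by ring
        _ ≤ _ := by gcongr
    · gcongr
  have hV₁' : V₁ = Λ * (C / H) := by rw [hV₁, hΛ]; field_simp
  have hV₂' : V₂ = Λ * (B / H) := by rw [hV₂, hΛ]; field_simp
  have hΦ' : Φ = Λ * (M / H) := by
    rw [hΦ, hΛ, hMdef]; unfold LL; field_simp
  have hM799 : t ^ 799 ≤ M := by
    rw [hMt]; exact pow_le_pow_right₀ ht1 (by norm_num)
  have hM801 : M ≤ t ^ 801 := by
    rw [hMt]; exact pow_le_pow_right₀ ht1 (by norm_num)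
  have hcV₁ := hVV C hC2 hC3
  have hcV₂ := hVV B hB2 hB3
  have hcΦ := hVV M hM799 hM801
  rw [← hV₁'] at hcV₁
  rw [← hV₂'] at hcV₂
  rw [← hΦ'] at hcΦ
  have hl1 : 1 ≤ l := by
    rw [hl, one_le_div hΛ0]
    calc Λ ≤ R := hR0
      _ = 1 * R * 1 := by ring
      _ ≤ K₁ * R * G := by gcongr
  have hl2 : l ≤ K₁ ^ 2 * G * Λ := by
    rw [hl, div_le_iff₀ hΛ0]
    calc K₁ * R * G ≤ K₁ * (K₁ * Λ ^ 2) * G := by gcongr
      _ = _ := by ring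
  have hβ : |(j : ℝ) / k| ≤ G := by
    rw [abs_div, abs_of_pos hk0, div_le_iff₀ hk0]
    have h1 : |(j : ℝ)| ≤ B / C * k := by
      rw [div_le_div_iff₀ hB0 hC0] at hjk
      rw [div_mul_eq_mul_div, le_div_iff₀ hC0]
      linarith
    have h2 : B / C ≤ G := by
      rw [div_le_iff₀ hC0]
      calc B ≤ t ^ 801 := hB3
        _ = G * t ^ 799 := by rw [hG]; ring
        _ ≤ G * C := by gcongr
    calc |(j : ℝ)| ≤ B / C * k := h1
      _ ≤ G * k := by gcongr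
  have hkl : K₁ * R / k ≤ l := by
    have h1 : B / H ≤ G := (hratio B hB2 hB3).2
    rw [hl, div_le_div_iff₀ hk0 hΛ0]
    have h2 : Λ = k * (B / H) := by rw [hΛ]; ring
    calc K₁ * R * Λ = K₁ * R * (k * (B / H)) := by rw [← h2]
      _ ≤ K₁ * R * (k * G) := by gcongr
      _ = _ := by ring
  have hn1 : ∀ ν : ℤ × ℤ, n1h B C j k ν.1 H = (ν.1 : ℝ) / V₁ + (-(2 * j * k / (B * C))) := by
    intro ν
    unfold n1h
    rw [hV₁]
    field_simp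
    ring
  have hn2 : ∀ ν : ℤ × ℤ, n2h B j k ν.2 H = (ν.2 : ℝ) / V₂ + (-(2 * j ^ 2 / B ^ 2)) := by
    intro ν
    unfold n2h
    rw [hV₂]
    field_simp
    ring
  obtain ⟨hcard, hcount⟩ := h4 ρ Λ G V₁ V₂ Φ (-(2 * j * k / (B * C))) (-(2 * j ^ 2 / B ^ 2)) l
    ((j : ℝ) / k) (r₀ / k) (by rw [hρκ]; exact hκ1) hG1 hΛ1 hcV₁ hcV₂ hcΦ hl1 hl2 hβ S
    (by
      intro ν hν
      obtain ⟨h1, h2, -⟩ := hC5b B C H j k hB0 hC0 hH0 hk ν (hS hν)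
      refine ⟨⟨zH B C H j k ν, h1, ?_⟩, ?_, ?_⟩
      · rw [← hn1, ← hn2]; exact h2
      · obtain ⟨h3, h4⟩ := hr ν hν
        rw [div_le_iff₀ hk0]
        calc r₀ ≤ (k : ℝ) * ν.2 - j * ν.1 := h3
          _ = _ := by field_simp
      · obtain ⟨h3, h4⟩ := hr ν hν
        have h5 : (ν.2 : ℝ) - (j : ℝ) / k * ν.1 = ((k : ℝ) * ν.2 - j * ν.1) / k := by
          field_simp
        rw [h5]
        calc ((k : ℝ) * ν.2 - j * ν.1) / k ≤ (r₀ + K₁ * R) / k := by gcongr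
          _ = r₀ / k + K₁ * R / k := by ring
          _ ≤ _ := by gcongr)
  have hHt : H ≤ t ^ 801 := hH3
  obtain ⟨I, hI1, hI2, hI3⟩ := c6l_log ht1 hH1 hHt
  have hf : ∀ ν ∈ S, fH B C H j k ν =
      Φ * Fc ρ ((ν.1 : ℝ) / V₁ + (-(2 * j * k / (B * C))), (ν.2 : ℝ) / V₂ + (-(2 * j ^ 2 / B ^ 2))) := by
    intro ν hν
    obtain ⟨-, -, -, -, -, h6⟩ := hC5b B C H j k hB0 hC0 hH0 hk ν (hS hν)
    rw [h6, hn1, hn2]
  -- exponents
  set P : ℝ := K₄ * (t ^ 2) ^ 11 * Λ * l with hPdef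
  set P' : ℝ := K₄ * t ^ 2 * Λ * l with hP'def
  set Q : ℝ := l ^ (-1 / 2 : ℝ) with hQdef
  have hQ0 : 0 ≤ Q := by positivity
  have hQ : Q ^ 2 * l = 1 := by
    rw [hQdef, ← Real.rpow_natCast, ← Real.rpow_mul hl0.le]
    norm_num
    rw [Real.rpow_neg_one]
    field_simp
  have hHlow : t ^ 799 ≤ H := hH2
  have hDRle : DR ≤ K₁ * Λ ^ 3 * H / M := by
    rw [le_div_iff₀ hM0, hDR]
    calc κ * Λ * R * H ≤ 1 * Λ * (K₁ * Λ ^ 2) * H := by gcongr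
      _ = _ := by ring
  have hΛ3 : Λ ^ 3 ≤ t ^ 1368 := by
    calc Λ ^ 3 ≤ (t ^ 456) ^ 3 := by gcongr
      _ = _ := by ring
  have hcDR : K₁ ^ 2 * DR ≤ H ^ 2 := by
    have h1 : K₁ ^ 2 * DR ≤ K₁ ^ 2 * (K₁ * Λ ^ 3 * H / M) := by gcongr
    refine h1.trans ?_
    rw [mul_div_assoc', div_le_iff₀ hM0]
    calc K₁ ^ 2 * (K₁ * Λ ^ 3 * H) = K₁ ^ 3 * Λ ^ 3 * H := by ring
      _ ≤ t ^ 3 * t ^ 1368 * H := by gcongr
      _ = t ^ 1371 * H := by ring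
      _ ≤ t ^ 1599 * H := by
          gcongr ?_ * H
          exact pow_le_pow_right₀ ht1 (by norm_num)
      _ = H * t ^ 799 * t ^ 800 := by ring
      _ ≤ H * H * t ^ 800 := by gcongr
      _ = H ^ 2 * M := by rw [← hMt]; ring
  have hτc : K₁ ^ 2 * DR / H ^ 2 ≤ l / Λ := by
    rw [div_le_div_iff₀ (by positivity) hΛ0]
    have h1 : l * H ^ 2 * Λ = K₁ * R * G * H ^ 2 := by
      rw [hl]; field_simp
    have h2 : K₁ ^ 2 * DR * Λ * Λ * M ≤ l * H ^ 2 * Λ * M := by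
      rw [h1]
      calc K₁ ^ 2 * DR * Λ * Λ * M = K₁ ^ 2 * Λ ^ 2 * (DR * M) := by ring
        _ = K₁ ^ 2 * Λ ^ 2 * (κ * Λ * R * H) := by rw [hDR]
        _ ≤ K₁ ^ 2 * Λ ^ 2 * (1 * Λ * R * H) := by gcongr
        _ = K₁ * R * H * (K₁ * Λ ^ 3) := by ring
        _ ≤ K₁ * R * H * (t * t ^ 1368) := by gcongr
        _ = K₁ * R * H * t ^ 1369 := by ring
        _ ≤ K₁ * R * H * t ^ 1599 := by
            gcongr K₁ * R * H * ?_
            exact pow_le_pow_right₀ ht1 (by norm_num)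
        _ = K₁ * R * H * (1 * t ^ 799 * t ^ 800) := by ring
        _ ≤ K₁ * R * H * (G * H * t ^ 800) := by gcongr
        _ = K₁ * R * G * H ^ 2 * M := by rw [← hMt]; ring
    have h3 : K₁ ^ 2 * DR * Λ * (Λ * M) ≤ l * H ^ 2 * (Λ * M) := by
      calc _ = K₁ ^ 2 * DR * Λ * Λ * M := by ring
        _ ≤ _ := h2
        _ = _ := by ring
    exact le_of_mul_le_mul_right h3 (by positivity)
  have hmain := c6l_abs S (fun ν => K₁ * DH B C H j k ν) (fun ν => fH B C H j k ν) H DR (K₁ ^ 2)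
    P Q P' (l / Λ) I hH1 hI1 hI2 hDR0 (one_le_pow₀ hK₁) (by positivity) hQ0 (by positivity)
    (by positivity)
    (by
      intro ν hν
      obtain ⟨h1, h2⟩ := hDH ν hν
      rw [div_le_iff₀ hK₁0] at h1
      constructor
      · calc DR ≤ DH B C H j k ν * K₁ := h1
          _ = _ := by ring
      · calc K₁ * DH B C H j k ν ≤ K₁ * (K₁ * DR) := by gcongr
          _ = _ := by ring)
    hcDR
    (by
      intro τ hτ0 hτ1
      have h1 := hcount τ hτ0 hτ1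
      have h2 : S.filter (fun ν => nd (fH B C H j k ν) ≤ τ) =
          S.filter (fun ν => nd (Φ * Fc ρ ((ν.1 : ℝ) / V₁ + (-(2 * j * k / (B * C))),
            (ν.2 : ℝ) / V₂ + (-(2 * j ^ 2 / B ^ 2)))) ≤ τ) := by
        apply Finset.filter_congr
        intro ν hν
        rw [hf ν hν]
      rw [h2]
      exact h1)
    hcard hτc
  set X1 : ℝ := Λ ^ (7 / 2 : ℝ) * M ^ (-1 / 2 : ℝ) with hX1def
  set X2 : ℝ := M ^ (3 / 2 : ℝ) * κ ^ (-1 / 2 : ℝ) with hX2def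
  have hX1' : X1 ^ 2 * M = Λ ^ 7 := by
    have h1 : (Λ ^ (7 / 2 : ℝ)) ^ 2 = Λ ^ 7 := by
      rw [← Real.rpow_natCast, ← Real.rpow_mul hΛ0.le, ← Real.rpow_natCast]
      norm_num
    have h2 : (M ^ (-1 / 2 : ℝ)) ^ 2 * M = 1 := by
      rw [← Real.rpow_natCast, ← Real.rpow_mul hM0.le]
      norm_num
      rw [Real.rpow_neg_one]
      field_simp
    rw [hX1def, mul_pow, mul_assoc, h1, h2, mul_one]
  have hX2' : X2 ^ 2 * κ = M ^ 3 := by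
    have h1 : (M ^ (3 / 2 : ℝ)) ^ 2 = M ^ 3 := by
      rw [← Real.rpow_natCast, ← Real.rpow_mul hM0.le, ← Real.rpow_natCast]
      norm_num
    have h2 : (κ ^ (-1 / 2 : ℝ)) ^ 2 * κ = 1 := by
      rw [← Real.rpow_natCast, ← Real.rpow_mul hκ0.le]
      norm_num
      rw [Real.rpow_neg_one]
      field_simp
    rw [hX2def, mul_pow, mul_assoc, h1, h2, mul_one]
  have hfin := c6l_fin (E := √(H ^ 3 / DR)) (I := (I : ℝ)) hK₁ hK₄ ht1 hMt hH1 hHt hΛ1 hΛ2 hκ0 hκ1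
    hR0 hR hDR0 hDR rfl hl hPdef hQ0 hQ hP'def rfl (by positivity) hX1' (by positivity) hX2'
    (by positivity) hI3
  have h32 : M ^ (1 / 25 : ℝ) = t ^ 32 := by rw [htp]; norm_num
  rw [h32]
  exact hmain.trans hfin

end Pool.Agent.H304R4.CM
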