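import Mathlib
import Pool.Agent.H304R4.CM.Stubs

/-! # TEAM CM, task E1a: noncritical frequencies. -/

open Complex MeasureTheory Filter Topology

namespace Pool.Agent.H304R4.CM

namespace E1a

lemma wt_nonneg {A : ℝ} {w : ℝ → ℂ} (h : Wt A w) : 0 ≤ A :=
  le_trans (norm_nonneg _) (h.bound 0 (by norm_num) 0)

/-- power comparison for the tails -/
lemma pow_cmp {x y n : ℝ} (hx : 0 ≤ x) (hy : 0 ≤ y) (hxn : x ≤ n) (hyn : y ≤ n) (hn : 100 ≤ n) :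
    1 / n ^ 3 ≤ 2 * ((1 + x) ^ (-3 / 2 : ℝ) * (1 + y) ^ (-3 / 2 : ℝ)) := by
  have h1 : ((1 + n) : ℝ) ^ (-3 / 2 : ℝ) ≤ (1 + x) ^ (-3 / 2 : ℝ) :=
    Real.rpow_le_rpow_of_nonpos (by linarith) (by linarith) (by norm_num)
  have h2 : ((1 + n) : ℝ) ^ (-3 / 2 : ℝ) ≤ (1 + y) ^ (-3 / 2 : ℝ) :=
    Real.rpow_le_rpow_of_nonpos (by linarith) (by linarith) (by norm_num)
  have h3 : ((1 + n) : ℝ) ^ (-3 / 2 : ℝ) * (1 + n) ^ (-3 / 2 : ℝ) = 1 / (1 + n) ^ 3 := by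
    rw [← Real.rpow_add (by linarith)]
    rw [show ((-3 / 2 : ℝ) + -3 / 2) = -((3 : ℕ) : ℝ) by norm_num, Real.rpow_neg (by linarith),
      Real.rpow_natCast, one_div]
  have h4 : (1 + n) ^ 3 ≤ 2 * n ^ 3 := by
    nlinarith [sq_nonneg n, mul_nonneg (sq_nonneg n) (by linarith : (0 : ℝ) ≤ n - 100)]
  have h5 : 1 / n ^ 3 ≤ 2 * (1 / (1 + n) ^ 3) := by
    rw [mul_one_div, div_le_div_iff₀ (by positivity) (by positivity)]
    linarith
  have h6 : 0 ≤ ((1 + n) : ℝ) ^ (-3 / 2 : ℝ) := Real.rpow_nonneg (by linarith) _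
  calc 1 / n ^ 3 ≤ 2 * (1 / (1 + n) ^ 3) := h5
    _ = 2 * (((1 + n) : ℝ) ^ (-3 / 2 : ℝ) * (1 + n) ^ (-3 / 2 : ℝ)) := by rw [h3]
    _ ≤ _ := by
      apply mul_le_mul_of_nonneg_left _ (by norm_num)
      exact mul_le_mul h1 h2 h6 (le_trans h6 h1)

/-- power comparison for the bounded range -/
lemma pow_cmp' {x y : ℝ} (hx : 0 ≤ x) (hy : 0 ≤ y) (hxn : x ≤ 100) (hyn : y ≤ 100) :
    1 ≤ 1030301 * ((1 + x) ^ (-3 / 2 : ℝ) * (1 + y) ^ (-3 / 2 : ℝ)) := by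
  have h1 : ((101) : ℝ) ^ (-3 / 2 : ℝ) ≤ (1 + x) ^ (-3 / 2 : ℝ) :=
    Real.rpow_le_rpow_of_nonpos (by linarith) (by linarith) (by norm_num)
  have h2 : ((101) : ℝ) ^ (-3 / 2 : ℝ) ≤ (1 + y) ^ (-3 / 2 : ℝ) :=
    Real.rpow_le_rpow_of_nonpos (by linarith) (by linarith) (by norm_num)
  have h3 : ((101) : ℝ) ^ (-3 / 2 : ℝ) * (101) ^ (-3 / 2 : ℝ) = 1 / 1030301 := by
    rw [← Real.rpow_add (by norm_num)]
    rw [show ((-3 / 2 : ℝ) + -3 / 2) = -((3 : ℕ) : ℝ) by norm_num, Real.rpow_neg (by norm_num),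
      Real.rpow_natCast]
    norm_num
  have h6 : 0 ≤ ((101) : ℝ) ^ (-3 / 2 : ℝ) := Real.rpow_nonneg (by norm_num) _
  have h7 : (1 : ℝ) / 1030301 ≤ ((1 + x) ^ (-3 / 2 : ℝ) * (1 + y) ^ (-3 / 2 : ℝ)) := by
    rw [← h3]
    exact mul_le_mul h1 h2 h6 (le_trans h6 h1)
  calc (1 : ℝ) = 1030301 * (1 / 1030301) := by norm_num
    _ ≤ _ := mul_le_mul_of_nonneg_left h7 (by norm_num)

lemma rho_le {B C : ℝ} {j k : ℤ} (hB : 1 ≤ B) (hC : 1 ≤ C) (hk : 0 < k)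
    (hjk : |(j : ℝ)| / B ≤ k / C) : |((j : ℝ) * C / (k * B))| ≤ 1 := by
  have hB' : 0 < B := by linarith
  have hC' : 0 < C := by linarith
  have hk' : (0 : ℝ) < k := by exact_mod_cast hk
  rw [div_le_div_iff₀ hB' hC'] at hjk
  rw [abs_div, abs_mul, abs_of_pos hC', abs_of_pos (by positivity : (0 : ℝ) < k * B),
    div_le_one (by positivity)]
  exact hjk

lemma num1 {ρ x y : ℝ} (hρ : |ρ| ≤ 1) (hx0 : 0 ≤ x) (hx : x ≤ 403 / 100) (hy0 : 0 ≤ y)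
    (hy : y ≤ 403 / 100) : |4 * x * y + 2 * ρ * y ^ 2| ≤ 100 := by
  have h1 : |4 * x * y| ≤ 4 * (403 / 100) * (403 / 100) := by
    rw [abs_of_nonneg (by positivity)]; gcongr
  have h2 : |2 * ρ * y ^ 2| ≤ 2 * 1 * (403 / 100) ^ 2 := by
    rw [abs_mul, abs_mul, abs_of_pos (by norm_num : (0 : ℝ) < 2), abs_of_nonneg (by positivity : 0 ≤ y ^ 2)]
    gcongr
  refine le_trans (abs_add_le _ _) (le_trans (add_le_add h1 h2) (by norm_num))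

lemma num2 {ρ x y : ℝ} (hρ : |ρ| ≤ 1) (hx0 : 0 ≤ x) (hx : x ≤ 403 / 100) (hy0 : 0 ≤ y)
    (hy : y ≤ 403 / 100) : |2 * x ^ 2 + 4 * ρ * x * y| ≤ 100 := by
  have h1 : |2 * x ^ 2| ≤ 2 * (403 / 100) ^ 2 := by
    rw [abs_of_nonneg (by positivity)]; gcongr
  have h2 : |4 * ρ * x * y| ≤ 4 * 1 * (403 / 100) * (403 / 100) := by
    rw [abs_mul, abs_mul, abs_mul, abs_of_pos (by norm_num : (0 : ℝ) < 4), abs_of_nonneg hx0,
      abs_of_nonneg hy0]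
    gcongr
  refine le_trans (abs_add_le _ _) (le_trans (add_le_add h1 h2) (by norm_num))

lemma num3 {s w : ℝ} (h1 : 1 / 2 ≤ s) (h2 : s ≤ 2) (h3 : 49 / 100 ≤ w) (h4 : w ≤ 201 / 100) :
    s * w ≤ 402 / 100 ∧ 24 / 100 ≤ s * w := by
  constructor
  · calc s * w ≤ 2 * (201 / 100) := by gcongr
      _ ≤ _ := by norm_num
  · calc (24 / 100 : ℝ) ≤ 1 / 2 * (49 / 100) := by norm_num
      _ ≤ s * w := by gcongr

lemma num4 {s : ℝ} (h1 : 1 / 2 ≤ s) (h2 : s ≤ 2) : |s ^ 2 - 1| ≤ 3 := by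
  have h3 : s ^ 2 ≤ 2 ^ 2 := by gcongr
  have h4 : 0 ≤ s ^ 2 := sq_nonneg s
  rw [abs_le]; constructor <;> linarith

lemma num5 {c a b t : ℝ} (hc0 : 0 < c) (hc1 : c ≤ 1) (ha : |a| ≤ c) (hb : |b| ≤ c)
    (ht : |t| ≤ 3) : |2 * a * b * t| ≤ 6 * c := by
  rw [abs_mul, abs_mul, abs_mul, abs_of_pos (by norm_num : (0 : ℝ) < 2)]
  calc 2 * |a| * |b| * |t| ≤ 2 * c * c * 3 := by gcongr
    _ = 6 * (c * c) := by ring
    _ ≤ 6 * (c * 1) := by gcongr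
    _ = 6 * c := by ring

lemma num6 {B C k j : ℝ} (hB : 1 ≤ B) (hC : 1 ≤ C) (hk : 1 ≤ k) (hj : |j| ≤ B) (hk2 : k ≤ C) :
    2 * |j| * k ^ 2 ≤ 2 * (k * B ^ 2 * C) := by
  have h1 : |j| * k ≤ B * C := by gcongr
  have h2 : B * C ≤ B ^ 2 * C := by
    have : B ≤ B ^ 2 := by nlinarith
    gcongr
  have h3 : (|j| * k) * k ≤ (B ^ 2 * C) * k := by
    apply mul_le_mul_of_nonneg_right (h1.trans h2); linarith
  calc 2 * |j| * k ^ 2 = 2 * ((|j| * k) * k) := by ring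
    _ ≤ 2 * ((B ^ 2 * C) * k) := by gcongr
    _ = _ := by ring

lemma num7 {B C k j : ℝ} (hB : 1 ≤ B) (hC : 1 ≤ C) (hk : 1 ≤ k) (hj : |j| ≤ B) :
    2 * j ^ 2 * k ≤ 2 * (k * B ^ 2 * C) := by
  have h1 : j ^ 2 ≤ B ^ 2 := by rw [← sq_abs]; gcongr
  have h2 : B ^ 2 ≤ B ^ 2 * C := by
    have : 0 ≤ B ^ 2 := sq_nonneg B
    exact le_mul_of_one_le_right this hC
  calc 2 * j ^ 2 * k ≤ 2 * (B ^ 2 * C) * k := by gcongr; exact h1.trans h2
    _ = _ := by ring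

/-- a critical point near `Qb` at `h` gives membership in `Zs` -/
lemma mem_Zs_of_near {cG KG : ℝ} (hcG : 0 < cG) (hKG : 1 ≤ KG)
    (hG : ∀ (ρ n₁ n₂ : ℝ) (z : ℝ × ℝ), |ρ| ≤ 1 → z ∈ bx 100 →
      |4 * z.1 * z.2 + 2 * ρ * z.2 ^ 2 - n₁| + |2 * z.1 ^ 2 + 4 * ρ * z.1 * z.2 - n₂| ≤ cG →
      ∃ w : ℝ × ℝ, IsC ρ n₁ n₂ w ∧ |w.1 - z.1| + |w.2 - z.2| ≤
        KG * (|4 * z.1 * z.2 + 2 * ρ * z.2 ^ 2 - n₁| + |2 * z.1 ^ 2 + 4 * ρ * z.1 * z.2 - n₂|))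
    {c : ℝ} (hc0 : 0 < c) (hc1 : c ≤ 1) (hc2 : 12 * c ≤ cG) (hc3 : 1200 * KG * c ≤ 1)
    {c1 : ℝ} (hc1G : c1 ≤ cG) (hc1K : 100 * KG * c1 ≤ 1)
    {B C H : ℝ} {j k : ℤ} (hB : 1 ≤ B) (hC : 1 ≤ C) (hH : 1 ≤ H) (hk : 0 < k)
    (hjk : |(j : ℝ)| / B ≤ k / C) (hkC : (k : ℝ) / C ≤ c) (hL : 1 ≤ LL B C H k)
    {ν : ℤ × ℤ} {h : ℝ} (hh1 : H / 2 ≤ h) (hh2 : h ≤ 2 * H) {z : ℝ × ℝ} (hz : z ∈ Qb)
    (hlt : |4 * z.1 * z.2 + 2 * ((j : ℝ) * C / (k * B)) * z.2 ^ 2 - n1h B C j k ν.1 h| +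
      |2 * z.1 ^ 2 + 4 * ((j : ℝ) * C / (k * B)) * z.1 * z.2 - n2h B j k ν.2 h| < c1) :
    ν ∈ Zs B C H j k := by
  have hB' : 0 < B := by linarith
  have hC' : 0 < C := by linarith
  have hH' : 0 < H := by linarith
  have hh' : 0 < h := by linarith
  have hk' : (0 : ℝ) < k := by exact_mod_cast hk
  have hk1 : (1 : ℝ) ≤ k := by exact_mod_cast hk
  have hρ := rho_le hB hC hk hjk
  set ρ : ℝ := (j : ℝ) * C / (k * B) with hρdef
  obtain ⟨⟨hz1, hz2⟩, hz3, hz4⟩ := hz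
  -- first critical point
  obtain ⟨w, hw, hwz⟩ := hG ρ (n1h B C j k ν.1 h) (n2h B j k ν.2 h) z hρ
    ⟨⟨by norm_num; linarith, by linarith⟩, by norm_num; linarith, by linarith⟩
    (le_trans hlt.le hc1G)
  have hwz' : |w.1 - z.1| + |w.2 - z.2| ≤ 1 / 100 := by
    refine le_trans hwz ?_
    have : KG * (|4 * z.1 * z.2 + 2 * ρ * z.2 ^ 2 - n1h B C j k ν.1 h| +
      |2 * z.1 ^ 2 + 4 * ρ * z.1 * z.2 - n2h B j k ν.2 h|) ≤ KG * c1 :=
      mul_le_mul_of_nonneg_left hlt.le (by linarith)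
    linarith
  have hw1 : |w.1 - z.1| ≤ 1 / 100 := le_trans (le_add_of_nonneg_right (abs_nonneg _)) hwz'
  have hw2 : |w.2 - z.2| ≤ 1 / 100 := le_trans (le_add_of_nonneg_left (abs_nonneg _)) hwz'
  rw [abs_le] at hw1 hw2
  obtain ⟨hwp1, hwp2, he1, he2⟩ := hw
  -- scaling
  set s : ℝ := H / h with hs
  have hs1 : 1 / 2 ≤ s := by rw [hs, le_div_iff₀ hh']; linarith
  have hs2 : s ≤ 2 := by rw [hs, div_le_iff₀ hh']; linarith
  have hs0 : 0 < s := by linarith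
  have hsq : |s ^ 2 - 1| ≤ 3 := num4 hs1 hs2
  have hjC : |(j : ℝ)| / B ≤ c := le_trans hjk hkC
  have hjB : |(j : ℝ)| ≤ B * c := by
    rw [div_le_iff₀ hB'] at hjC; linarith
  have hkC2 : (k : ℝ) ≤ C * c := by
    rw [div_le_iff₀ hC'] at hkC; linarith
  have hn1 : n1h B C j k ν.1 H - s ^ 2 * n1h B C j k ν.1 h =
      2 * ((j : ℝ) / B) * (k / C) * (s ^ 2 - 1) := by
    simp only [n1h, hs]
    field_simp
    ring
  have hn2 : n2h B j k ν.2 H - s ^ 2 * n2h B j k ν.2 h =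
      2 * ((j : ℝ) / B) * ((j : ℝ) / B) * (s ^ 2 - 1) := by
    simp only [n2h, hs]
    field_simp
    ring
  have hjBa : |(j : ℝ) / B| ≤ c := by rw [abs_div, abs_of_pos hB']; exact hjC
  have hkCa : |(k : ℝ) / C| ≤ c := by rw [abs_div, abs_of_pos hC', abs_of_pos hk']; exact hkC
  have hn1' : |n1h B C j k ν.1 H - s ^ 2 * n1h B C j k ν.1 h| ≤ 6 * c := by
    rw [hn1]; exact num5 hc0 hc1 hjBa hkCa hsq
  have hn2' : |n2h B j k ν.2 H - s ^ 2 * n2h B j k ν.2 h| ≤ 6 * c := by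
    rw [hn2]; exact num5 hc0 hc1 hjBa hjBa hsq
  have hgr1 : 4 * (s * w.1) * (s * w.2) + 2 * ρ * (s * w.2) ^ 2 - n1h B C j k ν.1 H =
      -(n1h B C j k ν.1 H - s ^ 2 * n1h B C j k ν.1 h) := by
    rw [← he1]; ring
  have hgr2 : 2 * (s * w.1) ^ 2 + 4 * ρ * (s * w.1) * (s * w.2) - n2h B j k ν.2 H =
      -(n2h B j k ν.2 H - s ^ 2 * n2h B j k ν.2 h) := by
    rw [← he2]; ring
  have hsw1 : s * w.1 ≤ 402 / 100 ∧ 24 / 100 ≤ s * w.1 :=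
    num3 hs1 hs2 (by linarith) (by linarith)
  have hsw2 : s * w.2 ≤ 402 / 100 ∧ 24 / 100 ≤ s * w.2 :=
    num3 hs1 hs2 (by linarith) (by linarith)
  have hsum : |4 * (s * w.1) * (s * w.2) + 2 * ρ * (s * w.2) ^ 2 - n1h B C j k ν.1 H| +
      |2 * (s * w.1) ^ 2 + 4 * ρ * (s * w.1) * (s * w.2) - n2h B j k ν.2 H| ≤ 12 * c := by
    rw [hgr1, hgr2, abs_neg, abs_neg]
    linarith
  obtain ⟨v, hv, hvz⟩ := hG ρ (n1h B C j k ν.1 H) (n2h B j k ν.2 H) (s * w.1, s * w.2) hρ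
    ⟨⟨by norm_num; linarith [hsw1.2], by simpa using by linarith [hsw1.1]⟩,
      by norm_num; linarith [hsw2.2], by simpa using by linarith [hsw2.1]⟩
    (le_trans hsum hc2)
  have hvz' : |v.1 - s * w.1| + |v.2 - s * w.2| ≤ 1 / 100 := by
    refine le_trans hvz ?_
    have : KG * (|4 * (s * w.1) * (s * w.2) + 2 * ρ * (s * w.2) ^ 2 - n1h B C j k ν.1 H| +
      |2 * (s * w.1) ^ 2 + 4 * ρ * (s * w.1) * (s * w.2) - n2h B j k ν.2 H|) ≤ KG * (12 * c) :=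
      mul_le_mul_of_nonneg_left hsum (by linarith)
    refine le_trans this ?_
    linarith
  have hv1 : |v.1 - s * w.1| ≤ 1 / 100 := le_trans (le_add_of_nonneg_right (abs_nonneg _)) hvz'
  have hv2 : |v.2 - s * w.2| ≤ 1 / 100 := le_trans (le_add_of_nonneg_left (abs_nonneg _)) hvz'
  rw [abs_le] at hv1 hv2
  have hvl1 : 23 / 100 ≤ v.1 := by linarith [hsw1.2]
  have hvu1 : v.1 ≤ 403 / 100 := by linarith [hsw1.1]
  have hvl2 : 23 / 100 ≤ v.2 := by linarith [hsw2.2]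
  have hvu2 : v.2 ≤ 403 / 100 := by linarith [hsw2.1]
  have hvb : v ∈ bx 16 :=
    ⟨⟨by norm_num; linarith, by linarith⟩, by norm_num; linarith, by linarith⟩
  obtain ⟨-, -, hf1, hf2⟩ := id hv
  have hρ' := abs_le.1 hρ
  -- size of the normalised frequencies
  have hN1 : |n1h B C j k ν.1 H| ≤ 100 := by
    rw [← hf1]
    exact num1 hρ (by linarith) hvu1 (by linarith) hvu2
  have hN2 : |n2h B j k ν.2 H| ≤ 100 := by
    rw [← hf2]
    exact num2 hρ (by linarith) hvu1 (by linarith) hvu2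
  have hLp : 0 < LL B C H k := by linarith
  have hjB' : |(j : ℝ)| ≤ B := hjB.trans (mul_le_of_le_one_right hB'.le hc1)
  have hkC' : (k : ℝ) ≤ C := hkC2.trans (mul_le_of_le_one_right hC'.le hc1)
  have hν1 : (ν.1 : ℝ) = LL B C H k / B * n1h B C j k ν.1 H + 2 * (j : ℝ) * k ^ 2 / H ^ 2 := by
    simp only [n1h, LL]
    field_simp
    ring
  have hν2 : (ν.2 : ℝ) = LL B C H k / C * n2h B j k ν.2 H + 2 * (j : ℝ) ^ 2 * k / H ^ 2 := by
    simp only [n2h, LL]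
    field_simp
    ring
  have hLB : |LL B C H k / B| ≤ LL B C H k := by
    rw [abs_of_pos (by positivity)]
    exact div_le_self hLp.le hB
  have hLC : |LL B C H k / C| ≤ LL B C H k := by
    rw [abs_of_pos (by positivity)]
    exact div_le_self hLp.le hC
  have hT1 : |2 * (j : ℝ) * k ^ 2 / H ^ 2| ≤ 2 * LL B C H k := by
    rw [abs_div, abs_of_pos (by positivity : 0 < H ^ 2), abs_mul, abs_mul,
      abs_of_pos (by norm_num : (0 : ℝ) < 2), abs_of_pos (by positivity : (0 : ℝ) < (k : ℝ) ^ 2)]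
    unfold LL
    rw [← mul_div_assoc]
    apply div_le_div_of_nonneg_right _ (by positivity)
    exact num6 hB hC hk1 hjB' hkC'
  have hT2 : |2 * (j : ℝ) ^ 2 * k / H ^ 2| ≤ 2 * LL B C H k := by
    rw [abs_of_nonneg (by positivity)]
    unfold LL
    rw [← mul_div_assoc]
    apply div_le_div_of_nonneg_right _ (by positivity)
    exact num7 hB hC hk1 hjB'
  have hA1 : |(ν.1 : ℝ)| ≤ 2000 * (LL B C H k + 1) := by
    rw [hν1]
    refine le_trans (abs_add_le _ _) ?_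
    rw [abs_mul]
    have : |LL B C H k / B| * |n1h B C j k ν.1 H| ≤ LL B C H k * 100 := by gcongr
    linarith
  have hA2 : |(ν.2 : ℝ)| ≤ 2000 * (LL B C H k + 1) := by
    rw [hν2]
    refine le_trans (abs_add_le _ _) ?_
    rw [abs_mul]
    have : |LL B C H k / C| * |n2h B j k ν.2 H| ≤ LL B C H k * 100 := by gcongr
    linarith
  rw [abs_le] at hA1 hA2
  have hce := Int.le_ceil (2000 * (LL B C H k + 1))
  classical
  unfold Zs
  rw [Finset.mem_filter, Finset.mem_product, Finset.mem_Icc, Finset.mem_Icc]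
  refine ⟨⟨⟨?_, ?_⟩, ?_, ?_⟩, v, hvb, hv⟩
  · have : (-(⌈2000 * (LL B C H k + 1)⌉ : ℤ) : ℝ) ≤ (ν.1 : ℝ) := by linarith
    exact_mod_cast this
  · have : (ν.1 : ℝ) ≤ ((⌈2000 * (LL B C H k + 1)⌉ : ℤ) : ℝ) := by linarith
    exact_mod_cast this
  · have : (-(⌈2000 * (LL B C H k + 1)⌉ : ℤ) : ℝ) ≤ (ν.2 : ℝ) := by linarith
    exact_mod_cast this
  · have : (ν.2 : ℝ) ≤ ((⌈2000 * (LL B C H k + 1)⌉ : ℤ) : ℝ) := by linarith
    exact_mod_cast this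

end E1a

open E1a in
theorem t_E1a (hP2 : S_P2) (hI0 : S_I0) (hI2 : S_I2) (hI3 : S_I3) (hG1 : S_G1) : S_E1a := by
  obtain ⟨K0, hK0, hI0⟩ := hI0
  obtain ⟨K2, hK2, hI2⟩ := hI2
  obtain ⟨cG, KG, hcG, hKG, hG⟩ := hG1
  set c1 : ℝ := min cG (1 / (100 * KG)) with hc1def
  have hc1 : 0 < c1 := lt_min hcG (by positivity)
  obtain ⟨K3, hK3, hI3⟩ := hI3 c1 hc1
  set c : ℝ := min 1 (min (cG / 12) (1 / (1200 * KG))) with hcdef
  have hc0 : 0 < c := lt_min one_pos (lt_min (by positivity) (by positivity))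
  have hc1' : c ≤ 1 := min_le_left _ _
  have hc2 : 12 * c ≤ cG := by
    have : c ≤ cG / 12 := le_trans (min_le_right _ _) (min_le_left _ _)
    linarith
  have hKGp : 0 < KG := by linarith
  have hc3 : 1200 * KG * c ≤ 1 := by
    have : c ≤ 1 / (1200 * KG) := le_trans (min_le_right _ _) (min_le_right _ _)
    rw [le_div_iff₀ (by positivity)] at this
    linarith
  have hc1G : c1 ≤ cG := min_le_left _ _
  have hc1K : 100 * KG * c1 ≤ 1 := by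
    have : c1 ≤ 1 / (100 * KG) := min_le_right _ _
    rw [le_div_iff₀ (by positivity)] at this
    linarith
  refine ⟨c, 128 * K2 * K0 + 16 * 1030301 * K3 * K0, hc0, hc1', ?_, ?_⟩
  · have h1 : 1 ≤ K2 * K0 := one_le_mul_of_one_le_of_one_le hK2 hK0
    have h2 : 1 ≤ K3 * K0 := one_le_mul_of_one_le_of_one_le hK3 hK0
    linarith
  intro A₁ A₂ ω₁ ω₂ hω₁ hω₂ B C H j k hB hC hH hk hj hjk hkC hL ν hν h hh1 hh2
  have hA1 := wt_nonneg hω₁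
  have hA2 := wt_nonneg hω₂
  have hB' : 0 < B := by linarith
  have hC' : 0 < C := by linarith
  have hH' : 0 < H := by linarith
  have hh' : 0 < h := by linarith
  have hk' : (0 : ℝ) < k := by exact_mod_cast hk
  have hρ := rho_le hB hC hk hjk
  rw [hP2 ω₁ ω₂ B C j k h ν.1 ν.2 hB'.ne' hC'.ne' hk'.ne' hh'.ne']
  have hamp := hI0 A₁ A₂ ω₁ ω₂ hω₁ hω₂
  set ρ : ℝ := (j : ℝ) * C / (k * B) with hρdef
  set L : ℝ := LL B C H k with hLdef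
  set Lh : ℝ := (k : ℝ) * B ^ 2 * C / h ^ 2 with hLh
  set n₁ : ℝ := n1h B C j k ν.1 h with hn1
  set n₂ : ℝ := n2h B j k ν.2 h with hn2
  have hLLh : Lh = L * (H / h) ^ 2 := by
    rw [hLh, hLdef]; unfold LL; field_simp
  have hs1 : 1 / 2 ≤ H / h := by rw [le_div_iff₀ hh']; linarith
  have hLh1 : L / 4 ≤ Lh := by
    rw [hLLh]
    have : (1 / 2 : ℝ) ^ 2 ≤ (H / h) ^ 2 := by gcongr
    calc L / 4 = L * (1 / 2) ^ 2 := by ring
      _ ≤ L * (H / h) ^ 2 := by gcongr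
  have hLp : 0 < L := lt_of_lt_of_le one_pos hL
  have hLhp : 0 < Lh := by linarith
  have hA : 0 ≤ A₁ * A₂ := by positivity
  have hP : 0 ≤ (1 + |n₁|) ^ (-3 / 2 : ℝ) * (1 + |n₂|) ^ (-3 / 2 : ℝ) := by positivity
  by_cases hbig : 100 ≤ |n₁| ∨ 100 ≤ |n₂|
  · set n : ℝ := max |n₁| |n₂| with hn
    have hn100 : 100 ≤ n := by
      rcases hbig with hb | hb
      · exact le_trans hb (le_max_left _ _)
      · exact le_trans hb (le_max_right _ _)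
    have hmain : ‖II (fun z => ω₁ z.1 * ω₂ z.2) ρ Lh n₁ n₂‖ ≤
        K2 * (K0 * A₁ * A₂) / (Lh * n) ^ 3 := by
      rcases le_total |n₁| |n₂| with hle | hle
      · have : n = |n₂| := max_eq_right hle
        rw [this]
        exact (hI2 _ _ hamp ρ Lh n₁ n₂ hρ hLhp).2 (by rw [← this]; exact hn100)
      · have : n = |n₁| := max_eq_left hle
        rw [this]
        exact (hI2 _ _ hamp ρ Lh n₁ n₂ hρ hLhp).1 (by rw [← this]; exact hn100)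
    refine le_trans hmain ?_
    have hpc := pow_cmp (abs_nonneg n₁) (abs_nonneg n₂) (le_max_left _ _ : |n₁| ≤ n)
      (le_max_right _ _ : |n₂| ≤ n) hn100
    have hn0 : 0 < n := by linarith
    have hstep : 1 / (Lh * n) ^ 3 ≤ 64 / L ^ 2 * (1 / n ^ 3) := by
      rw [div_mul_div_comm, div_le_div_iff₀ (by positivity) (by positivity)]
      have h1 : (L / 4) ^ 3 ≤ Lh ^ 3 := by gcongr
      have h2 : L ^ 2 ≤ L ^ 3 := pow_le_pow_right₀ hL (by norm_num)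
      have h3 : L ^ 2 ≤ 64 * Lh ^ 3 := by
        calc L ^ 2 ≤ L ^ 3 := h2
          _ = 64 * (L / 4) ^ 3 := by ring
          _ ≤ 64 * Lh ^ 3 := by gcongr
      calc 1 * (L ^ 2 * n ^ 3) = L ^ 2 * n ^ 3 := by ring
        _ ≤ (64 * Lh ^ 3) * n ^ 3 := by gcongr
        _ = 64 * 1 * (Lh * n) ^ 3 := by ring
    calc K2 * (K0 * A₁ * A₂) / (Lh * n) ^ 3
        = K2 * K0 * (A₁ * A₂) * (1 / (Lh * n) ^ 3) := by ring
      _ ≤ K2 * K0 * (A₁ * A₂) * (64 / L ^ 2 * (1 / n ^ 3)) := by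
          apply mul_le_mul_of_nonneg_left hstep; positivity
      _ ≤ K2 * K0 * (A₁ * A₂) * (64 / L ^ 2 *
          (2 * ((1 + |n₁|) ^ (-3 / 2 : ℝ) * (1 + |n₂|) ^ (-3 / 2 : ℝ)))) := by
          apply mul_le_mul_of_nonneg_left _ (by positivity)
          apply mul_le_mul_of_nonneg_left hpc (by positivity)
      _ = (128 * K2 * K0) * (A₁ * A₂ / L ^ 2 *
          ((1 + |n₁|) ^ (-3 / 2 : ℝ) * (1 + |n₂|) ^ (-3 / 2 : ℝ))) := by ring
      _ ≤ (128 * K2 * K0 + 16 * 1030301 * K3 * K0) * (A₁ * A₂ / L ^ 2 *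
          ((1 + |n₁|) ^ (-3 / 2 : ℝ) * (1 + |n₂|) ^ (-3 / 2 : ℝ))) := by
          apply mul_le_mul_of_nonneg_right _ (by positivity)
          have : 0 ≤ 16 * 1030301 * K3 * K0 := by positivity
          linarith
      _ = _ := by ring
  · push Not at hbig
    obtain ⟨hb1, hb2⟩ := hbig
    have hgap : ∀ z ∈ Qb, c1 ≤ |4 * z.1 * z.2 + 2 * ρ * z.2 ^ 2 - n₁| +
        |2 * z.1 ^ 2 + 4 * ρ * z.1 * z.2 - n₂| := by
      intro z hz
      by_contra hcon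
      push Not at hcon
      exact hν (mem_Zs_of_near hcG hKG hG hc0 hc1' hc2 hc3 hc1G hc1K hB hC hH hk hjk hkC hL
        hh1 hh2 hz hcon)
    have hmain := hI3 _ _ hamp ρ Lh n₁ n₂ hρ hLhp hb1.le hb2.le hgap
    refine le_trans hmain ?_
    have hpc := pow_cmp' (abs_nonneg n₁) (abs_nonneg n₂) hb1.le hb2.le
    have hstep : 1 / Lh ^ 2 ≤ 16 / L ^ 2 := by
      rw [div_le_div_iff₀ (by positivity) (by positivity)]
      have h1 : (L / 4) ^ 2 ≤ Lh ^ 2 := by gcongr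
      calc 1 * L ^ 2 = 16 * (L / 4) ^ 2 := by ring
        _ ≤ 16 * Lh ^ 2 := by gcongr
    calc K3 * (K0 * A₁ * A₂) / Lh ^ 2
        = K3 * K0 * (A₁ * A₂) * (1 / Lh ^ 2) * 1 := by ring
      _ ≤ K3 * K0 * (A₁ * A₂) * (16 / L ^ 2) * (1030301 *
          ((1 + |n₁|) ^ (-3 / 2 : ℝ) * (1 + |n₂|) ^ (-3 / 2 : ℝ))) := by
          apply mul_le_mul _ hpc (by norm_num) (by positivity)
          apply mul_le_mul_of_nonneg_left hstep; positivity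
      _ = (16 * 1030301 * K3 * K0) * (A₁ * A₂ / L ^ 2 *
          ((1 + |n₁|) ^ (-3 / 2 : ℝ) * (1 + |n₂|) ^ (-3 / 2 : ℝ))) := by ring
      _ ≤ (128 * K2 * K0 + 16 * 1030301 * K3 * K0) * (A₁ * A₂ / L ^ 2 *
          ((1 + |n₁|) ^ (-3 / 2 : ℝ) * (1 + |n₂|) ^ (-3 / 2 : ℝ))) := by
          apply mul_le_mul_of_nonneg_right _ (by positivity)
          have : 0 ≤ 128 * K2 * K0 := by positivity
          linarith
      _ = _ := by ring

end Pool.Agent.H304R4.CM
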