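import Pool.Agent.H304R4.CM.Stubs

/-!
# Team CM, task FAR: few reduced fractions in a short interval
-/

namespace Pool.Agent.H304R4.CM

theorem t_FAR : S_FAR := by
  intro Q a b S hQ hab hS
  have hQ0 : (0 : ℝ) < Q := by linarith
  have hQ2 : (0 : ℝ) < Q ^ 2 := by positivity
  have hcard : S.card ≤ (Finset.range (⌊Q ^ 2 * (b - a)⌋₊ + 1)).card := by
    refine Finset.card_le_card_of_injOn (fun s => ⌊((s.1 : ℝ) / s.2 - a) * Q ^ 2⌋₊) ?_ ?_
    · intro s hs
      obtain ⟨h1, h2, h3, h4, h5⟩ := hS s hs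
      simp only [Finset.coe_range, Set.mem_Iio]
      have : ⌊((s.1 : ℝ) / s.2 - a) * Q ^ 2⌋₊ ≤ ⌊Q ^ 2 * (b - a)⌋₊ := by
        apply Nat.floor_le_floor
        nlinarith
      omega
    · intro s hs s' hs' hss
      obtain ⟨h1, h2, h3, h4, h5⟩ := hS s hs
      obtain ⟨h1', h2', h3', h4', h5'⟩ := hS s' hs'
      simp only at hss
      have hx0 : 0 ≤ ((s.1 : ℝ) / s.2 - a) * Q ^ 2 := mul_nonneg (by linarith) hQ2.le
      have hx0' : 0 ≤ ((s'.1 : ℝ) / s'.2 - a) * Q ^ 2 := mul_nonneg (by linarith) hQ2.le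
      have f1 := Nat.floor_le hx0
      have f2 := Nat.lt_floor_add_one (((s.1 : ℝ) / s.2 - a) * Q ^ 2)
      have f1' := Nat.floor_le hx0'
      have f2' := Nat.lt_floor_add_one (((s'.1 : ℝ) / s'.2 - a) * Q ^ 2)
      rw [hss] at f1 f2
      have hd : |((s.1 : ℝ) / s.2 - (s'.1 : ℝ) / s'.2)| * Q ^ 2 < 1 := by
        rw [← abs_of_pos hQ2, ← abs_mul, abs_lt]
        constructor <;> nlinarith
      have hq : (0 : ℝ) < s.2 := by exact_mod_cast h1
      have hq' : (0 : ℝ) < s'.2 := by exact_mod_cast h1'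
      have hqq : (s.2 : ℝ) * s'.2 ≤ Q ^ 2 := by
        rw [sq]
        exact mul_le_mul h2 h2' hq'.le hQ0.le
      have hd2 : |((s.1 : ℝ) * s'.2 - (s'.1 : ℝ) * s.2)| < 1 := by
        have e1 : (s.1 : ℝ) * s'.2 - (s'.1 : ℝ) * s.2 =
            ((s.1 : ℝ) / s.2 - (s'.1 : ℝ) / s'.2) * (s.2 * s'.2) := by
          field_simp
        rw [e1, abs_mul, abs_of_pos (mul_pos hq hq')]
        exact lt_of_le_of_lt (mul_le_mul_of_nonneg_left hqq (abs_nonneg _)) hd
      have hd3 : |((s.1 : ℤ) * s'.2 - (s'.1 : ℤ) * s.2)| < 1 := by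
        exact_mod_cast hd2
      have hd4 : s.1 * s'.2 = s'.1 * s.2 := by
        have := Int.abs_lt_one_iff.1 hd3
        zify
        linarith
      have hdvd : s.2 ∣ s'.2 := by
        have : s.2 ∣ s.1 * s'.2 := ⟨s'.1, by rw [hd4]; ring⟩
        exact (Nat.Coprime.symm h3).dvd_of_dvd_mul_left this
      have hdvd' : s'.2 ∣ s.2 := by
        have : s'.2 ∣ s'.1 * s.2 := ⟨s.1, by rw [← hd4]; ring⟩
        exact (Nat.Coprime.symm h3').dvd_of_dvd_mul_left this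
      have e2 : s.2 = s'.2 := Nat.dvd_antisymm hdvd hdvd'
      have e1 : s.1 = s'.1 := by
        rw [← e2] at hd4
        exact Nat.eq_of_mul_eq_mul_right (by omega) hd4
      exact Prod.ext e1 e2
  rw [Finset.card_range] at hcard
  have h0 : 0 ≤ Q ^ 2 * (b - a) := mul_nonneg hQ2.le (by linarith)
  have h1 := Nat.floor_le h0
  have h2 : (S.card : ℝ) ≤ (⌊Q ^ 2 * (b - a)⌋₊ : ℝ) + 1 := by exact_mod_cast hcard
  linarith

end Pool.Agent.H304R4.CM
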