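import Pool.Agent.H304R4.CM.Stubs

/-! # TEAM CM, task G1: existence of a critical point near an approximate one. -/

open Complex MeasureTheory Filter Topology

namespace Pool.Agent.H304R4.CM

namespace G1

/-- gradient of `PP ρ` -/
noncomputable def gf (ρ : ℝ) (z : ℝ × ℝ) : ℝ × ℝ :=
  (4 * z.1 * z.2 + 2 * ρ * z.2 ^ 2, 2 * z.1 ^ 2 + 4 * ρ * z.1 * z.2)

/-- derivative of the gradient at `z` -/
noncomputable def gd (ρ : ℝ) (z : ℝ × ℝ) : (ℝ × ℝ) →L[ℝ] (ℝ × ℝ) :=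
  ((4 * z.2) • ContinuousLinearMap.fst ℝ ℝ ℝ + (4 * z.1 + 4 * ρ * z.2) • ContinuousLinearMap.snd ℝ ℝ ℝ).prod
    ((4 * z.1 + 4 * ρ * z.2) • ContinuousLinearMap.fst ℝ ℝ ℝ + (4 * ρ * z.1) • ContinuousLinearMap.snd ℝ ℝ ℝ)

theorem gd_apply (ρ : ℝ) (z u : ℝ × ℝ) : gd ρ z u =
    (4 * z.2 * u.1 + (4 * z.1 + 4 * ρ * z.2) * u.2, (4 * z.1 + 4 * ρ * z.2) * u.1 + 4 * ρ * z.1 * u.2) := by
  simp [gd]

/-- determinant -/
noncomputable def dd (ρ : ℝ) (z : ℝ × ℝ) : ℝ := -16 * (z.1 ^ 2 + ρ * z.1 * z.2 + ρ ^ 2 * z.2 ^ 2)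

theorem dd_neg {ρ : ℝ} {z : ℝ × ℝ} (h : 1 / 100 ≤ z.1) : dd ρ z ≤ -(12 / 10000) := by
  unfold dd
  nlinarith [sq_nonneg (z.1 / 2 + ρ * z.2), mul_self_nonneg (z.1 - 1 / 100), mul_self_nonneg z.1]

/-- the right inverse -/
noncomputable def gi {ρ : ℝ} {z : ℝ × ℝ} (hρ : |ρ| ≤ 1) (hz : z ∈ bx 100) :
    (gd ρ z).NonlinearRightInverse where
  toFun u := ((4 * ρ * z.1 * u.1 - (4 * z.1 + 4 * ρ * z.2) * u.2) / dd ρ z,
    (-(4 * z.1 + 4 * ρ * z.2) * u.1 + 4 * z.2 * u.2) / dd ρ z)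
  nnnorm := 1000000
  bound' u := by
    obtain ⟨⟨hz1, hz2⟩, hz3, hz4⟩ := hz
    have hd := dd_neg (ρ := ρ) (z := z) hz1
    have hu1 : |u.1| ≤ ‖u‖ := norm_fst_le u
    have hu2 : |u.2| ≤ ‖u‖ := norm_snd_le u
    have hρ' := abs_le.1 hρ
    have hz10 : (0 : ℝ) < z.1 := by linarith
    have hz20 : (0 : ℝ) < z.2 := by linarith
    have e1 : |4 * ρ * z.1| ≤ 400 := by
      rw [abs_le]; constructor <;> nlinarith
    have e2 : |4 * z.1 + 4 * ρ * z.2| ≤ 800 := by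
      rw [abs_le]; constructor <;> nlinarith
    have e3 : |4 * z.2| ≤ 400 := by
      rw [abs_le]; constructor <;> nlinarith
    have key : ∀ s : ℝ, |s| ≤ 1200 * ‖u‖ → |s / dd ρ z| ≤ 1000000 * ‖u‖ := by
      intro s hs
      rw [abs_div]
      have h1 : (12 / 10000 : ℝ) ≤ |dd ρ z| := by
        rw [abs_of_neg (by linarith)]; linarith
      rw [div_le_iff₀ (by linarith)]
      nlinarith [norm_nonneg u]
    have h0 := norm_nonneg u
    have f1 : |4 * ρ * z.1 * u.1| ≤ 400 * ‖u‖ := by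
      rw [abs_mul]; exact mul_le_mul e1 hu1 (abs_nonneg _) (by norm_num)
    have f2 : |(4 * z.1 + 4 * ρ * z.2) * u.2| ≤ 800 * ‖u‖ := by
      rw [abs_mul]; exact mul_le_mul e2 hu2 (abs_nonneg _) (by norm_num)
    have f3 : |(4 * z.1 + 4 * ρ * z.2) * u.1| ≤ 800 * ‖u‖ := by
      rw [abs_mul]; exact mul_le_mul e2 hu1 (abs_nonneg _) (by norm_num)
    have f4 : |4 * z.2 * u.2| ≤ 400 * ‖u‖ := by
      rw [abs_mul]; exact mul_le_mul e3 hu2 (abs_nonneg _) (by norm_num)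
    rw [Prod.norm_mk]
    apply max_le
    · rw [Real.norm_eq_abs]
      apply key
      rw [abs_le] at f1 f2 ⊢
      constructor <;> linarith
    · rw [Real.norm_eq_abs]
      apply key
      rw [abs_le] at f3 f4 ⊢
      constructor <;> linarith
  right_inv' u := by
    have hd := dd_neg (ρ := ρ) (z := z) hz.1.1
    have hd0 : dd ρ z ≠ 0 := by linarith
    rw [gd_apply]
    apply Prod.ext
    · show 4 * z.2 * ((4 * ρ * z.1 * u.1 - (4 * z.1 + 4 * ρ * z.2) * u.2) / dd ρ z) +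
        (4 * z.1 + 4 * ρ * z.2) * ((-(4 * z.1 + 4 * ρ * z.2) * u.1 + 4 * z.2 * u.2) / dd ρ z) = u.1
      field_simp
      unfold dd
      ring
    · show (4 * z.1 + 4 * ρ * z.2) * ((4 * ρ * z.1 * u.1 - (4 * z.1 + 4 * ρ * z.2) * u.2) / dd ρ z) +
        4 * ρ * z.1 * ((-(4 * z.1 + 4 * ρ * z.2) * u.1 + 4 * z.2 * u.2) / dd ρ z) = u.2
      field_simp
      unfold dd
      ring

theorem approx {ρ : ℝ} (hρ : |ρ| ≤ 1) (z : ℝ × ℝ) :
    ApproximatesLinearOn (gf ρ) (gd ρ z) (Metric.closedBall z (1 / 24000000)) (1 / 2000000) := by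
  intro a ha b hb
  have h1 : gf ρ a - gf ρ b - gd ρ z (a - b) =
      gd ρ ((1 / 2 : ℝ) • ((a - z) + (b - z))) (a - b) := by
    rw [gd_apply, gd_apply]
    apply Prod.ext
    · simp only [gf, Prod.fst_sub, Prod.snd_sub, Prod.fst_add, Prod.snd_add, Prod.smul_fst,
        Prod.smul_snd, smul_eq_mul]
      ring
    · simp only [gf, Prod.fst_sub, Prod.snd_sub, Prod.fst_add, Prod.snd_add, Prod.smul_fst,
        Prod.smul_snd, smul_eq_mul]
      ring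
  rw [h1]
  rw [Metric.mem_closedBall, dist_eq_norm] at ha hb
  set v : ℝ × ℝ := (1 / 2 : ℝ) • ((a - z) + (b - z)) with hv
  have hv1 : ‖v‖ ≤ 1 / 24000000 := by
    rw [hv, norm_smul]
    have := norm_add_le (a - z) (b - z)
    rw [Real.norm_eq_abs, abs_of_pos (by norm_num : (0 : ℝ) < 1 / 2)]
    linarith
  have hv2 : |v.1| ≤ 1 / 24000000 := (norm_fst_le v).trans hv1
  have hv3 : |v.2| ≤ 1 / 24000000 := (norm_snd_le v).trans hv1
  have hu1 : |(a - b).1| ≤ ‖a - b‖ := norm_fst_le (a - b)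
  have hu2 : |(a - b).2| ≤ ‖a - b‖ := norm_snd_le (a - b)
  rw [gd_apply, Prod.norm_mk]
  have hρv : ∀ s : ℝ, |s| ≤ 1 / 24000000 → |ρ * s| ≤ 1 / 24000000 := by
    intro s hs
    rw [abs_mul]
    calc |ρ| * |s| ≤ 1 * (1 / 24000000) := mul_le_mul hρ hs (abs_nonneg _) (by norm_num)
      _ = _ := by ring
  have g1 := hρv _ hv2
  have g2 := hρv _ hv3
  have e1 : |4 * v.2| ≤ 4 / 24000000 := by
    rw [abs_le] at hv3 ⊢; constructor <;> linarith
  have e2 : |4 * v.1 + 4 * ρ * v.2| ≤ 8 / 24000000 := by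
    rw [abs_le] at hv2 g2 ⊢; constructor <;> linarith
  have e3 : |4 * ρ * v.1| ≤ 4 / 24000000 := by
    rw [abs_le] at g1 ⊢; constructor <;> linarith
  have f1 : |4 * v.2 * (a - b).1| ≤ 4 / 24000000 * ‖a - b‖ := by
    rw [abs_mul]; exact mul_le_mul e1 hu1 (abs_nonneg _) (by norm_num)
  have f2 : |(4 * v.1 + 4 * ρ * v.2) * (a - b).2| ≤ 8 / 24000000 * ‖a - b‖ := by
    rw [abs_mul]; exact mul_le_mul e2 hu2 (abs_nonneg _) (by norm_num)
  have f3 : |(4 * v.1 + 4 * ρ * v.2) * (a - b).1| ≤ 8 / 24000000 * ‖a - b‖ := by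
    rw [abs_mul]; exact mul_le_mul e2 hu1 (abs_nonneg _) (by norm_num)
  have f4 : |4 * ρ * v.1 * (a - b).2| ≤ 4 / 24000000 * ‖a - b‖ := by
    rw [abs_mul]; exact mul_le_mul e3 hu2 (abs_nonneg _) (by norm_num)
  have hc : (((1 / 2000000 : NNReal) : ℝ)) = 1 / 2000000 := by norm_num
  rw [hc]
  rw [abs_le] at f1 f2 f3 f4
  apply max_le
  · rw [Real.norm_eq_abs, abs_le]
    constructor <;> linarith
  · rw [Real.norm_eq_abs, abs_le]
    constructor <;> linarith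

end G1

open G1 in
theorem t_G1 : S_G1 := by
  refine ⟨1 / 48000000000000, 4000000, by norm_num, by norm_num, ?_⟩
  intro ρ n₁ n₂ z hρ hz hδ
  set δ := |4 * z.1 * z.2 + 2 * ρ * z.2 ^ 2 - n₁| + |2 * z.1 ^ 2 + 4 * ρ * z.1 * z.2 - n₂| with hδd
  have hδ0 : 0 ≤ δ := by positivity
  have h1 := (approx hρ z).surjOn_closedBall_of_nonlinearRightInverse (gi hρ hz)
    (ε := 2000000 * δ) (b := z) (by positivity) (Metric.closedBall_subset_closedBall (by linarith))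
  have h2 : ((n₁, n₂) : ℝ × ℝ) ∈ Metric.closedBall (gf ρ z)
      ((((gi hρ hz).nnnorm : ℝ)⁻¹ - ((1 / 2000000 : NNReal) : ℝ)) * (2000000 * δ)) := by
    have e : ((((gi hρ hz).nnnorm : ℝ)⁻¹ - ((1 / 2000000 : NNReal) : ℝ)) * (2000000 * δ)) = δ := by
      have e1 : ((gi hρ hz).nnnorm : ℝ) = 1000000 := by
        show (((1000000 : NNReal)) : ℝ) = 1000000
        norm_num
      have e2 : (((1 / 2000000 : NNReal) : ℝ)) = 1 / 2000000 := by norm_num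
      rw [e1, e2]
      ring
    rw [e, Metric.mem_closedBall, dist_comm, dist_eq_norm]
    show ‖(4 * z.1 * z.2 + 2 * ρ * z.2 ^ 2 - n₁, 2 * z.1 ^ 2 + 4 * ρ * z.1 * z.2 - n₂)‖ ≤ δ
    rw [Prod.norm_mk]
    apply max_le
    · rw [Real.norm_eq_abs, hδd]
      linarith [abs_nonneg (2 * z.1 ^ 2 + 4 * ρ * z.1 * z.2 - n₂)]
    · rw [Real.norm_eq_abs, hδd]
      linarith [abs_nonneg (4 * z.1 * z.2 + 2 * ρ * z.2 ^ 2 - n₁)]
  obtain ⟨w, hw1, hw2⟩ := h1 h2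
  rw [Metric.mem_closedBall, dist_eq_norm] at hw1
  have hw3 : |w.1 - z.1| ≤ 2000000 * δ := (norm_fst_le (w - z)).trans hw1
  have hw4 : |w.2 - z.2| ≤ 2000000 * δ := (norm_snd_le (w - z)).trans hw1
  refine ⟨w, ⟨?_, ?_, congrArg Prod.fst hw2, congrArg Prod.snd hw2⟩, by linarith⟩
  · have := hz.1.1
    rw [abs_le] at hw3
    linarith
  · have := hz.2.1
    rw [abs_le] at hw4
    linarith

end Pool.Agent.H304R4.CM
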