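import Pool.Agent.H304R4.CM.Stubs

/-! # Task G2: uniqueness of the critical point -/

namespace Pool.Agent.H304R4.CM

namespace TG2

theorem uniq {ρ n₁ n₂ : ℝ} {z w : ℝ × ℝ} (hz : IsC ρ n₁ n₂ z) (hw : IsC ρ n₁ n₂ w) : z = w := by
  obtain ⟨x, y⟩ := z
  obtain ⟨u, v⟩ := w
  obtain ⟨hx, hy, h1, h2⟩ := hz
  obtain ⟨hu, hv, h3, h4⟩ := hw
  simp only at hx hy h1 h2 hu hv h3 h4
  have e1 : n₂ ^ 2 - ρ * n₁ * n₂ + ρ ^ 2 * n₁ ^ 2 = (2 * (x ^ 2 + ρ * x * y + ρ ^ 2 * y ^ 2)) ^ 2 := by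
    rw [← h1, ← h2]
    ring
  have e2 : n₂ ^ 2 - ρ * n₁ * n₂ + ρ ^ 2 * n₁ ^ 2 = (2 * (u ^ 2 + ρ * u * v + ρ ^ 2 * v ^ 2)) ^ 2 := by
    rw [← h3, ← h4]
    ring
  have p1 : 0 ≤ 2 * (x ^ 2 + ρ * x * y + ρ ^ 2 * y ^ 2) := by
    nlinarith [sq_nonneg (x + ρ * y), sq_nonneg x, sq_nonneg (ρ * y), sq_nonneg (x + ρ * y / 2)]
  have p2 : 0 ≤ 2 * (u ^ 2 + ρ * u * v + ρ ^ 2 * v ^ 2) := by
    nlinarith [sq_nonneg (u + ρ * v), sq_nonneg u, sq_nonneg (ρ * v), sq_nonneg (u + ρ * v / 2)]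
  have e3 : 2 * (x ^ 2 + ρ * x * y + ρ ^ 2 * y ^ 2) = 2 * (u ^ 2 + ρ * u * v + ρ ^ 2 * v ^ 2) :=
    (pow_left_inj₀ p1 p2 two_ne_zero).mp (e1.symm.trans e2)
  have e4 : 6 * x ^ 2 = n₂ - 2 * ρ * n₁ + 2 * (2 * (x ^ 2 + ρ * x * y + ρ ^ 2 * y ^ 2)) := by
    rw [← h1, ← h2]
    ring
  have e5 : 6 * u ^ 2 = n₂ - 2 * ρ * n₁ + 2 * (2 * (u ^ 2 + ρ * u * v + ρ ^ 2 * v ^ 2)) := by
    rw [← h3, ← h4]
    ring
  have e6 : x ^ 2 = u ^ 2 := by linarith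
  have hxu : x = u := (pow_left_inj₀ hx.le hu.le two_ne_zero).mp e6
  subst hxu
  have hyv : y = v := by
    by_cases hρ : ρ = 0
    · subst hρ
      have h5 : x * y = x * v := by linarith
      exact mul_left_cancel₀ hx.ne' h5
    · have h5 : (ρ * x) * y = (ρ * x) * v := by linarith
      exact mul_left_cancel₀ (mul_ne_zero hρ hx.ne') h5
  rw [hyv]

end TG2

theorem t_G2 : S_G2 := by
  refine ⟨fun ρ n₁ n₂ z w hz hw => TG2.uniq hz hw, fun ρ n₁ n₂ z hz => ?_⟩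
  have h : ∃ z, IsC ρ n₁ n₂ z := ⟨z, hz⟩
  unfold zc
  rw [dif_pos h]
  exact TG2.uniq h.choose_spec hz

end Pool.Agent.H304R4.CM
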