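import Mathlib
import Pool.Agent.H304R4.CM.Stubs

/-! # TEAM CM: task H1, the path of critical points. -/

open Complex MeasureTheory Filter Topology

namespace Pool.Agent.H304R4.CM

lemma H1_qq_pos (ρ : ℝ) (z : ℝ × ℝ) (h1 : 0 < z.1) : 0 < qq ρ z := by
  unfold qq
  have h2 : z.1 ^ 2 + ρ * z.1 * z.2 + ρ ^ 2 * z.2 ^ 2 =
      (3 / 4) * z.1 ^ 2 + (z.1 / 2 + ρ * z.2) ^ 2 := by ring
  rw [h2]
  have : 0 < z.1 ^ 2 := by positivity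
  nlinarith [sq_nonneg (z.1 / 2 + ρ * z.2)]

theorem t_H1 (hG1 : S_G1) (hG2 : S_G2) (hC3a : S_C3a) : S_H1 := by
  obtain ⟨c, K, hc, hK, hG⟩ := hG1
  have hKpos : 0 < K := by linarith
  set c0 : ℝ := min 1 (min (c / 32) (1 / (6144 * K))) with hc0
  have hc0pos : 0 < c0 := by
    rw [hc0]; apply lt_min one_pos; apply lt_min <;> positivity
  have hc0le1 : c0 ≤ 1 := min_le_left _ _
  have hc0c : c0 ≤ c / 32 := (min_le_right _ _).trans (min_le_left _ _)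
  have hc0K : c0 ≤ 1 / (6144 * K) := (min_le_right _ _).trans (min_le_right _ _)
  refine ⟨c0, hc0pos, hc0le1, ?_⟩
  intro ρ lam μ₁ μ₂ H z₀ hρ hlam hlamc hH hz₀ hC₀ h hh1 hh2
  have hh : 0 < h := by linarith
  have hlam2 : lam ^ 2 ≤ c0 := by nlinarith
  have hρ1 := (abs_le.1 hρ).1
  have hρ2 := (abs_le.1 hρ).2
  -- the scaled point
  set s : ℝ := h / H with hs
  have hsH : s * H = h := by rw [hs]; field_simp
  have hs1 : 1 / 3 ≤ s := by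
    rw [hs, le_div_iff₀ hH]; linarith
  have hs2 : s ≤ 3 := by
    rw [hs, div_le_iff₀ hH]; linarith
  have hspos : 0 < s := by linarith
  obtain ⟨⟨a1, a2⟩, ⟨b1, b2⟩⟩ := hz₀
  obtain ⟨p1, p2, e1, e2⟩ := hC₀
  set w₀ : ℝ × ℝ := (s * z₀.1, s * z₀.2) with hw₀
  have hw48 : (1 / 48 ≤ w₀.1 ∧ w₀.1 ≤ 48) ∧ (1 / 48 ≤ w₀.2 ∧ w₀.2 ≤ 48) := by
    simp only [hw₀]
    refine ⟨⟨?_, ?_⟩, ⟨?_, ?_⟩⟩ <;> nlinarith
  have hs2le : s ^ 2 ≤ 9 := by nlinarith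
  have habs : |1 - s ^ 2| ≤ 8 := by
    rw [abs_le]; constructor <;> nlinarith [sq_nonneg s]
  have d1 : 4 * w₀.1 * w₀.2 + 2 * ρ * w₀.2 ^ 2 - m1 ρ lam μ₁ h = 2 * ρ * lam ^ 2 * (1 - s ^ 2) := by
    simp only [hw₀, m1]
    have : 4 * (s * z₀.1) * (s * z₀.2) + 2 * ρ * (s * z₀.2) ^ 2 =
      s ^ 2 * (4 * z₀.1 * z₀.2 + 2 * ρ * z₀.2 ^ 2) := by ring
    rw [this, e1, m1, ← hsH]; ring
  have d2 : 2 * w₀.1 ^ 2 + 4 * ρ * w₀.1 * w₀.2 - m2 ρ lam μ₂ h =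
      2 * ρ ^ 2 * lam ^ 2 * (1 - s ^ 2) := by
    simp only [hw₀, m2]
    have : 2 * (s * z₀.1) ^ 2 + 4 * ρ * (s * z₀.1) * (s * z₀.2) =
      s ^ 2 * (2 * z₀.1 ^ 2 + 4 * ρ * z₀.1 * z₀.2) := by ring
    rw [this, e2, m2, ← hsH]; ring
  have hlam2n : 0 ≤ lam ^ 2 := sq_nonneg _
  have n1 : |4 * w₀.1 * w₀.2 + 2 * ρ * w₀.2 ^ 2 - m1 ρ lam μ₁ h| ≤ 16 * lam ^ 2 := by
    rw [d1, abs_mul, abs_mul, abs_mul, abs_of_nonneg hlam2n]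
    have : |(2 : ℝ)| = 2 := by norm_num
    rw [this]
    have h1 : 2 * |ρ| * lam ^ 2 ≤ 2 * lam ^ 2 := by nlinarith
    have h2 : 0 ≤ 2 * |ρ| * lam ^ 2 := by positivity
    calc 2 * |ρ| * lam ^ 2 * |1 - s ^ 2| ≤ 2 * |ρ| * lam ^ 2 * 8 :=
          mul_le_mul_of_nonneg_left habs h2
      _ ≤ 2 * lam ^ 2 * 8 := by linarith
      _ = 16 * lam ^ 2 := by ring
  have n2 : |2 * w₀.1 ^ 2 + 4 * ρ * w₀.1 * w₀.2 - m2 ρ lam μ₂ h| ≤ 16 * lam ^ 2 := by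
    rw [d2, abs_mul, abs_mul, abs_mul, abs_of_nonneg hlam2n]
    have : |(2 : ℝ)| = 2 := by norm_num
    rw [this, abs_of_nonneg (sq_nonneg ρ)]
    have hρsq : ρ ^ 2 ≤ 1 := by nlinarith
    have h1 : 2 * ρ ^ 2 * lam ^ 2 ≤ 2 * lam ^ 2 := by nlinarith
    have h2 : 0 ≤ 2 * ρ ^ 2 * lam ^ 2 := by positivity
    calc 2 * ρ ^ 2 * lam ^ 2 * |1 - s ^ 2| ≤ 2 * ρ ^ 2 * lam ^ 2 * 8 :=
          mul_le_mul_of_nonneg_left habs h2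
      _ ≤ 2 * lam ^ 2 * 8 := by linarith
      _ = 16 * lam ^ 2 := by ring
  have htot : |4 * w₀.1 * w₀.2 + 2 * ρ * w₀.2 ^ 2 - m1 ρ lam μ₁ h| +
      |2 * w₀.1 ^ 2 + 4 * ρ * w₀.1 * w₀.2 - m2 ρ lam μ₂ h| ≤ 32 * c0 := by linarith
  obtain ⟨w, hwC, hwd⟩ := hG ρ (m1 ρ lam μ₁ h) (m2 ρ lam μ₂ h) w₀ hρ
    (by
      obtain ⟨⟨q1, q2⟩, ⟨q3, q4⟩⟩ := hw48
      refine ⟨⟨?_, ?_⟩, ⟨?_, ?_⟩⟩
      · have : (1 : ℝ) / 100 ≤ 1 / 48 := by norm_num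
        linarith
      · linarith
      · have : (1 : ℝ) / 100 ≤ 1 / 48 := by norm_num
        linarith
      · linarith) (htot.trans (by linarith))
  have hKc : K * (32 * c0) ≤ 1 / 192 := by
    have h1 : K * c0 ≤ K * (1 / (6144 * K)) := mul_le_mul_of_nonneg_left hc0K hKpos.le
    have h2 : K * (1 / (6144 * K)) = 1 / 6144 := by field_simp
    rw [h2] at h1
    nlinarith
  have hwd' : |w.1 - w₀.1| + |w.2 - w₀.2| ≤ 1 / 192 :=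
    hwd.trans ((mul_le_mul_of_nonneg_left htot hKpos.le).trans hKc)
  have hzp : zp ρ lam μ₁ μ₂ h = w := hG2.2 _ _ _ _ hwC
  have hwbx : w ∈ bx 64 := by
    obtain ⟨⟨q1, q2⟩, ⟨q3, q4⟩⟩ := hw48
    have r1 := abs_le.1 (show |w.1 - w₀.1| ≤ 1 / 192 by linarith [abs_nonneg (w.2 - w₀.2)])
    have r2 := abs_le.1 (show |w.2 - w₀.2| ≤ 1 / 192 by linarith [abs_nonneg (w.1 - w₀.1)])
    refine ⟨⟨?_, ?_⟩, ⟨?_, ?_⟩⟩
    · have : (1 : ℝ) / 48 - 1 / 192 = 1 / 64 := by norm_num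
      linarith [r1.1]
    · linarith [r1.2]
    · have : (1 : ℝ) / 48 - 1 / 192 = 1 / 64 := by norm_num
      linarith [r2.1]
    · linarith [r2.2]
  have hwbx90 : w ∈ bx 90 := by
    obtain ⟨⟨q1, q2⟩, ⟨q3, q4⟩⟩ := hwbx
    have h90 : (1 : ℝ) / 90 ≤ 1 / 64 := by norm_num
    refine ⟨⟨?_, ?_⟩, ⟨?_, ?_⟩⟩ <;> linarith
  obtain ⟨-, D1, D2⟩ := hC3a ρ (m1 ρ lam μ₁ h, m2 ρ lam μ₂ h) w hρ hwbx90 hwC
  obtain ⟨w1pos, w2pos, E1, E2⟩ := hwC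
  have hq : 0 < qq ρ w := H1_qq_pos ρ w w1pos
  -- the path of frequencies
  have M1 : HasDerivAt (fun t : ℝ => m1 ρ lam μ₁ t) (μ₁ * (2 * h)) h := by
    unfold m1
    have := ((hasDerivAt_pow 2 h).const_mul μ₁).sub_const (2 * ρ * lam ^ 2)
    simpa using this
  have M2 : HasDerivAt (fun t : ℝ => m2 ρ lam μ₂ t) (μ₂ * (2 * h)) h := by
    unfold m2
    have := ((hasDerivAt_pow 2 h).const_mul μ₂).sub_const (2 * ρ ^ 2 * lam ^ 2)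
    simpa using this
  have MM : HasDerivAt (fun t : ℝ => ((m1 ρ lam μ₁ t, m2 ρ lam μ₂ t) : ℝ × ℝ))
      (μ₁ * (2 * h), μ₂ * (2 * h)) h := M1.prodMk M2
  have F1 := D1.comp_hasDerivAt h MM
  have F2 := D2.comp_hasDerivAt h MM
  have hμ1 : μ₁ * h ^ 2 = 4 * w.1 * w.2 + 2 * ρ * w.2 ^ 2 + 2 * ρ * lam ^ 2 := by
    rw [E1]; unfold m1; ring
  have hμ2 : μ₂ * h ^ 2 = 2 * w.1 ^ 2 + 4 * ρ * w.1 * w.2 + 2 * ρ ^ 2 * lam ^ 2 := by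
    rw [E2]; unfold m2; ring
  rw [hzp]
  refine ⟨⟨w1pos, w2pos, E1, E2⟩, hwbx, ?_, ?_⟩
  · have key : ((w.1 + lam ^ 2 * ρ ^ 3 * w.2 / qq ρ w) / h) =
        ((-(ρ * w.1) / (4 * qq ρ w)) • ContinuousLinearMap.fst ℝ ℝ ℝ +
          ((w.1 + ρ * w.2) / (4 * qq ρ w)) • ContinuousLinearMap.snd ℝ ℝ ℝ)
          (μ₁ * (2 * h), μ₂ * (2 * h)) := by
      simp only [ContinuousLinearMap.add_apply, ContinuousLinearMap.smul_apply,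
        ContinuousLinearMap.coe_fst', ContinuousLinearMap.coe_snd', smul_eq_mul]
      have hq' : qq ρ w ≠ 0 := hq.ne'
      have hh' : h ≠ 0 := hh.ne'
      field_simp
      have hx : qq ρ w = w.1 ^ 2 + ρ * w.1 * w.2 + ρ ^ 2 * w.2 ^ 2 := rfl
      rw [hx]
      linear_combination (2 * ρ * w.1) * hμ1 - (2 * (w.1 + ρ * w.2)) * hμ2
    rw [key]
    exact F1
  · have key : ((w.2 + lam ^ 2 * ρ * w.1 / qq ρ w) / h) =
        (((w.1 + ρ * w.2) / (4 * qq ρ w)) • ContinuousLinearMap.fst ℝ ℝ ℝ +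
          (-w.2 / (4 * qq ρ w)) • ContinuousLinearMap.snd ℝ ℝ ℝ)
          (μ₁ * (2 * h), μ₂ * (2 * h)) := by
      simp only [ContinuousLinearMap.add_apply, ContinuousLinearMap.smul_apply,
        ContinuousLinearMap.coe_fst', ContinuousLinearMap.coe_snd', smul_eq_mul]
      have hq' : qq ρ w ≠ 0 := hq.ne'
      have hh' : h ≠ 0 := hh.ne'
      field_simp
      have hx : qq ρ w = w.1 ^ 2 + ρ * w.1 * w.2 + ρ ^ 2 * w.2 ^ 2 := rfl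
      rw [hx]
      linear_combination -(2 * (w.1 + ρ * w.2)) * hμ1 + (2 * w.2) * hμ2
    rw [key]
    exact F2

end Pool.Agent.H304R4.CM
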