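import Mathlib
import Pool.Agent.H304R4.CM.Stubs

/-! TEAM CM, task H2: derivatives of the radial phase. -/

set_option autoImplicit false

open Filter Topology Set

namespace Pool.Agent.H304R4.CM

namespace TH2

lemma q_lb (ρ x y : ℝ) : 3 / 4 * x ^ 2 ≤ x ^ 2 + ρ * x * y + ρ ^ 2 * y ^ 2 := by
  nlinarith [sq_nonneg (x / 2 + ρ * y)]

lemma alg1 (x y r l h Q : ℝ) (hQ0 : Q ≠ 0) (hQ : Q = x ^ 2 + r * x * y + r ^ 2 * y ^ 2) :
    (4 * x * y + 2 * r * y ^ 2) * ((x + l ^ 2 * r ^ 3 * y / Q) / h) +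
      (2 * x ^ 2 + 4 * r * x * y) * ((y + l ^ 2 * r * x / Q) / h) =
    (3 * PP r x y + 2 * l ^ 2 * r * (x + r * y)) / h := by
  have e1 : l ^ 2 * r ^ 3 * y / Q * (4 * x * y + 2 * r * y ^ 2) +
      l ^ 2 * r * x / Q * (2 * x ^ 2 + 4 * r * x * y) = 2 * l ^ 2 * r * (x + r * y) := by
    rw [div_mul_eq_mul_div, div_mul_eq_mul_div, ← add_div, div_eq_iff hQ0, hQ]
    ring
  rw [← e1]
  unfold PP
  ring

lemma alg2 (x y r l h Q : ℝ) :
    (x + l ^ 2 * r ^ 3 * y / Q) / h + r * ((y + l ^ 2 * r * x / Q) / h) =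
    (x + r * y) * (1 + r ^ 2 * l ^ 2 / Q) / h := by
  ring

lemma core (ρ lam H L : ℝ) (X Y : ℝ → ℝ) (hρ : |ρ| ≤ 1) (hlam0 : 0 ≤ lam) (hlam : lam ≤ 1 / 1000)
    (hH : 0 < H) (hL : 0 < L)
    (hXb : ∀ h, H / 3 ≤ h → h ≤ 3 * H → 1 / 64 ≤ X h)
    (hX : ∀ h, H / 3 ≤ h → h ≤ 3 * H → HasDerivAt X
      ((X h + lam ^ 2 * ρ ^ 3 * Y h / (X h ^ 2 + ρ * X h * Y h + ρ ^ 2 * Y h ^ 2)) / h) h)
    (hY : ∀ h, H / 3 ≤ h → h ≤ 3 * H → HasDerivAt Y
      ((Y h + lam ^ 2 * ρ * X h / (X h ^ 2 + ρ * X h * Y h + ρ ^ 2 * Y h ^ 2)) / h) h) :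
    ∃ Φ₁ Φ₂ : ℝ → ℝ, ∃ σ : ℝ, (σ = 1 ∨ σ = -1) ∧ ∀ h : ℝ, H / 3 ≤ h → h ≤ 3 * H →
    HasDerivAt (fun t => 2 * (L / t ^ 2) * PP ρ (X t) (Y t)) (Φ₁ h) h ∧ HasDerivAt Φ₁ (Φ₂ h) h ∧
    Φ₁ h = L / h ^ 3 * (2 * PP ρ (X h) (Y h) + 4 * ρ * lam ^ 2 * (X h + ρ * Y h)) ∧
    |Φ₁ h - 2 * (L / H ^ 3) * PP ρ (X H) (Y H)| ≤
      6000 * (|ρ| * lam ^ 2 * L * |X H + ρ * Y H| / H ^ 3) ∧
    (|ρ| * lam ^ 2 * L * |X H + ρ * Y H| / H ^ 4) / 6000 ≤ σ * Φ₂ h ∧
    σ * Φ₂ h ≤ 6000 * (|ρ| * lam ^ 2 * L * |X H + ρ * Y H| / H ^ 4) := by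
  set q : ℝ → ℝ := fun h => X h ^ 2 + ρ * X h * Y h + ρ ^ 2 * Y h ^ 2 with hq
  have hqlb : ∀ h, H / 3 ≤ h → h ≤ 3 * H → 3 / 16384 ≤ q h := by
    intro h h1 h2
    have h3 := q_lb ρ (X h) (Y h)
    have h4 := hXb h h1 h2
    have h5 : (1 / 64 : ℝ) ^ 2 ≤ X h ^ 2 := pow_le_pow_left₀ (by norm_num) h4 2
    simp only [hq]
    nlinarith
  have hρ2 : ρ ^ 2 ≤ 1 := by
    rw [← sq_abs]
    exact pow_le_one₀ (abs_nonneg _) hρ
  have hlam2 : lam ^ 2 ≤ 1 / 1000000 := by nlinarith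
  set ε : ℝ → ℝ := fun h => ρ ^ 2 * lam ^ 2 / q h with hε
  have hεb : ∀ h, H / 3 ≤ h → h ≤ 3 * H → 0 ≤ ε h ∧ ε h ≤ 1 / 2 := by
    intro h h1 h2
    have h3 := hqlb h h1 h2
    have h4 : 0 < q h := by linarith
    refine ⟨by simp only [hε]; positivity, ?_⟩
    simp only [hε]
    rw [div_le_iff₀ h4]
    have : ρ ^ 2 * lam ^ 2 ≤ 1 * (1 / 1000000) :=
      mul_le_mul hρ2 hlam2 (sq_nonneg _) zero_le_one
    linarith
  have hh0 : ∀ h, H / 3 ≤ h → 0 < h := fun h h1 => by linarith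
  set s : ℝ → ℝ := fun h => X h + ρ * Y h with hs
  -- derivatives
  have hP : ∀ h, H / 3 ≤ h → h ≤ 3 * H → HasDerivAt (fun t => PP ρ (X t) (Y t))
      ((3 * PP ρ (X h) (Y h) + 2 * lam ^ 2 * ρ * s h) / h) h := by
    intro h h1 h2
    have h3 := hX h h1 h2
    have h4 := hY h h1 h2
    have h5 : q h ≠ 0 := ne_of_gt (by linarith [hqlb h h1 h2])
    have h6 : h ≠ 0 := (hh0 h h1).ne'
    have h7 := ((h3.pow 2).const_mul 2).mul h4
    have h8 := (h3.const_mul (2 * ρ)).mul (h4.pow 2)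
    have h9 := h7.add h8
    refine HasDerivAt.congr_deriv (f := fun t => PP ρ (X t) (Y t)) h9 ?_
    rw [← alg1 (X h) (Y h) ρ lam h (q h) h5 rfl]
    simp only [hq, Pi.pow_apply, Nat.add_one_sub_one, pow_one, Nat.cast_ofNat]
    ring
  have hS : ∀ h, H / 3 ≤ h → h ≤ 3 * H → HasDerivAt s (s h * (1 + ε h) / h) h := by
    intro h h1 h2
    have h3 := hX h h1 h2
    have h4 := hY h h1 h2
    have h5 : q h ≠ 0 := ne_of_gt (by linarith [hqlb h h1 h2])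
    have h6 : h ≠ 0 := (hh0 h h1).ne'
    have h7 := h3.add (h4.const_mul ρ)
    refine HasDerivAt.congr_deriv (f := s) h7 ?_
    exact alg2 (X h) (Y h) ρ lam h (q h)
  set Φ₁ : ℝ → ℝ := fun h => L / h ^ 3 * (2 * PP ρ (X h) (Y h) + 4 * ρ * lam ^ 2 * s h) with hΦ₁
  set Φ₂ : ℝ → ℝ := fun h => -(4 * ρ * lam ^ 2 * L / h ^ 4) * s h * (1 - ε h) with hΦ₂
  have hd1 : ∀ h, H / 3 ≤ h → h ≤ 3 * H →
      HasDerivAt (fun t => 2 * (L / t ^ 2) * PP ρ (X t) (Y t)) (Φ₁ h) h := by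
    intro h h1 h2
    have h6 : h ≠ 0 := (hh0 h h1).ne'
    have h3 := ((hasDerivAt_const h L).div (hasDerivAt_pow 2 h) (pow_ne_zero 2 h6)).const_mul 2
    have h4 := h3.mul (hP h h1 h2)
    refine HasDerivAt.congr_deriv (f := fun t => 2 * (L / t ^ 2) * PP ρ (X t) (Y t)) h4 ?_
    simp only [hΦ₁, Pi.div_apply, Nat.add_one_sub_one, pow_one, Nat.cast_ofNat]
    field_simp
    ring
  have hd2 : ∀ h, H / 3 ≤ h → h ≤ 3 * H → HasDerivAt Φ₁ (Φ₂ h) h := by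
    intro h h1 h2
    have h6 : h ≠ 0 := (hh0 h h1).ne'
    have h3 := ((hasDerivAt_const h L).div (hasDerivAt_pow 3 h) (pow_ne_zero 3 h6))
    have h4 := h3.mul (((hP h h1 h2).const_mul 2).add ((hS h h1 h2).const_mul (4 * ρ * lam ^ 2)))
    refine HasDerivAt.congr_deriv (f := Φ₁) h4 ?_
    simp only [hΦ₂, Pi.div_apply, Pi.add_apply, Nat.add_one_sub_one, Nat.cast_ofNat]
    norm_num
    field_simp
    ring
  -- the size of `s`
  have hT : ∀ h, H / 3 ≤ h → h ≤ 3 * H →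
      HasDerivAt (fun t => (s t / t) ^ 2) (2 * (s h / h) ^ 2 * ε h / h) h := by
    intro h h1 h2
    have h6 : h ≠ 0 := (hh0 h h1).ne'
    have h3 := ((hS h h1 h2).div (hasDerivAt_id h) h6).pow 2
    refine HasDerivAt.congr_deriv (f := fun t => (s t / t) ^ 2) h3 ?_
    simp only [Pi.div_apply, id, Nat.add_one_sub_one, pow_one, Nat.cast_ofNat]
    field_simp
    ring
  have hU : ∀ h, H / 3 ≤ h → h ≤ 3 * H →
      HasDerivAt (fun t => (s t / t) ^ 2 / t ^ 2) (-(2 * (s h / h) ^ 2 * (1 - ε h) / h ^ 3)) h := by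
    intro h h1 h2
    have h6 : h ≠ 0 := (hh0 h h1).ne'
    have h3 := (hT h h1 h2).div (hasDerivAt_pow 2 h) (pow_ne_zero 2 h6)
    refine HasDerivAt.congr_deriv (f := fun t => (s t / t) ^ 2 / t ^ 2) h3 ?_
    norm_num
    field_simp
    ring
  have hmem : ∀ h, h ∈ Icc (H / 3) (3 * H) ↔ H / 3 ≤ h ∧ h ≤ 3 * H := fun h => Iff.rfl
  have hmono : MonotoneOn (fun t => (s t / t) ^ 2) (Icc (H / 3) (3 * H)) := by
    apply monotoneOn_of_deriv_nonneg (convex_Icc _ _)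
    · intro h hh
      exact (hT h hh.1 hh.2).continuousAt.continuousWithinAt
    · intro h hh
      have hh' := interior_subset hh
      exact (hT h hh'.1 hh'.2).differentiableAt.differentiableWithinAt
    · intro h hh
      have hh' := interior_subset hh
      rw [(hT h hh'.1 hh'.2).deriv]
      have h1 := (hεb h hh'.1 hh'.2).1
      have h2 := hh0 h hh'.1
      positivity
  have hanti : AntitoneOn (fun t => (s t / t) ^ 2 / t ^ 2) (Icc (H / 3) (3 * H)) := by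
    apply antitoneOn_of_deriv_nonpos (convex_Icc _ _)
    · intro h hh
      exact (hU h hh.1 hh.2).continuousAt.continuousWithinAt
    · intro h hh
      have hh' := interior_subset hh
      exact (hU h hh'.1 hh'.2).differentiableAt.differentiableWithinAt
    · intro h hh
      have hh' := interior_subset hh
      rw [(hU h hh'.1 hh'.2).deriv]
      have h1 := (hεb h hh'.1 hh'.2).2
      have h2 := hh0 h hh'.1
      have h3 : 0 ≤ 1 - ε h := by linarith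
      rw [neg_nonpos]
      positivity
  have hHm : H ∈ Icc (H / 3) (3 * H) := ⟨by linarith, by linarith⟩
  have hsz : ∀ h, H / 3 ≤ h → h ≤ 3 * H → |s H| / 9 ≤ |s h| ∧ |s h| ≤ 9 * |s H| := by
    intro h h1 h2
    have hh := hh0 h h1
    have hhm : h ∈ Icc (H / 3) (3 * H) := ⟨h1, h2⟩
    have e1 : (s h / h) ^ 2 ≤ (3 * (s H / H)) ^ 2 ∧ (s H / H / 3) ^ 2 ≤ (s h / h) ^ 2 := by
      rcases le_total H h with hle | hle
      · have a1 : (s H / H) ^ 2 ≤ (s h / h) ^ 2 := hmono hHm hhm hle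
        have a2 : (s h / h) ^ 2 / h ^ 2 ≤ (s H / H) ^ 2 / H ^ 2 := hanti hHm hhm hle
        rw [div_le_div_iff₀ (by positivity) (by positivity)] at a2
        have a3 : h ^ 2 ≤ 9 * H ^ 2 := by nlinarith
        refine ⟨?_, by nlinarith [sq_nonneg (s H / H)]⟩
        have a4 : (s H / H) ^ 2 * h ^ 2 ≤ (s H / H) ^ 2 * (9 * H ^ 2) :=
          mul_le_mul_of_nonneg_left a3 (sq_nonneg _)
        have a5 : (s h / h) ^ 2 * H ^ 2 ≤ (9 * (s H / H) ^ 2) * H ^ 2 := by linarith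
        have a6 := le_of_mul_le_mul_right a5 (by positivity)
        nlinarith
      · have a1 : (s h / h) ^ 2 ≤ (s H / H) ^ 2 := hmono hhm hHm hle
        have a2 : (s H / H) ^ 2 / H ^ 2 ≤ (s h / h) ^ 2 / h ^ 2 := hanti hhm hHm hle
        rw [div_le_div_iff₀ (by positivity) (by positivity)] at a2
        have a3 : H ^ 2 / 9 ≤ h ^ 2 := by nlinarith
        refine ⟨by nlinarith [sq_nonneg (s H / H)], ?_⟩
        have a4 : (s H / H) ^ 2 * (H ^ 2 / 9) ≤ (s H / H) ^ 2 * h ^ 2 :=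
          mul_le_mul_of_nonneg_left a3 (sq_nonneg _)
        have a5 : ((s H / H) ^ 2 / 9) * H ^ 2 ≤ (s h / h) ^ 2 * H ^ 2 := by linarith
        have a6 := le_of_mul_le_mul_right a5 (by positivity)
        nlinarith
    have e2 : |s h / h| ≤ |3 * (s H / H)| := sq_le_sq.1 e1.1
    have e3 : |s H / H / 3| ≤ |s h / h| := sq_le_sq.1 e1.2
    rw [abs_mul, abs_div, abs_div, abs_of_pos hh, abs_of_pos hH,
      abs_of_pos (by norm_num : (0 : ℝ) < 3)] at e2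
    rw [abs_div, abs_div, abs_div, abs_of_pos hh, abs_of_pos hH,
      abs_of_pos (by norm_num : (0 : ℝ) < 3)] at e3
    have p1 := abs_nonneg (s H)
    constructor
    · rw [div_div, div_le_div_iff₀ (by positivity) hh] at e3
      have b1 : |s H| * (H / 3) ≤ |s H| * h := mul_le_mul_of_nonneg_left h1 p1
      have b2 : (|s H| / 9) * H ≤ |s h| * H := by linarith
      exact le_of_mul_le_mul_right b2 hH
    · have e4 : |s h| / h ≤ (3 * |s H|) / H := by rw [mul_div_assoc]; exact e2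
      rw [div_le_div_iff₀ hh hH] at e4
      have b1 : 3 * |s H| * h ≤ 3 * |s H| * (3 * H) :=
        mul_le_mul_of_nonneg_left h2 (by positivity)
      have b2 : |s h| * H ≤ (9 * |s H|) * H := by linarith
      exact le_of_mul_le_mul_right b2 hH
  -- the sign of `ρ * s`
  have hsgn : ∀ h, H / 3 ≤ h → h ≤ 3 * H → 0 ≤ (ρ * s H) * (ρ * s h) := by
    intro h h1 h2
    by_contra hneg
    push Not at hneg
    have hcont : ContinuousOn (fun t => ρ * s t) (uIcc H h) := by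
      intro t ht
      have ht' : t ∈ Icc (H / 3) (3 * H) :=
        (uIcc_subset_Icc hHm (⟨h1, h2⟩ : h ∈ Icc (H / 3) (3 * H))) ht
      exact ((hS t ht'.1 ht'.2).continuousAt.const_mul ρ).continuousWithinAt
    have h0 : (0 : ℝ) ∈ uIcc (ρ * s H) (ρ * s h) := by
      rw [mem_uIcc]
      rcases le_total (ρ * s H) 0 with a | a
      · left
        refine ⟨a, ?_⟩
        by_contra hc
        push Not at hc
        nlinarith [mul_nonneg_of_nonpos_of_nonpos a hc.le]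
      · right
        refine ⟨?_, a⟩
        by_contra hc
        push Not at hc
        nlinarith [mul_nonneg a hc.le]
    obtain ⟨t, ht, ht0⟩ := intermediate_value_uIcc hcont h0
    have ht' : t ∈ Icc (H / 3) (3 * H) :=
      (uIcc_subset_Icc hHm (⟨h1, h2⟩ : h ∈ Icc (H / 3) (3 * H))) ht
    have hsz' := (hsz t ht'.1 ht'.2).1
    simp only [mul_eq_zero] at ht0
    rcases ht0 with h3 | h3
    · rw [h3] at hneg
      simp at hneg
    · rw [h3, abs_zero] at hsz'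
      have h4 : |s H| ≤ 0 := by linarith
      have h5 : s H = 0 := abs_nonpos_iff.1 h4
      rw [h5] at hneg
      simp at hneg
  obtain ⟨σ, hσ, hσ2⟩ : ∃ σ : ℝ, (σ = 1 ∨ σ = -1) ∧ ∀ h, H / 3 ≤ h → h ≤ 3 * H →
      -σ * (ρ * s h) = |ρ| * |s h| := by
    have hz : ∀ h, H / 3 ≤ h → h ≤ 3 * H → ρ * s H = 0 → ρ * s h = 0 := by
      intro h h1 h2 h3
      rcases mul_eq_zero.1 h3 with h4 | h4
      · rw [h4, zero_mul]
      · have := (hsz h h1 h2).2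
        rw [h4, abs_zero, mul_zero] at this
        rw [abs_nonpos_iff.1 this, mul_zero]
    rcases le_or_gt 0 (ρ * s H) with h3 | h3
    · refine ⟨-1, Or.inr rfl, fun h h1 h2 => ?_⟩
      rw [neg_neg, one_mul, ← abs_mul]
      symm
      apply abs_of_nonneg
      rcases h3.eq_or_lt with h4 | h4
      · rw [hz h h1 h2 h4.symm]
      · by_contra hc
        push Not at hc
        nlinarith [hsgn h h1 h2, mul_neg_of_pos_of_neg h4 hc]
    · refine ⟨1, Or.inl rfl, fun h h1 h2 => ?_⟩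
      rw [neg_one_mul, ← abs_mul]
      symm
      apply abs_of_nonpos
      by_contra hc
      push Not at hc
      nlinarith [hsgn h h1 h2, mul_neg_of_neg_of_pos h3 hc]
  have hσa : |σ| = 1 := by rcases hσ with h | h <;> rw [h] <;> norm_num
  set N : ℝ := |ρ| * lam ^ 2 * L * |s H| with hN
  have hN0 : 0 ≤ N := by positivity
  have hΦ₂eq : ∀ h, H / 3 ≤ h → h ≤ 3 * H →
      σ * Φ₂ h = 4 * lam ^ 2 * L / h ^ 4 * (|ρ| * |s h|) * (1 - ε h) := by
    intro h h1 h2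
    rw [← hσ2 h h1 h2]
    simp only [hΦ₂]
    ring
  have hlow : ∀ h, H / 3 ≤ h → h ≤ 3 * H → N / H ^ 4 / 6000 ≤ σ * Φ₂ h := by
    intro h h1 h2
    have hh := hh0 h h1
    rw [hΦ₂eq h h1 h2]
    have a1 : h ^ 4 ≤ 81 * H ^ 4 := by
      have := pow_le_pow_left₀ hh.le h2 4
      calc h ^ 4 ≤ (3 * H) ^ 4 := this
        _ = 81 * H ^ 4 := by ring
    have a2 : 1 / (81 * H ^ 4) ≤ 1 / h ^ 4 := one_div_le_one_div_of_le (by positivity) a1
    have a3 := (hsz h h1 h2).1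
    have a4 := (hεb h h1 h2).2
    have a5 : (|ρ| * (|s H| / 9)) * (1 / 2) ≤ (|ρ| * |s h|) * (1 - ε h) := by
      apply mul_le_mul _ (by linarith) (by norm_num) (by positivity)
      exact mul_le_mul_of_nonneg_left a3 (abs_nonneg _)
    have a6 : (1 / (81 * H ^ 4)) * ((|ρ| * (|s H| / 9)) * (1 / 2)) ≤
        (1 / h ^ 4) * ((|ρ| * |s h|) * (1 - ε h)) := by
      apply mul_le_mul a2 a5 (by positivity) (by positivity)
    have a7 := mul_le_mul_of_nonneg_left a6 (by positivity : 0 ≤ 4 * lam ^ 2 * L)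
    have a8 : 4 * lam ^ 2 * L / h ^ 4 * (|ρ| * |s h|) * (1 - ε h) =
        4 * lam ^ 2 * L * ((1 / h ^ 4) * ((|ρ| * |s h|) * (1 - ε h))) := by
      ring
    have a9 : 4 * lam ^ 2 * L * ((1 / (81 * H ^ 4)) * ((|ρ| * (|s H| / 9)) * (1 / 2))) =
        N / H ^ 4 * (4 / 1458) := by
      simp only [hN]
      field_simp
      ring
    have a10 : N / H ^ 4 / 6000 ≤ N / H ^ 4 * (4 / 1458) := by
      have : 0 ≤ N / H ^ 4 := by positivity
      linarith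
    rw [a8]
    linarith
  have hup : ∀ h, H / 3 ≤ h → h ≤ 3 * H → σ * Φ₂ h ≤ 2916 * (N / H ^ 4) := by
    intro h h1 h2
    have hh := hh0 h h1
    rw [hΦ₂eq h h1 h2]
    have a1 : H ^ 4 / 81 ≤ h ^ 4 := by
      have := pow_le_pow_left₀ (by positivity : 0 ≤ H / 3) h1 4
      calc H ^ 4 / 81 = (H / 3) ^ 4 := by ring
        _ ≤ h ^ 4 := this
    have a2 : 1 / h ^ 4 ≤ 1 / (H ^ 4 / 81) := one_div_le_one_div_of_le (by positivity) a1
    have a3 := (hsz h h1 h2).2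
    have a4 := (hεb h h1 h2)
    have a5 : (|ρ| * |s h|) * (1 - ε h) ≤ (|ρ| * (9 * |s H|)) * 1 := by
      apply mul_le_mul _ (by linarith [a4.1]) (by linarith [a4.2]) (by positivity)
      exact mul_le_mul_of_nonneg_left a3 (abs_nonneg _)
    have a6 : (1 / h ^ 4) * ((|ρ| * |s h|) * (1 - ε h)) ≤
        (1 / (H ^ 4 / 81)) * ((|ρ| * (9 * |s H|)) * 1) := by
      apply mul_le_mul a2 a5 _ (by positivity)
      have : 0 ≤ 1 - ε h := by linarith [a4.2]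
      positivity
    have a7 := mul_le_mul_of_nonneg_left a6 (by positivity : 0 ≤ 4 * lam ^ 2 * L)
    have a8 : 4 * lam ^ 2 * L / h ^ 4 * (|ρ| * |s h|) * (1 - ε h) =
        4 * lam ^ 2 * L * ((1 / h ^ 4) * ((|ρ| * |s h|) * (1 - ε h))) := by
      ring
    have a9 : 4 * lam ^ 2 * L * ((1 / (H ^ 4 / 81)) * ((|ρ| * (9 * |s H|)) * 1)) =
        2916 * (N / H ^ 4) := by
      simp only [hN]
      field_simp
      ring
    rw [a8]
    linarith
  have habs : ∀ h, H / 3 ≤ h → h ≤ 3 * H → ‖Φ₂ h‖ ≤ 2916 * (N / H ^ 4) := by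
    intro h h1 h2
    have a1 := hlow h h1 h2
    have a2 := hup h h1 h2
    have a3 : ‖Φ₂ h‖ = |σ * Φ₂ h| := by rw [abs_mul, hσa, one_mul, Real.norm_eq_abs]
    rw [a3, abs_of_nonneg]
    · exact a2
    · exact le_trans (by positivity) a1
  refine ⟨Φ₁, Φ₂, σ, hσ, fun h h1 h2 => ⟨hd1 h h1 h2, hd2 h h1 h2, rfl, ?_, hlow h h1 h2, ?_⟩⟩
  · have b1 : ‖Φ₁ h - Φ₁ H‖ ≤ 2916 * (N / H ^ 4) * ‖h - H‖ := by
      apply Convex.norm_image_sub_le_of_norm_hasDerivWithin_le (f := Φ₁) (f' := Φ₂)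
        (s := Icc (H / 3) (3 * H)) (fun t ht => (hd2 t ht.1 ht.2).hasDerivWithinAt)
        (fun t ht => habs t ht.1 ht.2) (convex_Icc _ _) hHm ⟨h1, h2⟩
    have b2 : ‖h - H‖ ≤ 2 * H := by
      rw [Real.norm_eq_abs, abs_le]
      constructor <;> linarith
    have b3 : 2916 * (N / H ^ 4) * ‖h - H‖ ≤ 2916 * (N / H ^ 4) * (2 * H) :=
      mul_le_mul_of_nonneg_left b2 (by positivity)
    have b4 : 2916 * (N / H ^ 4) * (2 * H) = 5832 * (N / H ^ 3) := by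
      field_simp
      ring
    have b5 : |Φ₁ H - 2 * (L / H ^ 3) * PP ρ (X H) (Y H)| = 4 * (N / H ^ 3) := by
      have : Φ₁ H - 2 * (L / H ^ 3) * PP ρ (X H) (Y H) = (ρ * s H) * (4 * lam ^ 2 * L / H ^ 3) := by
        simp only [hΦ₁]
        ring
      rw [this, abs_mul, abs_mul,
        abs_of_nonneg (by positivity : 0 ≤ 4 * lam ^ 2 * L / H ^ 3)]
      simp only [hN]
      ring
    have b6 : |Φ₁ h - 2 * (L / H ^ 3) * PP ρ (X H) (Y H)| ≤
        ‖Φ₁ h - Φ₁ H‖ + |Φ₁ H - 2 * (L / H ^ 3) * PP ρ (X H) (Y H)| := by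
      have : Φ₁ h - 2 * (L / H ^ 3) * PP ρ (X H) (Y H) =
        (Φ₁ h - Φ₁ H) + (Φ₁ H - 2 * (L / H ^ 3) * PP ρ (X H) (Y H)) := by ring
      rw [this, Real.norm_eq_abs]
      exact abs_add_le _ _
    have b7 : 0 ≤ N / H ^ 3 := by positivity
    calc |Φ₁ h - 2 * (L / H ^ 3) * PP ρ (X H) (Y H)| ≤ 5832 * (N / H ^ 3) + 4 * (N / H ^ 3) := by
          linarith
      _ ≤ 6000 * (N / H ^ 3) := by linarith
  · have b7 : 0 ≤ N / H ^ 4 := by positivity
    calc σ * Φ₂ h ≤ 2916 * (N / H ^ 4) := hup h h1 h2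
      _ ≤ 6000 * (N / H ^ 4) := by linarith

end TH2

theorem t_H2 (hH1 : S_H1) (hG2 : S_G2) : S_H2 := by
  obtain ⟨c0, hc0, hc01, hH⟩ := hH1
  refine ⟨min c0 (1 / 1000), 6000, lt_min hc0 (by norm_num), (min_le_left _ _).trans hc01,
    by norm_num, ?_⟩
  intro ρ lam μ₁ μ₂ H L₁ z₀ hρ hlam0 hlam hHpos hL hz₀ hC
  have hlam1 : lam ≤ c0 := hlam.trans (min_le_left _ _)
  have hlam2 : lam ≤ 1 / 1000 := hlam.trans (min_le_right _ _)
  have key := hH ρ lam μ₁ μ₂ H z₀ hρ hlam0 hlam1 hHpos hz₀ hC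
  have hz : zp ρ lam μ₁ μ₂ H = z₀ := hG2.2 ρ _ _ z₀ hC
  have := TH2.core ρ lam H L₁ (fun t => (zp ρ lam μ₁ μ₂ t).1) (fun t => (zp ρ lam μ₁ μ₂ t).2)
    hρ hlam0 hlam2 hHpos hL (fun h h1 h2 => (key h h1 h2).2.1.1.1)
    (fun h h1 h2 => (key h h1 h2).2.2.1) (fun h h1 h2 => (key h h1 h2).2.2.2)
  simp only [hz] at this
  exact this

end Pool.Agent.H304R4.CM
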