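import Mathlib
import Pool.Agent.H304R4.CM.Stubs
import Pool.Agent.H469R2.NK.KL

/-! # TEAM CM, task H3: radial sums (helper43). -/

open Complex MeasureTheory Filter Topology

namespace Pool.Agent.H304R4.CM

namespace H3

open Pool.Agent.H469R2.NK in
lemma ee_eq (x : ℝ) : ee x = e x := rfl

lemma norm_ee (a : ℝ) : ‖ee a‖ = 1 := by
  unfold ee
  exact Complex.norm_exp_ofReal_mul_I _

lemma ee_int (a : ℝ) (m : ℤ) : ee (a - m) = ee a := by
  unfold ee
  rw [Complex.exp_eq_exp_iff_exists_int]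
  refine ⟨-m, ?_⟩
  push_cast
  ring

lemma conj_ee (x : ℝ) : (starRingEnd ℂ) (ee x) = ee (-x) := Pool.Agent.H469R2.NK.conj_e x

lemma norm_sum_neg (s : Finset ℕ) (x : ℕ → ℝ) : ‖∑ n ∈ s, ee (-(x n))‖ = ‖∑ n ∈ s, ee (x n)‖ := by
  have : ∑ n ∈ s, ee (-(x n)) = (starRingEnd ℂ) (∑ n ∈ s, ee (x n)) := by
    rw [map_sum]
    exact Finset.sum_congr rfl fun n _ => (conj_ee _).symm
  rw [this, Complex.norm_conj]

lemma nd_nonneg (f : ℝ) : 0 ≤ nd f := abs_nonneg _

lemma nd_le_fract (f : ℝ) : nd f ≤ f - ⌊f⌋ := by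
  have h := round_le f ⌊f⌋
  have h2 : |f - (⌊f⌋ : ℝ)| = f - ⌊f⌋ := abs_of_nonneg (by linarith [Int.floor_le f])
  rw [h2] at h
  exact h

lemma nd_le_one_sub (f : ℝ) : nd f ≤ 1 - (f - ⌊f⌋) := by
  have h := round_le f (⌊f⌋ + 1)
  have h2 : |f - ((⌊f⌋ + 1 : ℤ) : ℝ)| = 1 - (f - ⌊f⌋) := by
    rw [abs_of_nonpos (by push_cast; linarith [Int.lt_floor_add_one f])]
    push_cast
    ring
  rw [h2] at h
  exact h

/-- the Kusmin-Landau case -/
lemma kl {H f δ : ℝ} {Φ Φ₁ Φ₂ : ℝ → ℝ} {σ : ℝ} (hH : 1 ≤ H) (hσ : σ = 1 ∨ σ = -1)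
    (h : ∀ h : ℝ, H / 3 ≤ h → h ≤ 3 * H → HasDerivAt Φ (Φ₁ h) h ∧ HasDerivAt Φ₁ (Φ₂ h) h ∧
      |Φ₁ h - f| ≤ δ ∧ 0 ≤ σ * Φ₂ h) (hδ : δ ≤ nd f / 2) (hpos : 0 < nd f)
    (a b : ℕ) (ha : H / 2 ≤ a) (hb : (b : ℝ) ≤ 2 * H) :
    ‖∑ h ∈ Finset.Icc a b, ee (Φ h)‖ ≤ 4 / nd f := by
  rcases lt_or_ge b a with hab | hab
  · rw [Finset.Icc_eq_empty (by omega)]
    simp only [Finset.sum_empty, norm_zero]
    positivity
  have hHp : 0 < H := by linarith
  set N := b - a + 1 with hN
  set x : ℕ → ℝ := fun n => Φ ((a : ℝ) + n) - ((⌊f⌋ * n : ℤ) : ℝ) with hx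
  have hsum : ∑ h ∈ Finset.Icc a b, ee (Φ h) =
      ∑ n ∈ Finset.range N, Pool.Agent.H469R2.NK.e (x n) := by
    rw [← Finset.Ico_add_one_right_eq_Icc, Finset.sum_Ico_eq_sum_range]
    have : b + 1 - a = N := by omega
    rw [this]
    refine Finset.sum_congr rfl fun n _ => ?_
    rw [hx, ← ee_eq]
    simp only
    rw [ee_int]
    push_cast
    rfl
  -- the intermediate points
  have hbound : ∀ n ≤ N, (a : ℝ) + n ≤ 3 * H := by
    intro n hn
    have h1 : (a : ℝ) + n ≤ b + 1 := by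
      have : a + n ≤ b + 1 := by omega
      exact_mod_cast this
    linarith
  have hlow : ∀ n : ℕ, H / 3 ≤ (a : ℝ) + n := by
    intro n
    have : (0 : ℝ) ≤ n := Nat.cast_nonneg n
    linarith
  have mvt : ∀ n : ℕ, n < N → ∃ c ∈ Set.Ioo ((a : ℝ) + n) ((a : ℝ) + (n + 1 : ℕ)),
      Φ ((a : ℝ) + (n + 1 : ℕ)) - Φ ((a : ℝ) + n) = Φ₁ c := by
    intro n hn
    have h1 : (a : ℝ) + n < (a : ℝ) + (n + 1 : ℕ) := by push_cast; linarith
    have h2 := hbound (n + 1) hn
    have h3 := hlow n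
    obtain ⟨c, hc, hc'⟩ := exists_hasDerivAt_eq_slope Φ Φ₁ h1
      (fun y hy => (h y (by linarith [hy.1]) (by linarith [hy.2])).1.continuousAt.continuousWithinAt)
      (fun y hy => (h y (by linarith [hy.1]) (by linarith [hy.2])).1)
    refine ⟨c, hc, ?_⟩
    rw [hc']
    push_cast
    ring
  have hdif : ∀ n : ℕ, x (n + 1) - x n = Φ ((a : ℝ) + (n + 1 : ℕ)) - Φ ((a : ℝ) + n) - ⌊f⌋ := by
    intro n
    rw [hx]
    push_cast
    ring
  have hth : 0 < nd f / 2 := by linarith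
  have h0 : ∀ n < N, nd f / 2 ≤ x (n + 1) - x n := by
    intro n hn
    obtain ⟨c, hc, hc'⟩ := mvt n hn
    have h3 := hlow n
    have h2 := hbound (n + 1) hn
    have h4 := (h c (by linarith [hc.1]) (by linarith [hc.2])).2.2.1
    rw [hdif, hc']
    have h5 := nd_le_fract f
    have h6 := (abs_le.1 h4).1
    linarith
  have h1 : ∀ n < N, x (n + 1) - x n ≤ 1 - nd f / 2 := by
    intro n hn
    obtain ⟨c, hc, hc'⟩ := mvt n hn
    have h3 := hlow n
    have h2 := hbound (n + 1) hn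
    have h4 := (h c (by linarith [hc.1]) (by linarith [hc.2])).2.2.1
    rw [hdif, hc']
    have h5 := nd_le_one_sub f
    have h6 := (abs_le.1 h4).2
    linarith
  have hres : ‖∑ n ∈ Finset.range N, Pool.Agent.H469R2.NK.e (x n)‖ ≤ 2 / (nd f / 2) := by
    rcases hσ with hs | hs
    · have hmono : MonotoneOn Φ₁ (Set.Icc (H / 3) (3 * H)) := by
        refine monotoneOn_of_deriv_nonneg (convex_Icc _ _)
          (fun y hy => (h y hy.1 hy.2).2.1.continuousAt.continuousWithinAt)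
          (fun y hy => ?_) (fun y hy => ?_)
        · rw [interior_Icc] at hy
          exact (h y hy.1.le hy.2.le).2.1.differentiableAt.differentiableWithinAt
        · rw [interior_Icc] at hy
          have := (h y hy.1.le hy.2.le)
          rw [this.2.1.deriv]
          have h7 := this.2.2.2
          rw [hs, one_mul] at h7
          exact h7
      refine Pool.Agent.H469R2.NK.kusmin_landau_mono x N hth h0 h1 ?_
      intro n hn
      obtain ⟨c, hc, hc'⟩ := mvt n (by omega)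
      obtain ⟨d, hd, hd'⟩ := mvt (n + 1) hn
      have e1 : x (n + 2) - x (n + 1) = Φ₁ d - ⌊f⌋ := by rw [← hd']; exact hdif (n + 1)
      rw [hdif n, hc', e1]
      have h3 := hlow n
      have h2 := hbound (n + 1 + 1) hn
      have hcd : c ≤ d := le_of_lt (lt_trans hc.2 hd.1)
      have := hmono ⟨by linarith [hc.1], by linarith [hd.2]⟩ ⟨by linarith [hc.1], by linarith [hd.2]⟩ hcd
      linarith
    · have hanti : AntitoneOn Φ₁ (Set.Icc (H / 3) (3 * H)) := by
        refine antitoneOn_of_deriv_nonpos (convex_Icc _ _)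
          (fun y hy => (h y hy.1 hy.2).2.1.continuousAt.continuousWithinAt)
          (fun y hy => ?_) (fun y hy => ?_)
        · rw [interior_Icc] at hy
          exact (h y hy.1.le hy.2.le).2.1.differentiableAt.differentiableWithinAt
        · rw [interior_Icc] at hy
          have := (h y hy.1.le hy.2.le)
          rw [this.2.1.deriv]
          have h7 := this.2.2.2
          rw [hs] at h7
          linarith
      refine Pool.Agent.H469R2.NK.kusmin_landau_anti x N hth h0 h1 ?_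
      intro n hn
      obtain ⟨c, hc, hc'⟩ := mvt n (by omega)
      obtain ⟨d, hd, hd'⟩ := mvt (n + 1) hn
      have e1 : x (n + 2) - x (n + 1) = Φ₁ d - ⌊f⌋ := by rw [← hd']; exact hdif (n + 1)
      rw [hdif n, hc', e1]
      have h3 := hlow n
      have h2 := hbound (n + 1 + 1) hn
      have hcd : c ≤ d := le_of_lt (lt_trans hc.2 hd.1)
      have := hanti ⟨by linarith [hc.1], by linarith [hd.2]⟩ ⟨by linarith [hc.1], by linarith [hd.2]⟩ hcd
      linarith
  rw [hsum]
  refine hres.trans (le_of_eq ?_)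
  field_simp
  norm_num

/-- trivial bound -/
lemma triv {H : ℝ} (hH : 1 ≤ H) (Φ : ℝ → ℝ) (a b : ℕ) (ha : H / 2 ≤ a) (hb : (b : ℝ) ≤ 2 * H) :
    ‖∑ h ∈ Finset.Icc a b, ee (Φ h)‖ ≤ 3 * H := by
  refine (norm_sum_le _ _).trans ?_
  simp only [norm_ee, Finset.sum_const, Nat.card_Icc, nsmul_eq_mul, mul_one]
  rcases lt_or_ge b a with hab | hab
  · have : b + 1 - a = 0 := by omega
    rw [this]; simp; linarith
  · have : ((b + 1 - a : ℕ) : ℝ) = b + 1 - a := by
      rw [Nat.cast_sub (by omega)]; push_cast; ring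
    rw [this]; linarith

end H3

open H3 in
theorem t_H3 (hV : S_VDC) : S_H3 := by
  intro K₁ hK₁
  obtain ⟨K', hK', hvdc⟩ := hV
  set K : ℝ := 100 * K₁ + K' ^ 2 * K₁ ^ 5 + 2 * K' * K₁ ^ 2 with hKdef
  have hK₁p : 0 < K₁ := by linarith
  have hK'p : 0 < K' := by linarith
  have hKa : 100 * K₁ ≤ K := by
    have : 0 ≤ K' ^ 2 * K₁ ^ 5 + 2 * K' * K₁ ^ 2 := by positivity
    linarith
  have hKb : K' ^ 2 * K₁ ^ 5 ≤ K := by
    have : 0 ≤ 100 * K₁ + 2 * K' * K₁ ^ 2 := by positivity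
    linarith
  have hKc : 2 * K' * K₁ ^ 2 ≤ K := by
    have : 0 ≤ 100 * K₁ + K' ^ 2 * K₁ ^ 5 := by positivity
    linarith
  have hK100 : 100 ≤ K := by linarith
  refine ⟨K, by linarith, ?_⟩
  intro H D f σ Φ Φ₁ Φ₂ hH hD hσ h a b ha hb
  have hHp : 0 < H := by linarith
  have hKp : 0 < K := by linarith
  have ht := triv hH Φ a b ha hb
  unfold Th
  split_ifs with hc1 hc2
  · calc _ ≤ 3 * H := ht
      _ ≤ K * H := by nlinarith
  · -- van der Corput
    push Not at hc2
    have hDp : 0 < D := by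
      by_contra hcon
      have : D = 0 := le_antisymm (not_lt.1 hcon) hD
      rw [this, mul_zero] at hc2
      linarith
    rcases lt_or_ge b a with hab | hab
    · rw [Finset.Icc_eq_empty (by omega)]
      simp only [Finset.sum_empty, norm_zero]
      positivity
    set l : ℝ := D / H ^ 3 / K₁ with hl
    have hlp : 0 < l := by positivity
    have hη : (1 : ℝ) ≤ K₁ ^ 2 := by nlinarith
    have hel : K₁ ^ 2 * l = K₁ * (D / H ^ 3) := by
      rw [hl]; field_simp
    have hmain : ‖∑ h ∈ Finset.Icc a b, ee (Φ h)‖ ≤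
        K' * K₁ ^ 2 * (((b : ℝ) - a) * √l + 1 / √l + 1) := by
      rcases hσ with hs | hs
      · refine hvdc a b Φ Φ₁ Φ₂ l (K₁ ^ 2) hab hlp hη ?_
        intro x hx1 hx2
        have := h x (by linarith) (by linarith)
        rw [hs] at this
        refine ⟨this.1, this.2.1, ?_, ?_⟩
        · have h7 := this.2.2.2.1; rw [one_mul] at h7; exact h7
        · rw [hel]; have h7 := this.2.2.2.2; rw [one_mul] at h7; exact h7
      · rw [← norm_sum_neg (Finset.Icc a b) (fun n => Φ n)]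
        refine hvdc a b (fun x => -Φ x) (fun x => -Φ₁ x) (fun x => -Φ₂ x) l (K₁ ^ 2) hab hlp hη ?_
        intro x hx1 hx2
        have := h x (by linarith) (by linarith)
        rw [hs] at this
        refine ⟨this.1.neg, this.2.1.neg, ?_, ?_⟩
        · have h7 := this.2.2.2.1; simp only [neg_mul, one_mul] at h7; exact h7
        · rw [hel]; have h7 := this.2.2.2.2; simp only [neg_mul, one_mul] at h7; exact h7
    refine hmain.trans ?_
    -- estimates
    set p : ℝ := √(D / H) with hp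
    set q : ℝ := √(H ^ 3 / D) with hq
    have hp0 : 0 ≤ p := Real.sqrt_nonneg _
    have hq0 : 0 ≤ q := Real.sqrt_nonneg _
    have hsK : 0 < √K := Real.sqrt_pos.2 hKp
    have hsK1 : 0 < √K₁ := Real.sqrt_pos.2 hK₁p
    have e1 : √(H ^ 3 / (K * D)) = q / √K := by
      rw [hq, ← Real.sqrt_div (by positivity)]
      congr 1
      field_simp
    have e2 : √(K * D / H) = √K * p := by
      rw [hp, ← Real.sqrt_mul hKp.le]
      congr 1
      field_simp
    have e3 : 1 / √l = √K₁ * q := by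
      rw [hq, ← Real.sqrt_mul hK₁p.le, hl, one_div, ← Real.sqrt_inv]
      congr 1
      field_simp
    have e4 : ((b : ℝ) - a) * √l ≤ 2 * p := by
      have h8 : √l ≤ p / H := by
        rw [hp, ← Real.sqrt_sq hHp.le, ← Real.sqrt_div (by positivity), Real.sqrt_sq hHp.le]
        apply Real.sqrt_le_sqrt
        rw [hl]
        rw [div_div, div_div, div_le_div_iff₀ (by positivity) (by positivity)]
        have : H * H ^ 2 ≤ H ^ 3 * K₁ := by
          have h9 : 0 < H ^ 3 := by positivity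
          nlinarith
        nlinarith
      have h10 : (b : ℝ) - a ≤ 2 * H := by
        have : (0 : ℝ) ≤ a := Nat.cast_nonneg a
        linarith
      have h11 : 0 ≤ √l := Real.sqrt_nonneg _
      calc ((b : ℝ) - a) * √l ≤ 2 * H * √l := by gcongr
        _ ≤ 2 * H * (p / H) := by gcongr
        _ = 2 * p := by field_simp
    have e5 : 1 ≤ √K * p := by
      rw [← e2]
      rw [Real.one_le_sqrt, one_le_div hHp]
      exact hc2.le
    have hKs : √K * √K = K := Real.mul_self_sqrt hKp.le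
    have hK1s : √K₁ * √K₁ = K₁ := Real.mul_self_sqrt hK₁p.le
    have e6 : K' * K₁ ^ 2 * √K₁ ≤ √K := by
      apply Real.le_sqrt_of_sq_le
      calc (K' * K₁ ^ 2 * √K₁) ^ 2 = K' ^ 2 * K₁ ^ 4 * (√K₁ * √K₁) := by ring
        _ = K' ^ 2 * K₁ ^ 5 := by rw [hK1s]; ring
        _ ≤ K := hKb
    have e7 : (2 : ℝ) ≤ √K := by
      apply Real.le_sqrt_of_sq_le
      linarith
    rw [e1, e2, e3]
    have hf : K * (q / √K + √K * p) = √K * q + K * (√K * p) := by
      rw [mul_add]
      congr 1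
      calc K * (q / √K) = (√K * √K) * (q / √K) := by rw [hKs]
        _ = √K * q := by field_simp
    rw [hf]
    have hc : 0 ≤ K' * K₁ ^ 2 := by positivity
    calc K' * K₁ ^ 2 * (((b : ℝ) - a) * √l + √K₁ * q + 1)
        ≤ K' * K₁ ^ 2 * (2 * p + √K₁ * q + √K * p) := by gcongr
      _ = (K' * K₁ ^ 2 * √K₁) * q + K' * K₁ ^ 2 * (2 * p + √K * p) := by ring
      _ ≤ √K * q + K' * K₁ ^ 2 * (√K * p + √K * p) := by gcongr
      _ = √K * q + (2 * K' * K₁ ^ 2) * (√K * p) := by ring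
      _ ≤ √K * q + K * (√K * p) := by gcongr
  · -- Kusmin-Landau
    push Not at hc1
    have hKD : 0 ≤ K * D / H ^ 2 := by positivity
    have hnd : 0 < nd f := lt_of_le_of_lt hKD hc1
    have hδ : K₁ * (D / H ^ 2) ≤ nd f / 2 := by
      have h1 : K * (D / H ^ 2) < nd f := by rw [← mul_div_assoc]; exact hc1
      have h2 : 0 ≤ D / H ^ 2 := by positivity
      nlinarith
    have hk := kl hH hσ (fun y hy1 hy2 => by
      have := h y hy1 hy2
      refine ⟨this.1, this.2.1, this.2.2.1, le_trans ?_ this.2.2.2.1⟩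
      positivity) hδ hnd a b ha hb
    rw [mul_min_of_nonneg _ _ hKp.le]
    refine le_min ?_ ?_
    · nlinarith
    · refine hk.trans ?_
      rw [← mul_one_div (4 : ℝ)]
      have : 0 ≤ 1 / nd f := by positivity
      nlinarith

end Pool.Agent.H304R4.CM
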