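import Pool.Agent.H304R4.CM.Stubs

/-! # TEAM CM, task H4: the sum over `h` at a critical frequency. -/

open Complex MeasureTheory Filter Topology

namespace Pool.Agent.H304R4.CM

namespace H4

theorem ee_neg (x : ℝ) : ee (-x) = (starRingEnd ℂ) (ee x) := by
  unfold ee
  rw [← Complex.exp_conj, map_mul, Complex.conj_ofReal, Complex.conj_I]
  congr 1
  push_cast
  ring

theorem ee_mul_neg (x : ℝ) : ee x * ee (-x) = 1 := by
  unfold ee
  rw [← Complex.exp_add]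
  rw [show ((2 * Real.pi * x : ℝ) : ℂ) * I + ((2 * Real.pi * (-x) : ℝ) : ℂ) * I = 0 by
    push_cast; ring]
  exact Complex.exp_zero

theorem Wt.nonneg {A : ℝ} {w : ℝ → ℂ} (h : Wt A w) : 0 ≤ A :=
  le_trans (norm_nonneg _) (h.bound 0 (by norm_num) 0)

/-- summation by parts, identity -/
theorem abel_id (g e : ℕ → ℂ) (a b : ℕ) (hab : a ≤ b) :
    ∑ h ∈ Finset.Icc a b, g h * e h = g b * (∑ h ∈ Finset.Icc a b, e h) -
      ∑ n ∈ Finset.Ico a b, (g (n + 1) - g n) * (∑ h ∈ Finset.Icc a n, e h) := by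
  induction b, hab using Nat.le_induction with
  | base => simp
  | succ b hb ih =>
    rw [← Finset.insert_Icc_right_eq_Icc_add_one (by omega : a ≤ b + 1),
      Finset.sum_insert (by simp), ih, Finset.sum_insert (by simp),
      Finset.sum_Ico_succ_top hb]
    ring

theorem abel_bound (g e : ℕ → ℂ) (a b : ℕ) (hab : a ≤ b) (M G V : ℝ)
    (he : ∀ n, a ≤ n → n ≤ b → ‖∑ h ∈ Finset.Icc a n, e h‖ ≤ M)
    (hg : ‖g b‖ ≤ G) (hv : ∀ n, a ≤ n → n < b → ‖g (n + 1) - g n‖ ≤ V) :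
    ‖∑ h ∈ Finset.Icc a b, g h * e h‖ ≤ (G + (b - a) * V) * M := by
  rw [abel_id g e a b hab]
  have h1 : ‖g b * (∑ h ∈ Finset.Icc a b, e h)‖ ≤ G * M := by
    rw [norm_mul]
    exact mul_le_mul hg (he b hab le_rfl) (norm_nonneg _) (le_trans (norm_nonneg _) hg)
  have h2 : ‖∑ n ∈ Finset.Ico a b, (g (n + 1) - g n) * (∑ h ∈ Finset.Icc a n, e h)‖ ≤
      (b - a) * V * M := by
    refine le_trans (norm_sum_le _ _) ?_
    refine le_trans (Finset.sum_le_card_nsmul _ _ (V * M) ?_) ?_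
    · intro n hn
      rw [Finset.mem_Ico] at hn
      rw [norm_mul]
      exact mul_le_mul (hv n hn.1 hn.2) (he n hn.1 hn.2.le) (norm_nonneg _)
        (le_trans (norm_nonneg _) (hv n hn.1 hn.2))
    · rw [Nat.card_Ico, nsmul_eq_mul, Nat.cast_sub hab, mul_assoc]
  refine le_trans (norm_sub_le _ _) ?_
  nlinarith

/-- `Th` grows slowly -/
theorem Th_le (H D f s : ℝ) (hH : 0 < H) (hD : 0 ≤ D) (hs : 1 ≤ s) :
    Th H D f ≤ s * Th H (s ^ 2 * D) f := by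
  have hs0 : 0 < s := by linarith
  have hs2 : 1 ≤ s ^ 2 := by nlinarith
  have hDs : D ≤ s ^ 2 * D := by nlinarith
  have hsq1 : √(H ^ 3 / D) = s * √(H ^ 3 / (s ^ 2 * D)) := by
    have : H ^ 3 / (s ^ 2 * D) = (H ^ 3 / D) / s ^ 2 := by
      rw [div_div, mul_comm]
    rw [this, Real.sqrt_div' (H ^ 3 / D) (by positivity : (0 : ℝ) ≤ s ^ 2), Real.sqrt_sq hs0.le]
    field_simp
  have hsq2 : √(D / H) ≤ √(s ^ 2 * D / H) := by
    apply Real.sqrt_le_sqrt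
    gcongr
  unfold Th
  by_cases h1 : nd f ≤ D / H ^ 2
  · have h2 : nd f ≤ s ^ 2 * D / H ^ 2 := le_trans h1 (by gcongr)
    rw [if_pos h1, if_pos h2]
    by_cases h3 : D ≤ H
    · rw [if_pos h3]
      by_cases h4 : s ^ 2 * D ≤ H
      · rw [if_pos h4]; nlinarith
      · rw [if_neg h4]
        push Not at h4
        have hDpos : 0 < D := by
          rcases hD.lt_or_eq with h | h
          · exact h
          · rw [← h] at h4; simp at h4; linarith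
        have h5 : H ≤ √(H ^ 3 / D) := by
          apply Real.le_sqrt_of_sq_le
          rw [le_div_iff₀ hDpos]
          nlinarith [pow_pos hH 2]
        have h6 := Real.sqrt_nonneg (s ^ 2 * D / H)
        rw [hsq1] at h5
        nlinarith
    · have h4 : ¬ s ^ 2 * D ≤ H := by push Not at h3 ⊢; linarith
      rw [if_neg h3, if_neg h4, hsq1]
      have h6 := Real.sqrt_nonneg (s ^ 2 * D / H)
      nlinarith
  · rw [if_neg h1]
    by_cases h2 : nd f ≤ s ^ 2 * D / H ^ 2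
    · rw [if_pos h2]
      by_cases h4 : s ^ 2 * D ≤ H
      · rw [if_pos h4]
        refine le_trans (min_le_left _ _) ?_
        nlinarith
      · rw [if_neg h4]
        push Not at h1 h4
        have hDpos : 0 < D := by
          rcases hD.lt_or_eq with h | h
          · exact h
          · rw [← h] at h4; simp at h4; linarith
        have hnd : 0 < nd f := lt_of_le_of_lt (by positivity) h1
        have h5 : min H (1 / nd f) ≤ √(H ^ 3 / D) := by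
          apply Real.le_sqrt_of_sq_le
          have h7 : 1 / nd f ≤ H ^ 2 / D := by
            rw [div_le_div_iff₀ hnd hDpos]
            rw [div_lt_iff₀ (by positivity)] at h1
            linarith
          have h8 : 0 ≤ min H (1 / nd f) := le_min hH.le (by positivity)
          calc (min H (1 / nd f)) ^ 2 = min H (1 / nd f) * min H (1 / nd f) := by ring
            _ ≤ H * (H ^ 2 / D) :=
                mul_le_mul (min_le_left _ _) (le_trans (min_le_right _ _) h7) h8 hH.le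
            _ = H ^ 3 / D := by ring
        have h6 := Real.sqrt_nonneg (s ^ 2 * D / H)
        rw [hsq1] at h5
        nlinarith
    · rw [if_neg h2]
      have h8 : 0 ≤ min H (1 / nd f) := le_min hH.le (by unfold nd; positivity)
      nlinarith

end H4

open H4 in
theorem t_H4 (hP2 : S_P2) (hI0 : S_I0) (hH2 : S_H2) (hH3 : S_H3) (hI5 : S_I5) (hG2 : S_G2) :
    S_H4 := by
  obtain ⟨K₀, hK₀, hI0⟩ := hI0
  obtain ⟨c₂, K₂, hc₂, hc₂', hK₂, hH2⟩ := hH2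
  obtain ⟨K₃, hK₃, hH3⟩ := hH3 K₂ hK₂
  obtain ⟨c₅, K₅, hc₅, hc₅', hK₅, hI5⟩ := hI5
  set s : ℝ := 5 * K₀ * K₅ with hs
  have hs1 : 1 ≤ s := by rw [hs]; nlinarith
  refine ⟨min c₂ c₅, s ^ 2 * K₃, lt_min hc₂ hc₅, le_trans (min_le_left _ _) hc₂',
    by nlinarith [sq_nonneg s], ?_⟩
  intro A₁ A₂ A₃ ω₁ ω₂ ω₃ hω₁ hω₂ hω₃ B C H j k hB hC hH hk hj hjk hkC ν hν
  have hA₁ := Wt.nonneg hω₁
  have hA₂ := Wt.nonneg hω₂
  have hA₃ := Wt.nonneg hω₃
  have hB0 : 0 < B := by linarith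
  have hC0 : 0 < C := by linarith
  have hH0 : 0 < H := by linarith
  have hk0 : (0 : ℝ) < (k : ℝ) := by exact_mod_cast hk
  have hj0 : (j : ℝ) ≠ 0 := by exact_mod_cast hj
  set ρ : ℝ := j * C / (k * B) with hρ
  set lam : ℝ := k / C with hlam
  set L₁ : ℝ := k * B ^ 2 * C with hL₁
  set μ₁ : ℝ := ν.1 / (k * B * C) with hμ₁
  set μ₂ : ℝ := ν.2 / (k * B ^ 2) with hμ₂
  have hL₁0 : 0 < L₁ := by rw [hL₁]; positivity
  have hlam0 : 0 ≤ lam := by rw [hlam]; positivity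
  have hρ1 : |ρ| ≤ 1 := by
    rw [hρ, abs_div, abs_mul, abs_of_pos hC0, abs_of_pos (by positivity : (0 : ℝ) < k * B),
      div_le_one (by positivity)]
    rw [div_le_div_iff₀ hB0 hC0] at hjk
    linarith
  have hm1 : ∀ h : ℝ, n1h B C j k ν.1 h = m1 ρ lam μ₁ h := by
    intro h
    unfold n1h m1
    rw [hρ, hlam, hμ₁]
    field_simp
  have hm2 : ∀ h : ℝ, n2h B j k ν.2 h = m2 ρ lam μ₂ h := by
    intro h
    unfold n2h m2
    rw [hρ, hlam, hμ₂]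
    field_simp
  -- the critical point
  obtain ⟨z, hz, hzC⟩ : ∃ z ∈ bx 16, IsC ρ (m1 ρ lam μ₁ H) (m2 ρ lam μ₂ H) z := by
    classical
    unfold Zs at hν
    obtain ⟨z, hz, hzC⟩ := (Finset.mem_filter.1 hν).2
    rw [hm1, hm2] at hzC
    exact ⟨z, hz, hzC⟩
  have hzH : zH B C H j k ν = z := by
    unfold zH
    rw [hm1, hm2]
    exact hG2.2 _ _ _ _ hzC
  have hlam2 : lam ≤ c₂ := le_trans hkC (min_le_left _ _)
  have hlam5 : lam ≤ c₅ := le_trans hkC (min_le_right _ _)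
  obtain ⟨Φ₁, Φ₂, σ, hσ, hΦ⟩ := hH2 ρ lam μ₁ μ₂ H L₁ z hρ1 hlam0 hlam2 hH0 hL₁0 hz hzC
  set D : ℝ := |ρ| * lam ^ 2 * L₁ * |z.1 + ρ * z.2| / H with hD
  have hD0 : 0 ≤ D := by rw [hD]; positivity
  set f : ℝ := 2 * (L₁ / H ^ 3) * PP ρ z.1 z.2 with hf
  have hsum := hH3 H D f σ (Ph ρ lam μ₁ μ₂ L₁) Φ₁ Φ₂ hH hD0 hσ (by
    intro h h1 h2
    obtain ⟨e1, e2, -, e3, e4, e5⟩ := hΦ h h1 h2
    refine ⟨e1, e2, ?_, ?_, ?_⟩
    · refine le_trans e3 (le_of_eq ?_)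
      rw [hD]; field_simp
    · refine le_trans (le_of_eq ?_) e4
      rw [hD]; field_simp
    · refine le_trans e5 (le_of_eq ?_)
      rw [hD]; field_simp)
  -- identities
  have hsH : sH B C H j k ν = k * B / H * (z.1 + ρ * z.2) := by
    unfold sH
    rw [hzH, hρ]
    field_simp
  have hDH : DH B C H j k ν = D := by
    unfold DH
    rw [hsH, hD, hlam, hL₁, abs_mul, abs_mul, abs_mul, abs_of_pos hk0,
      abs_of_pos (by positivity : (0 : ℝ) < k * B / H)]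
    have : |ρ| = |(j : ℝ)| * C / (k * B) := by
      rw [hρ, abs_div, abs_mul, abs_of_pos hC0, abs_of_pos (by positivity : (0 : ℝ) < k * B)]
    rw [this]
    field_simp
  have hfH : fH B C H j k ν = f := by
    unfold fH
    rw [hsH, hzH, hf, hL₁]
    unfold PP
    field_simp
    try ring
  have hLL : LL B C H k = L₁ / H ^ 2 := by
    unfold LL
    rw [hL₁]
  set a : ℝ × ℝ → ℂ := fun z => ω₁ z.1 * ω₂ z.2 with ha
  have hamp : Amp 3 (K₀ * A₁ * A₂) a := hI0 A₁ A₂ ω₁ ω₂ hω₁ hω₂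
  obtain ⟨K', hK'⟩ := hI5 (K₀ * A₁ * A₂) a hamp ρ lam μ₁ μ₂ H L₁ z hρ1 hlam0 hlam5 hH0 hL₁0 hz hzC
  -- the terms
  set g : ℝ → ℂ := fun h => ω₃ (h / H) * Kp a ρ lam μ₁ μ₂ L₁ h with hg
  have hterm : ∀ h : ℕ, 1 ≤ h → ω₃ ((h : ℝ) / H) * Jh ω₁ ω₂ B C j k h ν.1 ν.2 =
      g h * ee (-(Ph ρ lam μ₁ μ₂ L₁ h)) := by
    intro h hh
    have hh0 : (h : ℝ) ≠ 0 := by
      have : (1 : ℝ) ≤ (h : ℝ) := by exact_mod_cast hh
      linarith
    rw [hP2 ω₁ ω₂ B C j k h ν.1 ν.2 hB0.ne' hC0.ne' hk0.ne' hh0, hm1, hm2, hg]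
    simp only [Kp]
    rw [mul_assoc (ω₃ _), mul_assoc (II _ _ _ _ _), ee_mul_neg, mul_one]
  set a₀ : ℕ := ⌈H / 2⌉₊ with ha₀
  set b₀ : ℕ := ⌊2 * H⌋₊ with hb₀
  have ha₀' : H / 2 ≤ (a₀ : ℝ) := Nat.le_ceil _
  have hb₀' : (b₀ : ℝ) ≤ 2 * H := Nat.floor_le (by linarith)
  have hab : a₀ ≤ b₀ := by
    rw [hb₀, Nat.le_floor_iff (by linarith)]
    have := Nat.ceil_lt_add_one (by linarith : 0 ≤ H / 2)
    rw [← ha₀] at this
    linarith
  have ha₀1 : 1 ≤ a₀ := by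
    rw [ha₀]
    exact Nat.one_le_ceil_iff.2 (by linarith)
  have hsplit : ∑ h ∈ Finset.Icc 1 b₀, ω₃ ((h : ℝ) / H) * Jh ω₁ ω₂ B C j k h ν.1 ν.2 =
      ∑ h ∈ Finset.Icc a₀ b₀, g h * ee (-(Ph ρ lam μ₁ μ₂ L₁ h)) := by
    have h1 : ∑ h ∈ Finset.Icc a₀ b₀, g h * ee (-(Ph ρ lam μ₁ μ₂ L₁ h)) =
        ∑ h ∈ Finset.Icc a₀ b₀, ω₃ ((h : ℝ) / H) * Jh ω₁ ω₂ B C j k h ν.1 ν.2 := by
      refine Finset.sum_congr rfl fun h hh => ?_
      rw [Finset.mem_Icc] at hh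
      rw [hterm h (by omega)]
    rw [h1]
    symm
    refine Finset.sum_subset (Finset.Icc_subset_Icc_left ha₀1) ?_
    intro h hh hh'
    rw [Finset.mem_Icc] at hh hh'
    have h2 : h < a₀ := by
      by_contra hcon
      exact hh' ⟨by omega, hh.2⟩
    have h3 : (h : ℝ) < H / 2 := by
      rw [ha₀, Nat.lt_ceil] at h2
      exact h2
    have h4 : ω₃ ((h : ℝ) / H) = 0 := by
      by_contra hcon
      have := (hω₃.supp _ hcon).1
      rw [div_le_div_iff₀ (by norm_num) hH0] at this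
      linarith
    rw [h4, zero_mul]
  -- bounds
  set Q : ℝ := K₅ * (K₀ * A₁ * A₂) / (L₁ / H ^ 2) with hQ
  have hQ0 : 0 ≤ Q := by rw [hQ]; positivity
  have hω₃b : ∀ x : ℝ, ‖ω₃ x‖ ≤ A₃ := fun x => by
    have := hω₃.bound 0 (by norm_num) x
    rwa [iteratedDeriv_zero] at this
  have hω₃d : ∀ x : ℝ, ‖deriv ω₃ x‖ ≤ A₃ := fun x => by
    have := hω₃.bound 1 (by norm_num) x
    rwa [iteratedDeriv_one] at this
  have hgder : ∀ h : ℝ, H / 3 ≤ h → h ≤ 3 * H →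
      HasDerivAt g ((deriv ω₃ (h / H) * ((1 / H : ℝ) : ℂ)) * Kp a ρ lam μ₁ μ₂ L₁ h +
        ω₃ (h / H) * K' h) h := by
    intro h h1 h2
    have e1 : HasDerivAt ω₃ (deriv ω₃ (h / H)) (h / H) :=
      (hω₃.smooth.differentiable (by simp)).differentiableAt.hasDerivAt
    have e2 : HasDerivAt (fun h : ℝ => h / H) (1 / H) h := (hasDerivAt_id h).div_const H
    have e3 := HasDerivAt.scomp h e1 e2
    have e4 : HasDerivAt (fun h : ℝ => ω₃ (h / H)) (deriv ω₃ (h / H) * ((1 / H : ℝ) : ℂ)) h := by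
      refine e3.congr_deriv ?_
      rw [Complex.real_smul, mul_comm]
    exact e4.mul (hK' h h1 h2).1
  have hgb : ∀ h : ℝ, H / 3 ≤ h → h ≤ 3 * H → ‖g h‖ ≤ A₃ * Q := by
    intro h h1 h2
    rw [hg]
    simp only [norm_mul]
    exact mul_le_mul (hω₃b _) (hK' h h1 h2).2.1 (norm_nonneg _) hA₃
  have hgd : ∀ h : ℝ, H / 3 ≤ h → h ≤ 3 * H →
      ‖(deriv ω₃ (h / H) * ((1 / H : ℝ) : ℂ)) * Kp a ρ lam μ₁ μ₂ L₁ h + ω₃ (h / H) * K' h‖ ≤
        2 * A₃ * Q / H := by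
    intro h h1 h2
    refine le_trans (norm_add_le _ _) ?_
    rw [norm_mul, norm_mul, norm_mul, Complex.norm_real, Real.norm_of_nonneg (by positivity)]
    have e1 : ‖deriv ω₃ (h / H)‖ * (1 / H) * ‖Kp a ρ lam μ₁ μ₂ L₁ h‖ ≤ A₃ * (1 / H) * Q :=
      mul_le_mul (mul_le_mul_of_nonneg_right (hω₃d _) (by positivity)) (hK' h h1 h2).2.1
        (norm_nonneg _) (by positivity)
    have e2 : ‖ω₃ (h / H)‖ * ‖K' h‖ ≤ A₃ * (Q / H) :=
      mul_le_mul (hω₃b _) (hK' h h1 h2).2.2 (norm_nonneg _) hA₃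
    calc _ ≤ A₃ * (1 / H) * Q + A₃ * (Q / H) := add_le_add e1 e2
      _ = 2 * A₃ * Q / H := by field_simp; ring
  have hstep : ∀ n : ℕ, a₀ ≤ n → n < b₀ →
      ‖g ((n + 1 : ℕ) : ℝ) - g (n : ℝ)‖ ≤ 2 * A₃ * Q / H := by
    intro n hn1 hn2
    have hn1' : H / 2 ≤ (n : ℝ) := le_trans ha₀' (by exact_mod_cast hn1)
    have hn2' : ((n + 1 : ℕ) : ℝ) ≤ 2 * H := le_trans (by exact_mod_cast hn2) hb₀'
    have hmem : ∀ x ∈ Set.Icc (n : ℝ) ((n + 1 : ℕ) : ℝ), H / 3 ≤ x ∧ x ≤ 3 * H := by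
      intro x hx
      exact ⟨by linarith [hx.1], by linarith [hx.2]⟩
    have := Convex.norm_image_sub_le_of_norm_hasDerivWithin_le
      (f := g) (s := Set.Icc (n : ℝ) ((n + 1 : ℕ) : ℝ))
      (fun x hx => (hgder x (hmem x hx).1 (hmem x hx).2).hasDerivWithinAt)
      (fun x hx => hgd x (hmem x hx).1 (hmem x hx).2) (convex_Icc _ _)
      (Set.left_mem_Icc.2 (by push_cast; linarith)) (Set.right_mem_Icc.2 (by push_cast; linarith))
    refine le_trans this ?_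
    push_cast
    rw [add_sub_cancel_left]
    simp
  have hpart : ∀ n, a₀ ≤ n → n ≤ b₀ →
      ‖∑ h ∈ Finset.Icc a₀ n, ee (-(Ph ρ lam μ₁ μ₂ L₁ h))‖ ≤ K₃ * Th H (K₃ * D) f := by
    intro n _ hn2
    have h1 : ∑ h ∈ Finset.Icc a₀ n, ee (-(Ph ρ lam μ₁ μ₂ L₁ h)) =
        (starRingEnd ℂ) (∑ h ∈ Finset.Icc a₀ n, ee (Ph ρ lam μ₁ μ₂ L₁ h)) := by
      rw [map_sum]
      exact Finset.sum_congr rfl fun h _ => ee_neg _
    rw [h1, RCLike.norm_conj]
    exact hsum a₀ n ha₀' (le_trans (by exact_mod_cast hn2) hb₀')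
  have hM0 : 0 ≤ K₃ * Th H (K₃ * D) f := le_trans (norm_nonneg _) (hpart a₀ le_rfl hab)
  have hfin := abel_bound (fun n : ℕ => g (n : ℝ)) (fun n : ℕ => ee (-(Ph ρ lam μ₁ μ₂ L₁ n)))
    a₀ b₀ hab (K₃ * Th H (K₃ * D) f) (A₃ * Q) (2 * A₃ * Q / H) hpart
    (hgb _ (by have : (a₀ : ℝ) ≤ b₀ := by exact_mod_cast hab
               linarith) (by linarith)) hstep
  rw [hsplit, hDH, hfH, hLL]
  refine le_trans hfin ?_
  have hab' : (b₀ : ℝ) - a₀ ≤ 2 * H := by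
    have : (0 : ℝ) ≤ a₀ := Nat.cast_nonneg _
    linarith
  have e1 : A₃ * Q + ((b₀ : ℝ) - a₀) * (2 * A₃ * Q / H) ≤ 5 * (A₃ * Q) := by
    have e2 : ((b₀ : ℝ) - a₀) * (2 * A₃ * Q / H) ≤ 2 * H * (2 * A₃ * Q / H) :=
      mul_le_mul_of_nonneg_right hab' (by positivity)
    have e3 : 2 * H * (2 * A₃ * Q / H) = 4 * (A₃ * Q) := by field_simp; ring
    linarith
  have e4 := Th_le H (K₃ * D) f s hH0 (by positivity) hs1
  calc (A₃ * Q + ((b₀ : ℝ) - a₀) * (2 * A₃ * Q / H)) * (K₃ * Th H (K₃ * D) f)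
      ≤ 5 * (A₃ * Q) * (K₃ * (s * Th H (s ^ 2 * (K₃ * D)) f)) := by
        apply mul_le_mul e1 _ hM0 (by positivity)
        exact mul_le_mul_of_nonneg_left e4 (by linarith)
    _ = s ^ 2 * K₃ * A₁ * A₂ * A₃ / (L₁ / H ^ 2) * Th H (s ^ 2 * K₃ * D) f := by
        rw [hQ, hs, ← mul_assoc (( 5 * K₀ * K₅) ^ 2) K₃ D]
        field_simp
        try ring

end Pool.Agent.H304R4.CM
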