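import Pool.Agent.H304R4.CM.Stubs

/-! Task I0: product weights are amplitudes. -/

open Complex MeasureTheory Filter Topology

namespace Pool.Agent.H304R4.CM

theorem I0_comp {w : ℝ → ℂ} {A : ℝ} (hw : Wt A w) (L : ℝ × ℝ →L[ℝ] ℝ) (hL : ‖L‖ ≤ 1) (m : ℕ)
    (hm : m ≤ 3) (z : ℝ × ℝ) : ‖iteratedFDeriv ℝ m (fun z => w (L z)) z‖ ≤ A := by
  have h1 : iteratedFDeriv ℝ m (w ∘ L) z =
      (iteratedFDeriv ℝ m w (L z)).compContinuousLinearMap fun _ => L :=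
    L.iteratedFDeriv_comp_right hw.smooth z (by exact_mod_cast le_top)
  have h2 : ‖iteratedFDeriv ℝ m w (L z)‖ ≤ A := by
    rw [norm_iteratedFDeriv_eq_norm_iteratedDeriv]
    exact hw.bound m (by omega) _
  have h3 : ‖iteratedFDeriv ℝ m (w ∘ L) z‖ ≤ ‖iteratedFDeriv ℝ m w (L z)‖ * ∏ _i : Fin m, ‖L‖ := by
    rw [h1]
    exact ContinuousMultilinearMap.norm_compContinuousLinearMap_le _ _
  have h4 : ∏ _i : Fin m, ‖L‖ ≤ 1 := by
    rw [Finset.prod_const]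
    exact pow_le_one₀ (norm_nonneg _) hL
  calc ‖iteratedFDeriv ℝ m (fun z => w (L z)) z‖ = ‖iteratedFDeriv ℝ m (w ∘ L) z‖ := rfl
    _ ≤ ‖iteratedFDeriv ℝ m w (L z)‖ * ∏ _i : Fin m, ‖L‖ := h3
    _ ≤ ‖iteratedFDeriv ℝ m w (L z)‖ * 1 := mul_le_mul_of_nonneg_left h4 (norm_nonneg _)
    _ ≤ A := by rw [mul_one]; exact h2

theorem t_I0 : S_I0 := by
  refine ⟨8, by norm_num, ?_⟩
  intro A₁ A₂ ω₁ ω₂ h₁ h₂
  have hA₁ : 0 ≤ A₁ := (norm_nonneg _).trans (h₁.bound 0 (by norm_num) 0)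
  have hA₂ : 0 ≤ A₂ := (norm_nonneg _).trans (h₂.bound 0 (by norm_num) 0)
  have s₁ : ContDiff ℝ (⊤ : ℕ∞) (fun z : ℝ × ℝ => ω₁ z.1) := h₁.smooth.comp contDiff_fst
  have s₂ : ContDiff ℝ (⊤ : ℕ∞) (fun z : ℝ × ℝ => ω₂ z.2) := h₂.smooth.comp contDiff_snd
  refine ⟨s₁.mul s₂, ?_, ?_⟩
  · intro z hz
    exact ⟨h₁.supp _ (left_ne_zero_of_mul hz), h₂.supp _ (right_ne_zero_of_mul hz)⟩
  · intro m hm z
    have h3 := norm_iteratedFDeriv_mul_le (𝕜 := ℝ) s₁ s₂ z (n := m) (by exact_mod_cast le_top)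
    refine h3.trans ?_
    have b₁ : ∀ i, i ≤ 3 → ‖iteratedFDeriv ℝ i (fun z : ℝ × ℝ => ω₁ z.1) z‖ ≤ A₁ := fun i hi =>
      I0_comp h₁ (ContinuousLinearMap.fst ℝ ℝ ℝ) (ContinuousLinearMap.norm_fst_le ℝ ℝ ℝ) i hi z
    have b₂ : ∀ i, i ≤ 3 → ‖iteratedFDeriv ℝ i (fun z : ℝ × ℝ => ω₂ z.2) z‖ ≤ A₂ := fun i hi =>
      I0_comp h₂ (ContinuousLinearMap.snd ℝ ℝ ℝ) (ContinuousLinearMap.norm_snd_le ℝ ℝ ℝ) i hi z
    calc ∑ i ∈ Finset.range (m + 1), (m.choose i : ℝ) *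
          ‖iteratedFDeriv ℝ i (fun z : ℝ × ℝ => ω₁ z.1) z‖ *
          ‖iteratedFDeriv ℝ (m - i) (fun z : ℝ × ℝ => ω₂ z.2) z‖
        ≤ ∑ i ∈ Finset.range (m + 1), (m.choose i : ℝ) * (A₁ * A₂) := by
          refine Finset.sum_le_sum fun i hi => ?_
          have hi' : i ≤ 3 := by
            have := Finset.mem_range.1 hi
            omega
          rw [mul_assoc]
          exact mul_le_mul_of_nonneg_left (mul_le_mul (b₁ i hi') (b₂ (m - i) (by omega))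
            (norm_nonneg _) hA₁) (Nat.cast_nonneg _)
      _ = 2 ^ m * (A₁ * A₂) := by
          rw [← Finset.sum_mul]
          congr 1
          have := Nat.sum_range_choose m
          exact_mod_cast this
      _ ≤ 8 * (A₁ * A₂) := by
          refine mul_le_mul_of_nonneg_right ?_ (mul_nonneg hA₁ hA₂)
          calc (2 : ℝ) ^ m ≤ 2 ^ 3 := pow_le_pow_right₀ (by norm_num) hm
            _ = 8 := by norm_num
      _ = 8 * A₁ * A₂ := by ring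

end Pool.Agent.H304R4.CM
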