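import Mathlib
import Pool.Agent.H304R4.CM.Defs
import Pool.Agent.H304R4.CM.Defs2
import Pool.Agent.H304R4.CM.Stubs

/-! # Task I1: uniform bound for `II` -/

set_option autoImplicit false

open Complex MeasureTheory Filter Topology Set

namespace Pool.Agent.H304R4.CM.I1

/-- First derivative test, local hypotheses. -/
theorem loc_one {g : ℝ → ℂ} {w w' : ℝ → ℝ} {a b μ : ℝ} (hab : a ≤ b) (hμ : 0 < μ)
    (hg : ∀ t ∈ Icc a b, HasDerivAt g (Complex.I * (w t : ℂ) * g t) t)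
    (hgn : ∀ t, ‖g t‖ = 1)
    (hw : ∀ t ∈ Icc a b, HasDerivAt w (w' t) t)
    (hw'c : ContinuousOn w' (Icc a b))
    (hw'0 : ∀ t ∈ Icc a b, 0 ≤ w' t)
    (hlow : μ ≤ w a) :
    ‖∫ t in a..b, g t‖ ≤ 2 / μ := by
  have hgc : ContinuousOn g (Icc a b) := fun t ht => (hg t ht).continuousAt.continuousWithinAt
  have hwc : ContinuousOn w (Icc a b) := fun t ht => (hw t ht).continuousAt.continuousWithinAt
  have hmono : MonotoneOn w (Icc a b) := by
    apply monotoneOn_of_deriv_nonneg (convex_Icc a b) hwc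
    · intro t ht
      exact (hw t (interior_subset ht)).differentiableAt.differentiableWithinAt
    · intro t ht
      rw [(hw t (interior_subset ht)).deriv]
      exact hw'0 t (interior_subset ht)
  have hpos : ∀ t ∈ Icc a b, μ ≤ w t := fun t ht =>
    hlow.trans (hmono (left_mem_Icc.2 hab) ht ht.1)
  have huI : uIcc a b = Icc a b := uIcc_of_le hab
  have hG : ∀ t ∈ uIcc a b, HasDerivAt (fun s => g s / (Complex.I * (w s : ℂ)))
      (g t - g t * (w' t : ℂ) / (Complex.I * (w t : ℂ) ^ 2)) t := by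
    intro t ht
    rw [huI] at ht
    have hwt : 0 < w t := lt_of_lt_of_le hμ (hpos t ht)
    have hwt' : (w t : ℂ) ≠ 0 := by exact_mod_cast hwt.ne'
    have h1 : HasDerivAt (fun s => Complex.I * (w s : ℂ)) (Complex.I * (w' t : ℂ)) t :=
      ((hw t ht).ofReal_comp).const_mul Complex.I
    have h2 := (hg t ht).div h1 (mul_ne_zero Complex.I_ne_zero hwt')
    refine h2.congr_deriv ?_
    have hI : Complex.I ≠ 0 := Complex.I_ne_zero
    field_simp
  have hwne : ∀ t ∈ Icc a b, (w t) ≠ 0 := fun t ht => (lt_of_lt_of_le hμ (hpos t ht)).ne'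
  have hcont1 : ContinuousOn (fun t => g t * (w' t : ℂ) / (Complex.I * (w t : ℂ) ^ 2)) (Icc a b) := by
    apply ContinuousOn.div
    · exact hgc.mul (Complex.continuous_ofReal.comp_continuousOn hw'c)
    · exact continuousOn_const.mul ((Complex.continuous_ofReal.comp_continuousOn hwc).pow 2)
    · intro t ht
      have : (w t : ℂ) ≠ 0 := by exact_mod_cast hwne t ht
      exact mul_ne_zero Complex.I_ne_zero (pow_ne_zero 2 this)
  have hint1 : IntervalIntegrable (fun t => g t * (w' t : ℂ) / (Complex.I * (w t : ℂ) ^ 2)) volume a b :=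
    (huI ▸ hcont1 : ContinuousOn _ (uIcc a b)).intervalIntegrable
  have hintg : IntervalIntegrable g volume a b :=
    (huI ▸ hgc : ContinuousOn g (uIcc a b)).intervalIntegrable
  have hFTC := intervalIntegral.integral_eq_sub_of_hasDerivAt hG (hintg.sub hint1)
  rw [intervalIntegral.integral_sub hintg hint1] at hFTC
  have hcont2 : ContinuousOn (fun t => w' t / (w t) ^ 2) (Icc a b) := by
    apply ContinuousOn.div hw'c (hwc.pow 2)
    intro t ht
    exact pow_ne_zero 2 (hwne t ht)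
  have hint2 : IntervalIntegrable (fun t => w' t / (w t) ^ 2) volume a b :=
    (huI ▸ hcont2 : ContinuousOn _ (uIcc a b)).intervalIntegrable
  have hFTC2 : ∫ t in a..b, w' t / (w t) ^ 2 = - (w b)⁻¹ - (- (w a)⁻¹) := by
    apply intervalIntegral.integral_eq_sub_of_hasDerivAt (f := fun t => - (w t)⁻¹)
    · intro t ht
      rw [huI] at ht
      have := ((hw t ht).inv (hwne t ht)).neg
      refine this.congr_deriv ?_
      ring
    · exact hint2
  have hbound : ‖∫ t in a..b, g t * (w' t : ℂ) / (Complex.I * (w t : ℂ) ^ 2)‖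
      ≤ ∫ t in a..b, w' t / (w t) ^ 2 := by
    apply intervalIntegral.norm_integral_le_of_norm_le hab
    · filter_upwards with t ht
      have ht' : t ∈ Icc a b := ⟨ht.1.le, ht.2⟩
      rw [norm_div, norm_mul, norm_mul, hgn, norm_pow, Complex.norm_I, Complex.norm_real,
        Complex.norm_real, Real.norm_eq_abs, Real.norm_eq_abs, abs_of_nonneg (hw'0 t ht'), sq_abs]
      simp
    · exact hint2
  have hwa : 0 < w a := lt_of_lt_of_le hμ hlow
  have hwb : 0 < w b := lt_of_lt_of_le hμ (hpos b (right_mem_Icc.2 hab))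
  have hGn : ∀ t, 0 < w t → ‖g t / (Complex.I * (w t : ℂ))‖ = (w t)⁻¹ := by
    intro t ht
    rw [norm_div, norm_mul, hgn, Complex.norm_I, Complex.norm_real, Real.norm_eq_abs,
      abs_of_pos ht]
    simp
  have hfin : ∫ t in a..b, g t = (g b / (Complex.I * (w b : ℂ)) - g a / (Complex.I * (w a : ℂ)))
      + ∫ t in a..b, g t * (w' t : ℂ) / (Complex.I * (w t : ℂ) ^ 2) := by
    rw [← hFTC]; ring
  rw [hfin]
  calc _ ≤ ‖g b / (Complex.I * (w b : ℂ)) - g a / (Complex.I * (w a : ℂ))‖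
        + ‖∫ t in a..b, g t * (w' t : ℂ) / (Complex.I * (w t : ℂ) ^ 2)‖ := norm_add_le _ _
    _ ≤ ((w b)⁻¹ + (w a)⁻¹) + (- (w b)⁻¹ - (- (w a)⁻¹)) := by
        gcongr
        · calc _ ≤ ‖g b / (Complex.I * (w b : ℂ))‖ + ‖g a / (Complex.I * (w a : ℂ))‖ := norm_sub_le _ _
            _ = _ := by rw [hGn b hwb, hGn a hwa]
        · rw [← hFTC2]; exact hbound
    _ = 2 / w a := by ring
    _ ≤ 2 / μ := by gcongr

/-- The mirrored version: negative phase derivative. -/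
theorem loc_one_neg {g : ℝ → ℂ} {w w' : ℝ → ℝ} {a b μ : ℝ} (hab : a ≤ b) (hμ : 0 < μ)
    (hg : ∀ t ∈ Icc a b, HasDerivAt g (Complex.I * (w t : ℂ) * g t) t)
    (hgn : ∀ t, ‖g t‖ = 1)
    (hw : ∀ t ∈ Icc a b, HasDerivAt w (w' t) t)
    (hw'c : ContinuousOn w' (Icc a b))
    (hw'0 : ∀ t ∈ Icc a b, 0 ≤ w' t)
    (hlow : w b ≤ -μ) :
    ‖∫ t in a..b, g t‖ ≤ 2 / μ := by
  have key : ∫ t in a..b, g t = ∫ t in (-b)..(-a), g (-t) := by
    rw [intervalIntegral.integral_comp_neg]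
    simp
  have hmem : ∀ t ∈ Icc (-b) (-a), -t ∈ Icc a b := fun t ht =>
    ⟨by linarith [ht.2], by linarith [ht.1]⟩
  rw [key]
  apply loc_one (g := fun t => g (-t)) (w := fun t => - w (-t)) (w' := fun t => w' (-t))
    (by linarith) hμ
  · intro t ht
    have h1 : HasDerivAt (fun s : ℝ => -s) (-1) t := hasDerivAt_neg t
    have h2 := (hg (-t) (hmem t ht)).scomp t h1
    refine h2.congr_deriv ?_
    simp
  · intro t; exact hgn _
  · intro t ht
    have h1 : HasDerivAt (fun s : ℝ => -s) (-1) t := hasDerivAt_neg t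
    have h2 := ((hw (-t) (hmem t ht)).comp t h1).neg
    refine h2.congr_deriv ?_
    ring
  · exact hw'c.comp continuous_neg.continuousOn hmem
  · intro t ht
    exact hw'0 _ (hmem t ht)
  · simp only [neg_neg]; linarith

theorem norm_int_le {g : ℝ → ℂ} {a b : ℝ} (hab : a ≤ b) (hgn : ∀ t, ‖g t‖ = 1) :
    ‖∫ t in a..b, g t‖ ≤ b - a := by
  have := intervalIntegral.norm_integral_le_of_norm_le_const (a := a) (b := b) (f := g) (C := 1)
    (fun t _ => (hgn t).le)
  rw [abs_of_nonneg (by linarith)] at this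
  linarith

theorem loc_half_pos {g : ℝ → ℂ} {w w' : ℝ → ℝ} {a b l d : ℝ} (hab : a ≤ b) (hl : 0 < l)
    (hd : 0 < d)
    (hg : ∀ t ∈ Icc a b, HasDerivAt g (Complex.I * (w t : ℂ) * g t) t)
    (hgn : ∀ t, ‖g t‖ = 1)
    (hw : ∀ t ∈ Icc a b, HasDerivAt w (w' t) t)
    (hw'c : ContinuousOn w' (Icc a b))
    (hw'0 : ∀ t ∈ Icc a b, l ≤ w' t)
    (hlow : 0 ≤ w a) :
    ‖∫ t in a..b, g t‖ ≤ d + 2 / (l * d) := by
  have hgc : ContinuousOn g (Icc a b) := fun t ht => (hg t ht).continuousAt.continuousWithinAt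
  have hwc : ContinuousOn w (Icc a b) := fun t ht => (hw t ht).continuousAt.continuousWithinAt
  have h0 : 0 < 2 / (l * d) := by positivity
  rcases le_or_gt b (a + d) with h | h
  · have := norm_int_le hab hgn
    linarith
  · have i1 : IntervalIntegrable g volume a (a + d) := by
      apply ContinuousOn.intervalIntegrable
      rw [uIcc_of_le (by linarith)]
      exact hgc.mono (Icc_subset_Icc_right h.le)
    have i2 : IntervalIntegrable g volume (a + d) b := by
      apply ContinuousOn.intervalIntegrable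
      rw [uIcc_of_le h.le]
      exact hgc.mono (Icc_subset_Icc_left (by linarith))
    have hsplit : ∫ t in a..b, g t = (∫ t in a..(a + d), g t) + ∫ t in (a + d)..b, g t :=
      (intervalIntegral.integral_add_adjacent_intervals i1 i2).symm
    have h1 : ‖∫ t in a..(a + d), g t‖ ≤ d := by
      have := norm_int_le (a := a) (b := a + d) (by linarith) hgn
      linarith
    have hwd : l * d ≤ w (a + d) := by
      have hmv : l * ((a + d) - a) ≤ w (a + d) - w a := by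
        apply Convex.mul_sub_le_image_sub_of_le_deriv (convex_Icc a b) hwc
          (fun t ht => (hw t (interior_subset ht)).differentiableAt.differentiableWithinAt)
        · intro t ht
          rw [(hw t (interior_subset ht)).deriv]
          exact hw'0 t (interior_subset ht)
        · exact left_mem_Icc.2 hab
        · exact ⟨by linarith, h.le⟩
        · linarith
      have : (a + d) - a = d := by ring
      rw [this] at hmv
      linarith
    have hsub : Icc (a + d) b ⊆ Icc a b := Icc_subset_Icc_left (by linarith)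
    have h2 : ‖∫ t in (a + d)..b, g t‖ ≤ 2 / (l * d) := by
      apply loc_one h.le (by positivity) (fun t ht => hg t (hsub ht)) hgn
        (fun t ht => hw t (hsub ht)) (hw'c.mono hsub) _ hwd
      intro t ht
      exact hl.le.trans (hw'0 t (hsub ht))
    rw [hsplit]
    exact (norm_add_le _ _).trans (add_le_add h1 h2)

theorem loc_half_neg {g : ℝ → ℂ} {w w' : ℝ → ℝ} {a b l d : ℝ} (hab : a ≤ b) (hl : 0 < l)
    (hd : 0 < d)
    (hg : ∀ t ∈ Icc a b, HasDerivAt g (Complex.I * (w t : ℂ) * g t) t)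
    (hgn : ∀ t, ‖g t‖ = 1)
    (hw : ∀ t ∈ Icc a b, HasDerivAt w (w' t) t)
    (hw'c : ContinuousOn w' (Icc a b))
    (hw'0 : ∀ t ∈ Icc a b, l ≤ w' t)
    (hlow : w b ≤ 0) :
    ‖∫ t in a..b, g t‖ ≤ d + 2 / (l * d) := by
  have key : ∫ t in a..b, g t = ∫ t in (-b)..(-a), g (-t) := by
    rw [intervalIntegral.integral_comp_neg]
    simp
  have hmem : ∀ t ∈ Icc (-b) (-a), -t ∈ Icc a b := fun t ht =>
    ⟨by linarith [ht.2], by linarith [ht.1]⟩
  rw [key]
  apply loc_half_pos (g := fun t => g (-t)) (w := fun t => - w (-t)) (w' := fun t => w' (-t))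
    (by linarith) hl hd
  · intro t ht
    have h1 : HasDerivAt (fun s : ℝ => -s) (-1) t := hasDerivAt_neg t
    have h2 := (hg (-t) (hmem t ht)).scomp t h1
    refine h2.congr_deriv ?_
    simp
  · intro t; exact hgn _
  · intro t ht
    have h1 : HasDerivAt (fun s : ℝ => -s) (-1) t := hasDerivAt_neg t
    have h2 := ((hw (-t) (hmem t ht)).comp t h1).neg
    refine h2.congr_deriv ?_
    ring
  · exact hw'c.comp continuous_neg.continuousOn hmem
  · intro t ht
    exact hw'0 _ (hmem t ht)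
  · simp only [neg_neg]; linarith

/-- Second derivative test, local hypotheses. -/
theorem loc_two {g : ℝ → ℂ} {w w' : ℝ → ℝ} {a b l d : ℝ} (hab : a ≤ b) (hl : 0 < l)
    (hd : 0 < d)
    (hg : ∀ t ∈ Icc a b, HasDerivAt g (Complex.I * (w t : ℂ) * g t) t)
    (hgn : ∀ t, ‖g t‖ = 1)
    (hw : ∀ t ∈ Icc a b, HasDerivAt w (w' t) t)
    (hw'c : ContinuousOn w' (Icc a b))
    (hw'0 : ∀ t ∈ Icc a b, l ≤ w' t) :
    ‖∫ t in a..b, g t‖ ≤ 2 * (d + 2 / (l * d)) := by
  have hgc : ContinuousOn g (Icc a b) := fun t ht => (hg t ht).continuousAt.continuousWithinAt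
  have hwc : ContinuousOn w (Icc a b) := fun t ht => (hw t ht).continuousAt.continuousWithinAt
  have h0 : 0 < 2 / (l * d) := by positivity
  rcases le_or_gt 0 (w a) with h1 | h1
  · have := loc_half_pos hab hl hd hg hgn hw hw'c hw'0 h1
    linarith
  · rcases le_or_gt (w b) 0 with h2 | h2
    · have := loc_half_neg hab hl hd hg hgn hw hw'c hw'0 h2
      linarith
    · obtain ⟨c, hc, hc0⟩ := intermediate_value_Icc hab hwc ⟨h1.le, h2.le⟩
      have s1 : Icc a c ⊆ Icc a b := Icc_subset_Icc_right hc.2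
      have s2 : Icc c b ⊆ Icc a b := Icc_subset_Icc_left hc.1
      have i1 : IntervalIntegrable g volume a c := by
        apply ContinuousOn.intervalIntegrable
        rw [uIcc_of_le hc.1]
        exact hgc.mono s1
      have i2 : IntervalIntegrable g volume c b := by
        apply ContinuousOn.intervalIntegrable
        rw [uIcc_of_le hc.2]
        exact hgc.mono s2
      have hsplit : ∫ t in a..b, g t = (∫ t in a..c, g t) + ∫ t in c..b, g t :=
        (intervalIntegral.integral_add_adjacent_intervals i1 i2).symm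
      have h3 := loc_half_neg hc.1 hl hd (fun t ht => hg t (s1 ht)) hgn (fun t ht => hw t (s1 ht))
        (hw'c.mono s1) (fun t ht => hw'0 t (s1 ht)) hc0.le
      have h4 := loc_half_pos hc.2 hl hd (fun t ht => hg t (s2 ht)) hgn (fun t ht => hw t (s2 ht))
        (hw'c.mono s2) (fun t ht => hw'0 t (s2 ht)) hc0.ge
      rw [hsplit]
      have := norm_add_le (∫ t in a..c, g t) (∫ t in c..b, g t)
      linarith

/-- insertion of an amplitude -/
theorem amp_ibp {g A A' : ℝ → ℂ} {a b S₀ S₁ T : ℝ} (hab : a ≤ b)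
    (hgc : ContinuousOn g (Icc a b)) (hA : ∀ t ∈ Icc a b, HasDerivAt A (A' t) t)
    (hA'c : ContinuousOn A' (Icc a b)) (hS₀ : ‖A b‖ ≤ S₀)
    (hS₁ : ∀ t ∈ Icc a b, ‖A' t‖ ≤ S₁) (hS10 : 0 ≤ S₁)
    (hT : ∀ t ∈ Icc a b, ‖∫ s in a..t, g s‖ ≤ T) :
    ‖∫ t in a..b, A t * g t‖ ≤ (S₀ + S₁ * (b - a)) * T := by
  have huI : uIcc a b = Icc a b := uIcc_of_le hab
  have hgi : IntervalIntegrable g volume a b :=
    (huI ▸ hgc : ContinuousOn g (uIcc a b)).intervalIntegrable
  have hA'i : IntervalIntegrable A' volume a b :=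
    (huI ▸ hA'c : ContinuousOn A' (uIcc a b)).intervalIntegrable
  have hGc : ContinuousOn (fun t => ∫ s in a..t, g s) (uIcc a b) :=
    intervalIntegral.continuousOn_primitive_interval' hgi left_mem_uIcc
  have hGd : ∀ t ∈ Ioo a b, HasDerivAt (fun t => ∫ s in a..t, g s) (g t) t := by
    intro t ht
    have hti : IntervalIntegrable g volume a t := by
      apply ContinuousOn.intervalIntegrable
      rw [uIcc_of_le ht.1.le]
      exact hgc.mono (Icc_subset_Icc_right ht.2.le)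
    apply intervalIntegral.integral_hasDerivAt_right hti
    · exact ContinuousOn.stronglyMeasurableAtFilter isOpen_Ioo
        (hgc.mono Ioo_subset_Icc_self) t ht
    · exact hgc.continuousAt (Icc_mem_nhds ht.1 ht.2)
  have hAc : ContinuousOn A (uIcc a b) := by
    rw [huI]; exact fun t ht => (hA t ht).continuousAt.continuousWithinAt
  have hibp := intervalIntegral.integral_mul_deriv_eq_deriv_mul_of_hasDeriv_right (a := a) (b := b)
    (u := A) (v := fun t => ∫ s in a..t, g s) (u' := A') (v' := g) hAc hGc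
    (fun t ht => by
      rw [min_eq_left hab, max_eq_right hab] at ht
      exact (hA t (Ioo_subset_Icc_self ht)).hasDerivWithinAt)
    (fun t ht => by
      rw [min_eq_left hab, max_eq_right hab] at ht
      exact (hGd t ht).hasDerivWithinAt) hA'i hgi
  rw [hibp]
  have h1 : ‖A b * ∫ s in a..b, g s‖ ≤ S₀ * T := by
    rw [norm_mul]
    exact mul_le_mul hS₀ (hT b (right_mem_Icc.2 hab)) (norm_nonneg _) ((norm_nonneg _).trans hS₀)
  have h2 : ‖∫ t in a..b, A' t * ∫ s in a..t, g s‖ ≤ S₁ * T * (b - a) := by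
    have := intervalIntegral.norm_integral_le_of_norm_le_const (a := a) (b := b)
      (f := fun t => A' t * ∫ s in a..t, g s) (C := S₁ * T) (fun t ht => by
        rw [uIoc_of_le hab] at ht
        rw [norm_mul]
        exact mul_le_mul (hS₁ t (Ioc_subset_Icc_self ht)) (hT t (Ioc_subset_Icc_self ht))
          (norm_nonneg _) hS10)
    rwa [abs_of_nonneg (by linarith)] at this
  simp only [intervalIntegral.integral_same, mul_zero, sub_zero]
  calc _ ≤ ‖A b * ∫ s in a..b, g s‖ + ‖∫ t in a..b, A' t * ∫ s in a..t, g s‖ := norm_sub_le _ _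
    _ ≤ S₀ * T + S₁ * T * (b - a) := add_le_add h1 h2
    _ = _ := by ring

theorem ee_norm (x : ℝ) : ‖ee x‖ = 1 := by
  unfold ee; rw [Complex.norm_exp_ofReal_mul_I]

theorem ee_cont : Continuous ee := by
  unfold ee; fun_prop

theorem ee_neg (x : ℝ) : ee (-x) = (starRingEnd ℂ) (ee x) := by
  unfold ee
  rw [← Complex.exp_conj, map_mul, Complex.conj_I, Complex.conj_ofReal]
  congr 1
  push_cast
  ring

theorem ee_add (x y : ℝ) : ee (x + y) = ee x * ee y := by
  unfold ee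
  rw [← Complex.exp_add]
  congr 1
  push_cast
  ring

theorem ee_hasDeriv {f : ℝ → ℝ} {f' t : ℝ} (h : HasDerivAt f f' t) :
    HasDerivAt (fun s => ee (f s)) (Complex.I * ((2 * Real.pi * f' : ℝ) : ℂ) * ee (f t)) t := by
  unfold ee
  have h1 : HasDerivAt (fun s => ((2 * Real.pi * f s : ℝ) : ℂ) * I)
      (((2 * Real.pi * f' : ℝ) : ℂ) * I) t :=
    ((h.const_mul (2 * Real.pi)).ofReal_comp).mul_const I
  refine (h1.cexp).congr_deriv ?_
  ring

section amp
variable {A : ℝ} {a : ℝ × ℝ → ℂ}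

theorem amp_norm (ha : Amp 2 A a) (z : ℝ × ℝ) : ‖a z‖ ≤ A := by
  have := ha.bound 0 (by norm_num) z
  rwa [norm_iteratedFDeriv_zero] at this

theorem amp_nonneg (ha : Amp 2 A a) : 0 ≤ A := (norm_nonneg _).trans (amp_norm ha 0)

theorem amp_zero_fst (ha : Amp 2 A a) {x y : ℝ} (h : x ∉ Icc (1/2 : ℝ) 2) : a (x, y) = 0 := by
  by_contra h0
  exact h (ha.supp (x, y) h0).1

theorem amp_zero_snd (ha : Amp 2 A a) {x y : ℝ} (h : y ∉ Icc (1/2 : ℝ) 2) : a (x, y) = 0 := by
  by_contra h0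
  exact h (ha.supp (x, y) h0).2

theorem amp_compact (ha : Amp 2 A a) : HasCompactSupport a := by
  apply HasCompactSupport.intro (K := Icc (1/2 : ℝ) 2 ×ˢ Icc (1/2 : ℝ) 2)
    (isCompact_Icc.prod isCompact_Icc)
  rintro ⟨x, y⟩ h
  by_contra h0
  exact h ⟨(ha.supp (x, y) h0).1, (ha.supp (x, y) h0).2⟩

theorem amp_fderiv (ha : Amp 2 A a) (z : ℝ × ℝ) : ‖fderiv ℝ a z (1, 0)‖ ≤ A := by
  have h1 := ha.bound 1 (by norm_num) z
  rw [norm_iteratedFDeriv_one] at h1
  refine ((fderiv ℝ a z).le_opNorm _).trans ?_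
  have : ‖((1 : ℝ), (0 : ℝ))‖ = 1 := by
    rw [Prod.norm_def]; simp
  rw [this, mul_one]
  exact h1

theorem amp_deriv_x (ha : Amp 2 A a) (x y : ℝ) :
    HasDerivAt (fun x => a (x, y)) (fderiv ℝ a (x, y) (1, 0)) x := by
  have h1 : HasFDerivAt a (fderiv ℝ a (x, y)) (x, y) :=
    (ha.smooth.differentiable (by simp)).differentiableAt.hasFDerivAt
  have h2 : HasDerivAt (fun x : ℝ => (x, y)) (1, 0) x :=
    (hasDerivAt_id x).prodMk (hasDerivAt_const x y)
  exact h1.comp_hasDerivAt x h2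

theorem amp_cont_x (ha : Amp 2 A a) (y : ℝ) : Continuous (fun x => fderiv ℝ a (x, y) (1, 0)) := by
  have h1 : Continuous (fderiv ℝ a) := ha.smooth.continuous_fderiv (by simp)
  have h2 : Continuous (fun x : ℝ => fderiv ℝ a (x, y)) := h1.comp (by fun_prop)
  exact h2.clm_apply continuous_const

end amp

theorem outer {f : ℝ → ℂ} (h : ∀ y, y ∉ Icc (1/2 : ℝ) 2 → f y = 0) :
    ∫ y, f y = ∫ y in (3/8 : ℝ)..2, f y := by
  symm
  apply intervalIntegral.integral_eq_integral_of_support_subset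
  intro y hy
  by_contra h0
  apply hy
  apply h
  intro h1
  exact h0 ⟨by linarith [h1.1], h1.2⟩

/-- the double integral as an iterated one -/
theorem II_iter {A : ℝ} {a : ℝ × ℝ → ℂ} (ha : Amp 2 A a) (ρ L n₁ n₂ : ℝ) :
    II a ρ L n₁ n₂ = ∫ y in (3/8 : ℝ)..2, ∫ x in (3/8 : ℝ)..2,
      a (x, y) * ee (L * (PP ρ x y - n₁ * x - n₂ * y)) := by
  have hint : Integrable (fun z : ℝ × ℝ => a z * ee (L * (PP ρ z.1 z.2 - n₁ * z.1 - n₂ * z.2)))
      (volume.prod volume) := by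
    rw [← Measure.volume_eq_prod]
    apply Continuous.integrable_of_hasCompactSupport
    · apply ha.smooth.continuous.mul
      apply ee_cont.comp
      unfold PP
      fun_prop
    · exact (amp_compact ha).mul_right
  unfold II
  rw [Measure.volume_eq_prod, integral_prod_symm _ hint]
  rw [outer (f := fun y => ∫ x, a (x, y) * ee (L * (PP ρ x y - n₁ * x - n₂ * y)))]
  · apply intervalIntegral.integral_congr
    intro y _
    dsimp only
    apply outer
    intro x hx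
    rw [amp_zero_fst ha hx, zero_mul]
  · intro y hy
    have : ∀ x, a (x, y) * ee (L * (PP ρ x y - n₁ * x - n₂ * y)) = 0 := by
      intro x; rw [amp_zero_snd ha hy, zero_mul]
    simp [this]

/-- trivial bound -/
theorem II_triv {A : ℝ} {a : ℝ × ℝ → ℂ} (ha : Amp 2 A a) (ρ L n₁ n₂ : ℝ) :
    ‖II a ρ L n₁ n₂‖ ≤ 3 * A := by
  rw [II_iter ha]
  have h1 : ∀ y : ℝ, ‖∫ x in (3/8 : ℝ)..2, a (x, y) * ee (L * (PP ρ x y - n₁ * x - n₂ * y))‖ ≤
      A * (13/8) := by
    intro y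
    have := intervalIntegral.norm_integral_le_of_norm_le_const (a := (3/8 : ℝ)) (b := 2)
      (f := fun x => a (x, y) * ee (L * (PP ρ x y - n₁ * x - n₂ * y))) (C := A) (fun x _ => by
        rw [norm_mul, ee_norm, mul_one]; exact amp_norm ha _)
    rwa [show |(2 : ℝ) - 3/8| = 13/8 by norm_num] at this
  have h2 := intervalIntegral.norm_integral_le_of_norm_le_const (a := (3/8 : ℝ)) (b := 2)
      (f := fun y => ∫ x in (3/8 : ℝ)..2, a (x, y) * ee (L * (PP ρ x y - n₁ * x - n₂ * y)))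
      (C := A * (13/8)) (fun y _ => h1 y)
  rw [show |(2 : ℝ) - 3/8| = 13/8 by norm_num] at h2
  nlinarith [amp_nonneg ha]

/-- case without stationary point in the variable x -/
theorem II_case1 {A : ℝ} {a : ℝ × ℝ → ℂ} (ha : Amp 2 A a) {ρ L n₁ n₂ : ℝ} (hL : 0 < L)
    (hρ : |ρ| ≤ 1/16) (hn : |n₁| ≤ 1/4) :
    ‖II a ρ L n₁ n₂‖ ≤ 13 * A / L := by
  have hA := amp_nonneg ha
  rw [II_iter ha]
  have h1 : ∀ y ∈ Ioc (3/8 : ℝ) 2,
      ‖∫ x in (3/8 : ℝ)..2, a (x, y) * ee (L * (PP ρ x y - n₁ * x - n₂ * y))‖ ≤ 8 * A / L := by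
    intro y hy
    have hπ := Real.pi_gt_three
    have hT : ∀ t ∈ Icc (3/8 : ℝ) 2, ‖∫ s in (3/8 : ℝ)..t, ee (L * (PP ρ s y - n₁ * s - n₂ * y))‖ ≤
        2 / (2 * Real.pi * (L * (1/8))) := by
      intro t ht
      apply loc_one (w := fun x => 2 * Real.pi * (L * (4 * x * y + 2 * ρ * y ^ 2 - n₁)))
        (w' := fun x => 2 * Real.pi * (L * (4 * y))) ht.1 (by positivity)
      · intro x _
        apply ee_hasDeriv
        have : HasDerivAt (fun s : ℝ => L * (PP ρ s y - n₁ * s - n₂ * y))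
            (L * ((2 * (2 * x ^ (2 - 1) * 1) * y + 2 * ρ * 1 * y ^ 2) - n₁ * 1 - 0)) x := by
          unfold PP
          apply HasDerivAt.const_mul
          apply HasDerivAt.sub
          · apply HasDerivAt.sub
            · apply HasDerivAt.add
              · exact (((hasDerivAt_id x).pow 2).const_mul 2).mul_const y
              · exact ((hasDerivAt_id x).const_mul (2 * ρ)).mul_const (y ^ 2)
            · exact (hasDerivAt_id x).const_mul n₁
          · exact hasDerivAt_const x _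
        refine this.congr_deriv ?_
        rw [show 2 - 1 = 1 from rfl]
        ring
      · intro x; exact ee_norm _
      · intro x _
        have : HasDerivAt (fun x : ℝ => 2 * Real.pi * (L * (4 * x * y + 2 * ρ * y ^ 2 - n₁)))
            (2 * Real.pi * (L * ((4 * 1) * y))) x := by
          apply HasDerivAt.const_mul
          apply HasDerivAt.const_mul
          apply HasDerivAt.sub_const
          apply HasDerivAt.add_const
          exact ((hasDerivAt_id x).const_mul 4).mul_const y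
        refine this.congr_deriv ?_
        ring
      · exact continuousOn_const
      · intro x _
        have : 0 < y := by linarith [hy.1]
        positivity
      · have h1 := abs_le.mp hρ
        have h2 := abs_le.mp hn
        have h3 : 1/8 ≤ 4 * (3/8) * y + 2 * ρ * y ^ 2 - n₁ := by
          nlinarith [hy.1, hy.2, mul_nonneg (sq_nonneg y) (by linarith [h1.1] : (0:ℝ) ≤ ρ + 1/16),
            mul_nonneg (by linarith [hy.1] : (0:ℝ) ≤ y - 3/8) (by linarith [hy.2] : (0:ℝ) ≤ 2 - y)]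
        have h4 : L * (1/8) ≤ L * (4 * (3/8) * y + 2 * ρ * y ^ 2 - n₁) :=
          mul_le_mul_of_nonneg_left h3 hL.le
        exact mul_le_mul_of_nonneg_left h4 (by positivity)
    have hmain := amp_ibp (g := fun x => ee (L * (PP ρ x y - n₁ * x - n₂ * y)))
      (A := fun x => a (x, y)) (A' := fun x => fderiv ℝ a (x, y) (1, 0)) (a := (3/8 : ℝ)) (b := 2)
      (S₀ := A) (S₁ := A) (T := 2 / (2 * Real.pi * (L * (1/8)))) (by norm_num)
      (by
        apply Continuous.continuousOn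
        apply ee_cont.comp
        unfold PP
        fun_prop)
      (fun t _ => amp_deriv_x ha t y) (amp_cont_x ha y).continuousOn (amp_norm ha _)
      (fun t _ => amp_fderiv ha _) hA hT
    refine hmain.trans ?_
    have h5 : 2 / (2 * Real.pi * (L * (1/8))) ≤ 8 / (3 * L) := by
      rw [div_le_div_iff₀ (by positivity) (by positivity)]
      nlinarith [mul_pos hL (by linarith : (0:ℝ) < Real.pi - 3)]
    calc (A + A * (2 - 3/8)) * (2 / (2 * Real.pi * (L * (1/8))))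
        ≤ (A + A * (2 - 3/8)) * (8 / (3 * L)) := by
          apply mul_le_mul_of_nonneg_left h5
          nlinarith
      _ = (7 * A) / L := by field_simp; ring
      _ ≤ 8 * A / L := by gcongr; norm_num
  have h2 := intervalIntegral.norm_integral_le_of_norm_le_const (a := (3/8 : ℝ)) (b := 2)
      (f := fun y => ∫ x in (3/8 : ℝ)..2, a (x, y) * ee (L * (PP ρ x y - n₁ * x - n₂ * y)))
      (C := 8 * A / L) (fun y hy => h1 y (by rwa [uIoc_of_le (by norm_num)] at hy))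
  rw [show |(2 : ℝ) - 3/8| = 13/8 by norm_num] at h2
  refine h2.trans (le_of_eq ?_)
  ring

/-- the completed square -/
noncomputable def GG (ρ n₁ n₂ y : ℝ) : ℝ :=
  -(n₁ ^ 2 / 8) * y⁻¹ + n₁ * ρ / 2 * y - ρ ^ 2 / 2 * y ^ 3 - n₂ * y

theorem sq_compl (ρ n₁ n₂ x : ℝ) {y : ℝ} (hy : y ≠ 0) :
    PP ρ x y - n₁ * x - n₂ * y =
      2 * y * (x - (n₁ - 2 * ρ * y ^ 2) / (4 * y)) ^ 2 + GG ρ n₁ n₂ y := by
  unfold PP GG
  field_simp
  ring

theorem GG_deriv (ρ n₁ n₂ : ℝ) {y : ℝ} (hy : y ≠ 0) :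
    HasDerivAt (GG ρ n₁ n₂) (n₁ ^ 2 / 8 * (y⁻¹) ^ 2 + n₁ * ρ / 2 - 3 * ρ ^ 2 / 2 * y ^ 2 - n₂) y := by
  have : HasDerivAt (GG ρ n₁ n₂) (-(n₁ ^ 2 / 8) * (-(y ^ 2)⁻¹) + n₁ * ρ / 2 * 1 -
      ρ ^ 2 / 2 * (((3 : ℕ) : ℝ) * y ^ (3 - 1) * 1) - n₂ * 1) y := by
    unfold GG
    apply HasDerivAt.sub
    · apply HasDerivAt.sub
      · apply HasDerivAt.add
        · exact (hasDerivAt_inv hy).const_mul _
        · exact (hasDerivAt_id y).const_mul _
      · exact ((hasDerivAt_id y).pow 3).const_mul _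
    · exact (hasDerivAt_id y).const_mul _
  refine this.congr_deriv ?_
  rw [show 3 - 1 = 2 from rfl]
  push_cast
  rw [inv_pow]
  ring

theorem GG_deriv2 (ρ n₁ n₂ : ℝ) {y : ℝ} (hy : y ≠ 0) :
    HasDerivAt (fun y : ℝ => n₁ ^ 2 / 8 * (y⁻¹) ^ 2 + n₁ * ρ / 2 - 3 * ρ ^ 2 / 2 * y ^ 2 - n₂)
      (-(n₁ ^ 2 / 4) * (y⁻¹) ^ 3 - 3 * ρ ^ 2 * y) y := by
  have : HasDerivAt (fun y : ℝ => n₁ ^ 2 / 8 * (y⁻¹) ^ 2 + n₁ * ρ / 2 - 3 * ρ ^ 2 / 2 * y ^ 2 - n₂)
      (n₁ ^ 2 / 8 * (((2 : ℕ) : ℝ) * (y⁻¹) ^ (2 - 1) * (-(y ^ 2)⁻¹)) -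
        3 * ρ ^ 2 / 2 * (((2 : ℕ) : ℝ) * y ^ (2 - 1) * 1)) y := by
    apply HasDerivAt.sub_const
    apply HasDerivAt.sub
    · apply HasDerivAt.add_const
      exact ((hasDerivAt_inv hy).pow 2).const_mul _
    · exact ((hasDerivAt_id y).pow 2).const_mul _
  refine this.congr_deriv ?_
  rw [show 2 - 1 = 1 from rfl]
  push_cast
  field_simp
  ring

theorem conj_int (f : ℝ → ℂ) {a b : ℝ} (hab : a ≤ b) :
    ‖∫ t in a..b, (starRingEnd ℂ) (f t)‖ = ‖∫ t in a..b, f t‖ := by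
  rw [intervalIntegral.integral_of_le hab, intervalIntegral.integral_of_le hab, integral_conj,
    Complex.norm_conj]

theorem II_case2 {K₁ A : ℝ} {a : ℝ × ℝ → ℂ} (ha : Amp 2 A a) {ρ L n₁ n₂ : ℝ} (hL : 0 < L)
    (hK₁ : 0 ≤ K₁)
    (hρn : 1/16 ≤ |ρ| ∨ 1/4 ≤ |n₁|)
    {𝒜' : ℝ → ℂ} (hc : Continuous 𝒜') (h𝒜 : ∀ y : ℝ,
    (1 / 4 < y → HasDerivAt (fun y : ℝ => ∫ x : ℝ, a (x, y) *
      ee (L * (2 * y * (x - (n₁ - 2 * ρ * y ^ 2) / (4 * y)) ^ 2))) (𝒜' y) y ∧
      ‖∫ x : ℝ, a (x, y) * ee (L * (2 * y * (x - (n₁ - 2 * ρ * y ^ 2) / (4 * y)) ^ 2))‖ ≤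
        K₁ * A / √L ∧ ‖𝒜' y‖ ≤ K₁ * A * (1 + |n₁|) / √L)) :
    ‖II a ρ L n₁ n₂‖ ≤ 237 * K₁ * A / L := by
  have hA := amp_nonneg ha
  have hπ := Real.pi_gt_three
  set 𝒜 : ℝ → ℂ := fun y : ℝ => ∫ x : ℝ, a (x, y) *
      ee (L * (2 * y * (x - (n₁ - 2 * ρ * y ^ 2) / (4 * y)) ^ 2)) with h𝒜def
  have e1 : II a ρ L n₁ n₂ = ∫ y in (3/8 : ℝ)..2, 𝒜 y * ee (L * GG ρ n₁ n₂ y) := by
    rw [II_iter ha]
    apply intervalIntegral.integral_congr
    intro y hy
    rw [uIcc_of_le (by norm_num)] at hy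
    have hy0 : y ≠ 0 := by intro h; rw [h] at hy; norm_num at hy
    dsimp only
    rw [← outer (f := fun x => a (x, y) * ee (L * (PP ρ x y - n₁ * x - n₂ * y)))
      (fun x hx => by rw [amp_zero_fst ha hx, zero_mul])]
    rw [h𝒜def]
    dsimp only
    rw [← integral_mul_const]
    congr 1
    funext x
    rw [sq_compl ρ n₁ n₂ x hy0, mul_add, ee_add]
    ring
  rw [e1]
  have hsL : 0 < √L := Real.sqrt_pos.mpr hL
  have hn0 : 0 ≤ |n₁| := abs_nonneg _
  set s : ℝ := √L * (1 + |n₁|) / 15 with hs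
  have hs0 : 0 < s := by positivity
  have hs2 : s ^ 2 = L * (1 + |n₁|) ^ 2 / 225 := by
    rw [hs, div_pow, mul_pow, Real.sq_sqrt hL.le]
    norm_num
  have hpos : ∀ y ∈ Icc (3/8 : ℝ) 2, y ≠ 0 := by
    intro y hy h
    rw [h] at hy; norm_num at hy
  have hinv : ∀ y ∈ Icc (3/8 : ℝ) 2, 1/2 ≤ y⁻¹ := by
    intro y hy
    have : 0 < y := by linarith [hy.1]
    rw [le_inv_comm₀ (by norm_num) this]
    linarith [hy.2]
  have hT : ∀ t ∈ Icc (3/8 : ℝ) 2, ‖∫ s in (3/8 : ℝ)..t, ee (L * GG ρ n₁ n₂ s)‖ ≤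
      2 * (1 / s + 2 / (s ^ 2 * (1 / s))) := by
    intro t ht
    rw [← conj_int _ ht.1]
    have hsub : Icc (3/8 : ℝ) t ⊆ Icc (3/8 : ℝ) 2 := Icc_subset_Icc_right ht.2
    have e2 : (fun r : ℝ => (starRingEnd ℂ) (ee (L * GG ρ n₁ n₂ r))) =
        fun r => ee (-L * GG ρ n₁ n₂ r) := by
      funext r
      rw [← ee_neg, neg_mul]
    rw [e2]
    apply loc_two (w := fun y => 2 * Real.pi * (-L *
        (n₁ ^ 2 / 8 * (y⁻¹) ^ 2 + n₁ * ρ / 2 - 3 * ρ ^ 2 / 2 * y ^ 2 - n₂)))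
      (w' := fun y => 2 * Real.pi * (-L * (-(n₁ ^ 2 / 4) * (y⁻¹) ^ 3 - 3 * ρ ^ 2 * y)))
      ht.1 (by positivity) (by positivity)
    · intro y hy
      exact ee_hasDeriv ((GG_deriv ρ n₁ n₂ (hpos y (hsub hy))).const_mul (-L))
    · intro y; exact ee_norm _
    · intro y hy
      exact ((GG_deriv2 ρ n₁ n₂ (hpos y (hsub hy))).const_mul (-L)).const_mul (2 * Real.pi)
    · apply ContinuousOn.mul continuousOn_const
      apply ContinuousOn.mul continuousOn_const
      apply ContinuousOn.sub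
      · apply ContinuousOn.mul continuousOn_const
        apply ContinuousOn.pow
        exact continuousOn_inv₀.mono (fun y hy => hpos y (hsub hy))
      · fun_prop
    · intro y hy
      have hy' := hsub hy
      have h1 := hinv y hy'
      have h2 : (1/8 : ℝ) ≤ (y⁻¹) ^ 3 := by
        calc (1/8 : ℝ) = (1/2) ^ 3 := by norm_num
          _ ≤ (y⁻¹) ^ 3 := by gcongr
      have h3 : n₁ ^ 2 / 32 + 9 / 8 * ρ ^ 2 ≤ n₁ ^ 2 / 4 * (y⁻¹) ^ 3 + 3 * ρ ^ 2 * y := by
        nlinarith [mul_nonneg (sq_nonneg n₁) (by linarith : (0:ℝ) ≤ (y⁻¹) ^ 3 - 1/8),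
          mul_nonneg (sq_nonneg ρ) (by linarith [hy'.1] : (0:ℝ) ≤ y - 3/8)]
      have h4 : (1 + |n₁|) ^ 2 / 225 ≤ 6 * (n₁ ^ 2 / 32 + 9 / 8 * ρ ^ 2) := by
        rcases lt_or_ge |n₁| (1/4) with h | h
        · have hr : 1/16 ≤ |ρ| := by
            rcases hρn with h' | h'
            · exact h'
            · linarith
          have hr2 : (1/16 : ℝ) ^ 2 ≤ ρ ^ 2 := by
            rw [← sq_abs ρ]; gcongr
          nlinarith [sq_nonneg n₁]
        · rw [← sq_abs n₁]
          nlinarith [sq_nonneg ρ]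
      have h5 : 6 * L * (n₁ ^ 2 / 32 + 9 / 8 * ρ ^ 2) ≤
          2 * Real.pi * (-L * (-(n₁ ^ 2 / 4) * (y⁻¹) ^ 3 - 3 * ρ ^ 2 * y)) := by
        have h6 : 0 ≤ n₁ ^ 2 / 32 + 9 / 8 * ρ ^ 2 := by positivity
        have e : 2 * Real.pi * (-L * (-(n₁ ^ 2 / 4) * (y⁻¹) ^ 3 - 3 * ρ ^ 2 * y)) =
            (2 * Real.pi * L) * (n₁ ^ 2 / 4 * (y⁻¹) ^ 3 + 3 * ρ ^ 2 * y) := by ring
        rw [e]
        apply mul_le_mul _ h3 h6 (by positivity)
        nlinarith
      rw [hs2]
      calc L * (1 + |n₁|) ^ 2 / 225 = L * ((1 + |n₁|) ^ 2 / 225) := by ring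
        _ ≤ L * (6 * (n₁ ^ 2 / 32 + 9 / 8 * ρ ^ 2)) := mul_le_mul_of_nonneg_left h4 hL.le
        _ = 6 * L * (n₁ ^ 2 / 32 + 9 / 8 * ρ ^ 2) := by ring
        _ ≤ _ := h5
  have hlt : ∀ t ∈ Icc (3/8 : ℝ) 2, (1/4 : ℝ) < t := fun t ht => by linarith [ht.1]
  have hmain := amp_ibp (g := fun y => ee (L * GG ρ n₁ n₂ y)) (A := 𝒜) (A' := 𝒜')
      (a := (3/8 : ℝ)) (b := 2) (S₀ := K₁ * A / √L) (S₁ := K₁ * A * (1 + |n₁|) / √L)
      (T := 2 * (1 / s + 2 / (s ^ 2 * (1 / s)))) (by norm_num)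
      (by
        intro y hy
        exact (ee_cont.continuousAt.comp
          ((GG_deriv ρ n₁ n₂ (hpos y hy)).continuousAt.const_mul L)).continuousWithinAt)
      (fun t ht => (h𝒜 t (hlt t ht)).1) hc.continuousOn
      (h𝒜 2 (by norm_num)).2.1
      (fun t ht => (h𝒜 t (hlt t ht)).2.2) (by positivity) hT
  refine hmain.trans ?_
  have e3 : 2 * (1 / s + 2 / (s ^ 2 * (1 / s))) = 90 / (√L * (1 + |n₁|)) := by
    rw [hs]
    field_simp
    ring
  rw [e3]
  have e4 : (K₁ * A / √L + K₁ * A * (1 + |n₁|) / √L * (2 - 3/8)) * (90 / (√L * (1 + |n₁|))) =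
      (K₁ * A * (90 * (1 + (13/8) * (1 + |n₁|)) / (1 + |n₁|))) / (√L * √L) := by
    field_simp
    ring
  rw [e4, Real.mul_self_sqrt hL.le]
  have h7 : 90 * (1 + (13/8) * (1 + |n₁|)) / (1 + |n₁|) ≤ 237 := by
    rw [div_le_iff₀ (by positivity)]
    nlinarith
  apply div_le_div_of_nonneg_right _ hL.le
  calc K₁ * A * (90 * (1 + (13/8) * (1 + |n₁|)) / (1 + |n₁|)) ≤ K₁ * A * 237 :=
        mul_le_mul_of_nonneg_left h7 (by positivity)
    _ = 237 * K₁ * A := by ring

end Pool.Agent.H304R4.CM.I1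

namespace Pool.Agent.H304R4.CM

open I1 in
theorem t_I1 (h1a : S_I1a) : S_I1 := by
  obtain ⟨K₁, hK₁, h⟩ := h1a
  refine ⟨237 * K₁ + 13, by linarith, ?_⟩
  intro A a ha ρ L n₁ n₂ hρ hL
  have hA := amp_nonneg ha
  have key : ∀ C : ℝ, C ≤ 237 * K₁ + 13 → ‖II a ρ L n₁ n₂‖ ≤ C * A / L →
      ‖II a ρ L n₁ n₂‖ ≤ (237 * K₁ + 13) * A / L := by
    intro C hC h
    exact h.trans (div_le_div_of_nonneg_right (mul_le_mul_of_nonneg_right hC hA) hL.le)
  rcases le_or_gt L 1 with hL1 | hL1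
  · apply key 3 (by linarith)
    refine (II_triv ha ρ L n₁ n₂).trans ?_
    rw [le_div_iff₀ hL]
    nlinarith
  · by_cases hc : |ρ| ≤ 1/16 ∧ |n₁| ≤ 1/4
    · exact key 13 (by linarith) (II_case1 ha hL hc.1 hc.2)
    · have hρn : 1/16 ≤ |ρ| ∨ 1/4 ≤ |n₁| := by
        by_contra h'
        push Not at h'
        exact hc ⟨h'.1.le, h'.2.le⟩
      obtain ⟨𝒜', hcont, h𝒜⟩ := h A a ha ρ L n₁ hρ hL1.le
      exact key (237 * K₁) (by linarith) (II_case2 ha hL (by linarith) hρn hcont h𝒜)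

end Pool.Agent.H304R4.CM
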