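import Pool.Agent.H304R4.CM.Stubs
import Pool.Agent.Helper646.Vdc

/-! # TEAM CM, task I1a: the inner quadratic integral (by helper279) -/

open Complex MeasureTheory Filter Topology Set

namespace Pool.Agent.H304R4.CM

namespace I1a

theorem norm_ee (x : ℝ) : ‖ee x‖ = 1 := by
  unfold ee
  exact Complex.norm_exp_ofReal_mul_I _

theorem ee_hasDerivAt {f : ℝ → ℝ} {f' x : ℝ} (h : HasDerivAt f f' x) :
    HasDerivAt (fun t => ee (f t)) (((2 * Real.pi * f' : ℝ) : ℂ) * I * ee (f x)) x := by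
  unfold ee
  have h1 : HasDerivAt (fun t => ((2 * Real.pi * f t : ℝ) : ℂ) * I)
      (((2 * Real.pi * f' : ℝ) : ℂ) * I) x :=
    ((h.const_mul (2 * Real.pi)).ofReal_comp).mul_const I
  exact (h1.cexp).congr_deriv (by ring)

theorem continuous_ee : Continuous ee := by
  unfold ee
  fun_prop

/-- the critical point in `x` -/
noncomputable def xi (ρ n y : ℝ) : ℝ := (n - 2 * ρ * y ^ 2) / (4 * y)

/-- its derivative -/
noncomputable def xi' (ρ n y : ℝ) : ℝ := -n / (4 * y ^ 2) - ρ / 2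

theorem xi_hasDerivAt (ρ n : ℝ) {y : ℝ} (hy : 0 < y) : HasDerivAt (xi ρ n) (xi' ρ n y) y := by
  unfold xi xi'
  have h1 : HasDerivAt (fun y : ℝ => n - 2 * ρ * y ^ 2) (-(2 * ρ * (2 * y))) y := by
    have := ((hasDerivAt_pow 2 y).const_mul (2 * ρ)).const_sub n
    refine this.congr_deriv ?_
    norm_num
  have h2 : HasDerivAt (fun y : ℝ => 4 * y) 4 y := by
    simpa using (hasDerivAt_id y).const_mul 4
  refine (h1.div h2 (by positivity)).congr_deriv ?_
  field_simp
  ring

/-- the exponential factor -/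
noncomputable def Ef (L ρ n x y : ℝ) : ℂ := ee (L * (2 * y * (x - xi ρ n y) ^ 2))

theorem norm_Ef (L ρ n x y : ℝ) : ‖Ef L ρ n x y‖ = 1 := norm_ee _

theorem Ef_x (L ρ n x y : ℝ) : HasDerivAt (fun x => Ef L ρ n x y)
    (((2 * Real.pi * (L * (4 * y * (x - xi ρ n y))) : ℝ) : ℂ) * I * Ef L ρ n x y) x := by
  unfold Ef
  refine ee_hasDerivAt (f := fun x => L * (2 * y * (x - xi ρ n y) ^ 2)) ?_
  have h1 : HasDerivAt (fun x : ℝ => (x - xi ρ n y) ^ 2) (2 * (x - xi ρ n y)) x := by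
    have := ((hasDerivAt_id x).sub_const (xi ρ n y)).pow 2
    refine this.congr_deriv ?_
    simp
  refine ((h1.const_mul (2 * y)).const_mul L).congr_deriv ?_
  ring

theorem Ef_y (L ρ n x : ℝ) {y : ℝ} (hy : 0 < y) : HasDerivAt (fun y => Ef L ρ n x y)
    (((2 * Real.pi * (L * (2 * (x - xi ρ n y) ^ 2 - 4 * y * (x - xi ρ n y) * xi' ρ n y)) : ℝ) : ℂ)
      * I * Ef L ρ n x y) y := by
  unfold Ef
  refine ee_hasDerivAt (f := fun y => L * (2 * y * (x - xi ρ n y) ^ 2)) ?_
  have h1 : HasDerivAt (fun y : ℝ => (x - xi ρ n y) ^ 2) (2 * (x - xi ρ n y) * (- xi' ρ n y)) y := by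
    have := ((xi_hasDerivAt ρ n hy).const_sub x).pow 2
    refine this.congr_deriv ?_
    simp
  have h2 : HasDerivAt (fun y : ℝ => 2 * y) 2 y := by
    simpa using (hasDerivAt_id y).const_mul 2
  refine ((h2.mul h1).const_mul L).congr_deriv ?_
  ring

/-- bound for the exponential integral -/
theorem Ef_int (ρ n : ℝ) {L y : ℝ} (hL : 1 ≤ L) (hy : 1 / 2 ≤ y) {t : ℝ} (ht : 0 ≤ t) :
    ‖∫ x in (0 : ℝ)..t, Ef L ρ n x y‖ ≤ 3 / √L := by
  have hL0 : 0 < L := by linarith
  have hs : 0 < √L := Real.sqrt_pos.2 hL0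
  have hss : √L * √L = L := Real.mul_self_sqrt hL0.le
  have hpi := Real.pi_gt_three
  have h1 := Pool.Agent.Helper646.Vdc.vdc_two (g := fun x => Ef L ρ n x y)
    (w := fun x => 2 * Real.pi * (L * (4 * y * (x - xi ρ n y))))
    (w' := fun _ => 2 * Real.pi * (L * (4 * y))) (a := 0) (b := t) (l := 12 * L) (d := 1 / √L)
    ht (by positivity) (by positivity)
    (fun x => (Ef_x L ρ n x y).congr_deriv (by ring))
    (fun x => norm_Ef L ρ n x y)
    (fun x => by
      have h3 : HasDerivAt (fun x : ℝ => x - xi ρ n y) 1 x := (hasDerivAt_id x).sub_const _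
      refine (((h3.const_mul (4 * y)).const_mul L).const_mul (2 * Real.pi)).congr_deriv ?_
      ring)
    continuous_const
    (fun x _ => by
      have h4 : 12 * L ≤ 4 * Real.pi * L := by nlinarith
      have h5 : 4 * Real.pi * L ≤ 2 * Real.pi * (L * (4 * y)) := by
        have : 0 ≤ Real.pi * L := by positivity
        nlinarith
      linarith)
  refine h1.trans ?_
  have h2 : 12 * L * (1 / √L) = 12 * √L := by
    rw [mul_one_div, mul_div_assoc, div_eq_iff hs.ne'.symm.symm |>.2 hss.symm]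
  rw [h2]
  have h3 : 2 * (1 / √L + 2 / (12 * √L)) = (7 / 3) / √L := by
    field_simp
    norm_num
  rw [h3]
  gcongr
  norm_num

/-- exponential integral with an amplitude vanishing at the end points -/
theorem amp_int (ρ n : ℝ) {L y : ℝ} (hL : 1 ≤ L) (hy : 1 / 2 ≤ y) (b b' : ℝ → ℂ)
    (hb : ∀ x, HasDerivAt b (b' x) x) (hb'c : Continuous b') (h0 : b 0 = 0) (h3 : b 3 = 0) (M : ℝ)
    (hM : ∀ x ∈ Icc (0 : ℝ) 3, ‖b' x‖ ≤ M) :
    ‖∫ x in (0 : ℝ)..3, b x * Ef L ρ n x y‖ ≤ 9 * M / √L := by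
  have hL0 : 0 < L := by linarith
  have hs : 0 < √L := Real.sqrt_pos.2 hL0
  have hEc : Continuous (fun x => Ef L ρ n x y) :=
    continuous_iff_continuousAt.2 fun x => (Ef_x L ρ n x y).continuousAt
  have hM0 : 0 ≤ M := (norm_nonneg _).trans (hM 0 ⟨le_rfl, by norm_num⟩)
  have hI : ∀ t, HasDerivAt (fun t => ∫ x in (0 : ℝ)..t, Ef L ρ n x y) (Ef L ρ n t y) t := fun t =>
    intervalIntegral.integral_hasDerivAt_right (hEc.intervalIntegrable _ _)
      (hEc.stronglyMeasurableAtFilter _ _) hEc.continuousAt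
  have h1 := intervalIntegral.integral_mul_deriv_eq_deriv_mul (a := 0) (b := 3) (u := b) (u' := b')
    (v := fun t => ∫ x in (0 : ℝ)..t, Ef L ρ n x y) (v' := fun x => Ef L ρ n x y)
    (fun x _ => hb x) (fun x _ => hI x) (hb'c.intervalIntegrable _ _) (hEc.intervalIntegrable _ _)
  rw [h1, h0, h3, zero_mul, zero_mul, sub_zero, zero_sub, norm_neg]
  have h2 := intervalIntegral.norm_integral_le_of_norm_le_const (a := 0) (b := 3)
    (f := fun x => b' x * ∫ x in (0 : ℝ)..x, Ef L ρ n x y) (C := M * (3 / √L)) (fun x hx => by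
      rw [uIoc_of_le (by norm_num)] at hx
      rw [norm_mul]
      exact mul_le_mul (hM x ⟨hx.1.le, hx.2⟩) (Ef_int ρ n hL hy hx.1.le) (norm_nonneg _) hM0)
  refine h2.trans (le_of_eq ?_)
  norm_num
  ring

section amp

variable {A : ℝ} {a : ℝ × ℝ → ℂ}

/-- derivative in direction `v` -/
noncomputable def dv (a : ℝ × ℝ → ℂ) (v : ℝ × ℝ) (z : ℝ × ℝ) : ℂ := fderiv ℝ a z v

theorem dv_smooth (ha : ContDiff ℝ (⊤ : ℕ∞) a) (v : ℝ × ℝ) : ContDiff ℝ (⊤ : ℕ∞) (dv a v) := by
  unfold dv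
  exact (ha.fderiv_right (m := (⊤ : ℕ∞)) (by simp)).clm_apply contDiff_const

theorem has_x (ha : ContDiff ℝ (⊤ : ℕ∞) a) (x y : ℝ) :
    HasDerivAt (fun x => a (x, y)) (dv a (1, 0) (x, y)) x := by
  have h1 : HasFDerivAt a (fderiv ℝ a (x, y)) (x, y) :=
    (ha.differentiable (by simp) (x, y)).hasFDerivAt
  have h2 : HasDerivAt (fun x : ℝ => (x, y)) ((1 : ℝ), (0 : ℝ)) x :=
    (hasDerivAt_id x).prodMk (hasDerivAt_const x y)
  exact h1.comp_hasDerivAt x h2

theorem has_y (ha : ContDiff ℝ (⊤ : ℕ∞) a) (x y : ℝ) :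
    HasDerivAt (fun y => a (x, y)) (dv a (0, 1) (x, y)) y := by
  have h1 : HasFDerivAt a (fderiv ℝ a (x, y)) (x, y) :=
    (ha.differentiable (by simp) (x, y)).hasFDerivAt
  have h2 : HasDerivAt (fun y : ℝ => (x, y)) ((0 : ℝ), (1 : ℝ)) y :=
    (hasDerivAt_const y x).prodMk (hasDerivAt_id y)
  exact h1.comp_hasDerivAt y h2

theorem norm_e1 : ‖((1 : ℝ), (0 : ℝ))‖ = 1 := by simp [Prod.norm_def]

theorem norm_e2 : ‖((0 : ℝ), (1 : ℝ))‖ = 1 := by simp [Prod.norm_def]

theorem amp_nonneg (ha : Amp 2 A a) : 0 ≤ A :=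
  (norm_nonneg _).trans (ha.bound 0 (by norm_num) (0, 0))

theorem dv_bound (ha : Amp 2 A a) {v : ℝ × ℝ} (hv : ‖v‖ = 1) (z : ℝ × ℝ) : ‖dv a v z‖ ≤ A := by
  unfold dv
  have h1 := ha.bound 1 (by norm_num) z
  rw [norm_iteratedFDeriv_one] at h1
  calc ‖fderiv ℝ a z v‖ ≤ ‖fderiv ℝ a z‖ * ‖v‖ := ContinuousLinearMap.le_opNorm _ _
    _ ≤ A := by rw [hv, mul_one]; exact h1

theorem dv_dv_bound (ha : Amp 2 A a) {u v : ℝ × ℝ} (hu : ‖u‖ = 1) (hv : ‖v‖ = 1) (z : ℝ × ℝ) :
    ‖dv (dv a v) u z‖ ≤ A := by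
  have hd : DifferentiableAt ℝ (fderiv ℝ a) z :=
    ((ha.smooth.fderiv_right (m := (⊤ : ℕ∞)) (by simp)).differentiable (by simp)) z
  have h0 : dv (dv a v) u z = (fderiv ℝ (fderiv ℝ a) z u) v := by
    unfold dv
    have h1 : HasFDerivAt (fun z => fderiv ℝ a z v)
        (((ContinuousLinearMap.apply ℝ ℂ v).comp (fderiv ℝ (fderiv ℝ a) z))) z :=
      (ContinuousLinearMap.apply ℝ ℂ v).hasFDerivAt.comp z hd.hasFDerivAt
    rw [h1.fderiv]
    rfl
  rw [h0]
  have h1 := ha.bound 2 le_rfl z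
  rw [show (2 : ℕ) = 1 + 1 from rfl, ← norm_iteratedFDeriv_fderiv, norm_iteratedFDeriv_one] at h1
  calc ‖(fderiv ℝ (fderiv ℝ a) z u) v‖ ≤ ‖fderiv ℝ (fderiv ℝ a) z u‖ * ‖v‖ :=
        ContinuousLinearMap.le_opNorm _ _
    _ ≤ (‖fderiv ℝ (fderiv ℝ a) z‖ * ‖u‖) * ‖v‖ :=
        mul_le_mul_of_nonneg_right (ContinuousLinearMap.le_opNorm _ _) (norm_nonneg _)
    _ ≤ A := by rw [hu, hv, mul_one, mul_one]; exact h1

/-- `a` vanishes near the points outside of the square -/
theorem ev_zero (ha : Amp 2 A a) {z : ℝ × ℝ} (hz : z.1 < 1 / 2 ∨ 2 < z.1 ∨ z.2 < 1 / 2 ∨ 2 < z.2) :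
    a =ᶠ[𝓝 z] fun _ => 0 := by
  have h1 : ∀ z' : ℝ × ℝ, (z'.1 < 1 / 2 ∨ 2 < z'.1 ∨ z'.2 < 1 / 2 ∨ 2 < z'.2) → a z' = 0 := by
    intro z' hz'
    by_contra hc
    obtain ⟨⟨h1, h2⟩, h3, h4⟩ := ha.supp z' hc
    rcases hz' with h | h | h | h <;> linarith
  have c1 : ContinuousAt (fun z : ℝ × ℝ => z.1) z := continuous_fst.continuousAt
  have c2 : ContinuousAt (fun z : ℝ × ℝ => z.2) z := continuous_snd.continuousAt
  rcases hz with h | h | h | h
  · filter_upwards [c1.eventually (gt_mem_nhds h)] with z' hz'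
    exact h1 z' (Or.inl hz')
  · filter_upwards [c1.eventually (lt_mem_nhds h)] with z' hz'
    exact h1 z' (Or.inr (Or.inl hz'))
  · filter_upwards [c2.eventually (gt_mem_nhds h)] with z' hz'
    exact h1 z' (Or.inr (Or.inr (Or.inl hz')))
  · filter_upwards [c2.eventually (lt_mem_nhds h)] with z' hz'
    exact h1 z' (Or.inr (Or.inr (Or.inr hz')))

theorem dv_zero (ha : Amp 2 A a) (v : ℝ × ℝ) {z : ℝ × ℝ}
    (hz : z.1 < 1 / 2 ∨ 2 < z.1 ∨ z.2 < 1 / 2 ∨ 2 < z.2) : dv a v z = 0 := by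
  unfold dv
  rw [(ev_zero ha hz).fderiv_eq]
  simp

theorem a_zero (ha : Amp 2 A a) {z : ℝ × ℝ}
    (hz : z.1 < 1 / 2 ∨ 2 < z.1 ∨ z.2 < 1 / 2 ∨ 2 < z.2) : a z = 0 := (ev_zero ha hz).eq_of_nhds

/-- the new amplitude -/
noncomputable def bf (a : ℝ × ℝ → ℂ) (ρ n x y Y : ℝ) : ℂ :=
  dv a (0, 1) (x, y) + (xi' ρ n Y : ℂ) * dv a (1, 0) (x, y) -
    (a (x, y) + ((x - xi ρ n Y : ℝ) : ℂ) * dv a (1, 0) (x, y)) / ((2 * Y : ℝ) : ℂ)

/-- its `x`-derivative -/
noncomputable def bf' (a : ℝ × ℝ → ℂ) (ρ n x y Y : ℝ) : ℂ :=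
  dv (dv a (0, 1)) (1, 0) (x, y) + (xi' ρ n Y : ℂ) * dv (dv a (1, 0)) (1, 0) (x, y) -
    (dv a (1, 0) (x, y) + (dv a (1, 0) (x, y) +
      ((x - xi ρ n Y : ℝ) : ℂ) * dv (dv a (1, 0)) (1, 0) (x, y))) / ((2 * Y : ℝ) : ℂ)

theorem bf_x (ha : Amp 2 A a) (ρ n x y Y : ℝ) :
    HasDerivAt (fun x => bf a ρ n x y Y) (bf' a ρ n x y Y) x := by
  unfold bf bf'
  have h1 := has_x (dv_smooth ha.smooth (0, 1)) x y
  have h2 := has_x (dv_smooth ha.smooth (1, 0)) x y
  have h3 := has_x ha.smooth x y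
  have h4 : HasDerivAt (fun x : ℝ => ((x - xi ρ n Y : ℝ) : ℂ)) 1 x := by
    simpa using ((hasDerivAt_id x).sub_const (xi ρ n Y)).ofReal_comp
  refine ((h1.add (h2.const_mul _)).sub ((h3.add (h4.mul h2)).div_const _)).congr_deriv ?_
  ring

theorem bf_bound (ha : Amp 2 A a) {ρ n x y : ℝ} (hρ : |ρ| ≤ 1) (hx : x ∈ Icc (0 : ℝ) 3)
    (hy : 1 / 2 ≤ y) (hy2 : y ≤ 2) : ‖bf' a ρ n x y y‖ ≤ 8 * A * (1 + |n|) := by
  have hA := amp_nonneg ha
  have hn := abs_nonneg n
  have e1 := dv_bound ha norm_e1 (x, y)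
  have e2 := dv_dv_bound ha (u := (1, 0)) (v := (0, 1)) norm_e1 norm_e2 (x, y)
  have e3 := dv_dv_bound ha (u := (1, 0)) (v := (1, 0)) norm_e1 norm_e1 (x, y)
  have hy0 : 0 < y := by linarith
  have hx1 : |xi' ρ n y| ≤ |n| + 1 / 2 := by
    unfold xi'
    have h1 : |-n / (4 * y ^ 2)| ≤ |n| := by
      rw [abs_div, abs_neg, abs_of_pos (by positivity : (0 : ℝ) < 4 * y ^ 2)]
      rw [div_le_iff₀ (by positivity)]
      have : 1 ≤ 4 * y ^ 2 := by nlinarith
      nlinarith
    have h2 : |ρ / 2| ≤ 1 / 2 := by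
      rw [abs_div, abs_of_pos (by norm_num : (0 : ℝ) < 2)]
      linarith
    calc |-n / (4 * y ^ 2) - ρ / 2| ≤ |-n / (4 * y ^ 2)| + |ρ / 2| := abs_sub _ _
      _ ≤ _ := by linarith
  have hx2 : |x - xi ρ n y| ≤ 4 + |n| / 2 := by
    have h0 : xi ρ n y = n / (4 * y) - ρ * y / 2 := by
      unfold xi
      field_simp
      ring
    have h1 : |n / (4 * y)| ≤ |n| / 2 := by
      rw [abs_div, abs_of_pos (by positivity : (0 : ℝ) < 4 * y)]
      rw [div_le_div_iff₀ (by positivity) (by norm_num)]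
      nlinarith
    have h2 : |ρ * y / 2| ≤ 1 := by
      rw [abs_div, abs_mul, abs_of_pos (by norm_num : (0 : ℝ) < 2), abs_of_pos hy0]
      rw [div_le_one (by norm_num)]
      nlinarith [abs_nonneg ρ]
    have h3 : |x| ≤ 3 := by rw [abs_of_nonneg hx.1]; exact hx.2
    rw [h0]
    calc |x - (n / (4 * y) - ρ * y / 2)| ≤ |x| + |n / (4 * y) - ρ * y / 2| := abs_sub _ _
      _ ≤ |x| + (|n / (4 * y)| + |ρ * y / 2|) := by gcongr; exact abs_sub _ _
      _ ≤ _ := by linarith
  unfold bf'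
  have t1 : ‖(xi' ρ n y : ℂ) * dv (dv a (1, 0)) (1, 0) (x, y)‖ ≤ (|n| + 1 / 2) * A := by
    rw [norm_mul, Complex.norm_real, Real.norm_eq_abs]
    exact mul_le_mul hx1 e3 (norm_nonneg _) (by positivity)
  have t2 : ‖((x - xi ρ n y : ℝ) : ℂ) * dv (dv a (1, 0)) (1, 0) (x, y)‖ ≤ (4 + |n| / 2) * A := by
    rw [norm_mul, Complex.norm_real, Real.norm_eq_abs]
    exact mul_le_mul hx2 e3 (norm_nonneg _) (by positivity)
  have t3 : ‖(dv a (1, 0) (x, y) + (dv a (1, 0) (x, y) +
      ((x - xi ρ n y : ℝ) : ℂ) * dv (dv a (1, 0)) (1, 0) (x, y))) / ((2 * y : ℝ) : ℂ)‖ ≤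
      A + (A + (4 + |n| / 2) * A) := by
    rw [norm_div, Complex.norm_real, Real.norm_eq_abs, abs_of_pos (by positivity : (0 : ℝ) < 2 * y)]
    refine (div_le_self (norm_nonneg _) (by linarith)).trans ?_
    refine (norm_add_le _ _).trans (add_le_add e1 ((norm_add_le _ _).trans (add_le_add e1 t2)))
  refine (norm_sub_le _ _).trans ((add_le_add (norm_add_le _ _) t3).trans ?_)
  have : ‖dv (dv a (0, 1)) (1, 0) (x, y)‖ + ‖(xi' ρ n y : ℂ) * dv (dv a (1, 0)) (1, 0) (x, y)‖ ≤
    A + (|n| + 1 / 2) * A := add_le_add e2 t1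
  nlinarith [mul_nonneg hA hn]

end amp

/-- the truncated `y` -/
noncomputable def yh (y : ℝ) : ℝ := max y (1 / 4)

theorem yh_pos (y : ℝ) : 0 < yh y := lt_of_lt_of_le (by norm_num) (le_max_right _ _)

theorem yh_eq {y : ℝ} (hy : 1 / 4 < y) : yh y = y := max_eq_left hy.le

theorem yh_cont : Continuous yh := by
  unfold yh
  fun_prop

theorem xi_cont (ρ n : ℝ) : Continuous (fun y => xi ρ n (yh y)) := by
  have h := yh_cont
  unfold xi
  refine Continuous.div (by fun_prop) (by fun_prop) fun y => ?_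
  have := yh_pos y
  positivity

theorem xi'_cont (ρ n : ℝ) : Continuous (fun y => xi' ρ n (yh y)) := by
  have h := yh_cont
  unfold xi'
  refine Continuous.sub (Continuous.div (by fun_prop) (by fun_prop) fun y => ?_) continuous_const
  have := yh_pos y
  positivity

theorem Ef_cont (L ρ n : ℝ) : Continuous (fun p : ℝ × ℝ => Ef L ρ n p.2 (yh p.1)) := by
  unfold Ef
  have h := yh_cont
  have h2 := xi_cont ρ n
  refine continuous_ee.comp ?_
  have h3 : Continuous (fun p : ℝ × ℝ => xi ρ n (yh p.1)) := h2.comp continuous_fst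
  have h4 : Continuous (fun p : ℝ × ℝ => yh p.1) := h.comp continuous_fst
  fun_prop

end I1a

open I1a in
theorem t_I1a : S_I1a := by
  refine ⟨72, by norm_num, ?_⟩
  intro A a ha ρ L n hρ hL
  have hA := amp_nonneg ha
  have hac : Continuous a := ha.smooth.continuous
  have hd1 : Continuous (dv a (1, 0)) := (dv_smooth ha.smooth (1, 0)).continuous
  have hd2 : Continuous (dv a (0, 1)) := (dv_smooth ha.smooth (0, 1)).continuous
  have hd11 : Continuous (dv (dv a (1, 0)) (1, 0)) :=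
    (dv_smooth (dv_smooth ha.smooth (1, 0)) (1, 0)).continuous
  have hd21 : Continuous (dv (dv a (0, 1)) (1, 0)) :=
    (dv_smooth (dv_smooth ha.smooth (0, 1)) (1, 0)).continuous
  have hyc := yh_cont
  have hyc1 : Continuous (fun p : ℝ × ℝ => yh p.1) := hyc.comp continuous_fst
  have hxc1 : Continuous (fun p : ℝ × ℝ => xi ρ n (yh p.1)) := (xi_cont ρ n).comp continuous_fst
  have hxc2 : Continuous (fun p : ℝ × ℝ => xi' ρ n (yh p.1)) := (xi'_cont ρ n).comp continuous_fst
  have hEc := Ef_cont L ρ n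
  have hsw : Continuous (fun p : ℝ × ℝ => (p.2, p.1)) := by fun_prop
  have ca : Continuous (fun p : ℝ × ℝ => a (p.2, p.1)) := hac.comp hsw
  have c1 : Continuous (fun p : ℝ × ℝ => dv a (1, 0) (p.2, p.1)) := hd1.comp hsw
  have c2 : Continuous (fun p : ℝ × ℝ => dv a (0, 1) (p.2, p.1)) := hd2.comp hsw
  have hbc : Continuous (fun p : ℝ × ℝ => bf a ρ n p.2 p.1 (yh p.1)) := by
    unfold bf
    refine Continuous.sub (c2.add ((Complex.continuous_ofReal.comp hxc2).mul c1))
      (Continuous.div (ca.add ((Complex.continuous_ofReal.comp (continuous_snd.sub hxc1)).mul c1))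
        (Complex.continuous_ofReal.comp (continuous_const.mul hyc1)) ?_)
    intro p
    have := yh_pos p.1
    have h5 : (2 * yh p.1) ≠ 0 := by positivity
    exact Complex.ofReal_ne_zero.2 h5
  refine ⟨fun y => ∫ x in (0 : ℝ)..3, bf a ρ n x y (yh y) * Ef L ρ n x (yh y), ?_, ?_⟩
  · exact intervalIntegral.continuous_parametric_intervalIntegral_of_continuous'
      (f := fun y x => bf a ρ n x y (yh y) * Ef L ρ n x (yh y)) (hbc.mul hEc) 0 3
  · intro y hy
    have hy0 : 0 < y := by linarith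
    -- the integral over the line is the integral over `[0, 3]`
    have hline : ∀ y : ℝ, ∫ x : ℝ, a (x, y) *
        ee (L * (2 * y * (x - (n - 2 * ρ * y ^ 2) / (4 * y)) ^ 2)) =
        ∫ x in (0 : ℝ)..3, a (x, y) * Ef L ρ n x y := by
      intro y
      rw [intervalIntegral.integral_eq_integral_of_support_subset]
      · rfl
      · intro x hx
        have h1 : a (x, y) ≠ 0 := fun h => hx (by simp [h])
        obtain ⟨⟨h2, h3⟩, _⟩ := ha.supp _ h1
        simp only at h2 h3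
        exact ⟨by linarith, by linarith⟩
    have hfun : (fun y : ℝ => ∫ x : ℝ, a (x, y) *
        ee (L * (2 * y * (x - (n - 2 * ρ * y ^ 2) / (4 * y)) ^ 2))) =
        fun y => ∫ x in (0 : ℝ)..3, a (x, y) * Ef L ρ n x y := funext hline
    -- the derivative of the integrand
    set F' : ℝ → ℝ → ℂ := fun y x => dv a (0, 1) (x, y) * Ef L ρ n x (yh y) +
      a (x, y) * (((2 * Real.pi * (L * (2 * (x - xi ρ n (yh y)) ^ 2 -
        4 * yh y * (x - xi ρ n (yh y)) * xi' ρ n (yh y))) : ℝ) : ℂ) * I * Ef L ρ n x (yh y))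
      with hF'
    have hF'c : Continuous (fun p : ℝ × ℝ => F' p.1 p.2) := by
      simp only [hF']
      refine (c2.mul hEc).add (ca.mul (((Complex.continuous_ofReal.comp ?_).mul
        continuous_const).mul hEc))
      fun_prop
    have hEy : Continuous (fun x => Ef L ρ n x y) :=
      continuous_iff_continuousAt.2 fun x => (Ef_x L ρ n x y).continuousAt
    have hder : HasDerivAt (fun y => ∫ x in (0 : ℝ)..3, a (x, y) * Ef L ρ n x y)
        (∫ x in (0 : ℝ)..3, F' y x) y := by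
      set s : Set ℝ := Icc ((y + 1 / 4) / 2) (y + 1) with hs
      have hsn : s ∈ 𝓝 y := Icc_mem_nhds (by linarith) (by linarith)
      obtain ⟨M, hM⟩ : ∃ M, ∀ p ∈ s ×ˢ Icc (0 : ℝ) 3, ‖F' p.1 p.2‖ ≤ M :=
        (isCompact_Icc.prod isCompact_Icc).exists_bound_of_continuousOn hF'c.continuousOn
      have hac2 : ∀ y, Continuous (fun x => a (x, y)) := fun y => hac.comp (by fun_prop)
      have := intervalIntegral.hasDerivAt_integral_of_dominated_loc_of_deriv_le (μ := volume)
        (F := fun y x => a (x, y) * Ef L ρ n x y) (F' := F') (x₀ := y) (a := 0) (b := 3)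
        (bound := fun _ => M) (s := s) hsn ?_ ?_ ?_ ?_ ?_ ?_
      · exact this.2
      · refine Eventually.of_forall fun y' => ?_
        exact ((hac2 y').mul (continuous_iff_continuousAt.2 fun x =>
          (Ef_x L ρ n x y').continuousAt)).aestronglyMeasurable
      · exact ((hac2 y).mul hEy).intervalIntegrable _ _
      · exact (hF'c.comp (by fun_prop : Continuous (fun x : ℝ => (y, x)))).aestronglyMeasurable
      · refine Eventually.of_forall fun x hx y' hy' => ?_
        rw [uIoc_of_le (by norm_num)] at hx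
        exact hM (y', x) ⟨hy', hx.1.le, hx.2⟩
      · exact intervalIntegrable_const
      · refine Eventually.of_forall fun x _ y' hy' => ?_
        have hy'4 : 1 / 4 < y' := by
          have := hy'.1
          linarith
        have h1 := (has_y ha.smooth x y').mul (Ef_y L ρ n x (by linarith : 0 < y'))
        refine h1.congr_deriv ?_
        simp only [hF', yh_eq hy'4]
    -- integration by parts
    have hparts : ∫ x in (0 : ℝ)..3, F' y x =
        ∫ x in (0 : ℝ)..3, bf a ρ n x y (yh y) * Ef L ρ n x (yh y) := by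
      have hi1 : IntervalIntegrable (fun x => F' y x) volume 0 3 :=
        (hF'c.comp (by fun_prop : Continuous (fun x : ℝ => (y, x)))).intervalIntegrable _ _
      have hi2 : IntervalIntegrable (fun x => bf a ρ n x y (yh y) * Ef L ρ n x (yh y)) volume 0 3 :=
        ((hbc.mul hEc).comp (by fun_prop : Continuous (fun x : ℝ => (y, x)))).intervalIntegrable _ _
      rw [← sub_eq_zero, ← intervalIntegral.integral_sub hi1 hi2]
      have hW : ∀ x ∈ uIcc (0 : ℝ) 3, HasDerivAt
          (fun x => a (x, y) * ((((x - xi ρ n y) / (2 * y) - xi' ρ n y : ℝ) : ℂ) * Ef L ρ n x y))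
          (F' y x - bf a ρ n x y (yh y) * Ef L ρ n x (yh y)) x := by
        intro x _
        have h1 := has_x ha.smooth x y
        have h2 : HasDerivAt (fun x : ℝ => (((x - xi ρ n y) / (2 * y) - xi' ρ n y : ℝ) : ℂ))
            ((1 / (2 * y) : ℝ) : ℂ) x :=
          ((((hasDerivAt_id x).sub_const (xi ρ n y)).div_const (2 * y)).sub_const
            (xi' ρ n y)).ofReal_comp
        refine (h1.mul (h2.mul (Ef_x L ρ n x y))).congr_deriv ?_
        simp only [hF', bf, yh_eq hy, Pi.mul_apply]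
        push_cast
        have hyc : (y : ℂ) ≠ 0 := by exact_mod_cast hy0.ne'
        field_simp
        ring
      rw [intervalIntegral.integral_eq_sub_of_hasDerivAt hW (hi1.sub hi2)]
      rw [a_zero ha (z := (3, y)) (Or.inr (Or.inl (by norm_num))),
        a_zero ha (z := (0, y)) (Or.inl (by norm_num))]
      simp
    refine ⟨?_, ?_, ?_⟩
    · rw [hfun]
      exact hder.congr_deriv hparts
    · rw [hline]
      by_cases hyr : 1 / 2 ≤ y ∧ y ≤ 2
      · have h1 := amp_int ρ n hL hyr.1 (fun x => a (x, y)) (fun x => dv a (1, 0) (x, y))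
          (fun x => has_x ha.smooth x y) (hd1.comp (by fun_prop))
          (a_zero ha (z := (0, y)) (Or.inl (by norm_num)))
          (a_zero ha (z := (3, y)) (Or.inr (Or.inl (by norm_num)))) A
          (fun x _ => dv_bound ha norm_e1 _)
        refine h1.trans ?_
        gcongr
        norm_num
      · have h1 : ∀ x, a (x, y) = 0 := by
          intro x
          refine a_zero ha (Or.inr (Or.inr ?_))
          by_contra hc
          push Not at hc
          exact hyr hc
        simp only [h1, zero_mul, intervalIntegral.integral_zero, norm_zero]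
        positivity
    · simp only
      rw [yh_eq hy]
      by_cases hyr : 1 / 2 ≤ y ∧ y ≤ 2
      · have h1 := amp_int ρ n hL hyr.1 (fun x => bf a ρ n x y y) (fun x => bf' a ρ n x y y)
          (fun x => bf_x ha ρ n x y y) ?_ ?_ ?_ (8 * A * (1 + |n|))
          (fun x hx => bf_bound ha hρ hx hyr.1 hyr.2)
        · refine h1.trans (le_of_eq ?_)
          ring
        · unfold bf'
          have e1 : Continuous (fun x : ℝ => (x, y)) := by fun_prop
          have e2 := hd1.comp e1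
          have e3 := hd11.comp e1
          have e4 := hd21.comp e1
          simp only [Function.comp_def] at e2 e3 e4
          fun_prop
        · simp only [bf]
          rw [a_zero ha (z := (0, y)) (Or.inl (by norm_num)),
            dv_zero ha _ (z := (0, y)) (Or.inl (by norm_num)),
            dv_zero ha _ (z := (0, y)) (Or.inl (by norm_num))]
          simp
        · simp only [bf]
          rw [a_zero ha (z := (3, y)) (Or.inr (Or.inl (by norm_num))),
            dv_zero ha _ (z := (3, y)) (Or.inr (Or.inl (by norm_num))),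
            dv_zero ha _ (z := (3, y)) (Or.inr (Or.inl (by norm_num)))]
          simp
      · have hz : ∀ x : ℝ, (x, y).1 < 1 / 2 ∨ 2 < (x, y).1 ∨ (x, y).2 < 1 / 2 ∨ 2 < (x, y).2 := by
          intro x
          right; right
          by_contra hc
          push Not at hc
          exact hyr hc
        have h1 : ∀ x, bf a ρ n x y y = 0 := by
          intro x
          simp only [bf]
          rw [a_zero ha (hz x), dv_zero ha _ (hz x), dv_zero ha _ (hz x)]
          simp
        simp only [h1, zero_mul, intervalIntegral.integral_zero, norm_zero]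
        positivity

end Pool.Agent.H304R4.CM
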