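import Pool.Agent.H304R4.CM.Stubs

/-! # TEAM CM: tasks I3 and I4 (two dimensional integration by parts). -/

open Complex MeasureTheory Filter Topology

namespace Pool.Agent.H304R4.CM

namespace TI3

/-- the partial derivatives of the phase -/
noncomputable def E1 (ρ n₁ : ℝ) (z : ℝ × ℝ) : ℝ := 4 * z.1 * z.2 + 2 * ρ * z.2 ^ 2 - n₁
noncomputable def E2 (ρ n₂ : ℝ) (z : ℝ × ℝ) : ℝ := 2 * z.1 ^ 2 + 4 * ρ * z.1 * z.2 - n₂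

/-- the oscillating factor -/
noncomputable def GG (ρ L n₁ n₂ : ℝ) (z : ℝ × ℝ) : ℂ :=
  ee (L * (PP ρ z.1 z.2 - n₁ * z.1 - n₂ * z.2))

lemma GG_hasFDerivAt (ρ L n₁ n₂ : ℝ) (z : ℝ × ℝ) :
    HasFDerivAt (GG ρ L n₁ n₂)
      ((GG ρ L n₁ n₂ z * (2 * Real.pi * L * I : ℂ)) •
        (Complex.ofRealCLM.comp ((E1 ρ n₁ z) • ContinuousLinearMap.fst ℝ ℝ ℝ +
          (E2 ρ n₂ z) • ContinuousLinearMap.snd ℝ ℝ ℝ))) z := by
  have h1 : HasFDerivAt (fun z : ℝ × ℝ => z.1) (ContinuousLinearMap.fst ℝ ℝ ℝ) z :=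
    hasFDerivAt_fst
  have h2 : HasFDerivAt (fun z : ℝ × ℝ => z.2) (ContinuousLinearMap.snd ℝ ℝ ℝ) z :=
    hasFDerivAt_snd
  have h3 : HasFDerivAt (fun z : ℝ × ℝ => PP ρ z.1 z.2 - n₁ * z.1 - n₂ * z.2)
      ((E1 ρ n₁ z) • ContinuousLinearMap.fst ℝ ℝ ℝ +
          (E2 ρ n₂ z) • ContinuousLinearMap.snd ℝ ℝ ℝ) z := by
    have := ((((h1.pow 2).mul h2).const_mul 2).add ((h1.mul (h2.pow 2)).const_mul (2 * ρ))).sub
      (h1.const_mul n₁) |>.sub (h2.const_mul n₂)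
    have h4 := this.congr_of_eventuallyEq
      (f₁ := fun z : ℝ × ℝ => PP ρ z.1 z.2 - n₁ * z.1 - n₂ * z.2)
      (Filter.Eventually.of_forall fun z => by
        simp only [PP, Pi.add_apply, Pi.mul_apply, Pi.sub_apply]; ring)
    refine h4.congr_fderiv ?_
    ext <;> simp [E1, E2] <;> ring
  have h5 : HasFDerivAt (fun z : ℝ × ℝ => (((2 * Real.pi * (L * (PP ρ z.1 z.2 - n₁ * z.1
      - n₂ * z.2)) : ℝ) : ℂ) * I))
      ((2 * Real.pi * L * I : ℂ) • (Complex.ofRealCLM.comp ((E1 ρ n₁ z) •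
        ContinuousLinearMap.fst ℝ ℝ ℝ + (E2 ρ n₂ z) • ContinuousLinearMap.snd ℝ ℝ ℝ))) z := by
    have h6 := (Complex.ofRealCLM.hasFDerivAt.comp z h3).const_mul (2 * Real.pi * L * I : ℂ)
    refine h6.congr_of_eventuallyEq (Filter.Eventually.of_forall fun z => ?_)
    simp only [Function.comp, Complex.ofRealCLM_apply]
    push_cast
    ring
  have h7 := h5.cexp
  rw [smul_smul] at h7
  exact h7

lemma GG_fderiv1 (ρ L n₁ n₂ : ℝ) (z : ℝ × ℝ) :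
    fderiv ℝ (GG ρ L n₁ n₂) z (1, 0) = (2 * Real.pi * L * I : ℂ) * ((E1 ρ n₁ z : ℝ) : ℂ) *
      GG ρ L n₁ n₂ z := by
  rw [(GG_hasFDerivAt ρ L n₁ n₂ z).fderiv]
  simp
  ring

lemma GG_fderiv2 (ρ L n₁ n₂ : ℝ) (z : ℝ × ℝ) :
    fderiv ℝ (GG ρ L n₁ n₂) z (0, 1) = (2 * Real.pi * L * I : ℂ) * ((E2 ρ n₂ z : ℝ) : ℂ) *
      GG ρ L n₁ n₂ z := by
  rw [(GG_hasFDerivAt ρ L n₁ n₂ z).fderiv]
  simp
  ring

lemma GG_cont (ρ L n₁ n₂ : ℝ) : Continuous (GG ρ L n₁ n₂) :=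
  continuous_iff_continuousAt.mpr fun z => (GG_hasFDerivAt ρ L n₁ n₂ z).continuousAt

lemma amp_cs {r : ℕ} {A : ℝ} {a : ℝ × ℝ → ℂ} (ha : Amp r A a) : HasCompactSupport a := by
  apply HasCompactSupport.intro (K := Set.Icc (1 / 2 : ℝ) 2 ×ˢ Set.Icc (1 / 2 : ℝ) 2)
    (isCompact_Icc.prod isCompact_Icc)
  intro z hz
  by_contra h
  have := ha.supp z h
  exact hz ⟨⟨this.1.1, this.1.2⟩, ⟨this.2.1, this.2.2⟩⟩

lemma amp_nonneg {r : ℕ} {A : ℝ} {a : ℝ × ℝ → ℂ} (ha : Amp r A a) : 0 ≤ A :=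
  (norm_nonneg _).trans (ha.bound 0 (Nat.zero_le _) (0, 0))

/-- one integration by parts in the direction `v` -/
lemma ibp {r : ℕ} {A : ℝ} {a : ℝ × ℝ → ℂ} (ha : Amp r A a) (ρ L n₁ n₂ : ℝ) (v : ℝ × ℝ)
    (hc : Continuous fun z => fderiv ℝ (GG ρ L n₁ n₂) z v) :
    ∫ z, a z * fderiv ℝ (GG ρ L n₁ n₂) z v = - ∫ z, fderiv ℝ a z v * GG ρ L n₁ n₂ z := by
  have hcs := amp_cs ha
  have hac : Continuous a := ha.smooth.continuous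
  have hafc : Continuous fun z => fderiv ℝ a z v :=
    (ha.smooth.continuous_fderiv (by simp)).clm_apply continuous_const
  have hafs : HasCompactSupport fun z => fderiv ℝ a z v := hcs.fderiv_apply (𝕜 := ℝ) v
  apply integral_mul_fderiv_eq_neg_fderiv_mul_of_integrable
  · exact (hafc.mul (GG_cont ρ L n₁ n₂)).integrable_of_hasCompactSupport hafs.mul_right
  · exact (hac.mul hc).integrable_of_hasCompactSupport hcs.mul_right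
  · exact (hac.mul (GG_cont ρ L n₁ n₂)).integrable_of_hasCompactSupport hcs.mul_right
  · intro x _
    exact ha.smooth.contDiffAt.differentiableAt (by simp)
  · intro x _
    exact (GG_hasFDerivAt ρ L n₁ n₂ x).differentiableAt

/-- integration by parts along the gradient of the phase -/
lemma ibp2 {r : ℕ} {A₁ A₂ : ℝ} {a₁ a₂ : ℝ × ℝ → ℂ} (h₁ : Amp r A₁ a₁) (h₂ : Amp r A₂ a₂)
    (ρ L n₁ n₂ : ℝ) :
    (2 * Real.pi * L * I : ℂ) * II (fun z => a₁ z * ((E1 ρ n₁ z : ℝ) : ℂ) +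
        a₂ z * ((E2 ρ n₂ z : ℝ) : ℂ)) ρ L n₁ n₂ =
      -II (fun z => fderiv ℝ a₁ z (1, 0) + fderiv ℝ a₂ z (0, 1)) ρ L n₁ n₂ := by
  have hE1 : Continuous fun z : ℝ × ℝ => ((E1 ρ n₁ z : ℝ) : ℂ) := by
    unfold E1; fun_prop
  have hE2 : Continuous fun z : ℝ × ℝ => ((E2 ρ n₂ z : ℝ) : ℂ) := by
    unfold E2; fun_prop
  have hc1 : Continuous fun z => fderiv ℝ (GG ρ L n₁ n₂) z (1, 0) := by
    simp_rw [GG_fderiv1]
    exact (continuous_const.mul hE1).mul (GG_cont ρ L n₁ n₂)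
  have hc2 : Continuous fun z => fderiv ℝ (GG ρ L n₁ n₂) z (0, 1) := by
    simp_rw [GG_fderiv2]
    exact (continuous_const.mul hE2).mul (GG_cont ρ L n₁ n₂)
  have i1 := ibp h₁ ρ L n₁ n₂ (1, 0) hc1
  have i2 := ibp h₂ ρ L n₁ n₂ (0, 1) hc2
  have hf1 : Integrable fun z => fderiv ℝ a₁ z (1, 0) * GG ρ L n₁ n₂ z :=
    (((h₁.smooth.continuous_fderiv (by simp)).clm_apply continuous_const).mul
      (GG_cont ρ L n₁ n₂)).integrable_of_hasCompactSupport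
      ((amp_cs h₁).fderiv_apply (𝕜 := ℝ) (1, 0)).mul_right
  have hf2 : Integrable fun z => fderiv ℝ a₂ z (0, 1) * GG ρ L n₁ n₂ z :=
    (((h₂.smooth.continuous_fderiv (by simp)).clm_apply continuous_const).mul
      (GG_cont ρ L n₁ n₂)).integrable_of_hasCompactSupport
      ((amp_cs h₂).fderiv_apply (𝕜 := ℝ) (0, 1)).mul_right
  have hg1 : Integrable fun z => a₁ z * fderiv ℝ (GG ρ L n₁ n₂) z (1, 0) :=
    (h₁.smooth.continuous.mul hc1).integrable_of_hasCompactSupport (amp_cs h₁).mul_right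
  have hg2 : Integrable fun z => a₂ z * fderiv ℝ (GG ρ L n₁ n₂) z (0, 1) :=
    (h₂.smooth.continuous.mul hc2).integrable_of_hasCompactSupport (amp_cs h₂).mul_right
  have e1 : II (fun z => fderiv ℝ a₁ z (1, 0) + fderiv ℝ a₂ z (0, 1)) ρ L n₁ n₂ =
      (∫ z, fderiv ℝ a₁ z (1, 0) * GG ρ L n₁ n₂ z) +
        ∫ z, fderiv ℝ a₂ z (0, 1) * GG ρ L n₁ n₂ z := by
    rw [← integral_add hf1 hf2]
    unfold II
    refine integral_congr_ae (Filter.Eventually.of_forall fun z => ?_)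
    simp only [GG]
    ring
  have e2 : (2 * Real.pi * L * I : ℂ) * II (fun z => a₁ z * ((E1 ρ n₁ z : ℝ) : ℂ) +
        a₂ z * ((E2 ρ n₂ z : ℝ) : ℂ)) ρ L n₁ n₂ =
      (∫ z, a₁ z * fderiv ℝ (GG ρ L n₁ n₂) z (1, 0)) +
        ∫ z, a₂ z * fderiv ℝ (GG ρ L n₁ n₂) z (0, 1) := by
    rw [← integral_add hg1 hg2]
    unfold II
    rw [← integral_const_mul]
    refine integral_congr_ae (Filter.Eventually.of_forall fun z => ?_)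
    simp only [GG_fderiv1, GG_fderiv2]
    simp only [GG]
    ring
  rw [e1, e2, i1, i2]
  ring

/-- the resulting bound -/
lemma ibp2_le {A₁ A₂ K : ℝ} {a₁ a₂ : ℝ × ℝ → ℂ} (hBD : S_BD)
    (hI1 : ∀ (A : ℝ) (a : ℝ × ℝ → ℂ), Amp 2 A a → ∀ ρ L n₁ n₂ : ℝ,
      |ρ| ≤ 1 → 0 < L → ‖II a ρ L n₁ n₂‖ ≤ K * A / L)
    (h₁ : Amp 3 A₁ a₁) (h₂ : Amp 3 A₂ a₂)
    (ρ L n₁ n₂ : ℝ) (hρ : |ρ| ≤ 1) (hL : 0 < L) :
    ‖II (fun z => a₁ z * ((E1 ρ n₁ z : ℝ) : ℂ) + a₂ z * ((E2 ρ n₂ z : ℝ) : ℂ)) ρ L n₁ n₂‖ ≤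
      K * (A₁ + A₂) / L ^ 2 := by
  obtain ⟨-, -, -, -, -, -, -, hD, hadd⟩ := hBD
  have h3 := hadd 2 A₁ A₂ _ _ (hD 2 A₁ a₁ h₁).1 (hD 2 A₂ a₂ h₂).2
  have h4 := hI1 _ _ h3 ρ L n₁ n₂ hρ hL
  have h5 := ibp2 h₁ h₂ ρ L n₁ n₂
  have h6 : ‖(2 * Real.pi * L * I : ℂ)‖ * ‖II (fun z => a₁ z * ((E1 ρ n₁ z : ℝ) : ℂ) +
      a₂ z * ((E2 ρ n₂ z : ℝ) : ℂ)) ρ L n₁ n₂‖ ≤ K * (A₁ + A₂) / L := by
    rw [← norm_mul, h5, norm_neg]
    exact h4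
  have h7 : ‖(2 * Real.pi * L * I : ℂ)‖ = 2 * Real.pi * L := by
    rw [norm_mul, Complex.norm_I, mul_one]
    have : (2 * Real.pi * L : ℂ) = ((2 * Real.pi * L : ℝ) : ℂ) := by push_cast; ring
    rw [this, Complex.norm_real, Real.norm_of_nonneg (by positivity)]
  rw [h7] at h6
  have hX := norm_nonneg (II (fun z => a₁ z * ((E1 ρ n₁ z : ℝ) : ℂ) +
      a₂ z * ((E2 ρ n₂ z : ℝ) : ℂ)) ρ L n₁ n₂)
  set X := ‖II (fun z => a₁ z * ((E1 ρ n₁ z : ℝ) : ℂ) +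
      a₂ z * ((E2 ρ n₂ z : ℝ) : ℂ)) ρ L n₁ n₂‖
  have h8 : L * X ≤ K * (A₁ + A₂) / L := by
    refine le_trans ?_ h6
    have : (1 : ℝ) ≤ 2 * Real.pi := by linarith [Real.pi_gt_three]
    nlinarith [mul_nonneg hL.le hX]
  rw [le_div_iff₀ (by positivity)]
  rw [le_div_iff₀ hL] at h8
  nlinarith

lemma bd_mono {G G' : ℝ} {f : ℝ × ℝ → ℝ} (h : BD G f) (hG : G ≤ G') : BD G' f :=
  fun z hz => ⟨(h z hz).1, fun m hm => ((h z hz).2 m hm).trans hG⟩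

end TI3

open TI3 in
/-- task I3 -/
theorem t_I3 (hBD : S_BD) (hI1 : S_I1) : S_I3 := by
  intro c hc
  obtain ⟨hcst, hx, hy, hadd, hmul, hinv, hamp, -, -⟩ := id hBD
  obtain ⟨K₁, hK₁, hI⟩ := hI1
  obtain ⟨Kc, hKc⟩ := hinv 64000000 (c ^ 2 / 2) (by positivity)
  have hone : ((1, 1) : ℝ × ℝ) ∈ Qb := by
    constructor <;> constructor <;> norm_num
  refine ⟨max 1 (K₁ * (256000 * |Kc|)), le_max_left _ _, ?_⟩
  intro A a ha ρ L n₁ n₂ hρ hL hn₁ hn₂ hz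
  have hA := amp_nonneg ha
  -- the partial derivatives are bounded
  have bE1 : BD 2000 (E1 ρ n₁) := by
    have h := hadd _ _ _ _ (hadd _ _ _ _ (hmul _ _ _ _ (hmul _ _ _ _ (hcst 4) hx) hy)
      (hmul _ _ _ _ (hmul _ _ _ _ (hcst (2 * ρ)) hy) hy)) (hcst (-n₁))
    refine bd_mono (f := E1 ρ n₁) ?_ (?_ : 8 * (8 * |4| * 2) * 2 + 8 * (8 * |2 * ρ| * 2) * 2 + |-n₁| ≤ 2000)
    · convert h using 2
      unfold E1; ring
    · rw [abs_mul, abs_neg]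
      norm_num
      linarith
  have bE2 : BD 2000 (E2 ρ n₂) := by
    have h := hadd _ _ _ _ (hadd _ _ _ _ (hmul _ _ _ _ (hmul _ _ _ _ (hcst 2) hx) hx)
      (hmul _ _ _ _ (hmul _ _ _ _ (hcst (4 * ρ)) hx) hy)) (hcst (-n₂))
    refine bd_mono (f := E2 ρ n₂) ?_ (?_ : 8 * (8 * |2| * 2) * 2 + 8 * (8 * |4 * ρ| * 2) * 2 + |-n₂| ≤ 2000)
    · convert h using 2
      unfold E2; ring
    · rw [abs_mul, abs_neg]
      norm_num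
      linarith
  have bW : BD 64000000 (fun z => E1 ρ n₁ z * E1 ρ n₁ z + E2 ρ n₂ z * E2 ρ n₂ z) := by
    refine bd_mono (hadd _ _ _ _ (hmul _ _ _ _ bE1 bE1) (hmul _ _ _ _ bE2 bE2)) ?_
    norm_num
  have hWlow : ∀ z ∈ Qb, c ^ 2 / 2 ≤ |E1 ρ n₁ z * E1 ρ n₁ z + E2 ρ n₂ z * E2 ρ n₂ z| := by
    intro z hzQ
    have h := hz z hzQ
    have h1 : c ≤ |E1 ρ n₁ z| + |E2 ρ n₂ z| := h
    rw [abs_of_nonneg (by nlinarith [mul_self_nonneg (E1 ρ n₁ z), mul_self_nonneg (E2 ρ n₂ z)])]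
    have h2 : c ^ 2 ≤ (|E1 ρ n₁ z| + |E2 ρ n₂ z|) ^ 2 := by gcongr
    have h3 := sq_abs (E1 ρ n₁ z)
    have h4 := sq_abs (E2 ρ n₂ z)
    nlinarith [sq_nonneg (|E1 ρ n₁ z| - |E2 ρ n₂ z|)]
  have bI := hKc _ bW hWlow
  have b1 := hamp 3 A _ a _ le_rfl ha (hmul _ _ _ _ bE1 bI)
  have b2 := hamp 3 A _ a _ le_rfl ha (hmul _ _ _ _ bE2 bI)
  have h := ibp2_le hBD hI b1 b2 ρ L n₁ n₂ hρ hL
  have heq : II (fun z => (a z * ((E1 ρ n₁ z * (E1 ρ n₁ z * E1 ρ n₁ z +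
      E2 ρ n₂ z * E2 ρ n₂ z)⁻¹ : ℝ) : ℂ)) * ((E1 ρ n₁ z : ℝ) : ℂ) +
      (a z * ((E2 ρ n₂ z * (E1 ρ n₁ z * E1 ρ n₁ z +
      E2 ρ n₂ z * E2 ρ n₂ z)⁻¹ : ℝ) : ℂ)) * ((E2 ρ n₂ z : ℝ) : ℂ)) ρ L n₁ n₂ =
      II a ρ L n₁ n₂ := by
    congr 1
    funext z
    by_cases hzQ : z ∈ Qb
    · have hW := hWlow z hzQ
      have hne : E1 ρ n₁ z * E1 ρ n₁ z + E2 ρ n₂ z * E2 ρ n₂ z ≠ 0 := by
        intro h0
        rw [h0, abs_zero] at hW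
        have : 0 < c ^ 2 / 2 := by positivity
        linarith
      have hne' : ((E1 ρ n₁ z : ℝ) : ℂ) * E1 ρ n₁ z + (E2 ρ n₂ z : ℝ) * E2 ρ n₂ z ≠ 0 := by
        exact_mod_cast hne
      push_cast
      calc a z * (((E1 ρ n₁ z : ℝ) : ℂ) * (((E1 ρ n₁ z : ℝ) : ℂ) * E1 ρ n₁ z +
            (E2 ρ n₂ z : ℝ) * E2 ρ n₂ z)⁻¹) * ((E1 ρ n₁ z : ℝ) : ℂ) +
            a z * (((E2 ρ n₂ z : ℝ) : ℂ) * (((E1 ρ n₁ z : ℝ) : ℂ) * E1 ρ n₁ z +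
            (E2 ρ n₂ z : ℝ) * E2 ρ n₂ z)⁻¹) * ((E2 ρ n₂ z : ℝ) : ℂ)
          = a z * ((((E1 ρ n₁ z : ℝ) : ℂ) * E1 ρ n₁ z + (E2 ρ n₂ z : ℝ) * E2 ρ n₂ z) *
            (((E1 ρ n₁ z : ℝ) : ℂ) * E1 ρ n₁ z + (E2 ρ n₂ z : ℝ) * E2 ρ n₂ z)⁻¹) := by ring
        _ = a z := by rw [mul_inv_cancel₀ hne', mul_one]
    · have : a z = 0 := by
        by_contra hne
        exact hzQ (ha.supp z hne)
      rw [this]
      simp
  rw [heq] at h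
  refine h.trans ?_
  have hKK : K₁ * (8 * A * (8 * 2000 * Kc) + 8 * A * (8 * 2000 * Kc)) ≤
      max 1 (K₁ * (256000 * |Kc|)) * A := by
    have h1 : K₁ * (8 * A * (8 * 2000 * Kc) + 8 * A * (8 * 2000 * Kc)) =
        (K₁ * (256000 * Kc)) * A := by ring
    rw [h1]
    apply mul_le_mul_of_nonneg_right _ hA
    refine le_trans ?_ (le_max_right _ _)
    have := le_abs_self Kc
    gcongr
  gcongr

end Pool.Agent.H304R4.CM
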