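import Pool.Agent.H304R4.CM.T_I3

/-! # TEAM CM: task I4 (amplitudes vanishing at the critical point). -/

open Complex MeasureTheory Filter Topology

namespace Pool.Agent.H304R4.CM

namespace TI4

open TI3

lemma main_bound (hBD : S_BD) {K₁ : ℝ}
    (hI1 : ∀ (A : ℝ) (a : ℝ × ℝ → ℂ), Amp 2 A a → ∀ ρ L n₁ n₂ : ℝ,
      |ρ| ≤ 1 → 0 < L → ‖II a ρ L n₁ n₂‖ ≤ K₁ * A / L)
    {A G : ℝ} {a : ℝ × ℝ → ℂ} (ha : Amp 3 A a) {c₁ c₂ g : ℝ × ℝ → ℝ}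
    (h₁ : BD G c₁) (h₂ : BD G c₂) (ρ L n₁ n₂ : ℝ) (hρ : |ρ| ≤ 1) (hL : 0 < L)
    (hg : ∀ z ∈ Qb, g z = c₁ z * E1 ρ n₁ z + c₂ z * E2 ρ n₂ z) :
    ‖II (fun z => a z * ((g z : ℝ) : ℂ)) ρ L n₁ n₂‖ ≤ K₁ * (16 * A * G) / L ^ 2 := by
  obtain ⟨hcst, hx, hy, hadd, hmul, hinv, hamp, -, -⟩ := id hBD
  have b1 := hamp 3 A _ a _ le_rfl ha h₁
  have b2 := hamp 3 A _ a _ le_rfl ha h₂
  have h := ibp2_le hBD hI1 b1 b2 ρ L n₁ n₂ hρ hL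
  have heq : (fun z => a z * ((g z : ℝ) : ℂ)) = fun z => a z * ((c₁ z : ℝ) : ℂ) *
      ((E1 ρ n₁ z : ℝ) : ℂ) + a z * ((c₂ z : ℝ) : ℂ) * ((E2 ρ n₂ z : ℝ) : ℂ) := by
    funext z
    by_cases hz : z ∈ Qb
    · rw [hg z hz]
      push_cast
      ring
    · have : a z = 0 := by
        by_contra hne
        exact hz (ha.supp z hne)
      rw [this]
      simp
  rw [heq]
  refine h.trans (le_of_eq ?_)
  ring

end TI4

open TI3 TI4 in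
/-- task I4 -/
theorem t_I4 (hBD : S_BD) (hI1 : S_I1) : S_I4 := by
  obtain ⟨hcst, hx, hy, hadd, hmul, hinv, hamp, -, -⟩ := id hBD
  obtain ⟨K₁, hK₁, hI⟩ := hI1
  obtain ⟨Kc, hKc⟩ := hinv 10000000 (3 / 64) (by positivity)
  refine ⟨max 1 (K₁ * (16 * (80000 * |Kc|))), le_max_left _ _, ?_⟩
  intro A a ha ρ L n₁ n₂ w hρ hL hw hc
  have hA := amp_nonneg ha
  obtain ⟨hw1, hw2, hc1, hc2⟩ := hc
  obtain ⟨⟨hw3, hw4⟩, hw5, hw6⟩ := hw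
  have hρ2 : |ρ ^ 2| ≤ 1 := by rw [abs_pow]; exact pow_le_one₀ (abs_nonneg _) hρ
  -- midpoints
  have bX : BD 264 (fun z => (z.1 + w.1) / 2) := by
    have h := hmul _ _ _ _ (hcst (1 / 2)) (hadd _ _ _ _ hx (hcst w.1))
    refine bd_mono (f := fun z => (z.1 + w.1) / 2) ?_
      (?_ : 8 * |1 / 2| * (2 + |w.1|) ≤ (264 : ℝ))
    · convert h using 2
      ring
    · rw [abs_of_pos hw1]
      norm_num
      linarith
  have bY : BD 264 (fun z => (z.2 + w.2) / 2) := by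
    have h := hmul _ _ _ _ (hcst (1 / 2)) (hadd _ _ _ _ hy (hcst w.2))
    refine bd_mono (f := fun z => (z.2 + w.2) / 2) ?_
      (?_ : 8 * |1 / 2| * (2 + |w.2|) ≤ (264 : ℝ))
    · convert h using 2
      ring
    · rw [abs_of_pos hw2]
      norm_num
      linarith
  obtain ⟨q, hq⟩ : ∃ q : ℝ × ℝ → ℝ, q = fun z => ((z.1 + w.1) / 2) * ((z.1 + w.1) / 2) +
      ρ * ((z.1 + w.1) / 2) * ((z.2 + w.2) / 2) +
      ρ ^ 2 * ((z.2 + w.2) / 2) * ((z.2 + w.2) / 2) := ⟨_, rfl⟩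
  have bq : BD 10000000 q := by
    rw [hq]
    refine bd_mono (hadd _ _ _ _ (hadd _ _ _ _ (hmul _ _ _ _ bX bX)
      (hmul _ _ _ _ (hmul _ _ _ _ (hcst ρ) bX) bY))
      (hmul _ _ _ _ (hmul _ _ _ _ (hcst (ρ ^ 2)) bY) bY)) ?_
    nlinarith
  have hqlow : ∀ z ∈ Qb, (3 / 64 : ℝ) ≤ |q z| := by
    intro z hz
    have h1 : 1 / 4 ≤ (z.1 + w.1) / 2 := by linarith [hz.1.1]
    refine le_trans ?_ (le_abs_self _)
    rw [hq]
    dsimp only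
    nlinarith [sq_nonneg ((z.1 + w.1) / 2 + 2 * ρ * ((z.2 + w.2) / 2))]
  have bI := hKc _ bq hqlow
  have hqne : ∀ z ∈ Qb, q z ≠ 0 := by
    intro z hz h0
    have := hqlow z hz
    rw [h0, abs_zero] at this
    linarith
  -- coefficients
  have cX : BD 10000 (fun z => -(1 / 4) * (ρ * ((z.1 + w.1) / 2))) := by
    refine bd_mono (hmul _ _ _ _ (hcst (-(1 / 4))) (hmul _ _ _ _ (hcst ρ) bX)) ?_
    rw [abs_neg, abs_of_pos (by norm_num : (0 : ℝ) < 1 / 4)]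
    nlinarith
  have cY : BD 10000 (fun z => -(1 / 4) * ((z.2 + w.2) / 2)) := by
    refine bd_mono (hmul _ _ _ _ (hcst (-(1 / 4))) bY) ?_
    rw [abs_neg, abs_of_pos (by norm_num : (0 : ℝ) < 1 / 4)]
    nlinarith
  have cS : BD 10000 (fun z => 1 / 4 * ((z.1 + w.1) / 2 + ρ * ((z.2 + w.2) / 2))) := by
    refine bd_mono (hmul _ _ _ _ (hcst (1 / 4)) (hadd _ _ _ _ bX (hmul _ _ _ _ (hcst ρ) bY))) ?_
    rw [abs_of_pos (by norm_num : (0 : ℝ) < 1 / 4)]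
    nlinarith
  have id1 : ∀ z ∈ Qb, z.1 - w.1 = (-(1 / 4) * (ρ * ((z.1 + w.1) / 2)) * (q z)⁻¹) * E1 ρ n₁ z +
      (1 / 4 * ((z.1 + w.1) / 2 + ρ * ((z.2 + w.2) / 2)) * (q z)⁻¹) * E2 ρ n₂ z := by
    intro z hz
    have h1 : q z * (z.1 - w.1) = -(1 / 4) * (ρ * ((z.1 + w.1) / 2)) * E1 ρ n₁ z +
      1 / 4 * ((z.1 + w.1) / 2 + ρ * ((z.2 + w.2) / 2)) * E2 ρ n₂ z := by
      rw [hq, ← hc1, ← hc2]
      simp only [E1, E2]
      ring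
    calc z.1 - w.1 = (q z)⁻¹ * (q z * (z.1 - w.1)) := by
          rw [← mul_assoc, inv_mul_cancel₀ (hqne z hz), one_mul]
      _ = _ := by rw [h1]; ring
  have id2 : ∀ z ∈ Qb, z.2 - w.2 =
      (1 / 4 * ((z.1 + w.1) / 2 + ρ * ((z.2 + w.2) / 2)) * (q z)⁻¹) * E1 ρ n₁ z +
      (-(1 / 4) * ((z.2 + w.2) / 2) * (q z)⁻¹) * E2 ρ n₂ z := by
    intro z hz
    have h1 : q z * (z.2 - w.2) = 1 / 4 * ((z.1 + w.1) / 2 + ρ * ((z.2 + w.2) / 2)) * E1 ρ n₁ z +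
      -(1 / 4) * ((z.2 + w.2) / 2) * E2 ρ n₂ z := by
      rw [hq, ← hc1, ← hc2]
      simp only [E1, E2]
      ring
    calc z.2 - w.2 = (q z)⁻¹ * (q z * (z.2 - w.2)) := by
          rw [← mul_assoc, inv_mul_cancel₀ (hqne z hz), one_mul]
      _ = _ := by rw [h1]; ring
  have hfin : K₁ * (16 * A * (8 * 10000 * Kc)) / L ^ 2 ≤
      max 1 (K₁ * (16 * (80000 * |Kc|))) * A / L ^ 2 := by
    have h1 : K₁ * (16 * A * (8 * 10000 * Kc)) = (K₁ * (16 * (80000 * Kc))) * A := by ring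
    rw [h1]
    gcongr
    refine le_trans ?_ (le_max_right _ _)
    have := le_abs_self Kc
    gcongr
  exact ⟨(main_bound hBD hI ha (hmul _ _ _ _ cX bI) (hmul _ _ _ _ cS bI) ρ L n₁ n₂ hρ hL
      id1).trans hfin,
    (main_bound hBD hI ha (hmul _ _ _ _ cS bI) (hmul _ _ _ _ cY bI) ρ L n₁ n₂ hρ hL
      id2).trans hfin⟩

end Pool.Agent.H304R4.CM
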