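import Mathlib
import Pool.Agent.H304R4.CM.Defs
import Pool.Agent.H304R4.CM.Defs2
import Pool.Agent.H304R4.CM.Stubs

/-! # Task I5: the amplitude along the path. -/

open Complex MeasureTheory Filter Topology

namespace Pool.Agent.H304R4.CM.TI5

lemma norm_ee (x : ℝ) : ‖ee x‖ = 1 := by
  unfold ee
  exact Complex.norm_exp_ofReal_mul_I _

lemma continuous_ee : Continuous ee := by
  unfold ee
  fun_prop

lemma ee_add (x y : ℝ) : ee (x + y) = ee x * ee y := by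
  unfold ee
  rw [← Complex.exp_add]
  congr 1
  push_cast
  ring

lemma hasDerivAt_ee {f : ℝ → ℝ} {f' x : ℝ} (hf : HasDerivAt f f' x) :
    HasDerivAt (fun t => ee (f t)) (2 * Real.pi * I * f' * ee (f x)) x := by
  unfold ee
  have h1 : HasDerivAt (fun t => ((2 * Real.pi * f t : ℝ) : ℂ) * I)
      (((2 * Real.pi * f' : ℝ) : ℂ) * I) x :=
    ((hf.const_mul (2 * Real.pi)).ofReal_comp).mul_const I
  have h2 := h1.cexp
  convert h2 using 1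
  push_cast
  ring

lemma amp_nonneg {r : ℕ} {A : ℝ} {a : ℝ × ℝ → ℂ} (ha : Amp r A a) : 0 ≤ A :=
  le_trans (norm_nonneg _) (ha.bound 0 (Nat.zero_le _) (0, 0))

lemma amp_compact {r : ℕ} {A : ℝ} {a : ℝ × ℝ → ℂ} (ha : Amp r A a) : HasCompactSupport a := by
  apply HasCompactSupport.intro (K := Set.Icc ((1 / 2, 1 / 2) : ℝ × ℝ) (2, 2)) isCompact_Icc
  intro z hz
  by_contra h
  obtain ⟨⟨h1, h2⟩, h3, h4⟩ := ha.supp z h
  exact hz ⟨⟨h1, h3⟩, h2, h4⟩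

lemma amp_cont {r : ℕ} {A : ℝ} {a : ℝ × ℝ → ℂ} (ha : Amp r A a) : Continuous a :=
  ha.smooth.continuous

/-- integrability of `a * g` for continuous `g` -/
lemma amp_int {r : ℕ} {A : ℝ} {a : ℝ × ℝ → ℂ} (ha : Amp r A a) {g : ℝ × ℝ → ℂ}
    (hg : Continuous g) : Integrable (fun z => a z * g z) := by
  apply Continuous.integrable_of_hasCompactSupport ((amp_cont ha).mul hg)
  exact (amp_compact ha).mul_right

lemma amp_int_norm {r : ℕ} {A : ℝ} {a : ℝ × ℝ → ℂ} (ha : Amp r A a) {g : ℝ × ℝ → ℝ}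
    (hg : Continuous g) : Integrable (fun z => ‖a z‖ * g z) := by
  apply Continuous.integrable_of_hasCompactSupport ((amp_cont ha).norm.mul hg)
  exact (amp_compact ha).norm.mul_right

/-- the form `Q` -/
noncomputable def QQ (ρ lam : ℝ) (z : ℝ × ℝ) : ℝ := PP ρ z.1 z.2 + 2 * ρ * lam ^ 2 * (z.1 + ρ * z.2)

lemma continuous_QQ (ρ lam : ℝ) : Continuous (QQ ρ lam) := by
  unfold QQ PP
  fun_prop

/-- the phase -/
noncomputable def ps (ρ lam μ₁ μ₂ L₁ : ℝ) (h : ℝ) (z : ℝ × ℝ) : ℝ :=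
  L₁ / h ^ 2 * QQ ρ lam z - L₁ * (μ₁ * z.1 + μ₂ * z.2)

lemma ps_eq {ρ lam μ₁ μ₂ L₁ h : ℝ} (hh : h ≠ 0) (z : ℝ × ℝ) :
    L₁ / h ^ 2 * (PP ρ z.1 z.2 - m1 ρ lam μ₁ h * z.1 - m2 ρ lam μ₂ h * z.2) =
      ps ρ lam μ₁ μ₂ L₁ h z := by
  unfold ps QQ m1 m2
  field_simp
  ring

lemma II_eq {ρ lam μ₁ μ₂ L₁ h : ℝ} (hh : h ≠ 0) (a : ℝ × ℝ → ℂ) :
    II a ρ (L₁ / h ^ 2) (m1 ρ lam μ₁ h) (m2 ρ lam μ₂ h) =
      ∫ z : ℝ × ℝ, a z * ee (ps ρ lam μ₁ μ₂ L₁ h z) := by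
  unfold II
  simp_rw [ps_eq hh]

lemma continuous_ps (ρ lam μ₁ μ₂ L₁ h : ℝ) : Continuous (ps ρ lam μ₁ μ₂ L₁ h) := by
  unfold ps
  have := continuous_QQ ρ lam
  fun_prop

lemma hasDerivAt_ps {ρ lam μ₁ μ₂ L₁ h : ℝ} (hh : h ≠ 0) (z : ℝ × ℝ) :
    HasDerivAt (fun t => ps ρ lam μ₁ μ₂ L₁ t z) (-2 * (L₁ / h ^ 3) * QQ ρ lam z) h := by
  unfold ps
  have h1 : HasDerivAt (fun t : ℝ => L₁ / t ^ 2) (-2 * (L₁ / h ^ 3)) h := by
    have h0 : HasDerivAt (fun t : ℝ => t ^ 2) (2 * h) h := by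
      simpa using hasDerivAt_pow 2 h
    have h3 : HasDerivAt (fun t : ℝ => L₁ / t ^ 2)
        ((0 * h ^ 2 - L₁ * (2 * h)) / (h ^ 2) ^ 2) h :=
      (hasDerivAt_const h L₁).fun_div h0 (pow_ne_zero 2 hh)
    have e : (0 * h ^ 2 - L₁ * (2 * h)) / (h ^ 2) ^ 2 = -2 * (L₁ / h ^ 3) := by
      field_simp
      ring
    rw [e] at h3
    exact h3
  have h2 := (h1.mul_const (QQ ρ lam z)).sub_const (L₁ * (μ₁ * z.1 + μ₂ * z.2))
  exact h2

/-- differentiation under the integral sign -/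
lemma deriv_II {A : ℝ} {a : ℝ × ℝ → ℂ} (ha : Amp 3 A a) {ρ lam μ₁ μ₂ L₁ h : ℝ} (hL : 0 < L₁)
    (hh : 0 < h) :
    HasDerivAt (fun t => II a ρ (L₁ / t ^ 2) (m1 ρ lam μ₁ t) (m2 ρ lam μ₂ t))
      (∫ z : ℝ × ℝ, a z * (2 * Real.pi * I * ((-2 * (L₁ / h ^ 3) * QQ ρ lam z : ℝ) : ℂ) *
        ee (ps ρ lam μ₁ μ₂ L₁ h z))) h := by
  have key : HasDerivAt (fun t => ∫ z : ℝ × ℝ, a z * ee (ps ρ lam μ₁ μ₂ L₁ t z))
      (∫ z : ℝ × ℝ, a z * (2 * Real.pi * I * ((-2 * (L₁ / h ^ 3) * QQ ρ lam z : ℝ) : ℂ) *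
        ee (ps ρ lam μ₁ μ₂ L₁ h z))) h := by
    have hs : Set.Ioo (h / 2) (2 * h) ∈ 𝓝 h := Ioo_mem_nhds (by linarith) (by linarith)
    have hc := continuous_QQ ρ lam
    refine (hasDerivAt_integral_of_dominated_loc_of_deriv_le (𝕜 := ℝ)
      (F := fun t z => a z * ee (ps ρ lam μ₁ μ₂ L₁ t z))
      (F' := fun t z => a z * (2 * Real.pi * I * ((-2 * (L₁ / t ^ 3) * QQ ρ lam z : ℝ) : ℂ) *
        ee (ps ρ lam μ₁ μ₂ L₁ t z)))
      (bound := fun z => ‖a z‖ * (2 * Real.pi * (2 * (L₁ / (h / 2) ^ 3) * |QQ ρ lam z|)))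
      hs ?_ ?_ ?_ ?_ ?_ ?_).2
    · refine Filter.Eventually.of_forall fun t => ?_
      have := continuous_ps ρ lam μ₁ μ₂ L₁ t
      exact ((amp_cont ha).mul (continuous_ee.comp this)).aestronglyMeasurable
    · exact amp_int ha (continuous_ee.comp (continuous_ps ρ lam μ₁ μ₂ L₁ h))
    · have h1 := continuous_ee.comp (continuous_ps ρ lam μ₁ μ₂ L₁ h)
      have h2 : Continuous (fun z => a z * (2 * Real.pi * I *
          ((-2 * (L₁ / h ^ 3) * QQ ρ lam z : ℝ) : ℂ) * ee (ps ρ lam μ₁ μ₂ L₁ h z))) := by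
        refine (amp_cont ha).mul ?_
        refine Continuous.mul ?_ h1
        refine continuous_const.mul ?_
        exact Complex.continuous_ofReal.comp (continuous_const.mul hc)
      exact h2.aestronglyMeasurable
    · refine Filter.Eventually.of_forall fun z t ht => ?_
      rw [norm_mul]
      refine mul_le_mul_of_nonneg_left ?_ (norm_nonneg _)
      have ht0 : 0 < t := by have := ht.1; linarith
      rw [norm_mul, norm_ee, mul_one, norm_mul, Complex.norm_real]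
      have e1 : ‖(2 * Real.pi * I : ℂ)‖ = 2 * Real.pi := by
        rw [norm_mul, norm_mul, Complex.norm_I, mul_one, Complex.norm_real]
        simp [abs_of_pos Real.pi_pos]
      rw [e1, Real.norm_eq_abs, abs_mul, abs_mul]
      refine mul_le_mul_of_nonneg_left ?_ (by positivity)
      refine mul_le_mul_of_nonneg_right ?_ (abs_nonneg _)
      have e2 : |(-2 : ℝ)| = 2 := by norm_num
      rw [e2, abs_of_pos (by positivity : 0 < L₁ / t ^ 3)]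
      refine mul_le_mul_of_nonneg_left ?_ (by norm_num)
      refine div_le_div_of_nonneg_left hL.le (by positivity) ?_
      exact pow_le_pow_left₀ (by positivity) ht.1.le 3
    · exact amp_int_norm ha (g := fun z => (2 * Real.pi * (2 * (L₁ / (h / 2) ^ 3) *
        |QQ ρ lam z|))) (by fun_prop)
    · refine Filter.Eventually.of_forall fun z t ht => ?_
      have ht0 : t ≠ 0 := by have := ht.1; intro h0; linarith
      exact (hasDerivAt_ee (hasDerivAt_ps ht0 z)).const_mul (a z)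
  refine key.congr_of_eventuallyEq ?_
  filter_upwards [Ioi_mem_nhds hh] with t ht
  exact II_eq (ne_of_gt ht) a

lemma bd_mono {G G' : ℝ} {f : ℝ × ℝ → ℝ} (h : BD G f) (hG : G ≤ G') : BD G' f :=
  fun z hz => ⟨(h z hz).1, fun m hm => ((h z hz).2 m hm).trans hG⟩

/-- first quotient -/
noncomputable def q1 (ρ lam : ℝ) (w z : ℝ × ℝ) : ℝ :=
  2 * ((z.1 + w.1) * z.2) + (2 * ρ * (z.2 * z.2) + 2 * ρ * lam ^ 2)

noncomputable def q2 (ρ lam : ℝ) (w z : ℝ × ℝ) : ℝ :=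
  2 * ρ * w.1 * z.2 + (2 * w.1 ^ 2 + 2 * ρ * w.1 * w.2 + 2 * ρ ^ 2 * lam ^ 2)

lemma QQ_sub (ρ lam : ℝ) (w z : ℝ × ℝ) :
    QQ ρ lam z - QQ ρ lam w = q1 ρ lam w z * (z.1 - w.1) + q2 ρ lam w z * (z.2 - w.2) := by
  unfold QQ PP q1 q2
  ring

lemma bd_q (hBD : S_BD) {ρ lam : ℝ} {w : ℝ × ℝ} (hρ : |ρ| ≤ 1) (hl : 0 ≤ lam) (hl' : lam ≤ 1)
    (hw : w ∈ bx 64) : BD 1000000 (q1 ρ lam w) ∧ BD 1000000 (q2 ρ lam w) := by
  obtain ⟨hc, h1, h2, hadd, hmul, -⟩ := hBD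
  obtain ⟨⟨w1, w2⟩, w3, w4⟩ := hw
  have w1' : 0 < w.1 := lt_of_lt_of_le (by norm_num) w1
  have w3' : 0 < w.2 := lt_of_lt_of_le (by norm_num) w3
  have hl2 : lam ^ 2 ≤ 1 := by nlinarith
  have hl2' : 0 ≤ lam ^ 2 := sq_nonneg _
  have hρ2 : ρ ^ 2 ≤ 1 := by
    have := abs_le.1 hρ
    nlinarith
  have hρ0 := abs_nonneg ρ
  constructor
  · unfold q1
    have b1 : BD 66 (fun z : ℝ × ℝ => z.1 + w.1) := by
      have := hadd _ _ _ _ h1 (hc w.1)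
      exact bd_mono this (by rw [abs_of_pos w1']; linarith)
    have b2 := hmul _ _ _ _ b1 h2
    have b3 := hmul _ _ _ _ (hc 2) b2
    have b4 := hmul _ _ _ _ h2 h2
    have b5 := hmul _ _ _ _ (hc (2 * ρ)) b4
    have b6 := hadd _ _ _ _ b5 (hc (2 * ρ * lam ^ 2))
    have b7 := hadd _ _ _ _ b3 b6
    refine bd_mono b7 ?_
    rw [abs_mul, abs_mul, abs_mul, abs_of_nonneg hl2']
    have e2 : |(2 : ℝ)| = 2 := by norm_num
    rw [e2]
    have : |ρ| * lam ^ 2 ≤ 1 := by nlinarith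
    nlinarith
  · unfold q2
    have b1 := hmul _ _ _ _ (hc (2 * ρ * w.1)) h2
    have b2 := hadd _ _ _ _ b1 (hc (2 * w.1 ^ 2 + 2 * ρ * w.1 * w.2 + 2 * ρ ^ 2 * lam ^ 2))
    refine bd_mono b2 ?_
    have e1 : |2 * ρ * w.1| ≤ 128 := by
      rw [abs_mul, abs_mul, abs_of_pos w1']
      have e2 : |(2 : ℝ)| = 2 := by norm_num
      rw [e2]
      nlinarith
    have e2 : |2 * w.1 ^ 2 + 2 * ρ * w.1 * w.2 + 2 * ρ ^ 2 * lam ^ 2| ≤ 20000 := by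
      refine (abs_add_le _ _).trans ?_
      have e3 : |2 * w.1 ^ 2 + 2 * ρ * w.1 * w.2| ≤ 2 * 64 ^ 2 + 2 * 64 ^ 2 := by
        refine (abs_add_le _ _).trans ?_
        refine add_le_add ?_ ?_
        · rw [abs_of_nonneg (by positivity)]
          nlinarith
        · rw [abs_mul, abs_mul, abs_mul, abs_of_pos w1', abs_of_pos w3']
          have e2 : |(2 : ℝ)| = 2 := by norm_num
          rw [e2]
          have h5 : |ρ| * w.1 ≤ 64 := by nlinarith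
          have h6 : |ρ| * w.1 * w.2 ≤ 64 * 64 :=
            mul_le_mul h5 w4 w3'.le (by norm_num)
          nlinarith
      have e4 : |2 * ρ ^ 2 * lam ^ 2| ≤ 2 := by
        rw [abs_of_nonneg (by positivity)]
        have : ρ ^ 2 * lam ^ 2 ≤ 1 := by nlinarith [sq_nonneg ρ]
        linarith
      linarith
    linarith

end Pool.Agent.H304R4.CM.TI5

namespace Pool.Agent.H304R4.CM

open TI5 in
theorem t_I5 (hH1 : S_H1) (hH2 : S_H2) (hBD : S_BD) (hI1 : S_I1) (hI4 : S_I4) : S_I5 := by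
  obtain ⟨c₁, hc₁, hc₁', hH1⟩ := hH1
  obtain ⟨c₂, K₂, hc₂, hc₂', hK₂, hH2⟩ := hH2
  obtain ⟨K₁, hK₁, hI1⟩ := hI1
  obtain ⟨K₄, hK₄, hI4⟩ := hI4
  have hpi := Real.pi_pos
  have hpi1 : 1 ≤ Real.pi := by linarith [Real.pi_gt_three]
  refine ⟨min c₁ c₂, 9 * K₁ + 192 * Real.pi * 1000000 * K₄, lt_min hc₁ hc₂,
    (min_le_left _ _).trans hc₁', ?_, ?_⟩
  · nlinarith [mul_pos hpi (by linarith : 0 < K₄)]
  intro A a ha ρ lam μ₁ μ₂ H L₁ z₀ hρ hl hlc hH hL hz₀ hC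
  have hA := amp_nonneg ha
  have hl1 : lam ≤ 1 := hlc.trans ((min_le_left _ _).trans hc₁')
  have hH1' := hH1 ρ lam μ₁ μ₂ H z₀ hρ hl (hlc.trans (min_le_left _ _)) hH hz₀ hC
  obtain ⟨Φ₁, Φ₂, σ, hσ, hΦ⟩ := hH2 ρ lam μ₁ μ₂ H L₁ z₀ hρ hl (hlc.trans (min_le_right _ _)) hH hL
    hz₀ hC
  refine ⟨fun h => (∫ z : ℝ × ℝ, a z * (2 * Real.pi * I *
      ((-2 * (L₁ / h ^ 3) * QQ ρ lam z : ℝ) : ℂ) *
        ee (ps ρ lam μ₁ μ₂ L₁ h z))) * ee (Ph ρ lam μ₁ μ₂ L₁ h) +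
      II a ρ (L₁ / h ^ 2) (m1 ρ lam μ₁ h) (m2 ρ lam μ₂ h) *
        (2 * Real.pi * I * Φ₁ h * ee (Ph ρ lam μ₁ μ₂ L₁ h)), ?_⟩
  intro h hh1 hh2
  have hh : 0 < h := by linarith
  obtain ⟨hw1, hw2, -, -⟩ := hH1' h hh1 hh2
  obtain ⟨hΦ1, -, hΦ3, -⟩ := hΦ h hh1 hh2
  have hII : ‖II a ρ (L₁ / h ^ 2) (m1 ρ lam μ₁ h) (m2 ρ lam μ₂ h)‖ ≤ K₁ * A / (L₁ / h ^ 2) := by
    refine hI1 A a ⟨ha.smooth, ha.supp, fun m hm => ha.bound m (by omega)⟩ ρ _ _ _ hρ (by positivity)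
  refine ⟨(deriv_II ha hL hh).mul (hasDerivAt_ee hΦ1), ?_, ?_⟩
  · unfold Kp
    rw [norm_mul, norm_ee, mul_one]
    refine hII.trans ?_
    have e1 : K₁ * A / (L₁ / h ^ 2) = K₁ * A * h ^ 2 / L₁ := by field_simp
    have e2 : (9 * K₁ + 192 * Real.pi * 1000000 * K₄) * A / (L₁ / H ^ 2) =
        (9 * K₁ + 192 * Real.pi * 1000000 * K₄) * A * H ^ 2 / L₁ := by field_simp
    rw [e1, e2]
    refine div_le_div_of_nonneg_right ?_ hL.le
    have h3 : h ^ 2 ≤ 9 * H ^ 2 := by nlinarith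
    have h4 : K₁ * A * h ^ 2 ≤ K₁ * A * (9 * H ^ 2) :=
      mul_le_mul_of_nonneg_left h3 (by positivity)
    have h5 : 0 ≤ 192 * Real.pi * 1000000 * K₄ * A * H ^ 2 := by positivity
    nlinarith
  · set w := zp ρ lam μ₁ μ₂ h with hw
    have hΦQ : Φ₁ h = 2 * (L₁ / h ^ 3) * QQ ρ lam w := by
      rw [hΦ3]
      unfold QQ
      ring
    obtain ⟨hb1, hb2⟩ := bd_q hBD hρ hl hl1 hw2
    have ha1 : Amp 3 (8 * A * 1000000) (fun z => a z * ((q1 ρ lam w z : ℝ) : ℂ)) :=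
      hBD.2.2.2.2.2.2.1 3 A 1000000 a _ le_rfl ha hb1
    have ha2 : Amp 3 (8 * A * 1000000) (fun z => a z * ((q2 ρ lam w z : ℝ) : ℂ)) :=
      hBD.2.2.2.2.2.2.1 3 A 1000000 a _ le_rfl ha hb2
    have hL' : 0 < L₁ / h ^ 2 := by positivity
    have i1 := (hI4 _ _ ha1 ρ (L₁ / h ^ 2) (m1 ρ lam μ₁ h) (m2 ρ lam μ₂ h) w hρ hL' hw2 hw1).1
    have i2 := (hI4 _ _ ha2 ρ (L₁ / h ^ 2) (m1 ρ lam μ₁ h) (m2 ρ lam μ₂ h) w hρ hL' hw2 hw1).2
    rw [II_eq hh.ne'] at i1 i2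
    have cE := continuous_ee.comp (continuous_ps ρ lam μ₁ μ₂ L₁ h)
    have cE' : Continuous (fun z => ee (ps ρ lam μ₁ μ₂ L₁ h z)) := cE
    have cQ := continuous_QQ ρ lam
    have c1 : Continuous (q1 ρ lam w) := by unfold q1; fun_prop
    have c2 : Continuous (q2 ρ lam w) := by unfold q2; fun_prop
    have int1 : Integrable (fun z : ℝ × ℝ => a z * (2 * Real.pi * I *
      ((-2 * (L₁ / h ^ 3) * QQ ρ lam z : ℝ) : ℂ) * ee (ps ρ lam μ₁ μ₂ L₁ h z))) := by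
      refine amp_int ha ?_
      refine Continuous.mul ?_ cE'
      refine continuous_const.mul ?_
      exact Complex.continuous_ofReal.comp (continuous_const.mul cQ)
    have int2 : Integrable (fun z : ℝ × ℝ => a z * ee (ps ρ lam μ₁ μ₂ L₁ h z)) := amp_int ha cE'
    have j1 : Integrable (fun z : ℝ × ℝ => a z * ((q1 ρ lam w z : ℝ) : ℂ) *
        ((z.1 - w.1 : ℝ) : ℂ) * ee (ps ρ lam μ₁ μ₂ L₁ h z)) := by
      have : Continuous (fun z : ℝ × ℝ => ((z.1 - w.1 : ℝ) : ℂ) * ee (ps ρ lam μ₁ μ₂ L₁ h z)) := by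
        refine Continuous.mul ?_ cE'
        exact Complex.continuous_ofReal.comp (by fun_prop)
      have := amp_int ha1 this
      refine this.congr (Filter.Eventually.of_forall fun z => ?_)
      simp only
      ring
    have j2 : Integrable (fun z : ℝ × ℝ => a z * ((q2 ρ lam w z : ℝ) : ℂ) *
        ((z.2 - w.2 : ℝ) : ℂ) * ee (ps ρ lam μ₁ μ₂ L₁ h z)) := by
      have : Continuous (fun z : ℝ × ℝ => ((z.2 - w.2 : ℝ) : ℂ) * ee (ps ρ lam μ₁ μ₂ L₁ h z)) := by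
        refine Continuous.mul ?_ cE'
        exact Complex.continuous_ofReal.comp (by fun_prop)
      have := amp_int ha2 this
      refine this.congr (Filter.Eventually.of_forall fun z => ?_)
      simp only
      ring
    have key : (∫ z : ℝ × ℝ, a z * (2 * Real.pi * I *
      ((-2 * (L₁ / h ^ 3) * QQ ρ lam z : ℝ) : ℂ) *
        ee (ps ρ lam μ₁ μ₂ L₁ h z))) * ee (Ph ρ lam μ₁ μ₂ L₁ h) +
      II a ρ (L₁ / h ^ 2) (m1 ρ lam μ₁ h) (m2 ρ lam μ₂ h) *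
        (2 * Real.pi * I * Φ₁ h * ee (Ph ρ lam μ₁ μ₂ L₁ h)) =
        (-(4 * Real.pi * (L₁ / h ^ 3) : ℝ) * I * ee (Ph ρ lam μ₁ μ₂ L₁ h)) *
        ((∫ z : ℝ × ℝ, a z * ((q1 ρ lam w z : ℝ) : ℂ) *
        ((z.1 - w.1 : ℝ) : ℂ) * ee (ps ρ lam μ₁ μ₂ L₁ h z)) +
        (∫ z : ℝ × ℝ, a z * ((q2 ρ lam w z : ℝ) : ℂ) *
        ((z.2 - w.2 : ℝ) : ℂ) * ee (ps ρ lam μ₁ μ₂ L₁ h z))) := by
      rw [II_eq hh.ne', ← integral_add j1 j2, ← integral_const_mul, ← integral_mul_const,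
        ← integral_mul_const, ← integral_add (int1.mul_const _) (int2.mul_const _)]
      refine integral_congr_ae (Filter.Eventually.of_forall fun z => ?_)
      have hz : ((QQ ρ lam z : ℝ) : ℂ) - ((QQ ρ lam w : ℝ) : ℂ) =
        ((q1 ρ lam w z : ℝ) : ℂ) * ((z.1 - w.1 : ℝ) : ℂ) +
          ((q2 ρ lam w z : ℝ) : ℂ) * ((z.2 - w.2 : ℝ) : ℂ) := by
        have := QQ_sub ρ lam w z
        exact_mod_cast congrArg (fun x : ℝ => (x : ℂ)) this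
      have hz' : ((QQ ρ lam z : ℝ) : ℂ) = ((QQ ρ lam w : ℝ) : ℂ) +
        (((q1 ρ lam w z : ℝ) : ℂ) * ((z.1 - w.1 : ℝ) : ℂ) +
          ((q2 ρ lam w z : ℝ) : ℂ) * ((z.2 - w.2 : ℝ) : ℂ)) := by
        rw [← hz]; ring
      simp only
      rw [hΦQ]
      push_cast
      push_cast at hz'
      rw [hz']
      ring
    simp only
    rw [key, norm_mul, norm_mul, norm_mul, norm_ee, Complex.norm_I, mul_one, mul_one, norm_neg,
      Complex.norm_real, Real.norm_eq_abs, abs_of_pos (by positivity)]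
    have n1 := norm_add_le (∫ z : ℝ × ℝ, a z * ((q1 ρ lam w z : ℝ) : ℂ) *
        ((z.1 - w.1 : ℝ) : ℂ) * ee (ps ρ lam μ₁ μ₂ L₁ h z))
        (∫ z : ℝ × ℝ, a z * ((q2 ρ lam w z : ℝ) : ℂ) *
        ((z.2 - w.2 : ℝ) : ℂ) * ee (ps ρ lam μ₁ μ₂ L₁ h z))
    have n2 := n1.trans (add_le_add i1 i2)
    refine (mul_le_mul_of_nonneg_left n2 (by positivity)).trans ?_
    have e1 : 4 * Real.pi * (L₁ / h ^ 3) * (K₄ * (8 * A * 1000000) / (L₁ / h ^ 2) ^ 2 +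
        K₄ * (8 * A * 1000000) / (L₁ / h ^ 2) ^ 2) =
        64 * Real.pi * 1000000 * K₄ * A * h / L₁ := by
      field_simp
      ring
    have e2 : (9 * K₁ + 192 * Real.pi * 1000000 * K₄) * A / (L₁ / H ^ 2) / H =
        (9 * K₁ + 192 * Real.pi * 1000000 * K₄) * A * H / L₁ := by field_simp
    rw [e1, e2]
    refine div_le_div_of_nonneg_right ?_ hL.le
    have h3 : 64 * Real.pi * 1000000 * K₄ * A * h ≤ 64 * Real.pi * 1000000 * K₄ * A * (3 * H) :=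
      mul_le_mul_of_nonneg_left hh2 (by positivity)
    have h5 : 0 ≤ 9 * K₁ * A * H := by positivity
    nlinarith

end Pool.Agent.H304R4.CM
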