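import Pool.Agent.H304R4.CM.Stubs

/-! # Task LAT: lattice sums -/

namespace Pool.Agent.H304R4.CM

namespace TLAT

/-- the terms -/
noncomputable def a (α : ℝ) (k : ℕ) : ℝ := (1 + α * k) ^ (-3 / 2 : ℝ)

theorem a_nonneg {α : ℝ} (hα : 0 < α) (k : ℕ) : 0 ≤ a α k := by
  unfold a
  positivity

theorem rpow_eq {u : ℝ} (hu : 0 < u) : u ^ (-3 / 2 : ℝ) = 1 / (u * √u) := by
  rw [show (-3 / 2 : ℝ) = -(3 / 2 : ℝ) by norm_num, Real.rpow_neg hu.le, one_div]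
  congr 1
  rw [show (3 / 2 : ℝ) = 1 + 1 / 2 by norm_num, Real.rpow_add hu, Real.rpow_one,
    ← Real.sqrt_eq_rpow]

theorem tel {α u : ℝ} (hα : 0 < α) (hu : 0 < u) :
    α * (u + α) ^ (-3 / 2 : ℝ) ≤ 2 * (1 / √u - 1 / √(u + α)) := by
  have hv : 0 < u + α := by linarith
  rw [rpow_eq hv]
  obtain ⟨s, hs⟩ : ∃ s, s = √u := ⟨_, rfl⟩
  obtain ⟨t, ht⟩ : ∃ t, t = √(u + α) := ⟨_, rfl⟩
  have hs0 : 0 < s := by rw [hs]; exact Real.sqrt_pos.mpr hu
  have ht0 : 0 < t := by rw [ht]; exact Real.sqrt_pos.mpr hv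
  have hs2 : s ^ 2 = u := by rw [hs]; exact Real.sq_sqrt hu.le
  have ht2 : t ^ 2 = u + α := by rw [ht]; exact Real.sq_sqrt hv.le
  have hst : s ≤ t := by
    rw [hs, ht]
    exact Real.sqrt_le_sqrt (by linarith)
  rw [← hs, ← ht, ← ht2]
  have hα' : α = (t - s) * (t + s) := by nlinarith
  rw [hα', div_sub_div _ _ hs0.ne' ht0.ne', one_mul, mul_one, mul_one_div, mul_div_assoc', div_le_div_iff₀
    (by positivity) (by positivity)]
  have h1 : 0 ≤ t - s := by linarith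
  have h2 : (t + s) * s ≤ 2 * t * t := by nlinarith
  have h3 : 0 ≤ (t - s) * t := by positivity
  nlinarith [mul_le_mul_of_nonneg_left h2 h3]

theorem sum_le {α : ℝ} (hα : 0 < α) (n : ℕ) :
    α * ∑ k ∈ Finset.range (n + 1), a α k ≤ α + 2 * (1 - 1 / √(1 + α * n)) := by
  induction n with
  | zero =>
    simp [a]
  | succ n ih =>
    rw [Finset.sum_range_succ, mul_add]
    have h0 : (0 : ℝ) < 1 + α * n := by positivity
    have h1 := tel hα h0
    have h2 : 1 + α * n + α = 1 + α * ((n + 1 : ℕ) : ℝ) := by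
      push_cast
      ring
    rw [h2] at h1
    have h3 : a α (n + 1) = (1 + α * ((n + 1 : ℕ) : ℝ)) ^ (-3 / 2 : ℝ) := rfl
    rw [h3]
    linarith

theorem range_le {α : ℝ} (hα : 0 < α) (n : ℕ) : ∑ k ∈ Finset.range n, a α k ≤ 1 + 2 / α := by
  have h1 : ∑ k ∈ Finset.range n, a α k ≤ ∑ k ∈ Finset.range (n + 1), a α k := by
    rw [Finset.sum_range_succ]
    linarith [a_nonneg hα n]
  have h2 := sum_le hα n
  have h3 : 0 ≤ 1 / √(1 + α * n) := by positivity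
  have h4 : α * ∑ k ∈ Finset.range (n + 1), a α k ≤ α * (1 + 2 / α) := by
    rw [mul_add, mul_one, mul_div_cancel₀ _ hα.ne']
    linarith
  exact h1.trans (le_of_mul_le_mul_left h4 hα)

theorem fin_le {α : ℝ} (hα : 0 < α) (s : Finset ℕ) : ∑ k ∈ s, a α k ≤ 1 + 2 / α := by
  obtain ⟨n, hn⟩ : ∃ n, s ⊆ Finset.range n :=
    ⟨s.sup id + 1, fun k hk => Finset.mem_range.mpr (Nat.lt_succ_of_le (Finset.le_sup (f := id) hk))⟩
  exact (Finset.sum_le_sum_of_subset_of_nonneg hn fun k _ _ => a_nonneg hα k).trans (range_le hα n)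

/-- the one dimensional terms -/
noncomputable def f (α β : ℝ) (ν : ℤ) : ℝ := (1 + |α * ν - β|) ^ (-3 / 2 : ℝ)

theorem f_nonneg (α β : ℝ) (ν : ℤ) : 0 ≤ f α β ν := by
  unfold f
  positivity

theorem half {α : ℝ} (hα : 0 < α) (β : ℝ) (s : Finset ℤ) (g : ℤ → ℕ)
    (hg : Set.InjOn g s) (h : ∀ ν ∈ s, α * g ν ≤ |α * ν - β|) :
    ∑ ν ∈ s, f α β ν ≤ 1 + 2 / α := by
  classical
  have h1 : ∑ ν ∈ s, f α β ν ≤ ∑ ν ∈ s, a α (g ν) := by
    refine Finset.sum_le_sum fun ν hν => ?_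
    unfold f a
    apply Real.rpow_le_rpow_of_nonpos (by positivity) _ (by norm_num)
    linarith [h ν hν]
  rw [← Finset.sum_image hg] at h1
  exact h1.trans (fin_le hα _)

theorem one_le {α : ℝ} (hα : 0 < α) (β : ℝ) (s : Finset ℤ) :
    ∑ ν ∈ s, f α β ν ≤ 4 * (1 + 1 / α) := by
  classical
  obtain ⟨b, hb⟩ : ∃ b : ℝ, b = β / α := ⟨_, rfl⟩
  have hβ : β = α * b := by
    rw [hb]
    field_simp
  have hfl := Int.floor_le b
  have hfl2 := Int.lt_floor_add_one b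
  rw [← Finset.sum_filter_add_sum_filter_not s (fun ν => ⌊b⌋ < ν)]
  have h1 : ∑ ν ∈ s.filter (fun ν => ⌊b⌋ < ν), f α β ν ≤ 1 + 2 / α := by
    apply half hα β _ (fun ν => (ν - ⌊b⌋ - 1).toNat)
    · intro x hx y hy hxy
      have hx' := (Finset.mem_filter.mp hx).2
      have hy' := (Finset.mem_filter.mp hy).2
      simp only at hxy
      omega
    · intro ν hν
      have hν' := (Finset.mem_filter.mp hν).2
      have h2 : (((ν - ⌊b⌋ - 1).toNat : ℕ) : ℝ) = (ν : ℝ) - ⌊b⌋ - 1 := by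
        have h3 : (((ν - ⌊b⌋ - 1).toNat : ℕ) : ℤ) = ν - ⌊b⌋ - 1 := Int.toNat_of_nonneg (by omega)
        exact_mod_cast h3
      rw [h2, hβ, ← mul_sub, abs_mul, abs_of_pos hα]
      apply mul_le_mul_of_nonneg_left _ hα.le
      refine le_trans ?_ (le_abs_self _)
      linarith
  have h2 : ∑ ν ∈ s.filter (fun ν => ¬ ⌊b⌋ < ν), f α β ν ≤ 1 + 2 / α := by
    apply half hα β _ (fun ν => (⌊b⌋ - ν).toNat)
    · intro x hx y hy hxy
      have hx' := (Finset.mem_filter.mp hx).2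
      have hy' := (Finset.mem_filter.mp hy).2
      simp only at hxy
      omega
    · intro ν hν
      have hν' := (Finset.mem_filter.mp hν).2
      have h2 : (((⌊b⌋ - ν).toNat : ℕ) : ℝ) = (⌊b⌋ : ℝ) - ν := by
        have h3 : (((⌊b⌋ - ν).toNat : ℕ) : ℤ) = ⌊b⌋ - ν := Int.toNat_of_nonneg (by omega)
        exact_mod_cast h3
      rw [h2, hβ, ← mul_sub, abs_mul, abs_of_pos hα]
      apply mul_le_mul_of_nonneg_left _ hα.le
      refine le_trans ?_ (neg_le_abs _)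
      linarith
  have h3 : (1 : ℝ) + 2 / α + (1 + 2 / α) = 2 + 4 * (1 / α) := by ring
  linarith

theorem summable_f {α : ℝ} (hα : 0 < α) (β : ℝ) : Summable (f α β) :=
  summable_of_sum_le (f_nonneg α β) (one_le hα β)

theorem tsum_f {α : ℝ} (hα : 0 < α) (β : ℝ) : ∑' ν, f α β ν ≤ 4 * (1 + 1 / α) :=
  (summable_f hα β).tsum_le_of_sum_le (one_le hα β)

end TLAT

open TLAT in
theorem t_LAT : S_LAT := by
  refine ⟨16, by norm_num, fun α β γ δ hα hγ => ?_⟩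
  have h1 := summable_f hα β
  have h2 := summable_f hγ δ
  have h3 : Summable (fun ν : ℤ × ℤ => f α β ν.1 * f γ δ ν.2) :=
    h1.mul_of_nonneg h2 (f_nonneg α β) (f_nonneg γ δ)
  refine ⟨h3, ?_⟩
  have h4 := h1.tsum_mul_tsum h2 h3
  have h5 : ∑' ν : ℤ × ℤ, (1 + |α * ν.1 - β|) ^ (-3 / 2 : ℝ) * (1 + |γ * ν.2 - δ|) ^ (-3 / 2 : ℝ) =
      ∑' ν : ℤ × ℤ, f α β ν.1 * f γ δ ν.2 := rfl
  rw [h5, ← h4]
  have h6 := mul_le_mul (tsum_f hα β) (tsum_f hγ δ) (tsum_nonneg (f_nonneg γ δ)) (by positivity)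
  refine h6.trans (le_of_eq ?_)
  ring

end Pool.Agent.H304R4.CM
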