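import Pool.Agent.H304R4.CM.Stubs
import Pool.Agent.H383.Poisson2

/-! # TEAM CM, part 2: task P1 (two dimensional Poisson summation) -/

open Complex MeasureTheory Filter Topology
open scoped FourierTransform RealInnerProductSpace ContDiff

namespace Pool.Agent.H304R4.CM

namespace P1aux

open Pool.Agent.H383.Gauss

theorem ee_add (x y : ℝ) : ee x * ee y = ee (x + y) := by
  unfold ee
  rw [← Complex.exp_add]
  congr 1
  push_cast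
  ring

/-- the function to be summed -/
noncomputable def g (ω₁ ω₂ : ℝ → ℂ) (B C j k h : ℝ) (z : ℂ) : ℂ :=
  ω₁ (z.re / B) * ω₂ (z.im / C) * ee (ph j k h z.re z.im)

theorem g_smooth {A₁ A₂ : ℝ} {ω₁ ω₂ : ℝ → ℂ} (h₁ : Wt A₁ ω₁) (h₂ : Wt A₂ ω₂) (B C j k h : ℝ) :
    ContDiff ℝ ∞ (g ω₁ ω₂ B C j k h) := by
  have hre : ContDiff ℝ ∞ (fun z : ℂ => z.re) := Complex.reCLM.contDiff
  have him : ContDiff ℝ ∞ (fun z : ℂ => z.im) := Complex.imCLM.contDiff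
  have e1 : ContDiff ℝ ∞ (fun z : ℂ => ω₁ (z.re / B)) :=
    h₁.smooth.comp (hre.div_const B)
  have e2 : ContDiff ℝ ∞ (fun z : ℂ => ω₂ (z.im / C)) :=
    h₂.smooth.comp (him.div_const C)
  have e3 : ContDiff ℝ ∞ (fun z : ℂ => 2 * Real.pi * ph j k h z.re z.im) := by
    unfold ph
    refine contDiff_const.mul ((ContDiff.mul (ContDiff.mul contDiff_const ?_) ?_).div_const _)
    · exact (hre.mul him).add contDiff_const
    · exact (hre.mul contDiff_const).add (him.mul contDiff_const)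
  have e4 : ContDiff ℝ ∞ (fun z : ℂ => ee (ph j k h z.re z.im)) := by
    unfold ee
    exact ((Complex.ofRealCLM.contDiff.comp e3).mul contDiff_const).cexp
  exact (e1.mul e2).mul e4

theorem g_ne {A₁ A₂ : ℝ} {ω₁ ω₂ : ℝ → ℂ} (h₁ : Wt A₁ ω₁) (h₂ : Wt A₂ ω₂) {B C : ℝ} (hB : 1 ≤ B)
    (hC : 1 ≤ C) (j k h : ℝ) {z : ℂ} (hz : g ω₁ ω₂ B C j k h z ≠ 0) :
    (B / 2 ≤ z.re ∧ z.re ≤ 2 * B) ∧ (C / 2 ≤ z.im ∧ z.im ≤ 2 * C) := by
  unfold g at hz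
  have hz1 : ω₁ (z.re / B) ≠ 0 := fun h0 => hz (by rw [h0]; ring)
  have hz2 : ω₂ (z.im / C) ≠ 0 := fun h0 => hz (by rw [h0]; ring)
  have hB0 : 0 < B := by linarith
  have hC0 : 0 < C := by linarith
  obtain ⟨a1, a2⟩ := h₁.supp _ hz1
  obtain ⟨b1, b2⟩ := h₂.supp _ hz2
  rw [le_div_iff₀ hB0] at a1
  rw [div_le_iff₀ hB0] at a2
  rw [le_div_iff₀ hC0] at b1
  rw [div_le_iff₀ hC0] at b2
  exact ⟨⟨by linarith, by linarith⟩, ⟨by linarith, by linarith⟩⟩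

theorem g_zero {A₁ A₂ : ℝ} {ω₁ ω₂ : ℝ → ℂ} (h₁ : Wt A₁ ω₁) (h₂ : Wt A₂ ω₂) {B C : ℝ} (hB : 1 ≤ B)
    (hC : 1 ≤ C) (j k h : ℝ) (z : ℂ) (hz : 2 * B + 2 * C < ‖z‖) :
    g ω₁ ω₂ B C j k h z = 0 := by
  by_contra hne
  obtain ⟨⟨a1, a2⟩, b1, b2⟩ := g_ne h₁ h₂ hB hC j k h hne
  have h3 : ‖z‖ ≤ |z.re| + |z.im| := Complex.norm_le_abs_re_add_abs_im z
  rw [abs_of_nonneg (by linarith), abs_of_nonneg (by linarith)] at h3
  linarith

theorem g_compact {A₁ A₂ : ℝ} {ω₁ ω₂ : ℝ → ℂ} (h₁ : Wt A₁ ω₁) (h₂ : Wt A₂ ω₂) {B C : ℝ}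
    (hB : 1 ≤ B) (hC : 1 ≤ C) (j k h : ℝ) : HasCompactSupport (g ω₁ ω₂ B C j k h) := by
  refine HasCompactSupport.intro (isCompact_closedBall (0 : ℂ) (2 * B + 2 * C)) fun z hz => ?_
  rw [Metric.mem_closedBall, dist_zero_right, not_le] at hz
  exact g_zero h₁ h₂ hB hC j k h z hz

theorem summable_one : Summable (fun n : ℤ => 1 / (1 + (n : ℝ) ^ 2)) := by
  have h1 : Summable (fun n : ℤ => 1 / (n : ℝ) ^ 2) :=
    Real.summable_one_div_int_pow.mpr one_lt_two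
  have h2 : Summable (fun n : ℤ => if n = 0 then (1 : ℝ) else 0) := (hasSum_ite_eq 0 1).summable
  refine Summable.of_nonneg_of_le (fun n => by positivity) (fun n => ?_) (h1.add h2)
  by_cases hn : n = 0
  · subst hn
    simp
  · have hn' : (0 : ℝ) < (n : ℝ) ^ 2 := by
      have : (n : ℝ) ≠ 0 := by exact_mod_cast hn
      positivity
    simp only [hn, if_false, add_zero]
    exact one_div_le_one_div_of_le hn' (by linarith)

theorem summable_schwartz (φ : SchwartzMap ℂ ℂ) :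
    Summable (fun p : ℤ × ℤ => φ (((p.1:ℝ):ℂ) + ((p.2:ℝ):ℂ) * Complex.I)) := by
  obtain ⟨C0, h0, H0⟩ := φ.decay 0 0
  obtain ⟨C2, h2, H2⟩ := φ.decay 2 0
  obtain ⟨C4, h4, H4⟩ := φ.decay 4 0
  have hs := summable_one.mul_of_nonneg summable_one (fun n => by positivity)
    (fun n => by positivity)
  refine Summable.of_norm_bounded (hs.mul_left (C0 + C2 + C4)) fun p => ?_
  set w : ℂ := ((p.1:ℝ):ℂ) + ((p.2:ℝ):ℂ) * Complex.I with hw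
  have a0 := H0 w
  have a2 := H2 w
  have a4 := H4 w
  simp only [norm_iteratedFDeriv_zero] at a0 a2 a4
  have hn : ‖w‖ ^ 2 = (p.1 : ℝ) ^ 2 + (p.2 : ℝ) ^ 2 := by
    rw [← Complex.normSq_eq_norm_sq, Complex.normSq_apply, hw]
    simp
    ring
  have hn4 : ‖w‖ ^ 4 = ((p.1 : ℝ) ^ 2 + (p.2 : ℝ) ^ 2) ^ 2 := by
    rw [← hn]
    ring
  have hpos1 : (0 : ℝ) < 1 + (p.1 : ℝ) ^ 2 := by positivity
  have hpos2 : (0 : ℝ) < 1 + (p.2 : ℝ) ^ 2 := by positivity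
  rw [div_mul_div_comm, one_mul, mul_one_div, le_div_iff₀ (mul_pos hpos1 hpos2)]
  have hφ := norm_nonneg (φ w)
  have key : ‖φ w‖ * ((1 + (p.1 : ℝ) ^ 2) * (1 + (p.2 : ℝ) ^ 2)) ≤
      ‖φ w‖ + ‖w‖ ^ 2 * ‖φ w‖ + ‖w‖ ^ 4 * ‖φ w‖ := by
    have : (1 + (p.1 : ℝ) ^ 2) * (1 + (p.2 : ℝ) ^ 2) ≤ 1 + ‖w‖ ^ 2 + ‖w‖ ^ 4 := by
      rw [hn, hn4]
      nlinarith [sq_nonneg ((p.1 : ℝ) ^ 2), sq_nonneg ((p.2 : ℝ) ^ 2),
        mul_nonneg (sq_nonneg (p.1 : ℝ)) (sq_nonneg (p.2 : ℝ))]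
    calc _ ≤ ‖φ w‖ * (1 + ‖w‖ ^ 2 + ‖w‖ ^ 4) := mul_le_mul_of_nonneg_left this hφ
      _ = _ := by ring
  rw [pow_zero, one_mul] at a0
  linarith

/-- change of variables -/
theorem int_scale (B C : ℝ) (hB : 0 < B) (hC : 0 < C) (f : ℝ × ℝ → ℂ) :
    ∫ p : ℝ × ℝ, f p = ((B * C : ℝ) : ℂ) * ∫ z : ℝ × ℝ, f (B * z.1, C * z.2) := by
  have h1 : Measure.map (fun z : ℝ × ℝ => (B * z.1, C * z.2)) (volume : Measure (ℝ × ℝ)) =
      ENNReal.ofReal (B * C)⁻¹ • (volume : Measure (ℝ × ℝ)) := by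
    have e1 := Measure.map_prod_map (volume : Measure ℝ) (volume : Measure ℝ)
      (measurable_const_mul B) (measurable_const_mul C)
    rw [Real.map_volume_mul_left hB.ne', Real.map_volume_mul_left hC.ne'] at e1
    show Measure.map (Prod.map (B * ·) (C * ·)) ((volume : Measure ℝ).prod volume) = _
    rw [← e1, Measure.prod_smul_left, Measure.prod_smul_right, smul_smul, Measure.volume_eq_prod,
      ← ENNReal.ofReal_mul (abs_nonneg _), ← abs_mul, ← mul_inv, abs_of_pos (by positivity)]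
  have hme : MeasurableEmbedding (fun z : ℝ × ℝ => (B * z.1, C * z.2)) :=
    ((Homeomorph.mulLeft₀ B hB.ne').prodCongr
      (Homeomorph.mulLeft₀ C hC.ne')).measurableEmbedding
  have h2 : ∫ z : ℝ × ℝ, f (B * z.1, C * z.2) = (B * C)⁻¹ • ∫ p : ℝ × ℝ, f p := by
    rw [← hme.integral_map f, h1, integral_smul_measure, ENNReal.toReal_ofReal (by positivity)]
  rw [h2, Complex.real_smul]
  push_cast
  have hB' : (B : ℂ) ≠ 0 := by exact_mod_cast hB.ne'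
  have hC' : (C : ℂ) ≠ 0 := by exact_mod_cast hC.ne'
  field_simp

theorem four_eq {ω₁ ω₂ : ℝ → ℂ} {B C : ℝ} (hB : 1 ≤ B) (hC : 1 ≤ C) (j k h : ℝ) (ν₁ ν₂ : ℝ) :
    𝓕 (g ω₁ ω₂ B C j k h) ((ν₁ : ℂ) + (ν₂ : ℂ) * Complex.I) =
      ((B * C : ℝ) : ℂ) * Jh ω₁ ω₂ B C j k h ν₁ ν₂ := by
  have hB0 : 0 < B := by linarith
  have hC0 : 0 < C := by linarith
  rw [Real.fourier_eq', int_complex_eq, int_scale B C hB0 hC0]
  congr 1
  unfold Jh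
  refine integral_congr_ae (Eventually.of_forall fun z => ?_)
  simp only
  rw [inner_re_im]
  unfold g
  have r1 : ((((B * z.1 : ℝ) : ℂ) + ((C * z.2 : ℝ) : ℂ) * Complex.I)).re = B * z.1 := by simp
  have r2 : ((((B * z.1 : ℝ) : ℂ) + ((C * z.2 : ℝ) : ℂ) * Complex.I)).im = C * z.2 := by simp
  rw [r1, r2, mul_div_cancel_left₀ _ hB0.ne', mul_div_cancel_left₀ _ hC0.ne', smul_eq_mul]
  have h3 : Complex.exp (((-2 * Real.pi * (B * z.1 * ν₁ + C * z.2 * ν₂) : ℝ) : ℂ) * Complex.I) =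
      ee (-(ν₁ * B * z.1) - ν₂ * C * z.2) := by
    unfold ee
    congr 2
    push_cast
    ring
  rw [h3, show ph j k h (B * z.1) (C * z.2) - ν₁ * B * z.1 - ν₂ * C * z.2 =
    (-(ν₁ * B * z.1) - ν₂ * C * z.2) + ph j k h (B * z.1) (C * z.2) by ring, ← ee_add]
  ring

theorem sum_eq {A₁ A₂ : ℝ} {ω₁ ω₂ : ℝ → ℂ} (h₁ : Wt A₁ ω₁) (h₂ : Wt A₂ ω₂) {B C : ℝ} (hB : 1 ≤ B)
    (hC : 1 ≤ C) (j k h : ℝ) :
    ∑' p : ℤ × ℤ, g ω₁ ω₂ B C j k h (((p.1:ℝ):ℂ) + ((p.2:ℝ):ℂ) * Complex.I) =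
      ∑ b ∈ Finset.Icc 1 ⌊2 * B⌋₊, ∑ c ∈ Finset.Icc 1 ⌊2 * C⌋₊,
      ω₁ ((b : ℝ) / B) * ω₂ ((c : ℝ) / C) * ee (ph j k h b c) := by
  classical
  set S : Finset (ℕ × ℕ) := Finset.Icc 1 ⌊2 * B⌋₊ ×ˢ Finset.Icc 1 ⌊2 * C⌋₊ with hS
  set ι : ℕ × ℕ → ℤ × ℤ := fun p => ((p.1 : ℤ), (p.2 : ℤ)) with hι
  have hinj : Function.Injective ι := by
    intro p q hpq
    rw [hι] at hpq
    simp only [Prod.mk.injEq, Nat.cast_inj] at hpq
    exact Prod.ext hpq.1 hpq.2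
  rw [tsum_eq_sum (s := S.image ι)]
  · rw [Finset.sum_image fun x _ y _ hxy => hinj hxy, hS, Finset.sum_product]
    refine Finset.sum_congr rfl fun b _ => Finset.sum_congr rfl fun c _ => ?_
    unfold g
    simp [hι]
  · intro p hp
    by_contra hne
    obtain ⟨⟨a1, a2⟩, b1, b2⟩ := g_ne h₁ h₂ hB hC j k h hne
    have r1 : ((((p.1 : ℝ) : ℂ) + ((p.2 : ℝ) : ℂ) * Complex.I)).re = p.1 := by simp
    have r2 : ((((p.1 : ℝ) : ℂ) + ((p.2 : ℝ) : ℂ) * Complex.I)).im = p.2 := by simp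
    rw [r1] at a1 a2
    rw [r2] at b1 b2
    apply hp
    have p1 : 0 < p.1 := by
      have : (0 : ℝ) < p.1 := by linarith
      exact_mod_cast this
    have p2 : 0 < p.2 := by
      have : (0 : ℝ) < p.2 := by linarith
      exact_mod_cast this
    obtain ⟨n1, hn1⟩ := Int.eq_ofNat_of_zero_le p1.le
    obtain ⟨n2, hn2⟩ := Int.eq_ofNat_of_zero_le p2.le
    rw [Finset.mem_image]
    refine ⟨(n1, n2), ?_, Prod.ext hn1.symm hn2.symm⟩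
    rw [hS, Finset.mem_product, Finset.mem_Icc, Finset.mem_Icc]
    rw [hn1] at p1 a2
    rw [hn2] at p2 b2
    refine ⟨⟨by exact_mod_cast p1, ?_⟩, by exact_mod_cast p2, ?_⟩
    · rw [Nat.le_floor_iff (by linarith)]
      exact_mod_cast a2
    · rw [Nat.le_floor_iff (by linarith)]
      exact_mod_cast b2

end P1aux

open P1aux in
theorem t_P1 : S_P1 := by
  intro A₁ A₂ ω₁ ω₂ h₁ h₂ B C hB hC j k h _
  have hsm := g_smooth h₁ h₂ B C j k h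
  have hcs := g_compact h₁ h₂ hB hC j k h
  have hs : Summable (fun p : ℤ × ℤ =>
      𝓕 (g ω₁ ω₂ B C j k h) (((p.1:ℝ):ℂ) + ((p.2:ℝ):ℂ) * Complex.I)) :=
    summable_schwartz (𝓕 (hcs.toSchwartzMap hsm))
  have hp := Pool.Agent.H383.Gauss.poisson2 hsm.continuous (B := 2 * B + 2 * C)
    (g_zero h₁ h₂ hB hC j k h) hs
  rw [sum_eq h₁ h₂ hB hC j k h] at hp
  rw [hp]
  have := hs.hasSum
  simp only [four_eq hB hC j k h] at this
  have h2 : ∑' p : ℤ × ℤ, 𝓕 (g ω₁ ω₂ B C j k h) (((p.1:ℝ):ℂ) + ((p.2:ℝ):ℂ) * Complex.I) =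
      ∑' p : ℤ × ℤ, ((B * C : ℝ) : ℂ) * Jh ω₁ ω₂ B C j k h p.1 p.2 :=
    tsum_congr fun p => four_eq hB hC j k h p.1 p.2
  rw [h2]
  exact this

end Pool.Agent.H304R4.CM
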