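import Pool.Agent.H304R4.CM.Stubs

open Complex MeasureTheory Filter Topology

namespace Pool.Agent.H304R4.CM

theorem t_P2 : S_P2 := by
  intro ω₁ ω₂ B C j k h ν₁ ν₂ hB hC hk hh
  unfold Jh II
  congr 1
  funext z
  congr 1
  congr 1
  unfold ph PP n1h n2h
  field_simp
  ring

end Pool.Agent.H304R4.CM
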