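import Pool.Agent.H304R4.CM.Stubs

open Complex MeasureTheory Filter Topology

namespace Pool.Agent.H304R4.CM

theorem U2_pow (c : ℕ) (θ : ℝ) : ee ((c : ℝ) * θ) = (ee θ) ^ c := by
  unfold ee
  rw [← Complex.exp_nat_mul]
  congr 1
  push_cast
  ring

theorem U2_norm (θ : ℝ) : ‖ee θ‖ = 1 := by
  unfold ee
  exact Complex.norm_exp_ofReal_mul_I _

theorem U2_low (θ : ℝ) : 4 * nd θ ≤ ‖1 - ee θ‖ := by
  have h1 : ‖1 - ee θ‖ = 2 * |Real.sin (Real.pi * θ)| := by
    rw [norm_sub_rev]
    unfold ee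
    rw [mul_comm, Complex.norm_exp_I_mul_ofReal_sub_one]
    rw [Real.norm_eq_abs, abs_mul, abs_of_pos (show (0:ℝ) < 2 by norm_num)]
    congr 3
    ring
  have h2 : |Real.sin (Real.pi * θ)| = |Real.sin (Real.pi * (θ - round θ))| := by
    have e : Real.pi * (θ - round θ) = Real.pi * θ - (round θ : ℤ) * Real.pi := by ring
    rw [e, Real.sin_sub_int_mul_pi, abs_mul]
    have : |((-1 : ℝ)) ^ (round θ)| = 1 := by
      rw [abs_zpow, abs_neg, abs_one, one_zpow]
    rw [this, one_mul]
  have h3 : |θ - round θ| ≤ 1 / 2 := abs_sub_round θ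
  have h4 : |Real.pi * (θ - round θ)| ≤ Real.pi / 2 := by
    rw [abs_mul, abs_of_pos Real.pi_pos]
    nlinarith [Real.pi_pos]
  have h5 := Real.mul_abs_le_abs_sin h4
  rw [abs_mul, abs_of_pos Real.pi_pos] at h5
  have h6 : 2 / Real.pi * (Real.pi * |θ - round θ|) = 2 * |θ - round θ| := by
    field_simp
  rw [h6] at h5
  rw [h1, h2]
  unfold nd
  linarith

theorem t_U2 : S_U2 := by
  refine ⟨2, by norm_num, ?_⟩
  intro A ω hω C θ hC
  have hC0 : 0 < C := by linarith
  have hb : ∀ x, ‖ω x‖ ≤ A := fun x => by simpa using hω.bound 0 (by norm_num) x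
  have hA : 0 ≤ A := (norm_nonneg _).trans (hb 0)
  have hd : ∀ x, ‖deriv ω x‖ ≤ A := fun x => by
    have := hω.bound 1 (by norm_num) x
    rwa [iteratedDeriv_one] at this
  have hdiff : Differentiable ℝ ω := hω.smooth.differentiable (by simp)
  have hlip : ∀ x y, ‖ω y - ω x‖ ≤ A * ‖y - x‖ := fun x y =>
    convex_univ.norm_image_sub_le_of_norm_deriv_le (fun z _ => hdiff z) (fun z _ => hd z)
      (Set.mem_univ x) (Set.mem_univ y)
  set N := ⌊2 * C⌋₊ with hN
  have hN1 : (N : ℝ) ≤ 2 * C := Nat.floor_le (by positivity)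
  have hN2 : 2 * C < (N : ℝ) + 1 := Nat.lt_floor_add_one _
  set v : ℕ → ℂ := fun c => ω ((c : ℝ) / C) with hv
  have hv0 : v 0 = 0 := by
    by_contra h
    have h1 := (hω.supp _ h).1
    rw [Nat.cast_zero, zero_div] at h1
    linarith
  have hvN : v (N + 1) = 0 := by
    by_contra h
    have := (hω.supp _ h).2
    rw [div_le_iff₀ hC0] at this
    push_cast at this
    linarith
  set z := ee θ with hz
  have hz1 : ‖z‖ = 1 := U2_norm θ
  have hS : ∑ c ∈ Finset.Icc 1 N, ω ((c : ℝ) / C) * ee (c * θ) =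
      ∑ c ∈ Finset.range (N + 1), v c * z ^ c := by
    rw [Finset.sum_range_succ', hv0, zero_mul, add_zero]
    rw [Finset.range_eq_Ico, Finset.sum_Ico_add' (fun c => v c * z ^ c) 0 N 1]
    rw [zero_add]
    have : Finset.Icc 1 N = Finset.Ico 1 (N + 1) := by
      ext x; simp [Finset.mem_Icc, Finset.mem_Ico, Nat.lt_succ_iff]
    rw [this]
    refine Finset.sum_congr rfl fun c _ => ?_
    rw [U2_pow]
  rw [hS]
  set S := ∑ c ∈ Finset.range (N + 1), v c * z ^ c with hSdef
  have htriv : ‖S‖ ≤ 2 * C * A := by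
    have h1 : S = ∑ c ∈ Finset.range N, v (c + 1) * z ^ (c + 1) := by
      rw [hSdef, Finset.sum_range_succ', hv0, zero_mul, add_zero]
    rw [h1]
    refine (norm_sum_le _ _).trans ?_
    have h2 : ∑ c ∈ Finset.range N, ‖v (c + 1) * z ^ (c + 1)‖ ≤ ∑ _c ∈ Finset.range N, A := by
      refine Finset.sum_le_sum fun c _ => ?_
      rw [norm_mul, norm_pow, hz1, one_pow, mul_one]
      exact hb _
    refine h2.trans ?_
    rw [Finset.sum_const, Finset.card_range, nsmul_eq_mul]
    exact mul_le_mul_of_nonneg_right hN1 hA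
  have habel : (1 - z) * S = ∑ c ∈ Finset.range (N + 1), (v (c + 1) - v c) * z ^ (c + 1) := by
    have h1 : S = ∑ c ∈ Finset.range (N + 1), v (c + 1) * z ^ (c + 1) := by
      rw [Finset.sum_range_succ, hvN, zero_mul, add_zero]
      rw [hSdef, Finset.sum_range_succ', hv0, zero_mul, add_zero]
    have h2 : z * S = ∑ c ∈ Finset.range (N + 1), v c * z ^ (c + 1) := by
      rw [hSdef, Finset.mul_sum]
      refine Finset.sum_congr rfl fun c _ => ?_
      rw [pow_succ]; ring
    rw [sub_mul, one_mul, h2]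
    nth_rewrite 1 [h1]
    rw [← Finset.sum_sub_distrib]
    refine Finset.sum_congr rfl fun c _ => ?_
    ring
  have hbd : ‖(1 - z) * S‖ ≤ 3 * A := by
    rw [habel]
    refine (norm_sum_le _ _).trans ?_
    have h2 : ∑ c ∈ Finset.range (N + 1), ‖(v (c + 1) - v c) * z ^ (c + 1)‖ ≤
        ∑ _c ∈ Finset.range (N + 1), A / C := by
      refine Finset.sum_le_sum fun c _ => ?_
      rw [norm_mul, norm_pow, hz1, one_pow, mul_one]
      have := hlip ((c : ℝ) / C) (((c + 1 : ℕ) : ℝ) / C)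
      refine this.trans (le_of_eq ?_)
      have e : ((c + 1 : ℕ) : ℝ) / C - (c : ℝ) / C = 1 / C := by
        push_cast; ring
      rw [e, Real.norm_eq_abs, abs_of_pos (by positivity)]
      ring
    refine h2.trans ?_
    rw [Finset.sum_const, Finset.card_range, nsmul_eq_mul]
    push_cast
    rw [mul_div_assoc', div_le_iff₀ hC0]
    nlinarith
  have hlow := U2_low θ
  rw [norm_mul] at hbd
  unfold mC
  split_ifs with h
  · nlinarith
  · push Not at h
    have hnd : 0 < nd θ := by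
      by_contra hcon
      push Not at hcon
      nlinarith
    rw [mul_one_div, le_div_iff₀ hnd]
    have h5 : 4 * nd θ * ‖S‖ ≤ 3 * A := by
      refine le_trans ?_ hbd
      exact mul_le_mul_of_nonneg_right hlow (norm_nonneg _)
    nlinarith [norm_nonneg S]

end Pool.Agent.H304R4.CM
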