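import Pool.Agent.H304R4.CM.Stubs

set_option autoImplicit false

namespace Pool.Agent.H304R4.CM.U3

open Pool.Agent.H304R4.CM Finset

theorem card_le_real {α β : Type*} [DecidableEq α] [DecidableEq β] (s : Finset α) (f : α → β)
    (c : ℝ) (h : ∀ b ∈ s.image f, (({x ∈ s | f x = b} : Finset α).card : ℝ) ≤ c) :
    (s.card : ℝ) ≤ c * (s.image f).card := by
  have h1 := Finset.card_eq_sum_card_image f s
  have h2 : (s.card : ℝ) = ∑ b ∈ s.image f, (({x ∈ s | f x = b} : Finset α).card : ℝ) := by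
    rw [h1]; push_cast; rfl
  rw [h2]
  calc _ ≤ ∑ b ∈ s.image f, c := Finset.sum_le_sum h
    _ = _ := by rw [Finset.sum_const, nsmul_eq_mul, mul_comm]

/-- reduced data of a triple, `m` being the nearby integer -/
noncomputable def bh (t : ℕ × ℕ × ℕ) : ℕ × ℕ :=
  (t.2.1 / Nat.gcd t.2.1 t.2.2, t.2.2 / Nat.gcd t.2.1 t.2.2)

noncomputable def pq (M : ℕ × ℕ × ℕ → ℕ) (t : ℕ × ℕ × ℕ) : ℕ × ℕ :=
  (M t / Nat.gcd (M t) (2 * t.1), 2 * t.1 / Nat.gcd (M t) (2 * t.1))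

/-- the hypotheses on a triple -/
structure Tr (B H Δ : ℝ) (K₁ : ℕ) (M : ℕ × ℕ × ℕ → ℕ) (t : ℕ × ℕ × ℕ) : Prop where
  k1 : K₁ ≤ t.1
  k2 : t.1 < 2 * K₁
  b1 : B / 2 ≤ t.2.1
  b2 : (t.2.1 : ℝ) ≤ 2 * B
  h1 : H / 2 ≤ t.2.2
  h2 : (t.2.2 : ℝ) ≤ 2 * H
  m1 : 1 ≤ M t
  near : |2 * (t.1 : ℝ) * t.2.1 ^ 2 / t.2.2 ^ 2 - M t| ≤ Δ

section

variable {B H Δ : ℝ} {K₁ : ℕ} {M : ℕ × ℕ × ℕ → ℕ} {t : ℕ × ℕ × ℕ}

theorem Tr.b0 (h : Tr B H Δ K₁ M t) (hB : 0 < B) : 0 < t.2.1 := by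
  have := h.b1
  have h1 : (0 : ℝ) < t.2.1 := by linarith
  exact_mod_cast h1

theorem Tr.h0 (h : Tr B H Δ K₁ M t) (hH : 0 < H) : 0 < t.2.2 := by
  have := h.h1
  have h1 : (0 : ℝ) < t.2.2 := by linarith
  exact_mod_cast h1

theorem Tr.bh_eq (t : ℕ × ℕ × ℕ) : Nat.gcd t.2.1 t.2.2 * (bh t).1 = t.2.1 ∧
    Nat.gcd t.2.1 t.2.2 * (bh t).2 = t.2.2 :=
  ⟨Nat.mul_div_cancel' (Nat.gcd_dvd_left _ _), Nat.mul_div_cancel' (Nat.gcd_dvd_right _ _)⟩

theorem Tr.pq_eq (M : ℕ × ℕ × ℕ → ℕ) (t : ℕ × ℕ × ℕ) :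
    Nat.gcd (M t) (2 * t.1) * (pq M t).1 = M t ∧
    Nat.gcd (M t) (2 * t.1) * (pq M t).2 = 2 * t.1 :=
  ⟨Nat.mul_div_cancel' (Nat.gcd_dvd_left _ _), Nat.mul_div_cancel' (Nat.gcd_dvd_right _ _)⟩

theorem Tr.gpos (h : Tr B H Δ K₁ M t) (hB : 0 < B) : 0 < Nat.gcd t.2.1 t.2.2 :=
  Nat.gcd_pos_of_pos_left _ (h.b0 hB)

theorem Tr.dpos (h : Tr B H Δ K₁ M t) : 0 < Nat.gcd (M t) (2 * t.1) :=
  Nat.gcd_pos_of_pos_left _ h.m1

theorem Tr.bh_pos (h : Tr B H Δ K₁ M t) (hB : 0 < B) (hH : 0 < H) :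
    0 < (bh t).1 ∧ 0 < (bh t).2 := by
  have h1 := Tr.bh_eq t
  have h2 := h.b0 hB
  have h3 := h.h0 hH
  constructor
  · rcases Nat.eq_zero_or_pos (bh t).1 with h4 | h4
    · rw [h4] at h1; omega
    · exact h4
  · rcases Nat.eq_zero_or_pos (bh t).2 with h4 | h4
    · rw [h4] at h1; omega
    · exact h4

theorem Tr.pq_pos (h : Tr B H Δ K₁ M t) (hK : 1 ≤ K₁) :
    0 < (pq M t).1 ∧ 0 < (pq M t).2 := by
  have h1 := Tr.pq_eq M t
  have h2 := h.m1
  have h3 := h.k1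
  constructor
  · rcases Nat.eq_zero_or_pos (pq M t).1 with h4 | h4
    · rw [h4] at h1; omega
    · exact h4
  · rcases Nat.eq_zero_or_pos (pq M t).2 with h4 | h4
    · rw [h4] at h1; omega
    · exact h4

theorem Tr.bh_cop (h : Tr B H Δ K₁ M t) (hB : 0 < B) : Nat.Coprime (bh t).1 (bh t).2 :=
  Nat.coprime_div_gcd_div_gcd (h.gpos hB)

theorem Tr.pq_cop (h : Tr B H Δ K₁ M t) : Nat.Coprime (pq M t).1 (pq M t).2 :=
  Nat.coprime_div_gcd_div_gcd h.dpos

theorem Tr.frac (h : Tr B H Δ K₁ M t) (hB : 0 < B) (hH : 0 < H) :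
    ((bh t).1 : ℝ) / (bh t).2 = (t.2.1 : ℝ) / t.2.2 := by
  have h1 := Tr.bh_eq t
  have hg : (0 : ℝ) < (Nat.gcd t.2.1 t.2.2 : ℕ) := by exact_mod_cast h.gpos hB
  have h2 : ((Nat.gcd t.2.1 t.2.2 : ℕ) : ℝ) * (bh t).1 = t.2.1 := by exact_mod_cast h1.1
  have h3 : ((Nat.gcd t.2.1 t.2.2 : ℕ) : ℝ) * (bh t).2 = t.2.2 := by exact_mod_cast h1.2
  rw [← h2, ← h3, mul_div_mul_left _ _ hg.ne']

theorem Tr.frac' (h : Tr B H Δ K₁ M t) (hK : 1 ≤ K₁) :
    ((pq M t).1 : ℝ) / (pq M t).2 = (M t : ℝ) / (2 * t.1) := by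
  have h1 := Tr.pq_eq M t
  have hg : (0 : ℝ) < (Nat.gcd (M t) (2 * t.1) : ℕ) := by exact_mod_cast h.dpos
  have h2 : ((Nat.gcd (M t) (2 * t.1) : ℕ) : ℝ) * (pq M t).1 = M t := by exact_mod_cast h1.1
  have h3 : ((Nat.gcd (M t) (2 * t.1) : ℕ) : ℝ) * (pq M t).2 = 2 * t.1 := by exact_mod_cast h1.2
  rw [← h2, ← h3, mul_div_mul_left _ _ hg.ne']

theorem Tr.close (h : Tr B H Δ K₁ M t) (hB : 0 < B) (hH : 0 < H) (hΔ : 0 < Δ) (hK : 1 ≤ K₁) :
    |(((bh t).1 : ℝ) / (bh t).2) ^ 2 - ((pq M t).1 : ℝ) / (pq M t).2| ≤ Δ / (2 * K₁) := by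
  rw [h.frac hB hH, h.frac' hK]
  have hk : (K₁ : ℝ) ≤ t.1 := by exact_mod_cast h.k1
  have hK' : (1 : ℝ) ≤ K₁ := by exact_mod_cast hK
  have hk0 : (0 : ℝ) < 2 * t.1 := by linarith
  have h0 : (0 : ℝ) < t.2.2 := by exact_mod_cast h.h0 hH
  have h1 : ((t.2.1 : ℝ) / t.2.2) ^ 2 - (M t : ℝ) / (2 * t.1) =
      (2 * (t.1 : ℝ) * t.2.1 ^ 2 / t.2.2 ^ 2 - M t) / (2 * t.1) := by
    have hk00 : (t.1 : ℝ) ≠ 0 := by linarith
    field_simp
  rw [h1, abs_div, abs_of_pos hk0]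
  calc _ ≤ Δ / (2 * t.1) := div_le_div_of_nonneg_right h.near hk0.le
    _ ≤ Δ / (2 * K₁) := div_le_div_of_nonneg_left hΔ.le (by linarith) (by linarith)

theorem Tr.range (h : Tr B H Δ K₁ M t) (hB : 0 < B) (hH : 0 < H) :
    B / H / 4 ≤ ((bh t).1 : ℝ) / (bh t).2 ∧ ((bh t).1 : ℝ) / (bh t).2 ≤ 4 * (B / H) := by
  rw [h.frac hB hH]
  have h0 : (0 : ℝ) < t.2.2 := by exact_mod_cast h.h0 hH
  constructor
  · rw [div_div, div_le_div_iff₀ (by positivity) h0]
    have := h.b1; have := h.h2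
    nlinarith
  · rw [← mul_div_assoc, div_le_div_iff₀ h0 hH]
    have := h.b2; have := h.h1
    nlinarith

end

/-- the count in one dyadic cell -/
theorem cell (hFAR : S_FAR) {B H Δ : ℝ} {K₁ : ℕ} (hB : 1 ≤ B) (hH : 1 ≤ H) (hΔ : 0 < Δ)
    (hΔ' : Δ ≤ 1 / 4) (hK : 1 ≤ K₁) (M : ℕ × ℕ × ℕ → ℕ) (T : Finset (ℕ × ℕ × ℕ))
    (hT : ∀ t ∈ T, Tr B H Δ K₁ M t) (H₁ Q : ℕ) (hH₁ : 1 ≤ H₁) (hQ : 1 ≤ Q)
    (hc : ∀ t ∈ T, (H₁ ≤ (bh t).2 ∧ (bh t).2 < 2 * H₁) ∧ Q ≤ (pq M t).2 ∧ (pq M t).2 < 2 * Q) :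
    (T.card : ℝ) ≤ 32768 * (K₁ * (H * √(B / H) ^ 3 + B * H * Δ)) := by
  classical
  have hB0 : 0 < B := by linarith
  have hH0 : 0 < H := by linarith
  have hK' : (1 : ℝ) ≤ K₁ := by exact_mod_cast hK
  have hK0 : (0 : ℝ) < K₁ := by linarith
  have hH₁' : (1 : ℝ) ≤ H₁ := by exact_mod_cast hH₁
  have hQ' : (1 : ℝ) ≤ Q := by exact_mod_cast hQ
  set r : ℝ := B / H with hr
  have hr0 : 0 < r := by positivity
  rcases T.eq_empty_or_nonempty with rfl | ⟨t₀, ht₀⟩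
  · simp only [card_empty, Nat.cast_zero]; positivity
  have hT0 := hT t₀ ht₀
  have hc0 := hc t₀ ht₀
  have hH₁H : (H₁ : ℝ) ≤ 2 * H := by
    have h1 : (bh t₀).2 ≤ t₀.2.2 := Nat.div_le_self _ _
    have h2 : (H₁ : ℝ) ≤ t₀.2.2 := by exact_mod_cast hc0.1.1.trans h1
    exact h2.trans hT0.h2
  have hQK : (Q : ℝ) ≤ 4 * K₁ := by
    have h1 : (pq M t₀).2 ≤ 2 * t₀.1 := Nat.div_le_self _ _
    have h2 : Q ≤ 4 * K₁ := by have := hT0.k2; omega
    exact_mod_cast h2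
  set P : Finset ((ℕ × ℕ) × (ℕ × ℕ)) := T.image (fun t => (bh t, pq M t)) with hP
  -- step 1 : multiplicities
  have step1 : (T.card : ℝ) ≤ ((2 * H / H₁) * (4 * K₁ / Q)) * P.card := by
    refine card_le_real T (fun t => (bh t, pq M t)) _ (fun x hx => ?_)
    have hinj : (({t ∈ T | (bh t, pq M t) = x} : Finset (ℕ × ℕ × ℕ)).card) ≤
        (Finset.Icc 1 ⌊2 * H / H₁⌋₊ ×ˢ Finset.Icc 1 ⌊4 * (K₁ : ℝ) / Q⌋₊).card := by
      refine Finset.card_le_card_of_injOn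
        (fun t => (Nat.gcd t.2.1 t.2.2, Nat.gcd (M t) (2 * t.1))) ?_ ?_
      · intro t ht
        simp only [coe_filter, Set.mem_ofPred_eq] at ht
        obtain ⟨htT, _⟩ := ht
        have h := hT t htT
        have hcc := hc t htT
        simp only [coe_product, coe_Icc, Set.mem_prod, Set.mem_Icc]
        refine ⟨⟨h.gpos hB0, ?_⟩, h.dpos, ?_⟩
        · apply Nat.le_floor
          rw [le_div_iff₀ (by linarith)]
          have h1 := (Tr.bh_eq t).2
          have h2 : Nat.gcd t.2.1 t.2.2 * H₁ ≤ t.2.2 := by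
            calc _ ≤ Nat.gcd t.2.1 t.2.2 * (bh t).2 := Nat.mul_le_mul_left _ hcc.1.1
              _ = _ := h1
          have h3 : ((Nat.gcd t.2.1 t.2.2 : ℕ) : ℝ) * H₁ ≤ t.2.2 := by exact_mod_cast h2
          exact h3.trans h.h2
        · apply Nat.le_floor
          rw [le_div_iff₀ (by linarith)]
          have h1 := (Tr.pq_eq M t).2
          have h2 : Nat.gcd (M t) (2 * t.1) * Q ≤ 2 * t.1 := by
            calc _ ≤ Nat.gcd (M t) (2 * t.1) * (pq M t).2 := Nat.mul_le_mul_left _ hcc.2.1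
              _ = _ := h1
          have h3 : Nat.gcd (M t) (2 * t.1) * Q ≤ 4 * K₁ := by have := h.k2; omega
          exact_mod_cast h3
      · intro t ht t' ht' heq
        simp only [coe_filter, Set.mem_ofPred_eq] at ht ht'
        simp only [Prod.mk.injEq] at heq
        have e1 : bh t = bh t' := by
          have := ht.2.trans ht'.2.symm
          exact (Prod.mk.inj this).1
        have e2 : pq M t = pq M t' := by
          have := ht.2.trans ht'.2.symm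
          exact (Prod.mk.inj this).2
        have a1 := Tr.bh_eq t
        have a2 := Tr.bh_eq t'
        have a3 := (Tr.pq_eq M t).2
        have a4 := (Tr.pq_eq M t').2
        rw [e1, heq.1] at a1
        rw [e2, heq.2] at a3
        have b1 : t.2.1 = t'.2.1 := a1.1.symm.trans a2.1
        have b2 : t.2.2 = t'.2.2 := a1.2.symm.trans a2.2
        have b3 : t.1 = t'.1 := by have := a3.symm.trans a4; omega
        exact Prod.ext b3 (Prod.ext b1 b2)
    have h1 : (({t ∈ T | (bh t, pq M t) = x} : Finset (ℕ × ℕ × ℕ)).card : ℝ) ≤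
        (⌊2 * H / H₁⌋₊ : ℝ) * ⌊4 * (K₁ : ℝ) / Q⌋₊ := by
      rw [Finset.card_product, Nat.card_Icc, Nat.card_Icc, Nat.add_sub_cancel,
        Nat.add_sub_cancel] at hinj
      exact_mod_cast hinj
    refine h1.trans (mul_le_mul (Nat.floor_le (by positivity)) (Nat.floor_le (by positivity))
      (Nat.cast_nonneg _) (by positivity))
  -- elements of P
  have hPmem : ∀ x ∈ P, ∃ t ∈ T, x = (bh t, pq M t) := by
    intro x hx
    obtain ⟨t, ht, h⟩ := Finset.mem_image.mp hx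
    exact ⟨t, ht, h.symm⟩
  -- step 2 : first count
  have step2 : (P.card : ℝ) ≤ (1 + (2 * (Q : ℝ)) ^ 2 * (Δ / K₁)) * (8 * r * H₁ ^ 2) := by
    have h1 : (P.card : ℝ) ≤ (1 + (2 * (Q : ℝ)) ^ 2 * (Δ / K₁)) * (P.image Prod.fst).card := by
      refine card_le_real P Prod.fst _ (fun y hy => ?_)
      have hinj : Set.InjOn Prod.snd
          (({x ∈ P | x.1 = y} : Finset ((ℕ × ℕ) × (ℕ × ℕ))) : Set ((ℕ × ℕ) × (ℕ × ℕ))) := by
        intro x hx x' hx' he
        simp only [coe_filter, Set.mem_ofPred_eq] at hx hx'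
        exact Prod.ext (hx.2.trans hx'.2.symm) he
      rw [← Finset.card_image_of_injOn hinj]
      have := hFAR (2 * Q) (((y.1 : ℝ) / y.2) ^ 2 - Δ / (2 * K₁))
        (((y.1 : ℝ) / y.2) ^ 2 + Δ / (2 * K₁))
        (({x ∈ P | x.1 = y} : Finset ((ℕ × ℕ) × (ℕ × ℕ))).image Prod.snd)
        (by linarith) (by have : 0 < Δ / (2 * K₁) := by positivity
                          linarith) ?_
      · refine this.trans (le_of_eq ?_)
        field_simp
        ring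
      · intro s hs
        obtain ⟨x, hx, rfl⟩ := Finset.mem_image.mp hs
        obtain ⟨hxP, hxy⟩ := Finset.mem_filter.mp hx
        obtain ⟨t, ht, rfl⟩ := hPmem x hxP
        have h := hT t ht
        have hcc := hc t ht
        have hcl := h.close hB0 hH0 hΔ hK
        dsimp only at hxy ⊢
        subst hxy
        rw [abs_le] at hcl
        refine ⟨(h.pq_pos hK).2, ?_, h.pq_cop, by linarith [hcl.2], by linarith [hcl.1]⟩
        exact_mod_cast hcc.2.2.le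
    have h2 : ((P.image Prod.fst).card : ℝ) ≤ 8 * r * H₁ ^ 2 := by
      have hsub : P.image Prod.fst ⊆ Finset.Icc 1 ⌊8 * r * H₁⌋₊ ×ˢ Finset.Ico H₁ (2 * H₁) := by
        intro y hy
        obtain ⟨x, hx, rfl⟩ := Finset.mem_image.mp hy
        obtain ⟨t, ht, rfl⟩ := hPmem x hx
        have h := hT t ht
        have hcc := hc t ht
        have hr2 := (h.range hB0 hH0).2
        have hpos := h.bh_pos hB0 hH0
        simp only [Finset.mem_product, Finset.mem_Icc, Finset.mem_Ico]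
        refine ⟨⟨hpos.1, ?_⟩, hcc.1.1, hcc.1.2⟩
        apply Nat.le_floor
        have h3 : (0 : ℝ) < (bh t).2 := by exact_mod_cast hpos.2
        have h4 : ((bh t).2 : ℝ) ≤ 2 * H₁ := by exact_mod_cast hcc.1.2.le
        rw [div_le_iff₀ h3] at hr2
        have h5 : 4 * r * ((bh t).2 : ℝ) ≤ 4 * r * (2 * H₁) :=
          mul_le_mul_of_nonneg_left h4 (by positivity)
        linarith
      have h3 := Finset.card_le_card hsub
      rw [Finset.card_product, Nat.card_Icc, Nat.card_Ico, Nat.add_sub_cancel] at h3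
      have h4 : ((P.image Prod.fst).card : ℝ) ≤ (⌊8 * r * H₁⌋₊ : ℝ) * H₁ := by
        have h5 : 2 * H₁ - H₁ = H₁ := by omega
        rw [h5] at h3
        exact_mod_cast h3
      have h5 : (⌊8 * r * H₁⌋₊ : ℝ) ≤ 8 * r * H₁ := Nat.floor_le (by positivity)
      calc _ ≤ (⌊8 * r * H₁⌋₊ : ℝ) * H₁ := h4
        _ ≤ (8 * r * H₁) * H₁ := mul_le_mul_of_nonneg_right h5 (by linarith)
        _ = _ := by ring
    exact h1.trans (mul_le_mul_of_nonneg_left h2 (by positivity))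
  -- step 3 : second count
  have step3 : (P.card : ℝ) ≤ (1 + (2 * (H₁ : ℝ)) ^ 2 * (2 * Δ / (K₁ * r))) * (64 * r ^ 2 * Q ^ 2) := by
    have h1 : (P.card : ℝ) ≤ (1 + (2 * (H₁ : ℝ)) ^ 2 * (2 * Δ / (K₁ * r))) *
        (P.image Prod.snd).card := by
      refine card_le_real P Prod.snd _ (fun y hy => ?_)
      have hinj : Set.InjOn Prod.fst
          (({x ∈ P | x.2 = y} : Finset ((ℕ × ℕ) × (ℕ × ℕ))) : Set ((ℕ × ℕ) × (ℕ × ℕ))) := by
        intro x hx x' hx' he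
        simp only [coe_filter, Set.mem_ofPred_eq] at hx hx'
        exact Prod.ext he (hx.2.trans hx'.2.symm)
      rw [← Finset.card_image_of_injOn hinj]
      set F := (({x ∈ P | x.2 = y} : Finset ((ℕ × ℕ) × (ℕ × ℕ))).image Prod.fst) with hF
      rcases F.eq_empty_or_nonempty with he | hne
      · rw [he]; simp only [card_empty, Nat.cast_zero]; positivity
      obtain ⟨s₀, hs₀, hmin⟩ := Finset.exists_min_image F (fun s => (s.1 : ℝ) / s.2) hne
      have hFp : ∀ s ∈ F, ∃ t ∈ T, s = bh t ∧ y = pq M t := by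
        intro s hs
        rw [hF] at hs
        obtain ⟨x, hx, rfl⟩ := Finset.mem_image.mp hs
        obtain ⟨hxP, hxy⟩ := Finset.mem_filter.mp hx
        obtain ⟨t, ht, rfl⟩ := hPmem x hxP
        exact ⟨t, ht, rfl, hxy.symm⟩
      have := hFAR (2 * H₁) ((s₀.1 : ℝ) / s₀.2) ((s₀.1 : ℝ) / s₀.2 + 2 * Δ / (K₁ * r)) F
        (by linarith) (by have : 0 < 2 * Δ / (K₁ * r) := by positivity
                          linarith) ?_
      · refine this.trans (le_of_eq ?_)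
        ring
      · intro s hs
        obtain ⟨t, ht, rfl, hyt⟩ := hFp s hs
        obtain ⟨t', ht', hs0, hyt'⟩ := hFp s₀ hs₀
        have h := hT t ht
        have h' := hT t' ht'
        have hcc := hc t ht
        have hcl := h.close hB0 hH0 hΔ hK
        have hcl' := h'.close hB0 hH0 hΔ hK
        rw [← hyt] at hcl
        rw [← hyt', ← hs0] at hcl'
        have hr1 := (h.range hB0 hH0).1
        have hr1' := (h'.range hB0 hH0).1
        rw [← hs0] at hr1'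
        rw [← hr] at hr1 hr1'
        have hmin' := hmin _ hs
        refine ⟨(h.bh_pos hB0 hH0).2, ?_, h.bh_cop hB0, hmin', ?_⟩
        · exact_mod_cast hcc.1.2.le
        · set u := ((bh t).1 : ℝ) / (bh t).2 with hu
          set v := (s₀.1 : ℝ) / s₀.2 with hv
          rw [abs_le] at hcl hcl'
          have h3 : u ^ 2 - v ^ 2 ≤ Δ / K₁ := by
            have h4 : Δ / K₁ = Δ / (2 * K₁) + Δ / (2 * K₁) := by field_simp; ring
            rw [h4]; linarith [hcl.2, hcl'.1]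
          have h4 : (u - v) * (r / 2) ≤ Δ / K₁ := by
            have h5 : (u - v) * (r / 2) ≤ (u - v) * (u + v) :=
              mul_le_mul_of_nonneg_left (by linarith) (by linarith)
            nlinarith
          have h5 : u - v ≤ 2 * Δ / (K₁ * r) := by
            rw [le_div_iff₀ (by positivity)]
            rw [le_div_iff₀ hK0] at h4
            linarith
          linarith
    have h2 : ((P.image Prod.snd).card : ℝ) ≤ 64 * r ^ 2 * Q ^ 2 := by
      have hsub : P.image Prod.snd ⊆ Finset.Icc 1 ⌊64 * r ^ 2 * Q⌋₊ ×ˢ Finset.Ico Q (2 * Q) := by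
        intro y hy
        obtain ⟨x, hx, rfl⟩ := Finset.mem_image.mp hy
        obtain ⟨t, ht, rfl⟩ := hPmem x hx
        have h := hT t ht
        have hcc := hc t ht
        have hr2 := (h.range hB0 hH0).2
        have hr1 := (h.range hB0 hH0).1
        have hpos := h.pq_pos hK
        have hcl := h.close hB0 hH0 hΔ hK
        simp only [Finset.mem_product, Finset.mem_Icc, Finset.mem_Ico]
        refine ⟨⟨hpos.1, ?_⟩, hcc.2.1, hcc.2.2⟩
        apply Nat.le_floor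
        have hq0 : (0 : ℝ) < (pq M t).2 := by exact_mod_cast hpos.2
        have hp1 : (1 : ℝ) ≤ (pq M t).1 := by exact_mod_cast hpos.1
        have hq1 : ((pq M t).2 : ℝ) ≤ 2 * Q := by exact_mod_cast hcc.2.2.le
        have hqK : ((pq M t).2 : ℝ) ≤ 4 * K₁ := by
          have h1 : (pq M t).2 ≤ 2 * t.1 := Nat.div_le_self _ _
          have h2 : (pq M t).2 ≤ 4 * K₁ := by have := h.k2; omega
          exact_mod_cast h2
        rw [abs_le] at hcl
        set u := ((bh t).1 : ℝ) / (bh t).2 with hu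
        set p : ℝ := ((pq M t).1 : ℝ) with hp
        set q : ℝ := ((pq M t).2 : ℝ) with hq
        have h3 : Δ / (2 * K₁) ≤ p / q / 2 := by
          rw [div_div, div_le_div_iff₀ (by positivity) (by positivity)]
          nlinarith
        have h4 : p / q / 2 ≤ u ^ 2 := by linarith [hcl.1]
        have hu0 : 0 ≤ u := by positivity
        have h5 : u ^ 2 ≤ (4 * r) ^ 2 := pow_le_pow_left₀ hu0 hr2 2
        have h6 : p / q ≤ 32 * r ^ 2 := by nlinarith
        rw [div_le_iff₀ hq0] at h6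
        have h7 : 32 * r ^ 2 * q ≤ 32 * r ^ 2 * (2 * Q) :=
          mul_le_mul_of_nonneg_left hq1 (by positivity)
        linarith
      have h3 := Finset.card_le_card hsub
      rw [Finset.card_product, Nat.card_Icc, Nat.card_Ico, Nat.add_sub_cancel] at h3
      have h4 : ((P.image Prod.snd).card : ℝ) ≤ (⌊64 * r ^ 2 * Q⌋₊ : ℝ) * Q := by
        have h5 : 2 * Q - Q = Q := by omega
        rw [h5] at h3
        exact_mod_cast h3
      have h5 : (⌊64 * r ^ 2 * Q⌋₊ : ℝ) ≤ 64 * r ^ 2 * Q := Nat.floor_le (by positivity)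
      calc _ ≤ (⌊64 * r ^ 2 * Q⌋₊ : ℝ) * Q := h4
        _ ≤ (64 * r ^ 2 * Q) * Q := mul_le_mul_of_nonneg_right h5 (by linarith)
        _ = _ := by ring
    exact h1.trans (mul_le_mul_of_nonneg_left h2 (by positivity))
  -- combine
  set s := √r with hs
  have hs0 : 0 < s := Real.sqrt_pos.mpr hr0
  have hsr : s ^ 2 = r := Real.sq_sqrt hr0.le
  have hrH : r * H = B := by rw [hr]; field_simp
  set W : ℝ := r * H₁ ^ 2 * Q ^ 2 * Δ / K₁ with hW
  have hW0 : 0 ≤ W := by positivity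
  have c2 : (P.card : ℝ) ≤ 8 * r * H₁ ^ 2 + 32 * W := by
    refine step2.trans (le_of_eq ?_)
    rw [hW]; field_simp; ring
  have c3 : (P.card : ℝ) ≤ 64 * r ^ 2 * Q ^ 2 + 512 * W := by
    refine step3.trans (le_of_eq ?_)
    rw [hW]; field_simp; ring
  have c4 : (P.card : ℝ) ≤ 32 * s ^ 3 * H₁ * Q + 512 * W := by
    rcases le_total (H₁ : ℝ) (4 * s * Q) with hle | hle
    · have h1 : 8 * r * (H₁ : ℝ) ^ 2 ≤ 32 * s ^ 3 * H₁ * Q := by
        rw [← hsr]
        have h2 : 8 * s ^ 2 * (H₁ : ℝ) * H₁ ≤ 8 * s ^ 2 * H₁ * (4 * s * Q) :=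
          mul_le_mul_of_nonneg_left hle (by positivity)
        linarith
      linarith
    · have h1 : 64 * r ^ 2 * (Q : ℝ) ^ 2 ≤ 32 * s ^ 3 * H₁ * Q := by
        rw [← hsr]
        have h2 : 16 * s ^ 3 * (Q : ℝ) * (4 * s * Q) ≤ 16 * s ^ 3 * Q * H₁ :=
          mul_le_mul_of_nonneg_left hle (by positivity)
        have h3 : 0 ≤ 16 * s ^ 3 * (Q : ℝ) * H₁ := by positivity
        linarith
      linarith
  have c5 : (2 * H / H₁) * (4 * K₁ / Q) * (32 * s ^ 3 * H₁ * Q + 512 * W) =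
      256 * (K₁ * (H * s ^ 3)) + 4096 * (r * H) * (H₁ * Q) * Δ := by
    rw [hW]; field_simp; ring
  have c6 : (H₁ : ℝ) * Q ≤ (2 * H) * (4 * K₁) :=
    mul_le_mul hH₁H hQK (by linarith) (by linarith)
  calc (T.card : ℝ) ≤ (2 * H / H₁) * (4 * K₁ / Q) * P.card := step1
    _ ≤ (2 * H / H₁) * (4 * K₁ / Q) * (32 * s ^ 3 * H₁ * Q + 512 * W) :=
        mul_le_mul_of_nonneg_left c4 (by positivity)
    _ = 256 * (K₁ * (H * s ^ 3)) + 4096 * (r * H) * (H₁ * Q) * Δ := c5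
    _ = 256 * (K₁ * (H * s ^ 3)) + 4096 * B * Δ * (H₁ * Q) := by rw [hrH]; ring
    _ ≤ 256 * (K₁ * (H * s ^ 3)) + 4096 * B * Δ * ((2 * H) * (4 * K₁)) := by
        have := mul_le_mul_of_nonneg_left c6 (by positivity : 0 ≤ 4096 * B * Δ)
        linarith
    _ ≤ 32768 * (K₁ * (H * s ^ 3 + B * H * Δ)) := by
        have h1 : 0 ≤ (K₁ : ℝ) * (H * s ^ 3) := by positivity
        linarith

theorem rpow_id {B H : ℝ} (hB : 0 < B) (hH : 0 < H) :
    B ^ (3 / 2 : ℝ) * H ^ (-1 / 2 : ℝ) = H * √(B / H) ^ 3 := by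
  have h1 : √(B / H) ^ 3 = (B / H) ^ (3 / 2 : ℝ) := by
    rw [Real.sqrt_eq_rpow, ← Real.rpow_natCast, ← Real.rpow_mul (by positivity)]
    norm_num
  rw [h1, Real.div_rpow hB.le hH.le]
  have h2 : H ^ (-1 / 2 : ℝ) = H / H ^ (3 / 2 : ℝ) := by
    rw [eq_div_iff (Real.rpow_pos_of_pos hH _).ne', ← Real.rpow_add hH]
    norm_num
  rw [h2]; ring

theorem natLog_le {n : ℕ} (hn : 1 ≤ n) : (Nat.log 2 n : ℝ) ≤ 2 * Real.log n := by
  have h1 := Real.natLog_le_logb n 2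
  have h2 : Real.logb 2 n = Real.log n / Real.log 2 := rfl
  have h3 : (0.69 : ℝ) < Real.log 2 := by have := Real.log_two_gt_d9; linarith
  have h4 : 0 ≤ Real.log n := Real.log_nonneg (by exact_mod_cast hn)
  have h5 : Real.log n / Real.log 2 ≤ 2 * Real.log n := by
    rw [div_le_iff₀ (by linarith)]
    nlinarith
  have h6 : ((2 : ℕ) : ℝ) = 2 := by norm_num
  rw [h6] at h1
  rw [h2] at h1
  linarith

theorem t_U3 (hFAR : S_FAR) : S_U3 := by
  classical
  refine ⟨12 * 32768, by norm_num, ?_⟩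
  intro B H Δ K₁ hB hH hΔ hΔ' hK
  have hB0 : 0 < B := by linarith
  have hH0 : 0 < H := by linarith
  have hK' : (1 : ℝ) ≤ K₁ := by exact_mod_cast hK
  rw [rpow_id hB0 hH0]
  set T := (((Finset.Ico K₁ (2 * K₁)) ×ˢ ((Finset.Icc 1 ⌊2 * B⌋₊) ×ˢ
    (Finset.Icc 1 ⌊2 * H⌋₊))).filter
    (fun t : ℕ × ℕ × ℕ => B / 2 ≤ t.2.1 ∧ H / 2 ≤ t.2.2 ∧
      ∃ m : ℕ, 1 ≤ m ∧ |2 * (t.1 : ℝ) * t.2.1 ^ 2 / t.2.2 ^ 2 - m| ≤ Δ)) with hT
  set M : ℕ × ℕ × ℕ → ℕ := fun t =>
    if h : ∃ m : ℕ, 1 ≤ m ∧ |2 * (t.1 : ℝ) * t.2.1 ^ 2 / t.2.2 ^ 2 - m| ≤ Δ then h.choose else 0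
    with hM
  have hTr : ∀ t ∈ T, Tr B H Δ K₁ M t := by
    intro t ht
    rw [hT, Finset.mem_filter, Finset.mem_product, Finset.mem_product, Finset.mem_Ico,
      Finset.mem_Icc, Finset.mem_Icc] at ht
    obtain ⟨⟨⟨k1, k2⟩, ⟨b1, b2⟩, h1, h2⟩, hb, hh, hm⟩ := ht
    have hMt : M t = hm.choose := by rw [hM]; exact dif_pos hm
    refine ⟨k1, k2, hb, ?_, hh, ?_, ?_, ?_⟩
    · exact (Nat.le_floor_iff (by positivity)).mp b2
    · exact (Nat.le_floor_iff (by positivity)).mp h2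
    · rw [hMt]; exact hm.choose_spec.1
    · rw [hMt]; exact hm.choose_spec.2
  set I := Nat.log 2 ⌊2 * H⌋₊ + 1 with hI
  set L := Nat.log 2 (4 * K₁) + 1 with hL
  have hmaps : ∀ t ∈ T, (Nat.log 2 (bh t).2, Nat.log 2 (pq M t).2) ∈
      Finset.range I ×ˢ Finset.range L := by
    intro t ht
    have h := hTr t ht
    rw [Finset.mem_product, Finset.mem_range, Finset.mem_range]
    constructor
    · have h1 : (bh t).2 ≤ ⌊2 * H⌋₊ := by
        have h2 : (bh t).2 ≤ t.2.2 := Nat.div_le_self _ _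
        exact h2.trans (Nat.le_floor h.h2)
      have := Nat.log_mono_right (b := 2) h1
      dsimp only; omega
    · have h1 : (pq M t).2 ≤ 4 * K₁ := by
        have h2 : (pq M t).2 ≤ 2 * t.1 := Nat.div_le_self _ _
        have := h.k2; omega
      have := Nat.log_mono_right (b := 2) h1
      dsimp only; omega
  have hsum := Finset.card_eq_sum_card_fiberwise hmaps
  have hcell : ∀ x ∈ Finset.range I ×ˢ Finset.range L,
      (({t ∈ T | (Nat.log 2 (bh t).2, Nat.log 2 (pq M t).2) = x} : Finset (ℕ × ℕ × ℕ)).card : ℝ) ≤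
        32768 * (K₁ * (H * √(B / H) ^ 3 + B * H * Δ)) := by
    intro x _
    refine cell hFAR hB hH hΔ hΔ' hK M _ (fun t ht => hTr t (Finset.mem_filter.mp ht).1)
      (2 ^ x.1) (2 ^ x.2) Nat.one_le_two_pow Nat.one_le_two_pow ?_
    intro t ht
    obtain ⟨htT, hx⟩ := Finset.mem_filter.mp ht
    have h := hTr t htT
    subst hx
    dsimp only
    have hb := (h.bh_pos hB0 hH0).2
    have hp := (h.pq_pos hK).2
    refine ⟨⟨Nat.pow_log_le_self 2 hb.ne', ?_⟩, Nat.pow_log_le_self 2 hp.ne', ?_⟩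
    · have := Nat.lt_pow_succ_log_self (b := 2) (by norm_num) (bh t).2
      rw [pow_succ] at this; omega
    · have := Nat.lt_pow_succ_log_self (b := 2) (by norm_num) (pq M t).2
      rw [pow_succ] at this; omega
  have h1 : (T.card : ℝ) ≤ (I * L : ℝ) * (32768 * (K₁ * (H * √(B / H) ^ 3 + B * H * Δ))) := by
    rw [hsum]
    push_cast
    calc _ ≤ ∑ x ∈ Finset.range I ×ˢ Finset.range L,
          32768 * (K₁ * (H * √(B / H) ^ 3 + B * H * Δ)) := Finset.sum_le_sum hcell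
      _ = _ := by
        rw [Finset.sum_const, Finset.card_product, Finset.card_range, Finset.card_range,
          nsmul_eq_mul]
        push_cast; ring
  have hlogH : 0 ≤ Real.log H := Real.log_nonneg hH
  have hlogK : 0 ≤ Real.log K₁ := Real.log_nonneg hK'
  have hlog2 : Real.log 2 < 0.694 := by have := Real.log_two_lt_d9; linarith
  have hI' : (I : ℝ) ≤ 3 * (1 + Real.log H) := by
    have hfl : 1 ≤ ⌊2 * H⌋₊ := Nat.le_floor (by push_cast; linarith)
    have h2 := natLog_le hfl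
    have h3 : Real.log (⌊2 * H⌋₊ : ℝ) ≤ Real.log (2 * H) :=
      Real.log_le_log (by exact_mod_cast hfl) (Nat.floor_le (by positivity))
    rw [Real.log_mul (by norm_num) hH0.ne'] at h3
    rw [hI]; push_cast
    linarith
  have hL' : (L : ℝ) ≤ 4 * (1 + Real.log K₁) := by
    have h2 := natLog_le (n := 4 * K₁) (by omega)
    have h3 : Real.log ((4 * K₁ : ℕ) : ℝ) = 2 * Real.log 2 + Real.log K₁ := by
      push_cast
      rw [Real.log_mul (by norm_num) (by positivity), show (4 : ℝ) = 2 ^ 2 by norm_num,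
        Real.log_pow]
      push_cast; ring
    rw [h3] at h2
    rw [hL]; push_cast
    linarith
  have hIL : (I * L : ℝ) ≤ (3 * (1 + Real.log H)) * (4 * (1 + Real.log K₁)) :=
    mul_le_mul hI' hL' (Nat.cast_nonneg _) (by positivity)
  calc (T.card : ℝ) ≤ (I * L : ℝ) * (32768 * (K₁ * (H * √(B / H) ^ 3 + B * H * Δ))) := h1
    _ ≤ ((3 * (1 + Real.log H)) * (4 * (1 + Real.log K₁))) *
        (32768 * (K₁ * (H * √(B / H) ^ 3 + B * H * Δ))) :=
        mul_le_mul_of_nonneg_right hIL (by positivity)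
    _ = _ := by ring

end Pool.Agent.H304R4.CM.U3
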