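import Pool.Agent.H304R4.CM.Stubs

/-! U4: the sum of `min(C, 1/nd(2 k b^2/h^2))`. -/

set_option autoImplicit false

open Finset

namespace Pool.Agent.H304R4.CM

namespace U4

lemma mC_le_C {C θ : ℝ} (hC : 1 ≤ C) : mC C θ ≤ C := by
  unfold mC
  split_ifs with h
  · exact le_rfl
  · rw [not_le] at h
    have hn : 0 < nd θ := by
      by_contra h0
      rw [not_lt] at h0
      nlinarith
    rw [div_le_iff₀ hn]
    linarith

lemma mC_le_inv {C θ : ℝ} (h : 0 < nd θ) : mC C θ ≤ 1 / nd θ := by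
  unfold mC
  split_ifs with h1
  · rw [le_div_iff₀ h]
    linarith
  · exact le_rfl

open Classical in
lemma point {C α : ℝ} (hC : 1 ≤ C) (hα : 0 < α) (I : ℕ) (hI : 2 ≤ I) (hIC : C ≤ 2 ^ (I + 1)) :
    mC C α ≤ 4 + 1 / α + ∑ i ∈ Icc 2 I, (2 : ℝ) ^ (i + 1) *
      (if ∃ m : ℕ, 1 ≤ m ∧ |α - m| ≤ (1 / 2 : ℝ) ^ i then 1 else 0) := by
  have hsum : 0 ≤ ∑ i ∈ Icc 2 I, (2 : ℝ) ^ (i + 1) *
      (if ∃ m : ℕ, 1 ≤ m ∧ |α - m| ≤ (1 / 2 : ℝ) ^ i then (1 : ℝ) else 0) := by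
    apply sum_nonneg
    intro i _
    positivity
  have hinv : 0 < 1 / α := by positivity
  rcases le_or_gt (1 / 4) (nd α) with h | h
  · have h1 := mC_le_inv (C := C) (lt_of_lt_of_le (by norm_num) h)
    have h2 : 1 / nd α ≤ 4 := by
      rw [div_le_iff₀ (lt_of_lt_of_le (by norm_num) h)]
      linarith
    linarith
  · rcases le_or_gt (round α) 0 with h0 | h0
    · -- `round α = 0`
      have h1 : nd α = α := by
        have h2 : round α = 0 := by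
          apply le_antisymm h0
          rw [round_eq]
          exact Int.floor_nonneg.2 (by linarith)
        unfold nd
        rw [h2, Int.cast_zero, sub_zero, abs_of_pos hα]
      have h2 := mC_le_inv (C := C) (θ := α) (by rw [h1]; exact hα)
      rw [h1] at h2
      linarith
    · obtain ⟨m, hm⟩ : ∃ m : ℕ, round α = m := ⟨(round α).toNat, by omega⟩
      have hm1 : 1 ≤ m := by omega
      have hnd : nd α = |α - m| := by
        unfold nd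
        rw [hm, Int.cast_natCast]
      have hP2 : nd α ≤ (1 / 2 : ℝ) ^ 2 := by
        norm_num
        linarith
      set i0 := Nat.findGreatest (fun i => nd α ≤ (1 / 2 : ℝ) ^ i) I with hi0
      have hi2 : 2 ≤ i0 := Nat.le_findGreatest hI hP2
      have hiI : i0 ≤ I := Nat.findGreatest_le I
      have hPi : nd α ≤ (1 / 2 : ℝ) ^ i0 :=
        Nat.findGreatest_spec (P := fun i => nd α ≤ (1 / 2 : ℝ) ^ i) hI hP2
      have hle : mC C α ≤ (2 : ℝ) ^ (i0 + 1) := by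
        rcases Nat.eq_or_lt_of_le hiI with h1 | h1
        · rw [h1]
          exact (mC_le_C hC).trans hIC
        · have h2 : ¬ nd α ≤ (1 / 2 : ℝ) ^ (i0 + 1) := by
            intro h3
            have := Nat.le_findGreatest (P := fun i => nd α ≤ (1 / 2 : ℝ) ^ i) h1 h3
            omega
          rw [not_le] at h2
          have hp : (0 : ℝ) < (1 / 2 : ℝ) ^ (i0 + 1) := by positivity
          have hn : 0 < nd α := hp.trans h2
          refine (mC_le_inv hn).trans ?_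
          rw [div_le_iff₀ hn]
          have h4 : (2 : ℝ) ^ (i0 + 1) * (1 / 2 : ℝ) ^ (i0 + 1) = 1 := by
            rw [← mul_pow]
            norm_num
          have h5 : (2 : ℝ) ^ (i0 + 1) * (1 / 2 : ℝ) ^ (i0 + 1) ≤ (2 : ℝ) ^ (i0 + 1) * nd α :=
            mul_le_mul_of_nonneg_left h2.le (by positivity)
          linarith
      have h3 : (2 : ℝ) ^ (i0 + 1) ≤ ∑ i ∈ Icc 2 I, (2 : ℝ) ^ (i + 1) *
          (if ∃ m : ℕ, 1 ≤ m ∧ |α - m| ≤ (1 / 2 : ℝ) ^ i then (1 : ℝ) else 0) := by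
        have h4 := single_le_sum (f := fun i => (2 : ℝ) ^ (i + 1) *
          (if ∃ m : ℕ, 1 ≤ m ∧ |α - m| ≤ (1 / 2 : ℝ) ^ i then (1 : ℝ) else 0)) (s := Icc 2 I)
          (fun i _ => by positivity) (mem_Icc.2 ⟨hi2, hiI⟩)
        have h5 : ∃ m : ℕ, 1 ≤ m ∧ |α - m| ≤ (1 / 2 : ℝ) ^ i0 := ⟨m, hm1, by rw [← hnd]; exact hPi⟩
        simp only [if_pos h5, mul_one] at h4
        exact h4
      linarith

/-- harmonic sum -/
lemma harm (N : ℕ) : ∑ k ∈ Icc 1 N, (1 : ℝ) / k ≤ 1 + Real.log N := by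
  have h := harmonic_le_one_add_log N
  rw [harmonic_eq_sum_Icc] at h
  push_cast at h
  simpa only [one_div] using h

lemma swap3 (s1 s2 s3 t : Finset ℕ) (g : ℕ → ℕ → ℕ → ℕ → ℝ) :
    ∑ k ∈ s1, ∑ b ∈ s2, ∑ h ∈ s3, ∑ i ∈ t, g k b h i =
      ∑ i ∈ t, ∑ k ∈ s1, ∑ b ∈ s2, ∑ h ∈ s3, g k b h i := by
  have h1 : ∀ k b, ∑ h ∈ s3, ∑ i ∈ t, g k b h i = ∑ i ∈ t, ∑ h ∈ s3, g k b h i :=
    fun k b => sum_comm
  simp only [h1]
  have h2 : ∀ k, ∑ b ∈ s2, ∑ i ∈ t, ∑ h ∈ s3, g k b h i =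
      ∑ i ∈ t, ∑ b ∈ s2, ∑ h ∈ s3, g k b h i := fun k => sum_comm
  simp only [h2]
  exact sum_comm

lemma two_pow_log_le (N : ℕ) (hN : 1 ≤ N) : 2 ^ Nat.log 2 N ≤ N := Nat.pow_log_le_self 2 (by omega)

lemma geom (J : ℕ) : ∑ j ∈ range (J + 1), (2 : ℝ) ^ j ≤ 2 * 2 ^ J := by
  induction J with
  | zero => norm_num
  | succ J ih =>
    rw [sum_range_succ]
    calc _ ≤ 2 * (2 : ℝ) ^ J + 2 ^ (J + 1) := by linarith
      _ = 2 * 2 ^ (J + 1) := by ring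

lemma geom2 (I : ℕ) : ∑ i ∈ Icc 2 I, (2 : ℝ) ^ (i + 1) ≤ 4 * 2 ^ I := by
  have h1 : ∑ i ∈ Icc 2 I, (2 : ℝ) ^ (i + 1) ≤ ∑ i ∈ range (I + 1), (2 : ℝ) ^ (i + 1) := by
    apply sum_le_sum_of_subset_of_nonneg
    · intro i hi
      rw [mem_Icc] at hi
      rw [mem_range]
      omega
    · intro i _ _
      positivity
  have h2 : ∑ i ∈ range (I + 1), (2 : ℝ) ^ (i + 1) = 2 * ∑ i ∈ range (I + 1), (2 : ℝ) ^ i := by
    rw [mul_sum]
    apply sum_congr rfl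
    intro i _
    ring
  have h3 := geom I
  linarith

open Classical in
/-- the counted set -/
noncomputable def Fs (B H : ℝ) (S : Finset ℕ) (Δ : ℝ) : Finset (ℕ × ℕ × ℕ) :=
  ((S ×ˢ ((Finset.Icc 1 ⌊2 * B⌋₊) ×ˢ (Finset.Icc 1 ⌊2 * H⌋₊))).filter
    (fun t : ℕ × ℕ × ℕ => B / 2 ≤ t.2.1 ∧ H / 2 ≤ t.2.2 ∧
      ∃ m : ℕ, 1 ≤ m ∧ |2 * (t.1 : ℝ) * t.2.1 ^ 2 / t.2.2 ^ 2 - m| ≤ Δ))

lemma Fs_cover (B H : ℝ) (N : ℕ) (Δ : ℝ) :
    (Fs B H (Icc 1 N) Δ).card ≤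
      ∑ j ∈ range (Nat.log 2 N + 1), (Fs B H (Ico (2 ^ j) (2 * 2 ^ j)) Δ).card := by
  classical
  refine le_trans (card_le_card ?_) card_biUnion_le
  intro t ht
  unfold Fs at ht
  rw [mem_filter, mem_product, mem_Icc] at ht
  rw [mem_biUnion]
  refine ⟨Nat.log 2 t.1, ?_, ?_⟩
  · rw [mem_range]
    have := Nat.log_mono_right (b := 2) ht.1.1.2
    omega
  · unfold Fs
    rw [mem_filter, mem_product, mem_Ico]
    refine ⟨⟨⟨Nat.pow_log_le_self 2 (by omega), ?_⟩, ht.1.2⟩, ht.2⟩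
    have := Nat.lt_pow_succ_log_self (b := 2) (by norm_num) t.1
    rw [pow_succ] at this
    omega

open Classical in
lemma Fs_sum (B H : ℝ) (S : Finset ℕ) (Δ : ℝ) :
    ∑ k ∈ S, ∑ b ∈ (Finset.Icc 1 ⌊2 * B⌋₊).filter (fun b : ℕ => B / 2 ≤ b),
      ∑ h ∈ (Finset.Icc 1 ⌊2 * H⌋₊).filter (fun h : ℕ => H / 2 ≤ h),
        (if ∃ m : ℕ, 1 ≤ m ∧ |2 * (k : ℝ) * b ^ 2 / h ^ 2 - m| ≤ Δ then (1 : ℝ) else 0) =
      ((Fs B H S Δ).card : ℝ) := by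
  unfold Fs
  rw [card_filter]
  push_cast
  rw [sum_product]
  apply sum_congr rfl
  intro k _
  rw [sum_product, sum_filter]
  apply sum_congr rfl
  intro b _
  rw [sum_filter]
  by_cases hb : B / 2 ≤ (b : ℝ)
  · rw [if_pos hb]
    apply sum_congr rfl
    intro h _
    by_cases hh : H / 2 ≤ (h : ℝ)
    · simp only [hb, hh, true_and, if_true]
    · simp only [hb, hh, true_and, false_and, if_false]
  · rw [if_neg hb]
    symm
    apply sum_eq_zero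
    intro h _
    simp only [hb, false_and, if_false]

end U4

open U4

theorem t_U4 (hU3 : S_U3) : S_U4 := by
  classical
  obtain ⟨K, hK1, hK⟩ := hU3
  refine ⟨32 * K, by linarith, fun B C H N hB hC hH hN => ?_⟩
  obtain ⟨X, hX⟩ : ∃ X : ℝ, X = B ^ (3 / 2 : ℝ) * H ^ (-1 / 2 : ℝ) := ⟨_, rfl⟩
  have hX0 : 0 ≤ X := by rw [hX]; positivity
  have hN' : (1 : ℝ) ≤ N := by exact_mod_cast hN
  have hlogs : ∀ x y : ℝ, 1 ≤ x → x ≤ y → Real.log x ≤ Real.log y := fun x y hx hxy =>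
    Real.log_le_log (by linarith) hxy
  obtain ⟨P, hP⟩ : ∃ P : ℝ, P = B * C * H * N := ⟨_, rfl⟩
  have hBC : 1 ≤ B * C := one_le_mul_of_one_le_of_one_le hB hC
  have hBCH : 1 ≤ B * C * H := one_le_mul_of_one_le_of_one_le hBC hH
  have hPC : C ≤ P := by
    rw [hP]
    calc C ≤ B * C := le_mul_of_one_le_left (by linarith) hB
      _ ≤ B * C * H := le_mul_of_one_le_right (by linarith) hH
      _ ≤ B * C * H * N := le_mul_of_one_le_right (by linarith) hN'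
  have hPH : H ≤ P := by
    rw [hP]
    calc H ≤ B * C * H := le_mul_of_one_le_left (by linarith) hBC
      _ ≤ B * C * H * N := le_mul_of_one_le_right (by linarith) hN'
  have hPN : (N : ℝ) ≤ P := by
    rw [hP]
    exact le_mul_of_one_le_left (by linarith) hBCH
  obtain ⟨L, hL⟩ : ∃ L : ℝ, L = 1 + Real.log P := ⟨_, rfl⟩
  have hL1 : 1 ≤ L := by
    rw [hL]
    have := Real.log_nonneg (x := P) (by linarith)
    linarith
  have hLC : 1 + Real.log C ≤ L := by rw [hL]; linarith [hlogs C P hC hPC]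
  have hLH : 1 + Real.log H ≤ L := by rw [hL]; linarith [hlogs H P hH hPH]
  have hLN : 1 + Real.log N ≤ L := by rw [hL]; linarith [hlogs N P hN' hPN]
  have hC0 : 0 ≤ Real.log C := Real.log_nonneg hC
  have hH0 : 0 ≤ Real.log H := Real.log_nonneg hH
  have hN0 : 0 ≤ Real.log (N : ℝ) := Real.log_nonneg hN'
  rw [← hX, ← hP, ← hL]
  -- the parameter `I`
  obtain ⟨I, hI⟩ : ∃ I : ℕ, I = Nat.log 2 ⌊C⌋₊ + 2 := ⟨_, rfl⟩
  have hfl : 1 ≤ ⌊C⌋₊ := Nat.le_floor (by simpa using hC)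
  have hI2 : 2 ≤ I := by omega
  have hIC1 : (2 : ℝ) ^ I ≤ 4 * C := by
    have h1 : ((2 ^ Nat.log 2 ⌊C⌋₊ : ℕ) : ℝ) ≤ (⌊C⌋₊ : ℝ) := by
      exact_mod_cast two_pow_log_le _ hfl
    push_cast at h1
    have h2 := Nat.floor_le (by linarith : (0 : ℝ) ≤ C)
    rw [hI, pow_add]
    norm_num
    linarith
  have hIC2 : C ≤ (2 : ℝ) ^ (I + 1) := by
    have h1 := Nat.lt_pow_succ_log_self (b := 2) (by norm_num) ⌊C⌋₊
    have h2 : ((⌊C⌋₊ + 1 : ℕ) : ℝ) ≤ ((2 ^ (Nat.log 2 ⌊C⌋₊).succ : ℕ) : ℝ) := by exact_mod_cast h1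
    push_cast at h2
    have h3 := Nat.lt_floor_add_one C
    have h4 : (2 : ℝ) ^ ((Nat.log 2 ⌊C⌋₊).succ) ≤ 2 ^ (I + 1) :=
      pow_le_pow_right₀ (by norm_num) (by omega)
    linarith
  have hIlog : (I : ℝ) ≤ 2 * (1 + Real.log C) := by
    have h1 : ((2 ^ Nat.log 2 ⌊C⌋₊ : ℕ) : ℝ) ≤ (⌊C⌋₊ : ℝ) := by
      exact_mod_cast two_pow_log_le _ hfl
    push_cast at h1
    have h2 := Nat.floor_le (by linarith : (0 : ℝ) ≤ C)
    have h3 : Real.log ((2 : ℝ) ^ Nat.log 2 ⌊C⌋₊) ≤ Real.log C :=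
      Real.log_le_log (by positivity) (h1.trans h2)
    rw [Real.log_pow] at h3
    have h4 := Real.log_two_gt_d9
    have h5 : (Nat.log 2 ⌊C⌋₊ : ℝ) * (1 / 2) ≤ (Nat.log 2 ⌊C⌋₊ : ℝ) * Real.log 2 :=
      mul_le_mul_of_nonneg_left (by linarith) (Nat.cast_nonneg _)
    rw [hI]
    push_cast
    linarith
  -- the three sums
  obtain ⟨Bs, hBs⟩ : ∃ Bs : Finset ℕ, Bs = (Icc 1 ⌊2 * B⌋₊).filter (fun b : ℕ => B / 2 ≤ b) :=
    ⟨_, rfl⟩
  obtain ⟨Hs, hHs⟩ : ∃ Hs : Finset ℕ, Hs = (Icc 1 ⌊2 * H⌋₊).filter (fun h : ℕ => H / 2 ≤ h) :=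
    ⟨_, rfl⟩
  have hBsc : (Bs.card : ℝ) ≤ 2 * B := by
    have h1 : Bs.card ≤ ⌊2 * B⌋₊ := by
      rw [hBs]
      refine (card_filter_le _ _).trans ?_
      rw [Nat.card_Icc]
      omega
    have h2 : (Bs.card : ℝ) ≤ (⌊2 * B⌋₊ : ℝ) := by exact_mod_cast h1
    exact h2.trans (Nat.floor_le (by linarith))
  have hHsc : (Hs.card : ℝ) ≤ 2 * H := by
    have h1 : Hs.card ≤ ⌊2 * H⌋₊ := by
      rw [hHs]
      refine (card_filter_le _ _).trans ?_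
      rw [Nat.card_Icc]
      omega
    have h2 : (Hs.card : ℝ) ≤ (⌊2 * H⌋₊ : ℝ) := by exact_mod_cast h1
    exact h2.trans (Nat.floor_le (by linarith))
  have hpt : ∀ k ∈ Icc 1 N, ∀ b ∈ Bs, ∀ h ∈ Hs, mC C (2 * (k : ℝ) * b ^ 2 / h ^ 2) ≤
      4 + 8 * H ^ 2 / B ^ 2 * (1 / k) + ∑ i ∈ Icc 2 I, (2 : ℝ) ^ (i + 1) *
      (if ∃ m : ℕ, 1 ≤ m ∧ |2 * (k : ℝ) * b ^ 2 / h ^ 2 - m| ≤ (1 / 2 : ℝ) ^ i then (1 : ℝ) else 0) := by
    intro k hk b hb h hh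
    rw [mem_Icc] at hk
    rw [hBs, mem_filter, mem_Icc] at hb
    rw [hHs, mem_filter, mem_Icc] at hh
    have hk0 : (0 : ℝ) < k := by exact_mod_cast hk.1
    have hb0 : (0 : ℝ) < b := by exact_mod_cast hb.1.1
    have hh0 : (0 : ℝ) < h := by exact_mod_cast hh.1.1
    have hh2 : (h : ℝ) ≤ 2 * H := by
      have h1 : (h : ℝ) ≤ (⌊2 * H⌋₊ : ℝ) := by exact_mod_cast hh.1.2
      exact h1.trans (Nat.floor_le (by linarith))
    have h1 := point (α := 2 * (k : ℝ) * b ^ 2 / h ^ 2) hC (by positivity) I hI2 hIC2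
    have h2 : 1 / (2 * (k : ℝ) * b ^ 2 / h ^ 2) ≤ 8 * H ^ 2 / B ^ 2 * (1 / k) := by
      have e1 : 1 / (2 * (k : ℝ) * b ^ 2 / h ^ 2) = (h : ℝ) ^ 2 / (2 * b ^ 2) * (1 / k) := by
        field_simp
      rw [e1]
      apply mul_le_mul_of_nonneg_right _ (by positivity)
      rw [div_le_div_iff₀ (by positivity) (by positivity)]
      have h3 : (h : ℝ) ^ 2 ≤ (2 * H) ^ 2 := pow_le_pow_left₀ hh0.le hh2 2
      have h4 : (B / 2) ^ 2 ≤ (b : ℝ) ^ 2 := pow_le_pow_left₀ (by linarith) hb.2 2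
      have h5 : (h : ℝ) ^ 2 * B ^ 2 ≤ (2 * H) ^ 2 * (4 * b ^ 2) :=
        mul_le_mul h3 (by nlinarith) (by positivity) (by positivity)
      nlinarith
    linarith
  have hS : ∑ k ∈ Icc 1 N, ∑ b ∈ Bs, ∑ h ∈ Hs, mC C (2 * (k : ℝ) * b ^ 2 / h ^ 2) ≤
      ∑ k ∈ Icc 1 N, ∑ b ∈ Bs, ∑ h ∈ Hs, (4 + 8 * H ^ 2 / B ^ 2 * (1 / k) +
      ∑ i ∈ Icc 2 I, (2 : ℝ) ^ (i + 1) *
      (if ∃ m : ℕ, 1 ≤ m ∧ |2 * (k : ℝ) * b ^ 2 / h ^ 2 - m| ≤ (1 / 2 : ℝ) ^ i then (1 : ℝ) else 0)) :=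
    sum_le_sum fun k hk => sum_le_sum fun b hb => sum_le_sum fun h hh => hpt k hk b hb h hh
  have hS3 : ∑ k ∈ Icc 1 N, ∑ b ∈ Bs, ∑ h ∈ Hs, ∑ i ∈ Icc 2 I, (2 : ℝ) ^ (i + 1) *
      (if ∃ m : ℕ, 1 ≤ m ∧ |2 * (k : ℝ) * b ^ 2 / h ^ 2 - m| ≤ (1 / 2 : ℝ) ^ i then (1 : ℝ) else 0) =
      ∑ i ∈ Icc 2 I, (2 : ℝ) ^ (i + 1) * ((Fs B H (Icc 1 N) ((1 / 2 : ℝ) ^ i)).card : ℝ) := by
    refine (swap3 _ _ _ _ (fun k b h i => (2 : ℝ) ^ (i + 1) *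
      (if ∃ m : ℕ, 1 ≤ m ∧ |2 * (k : ℝ) * b ^ 2 / h ^ 2 - m| ≤ (1 / 2 : ℝ) ^ i then (1 : ℝ) else 0))).trans ?_
    apply sum_congr rfl
    intro i _
    rw [← Fs_sum, ← hBs, ← hHs]
    simp only [mul_sum]
  -- the counting bound
  have hcount : ∀ i ∈ Icc 2 I, ((Fs B H (Icc 1 N) ((1 / 2 : ℝ) ^ i)).card : ℝ) ≤
      2 * K * L ^ 2 * N * (X + B * H * (1 / 2 : ℝ) ^ i) := by
    intro i hi
    rw [mem_Icc] at hi
    have hΔ : (1 / 2 : ℝ) ^ i ≤ 1 / 4 := by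
      calc (1 / 2 : ℝ) ^ i ≤ (1 / 2 : ℝ) ^ 2 := pow_le_pow_of_le_one (by norm_num) (by norm_num) hi.1
        _ = 1 / 4 := by norm_num
    have h1 : ((Fs B H (Icc 1 N) ((1 / 2 : ℝ) ^ i)).card : ℝ) ≤
        ∑ j ∈ range (Nat.log 2 N + 1), ((Fs B H (Ico (2 ^ j) (2 * 2 ^ j)) ((1 / 2 : ℝ) ^ i)).card : ℝ) := by
      exact_mod_cast Fs_cover B H N ((1 / 2 : ℝ) ^ i)
    have h2 : ∀ j ∈ range (Nat.log 2 N + 1),
        ((Fs B H (Ico (2 ^ j) (2 * 2 ^ j)) ((1 / 2 : ℝ) ^ i)).card : ℝ) ≤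
        K * L ^ 2 * (X + B * H * (1 / 2 : ℝ) ^ i) * 2 ^ j := by
      intro j hj
      rw [mem_range] at hj
      have h3 := hK B H ((1 / 2 : ℝ) ^ i) (2 ^ j) hB hH (by positivity) hΔ Nat.one_le_two_pow
      rw [← hX] at h3
      have h4 : (1 : ℝ) ≤ ((2 ^ j : ℕ) : ℝ) := by exact_mod_cast Nat.one_le_two_pow
      have h5 : ((2 ^ j : ℕ) : ℝ) ≤ N := by
        have h6 : 2 ^ j ≤ N := (Nat.pow_le_pow_right (by norm_num) (by omega)).trans (two_pow_log_le N hN)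
        exact_mod_cast h6
      have h7 : 1 + Real.log ((2 ^ j : ℕ) : ℝ) ≤ L := by linarith [hlogs _ _ h4 h5]
      have h8 : 0 ≤ Real.log ((2 ^ j : ℕ) : ℝ) := Real.log_nonneg h4
      have h9 : 0 ≤ X + B * H * (1 / 2 : ℝ) ^ i := by positivity
      refine h3.trans ?_
      have h10 : K * (1 + Real.log H) * (1 + Real.log ((2 ^ j : ℕ) : ℝ)) ≤ K * L * L :=
        mul_le_mul (mul_le_mul_of_nonneg_left hLH (by linarith)) h7 (by linarith) (by positivity)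
      have h11 : K * (1 + Real.log H) * (1 + Real.log ((2 ^ j : ℕ) : ℝ)) * ((2 ^ j : ℕ) : ℝ) *
          (X + B * H * (1 / 2 : ℝ) ^ i) ≤ K * L * L * ((2 ^ j : ℕ) : ℝ) * (X + B * H * (1 / 2 : ℝ) ^ i) :=
        mul_le_mul_of_nonneg_right (mul_le_mul_of_nonneg_right h10 (by linarith)) h9
      refine h11.trans (le_of_eq ?_)
      push_cast
      ring
    refine h1.trans ((sum_le_sum h2).trans ?_)
    rw [← mul_sum]
    have h3 := geom (Nat.log 2 N)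
    have h4 : ((2 ^ Nat.log 2 N : ℕ) : ℝ) ≤ N := by exact_mod_cast two_pow_log_le N hN
    push_cast at h4
    have h9 : 0 ≤ K * L ^ 2 * (X + B * H * (1 / 2 : ℝ) ^ i) := by positivity
    have h5 : ∑ j ∈ range (Nat.log 2 N + 1), (2 : ℝ) ^ j ≤ 2 * N := by linarith
    have h6 := mul_le_mul_of_nonneg_left h5 h9
    refine h6.trans (le_of_eq ?_)
    ring
  have hT3 : ∑ i ∈ Icc 2 I, (2 : ℝ) ^ (i + 1) * ((Fs B H (Icc 1 N) ((1 / 2 : ℝ) ^ i)).card : ℝ) ≤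
      32 * K * L ^ 4 * (N * C * X) + 8 * K * L ^ 4 * (N * B * H) := by
    have h1 : ∑ i ∈ Icc 2 I, (2 : ℝ) ^ (i + 1) * ((Fs B H (Icc 1 N) ((1 / 2 : ℝ) ^ i)).card : ℝ) ≤
        ∑ i ∈ Icc 2 I, (2 * K * L ^ 2 * N * X * (2 : ℝ) ^ (i + 1) + 4 * K * L ^ 2 * (N * B * H)) := by
      apply sum_le_sum
      intro i hi
      have h2 := mul_le_mul_of_nonneg_left (hcount i hi) (by positivity : (0 : ℝ) ≤ (2 : ℝ) ^ (i + 1))
      refine h2.trans (le_of_eq ?_)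
      have h4 : (2 : ℝ) ^ (i + 1) * (1 / 2 : ℝ) ^ i = 2 := by
        rw [pow_succ, mul_assoc, mul_comm (2 : ℝ) ((1 / 2 : ℝ) ^ i), ← mul_assoc, ← mul_pow]
        norm_num
      calc (2 : ℝ) ^ (i + 1) * (2 * K * L ^ 2 * N * (X + B * H * (1 / 2 : ℝ) ^ i)) =
          2 * K * L ^ 2 * N * X * (2 : ℝ) ^ (i + 1) +
            2 * K * L ^ 2 * (N * B * H) * ((2 : ℝ) ^ (i + 1) * (1 / 2 : ℝ) ^ i) := by ring
        _ = _ := by rw [h4]; ring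
    refine h1.trans ?_
    rw [sum_add_distrib, ← mul_sum, sum_const, nsmul_eq_mul, Nat.card_Icc]
    have h2 := geom2 I
    have h3 : ∑ i ∈ Icc 2 I, (2 : ℝ) ^ (i + 1) ≤ 16 * C := by linarith
    have hL24 : L ^ 2 ≤ L ^ 4 := pow_le_pow_right₀ hL1 (by norm_num)
    have hL34 : L ^ 3 ≤ L ^ 4 := pow_le_pow_right₀ hL1 (by norm_num)
    have h4 : 2 * K * L ^ 2 * N * X * ∑ i ∈ Icc 2 I, (2 : ℝ) ^ (i + 1) ≤ 32 * K * L ^ 4 * (N * C * X) := by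
      have h5 : 2 * K * L ^ 2 * N * X * ∑ i ∈ Icc 2 I, (2 : ℝ) ^ (i + 1) ≤
          2 * K * L ^ 2 * N * X * (16 * C) := mul_le_mul_of_nonneg_left h3 (by positivity)
      have h6 : 32 * K * (N * C * X) * L ^ 2 ≤ 32 * K * (N * C * X) * L ^ 4 :=
        mul_le_mul_of_nonneg_left hL24 (by positivity)
      linarith
    have h5 : ((I + 1 - 2 : ℕ) : ℝ) ≤ 2 * L := by
      have h6 : ((I + 1 - 2 : ℕ) : ℝ) ≤ I := by exact_mod_cast (by omega : I + 1 - 2 ≤ I)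
      linarith
    have h6 : ((I + 1 - 2 : ℕ) : ℝ) * (4 * K * L ^ 2 * (N * B * H)) ≤ 8 * K * L ^ 4 * (N * B * H) := by
      have h7 : ((I + 1 - 2 : ℕ) : ℝ) * (4 * K * L ^ 2 * (N * B * H)) ≤
          (2 * L) * (4 * K * L ^ 2 * (N * B * H)) := mul_le_mul_of_nonneg_right h5 (by positivity)
      have h8 : 8 * K * (N * B * H) * L ^ 3 ≤ 8 * K * (N * B * H) * L ^ 4 :=
        mul_le_mul_of_nonneg_left hL34 (by positivity)
      linarith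
    linarith
  have hT1 : ∑ k ∈ Icc 1 N, ∑ b ∈ Bs, ∑ h ∈ Hs, (4 : ℝ) ≤ 16 * (N * B * H) := by
    simp only [sum_const, nsmul_eq_mul, Nat.card_Icc, Nat.add_sub_cancel]
    have h1 : (Bs.card : ℝ) * ((Hs.card : ℝ) * 4) ≤ (2 * B) * ((2 * H) * 4) :=
      mul_le_mul hBsc (by linarith) (by positivity) (by linarith)
    have h2 := mul_le_mul_of_nonneg_left h1 (by linarith : (0 : ℝ) ≤ N)
    refine h2.trans (le_of_eq ?_)
    ring
  have hT2 : ∑ k ∈ Icc 1 N, ∑ b ∈ Bs, ∑ h ∈ Hs, (8 * H ^ 2 / B ^ 2 * (1 / (k : ℝ))) ≤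
      32 * L * (H ^ 3 / B) := by
    simp only [sum_const, nsmul_eq_mul]
    have h1 : ∀ k ∈ Icc 1 N, (Bs.card : ℝ) * ((Hs.card : ℝ) * (8 * H ^ 2 / B ^ 2 * (1 / (k : ℝ)))) ≤
        32 * (H ^ 3 / B) * (1 / (k : ℝ)) := by
      intro k _
      have h2 : (Bs.card : ℝ) * ((Hs.card : ℝ) * (8 * H ^ 2 / B ^ 2 * (1 / (k : ℝ)))) ≤
          (2 * B) * ((2 * H) * (8 * H ^ 2 / B ^ 2 * (1 / (k : ℝ)))) :=
        mul_le_mul hBsc (mul_le_mul_of_nonneg_right hHsc (by positivity)) (by positivity) (by linarith)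
      refine h2.trans (le_of_eq ?_)
      field_simp
      ring
    refine (sum_le_sum h1).trans ?_
    rw [← mul_sum]
    have h2 := harm N
    have h3 : 32 * (H ^ 3 / B) * ∑ k ∈ Icc 1 N, (1 : ℝ) / (k : ℝ) ≤ 32 * (H ^ 3 / B) * L :=
      mul_le_mul_of_nonneg_left (h2.trans hLN) (by positivity)
    linarith
  rw [hBs, hHs] at hS
  refine hS.trans ?_
  rw [← hBs, ← hHs]
  simp only [sum_add_distrib]
  rw [hS3]
  have hL14 : L ≤ L ^ 4 := by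
    calc L = L ^ 1 := (pow_one L).symm
      _ ≤ L ^ 4 := pow_le_pow_right₀ hL1 (by norm_num)
  have hL04 : 1 ≤ L ^ 4 := one_le_pow₀ hL1
  have h1 : 16 * (N * B * H) ≤ 16 * K * L ^ 4 * (N * B * H) := by
    have h2 : 1 ≤ K * L ^ 4 := one_le_mul_of_one_le_of_one_le hK1 hL04
    have h3 : 0 ≤ N * B * H := by positivity
    nlinarith
  have h2 : 32 * L * (H ^ 3 / B) ≤ 32 * K * L ^ 4 * (H ^ 3 / B) := by
    have h3 : L ≤ K * L ^ 4 := by nlinarith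
    have h4 : 0 ≤ H ^ 3 / B := by positivity
    nlinarith
  have h3 : 0 ≤ K * L ^ 4 * (N * B * H) := by positivity
  linarith

end Pool.Agent.H304R4.CM
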