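import Mathlib
import Pool.Agent.H304R4.CM.Stubs

set_option autoImplicit false

open Complex MeasureTheory Filter Topology

namespace Pool.Agent.H304R4.CM

namespace TU5

lemma Wt_nonneg {A : ℝ} {w : ℝ → ℂ} (h : Wt A w) : 0 ≤ A :=
  (norm_nonneg _).trans (h.bound 0 (by norm_num) 0)

/-- splitting a symmetric sum -/
lemma split_sum (g : ℤ → ℝ) (hg : ∀ k, 0 ≤ g k) (N : ℕ) :
    ∑ k ∈ Finset.Ioo (-(N : ℤ)) N, g k ≤
      g 0 + ∑ k ∈ Finset.Icc 1 N, g (k : ℤ) + ∑ k ∈ Finset.Icc 1 N, g (-(k : ℤ)) := by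
  classical
  have hsub : Finset.Ioo (-(N : ℤ)) N ⊆
      ({0} ∪ (Finset.Icc 1 N).image (fun k : ℕ => (k : ℤ))) ∪
        (Finset.Icc 1 N).image (fun k : ℕ => -(k : ℤ)) := by
    intro k hk
    rw [Finset.mem_Ioo] at hk
    rw [Finset.mem_union, Finset.mem_union, Finset.mem_singleton, Finset.mem_image,
      Finset.mem_image]
    rcases lt_trichotomy k 0 with h | h | h
    · right
      refine ⟨(-k).toNat, ?_, ?_⟩
      · rw [Finset.mem_Icc]; omega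
      · omega
    · left; left; exact h
    · left; right
      refine ⟨k.toNat, ?_, ?_⟩
      · rw [Finset.mem_Icc]; omega
      · omega
  calc ∑ k ∈ Finset.Ioo (-(N : ℤ)) N, g k
      ≤ ∑ k ∈ ({0} ∪ (Finset.Icc 1 N).image (fun k : ℕ => (k : ℤ))) ∪
        (Finset.Icc 1 N).image (fun k : ℕ => -(k : ℤ)), g k :=
        Finset.sum_le_sum_of_subset_of_nonneg hsub fun k _ _ => hg k
    _ ≤ ∑ k ∈ ({0} ∪ (Finset.Icc 1 N).image (fun k : ℕ => (k : ℤ))), g k +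
        ∑ k ∈ (Finset.Icc 1 N).image (fun k : ℕ => -(k : ℤ)), g k := by
        rw [← Finset.sum_union_inter]
        exact le_add_of_nonneg_right (Finset.sum_nonneg fun k _ => hg k)
    _ ≤ (∑ k ∈ ({0} : Finset ℤ), g k + ∑ k ∈ (Finset.Icc 1 N).image (fun k : ℕ => (k : ℤ)), g k) +
        ∑ k ∈ (Finset.Icc 1 N).image (fun k : ℕ => -(k : ℤ)), g k := by
        refine add_le_add ?_ le_rfl
        rw [← Finset.sum_union_inter]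
        exact le_add_of_nonneg_right (Finset.sum_nonneg fun k _ => hg k)
    _ = g 0 + ∑ k ∈ Finset.Icc 1 N, g (k : ℤ) + ∑ k ∈ Finset.Icc 1 N, g (-(k : ℤ)) := by
        rw [Finset.sum_singleton, Finset.sum_image (fun x _ y _ h => by
          simpa using h), Finset.sum_image (fun x _ y _ h => by simpa using h)]

lemma Ioo_one : Finset.Ioo (-((1 : ℕ) : ℤ)) ((1 : ℕ) : ℤ) = {0} := by decide

/-- the sum after Weyl differencing with `J = 1` -/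
lemma weyl (KU : ℝ) (hW3 : S_W3) (hSY : S_SY)
    (hUA : ∀ (A₁ A₂ A₃ : ℝ) (ω₁ ω₃ : ℝ → ℂ) (ω₂ : ℤ → ℝ → ℂ),
      Wt A₁ ω₁ → (∀ k, Wt A₂ (ω₂ k)) → Wt A₃ ω₃ →
      ∀ (B C H : ℝ) (N : ℕ), 1 ≤ B → 1 ≤ C → 1 ≤ H → 1 ≤ N →
      ∑ k ∈ Finset.Icc 1 N, ‖TT ω₁ (ω₂ k) ω₃ B C H 0 k‖ ≤
        KU * A₁ * A₂ * A₃ * (1 + Real.log (B * C * H * N)) ^ 4 *
          (N * C * (B ^ (3 / 2 : ℝ) * H ^ (-1 / 2 : ℝ)) + N * B * H + H ^ 3 / B))
    (A₁ A₂ A₃ : ℝ) (w₁ w₂ w₃ : ℝ → ℂ) (h1 : Wt A₁ w₁) (h2 : Wt A₂ w₂) (h3 : Wt A₃ w₃)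
    (B C H : ℝ) (hB : 1 ≤ B) (hC : 1 ≤ C) (hH : 1 ≤ H) (N : ℕ) (hN : 1 ≤ N) :
    ∑ j ∈ Finset.Ioo (-((1 : ℕ) : ℤ)) ((1 : ℕ) : ℤ), ∑ k ∈ Finset.Ioo (-(N : ℤ)) N,
      ‖TT (dw w₁ (j / B)) (dw w₂ (k / C)) (dw w₃ 0) B C H j k‖ ≤
    8 * (16 * A₁ ^ 2) * (16 * A₂ ^ 2) * (16 * A₃ ^ 2) * (B * C * H) +
      2 * (KU * (16 * A₁ ^ 2) * (16 * A₂ ^ 2) * (16 * A₃ ^ 2) *
        (1 + Real.log (B * C * H * N)) ^ 4 *
          (N * C * (B ^ (3 / 2 : ℝ) * H ^ (-1 / 2 : ℝ)) + N * B * H + H ^ 3 / B)) := by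
  rw [Ioo_one, Finset.sum_singleton]
  refine (split_sum (fun k : ℤ => ‖TT (dw w₁ (((0 : ℤ) : ℝ) / B)) (dw w₂ (k / C)) (dw w₃ 0)
    B C H 0 k‖) (fun k => norm_nonneg _) N).trans ?_
  have hw1 := hW3.1 A₁ w₁ (((0 : ℤ) : ℝ) / B) h1
  have hw2 := fun t => hW3.1 A₂ w₂ t h2
  have hw3 := hW3.1 A₃ w₃ 0 h3
  have e0 : ‖TT (dw w₁ (((0 : ℤ) : ℝ) / B)) (dw w₂ (((0 : ℤ) : ℝ) / C)) (dw w₃ 0) B C H 0 0‖ ≤
      8 * (16 * A₁ ^ 2) * (16 * A₂ ^ 2) * (16 * A₃ ^ 2) * (B * C * H) :=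
    (hSY.2.2.2 _ _ _ _ _ _ hw1 (hw2 _) hw3 B C H (by linarith) (by linarith)
      (by linarith)).1 0 0
  have e1 := hUA _ _ _ (dw w₁ (((0 : ℤ) : ℝ) / B)) (dw w₃ 0)
    (fun k => dw w₂ ((k : ℝ) / C)) hw1 (fun k => hw2 _) hw3 B C H N hB hC hH hN
  have e2 := hUA _ _ _ (fun x => (starRingEnd ℂ) (dw w₁ (((0 : ℤ) : ℝ) / B) x))
    (fun x => (starRingEnd ℂ) (dw w₃ 0 x))
    (fun k x => (starRingEnd ℂ) (dw w₂ (((-k : ℤ) : ℝ) / C) x)) (hW3.2 _ _ hw1)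
    (fun k => hW3.2 _ _ (hw2 _)) (hW3.2 _ _ hw3) B C H N hB hC hH hN
  have e3 : ∀ k : ℕ, ‖TT (dw w₁ (((0 : ℤ) : ℝ) / B)) (dw w₂ (((-(k : ℤ) : ℤ) : ℝ) / C)) (dw w₃ 0)
      B C H 0 (-(k : ℤ))‖ = ‖TT (fun x => (starRingEnd ℂ) (dw w₁ (((0 : ℤ) : ℝ) / B) x))
        (fun x => (starRingEnd ℂ) (dw w₂ (((-(k : ℤ) : ℤ) : ℝ) / C) x))
        (fun x => (starRingEnd ℂ) (dw w₃ 0 x)) B C H 0 k‖ := by
    intro k
    have := hSY.2.1 (dw w₁ (((0 : ℤ) : ℝ) / B)) (dw w₂ (((-(k : ℤ) : ℤ) : ℝ) / C)) (dw w₃ 0)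
      B C H 0 k
    rw [neg_zero] at this
    exact this
  have e4 : ∑ k ∈ Finset.Icc 1 N, ‖TT (dw w₁ (((0 : ℤ) : ℝ) / B))
      (dw w₂ (((-(k : ℤ) : ℤ) : ℝ) / C)) (dw w₃ 0) B C H 0 (-(k : ℤ))‖ ≤
      KU * (16 * A₁ ^ 2) * (16 * A₂ ^ 2) * (16 * A₃ ^ 2) * (1 + Real.log (B * C * H * N)) ^ 4 *
          (N * C * (B ^ (3 / 2 : ℝ) * H ^ (-1 / 2 : ℝ)) + N * B * H + H ^ 3 / B) := by
    rw [Finset.sum_congr rfl fun k _ => e3 k]
    exact e2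
  linarith

/-- the numerical estimates -/
lemma numeric (B C H : ℝ) (hB : 1 ≤ B) (hC : 1 ≤ C) (hH : 1 ≤ H) (M : ℝ) (hM : M = B * C / H)
    (hM1 : 1 ≤ M) (hHM : H ≤ M ^ (1 + 1 / 10000 : ℝ)) (hBH : B * H ≤ M ^ (2 - 1 / 1000 : ℝ))
    (x : ℝ) (hx : x = H ^ 2 * M ^ (-(2499 / 2500) : ℝ)) (hx1 : 1 ≤ x) (N : ℝ) (hN : x ≤ N) :
    (B * C * H) ^ 2 / N ≤ M ^ (29997 / 10000 : ℝ) * H ^ 2 ∧
    B * C * H * (C * (B ^ (3 / 2 : ℝ) * H ^ (-1 / 2 : ℝ))) ≤ M ^ (29997 / 10000 : ℝ) * H ^ 2 ∧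
    B * C * H * (B * H) ≤ M ^ (29997 / 10000 : ℝ) * H ^ 2 ∧
    (B * C * H / N) * (H ^ 3 / B) ≤ M ^ (29997 / 10000 : ℝ) * H ^ 2 := by
  have hM0 : 0 < M := by linarith
  have hH0 : 0 < H := by linarith
  have hB0 : 0 < B := by linarith
  have hC0 : 0 < C := by linarith
  have hN0 : 0 < N := by linarith
  have hx0 : 0 < x := by linarith
  have hMH : B * C = M * H := by rw [hM]; field_simp
  have hmul : ∀ e₁ e₂ : ℝ, M ^ e₁ * M ^ e₂ = M ^ (e₁ + e₂) := fun e₁ e₂ =>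
    (Real.rpow_add hM0 e₁ e₂).symm
  have hmono : ∀ e₁ e₂ : ℝ, e₁ ≤ e₂ → M ^ e₁ ≤ M ^ e₂ := fun e₁ e₂ h =>
    Real.rpow_le_rpow_of_exponent_le hM1 h
  have hMpow : ∀ e : ℝ, 0 < M ^ e := fun e => Real.rpow_pos_of_pos hM0 e
  have hM1' : M ^ (1 : ℝ) = M := Real.rpow_one M
  have hM2' : M ^ (2 : ℝ) = M ^ 2 := by norm_num
  -- 1 / x
  have hxinv : H ^ 2 / x = M ^ (2499 / 2500 : ℝ) := by
    rw [hx, Real.rpow_neg hM0.le]
    have := (hMpow (2499 / 2500)).ne'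
    field_simp
  have hHN : H ^ 2 / N ≤ M ^ (2499 / 2500 : ℝ) := by
    rw [← hxinv]
    exact div_le_div_of_nonneg_left (by positivity) hx0 hN
  refine ⟨?_, ?_, ?_, ?_⟩
  · have e1 : (B * C * H) ^ 2 / N = M ^ 2 * H ^ 2 * (H ^ 2 / N) := by rw [hMH]; ring
    rw [e1]
    calc M ^ 2 * H ^ 2 * (H ^ 2 / N) ≤ M ^ 2 * H ^ 2 * M ^ (2499 / 2500 : ℝ) :=
          mul_le_mul_of_nonneg_left hHN (by positivity)
      _ = M ^ (2 + 2499 / 2500 : ℝ) * H ^ 2 := by rw [← hmul, hM2']; ring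
      _ ≤ _ := mul_le_mul_of_nonneg_right (hmono _ _ (by norm_num)) (by positivity)
  · have eB : B ^ (3 / 2 : ℝ) = B * B ^ (1 / 2 : ℝ) := by
      rw [show (3 / 2 : ℝ) = 1 + 1 / 2 by norm_num, Real.rpow_add hB0, Real.rpow_one]
    have eH : H ^ (1 / 2 : ℝ) * H ^ (1 / 2 : ℝ) = H := by
      rw [← Real.rpow_add hH0]; norm_num
    have eH' : H ^ (-1 / 2 : ℝ) * H = H ^ (1 / 2 : ℝ) := by
      nth_rewrite 2 [← Real.rpow_one H]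
      rw [← Real.rpow_add hH0]; norm_num
    have e1 : B * C * H * (C * (B ^ (3 / 2 : ℝ) * H ^ (-1 / 2 : ℝ)))
        = (B * C) ^ 2 * (B ^ (1 / 2 : ℝ) * (H ^ (-1 / 2 : ℝ) * H)) := by rw [eB]; ring
    rw [e1, hMH, eH', ← Real.mul_rpow hB0.le hH0.le]
    have h2 : (B * H) ^ (1 / 2 : ℝ) ≤ M ^ (1999 / 2000 : ℝ) := by
      calc (B * H) ^ (1 / 2 : ℝ) ≤ (M ^ (2 - 1 / 1000 : ℝ)) ^ (1 / 2 : ℝ) :=
            Real.rpow_le_rpow (by positivity) hBH (by norm_num)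
        _ = M ^ (1999 / 2000 : ℝ) := by rw [← Real.rpow_mul hM0.le]; norm_num
    calc (M * H) ^ 2 * (B * H) ^ (1 / 2 : ℝ) ≤ (M * H) ^ 2 * M ^ (1999 / 2000 : ℝ) :=
          mul_le_mul_of_nonneg_left h2 (by positivity)
      _ = M ^ (2 + 1999 / 2000 : ℝ) * H ^ 2 := by rw [← hmul, hM2']; ring
      _ ≤ _ := mul_le_mul_of_nonneg_right (hmono _ _ (by norm_num)) (by positivity)
  · rw [hMH]
    calc M * H * H * (B * H) ≤ M * H * H * M ^ (2 - 1 / 1000 : ℝ) :=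
          mul_le_mul_of_nonneg_left hBH (by positivity)
      _ = M ^ (1 + (2 - 1 / 1000) : ℝ) * H ^ 2 := by rw [← hmul, hM1']; ring
      _ ≤ _ := mul_le_mul_of_nonneg_right (hmono _ _ (by norm_num)) (by positivity)
  · have e1 : (B * C * H / N) * (H ^ 3 / B) = C * H ^ 2 * (H ^ 2 / N) := by
      field_simp
    have hC2 : C ≤ M ^ (2 + 1 / 10000 : ℝ) := by
      calc C ≤ B * C := by nlinarith
        _ = M * H := hMH
        _ ≤ M * M ^ (1 + 1 / 10000 : ℝ) := mul_le_mul_of_nonneg_left hHM hM0.le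
        _ = M ^ (1 : ℝ) * M ^ (1 + 1 / 10000 : ℝ) := by rw [hM1']
        _ = M ^ (1 + (1 + 1 / 10000) : ℝ) := hmul _ _
        _ = _ := by norm_num
    rw [e1]
    calc C * H ^ 2 * (H ^ 2 / N) ≤ C * H ^ 2 * M ^ (2499 / 2500 : ℝ) :=
          mul_le_mul_of_nonneg_left hHN (by positivity)
      _ ≤ M ^ (2 + 1 / 10000 : ℝ) * H ^ 2 * M ^ (2499 / 2500 : ℝ) := by
          have := (hMpow (2499 / 2500)).le
          exact mul_le_mul_of_nonneg_right (mul_le_mul_of_nonneg_right hC2 (by positivity)) this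
      _ = M ^ (2 + 1 / 10000 : ℝ) * M ^ (2499 / 2500 : ℝ) * H ^ 2 := by ring
      _ = M ^ ((2 + 1 / 10000) + 2499 / 2500 : ℝ) * H ^ 2 := by rw [hmul]
      _ ≤ _ := mul_le_mul_of_nonneg_right (hmono _ _ (by norm_num)) (by positivity)

/-- the logarithm -/
lemma logs (B C H : ℝ) (hB : 1 ≤ B) (hC : 1 ≤ C) (hH : 1 ≤ H) (M : ℝ) (hM : M = B * C / H)
    (hM1 : 1 ≤ M) (hHM : H ≤ M ^ (1 + 1 / 10000 : ℝ)) (N : ℝ) (hN1 : 1 ≤ N) (hNC : N ≤ C) :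
    1 ≤ 1 + Real.log (B * C * H * N) ∧
      (1 + Real.log (B * C * H * N)) ^ 4 ≤ 320001 ^ 4 * M ^ (1 / 10000 : ℝ) := by
  have hM0 : 0 < M := by linarith
  have hH0 : 0 < H := by linarith
  have hMH : B * C = M * H := by rw [hM]; field_simp
  have hmul : ∀ e₁ e₂ : ℝ, M ^ e₁ * M ^ e₂ = M ^ (e₁ + e₂) := fun e₁ e₂ =>
    (Real.rpow_add hM0 e₁ e₂).symm
  have hMp : ∀ e : ℝ, 0 < M ^ e := fun e => Real.rpow_pos_of_pos hM0 e
  have hBCHN : 1 ≤ B * C * H * N := by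
    have h1 : 1 ≤ B * C := one_le_mul_of_one_le_of_one_le hB hC
    have h2 : 1 ≤ B * C * H := one_le_mul_of_one_le_of_one_le h1 hH
    exact one_le_mul_of_one_le_of_one_le h2 hN1
  have hup : B * C * H * N ≤ M ^ (8 : ℝ) := by
    have h1 : M * H ≤ M ^ (2 + 1 / 10000 : ℝ) := by
      calc M * H ≤ M * M ^ (1 + 1 / 10000 : ℝ) := mul_le_mul_of_nonneg_left hHM hM0.le
        _ = M ^ (1 : ℝ) * M ^ (1 + 1 / 10000 : ℝ) := by rw [Real.rpow_one]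
        _ = M ^ (1 + (1 + 1 / 10000) : ℝ) := hmul _ _
        _ = _ := by norm_num
    have h2 : N ≤ M ^ (2 + 1 / 10000 : ℝ) := by
      calc N ≤ C := hNC
        _ ≤ B * C := by nlinarith
        _ = M * H := hMH
        _ ≤ _ := h1
    calc B * C * H * N = (M * H) * H * N := by rw [hMH]
      _ ≤ M ^ (2 + 1 / 10000 : ℝ) * M ^ (1 + 1 / 10000 : ℝ) * M ^ (2 + 1 / 10000 : ℝ) := by
          have := (hMp (2 + 1 / 10000)).le
          have := (hMp (1 + 1 / 10000)).le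
          gcongr
      _ = M ^ ((2 + 1 / 10000) + (1 + 1 / 10000) + (2 + 1 / 10000) : ℝ) := by
          rw [hmul, hmul]
      _ ≤ M ^ (8 : ℝ) := Real.rpow_le_rpow_of_exponent_le hM1 (by norm_num)
  have hlog0 : 0 ≤ Real.log (B * C * H * N) := Real.log_nonneg hBCHN
  have hlog1 : Real.log (B * C * H * N) ≤ 8 * Real.log M := by
    have := Real.log_le_log (by linarith) hup
    rwa [Real.log_rpow hM0] at this
  have hlogM : Real.log M ≤ M ^ (1 / 40000 : ℝ) / (1 / 40000 : ℝ) :=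
    Real.log_le_rpow_div hM0.le (by norm_num)
  have hM40 : 1 ≤ M ^ (1 / 40000 : ℝ) := Real.one_le_rpow hM1 (by norm_num)
  have hl : 1 + Real.log (B * C * H * N) ≤ 320001 * M ^ (1 / 40000 : ℝ) := by
    have : M ^ (1 / 40000 : ℝ) / (1 / 40000 : ℝ) = 40000 * M ^ (1 / 40000 : ℝ) := by ring
    rw [this] at hlogM
    linarith
  refine ⟨by linarith, ?_⟩
  calc (1 + Real.log (B * C * H * N)) ^ 4 ≤ (320001 * M ^ (1 / 40000 : ℝ)) ^ 4 :=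
        pow_le_pow_left₀ (by linarith) hl 4
    _ = 320001 ^ 4 * (M ^ (1 / 40000 : ℝ)) ^ 4 := by rw [mul_pow]
    _ = 320001 ^ 4 * M ^ (1 / 10000 : ℝ) := by
        rw [← Real.rpow_natCast (M ^ (1 / 40000 : ℝ)), ← Real.rpow_mul hM0.le]; norm_num

end TU5

open TU5

lemma TU5.arith (a S E KU ℓ : ℝ) (hE0 : 0 ≤ E) (hKU : 1 ≤ KU) (hℓ1 : 1 ≤ ℓ) (h1 : a ≤ E)
    (h2 : S ≤ 3 * E) : 8 * a + 2 * KU * ℓ * S ≤ 14 * KU * ℓ * E := by
  have s5 : 0 ≤ 2 * KU * ℓ := by positivity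
  have s6 := mul_le_mul_of_nonneg_left h2 s5
  have s7 : 1 ≤ KU * ℓ := one_le_mul_of_one_le_of_one_le hKU hℓ1
  have s8 := le_mul_of_one_le_left hE0 s7
  linarith

lemma TU5.exM0 : ∃ M₀ : ℝ, 1 ≤ M₀ ∧ ∀ M : ℝ, M₀ ≤ M → 2 ≤ M ^ (3 / 5000 : ℝ) := by
  refine ⟨(2 : ℝ) ^ (5000 / 3 : ℝ), Real.one_le_rpow (by norm_num) (by norm_num),
    fun M hM => ?_⟩
  have h0 : (0 : ℝ) ≤ (2 : ℝ) ^ (5000 / 3 : ℝ) := Real.rpow_nonneg (by norm_num) _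
  have h1 : ((2 : ℝ) ^ (5000 / 3 : ℝ)) ^ (3 / 5000 : ℝ) = 2 := by
    rw [← Real.rpow_mul (by norm_num), show (5000 / 3 * (3 / 5000) : ℝ) = 1 by norm_num,
      Real.rpow_one]
  calc (2 : ℝ) = ((2 : ℝ) ^ (5000 / 3 : ℝ)) ^ (3 / 5000 : ℝ) := h1.symm
    _ ≤ M ^ (3 / 5000 : ℝ) := Real.rpow_le_rpow h0 hM (by norm_num)

theorem t_U5 (hW2 : S_W2) (hW3 : S_W3) (hSY : S_SY) (hUA : S_UA) : S_U5 := by
  obtain ⟨KW, hKW, hW2⟩ := hW2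
  obtain ⟨KU, hKU, hUA⟩ := hUA
  obtain ⟨M₀, hM₀1, hM₀2⟩ := exM0
  obtain ⟨K₂, hK₂⟩ : ∃ K₂ : ℝ, K₂ = KW * KU * (14 * 16 ^ 3 * 320001 ^ 4) := ⟨_, rfl⟩
  have hK₂0 : 0 ≤ K₂ := by rw [hK₂]; positivity
  refine ⟨8 * M₀ + √K₂, ?_, ?_⟩
  · have := Real.sqrt_nonneg K₂; linarith
  intro A₁ A₂ A₃ w₁ w₂ w₃ h1 h2 h3 B C H hB hC hH hHM hBH
  set M : ℝ := B * C / H with hM
  have hA1 := Wt_nonneg h1
  have hA2 := Wt_nonneg h2
  have hA3 := Wt_nonneg h3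
  set A : ℝ := A₁ * A₂ * A₃ with hA
  have hA0 : 0 ≤ A := by positivity
  have hH0 : 0 < H := by linarith
  have hB0 : 0 < B := by linarith
  have hC0 : 0 < C := by linarith
  have hM0 : 0 < M := by positivity
  have hM1 : 1 ≤ M := by
    by_contra hlt
    push Not at hlt
    have : M ^ (1 + 1 / 10000 : ℝ) < 1 := Real.rpow_lt_one hM0.le hlt (by norm_num)
    linarith
  have hMH : B * C = M * H := by rw [hM]; field_simp
  have hmul : ∀ e₁ e₂ : ℝ, M ^ e₁ * M ^ e₂ = M ^ (e₁ + e₂) := fun e₁ e₂ =>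
    (Real.rpow_add hM0 e₁ e₂).symm
  have hmono : ∀ e₁ e₂ : ℝ, e₁ ≤ e₂ → M ^ e₁ ≤ M ^ e₂ := fun e₁ e₂ h =>
    Real.rpow_le_rpow_of_exponent_le hM1 h
  have hMp : ∀ e : ℝ, 0 < M ^ e := fun e => Real.rpow_pos_of_pos hM0 e
  have htriv : ‖S3 w₁ w₂ w₃ B C H‖ ≤ 8 * A * (M * H * H) := by
    have := (hSY.2.2.2 A₁ A₂ A₃ w₁ w₂ w₃ h1 h2 h3 B C H hB0.le hC0.le hH0.le).2
    rw [hMH] at this
    calc ‖S3 w₁ w₂ w₃ B C H‖ ≤ 8 * A₁ * A₂ * A₃ * (M * H * H) := this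
      _ = 8 * A * (M * H * H) := by rw [hA]; ring
  have hgoal : ∀ y : ℝ, y ≤ 8 * M₀ * A * (M ^ (3 / 2 - 1 / 10000 : ℝ) * H) →
      y ≤ (8 * M₀ + √K₂) * A₁ * A₂ * A₃ * M ^ (3 / 2 - 1 / 10000 : ℝ) * H := by
    intro y hy
    have h0 : 0 ≤ √K₂ * (A * (M ^ (3 / 2 - 1 / 10000 : ℝ) * H)) := by
      have := (hMp (3 / 2 - 1 / 10000)).le
      positivity
    calc y ≤ 8 * M₀ * A * (M ^ (3 / 2 - 1 / 10000 : ℝ) * H) := hy
      _ ≤ 8 * M₀ * A * (M ^ (3 / 2 - 1 / 10000 : ℝ) * H) +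
          √K₂ * (A * (M ^ (3 / 2 - 1 / 10000 : ℝ) * H)) := by linarith
      _ = _ := by rw [hA]; ring
  set x : ℝ := H ^ 2 * M ^ (-(2499 / 2500) : ℝ) with hx
  rcases le_total x 1 with hx1 | hx1
  · -- small x
    apply hgoal
    have hH2 : H ^ 2 ≤ M ^ (2499 / 2500 : ℝ) := by
      rw [hx, Real.rpow_neg hM0.le, ← div_eq_mul_inv, div_le_one (hMp _)] at hx1
      exact hx1
    have hH1 : H ≤ M ^ (2499 / 5000 : ℝ) := by
      have h4 : (M ^ (2499 / 5000 : ℝ)) ^ 2 = M ^ (2499 / 2500 : ℝ) := by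
        rw [← Real.rpow_natCast (M ^ (2499 / 5000 : ℝ)), ← Real.rpow_mul hM0.le]; norm_num
      refine abs_le_of_sq_le_sq' ?_ (hMp _).le |>.2
      rw [h4]; exact hH2
    calc ‖S3 w₁ w₂ w₃ B C H‖ ≤ 8 * A * (M * H * H) := htriv
      _ ≤ 8 * A * (M * M ^ (2499 / 5000 : ℝ) * H) := by gcongr
      _ = 8 * A * (M ^ (1 + 2499 / 5000 : ℝ) * H) := by rw [← hmul, Real.rpow_one]
      _ ≤ 8 * A * (M ^ (3 / 2 - 1 / 10000 : ℝ) * H) := by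
          have := hmono (1 + 2499 / 5000) (3 / 2 - 1 / 10000) (by norm_num)
          gcongr
      _ ≤ 8 * M₀ * A * (M ^ (3 / 2 - 1 / 10000 : ℝ) * H) := by
          have h5 : 0 ≤ 8 * A * (M ^ (3 / 2 - 1 / 10000 : ℝ) * H) := by
            have := (hMp (3 / 2 - 1 / 10000)).le
            positivity
          nlinarith
  rcases le_total M M₀ with hMM | hMM
  · -- small M
    apply hgoal
    have h6 : M * H ≤ M₀ * M ^ (3 / 2 - 1 / 10000 : ℝ) := by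
      calc M * H ≤ M * M ^ (1 + 1 / 10000 : ℝ) := mul_le_mul_of_nonneg_left hHM hM0.le
        _ = M ^ (1 : ℝ) * M ^ (1 + 1 / 10000 : ℝ) := by rw [Real.rpow_one]
        _ = M ^ (1 + (1 + 1 / 10000) : ℝ) := hmul _ _
        _ ≤ M ^ (1 + (3 / 2 - 1 / 10000) : ℝ) := hmono _ _ (by norm_num)
        _ = M ^ (1 : ℝ) * M ^ (3 / 2 - 1 / 10000 : ℝ) := (hmul _ _).symm
        _ = M * M ^ (3 / 2 - 1 / 10000 : ℝ) := by rw [Real.rpow_one]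
        _ ≤ M₀ * M ^ (3 / 2 - 1 / 10000 : ℝ) := mul_le_mul_of_nonneg_right hMM (hMp _).le
    calc ‖S3 w₁ w₂ w₃ B C H‖ ≤ 8 * A * (M * H * H) := htriv
      _ ≤ 8 * A * (M₀ * M ^ (3 / 2 - 1 / 10000 : ℝ) * H) := by gcongr
      _ = _ := by ring
  · -- main case
    set N : ℕ := ⌈x⌉₊ with hN
    have hxN : x ≤ N := Nat.le_ceil x
    have hN1 : 1 ≤ N := by
      have : (1 : ℝ) ≤ N := hx1.trans hxN
      exact_mod_cast this
    have hN1R : (1 : ℝ) ≤ N := by exact_mod_cast hN1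
    have hN2 : (N : ℝ) ≤ 2 * x := by
      have := Nat.ceil_lt_add_one (show 0 ≤ x by linarith)
      linarith
    have hNC : (N : ℝ) ≤ C := by
      have h7 : 2 ≤ M ^ (3 / 5000 : ℝ) := hM₀2 M hMM
      have h8 : x * M ^ (3 / 5000 : ℝ) ≤ C := by
        have e1 : x * M ^ (3 / 5000 : ℝ) = H ^ 2 * M ^ (-(2499 / 2500) + 3 / 5000 : ℝ) := by
          rw [hx, ← hmul]; ring
        rw [e1]
        -- C = M H / B ≥ M H² / M^(2-1/1000)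
        have e2 : C = M * H / B := by
          rw [← hMH]; field_simp
        rw [e2, le_div_iff₀ hB0]
        calc H ^ 2 * M ^ (-(2499 / 2500) + 3 / 5000 : ℝ) * B
            = H * M ^ (-(2499 / 2500) + 3 / 5000 : ℝ) * (B * H) := by ring
          _ ≤ H * M ^ (-(2499 / 2500) + 3 / 5000 : ℝ) * M ^ (2 - 1 / 1000 : ℝ) :=
              mul_le_mul_of_nonneg_left hBH (mul_nonneg hH0.le (hMp _).le)
          _ = H * M ^ ((-(2499 / 2500) + 3 / 5000) + (2 - 1 / 1000) : ℝ) := by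
              rw [mul_assoc, hmul]
          _ = M * H := by
              rw [show ((-(2499 / 2500) + 3 / 5000) + (2 - 1 / 1000) : ℝ) = 1 by norm_num,
                Real.rpow_one, mul_comm]
      have hx0 : 0 ≤ x := by linarith
      nlinarith
    have hweyl := hW2 A₁ A₂ A₃ w₁ w₂ w₃ h1 h2 h3 B C H hB hC hH 1 N le_rfl hN1
      (by simpa using hB) hNC
    have hsum := weyl KU hW3 hSY hUA A₁ A₂ A₃ w₁ w₂ w₃ h1 h2 h3 B C H hB hC hH N hN1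
    obtain ⟨t1, t2, t3, t4⟩ := numeric B C H hB hC hH M hM hM1 hHM hBH x hx hx1 N hxN
    obtain ⟨l1, l2⟩ := logs B C H hB hC hH M hM hM1 hHM N hN1R hNC
    set ℓ : ℝ := (1 + Real.log (B * C * H * N)) ^ 4 with hℓ
    have hℓ1 : 1 ≤ ℓ := one_le_pow₀ l1
    set E : ℝ := M ^ (29997 / 10000 : ℝ) * H ^ 2 with hE
    have hE0 : 0 ≤ E := by
      have := (hMp (29997 / 10000)).le
      positivity
    set Q : ℝ := B ^ (3 / 2 : ℝ) * H ^ (-1 / 2 : ℝ) with hQ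
    have hNpos : (0 : ℝ) < N := by linarith
    have hsq : ‖S3 w₁ w₂ w₃ B C H‖ ^ 2 ≤ K₂ * A ^ 2 * (M ^ (1 / 10000 : ℝ) * E) := by
      have hfac : 0 ≤ KW * (B * C * H / (((1 : ℕ) : ℝ) * N)) := by positivity
      have s1 := hweyl.trans (mul_le_mul_of_nonneg_left hsum hfac)
      have s2 : KW * (B * C * H / (((1 : ℕ) : ℝ) * N)) *
          (8 * (16 * A₁ ^ 2) * (16 * A₂ ^ 2) * (16 * A₃ ^ 2) * (B * C * H) +
            2 * (KU * (16 * A₁ ^ 2) * (16 * A₂ ^ 2) * (16 * A₃ ^ 2) * ℓ *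
              (N * C * Q + N * B * H + H ^ 3 / B)))
          = KW * (16 ^ 3 * A ^ 2) * (8 * ((B * C * H) ^ 2 / N) + 2 * KU * ℓ *
              (B * C * H * (C * Q) + B * C * H * (B * H) + (B * C * H / N) * (H ^ 3 / B))) := by
        rw [hA]
        push_cast
        field_simp
      rw [s2] at s1
      refine s1.trans ?_
      have hKWA : 0 ≤ KW * (16 ^ 3 * A ^ 2) := by positivity
      have s3 : 8 * ((B * C * H) ^ 2 / N) + 2 * KU * ℓ *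
              (B * C * H * (C * Q) + B * C * H * (B * H) + (B * C * H / N) * (H ^ 3 / B))
          ≤ 14 * KU * ℓ * E := by
        have s4 : B * C * H * (C * Q) + B * C * H * (B * H) + (B * C * H / N) * (H ^ 3 / B)
            ≤ 3 * E := by linarith
        exact arith _ _ _ _ _ hE0 hKU hℓ1 t1 s4
      calc KW * (16 ^ 3 * A ^ 2) * (8 * ((B * C * H) ^ 2 / N) + 2 * KU * ℓ *
              (B * C * H * (C * Q) + B * C * H * (B * H) + (B * C * H / N) * (H ^ 3 / B)))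
          ≤ KW * (16 ^ 3 * A ^ 2) * (14 * KU * ℓ * E) := mul_le_mul_of_nonneg_left s3 hKWA
        _ = (KW * KU * (14 * 16 ^ 3)) * A ^ 2 * E * ℓ := by ring
        _ ≤ (KW * KU * (14 * 16 ^ 3)) * A ^ 2 * E * (320001 ^ 4 * M ^ (1 / 10000 : ℝ)) :=
            mul_le_mul_of_nonneg_left l2 (by positivity)
        _ = K₂ * A ^ 2 * (M ^ (1 / 10000 : ℝ) * E) := by rw [hK₂]; ring
    have hE2 : M ^ (1 / 10000 : ℝ) * E = (M ^ (3 / 2 - 1 / 10000 : ℝ) * H) ^ 2 := by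
      rw [hE, ← mul_assoc, hmul, mul_pow, ← Real.rpow_natCast (M ^ (3 / 2 - 1 / 10000 : ℝ)),
        ← Real.rpow_mul hM0.le]
      norm_num
    have hfin : ‖S3 w₁ w₂ w₃ B C H‖ ≤ √K₂ * A * (M ^ (3 / 2 - 1 / 10000 : ℝ) * H) := by
      have hnn : 0 ≤ √K₂ * A * (M ^ (3 / 2 - 1 / 10000 : ℝ) * H) := by
        have := (hMp (3 / 2 - 1 / 10000)).le
        positivity
      refine abs_le_of_sq_le_sq' ?_ hnn |>.2
      rw [mul_pow, mul_pow, Real.sq_sqrt hK₂0, ← hE2]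
      exact hsq
    have h0 : 0 ≤ 8 * M₀ * (A * (M ^ (3 / 2 - 1 / 10000 : ℝ) * H)) := by
      have := (hMp (3 / 2 - 1 / 10000)).le
      positivity
    calc ‖S3 w₁ w₂ w₃ B C H‖ ≤ √K₂ * A * (M ^ (3 / 2 - 1 / 10000 : ℝ) * H) := hfin
      _ ≤ √K₂ * A * (M ^ (3 / 2 - 1 / 10000 : ℝ) * H) +
          8 * M₀ * (A * (M ^ (3 / 2 - 1 / 10000 : ℝ) * H)) := by linarith
      _ = _ := by rw [hA]; ring

end Pool.Agent.H304R4.CM
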