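import Mathlib
import Pool.Agent.H304R4.CM.Stubs

/-! Task UA (helper666). -/

open Complex MeasureTheory Filter Topology

namespace Pool.Agent.H304R4.CM

namespace UAaux

lemma wt_le {A : ℝ} {w : ℝ → ℂ} (h : Wt A w) (x : ℝ) : ‖w x‖ ≤ A := by
  have := h.bound 0 (by norm_num) x
  rwa [iteratedDeriv_zero] at this

lemma wt_nonneg {A : ℝ} {w : ℝ → ℂ} (h : Wt A w) : 0 ≤ A := (norm_nonneg _).trans (wt_le h 0)

lemma ph_zero (k h b c : ℝ) : ph 0 k h b c = c * (2 * k * b ^ 2 / h ^ 2) := by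
  unfold ph
  ring

lemma nd_nonneg (x : ℝ) : 0 ≤ nd x := abs_nonneg _

end UAaux

open UAaux in
theorem t_UA (hU2 : S_U2) (hU4 : S_U4) : S_UA := by
  classical
  obtain ⟨K₂, hK₂, h2⟩ := hU2
  obtain ⟨K₄, hK₄, h4⟩ := hU4
  refine ⟨K₂ * K₄, by nlinarith, ?_⟩
  intro A₁ A₂ A₃ ω₁ ω₃ ω₂ hω₁ hω₂ hω₃ B C H N hB hC hH hN
  have hA₁ := wt_nonneg hω₁
  have hA₂ := wt_nonneg (hω₂ 0)
  have hA₃ := wt_nonneg hω₃
  have hBp : 0 < B := by linarith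
  have hHp : 0 < H := by linarith
  have hkey : ∀ k : ℕ, ‖TT ω₁ (ω₂ k) ω₃ B C H 0 k‖ ≤
      (K₂ * A₁ * A₂ * A₃) * ∑ b ∈ (Finset.Icc 1 ⌊2 * B⌋₊).filter (fun b : ℕ => B / 2 ≤ b),
        ∑ h ∈ (Finset.Icc 1 ⌊2 * H⌋₊).filter (fun h : ℕ => H / 2 ≤ h),
          mC C (2 * (k : ℝ) * b ^ 2 / h ^ 2) := by
    intro k
    have e1 : ∑ b ∈ (Finset.Icc 1 ⌊2 * B⌋₊).filter (fun b : ℕ => B / 2 ≤ b),
        ∑ h ∈ (Finset.Icc 1 ⌊2 * H⌋₊).filter (fun h : ℕ => H / 2 ≤ h),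
          mC C (2 * (k : ℝ) * b ^ 2 / h ^ 2) =
        ∑ h ∈ Finset.Icc 1 ⌊2 * H⌋₊, ∑ b ∈ Finset.Icc 1 ⌊2 * B⌋₊,
          (if B / 2 ≤ (b : ℝ) ∧ H / 2 ≤ (h : ℝ) then mC C (2 * (k : ℝ) * b ^ 2 / h ^ 2) else 0) := by
      rw [Finset.sum_comm, Finset.sum_filter]
      refine Finset.sum_congr rfl fun h _ => ?_
      by_cases hh : H / 2 ≤ (h : ℝ)
      · rw [if_pos hh, Finset.sum_filter]
        refine Finset.sum_congr rfl fun b _ => ?_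
        simp [hh]
      · rw [if_neg hh]
        symm
        apply Finset.sum_eq_zero
        intro b _
        rw [if_neg (fun h' => hh h'.2)]
    rw [e1, Finset.mul_sum]
    unfold TT
    refine (norm_sum_le _ _).trans (Finset.sum_le_sum fun h _ => ?_)
    rw [Finset.mul_sum]
    refine (norm_sum_le _ _).trans (Finset.sum_le_sum fun b _ => ?_)
    have e2 : ∑ c ∈ Finset.Icc 1 ⌊2 * C⌋₊, ω₁ ((b : ℝ) / B) * ω₂ k ((c : ℝ) / C) * ω₃ ((h : ℝ) / H) *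
        ee (ph ((0 : ℤ) : ℝ) ((k : ℤ) : ℝ) h b c) =
        ω₁ ((b : ℝ) / B) * ω₃ ((h : ℝ) / H) * ∑ c ∈ Finset.Icc 1 ⌊2 * C⌋₊,
          ω₂ k ((c : ℝ) / C) * ee (c * (2 * (k : ℝ) * b ^ 2 / h ^ 2)) := by
      rw [Finset.mul_sum]
      refine Finset.sum_congr rfl fun c _ => ?_
      rw [Int.cast_zero, ph_zero, Int.cast_natCast]
      ring
    rw [e2, norm_mul, norm_mul]
    have h5 := h2 A₂ (ω₂ k) (hω₂ k) C (2 * (k : ℝ) * b ^ 2 / h ^ 2) hC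
    by_cases hbh : B / 2 ≤ (b : ℝ) ∧ H / 2 ≤ (h : ℝ)
    · rw [if_pos hbh]
      calc ‖ω₁ ((b : ℝ) / B)‖ * ‖ω₃ ((h : ℝ) / H)‖ * ‖∑ c ∈ Finset.Icc 1 ⌊2 * C⌋₊,
            ω₂ k ((c : ℝ) / C) * ee (c * (2 * (k : ℝ) * b ^ 2 / h ^ 2))‖
          ≤ (A₁ * A₃) * (K₂ * A₂ * mC C (2 * (k : ℝ) * b ^ 2 / h ^ 2)) := by
            refine mul_le_mul (mul_le_mul (wt_le hω₁ _) (wt_le hω₃ _) (norm_nonneg _) hA₁) h5
              (norm_nonneg _) (mul_nonneg hA₁ hA₃)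
        _ = _ := by ring
    · rw [if_neg hbh, mul_zero]
      have h6 : ‖ω₁ ((b : ℝ) / B)‖ * ‖ω₃ ((h : ℝ) / H)‖ = 0 := by
        by_contra hne
        apply hbh
        have h7 : ω₁ ((b : ℝ) / B) ≠ 0 := by
          intro h0
          rw [h0, norm_zero, zero_mul] at hne
          exact hne rfl
        have h8 : ω₃ ((h : ℝ) / H) ≠ 0 := by
          intro h0
          rw [h0, norm_zero, mul_zero] at hne
          exact hne rfl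
        have h9 := (hω₁.supp _ h7).1
        have h10 := (hω₃.supp _ h8).1
        rw [le_div_iff₀ hBp] at h9
        rw [le_div_iff₀ hHp] at h10
        constructor <;> linarith
      rw [h6, zero_mul]
  have hKA : 0 ≤ K₂ * A₁ * A₂ * A₃ := by
    have : 0 ≤ K₂ := by linarith
    positivity
  calc ∑ k ∈ Finset.Icc 1 N, ‖TT ω₁ (ω₂ k) ω₃ B C H 0 k‖
      ≤ ∑ k ∈ Finset.Icc 1 N, (K₂ * A₁ * A₂ * A₃) *
        ∑ b ∈ (Finset.Icc 1 ⌊2 * B⌋₊).filter (fun b : ℕ => B / 2 ≤ b),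
        ∑ h ∈ (Finset.Icc 1 ⌊2 * H⌋₊).filter (fun h : ℕ => H / 2 ≤ h),
          mC C (2 * (k : ℝ) * b ^ 2 / h ^ 2) := Finset.sum_le_sum fun k _ => hkey k
    _ = (K₂ * A₁ * A₂ * A₃) * ∑ k ∈ Finset.Icc 1 N,
        ∑ b ∈ (Finset.Icc 1 ⌊2 * B⌋₊).filter (fun b : ℕ => B / 2 ≤ b),
        ∑ h ∈ (Finset.Icc 1 ⌊2 * H⌋₊).filter (fun h : ℕ => H / 2 ≤ h),
          mC C (2 * (k : ℝ) * b ^ 2 / h ^ 2) := (Finset.mul_sum _ _ _).symm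
    _ ≤ (K₂ * A₁ * A₂ * A₃) * (K₄ * (1 + Real.log (B * C * H * N)) ^ 4 *
      (N * C * (B ^ (3 / 2 : ℝ) * H ^ (-1 / 2 : ℝ)) + N * B * H + H ^ 3 / B)) :=
        mul_le_mul_of_nonneg_left (h4 B C H N hB hC hH hN) hKA
    _ = _ := by ring

end Pool.Agent.H304R4.CM
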