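import Mathlib
import Pool.Agent.H304R4.CM.Stubs
import Pool.Agent.H469R2.NK.KL

/-!
# VDC: the second derivative test for exponential sums
-/

namespace Pool.Agent.H304R4.CM

open Complex MeasureTheory Filter Topology

namespace VDCaux

lemma norm_ee (x : ℝ) : ‖ee x‖ = 1 := by
  unfold ee
  rw [Complex.norm_exp_ofReal_mul_I]

lemma ee_eq (x : ℝ) : ee x = Pool.Agent.H469R2.NK.e x := rfl

/-- initial segments of a monotone sequence -/
lemma cnt (d : ℕ → ℝ) (N : ℕ) (hd : ∀ m n, m ≤ n → n < N → d m ≤ d n) (t : ℝ) :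
    ∃ m, m ≤ N ∧ ∀ n, n < N → (d n < t ↔ n < m) := by
  classical
  have hex : ∃ n, N ≤ n ∨ t ≤ d n := ⟨N, Or.inl le_rfl⟩
  obtain ⟨m, hm, hmin⟩ : ∃ m, (N ≤ m ∨ t ≤ d m) ∧ ∀ n < m, ¬ (N ≤ n ∨ t ≤ d n) :=
    ⟨Nat.find hex, Nat.find_spec hex, fun n hn => Nat.find_min hex hn⟩
  have hmN : m ≤ N := by
    by_contra h
    exact hmin N (by omega) (Or.inl le_rfl)
  refine ⟨m, hmN, fun n hn => ⟨fun h => ?_, fun h => ?_⟩⟩
  · by_contra h2
    rcases hm with h3 | h3
    · omega
    · have := hd m n (by omega) hn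
      linarith
  · have := hmin n h
    push Not at this
    exact this.2

lemma nsum_le (x : ℕ → ℝ) (p q : ℕ) (hpq : p ≤ q) :
    ‖∑ n ∈ Finset.Ico p q, ee (x n)‖ ≤ (q : ℝ) - p := by
  refine (norm_sum_le _ _).trans ?_
  simp only [norm_ee, Finset.sum_const, Nat.card_Ico, nsmul_eq_mul, mul_one]
  rw [Nat.cast_sub hpq]

lemma ee_shift (x : ℝ) (k : ℤ) (j : ℕ) : ee (x - k * j) = ee x := by
  unfold ee
  rw [Complex.exp_eq_exp_iff_exists_int]
  refine ⟨-(k * j), ?_⟩
  push_cast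
  ring

lemma main_block (x : ℕ → ℝ) (θ : ℝ) (hθ : 0 < θ) (k : ℤ) (p q : ℕ) (hpq : p ≤ q)
    (h0 : ∀ n, p ≤ n → n < q → (k : ℝ) + θ ≤ x (n + 1) - x n)
    (h1 : ∀ n, p ≤ n → n < q → x (n + 1) - x n ≤ (k : ℝ) + 1 - θ)
    (hm : ∀ n, p ≤ n → n + 1 < q → x (n + 1) - x n ≤ x (n + 2) - x (n + 1)) :
    ‖∑ n ∈ Finset.Ico p q, ee (x n)‖ ≤ 2 / θ := by
  have h := Pool.Agent.H469R2.NK.kusmin_landau_mono (fun j => x (p + j) - k * j) (q - p) hθ
    (by
      intro n hn
      have := h0 (p + n) (by omega) (by omega)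
      rw [show p + n + 1 = p + (n + 1) by ring] at this
      push_cast
      linarith)
    (by
      intro n hn
      have := h1 (p + n) (by omega) (by omega)
      rw [show p + n + 1 = p + (n + 1) by ring] at this
      push_cast
      linarith)
    (by
      intro n hn
      have := hm (p + n) (by omega) (by omega)
      rw [show p + n + 1 = p + (n + 1) by ring, show p + n + 2 = p + (n + 2) by ring] at this
      push_cast
      linarith)
  rw [Finset.sum_Ico_eq_sum_range]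
  refine le_of_eq_of_le ?_ h
  congr 1
  refine Finset.sum_congr rfl fun j _ => ?_
  rw [← ee_eq, ee_shift]

/-- the sequence version -/
lemma seq (x : ℕ → ℝ) (N : ℕ) (l L : ℝ) (hl : 0 < l) (hl1 : l ≤ 1)
    (h2 : ∀ n, n + 1 < N → l ≤ (x (n + 2) - x (n + 1)) - (x (n + 1) - x n))
    (h3 : ∀ n, n + 1 < N → (x (n + 2) - x (n + 1)) - (x (n + 1) - x n) ≤ L) (hL : 0 ≤ L) :
    ‖∑ n ∈ Finset.range N, ee (x n)‖ ≤ (L * N + 3) * (6 / √l) := by
  rcases Nat.eq_zero_or_pos N with rfl | hN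
  · simp only [Finset.range_zero, Finset.sum_empty, norm_zero]
    positivity
  set d : ℕ → ℝ := fun n => x (n + 1) - x n with hd
  have hsl : 0 < √l := Real.sqrt_pos.mpr hl
  have hsl1 : √l ≤ 1 := by
    exact Real.sqrt_le_one.mpr hl1
  have hss : √l * √l = l := Real.mul_self_sqrt hl.le
  set θ : ℝ := √l / 2 with hθd
  have hθ : 0 < θ := by positivity
  -- lower growth
  have hlow : ∀ m j, m + j < N → l * j ≤ d (m + j) - d m := by
    intro m j
    induction j with
    | zero => intro _; simp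
    | succ j ih =>
      intro hj
      have a1 := ih (by omega)
      have a2 := h2 (m + j) (by omega)
      have a3 : d (m + (j + 1)) = x (m + j + 2) - x (m + j + 1) := by
        simp only [hd]; rfl
      have a4 : d (m + j) = x (m + j + 1) - x (m + j) := rfl
      rw [a3]
      rw [a4] at a1
      push_cast
      linarith
  have hupp : ∀ j, j < N → d j - d 0 ≤ L * j := by
    intro j
    induction j with
    | zero => intro _; simp
    | succ j ih =>
      intro hj
      have a1 := ih (by omega)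
      have a2 := h3 j (by omega)
      have a3 : d (j + 1) = x (j + 2) - x (j + 1) := rfl
      have a4 : d j = x (j + 1) - x j := rfl
      rw [a3]
      rw [a4] at a1
      push_cast
      linarith
  have hmono : ∀ m n, m ≤ n → n < N → d m ≤ d n := by
    intro m n hmn hn
    have := hlow m (n - m) (by omega)
    rw [show m + (n - m) = n by omega] at this
    have h5 : 0 ≤ l * ((n - m : ℕ) : ℝ) := by positivity
    linarith
  choose c hcN hc using cnt d N hmono
  have hcm : ∀ s t, s ≤ t → c s ≤ c t := by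
    intro s t hst
    by_contra h
    push Not at h
    have h6 : c t < N := lt_of_lt_of_le h (hcN s)
    have h7 := (hc s (c t) h6).mpr h
    have h8 := (hc t (c t) h6).mp (by linarith)
    omega
  have hB : 2 * θ / l + 1 + 2 / θ ≤ 6 / √l := by
    have e1 : 2 * θ / l = 1 / √l := by
      rw [hθd, div_eq_div_iff hl.ne' hsl.ne']
      linarith
    have e2 : 2 / θ = 4 / √l := by
      rw [hθd]
      field_simp
      norm_num
    have e3 : 1 ≤ 1 / √l := by
      rw [le_div_iff₀ hsl]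
      linarith
    rw [e1, e2]
    have e4 : 6 / √l = 1 / √l + 1 / √l + 4 / √l := by
      field_simp
      norm_num
    linarith
  -- one period
  have hstep : ∀ k : ℤ, ‖∑ n ∈ Finset.Ico (c (k - θ)) (c (k + 1 - θ)), ee (x n)‖ ≤ 6 / √l := by
    intro k
    have hθ2 : θ ≤ 1 / 2 := by
      rw [hθd]; linarith
    have q1 : c ((k : ℝ) - θ) ≤ c (k + θ) := hcm _ _ (by linarith)
    have q2 : c ((k : ℝ) + θ) ≤ c (k + 1 - θ) := hcm _ _ (by linarith)
    rw [← Finset.sum_Ico_consecutive _ q1 q2]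
    refine (norm_add_le _ _).trans ?_
    have b1 : ‖∑ n ∈ Finset.Ico (c ((k : ℝ) - θ)) (c (k + θ)), ee (x n)‖ ≤ 2 * θ / l + 1 := by
      refine (nsum_le x _ _ q1).trans ?_
      rcases Nat.eq_or_lt_of_le q1 with h9 | h9
      · rw [h9]
        have : 0 ≤ 2 * θ / l := by positivity
        linarith
      · have g1 : c ((k : ℝ) + θ) ≤ N := hcN _
        have g2 : k - θ ≤ d (c ((k : ℝ) - θ)) := by
          by_contra hh
          push Not at hh
          have := (hc _ _ (lt_of_lt_of_le h9 g1)).mp hh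
          omega
        have g3 : d (c ((k : ℝ) + θ) - 1) < k + θ := by
          refine (hc _ _ (by omega)).mpr (by omega)
        have g4 := hlow (c ((k : ℝ) - θ)) (c ((k : ℝ) + θ) - 1 - c ((k : ℝ) - θ)) (by omega)
        rw [show c ((k : ℝ) - θ) + (c ((k : ℝ) + θ) - 1 - c ((k : ℝ) - θ))
          = c ((k : ℝ) + θ) - 1 by omega] at g4
        have g5 : (((c ((k : ℝ) + θ) - 1 - c ((k : ℝ) - θ) : ℕ)) : ℝ)
            = (c ((k : ℝ) + θ) : ℝ) - 1 - c ((k : ℝ) - θ) := by
          rw [Nat.cast_sub (by omega), Nat.cast_sub (by omega)]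
          simp
        rw [g5] at g4
        have g6 : l * ((c ((k : ℝ) + θ) : ℝ) - 1 - c ((k : ℝ) - θ)) ≤ 2 * θ := by linarith
        have g7 : (c ((k : ℝ) + θ) : ℝ) - 1 - c ((k : ℝ) - θ) ≤ 2 * θ / l := by
          rw [le_div_iff₀ hl]
          linarith
        linarith
    have b2 : ‖∑ n ∈ Finset.Ico (c ((k : ℝ) + θ)) (c (k + 1 - θ)), ee (x n)‖ ≤ 2 / θ := by
      refine main_block x θ hθ k _ _ q2 ?_ ?_ ?_
      · intro n hn1 hn2
        by_contra hh
        push Not at hh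
        have := (hc ((k : ℝ) + θ) n (lt_of_lt_of_le hn2 (hcN _))).mp hh
        omega
      · intro n hn1 hn2
        have := (hc ((k : ℝ) + 1 - θ) n (lt_of_lt_of_le hn2 (hcN _))).mpr hn2
        exact this.le
      · intro n hn1 hn2
        have hn3 : n + 1 < N := lt_of_lt_of_le hn2 (hcN _)
        exact hmono n (n + 1) (by omega) hn3
    linarith
  -- induction
  set k0 : ℤ := ⌊d 0⌋ with hk0
  have hind : ∀ j : ℕ, ‖∑ n ∈ Finset.range (c ((k0 : ℝ) + j - θ)), ee (x n)‖ ≤ j * (6 / √l) := by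
    intro j
    induction j with
    | zero =>
      have : c ((k0 : ℝ) + (0 : ℕ) - θ) = 0 := by
        by_contra hne
        have hpos : 0 < c ((k0 : ℝ) + (0 : ℕ) - θ) := Nat.pos_of_ne_zero hne
        have h10 := (hc ((k0 : ℝ) + (0 : ℕ) - θ) 0 hN).mpr hpos
        have h11 : (k0 : ℝ) ≤ d 0 := Int.floor_le _
        push_cast at h10
        linarith
      rw [this]
      simp
    | succ j ih =>
      have h12 : c ((k0 : ℝ) + j - θ) ≤ c ((k0 : ℝ) + (j + 1 : ℕ) - θ) := by
        apply hcm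
        push_cast
        linarith
      rw [← Finset.sum_range_add_sum_Ico _ h12]
      refine (norm_add_le _ _).trans ?_
      have h13 := hstep (k0 + j)
      push_cast at h13 ⊢
      rw [show (k0 : ℝ) + j + 1 - θ = (k0 : ℝ) + (j + 1) - θ by ring] at h13
      linarith
  -- end
  set J : ℕ := (⌊d (N - 1)⌋ - k0 + 2).toNat with hJ
  have hdd : d 0 ≤ d (N - 1) := hmono 0 (N - 1) (by omega) (by omega)
  have hJnn : 0 ≤ ⌊d (N - 1)⌋ - k0 + 2 := by
    have := Int.floor_le_floor hdd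
    omega
  have hJ1 : (J : ℝ) = (⌊d (N - 1)⌋ : ℝ) - k0 + 2 := by
    have : (J : ℤ) = ⌊d (N - 1)⌋ - k0 + 2 := by
      rw [hJ, Int.toNat_of_nonneg hJnn]
    have h14 : ((J : ℤ) : ℝ) = ((⌊d (N - 1)⌋ - k0 + 2 : ℤ) : ℝ) := by rw [this]
    push_cast at h14
    exact h14
  have hfull : c ((k0 : ℝ) + J - θ) = N := by
    refine le_antisymm (hcN _) ?_
    have h15 : d (N - 1) < (k0 : ℝ) + J - θ := by
      rw [hJ1]
      have h16 := Int.lt_floor_add_one (d (N - 1))
      have hθ2 : θ ≤ 1 / 2 := by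
        rw [hθd]; linarith
      linarith
    have h17 := (hc _ (N - 1) (by omega)).mp h15
    omega
  have h18 := hind J
  rw [hfull] at h18
  refine h18.trans ?_
  have h19 : (J : ℝ) ≤ L * N + 3 := by
    rw [hJ1]
    have h20 := Int.floor_le (d (N - 1))
    have h21 := Int.lt_floor_add_one (d 0)
    have h22 := hupp (N - 1) (by omega)
    have h23 : ((N - 1 : ℕ) : ℝ) ≤ N := by
      exact_mod_cast Nat.sub_le _ _
    have h24 : L * ((N - 1 : ℕ) : ℝ) ≤ L * N := mul_le_mul_of_nonneg_left h23 hL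
    have h25 : (k0 : ℝ) = (⌊d 0⌋ : ℝ) := by rw [hk0]
    rw [h25]
    linarith
  exact mul_le_mul_of_nonneg_right h19 (by positivity)

/-- second differences from the second derivative -/
lemma second_diff (a b : ℕ) (f f₁ f₂ : ℝ → ℝ) (l M : ℝ)
    (h : ∀ x : ℝ, (a : ℝ) ≤ x → x ≤ b → HasDerivAt f (f₁ x) x ∧ HasDerivAt f₁ (f₂ x) x ∧
      l ≤ f₂ x ∧ f₂ x ≤ M) (n : ℕ) (hn : a + n + 2 ≤ b) :
    l ≤ (f (a + n + 2 : ℕ) - f (a + n + 1 : ℕ)) - (f (a + n + 1 : ℕ) - f (a + n : ℕ)) ∧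
    (f (a + n + 2 : ℕ) - f (a + n + 1 : ℕ)) - (f (a + n + 1 : ℕ) - f (a + n : ℕ)) ≤ M := by
  have hbn : ((a : ℝ) + n + 2) ≤ b := by exact_mod_cast hn
  have hn0 : (0 : ℝ) ≤ n := Nat.cast_nonneg n
  -- g x = f (x+1) - f x on [a+n, a+n+1]
  set u : ℝ := (a : ℝ) + n with hu
  have hg : ∀ x ∈ Set.Icc u (u + 1), HasDerivAt (fun y => f (y + 1) - f y)
      (f₁ (x + 1) - f₁ x) x := by
    intro x hx
    have h1 := (h (x + 1) (by linarith [hx.1]) (by linarith [hx.2])).1
    have h2 := (h x (by linarith [hx.1]) (by linarith [hx.2])).1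
    have h3 : HasDerivAt (fun y => f (y + 1)) (f₁ (x + 1)) x := by
      have := h1.comp_add_const x 1
      exact this
    exact h3.sub h2
  have hf1 : ∀ x ∈ Set.Icc u (u + 1), l ≤ f₁ (x + 1) - f₁ x ∧ f₁ (x + 1) - f₁ x ≤ M := by
    intro x hx
    have hc : ContinuousOn f₁ (Set.Icc x (x + 1)) := by
      intro y hy
      exact (h y (by linarith [hx.1, hy.1]) (by linarith [hx.2, hy.2])).2.1.continuousAt.continuousWithinAt
    obtain ⟨ξ, hξ, he⟩ := exists_hasDerivAt_eq_slope f₁ f₂ (by linarith : x < x + 1) hc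
      (fun y hy => (h y (by linarith [hx.1, hy.1]) (by linarith [hx.2, hy.2])).2.1)
    have h4 := h ξ (by linarith [hx.1, hξ.1]) (by linarith [hx.2, hξ.2])
    rw [show x + 1 - x = (1 : ℝ) by ring, div_one] at he
    rw [← he]
    exact ⟨h4.2.2.1, h4.2.2.2⟩
  have hc : ContinuousOn (fun y => f (y + 1) - f y) (Set.Icc u (u + 1)) :=
    fun y hy => (hg y hy).continuousAt.continuousWithinAt
  obtain ⟨ξ, hξ, he⟩ := exists_hasDerivAt_eq_slope (fun y => f (y + 1) - f y)
    (fun x => f₁ (x + 1) - f₁ x) (by linarith : u < u + 1) hc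
    (fun y hy => hg y ⟨hy.1.le, hy.2.le⟩)
  rw [show u + 1 - u = (1 : ℝ) by ring, div_one] at he
  have h5 := hf1 ξ ⟨hξ.1.le, hξ.2.le⟩
  rw [he] at h5
  have e1 : ((a + n + 2 : ℕ) : ℝ) = u + 1 + 1 := by push_cast; ring
  have e2 : ((a + n + 1 : ℕ) : ℝ) = u + 1 := by push_cast; ring
  have e3 : ((a + n : ℕ) : ℝ) = u := by push_cast; ring
  rw [e1, e2, e3]
  exact h5

end VDCaux

open VDCaux in
theorem t_VDC : S_VDC := by
  refine ⟨20, by norm_num, ?_⟩
  intro a b f f₁ f₂ l η hab hl hη h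
  have hsum : ∑ n ∈ Finset.Icc a b, ee (f n)
      = ∑ n ∈ Finset.range (b - a), ee (f ((a + n : ℕ) : ℝ)) + ee (f b) := by
    have e1 : Finset.Icc a b = Finset.Ico a (b + 1) := by
      ext n
      simp only [Finset.mem_Icc, Finset.mem_Ico]
      omega
    rw [e1, Finset.sum_Ico_succ_top hab, Finset.sum_Ico_eq_sum_range]
  have hba : ((b - a : ℕ) : ℝ) = (b : ℝ) - a := by rw [Nat.cast_sub hab]
  have hba0 : (0 : ℝ) ≤ (b : ℝ) - a := by
    rw [← hba]
    positivity
  have hsl : 0 < √l := Real.sqrt_pos.mpr hl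
  rw [hsum]
  refine (norm_add_le _ _).trans ?_
  rw [norm_ee]
  by_cases hl1 : l ≤ 1
  · have hs := VDCaux.seq (fun n => f ((a + n : ℕ) : ℝ)) (b - a) l (η * l) hl hl1
      (fun n hn => (second_diff a b f f₁ f₂ l (η * l) h n (by omega)).1)
      (fun n hn => (second_diff a b f f₁ f₂ l (η * l) h n (by omega)).2)
      (by positivity)
    rw [hba] at hs
    have hss : √l * √l = l := Real.mul_self_sqrt hl.le
    have e1 : (η * l * ((b : ℝ) - a) + 3) * (6 / √l)
        = 6 * (η * (((b : ℝ) - a) * √l)) + 18 * (1 / √l) := by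
      have : l / √l = √l := by
        rw [div_eq_iff hsl.ne']
        exact hss.symm
      calc (η * l * ((b : ℝ) - a) + 3) * (6 / √l)
          = 6 * (η * (((b : ℝ) - a) * (l / √l))) + 18 * (1 / √l) := by ring
        _ = _ := by rw [this]
    have p1 : 0 ≤ ((b : ℝ) - a) * √l := by positivity
    have p2 : 0 ≤ 1 / √l := by positivity
    have p3 : 1 / √l ≤ η * (1 / √l) := le_mul_of_one_le_left p2 hη
    have p4 : 0 ≤ η * (((b : ℝ) - a) * √l) := by positivity
    have e2 : 20 * η * (((b : ℝ) - a) * √l + 1 / √l + 1)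
        = 20 * (η * (((b : ℝ) - a) * √l)) + 20 * (η * (1 / √l)) + 20 * η := by ring
    rw [e2]
    linarith
  · push Not at hl1
    have h1 : 1 ≤ √l := by
      rw [Real.one_le_sqrt]
      exact hl1.le
    have h2 : ‖∑ n ∈ Finset.range (b - a), ee (f ((a + n : ℕ) : ℝ))‖ ≤ (b : ℝ) - a := by
      refine (norm_sum_le _ _).trans ?_
      simp only [norm_ee, Finset.sum_const, Finset.card_range, nsmul_eq_mul, mul_one]
      rw [hba]
    have h3 : (b : ℝ) - a ≤ ((b : ℝ) - a) * √l := le_mul_of_one_le_right hba0 h1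
    have p2 : 0 ≤ 1 / √l := by positivity
    have h4 : ((b : ℝ) - a) * √l + 1 ≤ 20 * η * (((b : ℝ) - a) * √l + 1 / √l + 1) := by
      have p1 : 0 ≤ ((b : ℝ) - a) * √l := by positivity
      nlinarith [mul_nonneg (by linarith : (0 : ℝ) ≤ η - 1) p1,
        mul_nonneg (by linarith : (0 : ℝ) ≤ η - 1) p2]
    linarith

end Pool.Agent.H304R4.CM
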