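import Pool.Agent.H304R4.CM.Stubs

open Complex MeasureTheory Filter Topology

namespace Pool.Agent.H304R4.CM

namespace W2aux

lemma ee_mul_conj (x y : ℝ) : ee x * (starRingEnd ℂ) (ee y) = ee (x - y) := by
  unfold ee
  rw [← Complex.exp_conj, ← Complex.exp_add]
  congr 1
  simp only [map_mul, Complex.conj_ofReal, Complex.conj_I]
  push_cast
  ring

lemma sum_cast (n : ℕ) (f : ℤ → ℂ) :
    ∑ b ∈ Finset.Icc (1 : ℤ) (n : ℤ), f b = ∑ b ∈ Finset.Icc 1 n, f (b : ℤ) := by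
  have h : Finset.Icc (1 : ℤ) (n : ℤ) = (Finset.Icc 1 n).image (fun m : ℕ => (m : ℤ)) := by
    ext x
    simp only [Finset.mem_Icc, Finset.mem_image]
    constructor
    · rintro ⟨h1, h2⟩
      exact ⟨x.toNat, by omega, by omega⟩
    · rintro ⟨m, hm, rfl⟩
      omega
  rw [h, Finset.sum_image]
  intro a _ b _ hab
  simp only at hab
  exact_mod_cast hab

/-- the rectangle -/
noncomputable def Rr (B C : ℝ) : Finset (ℤ × ℤ) :=
  Finset.Icc (1 : ℤ) (⌊2 * B⌋₊ : ℤ) ×ˢ Finset.Icc (1 : ℤ) (⌊2 * C⌋₊ : ℤ)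

lemma mem_of (B : ℝ) (hB : 1 ≤ B) (b : ℤ) (h1 : B / 2 ≤ b) (h2 : (b : ℝ) ≤ 2 * B) :
    b ∈ Finset.Icc (1 : ℤ) (⌊2 * B⌋₊ : ℤ) := by
  rw [Finset.mem_Icc]
  have h3 : (0 : ℝ) < b := by linarith
  have h4 : 0 < b := by exact_mod_cast h3
  refine ⟨by omega, ?_⟩
  obtain ⟨n, rfl⟩ := Int.eq_ofNat_of_zero_le h4.le
  have : n ≤ ⌊2 * B⌋₊ := Nat.le_floor (by exact_mod_cast h2)
  exact_mod_cast this

lemma rng {A : ℝ} {w : ℝ → ℂ} (hw : Wt A w) (B : ℝ) (hB : 1 ≤ B) (b : ℝ) (h : w (b / B) ≠ 0) :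
    B / 2 ≤ b ∧ b ≤ 2 * B := by
  have hB0 : 0 < B := by linarith
  obtain ⟨h1, h2⟩ := hw.supp _ h
  rw [le_div_iff₀ hB0] at h1
  rw [div_le_iff₀ hB0] at h2
  constructor <;> linarith

/-- the family -/
noncomputable def zz (w₁ w₂ w₃ : ℝ → ℂ) (B C H : ℝ) (h : ℕ) (ν : ℤ × ℤ) : ℂ :=
  w₁ ((ν.1 : ℝ) / B) * w₂ ((ν.2 : ℝ) / C) * w₃ ((h : ℝ) / H) *
    ee (((ν.1 : ℝ) * ν.2 / h) ^ 2 / 2)

lemma S3_eq (w₁ w₂ w₃ : ℝ → ℂ) (B C H : ℝ) : S3 w₁ w₂ w₃ B C H =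
    ∑ h ∈ Finset.Icc 1 ⌊2 * H⌋₊, ∑ ν ∈ Rr B C, zz w₁ w₂ w₃ B C H h ν := by
  unfold S3 Rr
  refine Finset.sum_congr rfl fun h _ => ?_
  rw [Finset.sum_product]
  rw [sum_cast]
  refine Finset.sum_congr rfl fun b _ => ?_
  rw [sum_cast]
  refine Finset.sum_congr rfl fun c _ => ?_
  simp only [zz, Int.cast_natCast]

lemma shift_eq (w₁ w₂ w₃ : ℝ → ℂ) (B C H : ℝ) (h : ℕ) (b c j k : ℤ) :
    zz w₁ w₂ w₃ B C H h (b + j, c + k) * (starRingEnd ℂ) (zz w₁ w₂ w₃ B C H h (b - j, c - k)) =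
    dw w₁ (j / B) ((b : ℝ) / B) * dw w₂ (k / C) ((c : ℝ) / C) * dw w₃ 0 ((h : ℝ) / H) *
      ee (ph j k h b c) := by
  unfold zz dw
  have e : ee (ph j k h b c) = ee (((((b + j : ℤ) : ℝ)) * ((c + k : ℤ) : ℝ) / h) ^ 2 / 2) *
      (starRingEnd ℂ) (ee (((((b - j : ℤ) : ℝ)) * ((c - k : ℤ) : ℝ) / h) ^ 2 / 2)) := by
    rw [ee_mul_conj]
    congr 1
    unfold ph
    push_cast
    ring
  rw [e]
  simp only [map_mul, add_zero, sub_zero]
  have e1 : (((b + j : ℤ) : ℝ)) / B = (b : ℝ) / B + j / B := by push_cast; ring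
  have e2 : (((b - j : ℤ) : ℝ)) / B = (b : ℝ) / B - j / B := by push_cast; ring
  have e3 : (((c + k : ℤ) : ℝ)) / C = (c : ℝ) / C + k / C := by push_cast; ring
  have e4 : (((c - k : ℤ) : ℝ)) / C = (c : ℝ) / C - k / C := by push_cast; ring
  rw [e1, e2, e3, e4]
  ring

end W2aux

open W2aux in
theorem t_W2 (hW2D : S_W2D) : S_W2 := by
  refine ⟨32, by norm_num, ?_⟩
  intro A₁ A₂ A₃ w₁ w₂ w₃ hw1 hw2 hw3 B C H hB hC hH J N hJ hN hJB hNC
  have hD := hW2D (Finset.Icc 1 ⌊2 * H⌋₊) (zz w₁ w₂ w₃ B C H) (Rr B C)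
    (Finset.Icc (1 - 2 * (J : ℤ)) (⌊2 * B⌋₊ : ℤ) ×ˢ Finset.Icc (1 - 2 * (N : ℤ)) (⌊2 * C⌋₊ : ℤ))
    J N hJ hN
    (by
      intro h _ ν hν
      have h1 : w₁ ((ν.1 : ℝ) / B) ≠ 0 := by
        intro h0; apply hν; simp [zz, h0]
      have h2 : w₂ ((ν.2 : ℝ) / C) ≠ 0 := by
        intro h0; apply hν; simp [zz, h0]
      unfold Rr
      rw [Finset.mem_product]
      obtain ⟨h3, h4⟩ := rng hw1 B hB _ h1
      obtain ⟨h5, h6⟩ := rng hw2 C hC _ h2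
      exact ⟨mem_of B hB _ h3 h4, mem_of C hC _ h5 h6⟩)
    (by
      intro ν y₁ hy1 y₂ hy2 hmem
      unfold Rr at hmem
      rw [Finset.mem_product, Finset.mem_Icc, Finset.mem_Icc] at hmem ⊢
      simp only at hmem
      omega)
  rw [← S3_eq] at hD
  have hT : ∀ j k : ℤ, (∑ h ∈ Finset.Icc 1 ⌊2 * H⌋₊, ∑' ν : ℤ × ℤ,
      zz w₁ w₂ w₃ B C H h (ν.1 + j, ν.2 + k) *
        (starRingEnd ℂ) (zz w₁ w₂ w₃ B C H h (ν.1 - j, ν.2 - k))) =
      TT (dw w₁ (j / B)) (dw w₂ (k / C)) (dw w₃ 0) B C H j k := by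
    intro j k
    unfold TT
    refine Finset.sum_congr rfl fun h _ => ?_
    rw [tsum_eq_sum (s := Rr B C)]
    · unfold Rr
      rw [Finset.sum_product, sum_cast]
      refine Finset.sum_congr rfl fun b _ => ?_
      rw [sum_cast]
      refine Finset.sum_congr rfl fun c _ => ?_
      rw [shift_eq]
      simp only [Int.cast_natCast]
    · intro ν hν
      by_contra hne
      apply hν
      rw [shift_eq] at hne
      have h1 : dw w₁ (j / B) ((ν.1 : ℝ) / B) ≠ 0 := by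
        intro h0; apply hne; rw [h0]; ring
      have h2 : dw w₂ (k / C) ((ν.2 : ℝ) / C) ≠ 0 := by
        intro h0; apply hne; rw [h0]; ring
      have h1a : w₁ (((ν.1 : ℝ) + j) / B) ≠ 0 := by
        intro h0; apply h1; unfold dw; rw [← add_div, h0, zero_mul]
      have h1b : w₁ (((ν.1 : ℝ) - j) / B) ≠ 0 := by
        intro h0; apply h1; unfold dw; rw [← sub_div, h0, map_zero, mul_zero]
      have h2a : w₂ (((ν.2 : ℝ) + k) / C) ≠ 0 := by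
        intro h0; apply h2; unfold dw; rw [← add_div, h0, zero_mul]
      have h2b : w₂ (((ν.2 : ℝ) - k) / C) ≠ 0 := by
        intro h0; apply h2; unfold dw; rw [← sub_div, h0, map_zero, mul_zero]
      have r1 := rng hw1 B hB _ h1a
      have r2 := rng hw1 B hB _ h1b
      have r3 := rng hw2 C hC _ h2a
      have r4 := rng hw2 C hC _ h2b
      unfold Rr
      rw [Finset.mem_product]
      exact ⟨mem_of B hB _ (by linarith [r1.1, r2.1]) (by linarith [r1.2, r2.2]),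
        mem_of C hC _ (by linarith [r3.1, r4.1]) (by linarith [r3.2, r4.2])⟩
  simp only [hT] at hD
  refine hD.trans ?_
  refine mul_le_mul_of_nonneg_right ?_
    (Finset.sum_nonneg fun j _ => Finset.sum_nonneg fun k _ => norm_nonneg _)
  rw [Nat.card_Icc, Finset.card_product, Int.card_Icc, Int.card_Icc]
  have hJ0 : (0 : ℝ) < J := by exact_mod_cast hJ
  have hN0 : (0 : ℝ) < N := by exact_mod_cast hN
  have c1 : (((⌊2 * H⌋₊ + 1 - 1 : ℕ)) : ℝ) ≤ 2 * H := by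
    rw [Nat.add_sub_cancel]
    exact Nat.floor_le (by linarith)
  have c2 : ∀ (B : ℝ) (J : ℕ), 1 ≤ B → (J : ℝ) ≤ B →
      ((((⌊2 * B⌋₊ : ℤ) + 1 - (1 - 2 * (J : ℤ))).toNat : ℕ) : ℝ) ≤ 4 * B := by
    intro B J hB hJ
    have e : ((⌊2 * B⌋₊ : ℤ) + 1 - (1 - 2 * (J : ℤ))).toNat = ⌊2 * B⌋₊ + 2 * J := by omega
    rw [e]
    push_cast
    have := Nat.floor_le (show (0 : ℝ) ≤ 2 * B by linarith)
    linarith
  have c3 := c2 B J hB hJB
  have c4 := c2 C N hC hNC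
  rw [mul_div_assoc', div_le_div_iff_of_pos_right (mul_pos hJ0 hN0)]
  push_cast at c1 c3 c4 ⊢
  calc _ ≤ (2 * H) * ((4 * B) * (4 * C)) := by
        refine mul_le_mul c1 (mul_le_mul c3 c4 (by positivity) (by linarith)) (by positivity)
          (by linarith)
    _ = 32 * (B * C * H) := by ring

end Pool.Agent.H304R4.CM
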