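import Pool.Agent.H304R4.CM.Stubs

/-! # TEAM CM, part 2, task W2D: the two dimensional Weyl inequality for families. -/

open Complex MeasureTheory Filter Topology

namespace Pool.Agent.H304R4.CM

/-- correlation of a function -/
noncomputable def W2D_cor (z : ℤ × ℤ → ℂ) (d : ℤ × ℤ) : ℂ :=
  ∑' ν : ℤ × ℤ, z (ν.1 + d.1, ν.2 + d.2) * (starRingEnd ℂ) (z (ν.1 - d.1, ν.2 - d.2))

/-- the shift `2 y` -/
def W2D_sh (y : ℕ × ℕ) : ℤ × ℤ := (2 * (y.1 : ℤ), 2 * (y.2 : ℤ))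

theorem W2D_shift (f : ℤ × ℤ → ℂ) (R T : Finset (ℤ × ℤ)) (s : ℤ × ℤ)
    (hR : ∀ ν, f ν ≠ 0 → ν ∈ R) (hT : ∀ ν, ν + s ∈ R → ν ∈ T) :
    ∑ ν ∈ T, f (ν + s) = ∑ ν ∈ R, f ν := by
  have h1 : ∑' ν, f (ν + s) = ∑ ν ∈ T, f (ν + s) := by
    refine tsum_eq_sum fun ν hν => ?_
    by_contra h
    exact hν (hT ν (hR _ h))
  have h2 : ∑' ν, f ν = ∑ ν ∈ R, f ν := by
    refine tsum_eq_sum fun ν hν => ?_
    by_contra h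
    exact hν (hR _ h)
  rw [← h1, ← h2]
  exact (Equiv.addRight s).tsum_eq f

theorem W2D_corr (f : ℤ × ℤ → ℂ) (R T : Finset (ℤ × ℤ)) (y y' : ℕ × ℕ)
    (hR : ∀ ν, f ν ≠ 0 → ν ∈ R) (hT : ∀ ν, ν + W2D_sh y ∈ R → ν ∈ T) :
    ∑ ν ∈ T, f (ν + W2D_sh y) * (starRingEnd ℂ) (f (ν + W2D_sh y')) =
      W2D_cor f ((y.1 : ℤ) - y'.1, (y.2 : ℤ) - y'.2) := by
  have h1 : ∑' ν, f (ν + W2D_sh y) * (starRingEnd ℂ) (f (ν + W2D_sh y')) =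
      ∑ ν ∈ T, f (ν + W2D_sh y) * (starRingEnd ℂ) (f (ν + W2D_sh y')) := by
    refine tsum_eq_sum fun ν hν => ?_
    have : f (ν + W2D_sh y) = 0 := by
      by_contra h
      exact hν (hT ν (hR _ h))
    rw [this, zero_mul]
  rw [← h1]
  unfold W2D_cor
  rw [← (Equiv.addRight (((y.1 : ℤ) + y'.1, (y.2 : ℤ) + y'.2) : ℤ × ℤ)).tsum_eq
    (fun ν : ℤ × ℤ => f (ν.1 + ((y.1 : ℤ) - y'.1), ν.2 + ((y.2 : ℤ) - y'.2)) *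
      (starRingEnd ℂ) (f (ν.1 - ((y.1 : ℤ) - y'.1), ν.2 - ((y.2 : ℤ) - y'.2))))]
  refine tsum_congr fun ν => ?_
  have e1 : ν + W2D_sh y = (((Equiv.addRight (((y.1 : ℤ) + y'.1, (y.2 : ℤ) + y'.2) : ℤ × ℤ)) ν).1 +
      ((y.1 : ℤ) - y'.1), ((Equiv.addRight (((y.1 : ℤ) + y'.1, (y.2 : ℤ) + y'.2) : ℤ × ℤ)) ν).2 +
      ((y.2 : ℤ) - y'.2)) := by
    ext
    · simp only [W2D_sh, Equiv.coe_addRight, Prod.fst_add]; ring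
    · simp only [W2D_sh, Equiv.coe_addRight, Prod.snd_add]; ring
  have e2 : ν + W2D_sh y' = (((Equiv.addRight (((y.1 : ℤ) + y'.1, (y.2 : ℤ) + y'.2) : ℤ × ℤ)) ν).1 -
      ((y.1 : ℤ) - y'.1), ((Equiv.addRight (((y.1 : ℤ) + y'.1, (y.2 : ℤ) + y'.2) : ℤ × ℤ)) ν).2 -
      ((y.2 : ℤ) - y'.2)) := by
    ext
    · simp only [W2D_sh, Equiv.coe_addRight, Prod.fst_add]; ring
    · simp only [W2D_sh, Equiv.coe_addRight, Prod.snd_add]; ring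
  rw [e1, e2]

theorem W2D_pairs (Y₁ Y₂ : ℕ) (F : ℤ × ℤ → ℝ) (hF : ∀ d, 0 ≤ F d) :
    ∑ y ∈ Finset.range Y₁ ×ˢ Finset.range Y₂, ∑ y' ∈ Finset.range Y₁ ×ˢ Finset.range Y₂,
      F ((y.1 : ℤ) - y'.1, (y.2 : ℤ) - y'.2) ≤
    ((Y₁ : ℝ) * Y₂) * ∑ d ∈ Finset.Ioo (-(Y₁ : ℤ)) Y₁ ×ˢ Finset.Ioo (-(Y₂ : ℤ)) Y₂, F d := by
  have key : ∀ y ∈ Finset.range Y₁ ×ˢ Finset.range Y₂,
      ∑ y' ∈ Finset.range Y₁ ×ˢ Finset.range Y₂, F ((y.1 : ℤ) - y'.1, (y.2 : ℤ) - y'.2) ≤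
        ∑ d ∈ Finset.Ioo (-(Y₁ : ℤ)) Y₁ ×ˢ Finset.Ioo (-(Y₂ : ℤ)) Y₂, F d := by
    intro y hy
    rw [Finset.mem_product, Finset.mem_range, Finset.mem_range] at hy
    have hinj : Set.InjOn (fun y' : ℕ × ℕ => (((y.1 : ℤ) - y'.1, (y.2 : ℤ) - y'.2) : ℤ × ℤ))
        ((Finset.range Y₁ ×ˢ Finset.range Y₂ : Finset (ℕ × ℕ)) : Set (ℕ × ℕ)) := by
      intro a _ b _ hab
      simp only [Prod.mk.injEq] at hab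
      ext
      · omega
      · omega
    rw [← Finset.sum_image (f := F) hinj]
    refine Finset.sum_le_sum_of_subset_of_nonneg ?_ (fun d _ _ => hF d)
    intro d hd
    rw [Finset.mem_image] at hd
    obtain ⟨y', hy', rfl⟩ := hd
    rw [Finset.mem_product, Finset.mem_range, Finset.mem_range] at hy'
    rw [Finset.mem_product, Finset.mem_Ioo, Finset.mem_Ioo]
    refine ⟨⟨?_, ?_⟩, ⟨?_, ?_⟩⟩ <;> dsimp only <;> omega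
  refine (Finset.sum_le_sum key).trans ?_
  rw [Finset.sum_const, Finset.card_product, Finset.card_range, Finset.card_range, nsmul_eq_mul]
  push_cast
  exact le_rfl

theorem t_W2D : S_W2D := by
  intro S z R T Y₁ Y₂ hY1 hY2 hR hT
  set Y : Finset (ℕ × ℕ) := Finset.range Y₁ ×ˢ Finset.range Y₂ with hY
  have hYc : (Y.card : ℝ) = (Y₁ : ℝ) * Y₂ := by
    rw [hY, Finset.card_product, Finset.card_range, Finset.card_range]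
    push_cast
    rfl
  have hT' : ∀ y ∈ Y, ∀ ν, ν + W2D_sh y ∈ R → ν ∈ T := by
    intro y hy ν hν
    rw [hY, Finset.mem_product, Finset.mem_range, Finset.mem_range] at hy
    exact hT ν y.1 hy.1 y.2 hy.2 hν
  set g : ℕ → ℤ × ℤ → ℂ := fun h ν => ∑ y ∈ Y, z h (ν + W2D_sh y) with hg
  have h1 : ((Y.card : ℕ) : ℂ) * ∑ h ∈ S, ∑ ν ∈ R, z h ν = ∑ h ∈ S, ∑ ν ∈ T, g h ν := by
    rw [Finset.mul_sum]
    refine Finset.sum_congr rfl fun h hh => ?_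
    rw [hg, Finset.sum_comm]
    rw [← nsmul_eq_mul, ← Finset.sum_const]
    refine Finset.sum_congr rfl fun y hy => ?_
    exact (W2D_shift (z h) R T (W2D_sh y) (hR h hh) (hT' y hy)).symm
  have h2 : (Y.card : ℝ) ^ 2 * ‖∑ h ∈ S, ∑ ν ∈ R, z h ν‖ ^ 2 ≤
      (S.card : ℝ) * T.card * ∑ h ∈ S, ∑ ν ∈ T, ‖g h ν‖ ^ 2 := by
    have h3 : (Y.card : ℝ) * ‖∑ h ∈ S, ∑ ν ∈ R, z h ν‖ = ‖∑ p ∈ S ×ˢ T, g p.1 p.2‖ := by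
      rw [Finset.sum_product, ← h1, norm_mul, Complex.norm_natCast]
    rw [← mul_pow, h3, ← Finset.sum_product (s := S) (t := T) (f := fun p => ‖g p.1 p.2‖ ^ 2)]
    have h4 : ‖∑ p ∈ S ×ˢ T, g p.1 p.2‖ ≤ ∑ p ∈ S ×ˢ T, ‖g p.1 p.2‖ := norm_sum_le _ _
    have h5 := sq_sum_le_card_mul_sum_sq (s := S ×ˢ T) (f := fun p => ‖g p.1 p.2‖)
    rw [Finset.card_product] at h5
    push_cast at h5
    exact (pow_le_pow_left₀ (norm_nonneg _) h4 2).trans h5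
  set A : ℤ × ℤ → ℂ := fun d => ∑ h ∈ S, W2D_cor (z h) d with hA
  have h6 : ((∑ h ∈ S, ∑ ν ∈ T, ‖g h ν‖ ^ 2 : ℝ) : ℂ) =
      ∑ y ∈ Y, ∑ y' ∈ Y, A ((y.1 : ℤ) - y'.1, (y.2 : ℤ) - y'.2) := by
    push_cast
    have h7 : ∀ h ∈ S, ∑ ν ∈ T, ((‖g h ν‖ : ℝ) : ℂ) ^ 2 =
        ∑ y ∈ Y, ∑ y' ∈ Y, W2D_cor (z h) ((y.1 : ℤ) - y'.1, (y.2 : ℤ) - y'.2) := by
      intro h hh
      have h8 : ∀ ν ∈ T, ((‖g h ν‖ : ℝ) : ℂ) ^ 2 =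
          ∑ y ∈ Y, ∑ y' ∈ Y, z h (ν + W2D_sh y) * (starRingEnd ℂ) (z h (ν + W2D_sh y')) := by
        intro ν _
        rw [← Complex.mul_conj', hg]
        simp only [map_sum, Finset.sum_mul_sum]
      rw [Finset.sum_congr rfl h8, Finset.sum_comm]
      refine Finset.sum_congr rfl fun y hy => ?_
      rw [Finset.sum_comm]
      refine Finset.sum_congr rfl fun y' _ => ?_
      exact W2D_corr (z h) R T y y' (hR h hh) (hT' y hy)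
    rw [Finset.sum_congr rfl h7, Finset.sum_comm]
    refine Finset.sum_congr rfl fun y _ => ?_
    rw [Finset.sum_comm]
  have h9 : ∑ h ∈ S, ∑ ν ∈ T, ‖g h ν‖ ^ 2 ≤ ((Y₁ : ℝ) * Y₂) *
      ∑ d ∈ Finset.Ioo (-(Y₁ : ℤ)) Y₁ ×ˢ Finset.Ioo (-(Y₂ : ℤ)) Y₂, ‖A d‖ := by
    have h10 : ∑ h ∈ S, ∑ ν ∈ T, ‖g h ν‖ ^ 2 =
        ‖∑ y ∈ Y, ∑ y' ∈ Y, A ((y.1 : ℤ) - y'.1, (y.2 : ℤ) - y'.2)‖ := by
      rw [← h6, Complex.norm_real, Real.norm_of_nonneg]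
      positivity
    rw [h10]
    refine (norm_sum_le _ _).trans ?_
    refine (Finset.sum_le_sum fun y _ => norm_sum_le _ _).trans ?_
    exact W2D_pairs Y₁ Y₂ (fun d => ‖A d‖) (fun d => norm_nonneg _)
  have hY1' : (0 : ℝ) < Y₁ := by exact_mod_cast hY1
  have hY2' : (0 : ℝ) < Y₂ := by exact_mod_cast hY2
  have h11 : ∑ d ∈ Finset.Ioo (-(Y₁ : ℤ)) Y₁ ×ˢ Finset.Ioo (-(Y₂ : ℤ)) Y₂, ‖A d‖ =
      ∑ d₁ ∈ Finset.Ioo (-(Y₁ : ℤ)) Y₁, ∑ d₂ ∈ Finset.Ioo (-(Y₂ : ℤ)) Y₂,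
      ‖∑ h ∈ S, ∑' ν : ℤ × ℤ, z h (ν.1 + d₁, ν.2 + d₂) *
        (starRingEnd ℂ) (z h (ν.1 - d₁, ν.2 - d₂))‖ := by
    rw [Finset.sum_product]
    rfl
  rw [← h11]
  have h12 : (Y.card : ℝ) ^ 2 * ‖∑ h ∈ S, ∑ ν ∈ R, z h ν‖ ^ 2 ≤
      (S.card : ℝ) * T.card * (((Y₁ : ℝ) * Y₂) *
      ∑ d ∈ Finset.Ioo (-(Y₁ : ℤ)) Y₁ ×ˢ Finset.Ioo (-(Y₂ : ℤ)) Y₂, ‖A d‖) :=
    h2.trans (mul_le_mul_of_nonneg_left h9 (by positivity))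
  rw [hYc] at h12
  have h13 : 0 < ((Y₁ : ℝ) * Y₂) ^ 2 := by positivity
  rw [← mul_le_mul_iff_right₀ h13]
  refine h12.trans (le_of_eq ?_)
  field_simp

end Pool.Agent.H304R4.CM
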