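import Pool.Agent.H304R4.CM.Stubs

open Complex MeasureTheory Filter Topology

namespace Pool.Agent.H304R4.CM

theorem W3_conj_bound (w : ℝ → ℂ) (hw : ContDiff ℝ (⊤ : ℕ∞) w) (m : ℕ) (x : ℝ) :
    ‖iteratedFDeriv ℝ m (fun x => (starRingEnd ℂ) (w x)) x‖ = ‖iteratedFDeriv ℝ m w x‖ := by
  have h := Complex.conjLIE.toLinearIsometry.norm_iteratedFDeriv_comp_left (f := w) (x := x) (i := m)
    (n := (m : WithTop ℕ∞)) ((hw.of_le (by exact_mod_cast le_top)).contDiffAt) le_rfl
  exact h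

theorem W3_conj (A : ℝ) (w : ℝ → ℂ) (h : Wt A w) : Wt A (fun x => (starRingEnd ℂ) (w x)) where
  smooth := Complex.conjCLE.contDiff.comp h.smooth
  supp x hx := h.supp x (by
    intro h0
    apply hx
    rw [h0, map_zero])
  bound m hm x := by
    rw [← norm_iteratedFDeriv_eq_norm_iteratedDeriv, W3_conj_bound w h.smooth,
      norm_iteratedFDeriv_eq_norm_iteratedDeriv]
    exact h.bound m hm x

theorem W3_shift (w : ℝ → ℂ) (t : ℝ) (m : ℕ) (x : ℝ) :
    ‖iteratedFDeriv ℝ m (fun x => w (x + t)) x‖ = ‖iteratedFDeriv ℝ m w (x + t)‖ := by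
  rw [iteratedFDeriv_comp_add_right]

theorem t_W3 : S_W3 := by
  refine ⟨?_, W3_conj⟩
  intro A w t h
  have hA : 0 ≤ A := (norm_nonneg _).trans (h.bound 0 (by norm_num) 0)
  have h1 : ContDiff ℝ (⊤ : ℕ∞) (fun x => w (x + t)) :=
    h.smooth.comp (contDiff_id.add contDiff_const)
  have h2 : ContDiff ℝ (⊤ : ℕ∞) (fun x => w (x - t)) :=
    h.smooth.comp (contDiff_id.sub contDiff_const)
  have h3 : ContDiff ℝ (⊤ : ℕ∞) (fun x => (starRingEnd ℂ) (w (x - t))) :=
    Complex.conjCLE.contDiff.comp h2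
  refine ⟨h1.mul h3, ?_, ?_⟩
  · intro x hx
    unfold dw at hx
    have e1 : w (x + t) ≠ 0 := left_ne_zero_of_mul hx
    have e2 : w (x - t) ≠ 0 := by
      intro h0
      apply right_ne_zero_of_mul hx
      rw [h0, map_zero]
    have a1 := h.supp _ e1
    have a2 := h.supp _ e2
    constructor <;> linarith [a1.1, a1.2, a2.1, a2.2]
  · intro m hm x
    rw [← norm_iteratedFDeriv_eq_norm_iteratedDeriv]
    have hle : (m : WithTop ℕ∞) ≤ ((⊤ : ℕ∞) : WithTop ℕ∞) := by exact_mod_cast le_top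
    have key := norm_iteratedFDeriv_mul_le (𝕜 := ℝ) (f := fun x => w (x + t))
      (g := fun x => (starRingEnd ℂ) (w (x - t))) (n := m) h1 h3 x hle
    refine key.trans ?_
    have hb : ∀ i ∈ Finset.range (m + 1), (m.choose i : ℝ) * ‖iteratedFDeriv ℝ i (fun x => w (x + t)) x‖ *
        ‖iteratedFDeriv ℝ (m - i) (fun x => (starRingEnd ℂ) (w (x - t))) x‖ ≤ (m.choose i : ℝ) * A ^ 2 := by
      intro i hi
      rw [Finset.mem_range] at hi
      have b1 : ‖iteratedFDeriv ℝ i (fun x => w (x + t)) x‖ ≤ A := by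
        rw [W3_shift, norm_iteratedFDeriv_eq_norm_iteratedDeriv]
        exact h.bound i (by omega) _
      have b2 : ‖iteratedFDeriv ℝ (m - i) (fun x => (starRingEnd ℂ) (w (x - t))) x‖ ≤ A := by
        rw [W3_conj_bound _ h2]
        simp only [sub_eq_add_neg]
        rw [W3_shift, norm_iteratedFDeriv_eq_norm_iteratedDeriv]
        exact h.bound (m - i) (by omega) _
      calc _ ≤ (m.choose i : ℝ) * A * A := by gcongr
        _ = _ := by ring
    refine (Finset.sum_le_sum hb).trans ?_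
    rw [← Finset.sum_mul]
    have hs : ∑ i ∈ Finset.range (m + 1), (m.choose i : ℝ) = 2 ^ m := by
      have := Nat.sum_range_choose m
      exact_mod_cast this
    rw [hs]
    have : (2 : ℝ) ^ m ≤ 16 := by
      calc (2 : ℝ) ^ m ≤ 2 ^ 4 := pow_le_pow_right₀ (by norm_num) hm
        _ = 16 := by norm_num
    exact mul_le_mul_of_nonneg_right this (sq_nonneg A)

end Pool.Agent.H304R4.CM
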