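import Pool.Agent.H304R4.CM.T_A3
import Pool.Agent.H304R4.CM.T_A2
import Pool.Agent.H304R4.CM.T_A2a
import Pool.Agent.H304R4.CM.T_A1
import Pool.Agent.H304R4.CM.T_C6
import Pool.Agent.H304R4.CM.T_C6L
import Pool.Agent.H304R4.CM.T_C5b
import Pool.Agent.H304R4.CM.T_C5
import Pool.Agent.H304R4.CM.T_C4
import Pool.Agent.H304R4.CM.T_C4a
import Pool.Agent.H304R4.CM.T_C1
import Pool.Agent.H304R4.CM.T_C2
import Pool.Agent.H304R4.CM.T_C0
import Pool.Agent.H304R4.CM.T_E1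
import Pool.Agent.H304R4.CM.T_E1a
import Pool.Agent.H304R4.CM.T_H4
import Pool.Agent.H304R4.CM.T_I5
import Pool.Agent.H304R4.CM.T_H3
import Pool.Agent.H304R4.CM.T_VDC
import Pool.Agent.H304R4.CM.T_H2
import Pool.Agent.H304R4.CM.T_H1
import Pool.Agent.H304R4.CM.T_C3
import Pool.Agent.H304R4.CM.T_C3a
import Pool.Agent.H304R4.CM.T_G2
import Pool.Agent.H304R4.CM.T_G1
import Pool.Agent.H304R4.CM.T_I4
import Pool.Agent.H304R4.CM.T_I3
import Pool.Agent.H304R4.CM.T_I2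
import Pool.Agent.H304R4.CM.T_I1
import Pool.Agent.H304R4.CM.T_I1a
import Pool.Agent.H304R4.CM.T_I0
import Pool.Agent.H304R4.CM.T_BDA
import Pool.Agent.H304R4.CM.T_LAT
import Pool.Agent.H304R4.CM.T_P2
import Pool.Agent.H304R4.CM.T_P1
import Pool.Agent.H304R4.CM.T_U5
import Pool.Agent.H304R4.CM.T_UA
import Pool.Agent.H304R4.CM.T_U4
import Pool.Agent.H304R4.CM.T_U3
import Pool.Agent.H304R4.CM.T_FAR
import Pool.Agent.H304R4.CM.T_U2
import Pool.Agent.H304R4.CM.T_SY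
import Pool.Agent.H304R4.CM.T_W3
import Pool.Agent.H304R4.CM.T_W2
import Pool.Agent.H304R4.CM.T_W2D

set_option autoImplicit false

/-! # TEAM CM, part 2: the box bound. -/

namespace Pool.Agent.H304R4.CM

theorem boxBound : BoxBound := by
  have hC3a := t_C3a t_G1 t_G2
  have hC3 := t_C3 hC3a t_G1 t_G2
  have hC1 := t_C1 t_W2D t_C0
  have hC4a := t_C4a hC1 t_C2
  have hC4 := t_C4 hC3 hC4a
  have hC5b := t_C5b t_G2
  have hC6L := t_C6L hC4 hC5b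
  have hC6 := t_C6 hC6L C5.t_C5 hC5b
  have hI1 := t_I1 t_I1a
  have hI3 := t_I3 t_BDA hI1
  have hI4 := t_I4 t_BDA hI1
  have hH1 := t_H1 t_G1 t_G2 hC3a
  have hH2 := t_H2 hH1 t_G2
  have hH3 := t_H3 t_VDC
  have hI5 := t_I5 hH1 hH2 t_BDA hI1 hI4
  have hH4 := t_H4 t_P2 t_I0 hH2 hH3 hI5 t_G2
  have hE1a := t_E1a t_P2 t_I0 t_I2 hI3 t_G1
  have hE1 := t_E1 t_P1 hH4 hE1a t_LAT
  have hA1 := t_A1 hE1 hC6
  have hA2a := t_A2a hA1 t_SY
  have hW2 := t_W2 t_W2D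
  have hU4 := t_U4 (U3.t_U3 t_FAR)
  have hUA := t_UA t_U2 hU4
  have hU5 := t_U5 hW2 t_W3 t_SY hUA
  have hA2 := t_A2 hW2 t_W3 t_SY hUA hA2a
  exact t_A3 t_SY hU5 hA2

end Pool.Agent.H304R4.CM
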