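import Mathlib
import Pool.Agent.H304R4.CM.HandIn
import Pool.Agent.H304R4.CM.PartTwo

set_option autoImplicit false

open Complex MeasureTheory Filter Topology Asymptotics

namespace Pool.Agent.H304R4.CM

open Pool.Agent.H408R2.CM in
theorem explicit_saving (hbox : BoxBound) : ∃ C : ℝ, ∀ T : ℝ, 1 ≤ T →
    |∫ t in (0 : ℝ)..T, hZ t ^ 3| ≤ C * T ^ (1 - 1 / 64000000 : ℝ) := by
  have hQI := QI (Q1 GR) (Q2 GB) V
  have hAFE := AFE (EX XI) hQI V (DS V) (TL V)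
  have hCX := CX hAFE V GZ
  have hM4 := M4 hAFE V (P2 MV) Z GZ
  have hINN := INN (KA GR) (GT GB) OT (TW GZ) RS hCX Z GZ
  have hBS := BS (B1 hbox GI W1 (W2 W1) ME) OFF W1
  have hIJ := IJ V hINN hBS W1 hCX Z OT
  have hb := WIN_block (JB hAFE V hCX OT hIJ Z GZ W1) hM4 OM OT Z GZ
  obtain ⟨T1, hT1⟩ := eventually_atTop.mp hb
  have hF : Continuous fun t => hZ t ^ 3 := Z.2.2.1.pow 3
  obtain ⟨C, hC⟩ := WIN_dyadic (fun t => hZ t ^ 3) hF (1 - 1 / 64000000) (max T1 1)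
    (by norm_num) (le_max_right _ _) (fun T hT => hT1 T ((le_max_left _ _).trans hT))
  exact ⟨C, hC⟩

theorem explicit_final :
    (∃ Z : ℝ → ℝ, ∀ t : ℝ, (Z t : ℂ) = (Real.pi : ℂ) ^ (-(I * t / 2)) *
      (Complex.Gamma (1 / 4 + I * t / 2) / (‖Complex.Gamma (1 / 4 + I * t / 2)‖ : ℂ)) *
      riemannZeta (1 / 2 + I * t)) ∧
    ∀ Z : ℝ → ℝ, (∀ t : ℝ, (Z t : ℂ) = (Real.pi : ℂ) ^ (-(I * t / 2)) *
      (Complex.Gamma (1 / 4 + I * t / 2) / (‖Complex.Gamma (1 / 4 + I * t / 2)‖ : ℂ)) *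
      riemannZeta (1 / 2 + I * t)) →
      (fun T : ℝ => ∫ t in (0 : ℝ)..T, Z t ^ 3) =O[atTop]
        (fun T : ℝ => T ^ (1 - 1 / 64000000 : ℝ)) := by
  have hz : ∀ t : ℝ, (hZ t : ℂ) = (Real.pi : ℂ) ^ (-(I * t / 2)) *
      (Complex.Gamma (1 / 4 + I * t / 2) / (‖Complex.Gamma (1 / 4 + I * t / 2)‖ : ℂ)) *
      riemannZeta (1 / 2 + I * t) := by
    intro t
    rw [← theta_eq, Pool.Agent.H408R2.CM.Z.1 t]
    unfold Pool.Agent.H408R2.CM.zc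
    congr 2
    ring
  obtain ⟨C, hC⟩ := explicit_saving boxBound
  refine ⟨⟨hZ, hz⟩, fun Z hZ' => ?_⟩
  have he : Z = hZ := by
    funext t
    have := (hZ' t).trans (hz t).symm
    exact_mod_cast this
  subst he
  refine IsBigO.of_bound C ?_
  filter_upwards [eventually_ge_atTop (1 : ℝ)] with T hT
  rw [Real.norm_eq_abs, Real.norm_eq_abs, abs_of_nonneg (Real.rpow_nonneg (by linarith) _)]
  exact hC T hT

end Pool.Agent.H304R4.CM
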