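import Mathlib
import Pool.Agent.H304R4.CM.Explicit

set_option autoImplicit false

open Complex MeasureTheory Filter Topology Asymptotics

namespace Pool.Agent.H304R4.CM

theorem hZ_cont : Continuous hZ := Pool.Agent.H408R2.CM.Z.2.2.1

theorem signs_core : ∃ C : ℝ, ∀ T : ℝ, 1 ≤ T →
    |(∫ t in (0 : ℝ)..T, max (hZ t) 0 ^ 3) - (∫ t in (0 : ℝ)..T, |hZ t| ^ 3) / 2| ≤
      C * T ^ (1 - 1 / 64000000 : ℝ) ∧
    |(∫ t in (0 : ℝ)..T, max (-hZ t) 0 ^ 3) - (∫ t in (0 : ℝ)..T, |hZ t| ^ 3) / 2| ≤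
      C * T ^ (1 - 1 / 64000000 : ℝ) := by
  obtain ⟨C, hC⟩ := explicit_saving boxBound
  refine ⟨C / 2, fun T hT => ?_⟩
  have h1 : ∀ t : ℝ, max (hZ t) 0 ^ 3 = (|hZ t| ^ 3 + hZ t ^ 3) / 2 := by
    intro t
    rcases le_total 0 (hZ t) with h | h
    · rw [max_eq_left h, abs_of_nonneg h]; ring
    · rw [max_eq_right h, abs_of_nonpos h]; ring
  have h2 : ∀ t : ℝ, max (-hZ t) 0 ^ 3 = (|hZ t| ^ 3 - hZ t ^ 3) / 2 := by
    intro t
    rcases le_total 0 (hZ t) with h | h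
    · rw [max_eq_right (by linarith), abs_of_nonneg h]; ring
    · rw [max_eq_left (by linarith), abs_of_nonpos h]; ring
  have ia : IntervalIntegrable (fun t => |hZ t| ^ 3) volume 0 T :=
    (hZ_cont.abs.pow 3).intervalIntegrable _ _
  have ib : IntervalIntegrable (fun t => hZ t ^ 3) volume 0 T :=
    (hZ_cont.pow 3).intervalIntegrable _ _
  have e1 : (∫ t in (0 : ℝ)..T, max (hZ t) 0 ^ 3) =
      ((∫ t in (0 : ℝ)..T, |hZ t| ^ 3) + ∫ t in (0 : ℝ)..T, hZ t ^ 3) / 2 := by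
    simp_rw [h1]
    rw [intervalIntegral.integral_div, intervalIntegral.integral_add ia ib]
  have e2 : (∫ t in (0 : ℝ)..T, max (-hZ t) 0 ^ 3) =
      ((∫ t in (0 : ℝ)..T, |hZ t| ^ 3) - ∫ t in (0 : ℝ)..T, hZ t ^ 3) / 2 := by
    simp_rw [h2]
    rw [intervalIntegral.integral_div, intervalIntegral.integral_sub ia ib]
  have hb := hC T hT
  rw [e1, e2]
  constructor
  · rw [show ∀ a b : ℝ, (a + b) / 2 - a / 2 = b / 2 by intros; ring, abs_div, abs_two]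
    have : C / 2 * T ^ (1 - 1 / 64000000 : ℝ) = (C * T ^ (1 - 1 / 64000000 : ℝ)) / 2 := by ring
    rw [this]; linarith
  · rw [show ∀ a b : ℝ, (a - b) / 2 - a / 2 = -(b / 2) by intros; ring, abs_neg, abs_div, abs_two]
    have : C / 2 * T ^ (1 - 1 / 64000000 : ℝ) = (C * T ^ (1 - 1 / 64000000 : ℝ)) / 2 := by ring
    rw [this]; linarith

theorem aux_tendsto (f g : ℝ → ℝ) (C : ℝ)
    (h : ∀ T : ℝ, 1 ≤ T → |f T - g T / 2| ≤ C * T ^ (1 - 1 / 64000000 : ℝ)) (a : ℝ) :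
    Tendsto (fun T : ℝ => g T / (T * (Real.log T) ^ (9 / 4 : ℝ))) atTop (𝓝 a) ↔
    Tendsto (fun T : ℝ => f T / (T * (Real.log T) ^ (9 / 4 : ℝ))) atTop (𝓝 (a / 2)) := by
  have hd : Tendsto (fun T : ℝ => (f T - g T / 2) / (T * (Real.log T) ^ (9 / 4 : ℝ))) atTop
      (𝓝 0) := by
    have h0 : Tendsto (fun T : ℝ => C * T ^ (-(1 / 64000000 : ℝ))) atTop (𝓝 0) := by
      have := (tendsto_rpow_neg_atTop (y := (1 / 64000000 : ℝ)) (by norm_num)).const_mul C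
      simpa using this
    refine squeeze_zero_norm' ?_ h0
    filter_upwards [eventually_ge_atTop (Real.exp 1)] with T hT
    have hT1 : 1 ≤ T := le_trans (by have := Real.add_one_le_exp (1 : ℝ); linarith) hT
    have hT0 : 0 < T := by linarith
    have hlog : 1 ≤ Real.log T := by
      rw [Real.le_log_iff_exp_le hT0]; exact hT
    have hl2 : 1 ≤ (Real.log T) ^ (9 / 4 : ℝ) := Real.one_le_rpow hlog (by norm_num)
    have hC0 : 0 ≤ C * T ^ (1 - 1 / 64000000 : ℝ) := (abs_nonneg _).trans (h T hT1)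
    rw [Real.norm_eq_abs, abs_div, abs_of_pos (by positivity : 0 < T * Real.log T ^ (9 / 4 : ℝ))]
    calc |f T - g T / 2| / (T * Real.log T ^ (9 / 4 : ℝ))
        ≤ (C * T ^ (1 - 1 / 64000000 : ℝ)) / (T * Real.log T ^ (9 / 4 : ℝ)) :=
          div_le_div_of_nonneg_right (h T hT1) (by positivity)
      _ ≤ (C * T ^ (1 - 1 / 64000000 : ℝ)) / (T * 1) := by
          apply div_le_div_of_nonneg_left hC0 (by positivity)
          exact mul_le_mul_of_nonneg_left hl2 hT0.le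
      _ = C * T ^ (-(1 / 64000000 : ℝ)) := by
          have : T ^ (1 - 1 / 64000000 : ℝ) = T * T ^ (-(1 / 64000000 : ℝ)) := by
            rw [show (1 - 1 / 64000000 : ℝ) = 1 + -(1 / 64000000) by ring, Real.rpow_add hT0,
              Real.rpow_one]
          rw [this]; field_simp
  constructor
  · intro hg
    have := hd.add (hg.div_const 2)
    rw [zero_add] at this
    refine this.congr fun T => ?_
    ring
  · intro hf
    have := ((hf.sub hd).mul_const 2)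
    rw [sub_zero, div_mul_cancel₀ a (by norm_num : (2 : ℝ) ≠ 0)] at this
    refine this.congr fun T => ?_
    ring

theorem signs_final :
    (∃ Z : ℝ → ℝ, ∀ t : ℝ, (Z t : ℂ) = (Real.pi : ℂ) ^ (-(I * t / 2)) *
      (Complex.Gamma (1 / 4 + I * t / 2) / (‖Complex.Gamma (1 / 4 + I * t / 2)‖ : ℂ)) *
      riemannZeta (1 / 2 + I * t)) ∧
    ∃ c : ℝ, 0 < c ∧ c < 1 ∧ ∀ Z : ℝ → ℝ, (∀ t : ℝ, (Z t : ℂ) = (Real.pi : ℂ) ^ (-(I * t / 2)) *
      (Complex.Gamma (1 / 4 + I * t / 2) / (‖Complex.Gamma (1 / 4 + I * t / 2)‖ : ℂ)) *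
      riemannZeta (1 / 2 + I * t)) →
      ((fun T : ℝ => (∫ t in (0 : ℝ)..T, max (Z t) 0 ^ 3) -
        (∫ t in (0 : ℝ)..T, ‖riemannZeta (1 / 2 + I * t)‖ ^ 3) / 2) =O[atTop]
        (fun T : ℝ => T ^ c)) ∧
      ((fun T : ℝ => (∫ t in (0 : ℝ)..T, max (-Z t) 0 ^ 3) -
        (∫ t in (0 : ℝ)..T, ‖riemannZeta (1 / 2 + I * t)‖ ^ 3) / 2) =O[atTop]
        (fun T : ℝ => T ^ c)) ∧
      ∀ a : ℝ,
        (Tendsto (fun T : ℝ => (∫ t in (0 : ℝ)..T, ‖riemannZeta (1 / 2 + I * t)‖ ^ 3) /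
          (T * (Real.log T) ^ (9 / 4 : ℝ))) atTop (𝓝 a) ↔
        Tendsto (fun T : ℝ => (∫ t in (0 : ℝ)..T, max (Z t) 0 ^ 3) /
          (T * (Real.log T) ^ (9 / 4 : ℝ))) atTop (𝓝 (a / 2))) ∧
        (Tendsto (fun T : ℝ => (∫ t in (0 : ℝ)..T, ‖riemannZeta (1 / 2 + I * t)‖ ^ 3) /
          (T * (Real.log T) ^ (9 / 4 : ℝ))) atTop (𝓝 a) ↔
        Tendsto (fun T : ℝ => (∫ t in (0 : ℝ)..T, max (-Z t) 0 ^ 3) /
          (T * (Real.log T) ^ (9 / 4 : ℝ))) atTop (𝓝 (a / 2))) := by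
  have hz : ∀ t : ℝ, (hZ t : ℂ) = (Real.pi : ℂ) ^ (-(I * t / 2)) *
      (Complex.Gamma (1 / 4 + I * t / 2) / (‖Complex.Gamma (1 / 4 + I * t / 2)‖ : ℂ)) *
      riemannZeta (1 / 2 + I * t) := by
    intro t
    rw [← theta_eq, Pool.Agent.H408R2.CM.Z.1 t]
    unfold Pool.Agent.H408R2.CM.zc
    congr 2
    ring
  obtain ⟨C, hC⟩ := signs_core
  refine ⟨⟨hZ, hz⟩, 1 - 1 / 64000000, by norm_num, by norm_num, fun Z hZ' => ?_⟩
  have he : Z = hZ := by
    funext t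
    have := (hZ' t).trans (hz t).symm
    exact_mod_cast this
  subst he
  have habs : ∀ t : ℝ, ‖riemannZeta (1 / 2 + I * t)‖ = |hZ t| := by
    intro t
    rw [Pool.Agent.H408R2.CM.Z.2.1 t]
    unfold Pool.Agent.H408R2.CM.zc
    congr 2
    ring
  simp_rw [habs]
  refine ⟨?_, ?_, fun a => ⟨?_, ?_⟩⟩
  · refine IsBigO.of_bound C ?_
    filter_upwards [eventually_ge_atTop (1 : ℝ)] with T hT
    rw [Real.norm_eq_abs, Real.norm_eq_abs, abs_of_nonneg (Real.rpow_nonneg (by linarith) _)]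
    exact (hC T hT).1
  · refine IsBigO.of_bound C ?_
    filter_upwards [eventually_ge_atTop (1 : ℝ)] with T hT
    rw [Real.norm_eq_abs, Real.norm_eq_abs, abs_of_nonneg (Real.rpow_nonneg (by linarith) _)]
    exact (hC T hT).2
  · exact aux_tendsto _ _ C (fun T hT => (hC T hT).1) a
  · exact aux_tendsto _ _ C (fun T hT => (hC T hT).2) a

end Pool.Agent.H304R4.CM
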