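import Mathlib
import Pool.Agent.H304R4.CM.Stubs

/-! # TEAM CM, task A3: BoxBound -/

open Complex MeasureTheory Filter Topology

namespace Pool.Agent.H304R4.CM

namespace TA3

theorem Wt_nonneg {A : ℝ} {w : ℝ → ℂ} (h : Wt A w) : 0 ≤ A := by
  have h1 := h.bound 0 (by norm_num) 0
  exact (norm_nonneg _).trans h1

theorem one_le_M {M H : ℝ} (hM0 : 0 < M) (hH : 1 ≤ H) (h : H ≤ M ^ (1 + 1 / 10000 : ℝ)) :
    1 ≤ M := by
  by_contra hcon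
  push Not at hcon
  have h1 : M ^ (1 + 1 / 10000 : ℝ) < 1 := Real.rpow_lt_one hM0.le hcon (by norm_num)
  linarith

/-- the balanced case -/
theorem bal_of {B C H M : ℝ} (hM : M = B * C / H) (hB : 1 ≤ B) (hC : 1 ≤ C) (hH : 1 ≤ H)
    (hM1 : 1 ≤ M) (h : H ≤ M ^ (1 + 1 / 10000 : ℝ)) (h1 : M ^ (2 - 1 / 1000 : ℝ) < B * H)
    (h2 : M ^ (2 - 1 / 1000 : ℝ) < C * H) : Bal B C H M := by
  have hM0 : 0 < M := by linarith
  have hH0 : 0 < H := by linarith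
  have hB0 : 0 < B := by linarith
  have hC0 : 0 < C := by linarith
  have hBC : B * C = M * H := by
    rw [hM]; field_simp
  have low : ∀ X : ℝ, M ^ (2 - 1 / 1000 : ℝ) < X * H → 0 < X → M ^ (1 - 1 / 800 : ℝ) ≤ X := by
    intro X hX hX0
    have e1 : M ^ (2 - 1 / 1000 : ℝ) ≤ X * M ^ (1 + 1 / 10000 : ℝ) :=
      hX.le.trans (mul_le_mul_of_nonneg_left h hX0.le)
    have e2 : M ^ (2 - 1 / 1000 : ℝ) = M ^ (1 - 11 / 10000 : ℝ) * M ^ (1 + 1 / 10000 : ℝ) := by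
      rw [← Real.rpow_add hM0]; norm_num
    rw [e2] at e1
    have e3 := le_of_mul_le_mul_right e1 (Real.rpow_pos_of_pos hM0 _)
    exact (Real.rpow_le_rpow_of_exponent_le hM1 (by norm_num)).trans e3
  have up : ∀ X Y : ℝ, M ^ (2 - 1 / 1000 : ℝ) < Y * H → 0 < X → 0 < Y → X * Y = M * H →
      X ≤ M ^ (1 + 1 / 800 : ℝ) := by
    intro X Y hY hX0 hY0 hXY
    -- X * M^(2-δ) ≤ X * Y * H = M * H^2
    have e1 : X * M ^ (2 - 1 / 1000 : ℝ) ≤ M * H ^ 2 := by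
      calc X * M ^ (2 - 1 / 1000 : ℝ) ≤ X * (Y * H) := mul_le_mul_of_nonneg_left hY.le hX0.le
        _ = (X * Y) * H := by ring
        _ = M * H ^ 2 := by rw [hXY]; ring
    have e2 : M * H ^ 2 ≤ M * (M ^ (1 + 1 / 10000 : ℝ)) ^ 2 :=
      mul_le_mul_of_nonneg_left (pow_le_pow_left₀ hH0.le h 2) hM0.le
    have e3 : M * (M ^ (1 + 1 / 10000 : ℝ)) ^ 2 = M ^ (1 + 12 / 10000 : ℝ) *
        M ^ (2 - 1 / 1000 : ℝ) := by
      rw [← Real.rpow_natCast, ← Real.rpow_mul hM0.le, ← Real.rpow_add hM0]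
      nth_rewrite 1 [← Real.rpow_one M]
      rw [← Real.rpow_add hM0]
      norm_num
    rw [e3] at e2
    have e4 := le_of_mul_le_mul_right (e1.trans e2) (Real.rpow_pos_of_pos hM0 _)
    exact e4.trans (Real.rpow_le_rpow_of_exponent_le hM1 (by norm_num))
  refine ⟨hM, hB, hC, hH, hM1, ⟨low B h1 hB0, up B C h2 hB0 hC0 hBC⟩,
    ⟨low C h2 hC0, up C B h1 hC0 hB0 (by rw [mul_comm]; exact hBC)⟩, ?_, ?_⟩
  · -- M H^3 > M^(4-2δ)
    have e1 : M ^ (2 - 1 / 1000 : ℝ) * M ^ (2 - 1 / 1000 : ℝ) ≤ (B * H) * (C * H) :=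
      mul_le_mul h1.le h2.le (by positivity) (by positivity)
    have e2 : (B * H) * (C * H) = H ^ 3 * M := by
      calc (B * H) * (C * H) = (B * C) * H ^ 2 := by ring
        _ = H ^ 3 * M := by rw [hBC]; ring
    have e3 : M ^ (2 - 1 / 1000 : ℝ) * M ^ (2 - 1 / 1000 : ℝ) =
        (M ^ (1 - 1 / 1500 : ℝ)) ^ 3 * M := by
      rw [← Real.rpow_natCast, ← Real.rpow_mul hM0.le, ← Real.rpow_add hM0]
      nth_rewrite 3 [← Real.rpow_one M]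
      rw [← Real.rpow_add hM0]
      norm_num
    rw [e2, e3] at e1
    have e4 := le_of_mul_le_mul_right e1 hM0
    have e5 : M ^ (1 - 1 / 1500 : ℝ) ≤ H :=
      le_of_pow_le_pow_left₀ (by norm_num) hH0.le e4
    exact (Real.rpow_le_rpow_of_exponent_le hM1 (by norm_num)).trans e5
  · exact h.trans (Real.rpow_le_rpow_of_exponent_le hM1 (by norm_num))

end TA3

open TA3 in
/-- A3: the box bound. -/
theorem t_A3 (hSY : S_SY) (hU5 : S_U5) (hA2 : S_A2) : S_A3 := by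
  obtain ⟨K1, hK1, hU⟩ := hU5
  obtain ⟨K2, M0, hK2, hM0, hA⟩ := hA2
  obtain ⟨-, -, hsym, htriv⟩ := hSY
  refine ⟨K1 + K2 + 8 * M0 ^ 3, by nlinarith [pow_pos (lt_of_lt_of_le one_pos hM0) 3], ?_⟩
  intro A₁ A₂ A₃ w₁ w₂ w₃ hw₁ hw₂ hw₃ B C H hB hC hH _ hHM
  have hA₁ := Wt_nonneg hw₁
  have hA₂ := Wt_nonneg hw₂
  have hA₃ := Wt_nonneg hw₃
  obtain ⟨M, hM⟩ : ∃ M, M = B * C / H := ⟨_, rfl⟩
  rw [← hM] at hHM ⊢
  have hB0 : 0 < B := by linarith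
  have hC0 : 0 < C := by linarith
  have hH0 : 0 < H := by linarith
  have hMp : 0 < M := by rw [hM]; positivity
  have hM1 : 1 ≤ M := one_le_M hMp hH hHM
  have hBC : B * C = M * H := by
    rw [hM]; field_simp
  obtain ⟨P, hP⟩ : ∃ P : ℝ, P = A₁ * A₂ * A₃ * M ^ (3 / 2 - 1 / 10000 : ℝ) * H := ⟨_, rfl⟩
  have hP0 : 0 ≤ P := by rw [hP]; positivity
  have hgoal : (K1 + K2 + 8 * M0 ^ 3) * A₁ * A₂ * A₃ * M ^ (3 / 2 - 1 / 10000 : ℝ) * H =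
      K1 * P + K2 * P + 8 * M0 ^ 3 * P := by rw [hP]; ring
  have hM03 : 0 < M0 ^ 3 := pow_pos (by linarith) 3
  have hk1 : 0 ≤ K1 * P := mul_nonneg (by linarith) hP0
  have hk2 : 0 ≤ K2 * P := mul_nonneg (by linarith) hP0
  have hk3 : 0 ≤ 8 * M0 ^ 3 * P := mul_nonneg (by linarith) hP0
  rw [hgoal]
  by_cases h1 : B * H ≤ M ^ (2 - 1 / 1000 : ℝ)
  · have h := hU A₁ A₂ A₃ w₁ w₂ w₃ hw₁ hw₂ hw₃ B C H hB hC hH (by rw [← hM]; exact hHM)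
      (by rw [← hM]; exact h1)
    rw [← hM] at h
    have e : K1 * A₁ * A₂ * A₃ * M ^ (3 / 2 - 1 / 10000 : ℝ) * H = K1 * P := by rw [hP]; ring
    linarith
  by_cases h2 : C * H ≤ M ^ (2 - 1 / 1000 : ℝ)
  · have hM' : C * B / H = M := by rw [hM, mul_comm C B]
    have h := hU A₂ A₁ A₃ w₂ w₁ w₃ hw₂ hw₁ hw₃ C B H hC hB hH (by rw [hM']; exact hHM)
      (by rw [hM']; exact h2)
    rw [hM', ← hsym] at h
    have e : K1 * A₂ * A₁ * A₃ * M ^ (3 / 2 - 1 / 10000 : ℝ) * H = K1 * P := by rw [hP]; ring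
    linarith
  push Not at h1 h2
  have hbal := bal_of hM hB hC hH hM1 hHM h1 h2
  by_cases h3 : M0 ≤ M
  · have h := hA A₁ A₂ A₃ w₁ w₂ w₃ hw₁ hw₂ hw₃ B C H M hbal h3
    have e1 : K2 * (A₁ * A₂ * A₃) ^ 2 * H ^ 2 * M ^ (2995 / 1000 : ℝ) ≤ (K2 * P) ^ 2 := by
      have e2 : M ^ (2995 / 1000 : ℝ) ≤ (M ^ (3 / 2 - 1 / 10000 : ℝ)) ^ 2 := by
        rw [← Real.rpow_natCast, ← Real.rpow_mul hMp.le]
        exact Real.rpow_le_rpow_of_exponent_le hM1 (by norm_num)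
      have e3 : K2 ≤ K2 ^ 2 := by nlinarith
      have e4 : (K2 * P) ^ 2 = K2 ^ 2 * ((A₁ * A₂ * A₃) ^ 2 * H ^ 2 *
          (M ^ (3 / 2 - 1 / 10000 : ℝ)) ^ 2) := by rw [hP]; ring
      rw [e4]
      calc K2 * (A₁ * A₂ * A₃) ^ 2 * H ^ 2 * M ^ (2995 / 1000 : ℝ)
          = K2 * ((A₁ * A₂ * A₃) ^ 2 * H ^ 2 * M ^ (2995 / 1000 : ℝ)) := by ring
        _ ≤ K2 ^ 2 * ((A₁ * A₂ * A₃) ^ 2 * H ^ 2 * (M ^ (3 / 2 - 1 / 10000 : ℝ)) ^ 2) := by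
            apply mul_le_mul e3 _ (by positivity) (by positivity)
            exact mul_le_mul_of_nonneg_left e2 (by positivity)
    have e5 : ‖S3 w₁ w₂ w₃ B C H‖ ≤ K2 * P :=
      le_of_pow_le_pow_left₀ (by norm_num) hk2 (h.trans e1)
    linarith
  · push Not at h3
    have h := (htriv A₁ A₂ A₃ w₁ w₂ w₃ hw₁ hw₂ hw₃ B C H hB0.le hC0.le hH0.le).2
    have hA : 0 ≤ A₁ * A₂ * A₃ := by positivity
    have e1 : H ≤ M0 ^ 2 := by
      calc H ≤ M ^ (1 + 1 / 10000 : ℝ) := hHM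
        _ ≤ M ^ (2 : ℝ) := Real.rpow_le_rpow_of_exponent_le hM1 (by norm_num)
        _ = M ^ 2 := by norm_num
        _ ≤ M0 ^ 2 := pow_le_pow_left₀ hMp.le h3.le 2
    have e2 : B * C * H ≤ M0 ^ 3 * H := by
      rw [hBC]
      calc M * H * H ≤ M0 * M0 ^ 2 * H := by
            apply mul_le_mul_of_nonneg_right _ hH0.le
            exact mul_le_mul h3.le e1 hH0.le (by linarith)
        _ = M0 ^ 3 * H := by ring
    have e3 : 1 ≤ M ^ (3 / 2 - 1 / 10000 : ℝ) := Real.one_le_rpow hM1 (by norm_num)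
    have e4 : 8 * A₁ * A₂ * A₃ * (B * C * H) ≤ 8 * M0 ^ 3 * P := by
      rw [hP]
      calc 8 * A₁ * A₂ * A₃ * (B * C * H) = 8 * (A₁ * A₂ * A₃) * (B * C * H) := by ring
        _ ≤ 8 * (A₁ * A₂ * A₃) * (M0 ^ 3 * H) :=
            mul_le_mul_of_nonneg_left e2 (by positivity)
        _ = (8 * M0 ^ 3 * (A₁ * A₂ * A₃) * H) * 1 := by ring
        _ ≤ (8 * M0 ^ 3 * (A₁ * A₂ * A₃) * H) * M ^ (3 / 2 - 1 / 10000 : ℝ) :=
            mul_le_mul_of_nonneg_left e3 (by positivity)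
        _ = 8 * M0 ^ 3 * (A₁ * A₂ * A₃ * M ^ (3 / 2 - 1 / 10000 : ℝ) * H) := by ring
    linarith

end Pool.Agent.H304R4.CM
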