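import Pool.Agent.H304R4.CM.Stubs

/-! Task C1: two dimensional exponential sums (Weyl differencing + Kusmin-Landau along lines). -/

open Complex MeasureTheory Filter Topology

namespace Pool.Agent.H304R4.CM

/-! ### counting -/

lemma C1_card_int (X : Finset ℤ) (a : ℝ) (ha : 0 ≤ a)
    (h : ∀ x ∈ X, ∀ y ∈ X, |(x : ℝ) - y| ≤ a) : (X.card : ℝ) ≤ a + 1 := by
  rcases X.eq_empty_or_nonempty with rfl | hne
  · simp only [Finset.card_empty, Nat.cast_zero]; linarith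
  · have hsub : X ⊆ Finset.Icc (X.min' hne) (X.min' hne + ⌊a⌋) := by
      intro x hx
      rw [Finset.mem_Icc]
      refine ⟨X.min'_le x hx, ?_⟩
      have h1 := h x hx _ (X.min'_mem hne)
      have h2 : (x : ℝ) - (X.min' hne : ℤ) ≤ a := (le_abs_self _).trans h1
      have h3 : x - X.min' hne ≤ ⌊a⌋ := Int.le_floor.mpr (by push_cast; exact h2)
      linarith
    have h4 := Finset.card_le_card hsub
    rw [Int.card_Icc] at h4
    have h5 : (0 : ℤ) ≤ ⌊a⌋ := Int.floor_nonneg.mpr ha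
    have h6 : (X.card : ℤ) ≤ ⌊a⌋ + 1 := by omega
    have h7 : (X.card : ℝ) ≤ (⌊a⌋ : ℝ) + 1 := by exact_mod_cast h6
    linarith [Int.floor_le a]

lemma C1_card_two (T : Finset (ℤ × ℤ)) (a b : ℝ) (ha : 0 ≤ a) (hb : 0 ≤ b)
    (h1 : ∀ x ∈ T, ∀ y ∈ T, |(x.1 : ℝ) - y.1| ≤ a)
    (h2 : ∀ x ∈ T, ∀ y ∈ T, x.1 = y.1 → |(x.2 : ℝ) - y.2| ≤ b) :
    (T.card : ℝ) ≤ (a + 1) * (b + 1) := by
  classical
  have hc := Finset.card_eq_sum_card_image Prod.fst T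
  have h3 : ((T.image Prod.fst).card : ℝ) ≤ a + 1 := by
    refine C1_card_int _ a ha ?_
    intro x hx y hy
    obtain ⟨x', hx', rfl⟩ := Finset.mem_image.mp hx
    obtain ⟨y', hy', rfl⟩ := Finset.mem_image.mp hy
    exact h1 x' hx' y' hy'
  have h4 : ∀ c ∈ T.image Prod.fst, ((T.filter (fun x => x.1 = c)).card : ℝ) ≤ b + 1 := by
    intro c _
    have h5 : ((T.filter (fun x => x.1 = c)).image Prod.snd).card =
        (T.filter (fun x => x.1 = c)).card := by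
      apply Finset.card_image_of_injOn
      intro x hx y hy hxy
      simp only [Finset.coe_filter, Set.mem_ofPred_eq] at hx hy
      exact Prod.ext (hx.2.trans hy.2.symm) hxy
    rw [← h5]
    refine C1_card_int _ b hb ?_
    intro x hx y hy
    obtain ⟨x', hx', rfl⟩ := Finset.mem_image.mp hx
    obtain ⟨y', hy', rfl⟩ := Finset.mem_image.mp hy
    rw [Finset.mem_filter] at hx' hy'
    exact h2 x' hx'.1 y' hy'.1 (hx'.2.trans hy'.2.symm)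
  rw [hc]
  push_cast
  calc ∑ c ∈ T.image Prod.fst, ((T.filter (fun x => x.1 = c)).card : ℝ)
      ≤ ∑ _c ∈ T.image Prod.fst, (b + 1) := Finset.sum_le_sum h4
    _ = ((T.image Prod.fst).card : ℝ) * (b + 1) := by rw [Finset.sum_const, nsmul_eq_mul]
    _ ≤ (a + 1) * (b + 1) := mul_le_mul_of_nonneg_right h3 (by linarith)

/-! ### sums along a line -/

lemma C1_line (hC0 : S_C0) (I : Finset ℤ) (x : ℤ → ℝ) (θ κ L : ℝ) (hθ : 0 < θ) (hκ : 0 ≤ κ)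
    (hL : 0 ≤ L)
    (hconn : ∀ a ∈ I, ∀ b ∈ I, ∀ k, a ≤ k → k ≤ b → k ∈ I)
    (hlen : ∀ a ∈ I, ∀ b ∈ I, (b : ℝ) - a ≤ L)
    (h1 : ∀ k, k ∈ I → k + 1 ∈ I → θ ≤ |x (k + 1) - x k| ∧ |x (k + 1) - x k| ≤ 1 / 2)
    (h2 : ∀ k, k ∈ I → k + 2 ∈ I → |(x (k + 2) - x (k + 1)) - (x (k + 1) - x k)| ≤ κ) :
    ‖∑ k ∈ I, ee (x k)‖ ≤ 1 / θ + L * κ / θ ^ 2 + 1 := by
  rcases I.eq_empty_or_nonempty with rfl | hne
  · simp only [Finset.sum_empty, norm_zero]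
    positivity
  · set a := I.min' hne with ha
    set b := I.max' hne with hb
    have haI : a ∈ I := I.min'_mem hne
    have hbI : b ∈ I := I.max'_mem hne
    have hab : a ≤ b := I.min'_le b hbI
    obtain ⟨N, hN⟩ : ∃ N : ℕ, b = a + N := ⟨(b - a).toNat, by omega⟩
    have hI : I = (Finset.range (N + 1)).image (fun n : ℕ => a + (n : ℤ)) := by
      ext k
      rw [Finset.mem_image]
      constructor
      · intro hk
        have hk1 : a ≤ k := I.min'_le k hk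
        have hk2 : k ≤ b := I.le_max' k hk
        exact ⟨(k - a).toNat, Finset.mem_range.mpr (by omega), by omega⟩
      · rintro ⟨n, hn, rfl⟩
        rw [Finset.mem_range] at hn
        exact hconn a haI b hbI _ (by omega) (by omega)
    have hmem : ∀ n : ℕ, n ≤ N → a + (n : ℤ) ∈ I := fun n hn =>
      hconn a haI b hbI _ (by omega) (by omega)
    have hsum : ∑ k ∈ I, ee (x k) = ∑ n ∈ Finset.range (N + 1), ee (x (a + (n : ℤ))) := by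
      rw [hI, Finset.sum_image]
      intro m _ n _ hmn
      simpa using hmn
    rw [hsum]
    have hNL : (N : ℝ) ≤ L := by
      have := hlen a haI b hbI
      rw [hN] at this
      push_cast at this
      linarith
    refine hC0 N (fun n => x (a + (n : ℤ))) θ (L * κ) hθ ?_ ?_
    · intro n hn
      have h3 := h1 (a + (n : ℤ)) (hmem n hn.le) (by
        have := hmem (n + 1) hn
        push_cast at this
        rwa [← add_assoc] at this)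
      have e1 : a + ((n + 1 : ℕ) : ℤ) = a + (n : ℤ) + 1 := by push_cast; ring
      rw [e1]
      exact h3
    · have h4 : ∀ n ∈ Finset.range (N - 1), |(x (a + ((n + 2 : ℕ) : ℤ)) - x (a + ((n + 1 : ℕ) : ℤ))) -
          (x (a + ((n + 1 : ℕ) : ℤ)) - x (a + (n : ℤ)))| ≤ κ := by
        intro n hn
        rw [Finset.mem_range] at hn
        have e1 : a + ((n + 1 : ℕ) : ℤ) = a + (n : ℤ) + 1 := by push_cast; ring
        have e2 : a + ((n + 2 : ℕ) : ℤ) = a + (n : ℤ) + 2 := by push_cast; ring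
        rw [e1, e2]
        refine h2 _ (hmem n (by omega)) ?_
        rw [← e2]
        exact hmem (n + 2) (by omega)
      calc ∑ n ∈ Finset.range (N - 1), |(x (a + ((n + 2 : ℕ) : ℤ)) - x (a + ((n + 1 : ℕ) : ℤ))) -
            (x (a + ((n + 1 : ℕ) : ℤ)) - x (a + (n : ℤ)))|
          ≤ ∑ _n ∈ Finset.range (N - 1), κ := Finset.sum_le_sum h4
        _ = ((N - 1 : ℕ) : ℝ) * κ := by rw [Finset.sum_const, Finset.card_range, nsmul_eq_mul]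
        _ ≤ L * κ := by
            refine mul_le_mul_of_nonneg_right (le_trans ?_ hNL) hκ
            exact_mod_cast Nat.sub_le N 1

/-! ### mean value theorems -/

/-- the points `n0 + u s + t w` -/
noncomputable def C1_pt (n0 s w : ℝ × ℝ) (u t : ℝ) : ℝ × ℝ :=
  (n0.1 + u * s.1 + t * w.1, n0.2 + u * s.2 + t * w.2)

/-- derivatives -/
def C1_Dt (F g₁ g₂ a₁ a₂ a₃ : ℝ × ℝ → ℝ) (n : ℝ × ℝ) : Prop :=
    HasFDerivAt F ((g₁ n) • ContinuousLinearMap.fst ℝ ℝ ℝ + (g₂ n) • ContinuousLinearMap.snd ℝ ℝ ℝ) n ∧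
    HasFDerivAt g₁ ((a₁ n) • ContinuousLinearMap.fst ℝ ℝ ℝ + (a₂ n) • ContinuousLinearMap.snd ℝ ℝ ℝ) n ∧
    HasFDerivAt g₂ ((a₂ n) • ContinuousLinearMap.fst ℝ ℝ ℝ + (a₃ n) • ContinuousLinearMap.snd ℝ ℝ ℝ) n

/-- the bilinear form `s A w` -/
noncomputable def C1_q (a₁ a₂ a₃ : ℝ × ℝ → ℝ) (s w n : ℝ × ℝ) : ℝ :=
  s.1 * (a₁ n * w.1 + a₂ n * w.2) + s.2 * (a₂ n * w.1 + a₃ n * w.2)

lemma C1_dpt_t (n0 s w : ℝ × ℝ) (u t : ℝ) : HasDerivAt (fun t => C1_pt n0 s w u t) w t := by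
  unfold C1_pt
  have h1 : HasDerivAt (fun t : ℝ => n0.1 + u * s.1 + t * w.1) w.1 t := by
    simpa using ((hasDerivAt_id t).mul_const w.1).const_add (n0.1 + u * s.1)
  have h2 : HasDerivAt (fun t : ℝ => n0.2 + u * s.2 + t * w.2) w.2 t := by
    simpa using ((hasDerivAt_id t).mul_const w.2).const_add (n0.2 + u * s.2)
  exact h1.prodMk h2

lemma C1_dpt_u (n0 s w : ℝ × ℝ) (u t : ℝ) : HasDerivAt (fun u => C1_pt n0 s w u t) s u := by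
  unfold C1_pt
  have h1 : HasDerivAt (fun u : ℝ => n0.1 + u * s.1 + t * w.1) s.1 u := by
    simpa using (((hasDerivAt_id u).mul_const s.1).const_add n0.1).add_const (t * w.1)
  have h2 : HasDerivAt (fun u : ℝ => n0.2 + u * s.2 + t * w.2) s.2 u := by
    simpa using (((hasDerivAt_id u).mul_const s.2).const_add n0.2).add_const (t * w.2)
  exact h1.prodMk h2

/-- `T_u(t) = s . g (n0 + u s + t w)` -/
noncomputable def C1_T (g₁ g₂ : ℝ × ℝ → ℝ) (n0 s w : ℝ × ℝ) (u t : ℝ) : ℝ :=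
  s.1 * g₁ (C1_pt n0 s w u t) + s.2 * g₂ (C1_pt n0 s w u t)

/-- `X(u) = F (n0 + u s + w) - F (n0 + u s - w)` -/
noncomputable def C1_X (F : ℝ × ℝ → ℝ) (n0 s w : ℝ × ℝ) (u : ℝ) : ℝ :=
  F (C1_pt n0 s w u 1) - F (C1_pt n0 s w u (-1))

section mvt
variable {F g₁ g₂ a₁ a₂ a₃ : ℝ × ℝ → ℝ} {n0 s w : ℝ × ℝ}

lemma C1_dT {u t : ℝ} (h : C1_Dt F g₁ g₂ a₁ a₂ a₃ (C1_pt n0 s w u t)) :
    HasDerivAt (fun t => C1_T g₁ g₂ n0 s w u t) (C1_q a₁ a₂ a₃ s w (C1_pt n0 s w u t)) t := by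
  obtain ⟨-, h1, h2⟩ := h
  have e1 := (HasFDerivAt.comp_hasDerivAt t h1 (C1_dpt_t n0 s w u t)).const_mul s.1
  have e2 := (HasFDerivAt.comp_hasDerivAt t h2 (C1_dpt_t n0 s w u t)).const_mul s.2
  refine (e1.add e2).congr_deriv ?_
  simp [C1_q]

lemma C1_dX {u : ℝ} (h : C1_Dt F g₁ g₂ a₁ a₂ a₃ (C1_pt n0 s w u 1))
    (h' : C1_Dt F g₁ g₂ a₁ a₂ a₃ (C1_pt n0 s w u (-1))) :
    HasDerivAt (C1_X F n0 s w) (C1_T g₁ g₂ n0 s w u 1 - C1_T g₁ g₂ n0 s w u (-1)) u := by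
  have e1 := HasFDerivAt.comp_hasDerivAt u h.1 (C1_dpt_u n0 s w u 1)
  have e2 := HasFDerivAt.comp_hasDerivAt u h'.1 (C1_dpt_u n0 s w u (-1))
  refine (e1.sub e2).congr_deriv ?_
  simp [C1_T]
  ring

lemma C1_mvt1 (k : ℝ) (hD : ∀ u t : ℝ, k ≤ u → u ≤ k + 1 → -1 ≤ t → t ≤ 1 →
      C1_Dt F g₁ g₂ a₁ a₂ a₃ (C1_pt n0 s w u t)) :
    ∃ u t : ℝ, k ≤ u ∧ u ≤ k + 1 ∧ -1 ≤ t ∧ t ≤ 1 ∧
      C1_X F n0 s w (k + 1) - C1_X F n0 s w k = 2 * C1_q a₁ a₂ a₃ s w (C1_pt n0 s w u t) := by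
  have hdX : ∀ u, k ≤ u → u ≤ k + 1 → HasDerivAt (C1_X F n0 s w)
      (C1_T g₁ g₂ n0 s w u 1 - C1_T g₁ g₂ n0 s w u (-1)) u := fun u h1 h2 =>
    C1_dX (hD u 1 h1 h2 (by norm_num) (le_refl _)) (hD u (-1) h1 h2 (le_refl _) (by norm_num))
  obtain ⟨u, hu, hu'⟩ := exists_hasDerivAt_eq_slope (C1_X F n0 s w)
    (fun u => C1_T g₁ g₂ n0 s w u 1 - C1_T g₁ g₂ n0 s w u (-1)) (show k < k + 1 by linarith)
    (fun u hu => (hdX u hu.1 hu.2).continuousAt.continuousWithinAt)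
    (fun u hu => hdX u hu.1.le hu.2.le)
  have hdT : ∀ t, -1 ≤ t → t ≤ 1 → HasDerivAt (fun t => C1_T g₁ g₂ n0 s w u t)
      (C1_q a₁ a₂ a₃ s w (C1_pt n0 s w u t)) t := fun t h1 h2 =>
    C1_dT (hD u t hu.1.le hu.2.le h1 h2)
  obtain ⟨t, ht, ht'⟩ := exists_hasDerivAt_eq_slope (fun t => C1_T g₁ g₂ n0 s w u t)
    (fun t => C1_q a₁ a₂ a₃ s w (C1_pt n0 s w u t)) (show (-1 : ℝ) < 1 by norm_num)
    (fun t ht => (hdT t ht.1 ht.2).continuousAt.continuousWithinAt)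
    (fun t ht => hdT t ht.1.le ht.2.le)
  refine ⟨u, t, hu.1.le, hu.2.le, ht.1.le, ht.2.le, ?_⟩
  rw [ht']
  have e1 : k + 1 - k = 1 := by ring
  rw [e1, div_one] at hu'
  rw [← hu']
  ring

lemma C1_mvt2 (k : ℝ) (hD : ∀ u t : ℝ, k ≤ u → u ≤ k + 2 → -1 ≤ t → t ≤ 1 →
      C1_Dt F g₁ g₂ a₁ a₂ a₃ (C1_pt n0 s w u t)) :
    ∃ u t : ℝ, k ≤ u ∧ u ≤ k + 1 ∧ -1 ≤ t ∧ t ≤ 1 ∧
      (C1_X F n0 s w (k + 2) - C1_X F n0 s w (k + 1)) -
        (C1_X F n0 s w (k + 1) - C1_X F n0 s w k) =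
        2 * (C1_q a₁ a₂ a₃ s w (C1_pt n0 s w (u + 1) t) -
          C1_q a₁ a₂ a₃ s w (C1_pt n0 s w u t)) := by
  have hdX : ∀ u, k ≤ u → u ≤ k + 2 → HasDerivAt (C1_X F n0 s w)
      (C1_T g₁ g₂ n0 s w u 1 - C1_T g₁ g₂ n0 s w u (-1)) u := fun u h1 h2 =>
    C1_dX (hD u 1 h1 h2 (by norm_num) (le_refl _)) (hD u (-1) h1 h2 (le_refl _) (by norm_num))
  have hdY : ∀ u, k ≤ u → u ≤ k + 1 →
      HasDerivAt (fun u => C1_X F n0 s w (u + 1) - C1_X F n0 s w u)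
      ((C1_T g₁ g₂ n0 s w (u + 1) 1 - C1_T g₁ g₂ n0 s w (u + 1) (-1)) -
        (C1_T g₁ g₂ n0 s w u 1 - C1_T g₁ g₂ n0 s w u (-1))) u := fun u h1 h2 =>
    ((hdX (u + 1) (by linarith) (by linarith)).comp_add_const u 1).sub
      (hdX u h1 (by linarith))
  obtain ⟨u, hu, hu'⟩ := exists_hasDerivAt_eq_slope
    (fun u => C1_X F n0 s w (u + 1) - C1_X F n0 s w u)
    (fun u => (C1_T g₁ g₂ n0 s w (u + 1) 1 - C1_T g₁ g₂ n0 s w (u + 1) (-1)) -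
        (C1_T g₁ g₂ n0 s w u 1 - C1_T g₁ g₂ n0 s w u (-1))) (show k < k + 1 by linarith)
    (fun u hu => (hdY u hu.1 hu.2).continuousAt.continuousWithinAt)
    (fun u hu => hdY u hu.1.le hu.2.le)
  have hdT : ∀ v, k ≤ v → v ≤ k + 2 → ∀ t, -1 ≤ t → t ≤ 1 →
      HasDerivAt (fun t => C1_T g₁ g₂ n0 s w v t)
      (C1_q a₁ a₂ a₃ s w (C1_pt n0 s w v t)) t := fun v h3 h4 t h1 h2 =>
    C1_dT (hD v t h3 h4 h1 h2)
  have hdW : ∀ t, -1 ≤ t → t ≤ 1 →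
      HasDerivAt (fun t => C1_T g₁ g₂ n0 s w (u + 1) t - C1_T g₁ g₂ n0 s w u t)
      (C1_q a₁ a₂ a₃ s w (C1_pt n0 s w (u + 1) t) - C1_q a₁ a₂ a₃ s w (C1_pt n0 s w u t)) t :=
    fun t h1 h2 =>
    (hdT (u + 1) (by linarith [hu.1]) (by linarith [hu.2]) t h1 h2).sub
      (hdT u (by linarith [hu.1]) (by linarith [hu.2]) t h1 h2)
  obtain ⟨t, ht, ht'⟩ := exists_hasDerivAt_eq_slope
    (fun t => C1_T g₁ g₂ n0 s w (u + 1) t - C1_T g₁ g₂ n0 s w u t)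
    (fun t => C1_q a₁ a₂ a₃ s w (C1_pt n0 s w (u + 1) t) - C1_q a₁ a₂ a₃ s w (C1_pt n0 s w u t))
    (show (-1 : ℝ) < 1 by norm_num)
    (fun t ht => (hdW t ht.1 ht.2).continuousAt.continuousWithinAt)
    (fun t ht => hdW t ht.1.le ht.2.le)
  refine ⟨u, t, hu.1.le, hu.2.le, ht.1.le, ht.2.le, ?_⟩
  rw [ht']
  have e1 : k + 1 - k = 1 := by ring
  have e2 : k + 1 + 1 = k + 2 := by ring
  rw [e1, div_one, e2] at hu'
  rw [← hu']
  ring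

end mvt

/-- affine functions on rectangles -/
lemma C1_corner {α s w P δ' k k' u t : ℝ} (h1 : k ≤ u) (h2 : u ≤ k') (h3 : -1 ≤ t) (h4 : t ≤ 1)
    (c1 : |α + k * s + 1 * w - P| ≤ δ') (c2 : |α + k * s + (-1) * w - P| ≤ δ')
    (c3 : |α + k' * s + 1 * w - P| ≤ δ') (c4 : |α + k' * s + (-1) * w - P| ≤ δ') :
    |α + u * s + t * w - P| ≤ δ' := by
  rw [abs_le] at *
  obtain ⟨c1a, c1b⟩ := c1
  obtain ⟨c2a, c2b⟩ := c2
  obtain ⟨c3a, c3b⟩ := c3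
  obtain ⟨c4a, c4b⟩ := c4
  rcases le_total 0 s with hs | hs <;> rcases le_total 0 w with hw | hw
  · have e1 := mul_le_mul_of_nonneg_right h1 hs
    have e2 := mul_le_mul_of_nonneg_right h2 hs
    have e3 := mul_le_mul_of_nonneg_right h3 hw
    have e4 := mul_le_mul_of_nonneg_right h4 hw
    constructor <;> linarith
  · have e1 := mul_le_mul_of_nonneg_right h1 hs
    have e2 := mul_le_mul_of_nonneg_right h2 hs
    have e3 := mul_le_mul_of_nonpos_right h3 hw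
    have e4 := mul_le_mul_of_nonpos_right h4 hw
    constructor <;> linarith
  · have e1 := mul_le_mul_of_nonpos_right h1 hs
    have e2 := mul_le_mul_of_nonpos_right h2 hs
    have e3 := mul_le_mul_of_nonneg_right h3 hw
    have e4 := mul_le_mul_of_nonneg_right h4 hw
    constructor <;> linarith
  · have e1 := mul_le_mul_of_nonpos_right h1 hs
    have e2 := mul_le_mul_of_nonpos_right h2 hs
    have e3 := mul_le_mul_of_nonpos_right h3 hw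
    have e4 := mul_le_mul_of_nonpos_right h4 hw
    constructor <;> linarith

/-- the cell -/
def C1_cell (p : ℝ × ℝ) (δ' : ℝ) (n : ℝ × ℝ) : Prop := |n.1 - p.1| ≤ δ' ∧ |n.2 - p.2| ≤ δ'

lemma C1_cell_pt {p n0 s w : ℝ × ℝ} {δ' k k' u t : ℝ} (h1 : k ≤ u) (h2 : u ≤ k') (h3 : -1 ≤ t)
    (h4 : t ≤ 1)
    (c1 : C1_cell p δ' (C1_pt n0 s w k 1)) (c2 : C1_cell p δ' (C1_pt n0 s w k (-1)))
    (c3 : C1_cell p δ' (C1_pt n0 s w k' 1)) (c4 : C1_cell p δ' (C1_pt n0 s w k' (-1))) :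
    C1_cell p δ' (C1_pt n0 s w u t) :=
  ⟨C1_corner h1 h2 h3 h4 c1.1 c2.1 c3.1 c4.1, C1_corner h1 h2 h3 h4 c1.2 c2.2 c3.2 c4.2⟩

lemma C1_fibre (hC0 : S_C0) {F g₁ g₂ a₁ a₂ a₃ : ℝ × ℝ → ℝ} {p : ℝ × ℝ} {δ' : ℝ}
    (hD : ∀ n : ℝ × ℝ, C1_cell p δ' n → C1_Dt F g₁ g₂ a₁ a₂ a₃ n)
    (n0 s w : ℝ × ℝ) (c ql qh qL θ κ L : ℝ) (hc : 0 ≤ c) (hθ : 0 < θ) (hκ : 0 ≤ κ) (hL : 0 ≤ L)
    (I : Finset ℤ) (hconn : ∀ a ∈ I, ∀ b ∈ I, ∀ k, a ≤ k → k ≤ b → k ∈ I)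
    (hlen : ∀ a ∈ I, ∀ b ∈ I, (b : ℝ) - a ≤ L)
    (hcell : ∀ k ∈ I, C1_cell p δ' (C1_pt n0 s w k 1) ∧ C1_cell p δ' (C1_pt n0 s w k (-1)))
    (hq : ∀ n : ℝ × ℝ, C1_cell p δ' n →
      ql ≤ |C1_q a₁ a₂ a₃ s w n| ∧ |C1_q a₁ a₂ a₃ s w n| ≤ qh)
    (hqL : ∀ n n' : ℝ × ℝ, C1_cell p δ' n → C1_cell p δ' n' → n'.1 = n.1 + s.1 →
      n'.2 = n.2 + s.2 → |C1_q a₁ a₂ a₃ s w n' - C1_q a₁ a₂ a₃ s w n| ≤ qL)
    (h1 : θ ≤ 2 * c * ql) (h2 : 2 * c * qh ≤ 1 / 2) (h3 : 2 * c * qL ≤ κ) :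
    ‖∑ k ∈ I, ee (c * C1_X F n0 s w k)‖ ≤ 1 / θ + L * κ / θ ^ 2 + 1 := by
  refine C1_line hC0 I (fun k => c * C1_X F n0 s w k) θ κ L hθ hκ hL hconn hlen ?_ ?_
  · intro k hk hk1
    have ck := hcell k hk
    have ck1 := hcell (k + 1) hk1
    push_cast at ck1
    obtain ⟨u, t, hu1, hu2, ht1, ht2, he⟩ := C1_mvt1 (F := F) (g₁ := g₁) (g₂ := g₂) (a₁ := a₁)
      (a₂ := a₂) (a₃ := a₃) (n0 := n0) (s := s) (w := w) (k : ℝ) (fun u t hu1 hu2 ht1 ht2 =>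
        hD _ (C1_cell_pt hu1 hu2 ht1 ht2 ck.1 ck.2 ck1.1 ck1.2))
    obtain ⟨q1, q2⟩ := hq _ (C1_cell_pt hu1 hu2 ht1 ht2 ck.1 ck.2 ck1.1 ck1.2)
    have e1 : |c * C1_X F n0 s w ((k + 1 : ℤ) : ℝ) - c * C1_X F n0 s w k| =
        2 * c * |C1_q a₁ a₂ a₃ s w (C1_pt n0 s w u t)| := by
      push_cast
      rw [← mul_sub, he, abs_mul, abs_mul, abs_of_nonneg hc, abs_of_pos (by norm_num : (0:ℝ) < 2)]
      ring
    rw [e1]
    constructor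
    · exact h1.trans (mul_le_mul_of_nonneg_left q1 (by positivity))
    · exact (mul_le_mul_of_nonneg_left q2 (by positivity)).trans h2
  · intro k hk hk2
    have ck := hcell k hk
    have ck2 := hcell (k + 2) hk2
    push_cast at ck2
    obtain ⟨u, t, hu1, hu2, ht1, ht2, he⟩ := C1_mvt2 (F := F) (g₁ := g₁) (g₂ := g₂) (a₁ := a₁)
      (a₂ := a₂) (a₃ := a₃) (n0 := n0) (s := s) (w := w) (k : ℝ) (fun u t hu1 hu2 ht1 ht2 =>
        hD _ (C1_cell_pt hu1 hu2 ht1 ht2 ck.1 ck.2 ck2.1 ck2.2))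
    have q1 := hqL (C1_pt n0 s w u t) (C1_pt n0 s w (u + 1) t)
      (C1_cell_pt hu1 (by linarith) ht1 ht2 ck.1 ck.2 ck2.1 ck2.2)
      (C1_cell_pt (by linarith) (by linarith) ht1 ht2 ck.1 ck.2 ck2.1 ck2.2)
      (by simp only [C1_pt]; ring) (by simp only [C1_pt]; ring)
    have e1 : |(c * C1_X F n0 s w ((k + 2 : ℤ) : ℝ) - c * C1_X F n0 s w ((k + 1 : ℤ) : ℝ)) -
        (c * C1_X F n0 s w ((k + 1 : ℤ) : ℝ) - c * C1_X F n0 s w k)| =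
        2 * c * |C1_q a₁ a₂ a₃ s w (C1_pt n0 s w (u + 1) t) -
          C1_q a₁ a₂ a₃ s w (C1_pt n0 s w u t)| := by
      push_cast
      rw [← mul_sub, ← mul_sub, ← mul_sub, he, abs_mul, abs_mul, abs_of_nonneg hc,
        abs_of_pos (by norm_num : (0:ℝ) < 2)]
      ring
    rw [e1]
    exact (mul_le_mul_of_nonneg_left q1 (by positivity)).trans h3

end Pool.Agent.H304R4.CM
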