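import Pool.Agent.H304R4.CM.Stubs

set_option autoImplicit false

open Complex MeasureTheory Filter Topology

namespace Pool.Agent.H304R4.CM

theorem E1_nd_nonneg (f : ℝ) : 0 ≤ nd f := abs_nonneg _

theorem E1_Th_mono (H D f lam : ℝ) (hH : 1 ≤ H) (hD : 0 ≤ D) (hl : 1 ≤ lam) :
    Th H D f ≤ √lam * Th H (lam * D) f := by
  have hH0 : 0 < H := by linarith
  have hl0 : 0 < lam := by linarith
  have hs1 : 1 ≤ √lam := by
    rw [show (1 : ℝ) = √1 by simp]
    exact Real.sqrt_le_sqrt hl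
  have hs0 : 0 < √lam := by linarith
  have hnd := E1_nd_nonneg f
  have hH2 : 0 < H ^ 2 := by positivity
  have hDl : D ≤ lam * D := by nlinarith
  have hHs : H ≤ √lam * H := by nlinarith
  have hprod : ∀ D : ℝ, 0 < D → √lam * √(H ^ 3 / (lam * D)) = √(H ^ 3 / D) := by
    intro D hD
    rw [← Real.sqrt_mul hl0.le]
    congr 1
    field_simp
  unfold Th
  by_cases h1 : nd f ≤ D / H ^ 2
  · have h1' : nd f ≤ lam * D / H ^ 2 := h1.trans (div_le_div_of_nonneg_right hDl hH2.le)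
    rw [if_pos h1, if_pos h1']
    by_cases h2 : D ≤ H
    · rw [if_pos h2]
      by_cases h3 : lam * D ≤ H
      · rw [if_pos h3]; exact hHs
      · rw [if_neg h3, mul_add]
        push Not at h3
        have hDpos : 0 < D := by
          by_contra hn
          have : D = 0 := le_antisymm (not_lt.mp hn) hD
          rw [this, mul_zero] at h3
          linarith
        rw [hprod D hDpos]
        have h4 : H ≤ √(H ^ 3 / D) := by
          apply Real.le_sqrt_of_sq_le
          rw [le_div_iff₀ hDpos]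
          nlinarith
        have h5 : 0 ≤ √lam * √(lam * D / H) := by positivity
        linarith
    · rw [if_neg h2]
      push Not at h2
      have h3 : ¬ lam * D ≤ H := by
        push Not
        linarith
      have hDpos : 0 < D := by linarith
      rw [if_neg h3, mul_add, hprod D hDpos]
      have h4 : √(D / H) ≤ √(lam * D / H) :=
        Real.sqrt_le_sqrt (div_le_div_of_nonneg_right hDl hH0.le)
      have h5 : 0 ≤ √(lam * D / H) := Real.sqrt_nonneg _
      nlinarith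
  · rw [if_neg h1]
    push Not at h1
    have hndpos : 0 < nd f := lt_of_le_of_lt (by positivity) h1
    by_cases h1' : nd f ≤ lam * D / H ^ 2
    · rw [if_pos h1']
      by_cases h3 : lam * D ≤ H
      · rw [if_pos h3]
        exact (min_le_left _ _).trans hHs
      · rw [if_neg h3, mul_add]
        push Not at h3
        have hDpos : 0 < D := by
          by_contra hn
          have : D = 0 := le_antisymm (not_lt.mp hn) hD
          rw [this, mul_zero] at h3
          linarith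
        rw [hprod D hDpos]
        have h4 : min H (1 / nd f) ≤ √(H ^ 3 / D) := by
          apply Real.le_sqrt_of_sq_le
          have e1 : min H (1 / nd f) ≤ H := min_le_left _ _
          have e2 : min H (1 / nd f) ≤ H ^ 2 / D := by
            refine (min_le_right _ _).trans ?_
            rw [div_le_div_iff₀ hndpos hDpos]
            have := (div_lt_iff₀ hH2).mp h1
            linarith
          have e0 : 0 ≤ min H (1 / nd f) := le_min hH0.le (by positivity)
          calc min H (1 / nd f) ^ 2 = min H (1 / nd f) * min H (1 / nd f) := sq _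
            _ ≤ H * (H ^ 2 / D) := mul_le_mul e1 e2 e0 hH0.le
            _ = H ^ 3 / D := by ring
        have h5 : 0 ≤ √lam * √(lam * D / H) := by positivity
        linarith
    · rw [if_neg h1']
      have e0 : 0 ≤ min H (1 / nd f) := le_min hH0.le (by positivity)
      nlinarith

theorem E1_Th_nonneg (H D f : ℝ) (hH : 1 ≤ H) : 0 ≤ Th H D f := by
  have hnd := E1_nd_nonneg f
  unfold Th
  split_ifs
  · linarith
  · positivity
  · exact le_min (by linarith) (by positivity)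

theorem t_E1 (hP1 : S_P1) (hH4 : S_H4) (hE1a : S_E1a) (hLAT : S_LAT) : S_E1 := by
  obtain ⟨c4, K4, hc4, hc4', hK4, h4⟩ := hH4
  obtain ⟨ca, Ka, hca, hca', hKa, ha⟩ := hE1a
  obtain ⟨KL, hKL, hL⟩ := hLAT
  set K : ℝ := K4 * (32 * Ka * KL) with hK
  have hKaL : 1 ≤ Ka * KL := by nlinarith
  have hK4K : K4 ≤ K := by rw [hK]; nlinarith
  have hKLK : 32 * Ka * KL ≤ K := by rw [hK]; nlinarith
  refine ⟨min c4 ca, K, lt_min hc4 hca, (min_le_left _ _).trans hc4', by linarith, ?_⟩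
  intro A₁ A₂ A₃ ω₁ ω₂ ω₃ hw1 hw2 hw3 B C H j k hB hC hH hk hj hjk hkc hLL
  have hB0 : 0 < B := by linarith
  have hC0 : 0 < C := by linarith
  have hH0 : 0 < H := by linarith
  have hk0 : (0 : ℝ) < k := by exact_mod_cast hk
  have hkc4 : (k : ℝ) / C ≤ c4 := hkc.trans (min_le_left _ _)
  have hkca : (k : ℝ) / C ≤ ca := hkc.trans (min_le_right _ _)
  set L : ℝ := LL B C H k with hLdef
  have hL0 : 0 < L := by linarith
  have hwn : ∀ (A : ℝ) (w : ℝ → ℂ), Wt A w → ∀ x, ‖w x‖ ≤ A := by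
    intro A w hw x
    have := hw.bound 0 (by norm_num) x
    rwa [iteratedDeriv_zero] at this
  have hA1 : 0 ≤ A₁ := (norm_nonneg _).trans (hwn _ _ hw1 0)
  have hA2 : 0 ≤ A₂ := (norm_nonneg _).trans (hwn _ _ hw2 0)
  have hA3 : 0 ≤ A₃ := (norm_nonneg _).trans (hwn _ _ hw3 0)
  set I : Finset ℕ := Finset.Icc 1 ⌊2 * H⌋₊ with hI
  have hI1 : ∀ h ∈ I, (1 : ℝ) ≤ (h : ℝ) ∧ (h : ℝ) ≤ 2 * H := by
    intro h hh
    rw [hI, Finset.mem_Icc] at hh
    refine ⟨by exact_mod_cast hh.1, ?_⟩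
    exact (Nat.le_floor_iff (by positivity)).mp hh.2
  set W : ℕ → ℤ × ℤ → ℝ := fun h ν => (1 + |n1h B C j k ν.1 h|) ^ (-3 / 2 : ℝ) *
    (1 + |n2h B j k ν.2 h|) ^ (-3 / 2 : ℝ) with hW
  have hW0 : ∀ h ν, 0 ≤ W h ν := by
    intro h ν
    rw [hW]
    positivity
  -- the lattice sums
  have hWsum : ∀ h ∈ I, H / 2 ≤ (h : ℝ) → Summable (W h) ∧
      ∑' ν, W h ν ≤ KL * (4 * (1 + L / B)) * (4 * (1 + L / C)) := by
    intro h hh hh2
    have hh0 : (0 : ℝ) < h := by linarith [(hI1 h hh).1]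
    obtain ⟨g1, g2⟩ := hL ((h : ℝ) ^ 2 / (k * B * C)) (2 * j * k ^ 2 / (k * B * C))
      ((h : ℝ) ^ 2 / (k * B ^ 2)) (2 * j ^ 2 * k / (k * B ^ 2)) (by positivity) (by positivity)
    have hWe : W h = fun ν : ℤ × ℤ => (1 + |(h : ℝ) ^ 2 / (k * B * C) * ν.1 -
        2 * j * k ^ 2 / (k * B * C)|) ^ (-3 / 2 : ℝ) *
        (1 + |(h : ℝ) ^ 2 / (k * B ^ 2) * ν.2 - 2 * j ^ 2 * k / (k * B ^ 2)|) ^ (-3 / 2 : ℝ) := by
      funext ν
      rw [hW]
      simp only
      unfold n1h n2h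
      congr 3
      · congr 1
        ring
      · congr 1
        ring
    rw [hWe]
    refine ⟨g1, g2.trans ?_⟩
    have e1 : 1 + 1 / ((h : ℝ) ^ 2 / (k * B * C)) ≤ 4 * (1 + L / B) := by
      have : 1 / ((h : ℝ) ^ 2 / (k * B * C)) ≤ 4 * (L / B) := by
        rw [hLdef]
        unfold LL
        rw [one_div_div, div_le_iff₀ (by positivity)]
        have h5 : 4 * (k * B ^ 2 * C / H ^ 2 / B) * (h : ℝ) ^ 2 =
          (k * B * C) * (4 * (h : ℝ) ^ 2 / H ^ 2) := by
          field_simp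
        rw [h5]
        have h6 : 1 ≤ 4 * (h : ℝ) ^ 2 / H ^ 2 := by
          rw [le_div_iff₀ (by positivity)]
          nlinarith
        have h7 : 0 ≤ k * B * C := by positivity
        nlinarith
      linarith
    have e2 : 1 + 1 / ((h : ℝ) ^ 2 / (k * B ^ 2)) ≤ 4 * (1 + L / C) := by
      have : 1 / ((h : ℝ) ^ 2 / (k * B ^ 2)) ≤ 4 * (L / C) := by
        rw [hLdef]
        unfold LL
        rw [one_div_div, div_le_iff₀ (by positivity)]
        have h5 : 4 * (k * B ^ 2 * C / H ^ 2 / C) * (h : ℝ) ^ 2 =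
          (k * B ^ 2) * (4 * (h : ℝ) ^ 2 / H ^ 2) := by
          field_simp
        rw [h5]
        have h6 : 1 ≤ 4 * (h : ℝ) ^ 2 / H ^ 2 := by
          rw [le_div_iff₀ (by positivity)]
          nlinarith
        have h7 : 0 ≤ k * B ^ 2 := by positivity
        nlinarith
      linarith
    have e3 : 0 ≤ 1 + 1 / ((h : ℝ) ^ 2 / (k * B * C)) := by positivity
    have e4 : 0 ≤ 1 + 1 / ((h : ℝ) ^ 2 / (k * B ^ 2)) := by positivity
    have hKL0 : 0 ≤ KL := by linarith
    apply mul_le_mul (mul_le_mul_of_nonneg_left e1 hKL0) e2 e4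
    have : 0 ≤ 4 * (1 + L / B) := by positivity
    positivity
  -- Poisson summation
  set S : ℕ → ℂ := fun h => ∑ b ∈ Finset.Icc 1 ⌊2 * B⌋₊, ∑ c ∈ Finset.Icc 1 ⌊2 * C⌋₊,
      ω₁ ((b : ℝ) / B) * ω₂ ((c : ℝ) / C) * ee (ph j k h b c) with hSdef
  have hS : ∀ h ∈ I, HasSum (fun ν : ℤ × ℤ => ((B * C : ℝ) : ℂ) * Jh ω₁ ω₂ B C j k h ν.1 ν.2)
      (S h) := by
    intro h hh
    exact hP1 A₁ A₂ ω₁ ω₂ hw1 hw2 B C hB hC j k h (by linarith [(hI1 h hh).1])
  have hTT : TT ω₁ ω₂ ω₃ B C H j k = ∑ h ∈ I, ω₃ ((h : ℝ) / H) * S h := by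
    unfold TT
    apply Finset.sum_congr rfl
    intro h _
    rw [hSdef]
    simp only
    rw [Finset.mul_sum]
    apply Finset.sum_congr rfl
    intro b _
    rw [Finset.mul_sum]
    apply Finset.sum_congr rfl
    intro c _
    ring
  have hsum : HasSum (fun ν : ℤ × ℤ => ∑ h ∈ I, ω₃ ((h : ℝ) / H) *
      (((B * C : ℝ) : ℂ) * Jh ω₁ ω₂ B C j k h ν.1 ν.2)) (TT ω₁ ω₂ ω₃ B C H j k) := by
    rw [hTT]
    exact hasSum_sum (fun h hh => (hS h hh).mul_left _)
  -- the majorant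
  set J : Finset ℕ := I.filter (fun h => H / 2 ≤ (h : ℝ)) with hJ
  set g1 : ℤ × ℤ → ℝ := fun ν => B * C * (K4 * A₁ * A₂ * A₃ / L *
    Th H (K4 * DH B C H j k ν) (fH B C H j k ν)) with hg1
  set q : ℝ := B * C * (A₃ * (Ka * A₁ * A₂ / L ^ 2)) with hq
  have hq0 : 0 ≤ q := by
    rw [hq]
    have : 0 ≤ Ka := by linarith
    positivity
  have hg10 : ∀ ν, 0 ≤ g1 ν := by
    intro ν
    rw [hg1]
    have h1 := E1_Th_nonneg H (K4 * DH B C H j k ν) (fH B C H j k ν) hH
    have h2 : 0 ≤ K4 := by linarith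
    positivity
  have hG1 : HasSum (fun ν : ℤ × ℤ => if ν ∈ Zs B C H j k then g1 ν else 0)
      (∑ ν ∈ Zs B C H j k, g1 ν) := by
    have h1 : HasSum (fun ν : ℤ × ℤ => if ν ∈ Zs B C H j k then g1 ν else 0)
        (∑ ν ∈ Zs B C H j k, (if ν ∈ Zs B C H j k then g1 ν else 0)) :=
      hasSum_sum_of_ne_finset_zero (fun ν hν => if_neg hν)
    have h2 : ∑ ν ∈ Zs B C H j k, (if ν ∈ Zs B C H j k then g1 ν else 0) =
        ∑ ν ∈ Zs B C H j k, g1 ν :=
      Finset.sum_congr rfl (fun ν hν => by rw [if_pos hν])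
    rwa [h2] at h1
  have hG2 : HasSum (fun ν : ℤ × ℤ => ∑ h ∈ J, q * W h ν) (∑ h ∈ J, q * ∑' ν, W h ν) := by
    apply hasSum_sum
    intro h hh
    rw [hJ, Finset.mem_filter] at hh
    exact (hWsum h hh.1 hh.2).1.hasSum.mul_left q
  have hG := hG1.add hG2
  have hbound : ∀ ν : ℤ × ℤ, ‖∑ h ∈ I, ω₃ ((h : ℝ) / H) *
      (((B * C : ℝ) : ℂ) * Jh ω₁ ω₂ B C j k h ν.1 ν.2)‖ ≤
      (if ν ∈ Zs B C H j k then g1 ν else 0) + ∑ h ∈ J, q * W h ν := by
    intro ν
    have hnn : 0 ≤ ∑ h ∈ J, q * W h ν :=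
      Finset.sum_nonneg (fun h _ => mul_nonneg hq0 (hW0 h ν))
    by_cases hν : ν ∈ Zs B C H j k
    · rw [if_pos hν]
      have h1 : ∑ h ∈ I, ω₃ ((h : ℝ) / H) * (((B * C : ℝ) : ℂ) * Jh ω₁ ω₂ B C j k h ν.1 ν.2) =
          ((B * C : ℝ) : ℂ) * ∑ h ∈ I, ω₃ ((h : ℝ) / H) * Jh ω₁ ω₂ B C j k h ν.1 ν.2 := by
        rw [Finset.mul_sum]
        apply Finset.sum_congr rfl
        intro h _
        ring
      rw [h1, norm_mul, Complex.norm_real, Real.norm_of_nonneg (by positivity : 0 ≤ B * C)]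
      have h2 := h4 A₁ A₂ A₃ ω₁ ω₂ ω₃ hw1 hw2 hw3 B C H j k hB hC hH hk hj hjk hkc4 ν hν
      have h3 := mul_le_mul_of_nonneg_left h2 (by positivity : 0 ≤ B * C)
      rw [hg1]
      linarith
    · rw [if_neg hν, zero_add]
      have h1 : ∑ h ∈ I, ω₃ ((h : ℝ) / H) * (((B * C : ℝ) : ℂ) * Jh ω₁ ω₂ B C j k h ν.1 ν.2) =
          ∑ h ∈ J, ω₃ ((h : ℝ) / H) * (((B * C : ℝ) : ℂ) * Jh ω₁ ω₂ B C j k h ν.1 ν.2) := by
        rw [hJ, Finset.sum_filter]
        apply Finset.sum_congr rfl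
        intro h _
        split_ifs with hc
        · rfl
        · have : ω₃ ((h : ℝ) / H) = 0 := by
            by_contra hne
            have h5 := (hw3.supp _ hne).1
            rw [le_div_iff₀ hH0] at h5
            exact hc (by linarith)
          rw [this, zero_mul]
      rw [h1]
      refine (norm_sum_le _ _).trans (Finset.sum_le_sum ?_)
      intro h hh
      rw [hJ, Finset.mem_filter] at hh
      rw [norm_mul, norm_mul, Complex.norm_real, Real.norm_of_nonneg (by positivity : 0 ≤ B * C)]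
      have h2 := ha A₁ A₂ ω₁ ω₂ hw1 hw2 B C H j k hB hC hH hk hj hjk hkca hLL ν hν h hh.2
        (hI1 h hh.1).2
      have h3 := hwn _ _ hw3 ((h : ℝ) / H)
      have h6 : 0 ≤ Ka := by linarith
      calc ‖ω₃ ((h : ℝ) / H)‖ * (B * C * ‖Jh ω₁ ω₂ B C j k h ν.1 ν.2‖)
          ≤ A₃ * (B * C * (Ka * A₁ * A₂ / L ^ 2 * W h ν)) := by
            apply mul_le_mul h3 _ (by positivity) hA3
            exact mul_le_mul_of_nonneg_left h2 (by positivity)
        _ = q * W h ν := by rw [hq]; ring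
  have hfin := hsum.norm_le_of_bounded hG hbound
  refine hfin.trans ?_
  -- the first part
  set T : ℝ := ∑ ν ∈ Zs B C H j k, Th H (K * DH B C H j k ν) (fH B C H j k ν) with hT
  have hlam : 1 ≤ 32 * Ka * KL := by nlinarith
  have f1 : ∑ ν ∈ Zs B C H j k, g1 ν ≤ K * A₁ * A₂ * A₃ * (B * C / L * T) := by
    rw [hT, Finset.mul_sum, Finset.mul_sum]
    apply Finset.sum_le_sum
    intro ν _
    have hDH : 0 ≤ DH B C H j k ν := abs_nonneg _
    have h1 := E1_Th_mono H (K4 * DH B C H j k ν) (fH B C H j k ν) (32 * Ka * KL) hH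
      (by have : 0 ≤ K4 := by linarith
          positivity) hlam
    have h2 : 32 * Ka * KL * (K4 * DH B C H j k ν) = K * DH B C H j k ν := by rw [hK]; ring
    rw [h2] at h1
    have h3 : √(32 * Ka * KL) ≤ 32 * Ka * KL := by
      rw [Real.sqrt_le_left (by linarith)]
      nlinarith
    have h4 := E1_Th_nonneg H (K * DH B C H j k ν) (fH B C H j k ν) hH
    have h5 : Th H (K4 * DH B C H j k ν) (fH B C H j k ν) ≤
        32 * Ka * KL * Th H (K * DH B C H j k ν) (fH B C H j k ν) :=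
      h1.trans (mul_le_mul_of_nonneg_right h3 h4)
    have h6 : 0 ≤ B * C * (K4 * A₁ * A₂ * A₃ / L) := by
      have : 0 ≤ K4 := by linarith
      positivity
    calc g1 ν = B * C * (K4 * A₁ * A₂ * A₃ / L) *
          Th H (K4 * DH B C H j k ν) (fH B C H j k ν) := by rw [hg1]; ring
      _ ≤ B * C * (K4 * A₁ * A₂ * A₃ / L) *
          (32 * Ka * KL * Th H (K * DH B C H j k ν) (fH B C H j k ν)) :=
          mul_le_mul_of_nonneg_left h5 h6
      _ = K * A₁ * A₂ * A₃ * (B * C / L * Th H (K * DH B C H j k ν) (fH B C H j k ν)) := by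
          rw [hK]; ring
  -- the second part
  have f2 : ∑ h ∈ J, q * ∑' ν, W h ν ≤
      K * A₁ * A₂ * A₃ * (B * C * H * (1 + L / B) * (1 + L / C) / L ^ 2) := by
    have hcard : (J.card : ℝ) ≤ 2 * H := by
      have h1 : J.card ≤ I.card := Finset.card_filter_le _ _
      have h2 : I.card = ⌊2 * H⌋₊ := by rw [hI, Nat.card_Icc]; simp
      have h3 : (⌊2 * H⌋₊ : ℝ) ≤ 2 * H := Nat.floor_le (by positivity)
      have h4 : (J.card : ℝ) ≤ (I.card : ℝ) := by exact_mod_cast h1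
      rw [h2] at h4
      linarith
    have hX : 0 ≤ KL * (4 * (1 + L / B)) * (4 * (1 + L / C)) := by
      have : 0 ≤ KL := by linarith
      positivity
    calc ∑ h ∈ J, q * ∑' ν, W h ν ≤ ∑ h ∈ J, q * (KL * (4 * (1 + L / B)) * (4 * (1 + L / C))) := by
          apply Finset.sum_le_sum
          intro h hh
          rw [hJ, Finset.mem_filter] at hh
          exact mul_le_mul_of_nonneg_left (hWsum h hh.1 hh.2).2 hq0
      _ = J.card * (q * (KL * (4 * (1 + L / B)) * (4 * (1 + L / C)))) := by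
          rw [Finset.sum_const, nsmul_eq_mul]
      _ ≤ 2 * H * (q * (KL * (4 * (1 + L / B)) * (4 * (1 + L / C)))) :=
          mul_le_mul_of_nonneg_right hcard (mul_nonneg hq0 hX)
      _ = (32 * Ka * KL) * (A₁ * A₂ * A₃ * (B * C * H * (1 + L / B) * (1 + L / C) / L ^ 2)) := by
          rw [hq]; ring
      _ ≤ K * (A₁ * A₂ * A₃ * (B * C * H * (1 + L / B) * (1 + L / C) / L ^ 2)) :=
          mul_le_mul_of_nonneg_right hKLK (by positivity)
      _ = K * A₁ * A₂ * A₃ * (B * C * H * (1 + L / B) * (1 + L / C) / L ^ 2) := by ring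
  calc _ ≤ K * A₁ * A₂ * A₃ * (B * C / L * T) +
        K * A₁ * A₂ * A₃ * (B * C * H * (1 + L / B) * (1 + L / C) / L ^ 2) := add_le_add f1 f2
    _ = _ := by ring

end Pool.Agent.H304R4.CM
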