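import Pool.Agent.H304R4.CM.Stubs

open Complex MeasureTheory Filter Topology

namespace Pool.Agent.H304R4.CM

namespace I2aux

theorem norm_ee (x : ℝ) : ‖ee x‖ = 1 := by
  unfold ee
  exact Complex.norm_exp_ofReal_mul_I _

theorem ee_cont : Continuous ee := by
  unfold ee
  fun_prop

theorem ee_deriv {φ : ℝ → ℝ} {φ' x : ℝ} (h : HasDerivAt φ φ' x) (L : ℝ) :
    HasDerivAt (fun x => ee (L * φ x)) (ee (L * φ x) * ((((2 * Real.pi * L : ℝ) : ℂ) * I) * (φ' : ℂ))) x := by
  unfold ee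
  have h1 : HasDerivAt (fun x => ((2 * Real.pi * (L * φ x) : ℝ) : ℂ) * I)
      (((2 * Real.pi * (L * φ') : ℝ) : ℂ) * I) x := by
    have h2 : HasDerivAt (fun x => 2 * Real.pi * (L * φ x)) (2 * Real.pi * (L * φ')) x :=
      (h.const_mul L).const_mul _
    exact h2.ofReal_comp.mul_const I
  have h3 := h1.cexp
  have e : ((((2 * Real.pi * L : ℝ) : ℂ) * I) * (φ' : ℂ)) = ((2 * Real.pi * (L * φ') : ℝ) : ℂ) * I := by
    push_cast; ring
  rw [e]
  exact h3

theorem key (f f1 f2 f3 R E : ℝ → ℂ) (a c s p : ℂ) (x : ℝ) (hf : HasDerivAt f (f1 x) x)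
    (hf1 : HasDerivAt f1 (f2 x) x) (hf2 : HasDerivAt f2 (f3 x) x)
    (hR : HasDerivAt R (-a * R x ^ 2) x) (hE : HasDerivAt E (E x * (c * p)) x)
    (h1 : p * R x = 1) (h2 : c * s = 1) :
    HasDerivAt (fun x => E x * (s * (f x * R x) - s ^ 2 * (f1 x * R x ^ 2 - a * f x * R x ^ 3) +
        s ^ 3 * (f2 x * R x ^ 3 - 3 * a * f1 x * R x ^ 4 + 3 * a ^ 2 * f x * R x ^ 5)))
      (E x * (f x + s ^ 3 * (f3 x * R x ^ 3 - 6 * a * f2 x * R x ^ 4 +
        15 * a ^ 2 * f1 x * R x ^ 5 - 15 * a ^ 3 * f x * R x ^ 6))) x := by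
  have hd := hE.mul ((((hf.mul hR).const_mul s).sub
    (((hf1.mul (hR.pow 2)).sub ((hf.const_mul a).mul (hR.pow 3))).const_mul (s ^ 2))).add
    ((((hf2.mul (hR.pow 3)).sub ((hf1.const_mul (3 * a)).mul (hR.pow 4))).add
      ((hf.const_mul (3 * a ^ 2)).mul (hR.pow 5))).const_mul (s ^ 3)))
  refine hd.congr_deriv ?_
  simp only [Pi.mul_apply, Pi.pow_apply, Pi.sub_apply, Pi.add_apply, Pi.smul_apply]
  linear_combination (E x * p * (f x * R x - s * (f1 x * R x ^ 2 - a * f x * R x ^ 3) +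
    s ^ 2 * (f2 x * R x ^ 3 - 3 * a * f1 x * R x ^ 4 + 3 * a ^ 2 * f x * R x ^ 5))) * h2 +
    E x * (f x - s * (f1 x * R x - a * f x * R x ^ 2) +
      s ^ 2 * (f2 x * R x ^ 2 - 3 * a * f1 x * R x ^ 3 + 3 * a ^ 2 * f x * R x ^ 4)) * h1

theorem iter_zero {f : ℝ → ℂ} {x : ℝ} (h : f =ᶠ[𝓝 x] fun _ => 0) (m : ℕ) :
    iteratedDeriv m f x = 0 := by
  rw [h.iteratedDeriv_eq m]
  induction m with
  | zero => simp
  | succ m ih => simp [iteratedDeriv_const]

theorem one_dim {f : ℝ → ℂ} (hf : ContDiff ℝ (⊤ : ℕ∞) f)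
    (hs : ∀ x, f x ≠ 0 → 1 / 2 ≤ x ∧ x ≤ 2) {A : ℝ}
    (hA : ∀ m : ℕ, m ≤ 3 → ∀ x, ‖iteratedDeriv m f x‖ ≤ A) {L : ℝ} (hL : 0 < L) {α β : ℝ}
    (hα : |α| ≤ 8) {N : ℝ} (hN : 100 ≤ N) (hp : ∀ x, 0 ≤ x → x ≤ 3 → N / 2 ≤ |α * x + β|)
    {φ : ℝ → ℝ} (hφ : ∀ x, HasDerivAt φ (α * x + β) x) :
    ‖∫ x, f x * ee (L * φ x)‖ ≤ 8 * A / (L * N) ^ 3 := by
  have hA0 : 0 ≤ A := (norm_nonneg _).trans (hA 0 (by norm_num) 0)
  have hN0 : 0 < N := by linarith
  have hpi := Real.pi_gt_three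
  set c : ℂ := ((2 * Real.pi * L : ℝ) : ℂ) * I with hc
  have hLne : (2 * Real.pi * L : ℝ) ≠ 0 := by positivity
  have hc0 : c ≠ 0 := by
    rw [hc]
    exact mul_ne_zero (by exact_mod_cast hLne) I_ne_zero
  set s : ℂ := c⁻¹ with hsdef
  have hcs : c * s = 1 := mul_inv_cancel₀ hc0
  have hsn : ‖s‖ = 1 / (2 * Real.pi * L) := by
    rw [hsdef, norm_inv, hc, norm_mul, Complex.norm_I, mul_one, Complex.norm_real, Real.norm_eq_abs,
      abs_of_pos (by positivity), one_div]
  have hd : ∀ m : ℕ, ∀ x, HasDerivAt (iteratedDeriv m f) (iteratedDeriv (m + 1) f x) x := by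
    intro m x
    rw [iteratedDeriv_succ]
    exact ((hf.differentiable_iteratedDeriv m (by exact_mod_cast ENat.coe_lt_top m)) x).hasDerivAt
  have hcont : ∀ m : ℕ, Continuous (iteratedDeriv m f) := fun m =>
    continuous_iff_continuousAt.2 fun x => (hd m x).continuousAt
  have hpne : ∀ x, 0 ≤ x → x ≤ 3 → α * x + β ≠ 0 := by
    intro x h0 h3 h
    have := hp x h0 h3
    rw [h, abs_zero] at this
    linarith
  set R : ℝ → ℂ := fun x => (((α * x + β)⁻¹ : ℝ) : ℂ) with hR
  set E : ℝ → ℂ := fun x => ee (L * φ x) with hE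
  have hφc : Continuous φ := continuous_iff_continuousAt.2 fun x => (hφ x).continuousAt
  have hEc : Continuous E := ee_cont.comp (continuous_const.mul hφc)
  have hRc : ContinuousOn R (Set.uIcc 0 3) := by
    rw [Set.uIcc_of_le (by norm_num)]
    apply Complex.continuous_ofReal.comp_continuousOn
    apply ContinuousOn.inv₀ (by fun_prop)
    intro x hx
    exact hpne x hx.1 hx.2
  have hRd : ∀ x, 0 ≤ x → x ≤ 3 → HasDerivAt R (-(α : ℂ) * R x ^ 2) x := by
    intro x h0 h3
    have h1 : HasDerivAt (fun x : ℝ => α * x + β) α x := by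
      simpa using ((hasDerivAt_id x).const_mul α).add_const β
    have h2 := (h1.fun_inv (hpne x h0 h3)).ofReal_comp
    refine h2.congr_deriv ?_
    simp only [hR]
    push_cast
    rw [div_eq_mul_inv, inv_pow]
  set D3 : ℝ → ℂ := fun x => iteratedDeriv 3 f x * R x ^ 3 - 6 * (α : ℂ) * iteratedDeriv 2 f x * R x ^ 4 +
        15 * (α : ℂ) ^ 2 * iteratedDeriv 1 f x * R x ^ 5 - 15 * (α : ℂ) ^ 3 * f x * R x ^ 6 with hD3
  have hD3c : ContinuousOn D3 (Set.uIcc 0 3) := by
    have h0 := (hcont 3).continuousOn (s := Set.uIcc (0 : ℝ) 3)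
    have h1 := (hcont 2).continuousOn (s := Set.uIcc (0 : ℝ) 3)
    have h2 := (hcont 1).continuousOn (s := Set.uIcc (0 : ℝ) 3)
    have h3 := hf.continuous.continuousOn (s := Set.uIcc (0 : ℝ) 3)
    simp only [hD3]
    fun_prop
  have hsupp : Function.support (fun x => f x * E x) ⊆ Set.Ioc 0 3 := by
    intro x hx
    have h1 : f x ≠ 0 := left_ne_zero_of_mul hx
    have := hs x h1
    constructor <;> linarith
  rw [← intervalIntegral.integral_eq_integral_of_support_subset hsupp]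
  -- the primitive
  have hzero : ∀ m : ℕ, iteratedDeriv m f 0 = 0 ∧ iteratedDeriv m f 3 = 0 := by
    intro m
    constructor
    · apply iter_zero
      filter_upwards [Iio_mem_nhds (show (0 : ℝ) < 1 / 2 by norm_num)] with x hx
      by_contra h
      have := (hs x h).1
      rw [Set.mem_Iio] at hx
      linarith
    · apply iter_zero
      filter_upwards [Ioi_mem_nhds (show (2 : ℝ) < 3 by norm_num)] with x hx
      by_contra h
      have := (hs x h).2
      rw [Set.mem_Ioi] at hx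
      linarith
  have hFTC : ∫ x in (0 : ℝ)..3, E x * (f x + s ^ 3 * D3 x) = 0 := by
    have hder : ∀ x ∈ Set.uIcc (0 : ℝ) 3, HasDerivAt (fun x => E x * (s * (f x * R x) -
        s ^ 2 * (iteratedDeriv 1 f x * R x ^ 2 - (α : ℂ) * f x * R x ^ 3) +
        s ^ 3 * (iteratedDeriv 2 f x * R x ^ 3 - 3 * (α : ℂ) * iteratedDeriv 1 f x * R x ^ 4 +
          3 * (α : ℂ) ^ 2 * f x * R x ^ 5))) (E x * (f x + s ^ 3 * D3 x)) x := by
      intro x hx
      rw [Set.uIcc_of_le (by norm_num)] at hx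
      have h0 := hd 0 x
      rw [iteratedDeriv_zero] at h0
      apply key f (iteratedDeriv 1 f) (iteratedDeriv 2 f) (iteratedDeriv 3 f) R E (α : ℂ) c s
        (((α * x + β : ℝ)) : ℂ) x h0 (hd 1 x) (hd 2 x) (hRd x hx.1 hx.2) (ee_deriv (hφ x) L) _ hcs
      simp only [hR]
      rw [← Complex.ofReal_mul, mul_inv_cancel₀ (hpne x hx.1 hx.2), Complex.ofReal_one]
    rw [intervalIntegral.integral_eq_sub_of_hasDerivAt hder]
    · have z0 := hzero 0
      rw [iteratedDeriv_zero] at z0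
      rw [z0.1, z0.2, (hzero 1).1, (hzero 1).2, (hzero 2).1, (hzero 2).2]
      ring
    · apply ContinuousOn.intervalIntegrable
      have h3 := hf.continuous.continuousOn (s := Set.uIcc (0 : ℝ) 3)
      have h4 := hEc.continuousOn (s := Set.uIcc (0 : ℝ) 3)
      exact h4.mul (h3.add (continuousOn_const.mul hD3c))
  have hsplit : ∫ x in (0 : ℝ)..3, f x * E x = -∫ x in (0 : ℝ)..3, E x * (s ^ 3 * D3 x) := by
    have h3 := hf.continuous.continuousOn (s := Set.uIcc (0 : ℝ) 3)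
    have h4 := hEc.continuousOn (s := Set.uIcc (0 : ℝ) 3)
    have i1 : IntervalIntegrable (fun x => f x * E x) volume 0 3 :=
      (h3.mul h4).intervalIntegrable
    have i2 : IntervalIntegrable (fun x => E x * (s ^ 3 * D3 x)) volume 0 3 :=
      (h4.mul (continuousOn_const.mul hD3c)).intervalIntegrable
    have h5 := intervalIntegral.integral_add i1 i2
    have h6 : ∫ x in (0 : ℝ)..3, (f x * E x + E x * (s ^ 3 * D3 x)) = 0 := by
      rw [← hFTC]
      congr 1
      funext x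
      ring
    rw [h6] at h5
    exact eq_neg_of_add_eq_zero_left h5.symm
  rw [hsplit, norm_neg]
  have hbd : ∀ x ∈ Set.uIoc (0 : ℝ) 3, ‖E x * (s ^ 3 * D3 x)‖ ≤
      (1 / (2 * Real.pi * L)) ^ 3 * (37 * A * (2 / N) ^ 3) := by
    intro x hx
    rw [Set.uIoc_of_le (by norm_num)] at hx
    have h1 : ‖E x‖ = 1 := norm_ee _
    rw [norm_mul, h1, one_mul, norm_mul, norm_pow, hsn]
    apply mul_le_mul_of_nonneg_left _ (by positivity)
    have hRn : ‖R x‖ ≤ 2 / N := by
      simp only [hR]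
      rw [Complex.norm_real, Real.norm_eq_abs, abs_inv]
      have h2 := hp x hx.1.le hx.2
      calc |α * x + β|⁻¹ ≤ (N / 2)⁻¹ := inv_anti₀ (by positivity) h2
        _ = 2 / N := by rw [inv_div]
    have hRn0 := norm_nonneg (R x)
    have haR : ‖(α : ℂ)‖ * ‖R x‖ ≤ 1 := by
      rw [Complex.norm_real, Real.norm_eq_abs]
      have h2 : 2 / N ≤ 2 / 100 := by
        apply div_le_div_of_nonneg_left (by norm_num) (by norm_num) hN
      have := abs_nonneg α
      nlinarith
    have ha0 := norm_nonneg (α : ℂ)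
    have haR0 : 0 ≤ ‖(α : ℂ)‖ * ‖R x‖ := by positivity
    have haR2 : (‖(α : ℂ)‖ * ‖R x‖) ^ 2 ≤ 1 := pow_le_one₀ haR0 haR
    have haR3 : (‖(α : ℂ)‖ * ‖R x‖) ^ 3 ≤ 1 := pow_le_one₀ haR0 haR
    have b0 := hA 0 (by norm_num) x
    rw [iteratedDeriv_zero] at b0
    have b1 := hA 1 (by norm_num) x
    have b2 := hA 2 (by norm_num) x
    have b3 := hA 3 (by norm_num) x
    have t3 : ‖iteratedDeriv 3 f x * R x ^ 3‖ ≤ A * ‖R x‖ ^ 3 := by
      rw [norm_mul, norm_pow]
      exact mul_le_mul_of_nonneg_right b3 (by positivity)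
    have t2 : ‖6 * (α : ℂ) * iteratedDeriv 2 f x * R x ^ 4‖ ≤ 6 * (A * ‖R x‖ ^ 3) := by
      have e : ‖6 * (α : ℂ) * iteratedDeriv 2 f x * R x ^ 4‖ =
          6 * (‖iteratedDeriv 2 f x‖ * (‖(α : ℂ)‖ * ‖R x‖)) * ‖R x‖ ^ 3 := by
        rw [norm_mul, norm_mul, norm_mul, norm_pow]
        have : ‖(6 : ℂ)‖ = 6 := by norm_num
        rw [this]; ring
      rw [e]
      have : ‖iteratedDeriv 2 f x‖ * (‖(α : ℂ)‖ * ‖R x‖) ≤ A * 1 :=
        mul_le_mul b2 haR haR0 hA0
      have h5 : 0 ≤ ‖R x‖ ^ 3 := by positivity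
      nlinarith
    have t1 : ‖15 * (α : ℂ) ^ 2 * iteratedDeriv 1 f x * R x ^ 5‖ ≤ 15 * (A * ‖R x‖ ^ 3) := by
      have e : ‖15 * (α : ℂ) ^ 2 * iteratedDeriv 1 f x * R x ^ 5‖ =
          15 * (‖iteratedDeriv 1 f x‖ * (‖(α : ℂ)‖ * ‖R x‖) ^ 2) * ‖R x‖ ^ 3 := by
        rw [norm_mul, norm_mul, norm_mul, norm_pow, norm_pow]
        have : ‖(15 : ℂ)‖ = 15 := by norm_num
        rw [this]; ring
      rw [e]
      have : ‖iteratedDeriv 1 f x‖ * (‖(α : ℂ)‖ * ‖R x‖) ^ 2 ≤ A * 1 :=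
        mul_le_mul b1 haR2 (by positivity) hA0
      have h5 : 0 ≤ ‖R x‖ ^ 3 := by positivity
      nlinarith
    have t0 : ‖15 * (α : ℂ) ^ 3 * f x * R x ^ 6‖ ≤ 15 * (A * ‖R x‖ ^ 3) := by
      have e : ‖15 * (α : ℂ) ^ 3 * f x * R x ^ 6‖ =
          15 * (‖f x‖ * (‖(α : ℂ)‖ * ‖R x‖) ^ 3) * ‖R x‖ ^ 3 := by
        rw [norm_mul, norm_mul, norm_mul, norm_pow, norm_pow]
        have : ‖(15 : ℂ)‖ = 15 := by norm_num
        rw [this]; ring
      rw [e]
      have : ‖f x‖ * (‖(α : ℂ)‖ * ‖R x‖) ^ 3 ≤ A * 1 :=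
        mul_le_mul b0 haR3 (by positivity) hA0
      have h5 : 0 ≤ ‖R x‖ ^ 3 := by positivity
      nlinarith
    have hR3 : ‖R x‖ ^ 3 ≤ (2 / N) ^ 3 := pow_le_pow_left₀ hRn0 hRn 3
    have hsum : ‖D3 x‖ ≤ 37 * (A * ‖R x‖ ^ 3) := by
      simp only [hD3]
      refine (norm_sub_le _ _).trans ?_
      have h7 := (norm_add_le (iteratedDeriv 3 f x * R x ^ 3 - 6 * (α : ℂ) * iteratedDeriv 2 f x * R x ^ 4)
        (15 * (α : ℂ) ^ 2 * iteratedDeriv 1 f x * R x ^ 5))
      have h8 := norm_sub_le (iteratedDeriv 3 f x * R x ^ 3) (6 * (α : ℂ) * iteratedDeriv 2 f x * R x ^ 4)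
      linarith
    refine hsum.trans ?_
    have := mul_le_mul_of_nonneg_left hR3 hA0
    linarith
  refine (intervalIntegral.norm_integral_le_of_norm_le_const hbd).trans ?_
  have h9 : |(3 : ℝ) - 0| = 3 := by norm_num
  rw [h9]
  have e1 : (1 / (2 * Real.pi * L)) ^ 3 * (37 * A * (2 / N) ^ 3) * 3 =
      (888 / (8 * Real.pi ^ 3)) * (A / (L * N) ^ 3) := by
    field_simp
    ring
  rw [e1, mul_div_assoc]
  apply mul_le_mul_of_nonneg_right _ (by positivity)
  rw [div_le_iff₀ (by positivity)]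
  have h10 : (27 : ℝ) ≤ Real.pi ^ 3 := by
    calc (27 : ℝ) = 3 ^ 3 := by norm_num
      _ ≤ Real.pi ^ 3 := pow_le_pow_left₀ (by norm_num) hpi.le 3
  linarith

theorem slice {r : ℕ} {A : ℝ} {a : ℝ × ℝ → ℂ} (ha : Amp r A a) (g : ℝ →L[ℝ] ℝ × ℝ)
    (hg : ‖g 1‖ ≤ 1) (w : ℝ × ℝ) :
    ContDiff ℝ (⊤ : ℕ∞) (fun t => a (g t + w)) ∧
    ∀ m : ℕ, m ≤ r → ∀ t, ‖iteratedDeriv m (fun t => a (g t + w)) t‖ ≤ A := by
  refine ⟨ha.smooth.comp (g.contDiff.add contDiff_const), fun m hm t => ?_⟩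
  have hb : ContDiff ℝ (⊤ : ℕ∞) (fun z => a (z + w)) :=
    ha.smooth.comp (contDiff_id.add contDiff_const)
  rw [iteratedDeriv_eq_iteratedFDeriv]
  have h1 := g.iteratedFDeriv_comp_right hb t (i := m) (by exact_mod_cast le_top)
  have e : (fun t => a (g t + w)) = (fun z => a (z + w)) ∘ g := rfl
  rw [e, h1, ContinuousMultilinearMap.compContinuousLinearMap_apply, iteratedFDeriv_comp_add_right]
  refine (ContinuousMultilinearMap.le_opNorm _ _).trans ?_
  have hA0 : 0 ≤ A := (norm_nonneg _).trans (ha.bound 0 (Nat.zero_le _) 0)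
  calc ‖iteratedFDeriv ℝ m a (g t + w)‖ * ∏ _i : Fin m, ‖g 1‖ ≤ A * 1 := by
        apply mul_le_mul (ha.bound m hm _) _ (by positivity) hA0
        exact Finset.prod_le_one (fun _ _ => norm_nonneg _) fun _ _ => hg
    _ = A := mul_one A

theorem outer {G : ℝ → ℂ} {M : ℝ} (h0 : ∀ y, ¬ (1 / 2 ≤ y ∧ y ≤ 2) → G y = 0)
    (h1 : ∀ y, 1 / 2 ≤ y → y ≤ 2 → ‖G y‖ ≤ M) : ‖∫ y, G y‖ ≤ 3 / 2 * M := by
  rw [← setIntegral_eq_integral_of_forall_compl_eq_zero (s := Set.Icc (1 / 2 : ℝ) 2)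
    (fun y hy => h0 y fun h => hy ⟨h.1, h.2⟩)]
  refine (norm_setIntegral_le_of_norm_le_const (by simp) (fun y hy => h1 y hy.1 hy.2)).trans ?_
  rw [measureReal_def, Real.volume_Icc, ENNReal.toReal_ofReal (by norm_num)]
  exact le_of_eq (by ring)

theorem integrable_aux {r : ℕ} {A : ℝ} {a : ℝ × ℝ → ℂ} (ha : Amp r A a) (ρ L n₁ n₂ : ℝ) :
    Integrable (fun z : ℝ × ℝ => a z * ee (L * (PP ρ z.1 z.2 - n₁ * z.1 - n₂ * z.2)))
      ((volume : Measure ℝ).prod (volume : Measure ℝ)) := by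
  apply Continuous.integrable_of_hasCompactSupport
  · apply ha.smooth.continuous.mul (ee_cont.comp _)
    unfold PP
    fun_prop
  · apply HasCompactSupport.intro (K := Set.Icc (1 / 2 : ℝ) 2 ×ˢ Set.Icc (1 / 2 : ℝ) 2)
      (isCompact_Icc.prod isCompact_Icc)
    intro z hz
    have : a z = 0 := by
      by_contra h
      have h1 := ha.supp z h
      exact hz ⟨h1.1, h1.2⟩
    rw [this, zero_mul]

end I2aux

open I2aux in
theorem t_I2 : S_I2 := by
  refine ⟨12, by norm_num, fun A a ha ρ L n₁ n₂ hρ hL => ⟨fun hn => ?_, fun hn => ?_⟩⟩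
  · unfold II
    rw [Measure.volume_eq_prod, integral_prod_symm _ (integrable_aux ha ρ L n₁ n₂)]
    have key : ‖∫ y, ∫ x, a (x, y) * ee (L * (PP ρ x y - n₁ * x - n₂ * y))‖ ≤
        3 / 2 * (8 * A / (L * |n₁|) ^ 3) := by
      apply outer
      · intro y hy
        have : ∀ x, a (x, y) = 0 := by
          intro x
          by_contra h
          exact hy (ha.supp (x, y) h).2
        simp [this]
      · intro y hy1 hy2
        have hsl := slice ha (ContinuousLinearMap.inl ℝ ℝ ℝ) (by simp) ((0 : ℝ), y)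
        have e : (fun t : ℝ => a (ContinuousLinearMap.inl ℝ ℝ ℝ t + ((0 : ℝ), y))) =
            fun t => a (t, y) := by
          funext t
          congr 1
          simp
        rw [e] at hsl
        refine one_dim hsl.1 (fun x hx => (ha.supp (x, y) hx).1) hsl.2 hL (α := 4 * y)
          (β := 2 * ρ * y ^ 2 - n₁) ?_ hn ?_ (φ := fun x => PP ρ x y - n₁ * x - n₂ * y) ?_
        · rw [abs_of_nonneg (by linarith)]; linarith
        · intro x hx0 hx3
          have h1 : |4 * y * x + 2 * ρ * y ^ 2| ≤ 32 := by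
            refine (abs_add_le _ _).trans ?_
            have e1 : |4 * y * x| ≤ 24 := by
              rw [abs_of_nonneg (by positivity)]
              nlinarith
            have e2 : |2 * ρ * y ^ 2| ≤ 8 := by
              rw [abs_mul, abs_mul, abs_of_pos (by norm_num : (0 : ℝ) < 2),
                abs_of_nonneg (by positivity : 0 ≤ y ^ 2)]
              have : y ^ 2 ≤ 4 := by nlinarith
              have := abs_nonneg ρ
              nlinarith [sq_nonneg y]
            linarith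
          have h2 : |n₁| ≤ |4 * y * x + (2 * ρ * y ^ 2 - n₁)| + |4 * y * x + 2 * ρ * y ^ 2| := by
            have e1 : n₁ = (4 * y * x + 2 * ρ * y ^ 2) - (4 * y * x + (2 * ρ * y ^ 2 - n₁)) := by ring
            have e2 := abs_sub (4 * y * x + 2 * ρ * y ^ 2) (4 * y * x + (2 * ρ * y ^ 2 - n₁))
            rw [← e1] at e2
            linarith
          linarith
        · intro x
          unfold PP
          have h1 : HasDerivAt (fun x : ℝ => 2 * x ^ 2 * y) (4 * y * x) x := by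
            have := (((hasDerivAt_id x).pow 2).const_mul 2).mul_const y
            refine this.congr_deriv ?_
            simp; ring
          have h2 : HasDerivAt (fun x : ℝ => 2 * ρ * x * y ^ 2) (2 * ρ * y ^ 2) x := by
            have := ((hasDerivAt_id x).const_mul (2 * ρ)).mul_const (y ^ 2)
            refine this.congr_deriv ?_
            simp
          have h3 : HasDerivAt (fun x : ℝ => n₁ * x) n₁ x := by
            simpa using (hasDerivAt_id x).const_mul n₁
          refine (((h1.add h2).sub h3).sub_const (n₂ * y)).congr_deriv ?_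
          ring
    refine key.trans (le_of_eq ?_)
    ring
  · unfold II
    rw [Measure.volume_eq_prod, integral_prod _ (integrable_aux ha ρ L n₁ n₂)]
    have key : ‖∫ x, ∫ y, a (x, y) * ee (L * (PP ρ x y - n₁ * x - n₂ * y))‖ ≤
        3 / 2 * (8 * A / (L * |n₂|) ^ 3) := by
      apply outer
      · intro x hx
        have : ∀ y, a (x, y) = 0 := by
          intro y
          by_contra h
          exact hx (ha.supp (x, y) h).1
        simp [this]
      · intro x hx1 hx2
        have hsl := slice ha (ContinuousLinearMap.inr ℝ ℝ ℝ) (by simp) (x, (0 : ℝ))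
        have e : (fun t : ℝ => a (ContinuousLinearMap.inr ℝ ℝ ℝ t + (x, (0 : ℝ)))) =
            fun t => a (x, t) := by
          funext t
          congr 1
          simp
        rw [e] at hsl
        refine one_dim hsl.1 (fun y hy => (ha.supp (x, y) hy).2) hsl.2 hL (α := 4 * ρ * x)
          (β := 2 * x ^ 2 - n₂) ?_ hn ?_ (φ := fun y => PP ρ x y - n₁ * x - n₂ * y) ?_
        · rw [abs_mul, abs_mul, abs_of_pos (by norm_num : (0 : ℝ) < 4),
            abs_of_nonneg (by linarith : 0 ≤ x)]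
          have := abs_nonneg ρ
          nlinarith
        · intro y hy0 hy3
          have h1 : |4 * ρ * x * y + 2 * x ^ 2| ≤ 32 := by
            refine (abs_add_le _ _).trans ?_
            have e1 : |4 * ρ * x * y| ≤ 24 := by
              have e3 : |4 * ρ * x * y| = 4 * |ρ| * (x * y) := by
                rw [abs_mul, abs_mul, abs_mul, abs_of_pos (by norm_num : (0 : ℝ) < 4),
                  abs_of_nonneg (by linarith : 0 ≤ x), abs_of_nonneg hy0]
                ring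
              rw [e3]
              have h5 : x * y ≤ 6 := by nlinarith
              have h6 : 0 ≤ x * y := by positivity
              have := abs_nonneg ρ
              nlinarith
            have e2 : |2 * x ^ 2| ≤ 8 := by
              rw [abs_of_nonneg (by positivity)]
              nlinarith
            linarith
          have h2 : |n₂| ≤ |4 * ρ * x * y + (2 * x ^ 2 - n₂)| + |4 * ρ * x * y + 2 * x ^ 2| := by
            have e1 : n₂ = (4 * ρ * x * y + 2 * x ^ 2) - (4 * ρ * x * y + (2 * x ^ 2 - n₂)) := by ring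
            have e2 := abs_sub (4 * ρ * x * y + 2 * x ^ 2) (4 * ρ * x * y + (2 * x ^ 2 - n₂))
            rw [← e1] at e2
            linarith
          linarith
        · intro y
          unfold PP
          have h1 : HasDerivAt (fun y : ℝ => 2 * x ^ 2 * y) (2 * x ^ 2) y := by
            simpa using (hasDerivAt_id y).const_mul (2 * x ^ 2)
          have h2 : HasDerivAt (fun y : ℝ => 2 * ρ * x * y ^ 2) (4 * ρ * x * y) y := by
            have := ((hasDerivAt_id y).pow 2).const_mul (2 * ρ * x)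
            refine this.congr_deriv ?_
            simp; ring
          have h3 : HasDerivAt (fun y : ℝ => n₂ * y) n₂ y := by
            simpa using (hasDerivAt_id y).const_mul n₂
          refine (((h1.add h2).sub_const (n₁ * x)).sub h3).congr_deriv ?_
          ring
    refine key.trans (le_of_eq ?_)
    ring

end Pool.Agent.H304R4.CM
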