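import Pool.Agent.H304R4.CM.Stubs

open Complex MeasureTheory Filter Topology

namespace Pool.Agent.H304R4.CM

theorem SY_norm_ee (x : ℝ) : ‖ee x‖ = 1 := by
  unfold ee
  exact Complex.norm_exp_ofReal_mul_I _

theorem SY_conj_ee (x : ℝ) : (starRingEnd ℂ) (ee x) = ee (-x) := by
  unfold ee
  rw [← Complex.exp_conj, map_mul, Complex.conj_ofReal, Complex.conj_I]
  congr 1
  push_cast
  ring

theorem SY_wt {A : ℝ} {w : ℝ → ℂ} (h : Wt A w) (x : ℝ) : ‖w x‖ ≤ A := by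
  have := h.bound 0 (by norm_num) x
  simpa using this

theorem SY_nonneg {A : ℝ} {w : ℝ → ℂ} (h : Wt A w) : 0 ≤ A := (norm_nonneg _).trans (SY_wt h 0)

theorem SY_count {A : ℝ} (hA : 0 ≤ A) {B C H : ℝ} (hB : 0 ≤ B) (hC : 0 ≤ C) (hH : 0 ≤ H)
    (F : ℕ → ℕ → ℕ → ℂ) (hF : ∀ h b c, ‖F h b c‖ ≤ A) :
    ‖∑ h ∈ Finset.Icc 1 ⌊2 * H⌋₊, ∑ b ∈ Finset.Icc 1 ⌊2 * B⌋₊, ∑ c ∈ Finset.Icc 1 ⌊2 * C⌋₊,
      F h b c‖ ≤ 8 * A * (B * C * H) := by
  have key : ∀ (X a : ℝ) (f : ℕ → ℂ), 0 ≤ X → 0 ≤ a → (∀ n, ‖f n‖ ≤ a) →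
      ‖∑ n ∈ Finset.Icc 1 ⌊2 * X⌋₊, f n‖ ≤ 2 * X * a := by
    intro X a f hX ha hf
    refine (norm_sum_le_of_le _ fun n _ => hf n).trans ?_
    rw [Finset.sum_const, Nat.card_Icc, nsmul_eq_mul, Nat.add_sub_cancel]
    exact mul_le_mul_of_nonneg_right (Nat.floor_le (by positivity)) ha
  have h1 : ∀ h b, ‖∑ c ∈ Finset.Icc 1 ⌊2 * C⌋₊, F h b c‖ ≤ 2 * C * A := fun h b =>
    key C A (F h b) hC hA (hF h b)
  have h2 : ∀ h, ‖∑ b ∈ Finset.Icc 1 ⌊2 * B⌋₊, ∑ c ∈ Finset.Icc 1 ⌊2 * C⌋₊, F h b c‖ ≤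
      2 * B * (2 * C * A) := fun h => key B _ _ hB (by positivity) (h1 h)
  have h3 := key H (2 * B * (2 * C * A)) (fun h => ∑ b ∈ Finset.Icc 1 ⌊2 * B⌋₊,
    ∑ c ∈ Finset.Icc 1 ⌊2 * C⌋₊, F h b c) hH (by positivity) h2
  refine h3.trans (le_of_eq ?_)
  ring

theorem t_SY : S_SY := by
  refine ⟨?_, ?_, ?_, ?_⟩
  · intro ω₁ ω₂ ω₃ B C H j k
    unfold TT
    refine Finset.sum_congr rfl fun h _ => ?_
    rw [Finset.sum_comm]
    refine Finset.sum_congr rfl fun c _ => Finset.sum_congr rfl fun b _ => ?_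
    have : ph (j : ℝ) k h b c = ph (k : ℝ) j h c b := by
      unfold ph
      ring
    rw [this]
    ring
  · intro ω₁ ω₂ ω₃ B C H j k
    have : TT (fun x => (starRingEnd ℂ) (ω₁ x)) (fun x => (starRingEnd ℂ) (ω₂ x))
        (fun x => (starRingEnd ℂ) (ω₃ x)) B C H j k =
        (starRingEnd ℂ) (TT ω₁ ω₂ ω₃ B C H (-j) (-k)) := by
      unfold TT
      rw [map_sum]
      refine Finset.sum_congr rfl fun h _ => ?_
      rw [map_sum]
      refine Finset.sum_congr rfl fun b _ => ?_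
      rw [map_sum]
      refine Finset.sum_congr rfl fun c _ => ?_
      rw [map_mul, map_mul, map_mul, SY_conj_ee]
      have : -ph ((-j : ℤ) : ℝ) ((-k : ℤ) : ℝ) h b c = ph (j : ℝ) k h b c := by
        unfold ph
        push_cast
        ring
      rw [this]
    rw [this, RCLike.norm_conj]
  · intro w₁ w₂ w₃ B C H
    unfold S3
    refine Finset.sum_congr rfl fun h _ => ?_
    rw [Finset.sum_comm]
    refine Finset.sum_congr rfl fun c _ => Finset.sum_congr rfl fun b _ => ?_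
    rw [mul_comm (b : ℝ) (c : ℝ)]
    ring
  · intro A₁ A₂ A₃ ω₁ ω₂ ω₃ h₁ h₂ h₃ B C H hB hC hH
    have a1 := SY_nonneg h₁
    have a2 := SY_nonneg h₂
    have a3 := SY_nonneg h₃
    have hterm : ∀ x y z t : ℝ, ‖ω₁ x * ω₂ y * ω₃ z * ee t‖ ≤ A₁ * A₂ * A₃ := by
      intro x y z t
      rw [norm_mul, norm_mul, norm_mul, SY_norm_ee, mul_one]
      exact mul_le_mul (mul_le_mul (SY_wt h₁ x) (SY_wt h₂ y) (norm_nonneg _) a1)
        (SY_wt h₃ z) (norm_nonneg _) (by positivity)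
    refine ⟨fun j k => ?_, ?_⟩
    · have := SY_count (A := A₁ * A₂ * A₃) (by positivity) hB hC hH
        (fun h b c => ω₁ ((b : ℝ) / B) * ω₂ ((c : ℝ) / C) * ω₃ ((h : ℝ) / H) * ee (ph j k h b c))
        (fun h b c => hterm _ _ _ _)
      refine this.trans (le_of_eq ?_)
      ring
    · have := SY_count (A := A₁ * A₂ * A₃) (by positivity) hB hC hH
        (fun h b c => ω₁ ((b : ℝ) / B) * ω₂ ((c : ℝ) / C) * ω₃ ((h : ℝ) / H) *
          ee (((b : ℝ) * c / h) ^ 2 / 2))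
        (fun h b c => hterm _ _ _ _)
      refine this.trans (le_of_eq ?_)
      ring

end Pool.Agent.H304R4.CM
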